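import Mathlib
import Pool.Agent.H76.PN.A4
import Pool.Agent.H76.PN.A5
import Pool.Agent.H76.PN.N2
import Pool.Agent.H76.PN.N3
import Pool.Agent.H76.PN.N4

/-! This file joins several modules to save build time (M1). -/

set_option autoImplicit false

section S_H76_MQ_Df

set_option autoImplicit false
set_option linter.unusedSectionVars false
open scoped Classical

open WithZero NumberField IsDedekindDomain H38RT
open H38T1 (SC sc scu rep eo la si Pri OddP tp unif ka)
open H76PP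

namespace H76MQ

section Base

variable (K : Type) [Field K] [NumberField K]

/-- The places above two, an auxiliary place for each of them, further places. -/
structure Cfg where
  P : Finset (HeightOneSpectrum (𝓞 K))
  a : HeightOneSpectrum (𝓞 K) → HeightOneSpectrum (𝓞 K)
  R : Finset (HeightOneSpectrum (𝓞 K))

variable {K}

/-- All places of the configuration. -/
noncomputable def Cfg.S (C : Cfg K) : Finset (HeightOneSpectrum (𝓞 K)) :=
  C.P ∪ (C.P.image C.a ∪ C.R)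

/-- Two splits completely, the auxiliary places are prime to six and different, the further places
are odd and contain the places above three. -/
structure Cfg.Ok (C : Cfg K) : Prop where
  mem2 : ∀ v : HeightOneSpectrum (𝓞 K), v ∈ C.P ↔ (2 : 𝓞 K) ∈ v.asIdeal
  nv : ∀ v ∈ C.P, Nv v = 2
  sq2 : ∀ v ∈ C.P, (2 : 𝓞 K) ∉ v.asIdeal ^ 2
  a6 : ∀ v ∈ C.P, (6 : 𝓞 K) ∉ (C.a v).asIdeal
  inj : ∀ v ∈ C.P, ∀ v' ∈ C.P, C.a v = C.a v' → v = v'
  aR : ∀ v ∈ C.P, C.a v ∉ C.R
  R2 : ∀ v ∈ C.R, (2 : 𝓞 K) ∉ v.asIdeal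
  R3 : ∀ v : HeightOneSpectrum (𝓞 K), (3 : 𝓞 K) ∈ v.asIdeal → v ∈ C.R

/-- The twisting factor `d` has even order outside `P` and `R`, and it is a square at `a v` if and
only if its order at `v` is even. -/
structure TwOk (C : Cfg K) (d : 𝓞 K) : Prop where
  ne : d ≠ 0
  leg : ∀ v ∈ C.P, la (C.a v) (sc (d : K)) = eo v (sc (d : K))
  out : ∀ v : HeightOneSpectrum (𝓞 K), v ∉ C.P → v ∉ C.R → eo v (sc (d : K)) = 0

/-- The condition at the auxiliary places: `x^3 + A x + B` has a double root modulo `a`, its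
discriminant has order two and the corresponding quadratic extension is unramified and nontrivial. -/
def AuxT (a : HeightOneSpectrum (𝓞 K)) (A B : 𝓞 K) : Prop :=
  ∃ r : 𝓞 K, 3 * r ^ 2 + A ∈ a.asIdeal ^ 2 ∧ r ^ 3 + A * r + B ∈ a.asIdeal ^ 2 ∧
    ∀ s : 𝓞 K, 3 * r * (r ^ 3 + A * r + B) + s ^ 2 ∉ a.asIdeal ^ 3

/-- The family of pairs. -/
structure FamQ (C : Cfg K) (q₀ : HeightOneSpectrum (𝓞 K)) (T : Finset (HeightOneSpectrum (𝓞 K)))
    (A B : 𝓞 K) : Prop where
  two : ∀ v ∈ C.P, A - 16 ∈ v.asIdeal ^ 10 ∧ B - 16 ∈ v.asIdeal ^ 10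
  aux : ∀ v ∈ C.P, AuxT (C.a v) A B
  res : ∀ v ∈ C.R, ∀ t : 𝓞 K, t ^ 3 + A * t + B ∉ v.asIdeal
  irr : ∀ t : 𝓞 K, t ^ 3 + A * t + B ∉ q₀.asIdeal
  typ : ∀ v ∈ T, ∃ t : 𝓞 K, t ^ 3 + A * t + B ∈ v.asIdeal ∧
    ∀ s : 𝓞 K, -3 * t ^ 2 - 4 * A - s ^ 2 ∉ v.asIdeal
  sqf : ∀ v : HeightOneSpectrum (𝓞 K), v ∉ C.S → dsc A B ∉ v.asIdeal ^ 2
  pos : ∀ s : K →+* ℝ, 0 < s ((dsc A B : 𝓞 K) : K)

end Base

section Classes

variable (K : Type) {L : Type} [Field K] [NumberField K] [Field L] [NumberField L] [Algebra K L]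

/-- The classes of square norm with even valuations outside `S`. -/
def HH (S : Finset (HeightOneSpectrum (𝓞 K))) : AddSubgroup (SC L) where
  carrier := {c | scm (Algebra.norm K : L →* K) c = 0 ∧
    ∀ w : HeightOneSpectrum (𝓞 L), dn K w ∉ S → eo w c = 0}
  zero_mem' := ⟨map_zero _, fun w _ => H38T1.eo_zero w⟩
  add_mem' := by
    rintro c c' ⟨h, h1⟩ ⟨h', h1'⟩
    refine ⟨by rw [map_add, h, h', add_zero], fun w hw => ?_⟩
    rw [H38T1.eo_add, h1 w hw, h1' w hw, add_zero]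
  neg_mem' := by
    rintro c ⟨h, h1⟩
    have h2 : -c = c := by
      have h3 := H38T1.SC.two_smul c
      rw [two_nsmul] at h3
      exact neg_eq_of_add_eq_zero_left h3
    rw [h2]
    exact ⟨h, h1⟩

variable {K}

lemma mem_HH {S : Finset (HeightOneSpectrum (𝓞 K))} {c : SC L} :
    c ∈ HH K S ↔ scm (Algebra.norm K : L →* K) c = 0 ∧
      ∀ w : HeightOneSpectrum (𝓞 L), dn K w ∉ S → eo w c = 0 := Iff.rfl

end Classes

section Good

variable {K : Type} [Field K] [NumberField K]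

/-- The classes of square norm with even valuations outside `S'` are at most `b` in number and all
functionals on them are Legendre symbols at places of `T'`. -/
def GoodSt (S' T' : Finset (HeightOneSpectrum (𝓞 K))) (b : ℕ) (A B : 𝓞 K) : Prop :=
  ∀ (L : Type) [Field L] [NumberField L] [Algebra K L] (θ : L), Cub K L (A : K) (B : K) θ →
    Finite (HH K S' : AddSubgroup (SC L)) ∧ Nat.card (HH K S' : AddSubgroup (SC L)) ≤ b ∧
    ∀ φ : SC L →+ ZMod 2, ∃ v ∈ T', ∀ c ∈ (HH K S' : AddSubgroup (SC L)),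
      ∀ w : HeightOneSpectrum (𝓞 L), dn K w = v → la w c = φ c

/-- The pattern `r` is realised by a nonzero class. -/
def BadR (S' T' : Finset (HeightOneSpectrum (𝓞 K))) (r : HeightOneSpectrum (𝓞 K) → ZMod 2)
    (A B : 𝓞 K) : Prop :=
  ∃ (L : Type) (_ : Field L) (_ : NumberField L) (_ : Algebra K L) (θ : L) (c : SC L),
    Cub K L (A : K) (B : K) θ ∧ c ≠ 0 ∧ c ∈ (HH K S' : AddSubgroup (SC L)) ∧
    ∀ w : HeightOneSpectrum (𝓞 L), dn K w ∈ T' → la w c = r (dn K w)

end Good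

section Places

variable (K : Type) {L : Type} [Field K] [NumberField K] [Field L] [NumberField L] [Algebra K L]

/-- There are two places above `v`, both unramified, the first one has degree one. -/
structure TwG (v : HeightOneSpectrum (𝓞 K)) (w₁ w₂ : HeightOneSpectrum (𝓞 L)) : Prop where
  ne : w₁ ≠ w₂
  dn1 : dn K w₁ = v
  dn2 : dn K w₂ = v
  only : ∀ w : HeightOneSpectrum (𝓞 L), dn K w = v → w = w₁ ∨ w = w₂
  ord1 : ∀ x : K, x ≠ 0 → ord (w₁.valuation L) (algebraMap K L x) = ord (v.valuation K) x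
  ord2 : ∀ x : K, x ≠ 0 → ord (w₂.valuation L) (algebraMap K L x) = ord (v.valuation K) x
  res1 : ∀ y : L, w₁.valuation L y ≤ 1 → ∃ x : K, v.valuation K x ≤ 1 ∧
    w₁.valuation L (y - algebraMap K L x) < 1

/-- The situation at the places of `T`. -/
structure TwT (A : K) (θ : L) (v : HeightOneSpectrum (𝓞 K)) (w₁ w₂ : HeightOneSpectrum (𝓞 L)) : Prop
    extends TwG K v w₁ w₂ where
  unit2 : ∀ x : K, v.valuation K x ≤ 1 → w₂.valuation L (algebraMap K L x - θ) = 1
  der : w₁.valuation L (3 * θ ^ 2 + algebraMap K L A) = 1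

/-- The situation at the auxiliary places. -/
structure TwA (θ : L) (v : HeightOneSpectrum (𝓞 K)) (w₁ w₂ : HeightOneSpectrum (𝓞 L)) (r : K) : Prop
    extends TwG K v w₁ w₂ where
  r1 : v.valuation K r = 1
  rt : w₁.valuation L (θ + algebraMap K L (2 * r)) < 1
  nr : ∀ x : K, v.valuation K (x - r) < 1 → w₂.valuation L (algebraMap K L x - θ) = exp (-1)

/-- The situation at the places above two. -/
structure Rm (A B : K) (θ : L) (v : HeightOneSpectrum (𝓞 K)) (w : HeightOneSpectrum (𝓞 L)) : Prop where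
  dn : dn K w = v
  only : ∀ w' : HeightOneSpectrum (𝓞 L), H76PP.dn K w' = v → w' = w
  om : w.valuation L (θ / 2) = exp (-1)
  val : ∀ x : K, w.valuation L (algebraMap K L x) = v.valuation K x ^ 3
  A4 : v.valuation K (A / 4 - 4) ≤ exp (-7)
  B8 : v.valuation K (B / 8 - 2) ≤ exp (-7)
  two : v.valuation K 2 = exp (-1)
  res : ∀ x : K, v.valuation K x ≤ 1 → v.valuation K x < 1 ∨ v.valuation K (x - 1) < 1

end Places

section Two

variable {L : Type} [Field L] [NumberField L]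

/-- The local classes of square norm at a place above two (with `θ = 2 ω`). -/
noncomputable def rho (θ : L) (i j : ZMod 2) : L :=
  (if i = 0 then 1 else 1 + θ) * (if j = 0 then 1 else θ / 2 - 1)

/-- `y` is a square times an element which is close to `ρ`. -/
def Nr (w : HeightOneSpectrum (𝓞 L)) (y ρ : L) : Prop :=
  ∃ z : L, z ≠ 0 ∧ w.valuation L (y * z ^ 2 - ρ) < w.valuation L 4

/-- Additive functions which describe the local class at `w` of the classes of square norm. -/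
structure IJ (K : Type) [Field K] [NumberField K] [Algebra K L] (θ : L)
    (w : HeightOneSpectrum (𝓞 L)) (I J : SC L →+ ZMod 2) : Prop where
  nr : ∀ y : L, y ≠ 0 → IsSquare (Algebra.norm K y) → Nr w y (rho θ (I (sc y)) (J (sc y)))
  un : ∀ y : L, y ≠ 0 → IsSquare (Algebra.norm K y) → ∀ i j : ZMod 2, Nr w y (rho θ i j) →
    i = I (sc y) ∧ j = J (sc y)

end Two

section Conic

variable {K L : Type} [Field K] [Field L] [Algebra K L]

/-- The first coefficient of the conic of `y`. -/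
noncomputable def al {A B : K} {θ : L} (h : Cub K L A B θ) (y : L) : K := h.co 2 y

/-- The second coefficient of the conic of `y`. -/
noncomputable def be {A B : K} {θ : L} (h : Cub K L A B θ) (y : L) : K :=
  h.co 1 y ^ 2 - h.co 0 y * h.co 2 y + A * h.co 2 y ^ 2

end Conic

end H76MQ

end S_H76_MQ_Df

section S_H76_MQ_Dl

set_option autoImplicit false
set_option linter.unusedSectionVars false
open scoped Classical

open WithZero NumberField IsDedekindDomain H38RT
open H38T1 (SC sc scu rep eo la si Pri OddP tp unif ka)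
open H76PP

namespace H76MQ

/-- All the local data. -/
structure LData {K : Type} [Field K] [NumberField K] (C : Cfg K)
    (T : Finset (HeightOneSpectrum (𝓞 K))) (A B : 𝓞 K) {L : Type} [Field L] [NumberField L]
    [Algebra K L] (θ : L) where
  w : HeightOneSpectrum (𝓞 K) → HeightOneSpectrum (𝓞 L)
  I : HeightOneSpectrum (𝓞 K) → SC L →+ ZMod 2
  J : HeightOneSpectrum (𝓞 K) → SC L →+ ZMod 2
  a₁ : HeightOneSpectrum (𝓞 K) → HeightOneSpectrum (𝓞 L)
  a₂ : HeightOneSpectrum (𝓞 K) → HeightOneSpectrum (𝓞 L)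
  r : HeightOneSpectrum (𝓞 K) → K
  t₁ : HeightOneSpectrum (𝓞 K) → HeightOneSpectrum (𝓞 L)
  t₂ : HeightOneSpectrum (𝓞 K) → HeightOneSpectrum (𝓞 L)
  hw : ∀ v ∈ C.P, Rm K (A : K) (B : K) θ v (w v)
  hIJ : ∀ v ∈ C.P, IJ K θ (w v) (I v) (J v)
  hA : ∀ v ∈ C.P, TwA K θ (C.a v) (a₁ v) (a₂ v) (r v)
  hT : ∀ v ∈ T, TwT K (A : K) θ v (t₁ v) (t₂ v)

section

variable {K : Type} [Field K] [NumberField K] {C : Cfg K}
  {T : Finset (HeightOneSpectrum (𝓞 K))} {A B : 𝓞 K} {L : Type} [Field L] [NumberField L]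
  [Algebra K L] {θ : L}

/-- The constant at a place of `T`. -/
noncomputable def LData.nu (D : LData C T A B θ) (v : HeightOneSpectrum (𝓞 K)) : ZMod 2 :=
  la (D.t₁ v) (sc (3 * θ ^ 2 + algebraMap K L (A : K)))

/-- The constant at an auxiliary place. -/
noncomputable def LData.ro (D : LData C T A B θ) (v : HeightOneSpectrum (𝓞 K)) : ZMod 2 :=
  la (D.a₁ v) (sc (-6 * θ))

/-- The second coordinate at the auxiliary place of `v`. -/
noncomputable def LData.ja (D : LData C T A B θ) (v : HeightOneSpectrum (𝓞 K)) (c : SC L) : ZMod 2 :=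
  la (D.a₁ v) c + D.ro v * eo (D.a₂ v) c

/-- The first coordinate at the auxiliary place of `v`. -/
noncomputable def LData.ia (D : LData C T A B θ) (v : HeightOneSpectrum (𝓞 K)) (c : SC L) : ZMod 2 :=
  eo (D.a₂ v) c + (la (D.a₁ v) c + D.ro v * eo (D.a₂ v) c)

/-- The class lies in the group `X J`. -/
def LData.X (D : LData C T A B θ) (J : Finset (HeightOneSpectrum (𝓞 K))) (c : SC L) : Prop :=
  c ∈ (HH K (C.S ∪ J) : AddSubgroup (SC L)) ∧
    ∀ v ∈ J, la (D.t₁ v) c = D.nu v * eo (D.t₂ v) c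

end

end H76MQ

end S_H76_MQ_Dl

section S_H76_MQ_Fs

set_option autoImplicit false
set_option linter.unusedSectionVars false
open scoped Classical

open WithZero NumberField IsDedekindDomain H38RT
open H38T1 (SC sc scu rep eo la si Pri OddP tp unif ka)
open H76PP

namespace H76MQ

variable {K L : Type} [Field K] [NumberField K] [Field L] [NumberField L] [Algebra K L]

theorem Fs_self {F : Type} [Field F] [NumberField F] {v : HeightOneSpectrum (𝓞 F)} (hv : OddP v)
    {x : F} (hx : x ≠ 0) : tp v (sc x) (sc x) = tp v (sc x) (sc (-1 : F)) := by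
  have b1 := H38T1.tp_neg hv hx
  have b2 : sc (-x) = sc (-1 : F) + sc x := by
    rw [← H38T1.sc_mul (neg_ne_zero.2 one_ne_zero) hx, neg_one_mul]
  rw [b2, H54PR.tp_add_right hv] at b1
  have e3 : ∀ p q : ZMod 2, p + q = 0 → q = p := by decide
  exact e3 _ _ b1

theorem Fs_zero {F : Type} [Field F] [NumberField F] {v : HeightOneSpectrum (𝓞 F)} (hv : OddP v)
    (c : SC F) : tp v 0 c = 0 := by
  have h1 := H38T1.tp_add_left hv (0 : SC F) 0 c
  rw [add_zero] at h1
  exact left_eq_add.1 h1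

theorem Fs_key {A B : 𝓞 K} {θ : L} (h : Cub K L (A : K) (B : K) θ) {y : L}
    (ha : al h y ≠ 0) (hb : be h y ≠ 0) {t s : K} (ht : t = h.co 1 y / al h y)
    (hs : s = -(h.co 0 y * h.co 1 y + (B : K) * al h y ^ 2) / be h y) :
    y * (algebraMap K L (al h y) * (algebraMap K L t - θ)) =
      algebraMap K L (-be h y) * (algebraMap K L s - θ) := by
  have k1 : algebraMap K L (al h y) * algebraMap K L t = algebraMap K L (h.co 1 y) := by
    rw [← map_mul, ht, mul_div_cancel₀ _ ha]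
  have k2 : algebraMap K L (-be h y) * algebraMap K L s =
      algebraMap K L (h.co 0 y * h.co 1 y + (B : K) * al h y ^ 2) := by
    rw [← map_mul, hs]
    congr 1
    field_simp
  have k3 : be h y = h.co 1 y ^ 2 - h.co 0 y * h.co 2 y + (A : K) * h.co 2 y ^ 2 := rfl
  have k4 : al h y = h.co 2 y := rfl
  have hr := h.root
  have k5 := h.eq_co y
  rw [mul_sub, mul_sub, mul_sub, k1, k2, k3, k4]
  simp only [map_add, map_sub, map_neg, map_mul, map_pow]
  obtain ⟨a0, e0⟩ : ∃ a, a = algebraMap K L (h.co 0 y) := ⟨_, rfl⟩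
  obtain ⟨a1, e1⟩ : ∃ a, a = algebraMap K L (h.co 1 y) := ⟨_, rfl⟩
  obtain ⟨a2, e2⟩ : ∃ a, a = algebraMap K L (h.co 2 y) := ⟨_, rfl⟩
  rw [← e0, ← e1, ← e2] at k5 ⊢
  linear_combination (a1 - a2 * θ) * k5 - a2 ^ 2 * hr

theorem Fs_diff {A B : 𝓞 K} {θ : L} (h : Cub K L (A : K) (B : K) θ) {y : L}
    (ha : al h y ≠ 0) (hb : be h y ≠ 0) {t s : K} (ht : t = h.co 1 y / al h y)
    (hs : s = -(h.co 0 y * h.co 1 y + (B : K) * al h y ^ 2) / be h y) :
    be h y * (t - s) = al h y ^ 2 * (t ^ 3 + (A : K) * t + (B : K)) := by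
  have k3 : be h y = h.co 1 y ^ 2 - h.co 0 y * al h y + (A : K) * al h y ^ 2 := rfl
  have k1 : al h y * t = h.co 1 y := by
    rw [ht, mul_div_cancel₀ _ ha]
  have k2 : be h y * s = -(h.co 0 y * h.co 1 y + (B : K) * al h y ^ 2) := by
    rw [hs, mul_div_cancel₀ _ hb]
  rw [mul_sub, k2, k3, ← k1]
  ring

theorem Fs_main {A B : 𝓞 K} {θ : L} (h : Cub K L (A : K) (B : K) θ) (hR : HR2 K L A B θ) {y : L}
    (hy : y ≠ 0) (hN : IsSquare (Algebra.norm K y)) {α β t s : K} (ha : α ≠ 0) (hb : β ≠ 0)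
    (e1 : sc y = sc (algebraMap K L (-(α * β))) + sc (algebraMap K L t - θ) +
        sc (algebraMap K L s - θ))
    (hsq : IsSquare (-(α * β) * (t ^ 3 + (A : K) * t + (B : K)) *
        (s ^ 3 + (A : K) * s + (B : K))))
    (hd : β * (t - s) = α ^ 2 * (t ^ 3 + (A : K) * t + (B : K)))
    {v : HeightOneSpectrum (𝓞 K)} (hv : OddP v) :
        tp v (sc α) (sc β) = ∑ᶠ w : {w : HeightOneSpectrum (𝓞 L) // dn K w = v},
          tp w.1 (sc y) (sc (algebraMap K L t - θ)) ∧
        tp v (sc α) (sc β) = ∑ᶠ w : {w : HeightOneSpectrum (𝓞 L) // dn K w = v},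
          tp w.1 (sc y) (sc (algebraMap K L s - θ)) := by
  obtain ⟨U, hU⟩ : ∃ U : L, U = algebraMap K L t - θ := ⟨_, rfl⟩
  obtain ⟨W, hW⟩ : ∃ W : L, W = algebraMap K L s - θ := ⟨_, rfl⟩
  have hU0 : U ≠ 0 := hU ▸ H54PR.sub_ne h t
  have hW0 : W ≠ 0 := hW ▸ H54PR.sub_ne h s
  have hft : t ^ 3 + (A : K) * t + (B : K) ≠ 0 := H54PR.ff_ne h t
  have hfs : s ^ 3 + (A : K) * s + (B : K) ≠ 0 := H54PR.ff_ne h s
  have hNU : Algebra.norm K U = t ^ 3 + (A : K) * t + (B : K) := by rw [hU, h.norm_sub]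
  have hNW : Algebra.norm K W = s ^ 3 + (A : K) * s + (B : K) := by rw [hW, h.norm_sub]
  rw [← hU, ← hW] at e1 ⊢
  obtain ⟨ft, eft⟩ : ∃ ft : K, ft = t ^ 3 + (A : K) * t + (B : K) := ⟨_, rfl⟩
  obtain ⟨fs, efs⟩ : ∃ fs : K, fs = s ^ 3 + (A : K) * s + (B : K) := ⟨_, rfl⟩
  rw [← eft] at hft hNU hsq hd
  rw [← efs] at hfs hNW hsq
  have hl : -(α * β) ≠ 0 := neg_ne_zero.2 (mul_ne_zero ha hb)
  have hδ : t - s ≠ 0 := by
    intro h0
    rw [h0, mul_zero] at hd
    exact mul_ne_zero (pow_ne_zero 2 ha) hft hd.symm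
  have hm1 : (-1 : K) ≠ 0 := neg_ne_zero.2 one_ne_zero
  -- relations between the classes
  have r1 : sc fs = sc (-(α * β)) + sc ft := by
    have h1 := (H38T1.sc_eq_zero (mul_ne_zero (mul_ne_zero hl hft) hfs)).2 hsq
    rw [H38T1.sc_mul (mul_ne_zero hl hft) hfs, H38T1.sc_mul hl hft] at h1
    have h2 : sc fs = (sc (-(α * β)) + sc ft + sc fs) + (sc (-(α * β)) + sc ft) := by
      rw [add_right_comm, H54MT.two_add, zero_add]
    rw [h2, h1, zero_add]
  have r2 : sc β = sc (t - s) + sc ft := by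
    have h1 := congrArg sc hd
    rw [H38T1.sc_mul hb hδ, H38T1.sc_mul (pow_ne_zero 2 ha) hft, H54MT.sc_sq ha, zero_add] at h1
    rw [← h1, add_comm (sc β), ← add_assoc, H54MT.two_add, zero_add]
  have r3 : sc (-(α * β)) = sc α + sc (-β) := by
    rw [← H38T1.sc_mul ha (neg_ne_zero.2 hb), mul_neg]
  have r4 : sc (-(t - s)) = sc (-1 : K) + sc (t - s) := by
    rw [← H38T1.sc_mul hm1 hδ, neg_one_mul]
  have hodd : ∀ w : {w : HeightOneSpectrum (𝓞 L) // dn K w = v}, OddP w.1 := by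
    intro w
    rw [oddP_dn (K := K), w.2]
    exact hv
  have hfin : Finite {w : HeightOneSpectrum (𝓞 L) // dn K w = v} := (fin_above v).to_subtype
  have hUW : U - W = algebraMap K L (t - s) := by
    rw [hU, hW, map_sub]
    ring
  have hUW0 : U - W ≠ 0 := by
    rw [hUW]
    exact (map_ne_zero (algebraMap K L)).2 hδ
  have hm : sc (-1 : L) = sc (algebraMap K L (-1)) := by rw [map_neg, map_one]
  -- the first sum
  have g1 : ∑ᶠ w : {w : HeightOneSpectrum (𝓞 L) // dn K w = v}, tp w.1 (sc y) (sc U) =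
      tp v (sc α) (sc β) := by
    have e2 : ∀ w : {w : HeightOneSpectrum (𝓞 L) // dn K w = v},
        tp w.1 (sc y) (sc U) = (tp w.1 (sc U) (sc (algebraMap K L (-(α * β)))) +
          tp w.1 (sc U) (sc (algebraMap K L (-1)))) +
          (tp w.1 (sc U) (sc (algebraMap K L (-(t - s)))) +
          tp w.1 (sc W) (sc (algebraMap K L (t - s)))) := by
      intro w
      rw [e1, H38T1.tp_add_left (hodd w), H38T1.tp_add_left (hodd w), Fs_self (hodd w) hU0,
        H38T1.tp_comm (sc W) (sc U), H54PR.tp_sub (hodd w) hU0 hW0 hUW0, map_neg _ (t - s), hUW,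
        H38T1.tp_comm _ (sc U), hm]
    rw [finsum_congr e2, finsum_add_distrib (Set.toFinite _) (Set.toFinite _),
      finsum_add_distrib (Set.toFinite _) (Set.toFinite _),
      finsum_add_distrib (Set.toFinite _) (Set.toFinite _),
      hR.proj hv hU0 hl, hR.proj hv hU0 hm1, hR.proj hv hU0 (neg_ne_zero.2 hδ),
      hR.proj hv hW0 hδ, hNU, hNW, r1, r4, H54PR.tp_add_right hv, H38T1.tp_add_left hv]
    have h3 : tp v (sc (-(α * β))) (sc β) = tp v (sc α) (sc β) := by
      rw [r3, H38T1.tp_add_left hv, H38T1.tp_comm (sc (-β)), H38T1.tp_neg hv hb, add_zero]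
    rw [← h3, r2, H54PR.tp_add_right hv, H38T1.tp_comm (sc ft) (sc (-(α * β)))]
    have e3 : ∀ p q r u : ZMod 2, p + q + (q + r + (u + r)) = u + p := by decide
    exact e3 _ _ _ _
  refine ⟨g1.symm, ?_⟩
  -- the second sum
  have g2 : ∑ᶠ w : {w : HeightOneSpectrum (𝓞 L) // dn K w = v}, tp w.1 (sc y) (sc U) +
      ∑ᶠ w : {w : HeightOneSpectrum (𝓞 L) // dn K w = v}, tp w.1 (sc y) (sc W) = 0 := by
    have e2 : ∀ w : {w : HeightOneSpectrum (𝓞 L) // dn K w = v},
        tp w.1 (sc y) (sc U) + tp w.1 (sc y) (sc W) = tp w.1 (sc y) (sc (algebraMap K L (-1))) +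
          tp w.1 (sc y) (sc (algebraMap K L (-(α * β)))) := by
      intro w
      have h1 : sc U + sc W = sc y + sc (algebraMap K L (-(α * β))) := by
        have h0 : sc (algebraMap K L (-(α * β))) + sc U + sc W + sc (algebraMap K L (-(α * β))) =
            (sc (algebraMap K L (-(α * β))) + sc (algebraMap K L (-(α * β)))) + (sc U + sc W) := by
          abel
        rw [e1, h0, H54MT.two_add, zero_add]
      rw [← H54PR.tp_add_right (hodd w), h1, H54PR.tp_add_right (hodd w), Fs_self (hodd w) hy, hm]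
    rw [← finsum_add_distrib (Set.toFinite _) (Set.toFinite _), finsum_congr e2,
      finsum_add_distrib (Set.toFinite _) (Set.toFinite _), hR.proj hv hy hm1, hR.proj hv hy hl]
    have hNy : Algebra.norm K y ≠ 0 := Algebra.norm_ne_zero_iff.2 hy
    rw [(H38T1.sc_eq_zero hNy).2 hN, Fs_zero hv, Fs_zero hv, add_zero]
  rw [g1] at g2
  have e3 : ∀ p q : ZMod 2, p + q = 0 → p = q := by decide
  exact e3 _ _ g2

theorem conic_F {A B : 𝓞 K} {θ : L} (h : Cub K L (A : K) (B : K) θ) (hR : HR2 K L A B θ) {y : L}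
    (hy : y ≠ 0) (hN : IsSquare (Algebra.norm K y)) (ha : al h y ≠ 0) (hb : be h y ≠ 0) :
    ∃ t s : K, sc y = sc (algebraMap K L (-(al h y * be h y))) + sc (algebraMap K L t - θ) +
        sc (algebraMap K L s - θ) ∧
      IsSquare (-(al h y * be h y) * (t ^ 3 + (A : K) * t + (B : K)) *
        (s ^ 3 + (A : K) * s + (B : K))) ∧
      ∀ v : HeightOneSpectrum (𝓞 K), OddP v →
        tp v (sc (al h y)) (sc (be h y)) = ∑ᶠ w : {w : HeightOneSpectrum (𝓞 L) // dn K w = v},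
          tp w.1 (sc y) (sc (algebraMap K L t - θ)) ∧
        tp v (sc (al h y)) (sc (be h y)) = ∑ᶠ w : {w : HeightOneSpectrum (𝓞 L) // dn K w = v},
          tp w.1 (sc y) (sc (algebraMap K L s - θ)) := by
  obtain ⟨t, ht⟩ : ∃ t : K, t = h.co 1 y / al h y := ⟨_, rfl⟩
  obtain ⟨s, hs⟩ : ∃ s : K, s = -(h.co 0 y * h.co 1 y + (B : K) * al h y ^ 2) / be h y := ⟨_, rfl⟩
  have key := Fs_key h ha hb ht hs
  have hd := Fs_diff h ha hb ht hs
  have hU0 := H54PR.sub_ne h t
  have hW0 := H54PR.sub_ne h s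
  obtain ⟨α, hα⟩ : ∃ α : K, α = al h y := ⟨_, rfl⟩
  obtain ⟨β, hβ⟩ : ∃ β : K, β = be h y := ⟨_, rfl⟩
  rw [← hα, ← hβ] at key hd
  rw [← hα] at ha
  rw [← hβ] at hb
  rw [← hα, ← hβ]
  have haL : algebraMap K L α ≠ 0 := (map_ne_zero (algebraMap K L)).2 ha
  have hbL : algebraMap K L (-β) ≠ 0 := (map_ne_zero (algebraMap K L)).2 (neg_ne_zero.2 hb)
  have e1 : sc y = sc (algebraMap K L (-(α * β))) + sc (algebraMap K L t - θ) +
        sc (algebraMap K L s - θ) := by
    have h1 := congrArg sc key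
    rw [H38T1.sc_mul hy (mul_ne_zero haL hU0), H38T1.sc_mul haL hU0, H38T1.sc_mul hbL hW0] at h1
    have h2 : sc (algebraMap K L (-(α * β))) = sc (algebraMap K L α) + sc (algebraMap K L (-β)) := by
      rw [← H38T1.sc_mul haL hbL, ← map_mul, mul_neg]
    have h3 : sc y = (sc y + (sc (algebraMap K L α) + sc (algebraMap K L t - θ))) +
        (sc (algebraMap K L α) + sc (algebraMap K L t - θ)) := by
      rw [add_assoc, H54MT.two_add, add_zero]
    rw [h3, h1, h2]
    abel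
  have hsq : IsSquare (-(α * β) * (t ^ 3 + (A : K) * t + (B : K)) *
        (s ^ 3 + (A : K) * s + (B : K))) := by
    have n1 := congrArg (Algebra.norm K) key
    rw [map_mul, map_mul, map_mul, Algebra.norm_algebraMap, Algebra.norm_algebraMap, h.finrank,
      h.norm_sub, h.norm_sub] at n1
    obtain ⟨z, hz⟩ := hN
    rw [hz] at n1
    refine ⟨z * α ^ 2 * (t ^ 3 + (A : K) * t + (B : K)) / β, ?_⟩
    rw [div_mul_div_comm, eq_div_iff (mul_ne_zero hb hb)]
    linear_combination (-(α * (t ^ 3 + (A : K) * t + (B : K)))) * n1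
  exact ⟨t, s, e1, hsq, fun v hv => Fs_main h hR hy hN ha hb e1 hsq hd hv⟩

end H76MQ

end S_H76_MQ_Fs

section S_H76_MQ_Gg

set_option autoImplicit false
set_option linter.unusedSectionVars false
open scoped Classical

open WithZero NumberField IsDedekindDomain H38RT
open H38T1 (SC sc scu rep eo la si Pri OddP tp unif ka)
open H76PP

namespace H76MQ

open H54MT

variable {K L : Type} [Field K] [NumberField K] [Field L] [NumberField L] [Algebra K L]

theorem Gg_unif_ne (v : HeightOneSpectrum (𝓞 K)) : unif v ≠ 0 := by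
  intro h
  have h1 := H38T1.unif_spec v
  rw [h, map_zero] at h1
  exact exp_ne_zero h1.symm

theorem Gg_ord_unif (v : HeightOneSpectrum (𝓞 K)) : ord (v.valuation K) (unif v) = 1 := by
  unfold ord
  rw [H38T1.unif_spec]
  simp

theorem Gg_exp {v : HeightOneSpectrum (𝓞 K)} {x : K} (hx : x ≠ 0) :
    v.valuation K x = exp (-ord (v.valuation K) x) := by
  unfold ord
  rw [neg_neg, WithZero.exp_log ((Valuation.ne_zero_iff _).2 hx)]

theorem Gg_val {v : HeightOneSpectrum (𝓞 K)} {w₁ w₂ : HeightOneSpectrum (𝓞 L)}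
    (h2 : TwG K v w₁ w₂) (x : K) : w₁.valuation L (algebraMap K L x) = v.valuation K x := by
  by_cases hx : x = 0
  · rw [hx, map_zero, map_zero, map_zero]
  · have hx' : algebraMap K L x ≠ 0 := (map_ne_zero _).2 hx
    rw [Gg_exp hx', Gg_exp hx, h2.ord1 x hx]

theorem Gg_odd1 {v : HeightOneSpectrum (𝓞 K)} (hv : OddP v) {w₁ w₂ : HeightOneSpectrum (𝓞 L)}
    (h2 : TwG K v w₁ w₂) : OddP w₁ := by
  rw [oddP_dn (K := K), h2.dn1]
  exact hv

theorem Gg_odd2 {v : HeightOneSpectrum (𝓞 K)} (hv : OddP v) {w₁ w₂ : HeightOneSpectrum (𝓞 L)}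
    (h2 : TwG K v w₁ w₂) : OddP w₂ := by
  rw [oddP_dn (K := K), h2.dn2]
  exact hv

theorem Gg_sq {v : HeightOneSpectrum (𝓞 K)} {w₁ w₂ : HeightOneSpectrum (𝓞 L)}
    (h2 : TwG K v w₁ w₂) {u : K} (hu : v.valuation K u = 1) :
    Sq (w₁.valuation L) (algebraMap K L u) ↔ Sq (v.valuation K) u := by
  constructor
  · rintro ⟨t, ht⟩
    have h1 : w₁.valuation L (t ^ 2) ≤ 1 := by
      have e1 : t ^ 2 = algebraMap K L u - (algebraMap K L u - t ^ 2) := by ring
      rw [e1]
      refine (Valuation.map_sub _ _ _).trans (max_le ?_ ht.le)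
      rw [Gg_val h2, hu]
    have h3 : w₁.valuation L t ≤ 1 := by
      by_contra hc
      rw [map_pow] at h1
      exact absurd (one_lt_pow₀ (not_le.1 hc) two_ne_zero) (not_lt.2 h1)
    obtain ⟨x, hx, hx'⟩ := h2.res1 t h3
    refine ⟨x, ?_⟩
    have hx2 : w₁.valuation L (algebraMap K L x) ≤ 1 := by
      rw [Gg_val h2]
      exact hx
    rw [← Gg_val h2, map_sub, map_pow]
    have e2 : algebraMap K L u - algebraMap K L x ^ 2 =
        (algebraMap K L u - t ^ 2) + (t - algebraMap K L x) * (t + algebraMap K L x) := by ring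
    rw [e2]
    refine (Valuation.map_add _ _ _).trans_lt (max_lt ht ?_)
    rw [map_mul]
    refine (mul_le_of_le_one_right' ?_).trans_lt hx'
    exact (Valuation.map_add _ _ _).trans (max_le h3 hx2)
  · rintro ⟨t, ht⟩
    refine ⟨algebraMap K L t, ?_⟩
    rw [← map_pow, ← map_sub, Gg_val h2]
    exact ht

theorem gg_la1 {v : HeightOneSpectrum (𝓞 K)} (hv : OddP v) {w₁ w₂ : HeightOneSpectrum (𝓞 L)}
    (h2 : TwG K v w₁ w₂) {u : K} (hu : u ≠ 0) (h0 : eo v (sc u) = 0) :
    la w₁ (sc (algebraMap K L u)) = la v (sc u) := by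
  have hw := Gg_odd1 hv h2
  have hπ := Gg_unif_ne v
  rw [H38T1.eo_sc hu, ZMod.intCast_zmod_eq_zero_iff_dvd] at h0
  obtain ⟨k, hk⟩ := h0
  set s : K := unif v ^ (-k) with hs
  have hs0 : s ≠ 0 := zpow_ne_zero _ hπ
  have h1 : v.valuation K (u * s ^ 2) = 1 := by
    rw [map_mul, map_pow, hs, map_zpow₀, H38T1.unif_spec, Gg_exp hu, hk, ← exp_zsmul, ← exp_nsmul,
      ← exp_add, ← exp_zero]
    congr 1
    simp only [smul_eq_mul, nsmul_eq_mul]
    push_cast
    ring
  have hus : u * s ^ 2 ≠ 0 := mul_ne_zero hu (pow_ne_zero 2 hs0)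
  have h3 : sc (u * s ^ 2) = sc u := by
    rw [H38T1.sc_mul hu (pow_ne_zero 2 hs0), H54MT.sc_sq hs0, add_zero]
  have h4 : sc (algebraMap K L (u * s ^ 2)) = sc (algebraMap K L u) := by
    have hs1 : algebraMap K L s ≠ 0 := (map_ne_zero _).2 hs0
    have hu1 : algebraMap K L u ≠ 0 := (map_ne_zero _).2 hu
    rw [map_mul, map_pow, H38T1.sc_mul hu1 (pow_ne_zero 2 hs1), H54MT.sc_sq hs1, add_zero]
  rw [← h3, ← h4, H38T1.la_sc hv hus, H38T1.la_sc hw ((map_ne_zero _).2 hus), lam_unit h1,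
    lam_unit (by rw [Gg_val h2, h1])]
  simp only [Gg_sq h2 h1]

theorem Gg_la_unif {v : HeightOneSpectrum (𝓞 K)} (hv : OddP v) : la v (sc (unif v)) = 0 := by
  obtain ⟨q, d, ψ, hl⟩ := H38T1.loc_of v
  rw [H38T1.la_sc hv (Gg_unif_ne v), lam_pi hl]

theorem Gg_eo_unif (v : HeightOneSpectrum (𝓞 K)) : eo v (sc (unif v)) = 1 := by
  rw [H38T1.eo_sc (Gg_unif_ne v), Gg_ord_unif, Int.cast_one]

theorem Gg_eo1 {v : HeightOneSpectrum (𝓞 K)} {w₁ w₂ : HeightOneSpectrum (𝓞 L)}
    (h2 : TwG K v w₁ w₂) {x : K} (hx : x ≠ 0) : eo w₁ (sc (algebraMap K L x)) = eo v (sc x) := by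
  rw [H38T1.eo_sc hx, H38T1.eo_sc ((map_ne_zero _).2 hx), h2.ord1 x hx]

theorem Gg_eo2 {v : HeightOneSpectrum (𝓞 K)} {w₁ w₂ : HeightOneSpectrum (𝓞 L)}
    (h2 : TwG K v w₁ w₂) {x : K} (hx : x ≠ 0) : eo w₂ (sc (algebraMap K L x)) = eo v (sc x) := by
  rw [H38T1.eo_sc hx, H38T1.eo_sc ((map_ne_zero _).2 hx), h2.ord2 x hx]

theorem Gg_kappa {v : HeightOneSpectrum (𝓞 K)} (hv : OddP v) {w₁ w₂ : HeightOneSpectrum (𝓞 L)}
    (h2 : TwG K v w₁ w₂) {x : K} (hx : x ≠ 0) :
    la w₁ (sc (algebraMap K L x)) =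
      la v (sc x) + eo v (sc x) * la w₁ (sc (algebraMap K L (unif v))) := by
  have hw := Gg_odd1 hv h2
  have hπ := Gg_unif_ne v
  have e3 : ∀ e : ZMod 2, e = 0 ∨ e = 1 := by decide
  rcases e3 (eo v (sc x)) with h | h
  · rw [gg_la1 hv h2 hx h, h, zero_mul, add_zero]
  · have h3 : eo v (sc (x * unif v)) = 0 := by
      rw [H38T1.sc_mul hx hπ, H38T1.eo_add, h, Gg_eo_unif]
      decide
    have h4 := gg_la1 hv h2 (mul_ne_zero hx hπ) h3
    rw [map_mul, H38T1.sc_mul ((map_ne_zero _).2 hx) ((map_ne_zero _).2 hπ), H38T1.la_add hw,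
      H38T1.sc_mul hx hπ, H38T1.la_add hv, Gg_la_unif hv, add_zero] at h4
    rw [h, one_mul]
    have e4 : ∀ a b c : ZMod 2, a + b = c → a = c + b := by decide
    exact e4 _ _ _ h4

theorem gg_tp1 {v : HeightOneSpectrum (𝓞 K)} (hv : OddP v) {w₁ w₂ : HeightOneSpectrum (𝓞 L)}
    (h2 : TwG K v w₁ w₂) {x y : K} (hx : x ≠ 0) (hy : y ≠ 0) :
    tp w₁ (sc (algebraMap K L x)) (sc (algebraMap K L y)) = tp v (sc x) (sc y) := by
  have h1 : la w₁ (sc (-1 : L)) = la v (sc (-1 : K)) := by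
    have h3 : eo v (sc (-1 : K)) = 0 := by
      rw [H38T1.eo_sc (neg_ne_zero.2 one_ne_zero)]
      unfold ord
      rw [Valuation.map_neg, map_one, log_one, neg_zero, Int.cast_zero]
    have h4 := gg_la1 hv h2 (neg_ne_zero.2 one_ne_zero) h3
    rwa [map_neg, map_one] at h4
  unfold H38T1.tp
  rw [Gg_eo1 h2 hx, Gg_eo1 h2 hy, h1, Gg_kappa hv h2 hx, Gg_kappa hv h2 hy]
  generalize eo v (sc x) = a
  generalize eo v (sc y) = b
  generalize la v (sc x) = c
  generalize la v (sc y) = d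
  generalize la w₁ (sc (algebraMap K L (unif v))) = e
  generalize la v (sc (-1 : K)) = f
  revert a b c d e f
  decide

theorem gg_sum {v : HeightOneSpectrum (𝓞 K)} {w₁ w₂ : HeightOneSpectrum (𝓞 L)}
    (h2 : TwG K v w₁ w₂) (g : HeightOneSpectrum (𝓞 L) → ZMod 2) :
    ∑ᶠ w : {w : HeightOneSpectrum (𝓞 L) // dn K w = v}, g w.1 = g w₁ + g w₂ := by
  rw [← finsum_mem_pair (f := g) h2.ne, finsum_subtype_eq_finsum_cond (f := g)]
  refine finsum_congr fun w => ?_
  have hw : (dn K w = v) ↔ w ∈ ({w₁, w₂} : Set (HeightOneSpectrum (𝓞 L))) := by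
    constructor
    · intro h
      rcases h2.only w h with h | h
      · exact Or.inl h
      · exact Or.inr h
    · rintro (h | h)
      · rw [h]
        exact h2.dn1
      · rw [Set.mem_singleton_iff.1 h]
        exact h2.dn2
  rw [finsum_congr_Prop (propext hw) fun _ => rfl]

theorem Gg_cube {u : K} (hu : u ≠ 0) : sc (u ^ 3) = sc u := by
  have h1 : u ^ 3 = u ^ 2 * u := by ring
  rw [h1, H38T1.sc_mul (pow_ne_zero 2 hu) hu, H54MT.sc_sq hu, zero_add]

theorem gg_la2 {A B : 𝓞 K} {θ : L} (hR : HR2 K L A B θ) {v : HeightOneSpectrum (𝓞 K)}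
    (hv : OddP v) {w₁ w₂ : HeightOneSpectrum (𝓞 L)} (h2 : TwG K v w₁ w₂)
    (h3 : Module.finrank K L = 3) {u : K} (hu : u ≠ 0)
    (h0 : eo v (sc u) = 0) : la w₂ (sc (algebraMap K L u)) = 0 := by
  have hπ := Gg_unif_ne v
  have h4 := hR.proj hv (u := algebraMap K L u) ((map_ne_zero _).2 hu) hπ
  rw [gg_sum h2 (fun w => tp w (sc (algebraMap K L u)) (sc (algebraMap K L (unif v)))),
    gg_tp1 hv h2 hu hπ, Algebra.norm_algebraMap, h3, Gg_cube hu] at h4
  have h5 : tp w₂ (sc (algebraMap K L u)) (sc (algebraMap K L (unif v))) = 0 :=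
    add_eq_left.1 h4
  unfold H38T1.tp at h5
  rw [Gg_eo2 h2 hu, h0, Gg_eo2 h2 hπ, Gg_eo_unif] at h5
  have e3 : ∀ a b c : ZMod 2, 0 * a + 1 * b + 0 * 1 * c = 0 → b = 0 := by decide
  exact e3 _ _ _ h5

theorem Gg_tp0 {v : HeightOneSpectrum (𝓞 K)} (hv : OddP v) {y : L} (hy : y ≠ 0)
    (hN : IsSquare (Algebra.norm K y)) (c : SC K) : tp v (sc (Algebra.norm K y)) c = 0 := by
  rw [(H38T1.sc_eq_zero ((Algebra.norm_ne_zero_iff (R := K)).2 hy)).2 hN]
  unfold H38T1.tp
  rw [H38T1.eo_zero, H38T1.la_zero hv]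
  ring

theorem gg_eo1 {A B : 𝓞 K} {θ : L} (hR : HR2 K L A B θ) {v : HeightOneSpectrum (𝓞 K)}
    (hv : OddP v) {w₁ w₂ : HeightOneSpectrum (𝓞 L)} (h2 : TwG K v w₁ w₂)
    (h3 : Module.finrank K L = 3) {y : L} (hy : y ≠ 0)
    (hN : IsSquare (Algebra.norm K y)) : eo w₁ (sc y) = 0 := by
  obtain ⟨q, d, ψ, hl⟩ := H38T1.loc_of v
  obtain ⟨u, hu, hu'⟩ := exists_nonsq hl hv
  have hu0 : u ≠ 0 := by
    rintro rfl
    rw [map_zero] at hu
    exact zero_ne_one hu
  have he : eo v (sc u) = 0 := by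
    rw [H38T1.eo_sc hu0]
    unfold ord
    rw [hu, log_one, neg_zero, Int.cast_zero]
  have hla : la v (sc u) = 1 := by
    rw [H38T1.la_sc hv hu0, lam_unit hu, if_neg hu']
  have h4 := hR.proj hv hy hu0
  rw [gg_sum h2 (fun w => tp w (sc y) (sc (algebraMap K L u))), Gg_tp0 hv hy hN] at h4
  unfold H38T1.tp at h4
  rw [Gg_eo1 h2 hu0, Gg_eo2 h2 hu0, he, gg_la1 hv h2 hu0 he, hla,
    gg_la2 hR hv h2 h3 hu0 he] at h4
  have e3 : ∀ a b c d e f : ZMod 2, (a * 1 + 0 * b + a * 0 * c) + (d * 0 + 0 * e + d * 0 * f) = 0 →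
    a = 0 := by decide
  exact e3 _ _ _ _ _ _ h4

theorem gg_la12 {A B : 𝓞 K} {θ : L} (hR : HR2 K L A B θ) {v : HeightOneSpectrum (𝓞 K)}
    (hv : OddP v) {w₁ w₂ : HeightOneSpectrum (𝓞 L)} (h2 : TwG K v w₁ w₂)
    (h3 : Module.finrank K L = 3) {y : L} (hy : y ≠ 0)
    (hN : IsSquare (Algebra.norm K y)) (h0 : eo w₂ (sc y) = 0) : la w₂ (sc y) = la w₁ (sc y) := by
  have hπ := Gg_unif_ne v
  have h1 := gg_eo1 hR hv h2 h3 hy hN
  have h4 := hR.proj hv hy hπ
  rw [gg_sum h2 (fun w => tp w (sc y) (sc (algebraMap K L (unif v)))), Gg_tp0 hv hy hN] at h4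
  unfold H38T1.tp at h4
  rw [Gg_eo1 h2 hπ, Gg_eo2 h2 hπ, h0, h1, Gg_eo_unif] at h4
  have e3 : ∀ a b c d e f : ZMod 2, (0 * a + 1 * b + 0 * 1 * c) + (0 * d + 1 * e + 0 * 1 * f) = 0 →
    e = b := by decide
  exact e3 _ _ _ _ _ _ h4

end H76MQ

end S_H76_MQ_Gg

section S_H76_MQ_Rr

set_option autoImplicit false
set_option linter.unusedSectionVars false
open scoped Classical

open WithZero NumberField IsDedekindDomain H38RT
open H38T1 (SC sc scu rep eo la si Pri OddP tp unif ka)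
open H76PP

namespace H76MQ

variable {K L : Type} [Field K] [NumberField K] [Field L] [NumberField L] [Algebra K L]

/-- a real root of `X^3 + a X + b` -/
lemma Rr_root (a b : ℝ) : ∃ t : ℝ, t ^ 3 + a * t + b = 0 := by
  have hR : (1 : ℝ) ≤ 1 + |a| + |b| := by
    have := abs_nonneg a
    have := abs_nonneg b
    linarith
  obtain ⟨R, hRd⟩ : ∃ R : ℝ, R = 1 + |a| + |b| := ⟨_, rfl⟩
  rw [← hRd] at hR
  have ha := abs_nonneg a
  have hb := abs_nonneg b
  have ha1 := le_abs_self a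
  have ha2 := neg_abs_le a
  have hb1 := le_abs_self b
  have hb2 := neg_abs_le b
  have hR2 : R ≤ R ^ 2 := by nlinarith
  have h1 : |b| ≤ R * (R ^ 2 - |a|) := by
    have h3 : 1 ≤ R ^ 2 - |a| := by linarith
    have h4 : R * 1 ≤ R * (R ^ 2 - |a|) := mul_le_mul_of_nonneg_left h3 (by linarith)
    linarith
  have hp : 0 ≤ R ^ 3 + a * R + b := by
    have h5 : -(|a| * R) ≤ a * R := by nlinarith
    nlinarith
  have hn : (-R) ^ 3 + a * (-R) + b ≤ 0 := by
    have h5 : -(|a| * R) ≤ a * R := by nlinarith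
    nlinarith
  have hc : ContinuousOn (fun x : ℝ => x ^ 3 + a * x + b) (Set.Icc (-R) R) := by
    fun_prop
  obtain ⟨t, -, ht⟩ := intermediate_value_Icc (by linarith : -R ≤ R) hc ⟨hn, hp⟩
  exact ⟨t, ht⟩

/-- the statement about real numbers -/
lemma Rr_real {a b y0 y1 y2 : ℝ} (hd : 0 < 4 * a ^ 3 + 27 * b ^ 2)
    (hN : 0 < y0 * ((y0 - a * y2) ^ 2 + a * y1 ^ 2 + b * y1 * y2) +
      b * y2 * (y0 * y1 + b * y2 ^ 2) - b * y1 * (y1 ^ 2 - y0 * y2 + a * y2 ^ 2))
    (h1 : y2 < 0) (h2 : y1 ^ 2 - y0 * y2 + a * y2 ^ 2 < 0) : False := by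
  obtain ⟨t, ht⟩ := Rr_root a b
  obtain rfl : b = -t ^ 3 - a * t := by linarith
  obtain ⟨P, hP⟩ : ∃ P, P = y0 + y1 * t + y2 * t ^ 2 := ⟨_, rfl⟩
  obtain ⟨c, hc⟩ : ∃ c, c = y0 - y2 * (t ^ 2 + a) := ⟨_, rfl⟩
  obtain ⟨e, he⟩ : ∃ e, e = y1 - y2 * t := ⟨_, rfl⟩
  obtain ⟨M, hM⟩ : ∃ M, M = c ^ 2 - t * c * e + (t ^ 2 + a) * e ^ 2 := ⟨_, rfl⟩
  obtain ⟨β, hβ⟩ : ∃ β, β = y1 ^ 2 - y0 * y2 + a * y2 ^ 2 := ⟨_, rfl⟩
  have hPM : 0 < P * M := by
    refine lt_of_lt_of_eq hN ?_
    rw [hM, hP, hc, he]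
    ring
  have hdd : 4 * a ^ 3 + 27 * (-t ^ 3 - a * t) ^ 2 = (3 * t ^ 2 + 4 * a) * (3 * t ^ 2 + a) ^ 2 := by
    ring
  rw [hdd] at hd
  have hD : 0 < 3 * t ^ 2 + 4 * a := by
    by_contra hcon
    have h3 := sq_nonneg (3 * t ^ 2 + a)
    nlinarith
  have hM0 : 0 ≤ M := by
    have h4 : 4 * M = (2 * c - t * e) ^ 2 + (3 * t ^ 2 + 4 * a) * e ^ 2 := by rw [hM]; ring
    have h5 : 0 ≤ (3 * t ^ 2 + 4 * a) * e ^ 2 := mul_nonneg hD.le (sq_nonneg e)
    have h6 := sq_nonneg (2 * c - t * e)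
    linarith
  have hM1 : 0 < M := by
    rcases hM0.lt_or_eq with h | h
    · exact h
    · rw [← h, mul_zero] at hPM
      exact absurd hPM (lt_irrefl 0)
  have hP0 : 0 < P := by
    by_contra hcon
    have : P * M ≤ 0 := mul_nonpos_of_nonpos_of_nonneg (not_lt.1 hcon) hM0
    linarith
  have hf : 0 < 3 * t ^ 2 + a := by
    have := sq_nonneg t
    linarith
  have e1 : y2 * (3 * t ^ 2 + a) = P - (c + e * t) := by rw [hP, hc, he]; ring
  have e2 : y2 * M + β * (c + e * t) = P * e ^ 2 := by rw [hM, hβ, hP, hc, he]; ring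
  have h7 : y2 * (3 * t ^ 2 + a) < 0 := mul_neg_of_neg_of_pos h1 hf
  have h8 : 0 < c + e * t := by linarith
  have h9 : β * (c + e * t) < 0 := mul_neg_of_neg_of_pos (by rw [hβ]; exact h2) h8
  have h10 : y2 * M < 0 := mul_neg_of_neg_of_pos h1 hM1
  have h11 : 0 ≤ P * e ^ 2 := mul_nonneg hP0.le (sq_nonneg e)
  linarith

theorem conic_real {A B : 𝓞 K} {θ : L} (h : Cub K L (A : K) (B : K) θ) {s : K →+* ℝ}
    (hs : 0 < s ((dsc A B : 𝓞 K) : K)) {y : L} (hy : y ≠ 0) (hN : IsSquare (Algebra.norm K y)) :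
    ¬ (s (al h y) < 0 ∧ s (be h y) < 0) := by
  rintro ⟨h1, h2⟩
  have hy' : ev θ (fun i => h.co i y) = y := (h.eq_co y).symm
  have hn : Algebra.norm K y = Te_nf (A : K) (B : K) (fun i => h.co i y) := by
    have h3 := Te_norm h (fun i => h.co i y)
    rwa [hy'] at h3
  have hfin : Module.Finite K L := Module.Finite.of_basis h.basis
  have hn0 : Algebra.norm K y ≠ 0 := by
    rw [Ne, Algebra.norm_eq_zero_iff]
    exact hy
  have hpos : 0 < s (Algebra.norm K y) := by
    obtain ⟨r, hr⟩ := hN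
    have hr0 : s r ≠ 0 := by
      intro h4
      apply hn0
      rw [hr, (map_eq_zero s).1 h4, mul_zero]
    rw [hr, map_mul]
    exact mul_self_pos.2 hr0
  rw [hn, ← Te_nf_map s] at hpos
  have hd : 0 < 4 * s (A : K) ^ 3 + 27 * s (B : K) ^ 2 := by
    refine lt_of_lt_of_eq hs ?_
    have e0 : algebraMap (𝓞 K) K (dsc A B) = 4 * (A : K) ^ 3 + 27 * (B : K) ^ 2 := by
      unfold dsc
      rw [map_add, map_mul, map_mul, map_pow, map_pow, map_ofNat, map_ofNat]
    refine (congrArg s e0).trans ?_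
    rw [map_add, map_mul, map_mul, map_pow, map_pow, map_ofNat, map_ofNat]
  refine Rr_real (y0 := s (h.co 0 y)) (y1 := s (h.co 1 y)) (y2 := s (h.co 2 y)) hd hpos h1 ?_
  refine lt_of_eq_of_lt ?_ h2
  unfold be
  rw [map_add, map_sub, map_mul, map_mul, map_pow, map_pow]

end H76MQ

end S_H76_MQ_Rr

section S_H76_MQ_Ee

set_option autoImplicit false
set_option linter.unusedSectionVars false
open scoped Classical

open WithZero NumberField IsDedekindDomain H38RT
open H38T1 (SC sc scu rep eo la si Pri OddP tp unif ka)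
open H76PP

namespace H76MQ

variable {K L : Type} [Field K] [NumberField K] [Field L] [NumberField L] [Algebra K L]

theorem even_loc {A B : 𝓞 K} {θ : L} (h : Cub K L (A : K) (B : K) θ) {E : 𝓞 K} (hE : E ≠ 0)
    {w : HeightOneSpectrum (𝓞 L)} (hd : dsc A B ∉ (dn K w).asIdeal ^ 2)
    (hEo : eo (dn K w) (sc (E : K)) = 0) {d : Fin 3 → K}
    (hd0 : ev (algebraMap K L E * θ) d ≠ 0)
    (hLC : LC (algebraMap K ((dn K w).adicCompletion K)) ((E : K) ^ 2 * A) ((E : K) ^ 3 * B) d) :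
    eo w (sc (ev (algebraMap K L E * θ) d)) = 0 := by
  have hD0 : (E : K) ≠ 0 := fun h0 => hE (RingOfIntegers.coe_eq_zero_iff.1 h0)
  have hDe : Even (ord ((dn K w).valuation K) (E : K)) := by
    rw [H38T1.eo_sc hD0] at hEo
    exact (ZMod.intCast_eq_zero_iff_even).1 hEo
  set D : K := (E : K) with hDdef
  have hDL : algebraMap K L D ≠ 0 := (map_ne_zero _).2 hD0
  obtain ⟨x', y, z, hy, hz, h1, h2⟩ := LC_approx (Tf_twist h hD0) hd0 (dn K w) hLC
  have h2w := h2 w rfl
  obtain ⟨x, rfl⟩ : ∃ x : K, x' = D * x := ⟨x' / D, by field_simp⟩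
  obtain ⟨h3, h4⟩ := Tf_ratio ((dn K w).valuation K) (pow_ne_zero 2 hy) h1
  obtain ⟨h5, h6⟩ := Tf_ratio (w.valuation L) (pow_ne_zero 2 hz) h2w
  have e1 : (D * x) ^ 3 + D ^ 2 * (A : K) * (D * x) + D ^ 3 * (B : K) =
      D ^ 3 * (x ^ 3 + (A : K) * x + (B : K)) := by ring
  have e2 : ev (algebraMap K L D * θ) d * (algebraMap K L (D * x) - algebraMap K L D * θ) =
      ev (algebraMap K L D * θ) d * (algebraMap K L D * (algebraMap K L x - θ)) := by
    rw [map_mul]
    ring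
  rw [e1] at h3 h4
  rw [e2] at h5 h6
  have hf : x ^ 3 + (A : K) * x + (B : K) ≠ 0 := right_ne_zero_of_mul h3
  have hxt : algebraMap K L x - θ ≠ 0 := right_ne_zero_of_mul (right_ne_zero_of_mul h5)
  rw [ord_mul (pow_ne_zero 3 hD0) hf, Tf_ord_pow, Tf_ord_pow] at h4
  rw [ord_mul hd0 (mul_ne_zero hDL hxt), ord_mul hDL hxt, Tf_ord_pow] at h6
  obtain ⟨e, -, he⟩ := ord_dn (K := K) w
  have key : Even (ord (w.valuation L) (algebraMap K L D) +
      ord (w.valuation L) (algebraMap K L x - θ)) := by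
    rw [he D hD0]
    by_cases hx : (dn K w).valuation K x ≤ 1
    · obtain ⟨w₁, -, hw1, hw2⟩ := H36MT.ord_subL h hd hx hf
      have hcase : Even (ord ((dn K w).valuation K) (x ^ 3 + (A : K) * x + (B : K))) →
          Even (ord (w.valuation L) (algebraMap K L x - θ)) := by
        intro hev
        by_cases hww : w = w₁
        · rw [hww, hw1]
          exact hev
        · rw [Tf_ord_one _ (hw2 w rfl hww)]
          exact Even.zero
      have hf0 : Even (ord ((dn K w).valuation K) (x ^ 3 + (A : K) * x + (B : K))) := by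
        obtain ⟨m, hm⟩ := hDe
        refine ⟨ord ((dn K w).valuation K) y - 3 * m, ?_⟩
        push_cast at h4
        rw [hm] at h4
        linarith
      exact (hDe.mul_left _).add (hcase hf0)
    · rw [not_le] at hx
      obtain ⟨g1, -, -, g4⟩ := ord_sub_big (w := w) h hx
      have hx0 : x ≠ 0 := by
        rintro rfl
        rw [map_zero] at hx
        exact absurd hx (not_lt.2 zero_le)
      have g5 : ord (w.valuation L) (algebraMap K L x - θ) =
          e * ord ((dn K w).valuation K) x := by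
        rw [← he x hx0]
        unfold ord
        rw [g1]
      have g6 : ord ((dn K w).valuation K) (x ^ 3 + (A : K) * x + (B : K)) =
          3 * ord ((dn K w).valuation K) x := by
        have g7 := Tf_ord_pow ((dn K w).valuation K) x 3
        rw [Nat.cast_ofNat] at g7
        rw [← g7]
        unfold ord
        rw [g4, map_pow]
      rw [g5, ← mul_add]
      refine Even.mul_left ?_ _
      refine ⟨ord ((dn K w).valuation K) y - ord ((dn K w).valuation K) D -
        ord ((dn K w).valuation K) x, ?_⟩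
      rw [g6] at h4
      push_cast at h4
      linarith
  rw [H38T1.eo_sc hd0]
  obtain ⟨m, hm⟩ := key
  have h7 : ord (w.valuation L) (ev (algebraMap K L D * θ) d) =
      (ord (w.valuation L) z - m) + (ord (w.valuation L) z - m) := by
    push_cast at h6
    linarith
  rw [h7, Int.cast_add]
  exact CharTwo.add_self_eq_zero _

end H76MQ

end S_H76_MQ_Ee

section S_H76_MQ_Tk

set_option autoImplicit false
set_option linter.unusedSectionVars false
open scoped Classical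

open WithZero NumberField IsDedekindDomain H38RT
open H38T1 (SC sc scu rep eo la si Pri OddP tp unif ka)
open H76PP

namespace H76MQ

open H54MT

variable {K L : Type} [Field K] [NumberField K] [Field L] [NumberField L] [Algebra K L]

theorem Tk_near {F : Type} [Field F] [NumberField F] {v : HeightOneSpectrum (𝓞 F)} (hv : OddP v)
    {a : F} (h : v.valuation F (a - 1) < 1) : eo v (sc a) = 0 ∧ la v (sc a) = 0 := by
  have h1 := near_one h
  have ha : a ≠ 0 := by
    rintro rfl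
    rw [map_zero] at h1
    exact zero_ne_one h1
  refine ⟨?_, ?_⟩
  · rw [H38T1.eo_sc ha]
    unfold ord
    rw [h1, log_one, neg_zero, Int.cast_zero]
  · rw [H38T1.la_sc hv ha, lam_unit h1]
    refine if_pos ⟨1, ?_⟩
    rwa [one_pow]

theorem Tk_near_sq {F : Type} [Field F] [NumberField F] {v : HeightOneSpectrum (𝓞 F)} (hv : OddP v)
    {a z : F} (ha : a ≠ 0) (hz : z ≠ 0) (h : v.valuation F (a / z ^ 2 - 1) < 1) :
    eo v (sc a) = 0 ∧ la v (sc a) = 0 := by
  have h1 : sc a = sc (a / z ^ 2) := by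
    have h2 := H38T1.sc_mul (div_ne_zero ha (pow_ne_zero 2 hz)) (pow_ne_zero 2 hz)
    rw [div_mul_cancel₀ _ (pow_ne_zero 2 hz), sc_sq hz, add_zero] at h2
    exact h2
  rw [h1]
  exact Tk_near hv h

/-- Multiplication by an element close to one does not change the local class. -/
theorem Tk_mul {F : Type} [Field F] [NumberField F] {v : HeightOneSpectrum (𝓞 F)} (hv : OddP v)
    {a b : F} (ha : a ≠ 0) (hb : b ≠ 0) (h : v.valuation F (a / b - 1) < 1) :
    eo v (sc a) = eo v (sc b) ∧ la v (sc a) = la v (sc b) := by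
  obtain ⟨h1, h2⟩ := Tk_near hv h
  have h3 : (sc a : SC F) = sc (a / b) + sc b := by
    rw [← H38T1.sc_mul (div_ne_zero ha hb) hb, div_mul_cancel₀ _ hb]
  rw [h3, H38T1.eo_add, H38T1.la_add hv, h1, h2, zero_add, zero_add]
  exact ⟨rfl, rfl⟩

theorem kum_T {A B : 𝓞 K} {θ : L} (h : Cub K L (A : K) (B : K) θ) (hR : HR2 K L A B θ)
    {v : HeightOneSpectrum (𝓞 K)} (hv : OddP v) (hd : dsc A B ∉ v.asIdeal ^ 2)
    {w₁ w₂ : HeightOneSpectrum (𝓞 L)} (h2 : TwT K (A : K) θ v w₁ w₂) {E : 𝓞 K} (hE : E ≠ 0)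
    (hEo : eo v (sc (E : K)) = 1) {d : Fin 3 → K} (hd0 : ev (algebraMap K L E * θ) d ≠ 0)
    (hN : IsSquare (Algebra.norm K (ev (algebraMap K L E * θ) d)))
    (hLC : LC (algebraMap K (v.adicCompletion K)) ((E : K) ^ 2 * A) ((E : K) ^ 3 * B) d) :
    la w₁ (sc (ev (algebraMap K L E * θ) d)) =
      la w₁ (sc (3 * θ ^ 2 + algebraMap K L A)) * eo w₂ (sc (ev (algebraMap K L E * θ) d)) := by
  have hE' : (E : K) ≠ 0 := by
    intro h0
    apply hE
    exact RingOfIntegers.ext h0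
  have hEL : algebraMap K L (E : K) ≠ 0 := (map_ne_zero _).2 hE'
  obtain ⟨x', y, z, hy, hz, h1, hw⟩ := LC_approx (Tf_twist h hE') hd0 v hLC
  obtain ⟨δ, hδ⟩ : ∃ δ, δ = ev (algebraMap K L (E : K) * θ) d := ⟨_, rfl⟩
  rw [← hδ] at hd0 hw ⊢
  obtain ⟨x, hx'⟩ : ∃ x, x' = (E : K) * x := ⟨x' / E, by rw [mul_div_cancel₀ _ hE']⟩
  rw [hx'] at h1 hw
  have e1 : ((E : K) * x) ^ 3 + (E : K) ^ 2 * (A : K) * ((E : K) * x) + (E : K) ^ 3 * (B : K) =
      (E : K) ^ 3 * (x ^ 3 + (A : K) * x + (B : K)) := by ring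
  rw [e1] at h1
  have e2 : δ * (algebraMap K L ((E : K) * x) - algebraMap K L (E : K) * θ) =
      δ * (algebraMap K L (E : K) * (algebraMap K L x - θ)) := by
    rw [map_mul]
    ring
  rw [e2] at hw
  have hodd1 : OddP w₁ := by
    rw [oddP_dn (K := K), h2.dn1]
    exact hv
  have hodd2 : OddP w₂ := by
    rw [oddP_dn (K := K), h2.dn2]
    exact hv
  have hf0 : x ^ 3 + (A : K) * x + (B : K) ≠ 0 := H54PR.ff_ne h x
  have hxt : algebraMap K L x - θ ≠ 0 := H54PR.sub_ne h x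
  have hq := H54PR.sub_mul_quad h.root x
  have hffe : H54PR.ff (A : K) (B : K) x = x ^ 3 + (A : K) * x + (B : K) := rfl
  rw [hffe] at hq
  obtain ⟨f, hf⟩ : ∃ f, f = x ^ 3 + (A : K) * x + (B : K) := ⟨_, rfl⟩
  rw [← hf] at h1 hf0 hq
  have hE3 : (E : K) ^ 3 ≠ 0 := pow_ne_zero 3 hE'
  -- the class of `E f` at `v`
  obtain ⟨p1, p2⟩ := Tk_near_sq hv (mul_ne_zero hE3 hf0) hy h1
  have hsEf : (sc ((E : K) ^ 3 * f) : SC K) = sc ((E : K) * f) := by
    have h3 : (E : K) ^ 3 * f = (E : K) ^ 2 * ((E : K) * f) := by ring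
    rw [h3, H38T1.sc_mul (pow_ne_zero 2 hE') (mul_ne_zero hE' hf0), sc_sq hE', zero_add]
  rw [hsEf] at p1 p2
  have p3 : eo v (sc f) = 1 := by
    have h3 := p1
    rw [H38T1.sc_mul hE' hf0, H38T1.eo_add, hEo] at h3
    have e3 : ∀ p : ZMod 2, 1 + p = 0 → p = 1 := by decide
    exact e3 _ h3
  -- the class of `δ` at the places above `v`
  have hEx : algebraMap K L (E : K) * (algebraMap K L x - θ) ≠ 0 := mul_ne_zero hEL hxt
  have key : ∀ w : HeightOneSpectrum (𝓞 L), dn K w = v → OddP w →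
      eo w (sc δ) = eo w (sc (algebraMap K L (E : K) * (algebraMap K L x - θ))) ∧
      la w (sc δ) = la w (sc (algebraMap K L (E : K) * (algebraMap K L x - θ))) := by
    intro w hwv hwo
    obtain ⟨q1, q2⟩ := Tk_near_sq hwo (mul_ne_zero hd0 hEx) hz (hw w hwv)
    rw [H38T1.sc_mul hd0 hEx, H38T1.eo_add] at q1
    rw [H38T1.sc_mul hd0 hEx, H38T1.la_add hwo] at q2
    have e3 : ∀ p q : ZMod 2, p + q = 0 → p = q := by decide
    exact ⟨e3 _ _ q1, e3 _ _ q2⟩
  rw [(key w₁ h2.dn1 hodd1).2, (key w₂ h2.dn2 hodd2).1]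
  have ho2 : ∀ u : K, u ≠ 0 → eo w₂ (sc (algebraMap K L u)) = eo v (sc u) := by
    intro u hu
    rw [H38T1.eo_sc ((map_ne_zero _).2 hu), H38T1.eo_sc hu, h2.ord2 u hu]
  rcases le_or_gt (v.valuation K x) 1 with hx | hx
  · -- integral case
    have g1 := h2.unit2 x hx
    have g2 : eo w₂ (sc (algebraMap K L (E : K) * (algebraMap K L x - θ))) = 1 := by
      rw [H38T1.sc_mul hEL hxt, H38T1.eo_add, ho2 _ hE', hEo, H38T1.eo_sc hxt]
      unfold ord
      rw [g1, log_one, neg_zero, Int.cast_zero, add_zero]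
    rw [g2, mul_one]
    obtain ⟨w', g3, g4, g5⟩ := H36MT.ord_subL h hd hx (by rw [← hf]; exact hf0)
    rw [← hf] at g4
    have hof : ord (v.valuation K) f ≠ 0 := by
      intro h0
      rw [H38T1.eo_sc hf0, h0, Int.cast_zero] at p3
      exact zero_ne_one p3
    have g6 : w' = w₁ := by
      rcases h2.only w' g3 with h3 | h3
      · exact h3
      · exfalso
        rw [h3] at g4
        unfold ord at g4 hof
        rw [g1, log_one, neg_zero] at g4
        exact hof g4.symm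
    rw [g6] at g4
    obtain ⟨t, ht⟩ := theta_int h
    have hwt : w₁.valuation L θ ≤ 1 := by
      rw [← ht]
      exact w₁.valuation_le_one t
    have hwx : w₁.valuation L (algebraMap K L x) ≤ 1 := by
      apply val_le
      rw [h2.dn1]
      exact hx
    have hxtle : w₁.valuation L (algebraMap K L x - θ) ≤ 1 :=
      ((w₁.valuation L).map_sub_le hwx hwt)
    have hxtlt : w₁.valuation L (algebraMap K L x - θ) < 1 := by
      refine lt_of_le_of_ne hxtle fun h0 => ?_
      have g7 : ord (w₁.valuation L) (algebraMap K L x - θ) = 0 := by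
        unfold ord
        rw [h0, log_one, neg_zero]
      exact hof (g4.symm.trans g7)
    obtain ⟨c, hc⟩ : ∃ c, c = θ ^ 2 + algebraMap K L x * θ + algebraMap K L x ^ 2 +
      algebraMap K L (A : K) := ⟨_, rfl⟩
    rw [← hc] at hq
    have hfL : algebraMap K L f ≠ 0 := (map_ne_zero _).2 hf0
    have hc0 : c ≠ 0 := by
      rintro rfl
      rw [mul_zero] at hq
      exact hfL hq.symm
    have hder := h2.der
    have hD0 : 3 * θ ^ 2 + algebraMap K L (A : K) ≠ 0 := by
      intro h0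
      rw [h0, map_zero] at hder
      exact zero_ne_one hder
    have g8 : w₁.valuation L (c / (3 * θ ^ 2 + algebraMap K L (A : K)) - 1) < 1 := by
      have h3 : c / (3 * θ ^ 2 + algebraMap K L (A : K)) - 1 =
          (algebraMap K L x - θ) * (algebraMap K L x + (θ + θ)) /
            (3 * θ ^ 2 + algebraMap K L (A : K)) := by
        rw [div_sub_one hD0, hc]
        congr 1
        ring
      rw [h3, map_div₀, hder, div_one, map_mul]
      have h4 : w₁.valuation L (algebraMap K L x + (θ + θ)) ≤ 1 :=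
        (w₁.valuation L).map_add_le hwx ((w₁.valuation L).map_add_le hwt hwt)
      calc _ ≤ w₁.valuation L (algebraMap K L x - θ) * 1 := mul_le_mul_right h4 _
        _ < 1 := by rw [mul_one]; exact hxtlt
    obtain ⟨_, g9⟩ := Tk_mul hodd1 hc0 hD0 g8
    rw [← g9]
    have g10 : la w₁ (sc (algebraMap K L (E : K) * (algebraMap K L x - θ))) + la w₁ (sc c) = 0 := by
      rw [← H38T1.la_add hodd1, ← H38T1.sc_mul hEx hc0, mul_assoc, hq, ← map_mul,
        gg_la1 hv h2.toTwG (mul_ne_zero hE' hf0) p1, p2]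
    have e3 : ∀ p q : ZMod 2, p + q = 0 → p = q := by decide
    exact e3 _ _ g10
  · -- the case of a denominator
    have hx1 : 1 < (dn K w₁).valuation K x := by rw [h2.dn1]; exact hx
    have hx2 : 1 < (dn K w₂).valuation K x := by rw [h2.dn2]; exact hx
    have hx0 : x ≠ 0 := by
      rintro rfl
      rw [map_zero] at hx
      exact absurd hx (not_lt.2 zero_le_one)
    have hxL : algebraMap K L x ≠ 0 := (map_ne_zero _).2 hx0
    obtain ⟨-, b2, b3, -⟩ := ord_sub_big h hx1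
    obtain ⟨-, b2', -, -⟩ := ord_sub_big h hx2
    rw [h2.dn1, ← hf] at b3
    obtain ⟨c1, c2⟩ := Tk_mul hv hf0 (pow_ne_zero 3 hx0) b3
    have hx3 : (sc (x ^ 3) : SC K) = sc x := by
      have h3 : x ^ 3 = x ^ 2 * x := by ring
      rw [h3, H38T1.sc_mul (pow_ne_zero 2 hx0) hx0, sc_sq hx0, zero_add]
    rw [hx3] at c1 c2
    have c3 : eo v (sc ((E : K) * x)) = 0 := by
      rw [H38T1.sc_mul hE' hx0, H38T1.eo_add, ← c1, ← H38T1.eo_add, ← H38T1.sc_mul hE' hf0]
      exact p1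
    have c4 : la v (sc ((E : K) * x)) = 0 := by
      rw [H38T1.sc_mul hE' hx0, H38T1.la_add hv, ← c2, ← H38T1.la_add hv, ← H38T1.sc_mul hE' hf0]
      exact p2
    have c5 : ∀ w : HeightOneSpectrum (𝓞 L), OddP w → w.valuation L (θ / algebraMap K L x) < 1 →
        eo w (sc (algebraMap K L (E : K) * (algebraMap K L x - θ))) =
          eo w (sc (algebraMap K L ((E : K) * x))) ∧
        la w (sc (algebraMap K L (E : K) * (algebraMap K L x - θ))) =
          la w (sc (algebraMap K L ((E : K) * x))) := by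
      intro w hwo hb
      apply Tk_mul hwo hEx ((map_ne_zero _).2 (mul_ne_zero hE' hx0))
      have h3 : algebraMap K L (E : K) * (algebraMap K L x - θ) / algebraMap K L ((E : K) * x) - 1 =
          -(θ / algebraMap K L x) := by
        rw [map_mul]
        field_simp
        ring
      rw [h3, Valuation.map_neg]
      exact hb
    rw [(c5 w₁ hodd1 b2).2, (c5 w₂ hodd2 b2').1, ho2 _ (mul_ne_zero hE' hx0), c3, mul_zero,
      gg_la1 hv h2.toTwG (mul_ne_zero hE' hx0) c3, c4]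

end H76MQ

end S_H76_MQ_Tk

section S_H76_MQ_Ak

set_option autoImplicit false
set_option linter.unusedSectionVars false
open scoped Classical

open WithZero NumberField IsDedekindDomain H38RT
open H38T1 (SC sc scu rep eo la si Pri OddP tp unif ka)
open H76PP

namespace H76MQ

open H54MT

variable {K L : Type} [Field K] [NumberField K] [Field L] [NumberField L] [Algebra K L]

theorem Ak_z2 : ∀ a b : ZMod 2, a + b = 0 → a = b := by decide

section near

variable {F : Type} [Field F] [NumberField F] {w : HeightOneSpectrum (𝓞 F)}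

/-- Elements with quotient near one have the same symbols. -/
theorem Ak_near (hw : OddP w) {a b : F} (hb : b ≠ 0) (h : w.valuation F (a / b - 1) < 1) :
    a ≠ 0 ∧ eo w (sc a) = eo w (sc b) ∧ la w (sc a) = la w (sc b) := by
  have h1 := near_one h
  have hab : a / b ≠ 0 := by
    intro h0
    rw [h0, map_zero] at h1
    exact zero_ne_one h1
  have ha : a ≠ 0 := by
    rintro rfl
    exact hab (zero_div _)
  have e2 : (sc a : SC F) = sc (a / b) + sc b := by
    rw [← H38T1.sc_mul hab hb, div_mul_cancel₀ a hb]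
  refine ⟨ha, ?_, ?_⟩
  · rw [e2, H38T1.eo_add, H38T1.eo_sc hab, Tf_ord_one _ h1, Int.cast_zero, zero_add]
  · rw [e2, H38T1.la_add hw, Tg_la hw h, zero_add]

theorem Ak_eo_unit {a : F} (ha : a ≠ 0) (h : w.valuation F a = 1) : eo w (sc a) = 0 := by
  rw [H38T1.eo_sc ha, Tf_ord_one _ h, Int.cast_zero]

theorem Ak_ne {a : F} (h : w.valuation F a = 1) : a ≠ 0 := by
  rintro rfl
  rw [map_zero] at h
  exact zero_ne_one h

end near

theorem Ak_eo1 {v : HeightOneSpectrum (𝓞 K)} {w : HeightOneSpectrum (𝓞 L)}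
    (ho : ∀ x : K, x ≠ 0 → ord (w.valuation L) (algebraMap K L x) = ord (v.valuation K) x)
    {u : K} (hu : u ≠ 0) : eo w (sc (algebraMap K L u)) = eo v (sc u) := by
  rw [H38T1.eo_sc ((map_ne_zero _).2 hu), ho u hu, ← H38T1.eo_sc hu]

theorem kum_A {A B : 𝓞 K} {θ : L} (h : Cub K L (A : K) (B : K) θ) (hR : HR2 K L A B θ)
    {v : HeightOneSpectrum (𝓞 K)} (hv : OddP v) (h3 : v.valuation K 3 = 1)
    {w₁ w₂ : HeightOneSpectrum (𝓞 L)} {r : K}
    (h2 : TwA K θ v w₁ w₂ r) {E : 𝓞 K} (hE : E ≠ 0)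
    (hEo : eo v (sc (E : K)) = 0) {d : Fin 3 → K} (hd0 : ev (algebraMap K L E * θ) d ≠ 0)
    (hN : IsSquare (Algebra.norm K (ev (algebraMap K L E * θ) d)))
    (hLC : LC (algebraMap K (v.adicCompletion K)) ((E : K) ^ 2 * A) ((E : K) ^ 3 * B) d) :
    la w₁ (sc (ev (algebraMap K L E * θ) d)) =
      (la w₁ (sc (-6 * θ)) + la v (sc (E : K))) * eo w₂ (sc (ev (algebraMap K L E * θ) d)) := by
  obtain ⟨D, hD⟩ : ∃ D : K, D = (E : K) := ⟨_, rfl⟩
  have hD0 : D ≠ 0 := by
    rw [hD]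
    exact RingOfIntegers.coe_ne_zero_iff.mpr hE
  rw [← hD] at hEo hd0 hN hLC ⊢
  have hDL : algebraMap K L D ≠ 0 := (map_ne_zero _).2 hD0
  obtain ⟨x', y, z, hy, hz, e1, hw⟩ := LC_approx (Tf_twist h hD0) hd0 v hLC
  obtain ⟨δ, hδ⟩ : ∃ δ, δ = ev (algebraMap K L D * θ) d := ⟨_, rfl⟩
  rw [← hδ] at hd0 hN hw ⊢
  obtain ⟨x, hx'⟩ : ∃ x, x' = D * x := ⟨x' / D, by rw [mul_div_cancel₀ _ hD0]⟩
  have hodd1 : OddP w₁ := by
    rw [oddP_dn (K := K), h2.dn1]
    exact hv
  have hodd2 : OddP w₂ := by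
    rw [oddP_dn (K := K), h2.dn2]
    exact hv
  have hw' : ∀ w : HeightOneSpectrum (𝓞 L), OddP w → dn K w = v → algebraMap K L x - θ ≠ 0 ∧
      eo w (sc δ) = eo w (sc (algebraMap K L D)) + eo w (sc (algebraMap K L x - θ)) ∧
      la w (sc δ) = la w (sc (algebraMap K L D)) + la w (sc (algebraMap K L x - θ)) := by
    intro w hwo hwd
    have g1 := hw w hwd
    have e2 : δ * (algebraMap K L x' - algebraMap K L D * θ) =
        δ * (algebraMap K L D * (algebraMap K L x - θ)) := by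
      rw [hx', map_mul]
      ring
    rw [e2] at g1
    obtain ⟨n, g2, g3⟩ := Ak_near hwo (pow_ne_zero 2 hz) g1
    have hxt : algebraMap K L x - θ ≠ 0 := right_ne_zero_of_mul (right_ne_zero_of_mul n)
    rw [sc_sq hz, H38T1.eo_zero, H38T1.sc_mul hd0 (mul_ne_zero hDL hxt), H38T1.sc_mul hDL hxt,
      H38T1.eo_add, H38T1.eo_add] at g2
    rw [sc_sq hz, H38T1.la_zero hwo, H38T1.sc_mul hd0 (mul_ne_zero hDL hxt),
      H38T1.sc_mul hDL hxt, H38T1.la_add hwo, H38T1.la_add hwo] at g3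
    exact ⟨hxt, Ak_z2 _ _ g2, Ak_z2 _ _ g3⟩
  have hDe : eo w₂ (sc (algebraMap K L D)) = 0 := by
    rw [Ak_eo1 h2.ord2 hD0]
    exact hEo
  have hDl1 : la w₁ (sc (algebraMap K L D)) = la v (sc D) := gg_la1 hv h2.toTwG hD0 hEo
  have hDl2 : la w₂ (sc (algebraMap K L D)) = 0 := gg_la2 hR hv h2.toTwG h.finrank hD0 hEo
  obtain ⟨hxt, p1, p2⟩ := hw' w₁ hodd1 h2.dn1
  obtain ⟨-, q1, q2⟩ := hw' w₂ hodd2 h2.dn2
  rw [hDe, zero_add] at q1
  rw [hDl1] at p2
  rw [hDl2, zero_add] at q2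
  rcases le_or_gt (v.valuation K x) 1 with hx | hx
  · have hr := h2.r1
    have hr0 : r ≠ 0 := Ak_ne hr
    have hxr : v.valuation K (x - r) ≤ 1 := Valuation.map_sub_le _ hx hr.le
    rcases lt_or_eq_of_le hxr with hlt | heq
    · -- case (c)
      have g1 := h2.nr x hlt
      have g2 : eo w₂ (sc (algebraMap K L x - θ)) = 1 := by
        rw [H38T1.eo_sc hxt]
        unfold ord
        rw [g1, log_exp]
        norm_num
      rw [g2] at q1
      have v3r : v.valuation K (3 * r) = 1 := by rw [map_mul, h3, hr, one_mul]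
      have v2r : v.valuation K (2 * r) = 1 := by
        have h5 : v.valuation K 2 = 1 := hv
        rw [map_mul, h5, hr, one_mul]
      have w3r : w₁.valuation L (algebraMap K L (3 * r)) = 1 :=
        val_one (w := w₁) (by rw [h2.dn1]; exact v3r)
      have w2r : w₁.valuation L (algebraMap K L (2 * r)) = 1 :=
        val_one (w := w₁) (by rw [h2.dn1]; exact v2r)
      have wxr : w₁.valuation L (algebraMap K L (x - r)) < 1 :=
        val_lt (w := w₁) (by rw [h2.dn1]; exact hlt)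
      have n3r := Ak_ne w3r
      have n2r := Ak_ne w2r
      have k1 : la w₁ (sc (algebraMap K L x - θ)) = la w₁ (sc (algebraMap K L (3 * r))) := by
        refine (Ak_near hodd1 n3r ?_).2.2
        have e3 : (algebraMap K L x - θ) / algebraMap K L (3 * r) - 1 =
            (algebraMap K L (x - r) - (θ + algebraMap K L (2 * r))) / algebraMap K L (3 * r) := by
          rw [div_sub_one n3r]
          congr 1
          simp only [map_sub, map_mul, map_ofNat]
          ring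
        rw [e3, map_div₀, w3r, div_one]
        exact Valuation.map_sub_lt _ wxr h2.rt
      have k2 : la w₁ (sc (-6 * θ)) = la w₁ (sc (algebraMap K L (3 * r))) := by
        have two0 : (2 : L) ≠ 0 := two_ne_zero
        have e4 : sc ((2 : L) ^ 2 * algebraMap K L (3 * r)) = sc (algebraMap K L (3 * r)) := by
          rw [H38T1.sc_mul (pow_ne_zero 2 two0) n3r, sc_sq two0, zero_add]
        rw [← e4]
        refine (Ak_near hodd1 (mul_ne_zero (pow_ne_zero 2 two0) n3r) ?_).2.2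
        have rL : algebraMap K L r ≠ 0 := (map_ne_zero _).2 hr0
        have e3 : -6 * θ / ((2 : L) ^ 2 * algebraMap K L (3 * r)) - 1 =
            -(θ + algebraMap K L (2 * r)) / algebraMap K L (2 * r) := by
          simp only [map_mul, map_ofNat]
          field_simp
          ring
        rw [e3, map_div₀, w2r, div_one, Valuation.map_neg]
        exact h2.rt
      rw [q1, p2, k1, k2, mul_one, add_comm]
    · -- case (b)
      have nxr := Ak_ne heq
      have wxr : w₂.valuation L (algebraMap K L (x - r)) = 1 :=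
        val_one (w := w₂) (by rw [h2.dn2]; exact heq)
      have nxrL := Ak_ne wxr
      have exr : eo v (sc (x - r)) = 0 := Ak_eo_unit nxr heq
      obtain ⟨-, k1, k2⟩ := Ak_near (a := algebraMap K L x - θ) hodd2 nxrL (by
        have e3 : (algebraMap K L x - θ) / algebraMap K L (x - r) - 1 =
            (algebraMap K L r - θ) / algebraMap K L (x - r) := by
          rw [div_sub_one nxrL]
          congr 1
          rw [map_sub]
          ring
        have g1 := h2.nr r (by rw [sub_self, map_zero]; exact zero_lt_one)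
        rw [e3, map_div₀, wxr, div_one, g1, ← exp_zero, exp_lt_exp]
        norm_num)
      rw [k1, Ak_eo1 h2.ord2 nxr, exr] at q1
      rw [k2, gg_la2 hR hv h2.toTwG h.finrank nxr exr] at q2
      rw [← gg_la12 hR hv h2.toTwG h.finrank hd0 hN q1, q2, q1, mul_zero]
  · -- case (a)
    have hx0 : x ≠ 0 := by
      rintro rfl
      rw [map_zero] at hx
      exact absurd hx (not_lt.2 zero_le_one)
    have hax : algebraMap K L x ≠ 0 := (map_ne_zero _).2 hx0
    have hx1 : 1 < (dn K w₁).valuation K x := by rw [h2.dn1]; exact hx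
    have hx2 : 1 < (dn K w₂).valuation K x := by rw [h2.dn2]; exact hx
    obtain ⟨-, c2, c3, -⟩ := ord_sub_big h hx1
    obtain ⟨-, c2', -, -⟩ := ord_sub_big h hx2
    rw [h2.dn1] at c3
    have hnear : ∀ w : HeightOneSpectrum (𝓞 L), w.valuation L (θ / algebraMap K L x) < 1 →
        w.valuation L ((algebraMap K L x - θ) / algebraMap K L x - 1) < 1 := by
      intro w hwt
      have e3 : (algebraMap K L x - θ) / algebraMap K L x - 1 = -(θ / algebraMap K L x) := by
        rw [div_sub_one hax]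
        ring
      rw [e3, Valuation.map_neg]
      exact hwt
    obtain ⟨-, -, k1⟩ := Ak_near hodd1 hax (hnear w₁ c2)
    obtain ⟨-, k2, -⟩ := Ak_near hodd2 hax (hnear w₂ c2')
    obtain ⟨f, hf⟩ : ∃ f, f = x ^ 3 + (A : K) * x + (B : K) := ⟨_, rfl⟩
    rw [← hf] at c3
    have e5 : x' ^ 3 + D ^ 2 * (A : K) * x' + D ^ 3 * (B : K) = D ^ 3 * f := by
      rw [hx', hf]
      ring
    rw [e5] at e1
    obtain ⟨nf, s1, s2⟩ := Ak_near hv (pow_ne_zero 2 hy) e1
    have hf0 : f ≠ 0 := right_ne_zero_of_mul nf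
    obtain ⟨-, t1, t2⟩ := Ak_near hv (pow_ne_zero 3 hx0) c3
    have hcube : ∀ a : K, a ≠ 0 → (sc (a ^ 3) : SC K) = sc a := by
      intro a ha
      rw [pow_succ, H38T1.sc_mul (pow_ne_zero 2 ha) ha, sc_sq ha, zero_add]
    have eDf : (sc (D ^ 3 * f) : SC K) = sc D + sc f := by
      rw [H38T1.sc_mul (pow_ne_zero 3 hD0) hf0, hcube D hD0]
    rw [eDf, sc_sq hy, H38T1.eo_zero, H38T1.eo_add, t1, hcube x hx0] at s1
    rw [eDf, sc_sq hy, H38T1.la_zero hv, H38T1.la_add hv, t2, hcube x hx0] at s2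
    have hxe : eo v (sc x) = 0 := by
      rw [hEo, zero_add] at s1
      exact s1
    have hq : eo w₂ (sc δ) = 0 := by
      rw [q1, k2, Ak_eo1 h2.ord2 hx0]
      exact hxe
    rw [hq, mul_zero, p2, k1, gg_la1 hv h2.toTwG hx0 hxe]
    exact s2

end H76MQ

end S_H76_MQ_Ak
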