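import Mathlib
import Pool.Agent.H11.ConjSha
import Pool.Agent.H11.ShaN

/-! This file joins several modules to save build time (M10). -/

set_option autoImplicit false

section S_H11_DivPart

set_option autoImplicit false
set_option linter.style.haveILetI false

namespace Pool.Agent.H11.DP

section general

variable {A : Type*} [AddCommGroup A] (p : ℕ)

/-- The p-primary part. -/
def prim (A : Type*) [AddCommGroup A] (p : ℕ) : AddSubgroup A where
  carrier := {x | ∃ k : ℕ, p ^ k • x = 0}
  add_mem' := by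
    rintro x y ⟨k, hk⟩ ⟨l, hl⟩
    refine ⟨k + l, ?_⟩
    have h1 : p ^ (k + l) • x = 0 := by rw [pow_add, mul_comm, mul_smul, hk, smul_zero]
    have h2 : p ^ (k + l) • y = 0 := by rw [pow_add, mul_smul, hl, smul_zero]
    rw [smul_add, h1, h2, add_zero]
  zero_mem' := ⟨0, smul_zero _⟩
  neg_mem' := by
    rintro x ⟨k, hk⟩
    exact ⟨k, by rw [smul_neg, hk, neg_zero]⟩

lemma mem_prim {x : A} : x ∈ prim A p ↔ ∃ k : ℕ, p ^ k • x = 0 := Iff.rfl

lemma fin_tors (h : {x : A | p • x = 0}.Finite) (k : ℕ) : {x : A | p ^ k • x = 0}.Finite := by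
  induction k with
  | zero =>
    refine (Set.finite_singleton (0 : A)).subset fun x hx => ?_
    rw [Set.mem_ofPred_eq, pow_zero, one_smul] at hx
    exact hx
  | succ k ih =>
    have h1 : {x : A | p ^ (k + 1) • x = 0} ⊆ ⋃ y ∈ {x : A | p ^ k • x = 0}, {x : A | p • x = y} := by
      intro x hx
      rw [Set.mem_iUnion₂]
      refine ⟨p • x, ?_, rfl⟩
      rw [Set.mem_ofPred_eq, ← mul_smul, ← pow_succ]
      exact hx
    refine (ih.biUnion fun y _ => ?_).subset h1
    by_cases hy : ∃ z : A, p • z = y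
    · obtain ⟨z, hz⟩ := hy
      refine (h.image (fun t => z + t)).subset fun x hx => ?_
      refine ⟨x - z, ?_, by simp⟩
      rw [Set.mem_ofPred_eq] at hx ⊢
      rw [smul_sub, hx, hz, sub_self]
    · refine Set.finite_empty.subset fun x hx => hy ⟨x, hx⟩

/-- A multiple of the p-primary part is divisible. -/
theorem exists_div (h : {x : A | p • x = 0}.Finite) : ∃ k : ℕ, ∀ x ∈ prim A p,
    ∃ y ∈ prim A p, p • (p ^ k • y) = p ^ k • x := by
  -- the decreasing sequence of finite sets
  let B : ℕ → Set A := fun k => {x | p • x = 0 ∧ ∃ y ∈ prim A p, p ^ k • y = x}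
  have hB : ∀ k, (B k).Finite := fun k => h.subset fun x hx => hx.1
  have hanti : ∀ k, B (k + 1) ⊆ B k := by
    rintro k x ⟨hx, y, hy, hyx⟩
    refine ⟨hx, p • y, (prim A p).nsmul_mem hy p, ?_⟩
    rw [← mul_smul, ← pow_succ, hyx]
  have hanti' : ∀ k l, B (k + l) ⊆ B k := by
    intro k l
    induction l with
    | zero => exact subset_rfl
    | succ l ih => exact (hanti (k + l)).trans ih
  obtain ⟨k, hk⟩ : ∃ k, ∀ l, (B k).ncard ≤ (B l).ncard := by
    obtain ⟨m, ⟨k, hk⟩, hm⟩ := WellFounded.has_min (wellFounded_lt (α := ℕ))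
      (Set.range fun k => (B k).ncard) ⟨_, 0, rfl⟩
    refine ⟨k, fun l => ?_⟩
    have := hm _ ⟨l, rfl⟩
    change (fun k => (B k).ncard) k = m at hk
    beta_reduce at hk
    rw [hk]
    exact not_lt.mp this
  have hst : ∀ l, B (k + l) = B k := fun l =>
    Set.eq_of_subset_of_ncard_le (hanti' k l) (hk _) (hB k)
  refine ⟨k, ?_⟩
  have key : ∀ (j : ℕ) (x : A), x ∈ prim A p → p ^ j • (p ^ k • x) = 0 →
      ∃ y ∈ prim A p, p • (p ^ k • y) = p ^ k • x := by
    intro j
    induction j with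
    | zero =>
      intro x _ hx
      refine ⟨0, zero_mem _, ?_⟩
      rw [pow_zero, one_smul] at hx
      rw [hx, smul_zero, smul_zero]
    | succ j ih =>
      intro x hx hjx
      have h1 : p ^ j • (p ^ k • x) ∈ B k := by
        refine ⟨?_, p ^ j • x, (prim A p).nsmul_mem hx _, ?_⟩
        · rw [← mul_smul, ← pow_succ']; exact hjx
        · rw [← mul_smul, ← mul_smul, mul_comm]
      rw [← hst (j + 1)] at h1
      obtain ⟨_, y, hy, hyx⟩ := h1
      have h2 : p ^ j • (p ^ k • (x - p • y)) = 0 := by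
        rw [smul_sub, smul_sub, ← hyx, sub_eq_zero]
        rw [← mul_smul, ← mul_smul]
        congr 1
        ring
      obtain ⟨z, hz, hz1⟩ := ih (x - p • y) (sub_mem hx ((prim A p).nsmul_mem hy p)) h2
      refine ⟨z + y, add_mem hz hy, ?_⟩
      rw [smul_add, smul_add, hz1, smul_sub]
      rw [smul_comm (p ^ k) p y]
      abel
  intro x hx
  obtain ⟨j, hj⟩ := hx
  exact key j x ⟨j, hj⟩ (by rw [smul_comm, hj, smul_zero])

end general

section pm

variable {D : Type*} [AddCommGroup D] (p : ℕ) [hp : Fact p.Prime]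

omit hp in
lemma nsmul_eq_of_zmod {k : ℕ} {x : D} (hx : p ^ k • x = 0) {a b : ℕ}
    (h : (a : ZMod (p ^ k)) = b) : a • x = b • x := by
  rw [ZMod.natCast_eq_natCast_iff] at h
  have h1 := (Nat.modEq_iff_dvd.mp h)
  obtain ⟨c, hc⟩ := h1
  have h2 : ((b : ℤ) - a) • x = 0 := by
    rw [hc, mul_comm, mul_smul]
    have : (((p ^ k : ℕ) : ℤ)) • x = 0 := by rw [natCast_zsmul]; exact hx
    rw [this, smul_zero]
  rw [sub_smul, natCast_zsmul, natCast_zsmul, sub_eq_zero] at h2
  exact h2.symm

/-- The action of p-adic integers on elements killed by a power. -/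
noncomputable def sm (z : ℤ_[p]) (k : ℕ) (x : D) : D := (PadicInt.toZModPow k z).val • x

lemma sm_indep (z : ℤ_[p]) {k l : ℕ} {x : D} (hk : p ^ k • x = 0) (hkl : k ≤ l) :
    sm p z l x = sm p z k x := by
  unfold sm
  apply nsmul_eq_of_zmod p hk
  rw [ZMod.natCast_val, ZMod.natCast_val, PadicInt.cast_toZModPow _ _ hkl]
  rw [ZMod.cast_id]

lemma sm_add_left (z w : ℤ_[p]) {k : ℕ} {x : D} (hk : p ^ k • x = 0) :
    sm p (z + w) k x = sm p z k x + sm p w k x := by
  unfold sm
  rw [← add_smul]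
  apply nsmul_eq_of_zmod p hk
  haveI : NeZero (p ^ k) := ⟨pow_ne_zero _ hp.out.ne_zero⟩
  rw [Nat.cast_add, ZMod.natCast_zmod_val, ZMod.natCast_zmod_val, ZMod.natCast_zmod_val, map_add]

lemma sm_mul (z w : ℤ_[p]) {k : ℕ} {x : D} (hk : p ^ k • x = 0) :
    sm p (z * w) k x = sm p z k (sm p w k x) := by
  unfold sm
  rw [← mul_smul]
  apply nsmul_eq_of_zmod p hk
  haveI : NeZero (p ^ k) := ⟨pow_ne_zero _ hp.out.ne_zero⟩
  rw [Nat.cast_mul, ZMod.natCast_zmod_val, ZMod.natCast_zmod_val, ZMod.natCast_zmod_val, map_mul]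

lemma sm_one {k : ℕ} {x : D} (hk : p ^ k • x = 0) : sm p 1 k x = x := by
  unfold sm
  conv_rhs => rw [← one_smul ℕ x]
  apply nsmul_eq_of_zmod p hk
  haveI : NeZero (p ^ k) := ⟨pow_ne_zero _ hp.out.ne_zero⟩
  rw [ZMod.natCast_zmod_val, map_one, Nat.cast_one]

lemma sm_zero_left {k : ℕ} {x : D} (hk : p ^ k • x = 0) : sm p 0 k x = 0 := by
  unfold sm
  conv_rhs => rw [← zero_smul ℕ x]
  apply nsmul_eq_of_zmod p hk
  haveI : NeZero (p ^ k) := ⟨pow_ne_zero _ hp.out.ne_zero⟩
  rw [ZMod.natCast_zmod_val, map_zero, Nat.cast_zero]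

/-- A p-primary group is a module over the p-adic integers. -/
@[instance_reducible] noncomputable def modZp (hprim : ∀ x : D, ∃ k : ℕ, p ^ k • x = 0) : Module ℤ_[p] D := by
  classical
  have hsp : ∀ x : D, p ^ (Nat.find (hprim x)) • x = 0 := fun x => Nat.find_spec (hprim x)
  have hle : ∀ (x : D) (k : ℕ), p ^ k • x = 0 → Nat.find (hprim x) ≤ k :=
    fun x k h => Nat.find_min' (hprim x) h
  have hpow : ∀ {k l : ℕ} {x : D}, p ^ k • x = 0 → k ≤ l → p ^ l • x = 0 := by
    intro k l x hk hkl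
    obtain ⟨m, rfl⟩ := Nat.exists_eq_add_of_le hkl
    rw [pow_add, mul_comm, mul_smul, hk, smul_zero]
  let act : ℤ_[p] → D → D := fun z x => sm p z (Nat.find (hprim x)) x
  have hact : ∀ (z : ℤ_[p]) (x : D) (k : ℕ), p ^ k • x = 0 → act z x = sm p z k x := by
    intro z x k hk
    exact (sm_indep p z (hsp x) (hle x k hk)).symm
  have hpsm : ∀ (z : ℤ_[p]) (k l : ℕ) (x : D), p ^ k • x = 0 → p ^ k • sm p z l x = 0 := by
    intro z k l x hk
    unfold sm
    rw [smul_comm, hk, smul_zero]
  exact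
    { smul := act
      one_smul := fun x => sm_one p (hsp x)
      mul_smul := fun z w x => by
        change act (z * w) x = act z (act w x)
        rw [hact w x _ (hsp x), hact z _ _ (hpsm w _ _ x (hsp x)), hact (z * w) x _ (hsp x),
          sm_mul p z w (hsp x)]
      smul_zero := fun z => by
        change act z 0 = 0
        rw [hact z 0 0 (smul_zero _)]
        exact smul_zero _
      smul_add := fun z x y => by
        change act z (x + y) = act z x + act z y
        have hx := hpow (hsp x) (le_max_left _ (Nat.find (hprim y)))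
        have hy := hpow (hsp y) (le_max_right (Nat.find (hprim x)) _)
        rw [hact z x _ hx, hact z y _ hy, hact z (x + y) _ (by rw [smul_add, hx, hy, add_zero])]
        exact smul_add _ _ _
      add_smul := fun z w x => sm_add_left p z w (hsp x)
      zero_smul := fun x => sm_zero_left p (hsp x) }

end pm

end Pool.Agent.H11.DP

end S_H11_DivPart

section S_H11_DivMat

set_option autoImplicit false
set_option linter.style.haveILetI false

namespace Pool.Agent.H11.DP

section basis

variable {D : Type*} [AddCommGroup D] (p : ℕ) [hp : Fact p.Prime]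

/-- A system of compatible generators. -/
structure Chain (c : ℕ) (x : Fin c → ℕ → D) : Prop where
  zero : ∀ j, p • x j 0 = 0
  succ : ∀ j i, p • x j (i + 1) = x j i
  span : ∀ y, p • y = 0 → ∃ a : Fin c → ℤ, y = ∑ j, a j • x j 0
  indep : ∀ a : Fin c → ℤ, ∑ j, a j • x j 0 = 0 → ∀ j, (p : ℤ) ∣ a j

lemma exists_fpbasis' (T : Type*) [AddCommGroup T] [Finite T] [Module (ZMod p) T] :
    ∃ (c : ℕ) (b : Fin c → T), Nat.card T = p ^ c ∧
      (∀ y, ∃ a : Fin c → ℤ, y = ∑ j, a j • b j) ∧
      (∀ a : Fin c → ℤ, ∑ j, a j • b j = 0 → ∀ j, (p : ℤ) ∣ a j) := by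
  haveI : Module.Finite (ZMod p) T := Module.Finite.of_finite
  let b : Module.Basis (Fin (Module.finrank (ZMod p) T)) (ZMod p) T := Module.finBasis (ZMod p) T
  have hzs : ∀ (a : ℤ) (t : T), (a : ZMod p) • t = a • t := fun a t => Int.cast_smul_eq_zsmul _ _ _
  refine ⟨Module.finrank (ZMod p) T, b, ?_, ?_, ?_⟩
  · have h1 : Nat.card T = Nat.card (ZMod p) ^ Module.finrank (ZMod p) T :=
      Module.natCard_eq_pow_finrank (K := ZMod p) (V := T)
    rw [Nat.card_zmod] at h1
    exact h1
  · intro y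
    refine ⟨fun j => ((b.repr y j).val : ℤ), ?_⟩
    have h1 := b.sum_repr y
    have h2 : ∀ j, b.repr y j • b j = ((b.repr y j).val : ℤ) • b j := by
      intro j
      rw [← hzs, Int.cast_natCast, ZMod.natCast_zmod_val]
    simp_rw [h2] at h1
    exact h1.symm
  · intro a ha j
    have h1 : ∑ j, (a j : ZMod p) • b j = 0 := by
      rw [← ha]
      exact Finset.sum_congr rfl fun j _ => hzs _ _
    have h2 := (Fintype.linearIndependent_iff.mp b.linearIndependent) _ h1 j
    exact (ZMod.intCast_zmod_eq_zero_iff_dvd _ _).mp h2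

/-- A basis of a finite group killed by a prime, with integer coefficients. -/
theorem exists_fpbasis (T : Type*) [AddCommGroup T] [Finite T] (hT : ∀ x : T, p • x = 0) :
    ∃ (c : ℕ) (b : Fin c → T), Nat.card T = p ^ c ∧
      (∀ y, ∃ a : Fin c → ℤ, y = ∑ j, a j • b j) ∧
      (∀ a : Fin c → ℤ, ∑ j, a j • b j = 0 → ∀ j, (p : ℤ) ∣ a j) := by
  letI : Module (ZMod p) T := AddCommGroup.zmodModule hT
  exact exists_fpbasis' p T

theorem exists_chain (hdiv : ∀ x : D, ∃ y, p • y = x) (hfin : {x : D | p • x = 0}.Finite) :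
    ∃ (c : ℕ) (x : Fin c → ℕ → D), {y : D | p • y = 0}.ncard = p ^ c ∧ Chain p c x := by
  let T : AddSubgroup D :=
    { carrier := {x | p • x = 0}
      add_mem' := fun {a b} ha hb => by
        change p • (a + b) = 0
        rw [smul_add, ha, hb, add_zero]
      zero_mem' := smul_zero _
      neg_mem' := fun {a} ha => by
        change p • (-a) = 0
        rw [smul_neg, ha, neg_zero] }
  haveI : Finite T := hfin
  obtain ⟨c, b, h1, h2, h3⟩ := exists_fpbasis p T (fun x => Subtype.ext x.2)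
  choose δ hδ using hdiv
  let x : Fin c → ℕ → D := fun j i => Nat.rec (b j : D) (fun _ y => δ y) i
  have hco : ∀ a : Fin c → ℤ, ((∑ j, a j • b j : T) : D) = ∑ j, a j • x j 0 := by
    intro a
    rw [AddSubgroup.val_finsetSum]
    rfl
  refine ⟨c, x, h1, ?_, ?_, ?_, ?_⟩
  · intro j
    exact (b j).2
  · intro j i
    exact hδ _
  · intro y hy
    obtain ⟨a, ha⟩ := h2 ⟨y, hy⟩
    exact ⟨a, by rw [← hco, ← ha]⟩
  · intro a ha
    apply h3
    apply Subtype.ext
    rw [hco, ha]
    rfl

variable {p}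
variable {c : ℕ} {x : Fin c → ℕ → D}

omit hp in
lemma Chain.pow (h : Chain p c x) (j : Fin c) (i k : ℕ) : p ^ k • x j (i + k) = x j i := by
  induction k with
  | zero => rw [pow_zero, one_smul, add_zero]
  | succ k ih => rw [pow_succ, mul_smul, ← add_assoc, h.succ, ih]

omit hp in
lemma Chain.killed (h : Chain p c x) (j : Fin c) (i : ℕ) : p ^ (i + 1) • x j i = 0 := by
  have h1 := h.pow j 0 i
  rw [zero_add] at h1
  rw [pow_succ', mul_smul, h1, h.zero]

omit hp in
lemma Chain.indep' (h : Chain p c x) (i : ℕ) (a : Fin c → ℤ) (ha : ∑ j, a j • x j i = 0) :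
    ∀ j, ((p ^ (i + 1) : ℕ) : ℤ) ∣ a j := by
  induction i generalizing a with
  | zero =>
    intro j
    rw [zero_add, pow_one]
    exact h.indep a ha j
  | succ i ih =>
    have h1 : ∑ j, a j • x j i = 0 := by
      have h2 := congrArg (fun t => p • t) ha
      beta_reduce at h2
      rw [smul_zero, Finset.smul_sum] at h2
      rw [← h2]
      refine Finset.sum_congr rfl fun j _ => ?_
      rw [smul_comm, h.succ]
    have h2 := ih a h1
    have h3 : ∀ j, ∃ b : ℤ, a j = p * b := by
      intro j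
      obtain ⟨b, hb⟩ := h2 j
      refine ⟨(p ^ i : ℕ) * b, ?_⟩
      rw [hb]
      push_cast
      ring
    choose b hb using h3
    have h4 : ∑ j, b j • x j i = 0 := by
      rw [← ha]
      refine Finset.sum_congr rfl fun j _ => ?_
      rw [hb, mul_comm, mul_smul, natCast_zsmul, h.succ]
    intro j
    obtain ⟨e, he⟩ := ih b h4 j
    refine ⟨e, ?_⟩
    rw [hb, he]
    push_cast
    ring

omit hp in
lemma Chain.span' (h : Chain p c x) (i : ℕ) (y : D) (hy : p ^ (i + 1) • y = 0) :
    ∃ a : Fin c → ℤ, y = ∑ j, a j • x j i := by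
  induction i generalizing y with
  | zero =>
    rw [zero_add, pow_one] at hy
    exact h.span y hy
  | succ i ih =>
    obtain ⟨a, ha⟩ := ih (p • y) (by rw [← mul_smul, ← pow_succ]; exact hy)
    have h1 : p • (y - ∑ j, a j • x j (i + 1)) = 0 := by
      rw [smul_sub, ha, Finset.smul_sum, sub_eq_zero]
      refine Finset.sum_congr rfl fun j _ => ?_
      rw [smul_comm, h.succ]
    obtain ⟨e, he⟩ := h.span _ h1
    refine ⟨fun j => a j + e j * (p ^ (i + 1) : ℕ), ?_⟩
    rw [sub_eq_iff_eq_add] at he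
    rw [he, add_comm, ← Finset.sum_add_distrib]
    refine Finset.sum_congr rfl fun j _ => ?_
    have h2 := h.pow j 0 (i + 1)
    rw [zero_add] at h2
    rw [add_smul, mul_smul, natCast_zsmul, h2]

/-- The scalar multiplication of a p-adic integer agrees with that of an integer. -/
lemma smul_eq_of_toZModPow [Module ℤ_[p] D] {z : ℤ_[p]} {k : ℕ} {a : ℤ}
    (h : PadicInt.toZModPow k z = a) {y : D} (hy : p ^ k • y = 0) : z • y = a • y := by
  have h1 : z - (a : ℤ_[p]) ∈ RingHom.ker (PadicInt.toZModPow k : ℤ_[p] →+* ZMod (p ^ k)) := by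
    rw [RingHom.mem_ker, map_sub, h, map_intCast, sub_self]
  rw [PadicInt.ker_toZModPow, Ideal.mem_span_singleton] at h1
  obtain ⟨w, hw⟩ := h1
  have h2 : (z - (a : ℤ_[p])) • y = 0 := by
    rw [hw, mul_comm, mul_smul]
    have : ((p : ℤ_[p]) ^ k) • y = p ^ k • y := by
      rw [← Nat.cast_pow, Nat.cast_smul_eq_nsmul]
    rw [this, hy, smul_zero]
  rw [sub_smul, Int.cast_smul_eq_zsmul, sub_eq_zero] at h2
  exact h2

lemma exists_int (z : ℤ_[p]) (k : ℕ) : ∃ a : ℤ, PadicInt.toZModPow k z = a := by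
  haveI : NeZero (p ^ k) := ⟨pow_ne_zero _ hp.out.ne_zero⟩
  exact ⟨(PadicInt.toZModPow k z).val, by rw [Int.cast_natCast, ZMod.natCast_zmod_val]⟩

lemma map_smul_padic [Module ℤ_[p] D] (hprim : ∀ x : D, ∃ k : ℕ, p ^ k • x = 0)
    (e : D →+ D) (z : ℤ_[p]) (y : D) : e (z • y) = z • e y := by
  obtain ⟨k, hk⟩ := hprim y
  obtain ⟨a, ha⟩ := exists_int z k
  rw [smul_eq_of_toZModPow ha hk, smul_eq_of_toZModPow ha (by rw [← map_nsmul, hk, map_zero]),
    map_zsmul]

variable {D' : Type*} [AddCommGroup D'] {c' : ℕ} {x' : Fin c' → ℕ → D'}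
variable {D'' : Type*} [AddCommGroup D''] {c'' : ℕ} {x'' : Fin c'' → ℕ → D''}

/-- The matrix of a homomorphism. -/
def IsMat [Module ℤ_[p] D'] (x : Fin c → ℕ → D) (x' : Fin c' → ℕ → D') (e : D →+ D')
    (M : Matrix (Fin c') (Fin c) ℤ_[p]) : Prop := ∀ i j, e (x j i) = ∑ l, M l j • x' l i

variable [Module ℤ_[p] D] [Module ℤ_[p] D'] [Module ℤ_[p] D'']

omit [Module ℤ_[p] D] in
lemma IsMat.unique (h' : Chain p c' x') {e : D →+ D'} {M N : Matrix (Fin c') (Fin c) ℤ_[p]}
    (hM : IsMat x x' e M) (hN : IsMat x x' e N) : M = N := by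
  ext l j
  rw [← PadicInt.ext_of_toZModPow]
  intro n
  cases n with
  | zero =>
    haveI : Subsingleton (ZMod (p ^ 0)) := by rw [pow_zero]; infer_instance
    exact Subsingleton.elim _ _
  | succ i =>
    have hex : ∀ l', ∃ a : ℤ, PadicInt.toZModPow (i + 1) (M l' j - N l' j) = a :=
      fun l' => exists_int _ _
    choose a ha using hex
    have h1 : ∑ l', a l' • x' l' i = 0 := by
      have h2 : ∑ l', (M l' j - N l' j) • x' l' i = 0 := by
        simp_rw [sub_smul]
        rw [Finset.sum_sub_distrib, ← hM, ← hN, sub_self]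
      rw [← h2]
      refine Finset.sum_congr rfl fun l' _ => ?_
      rw [smul_eq_of_toZModPow (ha l') (h'.killed l' i)]
    have h3 := h'.indep' i a h1 l
    have h4 := ha l
    rw [map_sub] at h4
    rw [← sub_eq_zero, h4]
    exact (ZMod.intCast_zmod_eq_zero_iff_dvd _ _).mpr h3

omit [Module ℤ_[p] D] in
theorem IsMat.exists (h : Chain p c x) (h' : Chain p c' x') (e : D →+ D') :
    ∃ M : Matrix (Fin c') (Fin c) ℤ_[p], IsMat x x' e M := by
  have hex : ∀ i j, ∃ a : Fin c' → ℤ, e (x j i) = ∑ l, a l • x' l i := by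
    intro i j
    apply h'.span' i
    rw [← map_nsmul, h.killed, map_zero]
  choose a ha using hex
  have hcomp : ∀ i j l, ((p : ℤ)) ^ (i + 1) ∣ a (i + 1) j l - a i j l := by
    intro i j l
    have h1 : ∑ l, (a (i + 1) j l - a i j l) • x' l i = 0 := by
      simp_rw [sub_smul]
      rw [Finset.sum_sub_distrib, ← ha i j, sub_eq_zero]
      rw [← h.succ j i, map_nsmul, ha (i + 1) j, Finset.smul_sum]
      refine Finset.sum_congr rfl fun l _ => ?_
      rw [smul_comm, h'.succ]
    have h2 := h'.indep' i _ h1 l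
    rwa [Nat.cast_pow] at h2
  let f : Fin c' → Fin c → ℕ → ℤ := fun l j n => Nat.casesOn n 0 (fun i => a i j l)
  have hf : ∀ l j n, ((p : ℤ)) ^ n ∣ f l j (n + 1) - f l j n := by
    intro l j n
    cases n with
    | zero => rw [pow_zero]; exact one_dvd _
    | succ i => exact hcomp i j l
  refine ⟨Matrix.of fun l j => PadicInt.ofIntSeq _
    (PadicInt.isCauSeq_padicNorm_of_pow_dvd_sub (f l j) p (hf l j)), ?_⟩
  intro i j
  rw [ha i j]
  refine Finset.sum_congr rfl fun l _ => ?_
  symm
  exact smul_eq_of_toZModPow (k := i + 1)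
    (PadicInt.toZModPow_ofIntSeq_of_pow_dvd_sub (f l j) p (hf l j) (i + 1)) (h'.killed l i)

lemma IsMat.one (x : Fin c → ℕ → D) : IsMat x x (AddMonoidHom.id D) (1 : Matrix _ _ ℤ_[p]) := by
  intro i j
  rw [AddMonoidHom.id_apply]
  rw [Finset.sum_eq_single j]
  · rw [Matrix.one_apply_eq, one_smul]
  · intro l _ hl
    rw [Matrix.one_apply_ne hl, zero_smul]
  · intro h; exact absurd (Finset.mem_univ _) h

omit [Module ℤ_[p] D] in
lemma map_smul_padic' (hprim : ∀ x : D', ∃ k : ℕ, p ^ k • x = 0)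
    (e : D' →+ D'') (z : ℤ_[p]) (y : D') : e (z • y) = z • e y := by
  obtain ⟨k, hk⟩ := hprim y
  obtain ⟨a, ha⟩ := exists_int z k
  rw [smul_eq_of_toZModPow ha hk, smul_eq_of_toZModPow ha (by rw [← map_nsmul, hk, map_zero]),
    map_zsmul]

omit [Module ℤ_[p] D] in
lemma IsMat.comp (hprim' : ∀ x : D', ∃ k : ℕ, p ^ k • x = 0) {e : D' →+ D''} {e' : D →+ D'}
    {M : Matrix (Fin c'') (Fin c') ℤ_[p]} {M' : Matrix (Fin c') (Fin c) ℤ_[p]}
    (hM : IsMat x' x'' e M) (hM' : IsMat x x' e' M') : IsMat x x'' (e.comp e') (M * M') := by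
  intro i j
  rw [AddMonoidHom.comp_apply, hM' i j, map_sum]
  simp_rw [map_smul_padic' hprim', hM i, Finset.smul_sum, Matrix.mul_apply, Finset.sum_smul]
  rw [Finset.sum_comm]
  refine Finset.sum_congr rfl fun l _ => Finset.sum_congr rfl fun m _ => ?_
  rw [← mul_smul, mul_comm]

omit [Module ℤ_[p] D] in
lemma IsMat.add {e e' : D →+ D'} {M M' : Matrix (Fin c') (Fin c) ℤ_[p]}
    (hM : IsMat x x' e M) (hM' : IsMat x x' e' M') : IsMat x x' (e + e') (M + M') := by
  intro i j
  rw [AddMonoidHom.add_apply, hM, hM', ← Finset.sum_add_distrib]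
  refine Finset.sum_congr rfl fun l _ => ?_
  rw [Matrix.add_apply, add_smul]

lemma IsMat.zero_eq (h : Chain p c x) (hprim : ∀ x : D, ∃ k : ℕ, p ^ k • x = 0) {e : D →+ D}
    (hM : IsMat x x e (0 : Matrix (Fin c) (Fin c) ℤ_[p])) : e = 0 := by
  ext y
  obtain ⟨k, hk⟩ := hprim y
  obtain ⟨a, ha⟩ := h.span' k y (by rw [pow_succ', mul_smul, hk, smul_zero])
  rw [ha, map_sum, AddMonoidHom.zero_apply]
  refine Finset.sum_eq_zero fun j _ => ?_
  rw [map_zsmul, hM k j]
  simp

/-- The ring homomorphism from endomorphisms to matrices. -/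
noncomputable def matHom (h : Chain p c x) (hprim : ∀ x : D, ∃ k : ℕ, p ^ k • x = 0) :
    AddMonoid.End D →+* Matrix (Fin c) (Fin c) ℤ_[p] where
  toFun e := (IsMat.exists h h e).choose
  map_one' := IsMat.unique h (IsMat.exists h h (AddMonoidHom.id D)).choose_spec (IsMat.one x)
  map_mul' e e' := IsMat.unique h (IsMat.exists h h (e.comp e')).choose_spec
    (IsMat.comp hprim (IsMat.exists h h e).choose_spec (IsMat.exists h h e').choose_spec)
  map_zero' := IsMat.unique h (IsMat.exists h h (0 : D →+ D)).choose_spec (by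
    intro i j
    simp)
  map_add' e e' := IsMat.unique h (IsMat.exists h h (e + e')).choose_spec
    (IsMat.add (IsMat.exists h h e).choose_spec (IsMat.exists h h e').choose_spec)

lemma matHom_spec (h : Chain p c x) (hprim : ∀ x : D, ∃ k : ℕ, p ^ k • x = 0) (e : D →+ D) :
    IsMat x x e (matHom h hprim e) := (IsMat.exists h h e).choose_spec

lemma matHom_injective (h : Chain p c x) (hprim : ∀ x : D, ∃ k : ℕ, p ^ k • x = 0) :
    Function.Injective (matHom h hprim) := by
  rw [injective_iff_map_eq_zero]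
  intro e he
  apply IsMat.zero_eq h hprim
  rw [← he]
  exact matHom_spec h hprim e

/-- The matrix of an endomorphism which factors through a group of corank `c'` has rank at
most `c'`. -/
theorem rank_le_of_factor (h : Chain p c x) (h' : Chain p c' x')
    (hprim : ∀ x : D, ∃ k : ℕ, p ^ k • x = 0)
    (hprim' : ∀ x : D', ∃ k : ℕ, p ^ k • x = 0) (f : D →+ D') (g : D' →+ D) :
    ((algebraMap ℤ_[p] ℚ_[p]).mapMatrix (matHom h hprim (g.comp f))).rank ≤ c' := by
  obtain ⟨M, hM⟩ := IsMat.exists h h' f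
  obtain ⟨N, hN⟩ := IsMat.exists h' h g
  have h1 : matHom h hprim (g.comp f) = N * M :=
    IsMat.unique h (matHom_spec h hprim (g.comp f)) (IsMat.comp hprim' hN hM)
  rw [h1, RingHom.mapMatrix_apply, Matrix.map_mul]
  exact (Matrix.rank_mul_le_left _ _).trans (by
    have := Matrix.rank_le_width (N.map (algebraMap ℤ_[p] ℚ_[p]))
    exact this)

end basis

end Pool.Agent.H11.DP

end S_H11_DivMat

section S_H11_RepLem

set_option autoImplicit false
set_option linter.style.haveILetI false
open scoped Classical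

namespace Pool.Agent.H11.DP

section rep

variable {k G V : Type*} [Field k] [Group G] [AddCommGroup V] [Module k V]
  [FiniteDimensional k V]

/-- A nonzero representation of finite dimension contains an irreducible one. -/
theorem exists_irred [Nontrivial V] (ρ : Representation k G V) :
    ∃ W : Subrepresentation ρ, W.toRepresentation.IsIrreducible := by
  obtain ⟨m, ⟨W, hW, hWm⟩, hmin⟩ := WellFounded.has_min (wellFounded_lt (α := ℕ))
    {m | ∃ W : Subrepresentation ρ, W.toSubmodule ≠ ⊥ ∧ Module.finrank k W.toSubmodule = m}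
    ⟨_, ⊤, by
      change (⊤ : Submodule k V) ≠ ⊥
      exact top_ne_bot, rfl⟩
  refine ⟨W, ?_⟩
  haveI hnt : Nontrivial (Subrepresentation W.toRepresentation) := by
    refine ⟨⊥, ⊤, fun h => ?_⟩
    have h1 := congrArg Subrepresentation.toSubmodule h
    change (⊥ : Submodule k W.toSubmodule) = ⊤ at h1
    rw [Submodule.ne_bot_iff] at hW
    obtain ⟨x, hx, hx0⟩ := hW
    have h2 : (⟨x, hx⟩ : W.toSubmodule) ∈ (⊥ : Submodule k W.toSubmodule) := by
      rw [h1]; exact Submodule.mem_top
    rw [Submodule.mem_bot] at h2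
    exact hx0 (congrArg Subtype.val h2)
  refine ⟨fun U => ?_⟩
  by_cases hU : U.toSubmodule = ⊥
  · left
    exact Subrepresentation.toSubmodule_injective hU
  · right
    let U' : Subrepresentation ρ :=
      { toSubmodule := U.toSubmodule.map W.toSubmodule.subtype
        apply_mem_toSubmodule := by
          rintro g _ ⟨x, hx, rfl⟩
          exact ⟨_, U.apply_mem_toSubmodule g hx, rfl⟩ }
    have h1 : U'.toSubmodule ≠ ⊥ := by
      intro h
      apply hU
      rw [eq_bot_iff]
      intro u hu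
      have h5 : (u : V) ∈ U'.toSubmodule := ⟨u, hu, rfl⟩
      rw [h, Submodule.mem_bot] at h5
      rw [Submodule.mem_bot]
      exact Subtype.ext h5
    have h2 : m ≤ Module.finrank k U'.toSubmodule :=
      not_lt.mp (hmin _ ⟨U', h1, rfl⟩)
    have h3 : U'.toSubmodule ≤ W.toSubmodule := Submodule.map_subtype_le _ _
    have h4 : U'.toSubmodule = W.toSubmodule :=
      Submodule.eq_of_le_of_finrank_le h3 (by rw [hWm]; exact h2)
    apply Subrepresentation.toSubmodule_injective
    change U.toSubmodule = ⊤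
    rw [Submodule.eq_top_iff']
    intro x
    have hx : (x : V) ∈ U'.toSubmodule := by rw [h4]; exact x.2
    obtain ⟨y, hy, hyx⟩ := hx
    have : y = x := Subtype.ext hyx
    rw [← this]
    exact hy

omit [FiniteDimensional k V] in
/-- A nonzero fixed vector shows that the norm element is nonzero. -/
lemma norm_ne_zero [CharZero k] [Finite G] (ρ : Representation k G V) (H : Subgroup G) {w : V}
    (hw : w ≠ 0) (hfix : ∀ h ∈ H, ρ h w = w) [Fintype H] : ∑ h : H, ρ (h : G) ≠ 0 := by
  intro h0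
  have h1 := congrArg (fun f : V →ₗ[k] V => f w) h0
  beta_reduce at h1
  rw [LinearMap.sum_apply, LinearMap.zero_apply] at h1
  have h2 : ∑ h : H, ρ (h : G) w = (Fintype.card H : k) • w := by
    rw [Finset.sum_congr rfl fun (h : H) _ => hfix (h : G) h.2, Finset.sum_const, Finset.card_univ,
      Nat.cast_smul_eq_nsmul]
  rw [h2, smul_eq_zero] at h1
  rcases h1 with h1 | h1
  · exact (Nat.cast_ne_zero.mpr Fintype.card_ne_zero) h1
  · exact hw h1

end rep

section matrep

variable {k G : Type} [Field k] [Group G]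

/-- The representation attached to a homomorphism to matrices. -/
noncomputable def repOf {c : ℕ} (M : G →* Matrix (Fin c) (Fin c) k) :
    Representation k G (Fin c → k) :=
  ((Matrix.toLinAlgEquiv' : Matrix (Fin c) (Fin c) k ≃ₐ[k] _) : Matrix (Fin c) (Fin c) k →* _).comp
      M

lemma repOf_apply {c : ℕ} (M : G →* Matrix (Fin c) (Fin c) k) (g : G) :
    repOf M g = Matrix.toLinAlgEquiv' (M g) := rfl

/-- The dimension of the fixed space of a subgroup. -/
noncomputable def fd {W : Type*} [AddCommGroup W] [Module k W] (σ : Representation k G W)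
    (H : Subgroup G) : ℕ :=
  Module.finrank k (Representation.invariants (k := k) (G := H) (V := W) (σ.comp H.subtype))

/-- From matrices to an irreducible representation. -/
theorem exists_rep {c : ℕ} (hc : c ≠ 0) (M : G →* Matrix (Fin c) (Fin c) k) :
    ∃ (W : Type) (_ : AddCommGroup W) (_ : Module k W) (σ : Representation k G W),
      σ.IsIrreducible ∧ FiniteDimensional k W ∧ Module.finrank k W ≤ c ∧
      (∀ g, M g = 1 → σ g = 1) ∧ ∀ (H : Subgroup G), fd σ H ≤ fd (repOf M) H := by
  haveI : NeZero c := ⟨hc⟩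
  obtain ⟨W, hW⟩ := exists_irred (repOf M)
  refine ⟨W.toSubmodule, inferInstance, inferInstance, W.toRepresentation, hW, inferInstance,
    ?_, ?_, ?_⟩
  · calc _ ≤ Module.finrank k (Fin c → k) := Submodule.finrank_le _
      _ = c := by rw [Module.finrank_fin_fun]
  · intro g hg
    have h1 : repOf M g = 1 := by
      rw [repOf_apply, hg, map_one]
    ext w
    change (repOf M g (w : Fin c → k)) _ = _
    rw [h1]
    rfl
  · intro H
    unfold fd
    let f : Representation.invariants (k := k) (G := H) (V := W.toSubmodule)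
        (W.toRepresentation.comp H.subtype) →ₗ[k]
        Representation.invariants (k := k) (G := H) (V := Fin c → k)
          ((repOf M).comp H.subtype) :=
      { toFun := fun w => ⟨((w : W.toSubmodule) : Fin c → k), fun h => by
          exact congrArg Subtype.val (w.2 h)⟩
        map_add' := fun _ _ => rfl
        map_smul' := fun _ _ => rfl }
    have hf : Function.Injective f := by
      intro v w hvw
      have h1 := congrArg Subtype.val hvw
      exact Subtype.ext (Subtype.ext h1)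
    exact LinearMap.finrank_le_finrank_of_injective hf

/-- The dimension of the fixed space is at most the rank of the norm element. -/
theorem fd_le_rank [CharZero k] {c : ℕ} (M : G →* Matrix (Fin c) (Fin c) k) (H : Subgroup G)
    [Fintype H] : fd (repOf M) H ≤ (∑ h : H, M (h : G)).rank := by
  unfold fd Matrix.rank
  have h1 : Representation.invariants (k := k) (G := H) (V := Fin c → k)
      ((repOf M).comp H.subtype) ≤ LinearMap.range (∑ h : H, M (h : G)).mulVecLin := by
    intro v hv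
    refine ⟨((Fintype.card H : k))⁻¹ • v, ?_⟩
    have hv' : ∀ h : H, (M (h : G)).mulVec v = v := fun h => hv h
    have h2 : (∑ h : H, M (h : G)).mulVec v = (Fintype.card H : k) • v := by
      rw [Matrix.sum_mulVec, Finset.sum_congr rfl fun h _ => hv' h, Finset.sum_const,
        Finset.card_univ, Nat.cast_smul_eq_nsmul]
    rw [Matrix.mulVecLin_apply, Matrix.mulVec_smul, h2, smul_smul, inv_mul_cancel₀, one_smul]
    exact Nat.cast_ne_zero.mpr Fintype.card_ne_zero
  exact Submodule.finrank_mono h1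

/-- The trace of the norm element. -/
theorem card_mul_fd {c : ℕ} (M : G →* Matrix (Fin c) (Fin c) k) (H : Subgroup G)
    [Fintype H] (hH : (Fintype.card H : k) ≠ 0) :
    (Fintype.card H : k) * (fd (repOf M) H : k) = ∑ h : H, (M (h : G)).trace := by
  letI : Invertible (Fintype.card H : k) := invertibleOfNonzero hH
  let ρ : Representation k H (Fin c → k) := (repOf M).comp H.subtype
  have h1 := (Representation.isProj_averageMap ρ).trace
  have h2 : (Fintype.card H : k) • Representation.averageMap ρ = ∑ h : H, ρ h := by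
    unfold Representation.averageMap GroupAlgebra.average
    rw [map_smul, smul_smul, mul_invOf_self, one_smul, map_sum]
    refine Finset.sum_congr rfl fun h _ => ?_
    rw [MonoidAlgebra.of_apply, Representation.asAlgebraHom_single, one_smul]
  have h3 := congrArg (LinearMap.trace k (Fin c → k)) h2
  rw [map_smul, map_sum, smul_eq_mul] at h3
  have h4 : ∀ h : H, LinearMap.trace k (Fin c → k) (ρ h) = (M (h : G)).trace := by
    intro h
    change LinearMap.trace k (Fin c → k) (Matrix.toLin' (M (h : G))) = _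
    rw [Matrix.trace_toLin'_eq]
  simp_rw [h4] at h3
  rw [← h3]
  congr 1
  unfold fd
  rw [← h1]

end matrep

end Pool.Agent.H11.DP

end S_H11_RepLem

section S_H11_ProdC

set_option autoImplicit false
set_option linter.style.haveILetI false
open scoped Cardinal

namespace Pool.Agent.H11.DP

/-- A field of characteristic zero of cardinality at most the continuum embeds in the complex
numbers. -/
theorem exists_toComplex (k : Type) [Field k] [CharZero k] (hk : #k ≤ 𝔠) :
    Nonempty (k →+* ℂ) := by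
  let P := MvPolynomial ℝ k
  let F := FractionRing P
  let Ω := AlgebraicClosure F
  have hP : #P = 𝔠 := by
    rw [MvPolynomial.cardinalMk_eq_max, Cardinal.mk_real]
    rw [max_eq_right hk, max_eq_left Cardinal.aleph0_le_continuum]
  have hF : #F = 𝔠 := by rw [← hP]; exact Cardinal.mk_fractionRing P
  have hΩ : #Ω = 𝔠 := by
    apply le_antisymm
    · have h1 := Algebra.IsAlgebraic.cardinalMk_le_max F Ω
      rw [hF, max_eq_left Cardinal.aleph0_le_continuum] at h1
      exact h1
    · rw [← hF]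
      exact Cardinal.mk_le_of_injective (algebraMap F Ω).injective
  haveI : CharZero P := MvPolynomial.instCharZero ..
  haveI : CharZero F := charZero_of_injective_algebraMap (IsFractionRing.injective P F)
  haveI : CharZero Ω := charZero_of_injective_algebraMap (algebraMap F Ω).injective
  have he : Nonempty (Ω ≃ ℂ) := by
    rw [← Cardinal.eq, hΩ, Cardinal.mk_complex]
  obtain ⟨e⟩ := IsAlgClosed.ringEquiv_of_equiv_of_charZero (K := Ω) (L := ℂ) (by
    rw [hΩ]; exact Cardinal.aleph0_lt_continuum) he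
  exact ⟨(e : Ω →+* ℂ).comp ((algebraMap F Ω).comp ((algebraMap P F).comp MvPolynomial.C))⟩

/-- A homomorphism from an infinite product of distinct prime fields to the complex numbers,
which kills the elements of finite support. -/
theorem exists_prodHom (S : Set ℕ) (hS : ∀ p ∈ S, p.Prime) (hinf : S.Infinite) :
    ∃ φ : (∀ p : S, ZMod p) →+* ℂ, ∀ f : ∀ p : S, ZMod p, {p : S | f p ≠ 0}.Finite → φ f = 0 := by
  haveI : ∀ p : S, Fact (p : ℕ).Prime := fun p => ⟨hS p p.2⟩
  haveI : Infinite S := hinf.to_subtype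
  let R := ∀ p : S, ZMod p
  let I : Ideal R :=
    { carrier := {f | {p : S | f p ≠ 0}.Finite}
      add_mem' := fun {f g} hf hg => by
        refine (Set.Finite.union hf hg).subset fun p hp => ?_
        by_contra hcon
        rw [Set.mem_union, not_or] at hcon
        apply hp
        rw [Pi.add_apply, not_not.mp hcon.1, not_not.mp hcon.2, add_zero]
      zero_mem' := by
        refine Set.finite_empty.subset fun p hp => hp rfl
      smul_mem' := fun c f hf => by
        refine Set.Finite.subset hf fun p hp => ?_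
        intro h0
        apply hp
        change c p * f p = 0
        rw [h0, mul_zero] }
  have hI : I ≠ ⊤ := by
    rw [Ne, Ideal.eq_top_iff_one]
    intro h
    have h1 : {p : S | (1 : R) p ≠ 0}.Finite := h
    have h2 : {p : S | (1 : R) p ≠ 0} = Set.univ := by
      rw [Set.eq_univ_iff_forall]
      intro p
      change (1 : ZMod p) ≠ 0
      exact one_ne_zero
    rw [h2] at h1
    exact Set.infinite_univ h1
  obtain ⟨m, hm, hIm⟩ := Ideal.exists_le_maximal I hI
  let k := R ⧸ m
  letI : Field k := Ideal.Quotient.field m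
  haveI : CharZero k := by
    apply charZero_of_inj_zero
    intro n hn
    by_contra hn0
    -- an inverse
    let g : R := fun p => ((n : ZMod p))⁻¹
    have h1 : (n : R) * g - 1 ∈ I := by
      have h2 : {p : S | (p : ℕ) ∣ n}.Finite := by
        have h3 : {q : ℕ | q ∣ n}.Finite := (Nat.divisors n).finite_toSet.subset fun q hq => by
          rw [Finset.mem_coe, Nat.mem_divisors]
          exact ⟨hq, hn0⟩
        exact Set.Finite.preimage (f := (Subtype.val : S → ℕ)) (s := {q : ℕ | q ∣ n})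
          (Subtype.val_injective.injOn) h3
      refine h2.subset fun p hp => ?_
      by_contra hdiv
      apply hp
      have h4 : (n : ZMod p) ≠ 0 := by
        rw [Ne, ZMod.natCast_eq_zero_iff]
        exact hdiv
      change (n : R) p * ((n : ZMod p))⁻¹ - 1 = 0
      have h5 : (n : R) p = (n : ZMod p) := rfl
      rw [h5, mul_inv_cancel₀ h4, sub_self]
    have h2 : (n : R) ∈ m := by
      have h3 : (Ideal.Quotient.mk m (n : R)) = 0 := by
        rw [map_natCast]
        exact hn
      exact Ideal.Quotient.eq_zero_iff_mem.mp h3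
    apply hm.ne_top
    rw [Ideal.eq_top_iff_one]
    have h3 : (1 : R) = (n : R) * g - ((n : R) * g - 1) := by ring
    rw [h3]
    exact sub_mem (m.mul_mem_right _ h2) (hIm h1)
  have hcard : #k ≤ 𝔠 := by
    have h1 : #k ≤ #R := Cardinal.mk_le_of_surjective (Ideal.Quotient.mk_surjective)
    refine h1.trans ?_
    have h2 : #R ≤ #(S → ℕ) := by
      apply Cardinal.mk_le_of_injective (f := fun f p => (f p).val)
      intro f g hfg
      funext p
      exact ZMod.val_injective _ (congrFun hfg p)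
    refine h2.trans ?_
    rw [← Cardinal.power_def, Cardinal.mk_nat]
    calc ℵ₀ ^ #S ≤ ℵ₀ ^ ℵ₀ := Cardinal.power_le_power_left Cardinal.aleph0_ne_zero
          (Cardinal.mk_le_aleph0)
      _ = 𝔠 := Cardinal.aleph0_power_aleph0
  obtain ⟨e⟩ := exists_toComplex k hcard
  refine ⟨e.comp (Ideal.Quotient.mk m), fun f hf => ?_⟩
  rw [RingHom.comp_apply, Ideal.Quotient.eq_zero_iff_mem.mpr (hIm hf), map_zero]

end Pool.Agent.H11.DP

end S_H11_ProdC

section S_H11_Minkowski

set_option autoImplicit false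
set_option linter.style.haveILetI false
open scoped Classical

namespace Pool.Agent.H11.DP

/-- `p` if `p` is odd, `4` if `p = 2`, as a power of `p`. -/
def ex (p : ℕ) : ℕ := if p = 2 then 2 else 1

section

variable {p : ℕ} [hp : Fact p.Prime] {c : ℕ}

/-- An element divisible by all powers of `p` is zero. -/
lemma eq_zero_of_eq_mul {z η : Matrix (Fin c) (Fin c) ℤ_[p]} (h : z = (p : ℤ_[p]) • (z * η)) :
    z = 0 := by
  have h1 : ∀ k : ℕ, ∃ y : Matrix (Fin c) (Fin c) ℤ_[p], z = (p : ℤ_[p]) ^ k • (z * y) := by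
    intro k
    induction k with
    | zero => exact ⟨1, by rw [pow_zero, one_smul, mul_one]⟩
    | succ k ih =>
      obtain ⟨y, hy⟩ := ih
      refine ⟨η * y, ?_⟩
      conv_lhs => rw [hy, h]
      rw [smul_mul_assoc, smul_smul, pow_succ, mul_assoc]
  ext i j
  rw [Matrix.zero_apply, ← PadicInt.ext_of_toZModPow]
  intro n
  obtain ⟨y, hy⟩ := h1 n
  rw [hy, Matrix.smul_apply, smul_eq_mul, map_mul, map_pow, map_natCast, map_zero]
  have h2 : ((p : ZMod (p ^ n))) ^ n = 0 := by
    rw [← Nat.cast_pow, ZMod.natCast_self]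
  rw [h2, zero_mul]

lemma pow_expand {R : Type*} [Ring R] (z : R) (n : ℕ) :
    ∃ t : R, (1 + z) ^ n = 1 + n • z + z * z * t := by
  induction n with
  | zero => exact ⟨0, by simp⟩
  | succ n ih =>
    obtain ⟨t, ht⟩ := ih
    refine ⟨n • 1 + t * (1 + z), ?_⟩
    rw [pow_succ, ht, add_smul, one_smul]
    have h1 : n • z * z = n • (z * z) := smul_mul_assoc _ _ _
    have h2 : z * z * (n • 1) = n • (z * z) := by rw [mul_smul_comm, mul_one]
    rw [mul_add (z * z), h2, mul_add, mul_one, add_mul, add_mul, one_mul, h1]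
    noncomm_ring

lemma geom_expand {R : Type*} [Ring R] (z : R) (n : ℕ) :
    ∃ t : R, ∑ i ∈ Finset.range n, (1 + z) ^ i = n • 1 + (∑ i ∈ Finset.range n, i) • z +
      z * z * t := by
  have h1 : ∀ i : ℕ, ∃ t : R, (1 + z) ^ i = 1 + i • z + z * z * t := fun i => pow_expand z i
  choose t ht using h1
  refine ⟨∑ i ∈ Finset.range n, t i, ?_⟩
  simp_rw [ht]
  rw [Finset.sum_add_distrib, Finset.sum_add_distrib, Finset.sum_const, Finset.card_range,
    Finset.mul_sum, Finset.sum_smul]

/-- A matrix of prime order which is congruent to one modulo `p` (modulo `4` if `p = 2`) is the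
identity. -/
theorem eq_one_of_prime_order {q : ℕ} (hq : q.Prime) {X Y : Matrix (Fin c) (Fin c) ℤ_[p]}
    (hX : X ^ q = 1) (hY : X = 1 + ((p : ℤ_[p]) ^ ex p) • Y) : X = 1 := by
  set z : Matrix (Fin c) (Fin c) ℤ_[p] := ((p : ℤ_[p]) ^ ex p) • Y with hz
  have hX1 : (∑ i ∈ Finset.range q, X ^ i) * (X - 1) = 0 := by
    rw [geom_sum_mul, hX, sub_self]
  obtain ⟨t, ht⟩ := geom_expand z q
  rw [← hY] at ht
  have hcomm : Commute (∑ i ∈ Finset.range q, X ^ i) (X - 1) := by
    apply Commute.sub_right _ (Commute.one_right _)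
    exact Commute.sum_left _ _ _ fun i _ => (Commute.refl X).pow_left i
  have hz1 : X - 1 = z := by rw [hY]; abel
  rw [hcomm.eq, hz1, ht] at hX1
  have hz0 : z = 0 := by
    by_cases hqp : q = p
    · subst hqp
      -- the sum is `q (1 + q η)`
      obtain ⟨η, hη⟩ : ∃ η : Matrix (Fin c) (Fin c) ℤ_[q],
          q • 1 + (∑ i ∈ Finset.range q, i) • z + z * z * t = q • (1 + (q : ℤ_[q]) • η) := by
        by_cases h2 : q = 2
        · subst h2
          refine ⟨Y + ((2 : ℕ) : ℤ_[2]) ^ 2 • (Y * Y * t), ?_⟩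
          rw [hz]
          have : ex 2 = 2 := rfl
          rw [this, smul_mul_smul_comm, smul_mul_assoc]
          have h3 : ∑ i ∈ Finset.range 2, i = 1 := rfl
          rw [h3, one_smul, smul_add, smul_add, smul_add, add_assoc]
          congr 1
          simp only [← Nat.cast_smul_eq_nsmul ℤ_[2], smul_smul]
          congr 2
          · norm_num
          · norm_num
        · have he : ex q = 1 := by unfold ex; rw [if_neg h2]
          obtain ⟨m, hm⟩ : ∃ m, ∑ i ∈ Finset.range q, i = q * m := by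
            have h3 := Finset.sum_range_id q
            obtain ⟨m, hm⟩ := (hp.out.even_sub_one h2)
            refine ⟨m, ?_⟩
            rw [h3, hm, ← two_mul, mul_left_comm]
            exact Nat.mul_div_cancel_left _ two_pos
          refine ⟨(m : ℤ_[q]) • Y + (Y * Y * t), ?_⟩
          rw [hz, he, pow_one, smul_mul_smul_comm, smul_mul_assoc, hm, smul_add, smul_add,
            smul_add, add_assoc]
          congr 1
          simp only [← Nat.cast_smul_eq_nsmul ℤ_[q], smul_smul]
          congr 2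
          push_cast
          ring
      rw [hη, mul_smul_comm] at hX1
      have h4 : z * (1 + (q : ℤ_[q]) • η) = 0 := by
        rw [← Nat.cast_smul_eq_nsmul ℤ_[q], smul_eq_zero] at hX1
        rcases hX1 with h | h
        · exact absurd h (Nat.cast_ne_zero.mpr hp.out.ne_zero)
        · exact h
      rw [mul_add, mul_one, mul_smul_comm] at h4
      have h5 : z = (q : ℤ_[q]) • (z * (-η)) := by
        rw [mul_neg, smul_neg]
        exact eq_neg_of_add_eq_zero_left h4
      exact eq_zero_of_eq_mul h5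
    · -- `q` is a unit
      have hu : IsUnit (q : ℤ_[p]) := by
        rw [PadicInt.isUnit_iff]
        have h1 : ¬ (p : ℤ) ∣ (q : ℤ) := by
          intro h
          have h2 : p ∣ q := by exact_mod_cast h
          exact hqp ((Nat.prime_dvd_prime_iff_eq hp.out hq).mp h2).symm
        by_contra h
        have h3 : ‖((q : ℤ) : ℤ_[p])‖ < 1 := by
          rw [Int.cast_natCast]
          exact lt_of_le_of_ne (PadicInt.norm_le_one _) h
        exact h1 (PadicInt.norm_int_lt_one_iff_dvd _ |>.mp h3)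
      obtain ⟨u, hu⟩ := hu
      have hzz : ∃ y : Matrix (Fin c) (Fin c) ℤ_[p], z = (p : ℤ_[p]) • y := by
        refine ⟨((p : ℤ_[p]) ^ (ex p - 1)) • Y, ?_⟩
        rw [hz, smul_smul, ← pow_succ']
        congr 2
        unfold ex
        split_ifs <;> rfl
      obtain ⟨y, hy⟩ := hzz
      obtain ⟨η, hη⟩ : ∃ η : Matrix (Fin c) (Fin c) ℤ_[p],
          (∑ i ∈ Finset.range q, i) • z + z * z * t = (p : ℤ_[p]) • η := by
        refine ⟨(∑ i ∈ Finset.range q, i) • y + y * z * t, ?_⟩
        rw [smul_add]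
        congr 1
        · rw [smul_comm (p : ℤ_[p]), ← hy]
        · rw [← smul_mul_assoc, ← smul_mul_assoc, ← hy]
      rw [add_assoc, hη, mul_add, mul_smul_comm, mul_one] at hX1
      have h5 : z = (p : ℤ_[p]) • (z * (-((u⁻¹ : ℤ_[p]ˣ) : ℤ_[p]) • η)) := by
        have h6 : q • z = (q : ℤ_[p]) • z := (Nat.cast_smul_eq_nsmul _ _ _).symm
        rw [h6, ← hu] at hX1
        have h7 : ((u⁻¹ : ℤ_[p]ˣ) : ℤ_[p]) • ((u : ℤ_[p]) • z + z * (p : ℤ_[p]) • η) = 0 := by
          rw [hX1, smul_zero]
        rw [smul_add, smul_smul, Units.inv_mul, one_smul] at h7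
        have h8 := eq_neg_of_add_eq_zero_left h7
        rw [mul_smul_comm, smul_smul] at h8
        rw [mul_smul_comm, smul_smul, mul_neg, neg_smul, mul_comm (p : ℤ_[p])]
        exact h8
      exact eq_zero_of_eq_mul h5
  rw [hY, hz0, add_zero]

/-- A matrix of finite order which is congruent to one is the identity. -/
theorem eq_one_of_finite_order {n : ℕ} (hn : n ≠ 0) {X Y : Matrix (Fin c) (Fin c) ℤ_[p]}
    (hX : X ^ n = 1) (hY : X = 1 + ((p : ℤ_[p]) ^ ex p) • Y) : X = 1 := by
  by_contra hne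
  have hfo : IsOfFinOrder X := isOfFinOrder_iff_pow_eq_one.mpr ⟨n, Nat.pos_of_ne_zero hn, hX⟩
  have hpos := hfo.orderOf_pos
  have hne1 : orderOf X ≠ 1 := fun h => hne (orderOf_eq_one_iff.mp h)
  obtain ⟨q, hq, hqd⟩ := Nat.exists_prime_and_dvd hne1
  have h1 : (X ^ (orderOf X / q)) ^ q = 1 := by
    rw [← pow_mul, Nat.div_mul_cancel hqd, pow_orderOf_eq_one]
  have h2 : ∀ m : ℕ, ∃ Y' : Matrix (Fin c) (Fin c) ℤ_[p],
      X ^ m = 1 + ((p : ℤ_[p]) ^ ex p) • Y' := by
    intro m
    induction m with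
    | zero => exact ⟨0, by rw [pow_zero, smul_zero, add_zero]⟩
    | succ m ih =>
      obtain ⟨Y', hY'⟩ := ih
      refine ⟨Y' + X ^ m * Y, ?_⟩
      rw [pow_succ]
      conv_lhs => rw [hY, mul_add, mul_one, mul_smul_comm]
      rw [← hY]
      conv_lhs => rw [hY']
      rw [smul_add, ← add_assoc, ← hY']
  obtain ⟨Y', hY'⟩ := h2 (orderOf X / q)
  have h3 := eq_one_of_prime_order hq h1 hY'
  have h4 := orderOf_dvd_of_pow_eq_one h3
  have h5 := Nat.le_of_dvd (Nat.div_pos (Nat.le_of_dvd hpos hqd) hq.pos) h4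
  exact absurd (Nat.div_lt_self hpos hq.one_lt) (not_lt.mpr h5)

/-- Minkowski's bound: the image of a finite group in the matrices over the p-adic integers embeds
into the matrices modulo `p` (modulo `4` if `p = 2`). -/
theorem index_ker_le {G : Type*} [Group G] [Finite G] (M : G →* Matrix (Fin c) (Fin c) ℤ_[p]) :
    M.ker.index ≤ (p ^ ex p) ^ (c ^ 2) := by
  haveI : NeZero (p ^ ex p) := ⟨pow_ne_zero _ hp.out.ne_zero⟩
  let f : G → Matrix (Fin c) (Fin c) (ZMod (p ^ ex p)) :=
    fun g => (M g).map (PadicInt.toZModPow (ex p))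
  have hf : ∀ g h, f g = f h → M g = M h := by
    intro g h hgh
    have h1 : ∀ i j, ∃ y : ℤ_[p], M h i j - M g i j = (p : ℤ_[p]) ^ ex p * y := by
      intro i j
      have h2 := congrFun (congrFun hgh i) j
      have h3 : M h i j - M g i j ∈
          RingHom.ker (PadicInt.toZModPow (ex p) : ℤ_[p] →+* ZMod (p ^ ex p)) := by
        rw [RingHom.mem_ker, map_sub, sub_eq_zero]
        exact h2.symm
      rw [PadicInt.ker_toZModPow, Ideal.mem_span_singleton] at h3
      exact h3
    choose y hy using h1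
    have h2 : M h = M g + ((p : ℤ_[p]) ^ ex p) • Matrix.of y := by
      ext i j
      rw [Matrix.add_apply, Matrix.smul_apply, Matrix.of_apply, smul_eq_mul, ← hy]
      abel
    have h3 : M (g⁻¹ * h) = 1 + ((p : ℤ_[p]) ^ ex p) • (M g⁻¹ * Matrix.of y) := by
      rw [map_mul, h2, mul_add, ← map_mul, inv_mul_cancel, map_one, mul_smul_comm]
    have h4 : M (g⁻¹ * h) ^ (Nat.card G) = 1 := by
      rw [← map_pow, pow_card_eq_one', map_one]
    have h5 := eq_one_of_finite_order (Nat.card_pos.ne') h4 h3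
    have h6 : M g * M (g⁻¹ * h) = M h := by rw [← map_mul, mul_inv_cancel_left]
    rw [← h6, h5, mul_one]
  have hinj : Function.Injective (fun x : G ⧸ M.ker => f x.out) := by
    intro x y hxy
    have h1 := hf _ _ hxy
    rw [← QuotientGroup.out_eq' x, ← QuotientGroup.out_eq' y, QuotientGroup.eq]
    rw [MonoidHom.mem_ker, map_mul, ← h1, ← map_mul, inv_mul_cancel, map_one]
  have h1 := Nat.card_le_card_of_injective _ hinj
  have h2 : Nat.card (Matrix (Fin c) (Fin c) (ZMod (p ^ ex p))) = (p ^ ex p) ^ (c ^ 2) := by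
    rw [Matrix, Nat.card_fun, Nat.card_fun, Nat.card_zmod, Nat.card_fin, ← pow_mul, sq]
  rw [h2] at h1
  exact h1

end

end Pool.Agent.H11.DP

end S_H11_Minkowski

section S_H11_Absr

set_option autoImplicit false
set_option linter.style.haveILetI false
open scoped Classical

namespace Pool.Agent.H11.DP

/-- The subgroup of elements killed by an integer all of whose prime factors lie in `P`. -/
def Part (A : Type*) [AddCommGroup A] (P : Set ℕ) : AddSubgroup A where
  carrier := {x | ∃ m : ℕ, m ≠ 0 ∧ (∀ q : ℕ, q.Prime → q ∣ m → q ∈ P) ∧ m • x = 0}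
  add_mem' := by
    rintro x y ⟨m, hm, hmP, hmx⟩ ⟨n, hn, hnP, hny⟩
    refine ⟨m * n, mul_ne_zero hm hn, ?_, ?_⟩
    · intro q hq hqd
      rcases hq.dvd_mul.mp hqd with h | h
      · exact hmP q hq h
      · exact hnP q hq h
    · have h1 : (m * n) • x = 0 := by rw [mul_comm, mul_smul, hmx, smul_zero]
      have h2 : (m * n) • y = 0 := by rw [mul_smul, hny, smul_zero]
      rw [smul_add, h1, h2, add_zero]
  zero_mem' := ⟨1, one_ne_zero, fun q hq h => absurd (Nat.dvd_one.mp h) hq.ne_one, smul_zero _⟩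
  neg_mem' := by
    rintro x ⟨m, hm, hmP, hmx⟩
    exact ⟨m, hm, hmP, by rw [smul_neg, hmx, neg_zero]⟩

section

variable {A : Type} [AddCommGroup A]

lemma prim_le_part {P : Set ℕ} {p : ℕ} (hp : p.Prime) (hpP : p ∈ P) : prim A p ≤ Part A P := by
  rintro x ⟨k, hk⟩
  refine ⟨p ^ k, pow_ne_zero _ hp.ne_zero, fun q hq hqd => ?_, hk⟩
  have h1 := hq.dvd_of_dvd_pow hqd
  rw [(Nat.prime_dvd_prime_iff_eq hq hp).mp h1]
  exact hpP

/-- An element killed by a power of `p` is a multiple of any integer prime to `p`. -/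
lemma exists_div_coprime {p n k : ℕ} (hn : Nat.Coprime n p) {x : A} (hx : p ^ k • x = 0) :
    ∃ u : ℤ, n • (u • x) = x := by
  have h1 : IsCoprime (n : ℤ) ((p ^ k : ℕ) : ℤ) :=
    Nat.isCoprime_iff_coprime.mpr (Nat.Coprime.pow_right k hn)
  obtain ⟨a, b, hab⟩ := h1
  refine ⟨a, ?_⟩
  have h2 : ((a * n + b * (p ^ k : ℕ) : ℤ)) • x = x := by rw [hab, one_smul]
  rw [add_smul, mul_smul b, natCast_zsmul, hx, smul_zero, add_zero, mul_comm, mul_smul,
    natCast_zsmul] at h2
  exact h2

/-- In a divisible primary group every integer multiplication is onto. -/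
lemma exists_div_all {p n : ℕ} (hp : p.Prime) (hn : n ≠ 0) (D : AddSubgroup A)
    (hprim : ∀ x ∈ D, ∃ k : ℕ, p ^ k • x = 0) (hdiv : ∀ x ∈ D, ∃ y ∈ D, p • y = x) {x : A}
    (hx : x ∈ D) : ∃ y ∈ D, n • y = x := by
  obtain ⟨e, n', hn', rfl⟩ := Nat.exists_eq_pow_mul_and_not_dvd hn p hp.ne_one
  have hpow : ∀ (e : ℕ) (x : A), x ∈ D → ∃ y ∈ D, p ^ e • y = x := by
    intro e
    induction e with
    | zero => intro x hx; exact ⟨x, hx, by rw [pow_zero, one_smul]⟩
    | succ e ih =>
      intro x hx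
      obtain ⟨y, hy, hyx⟩ := ih x hx
      obtain ⟨z, hz, hzy⟩ := hdiv y hy
      exact ⟨z, hz, by rw [pow_succ, mul_smul, hzy, hyx]⟩
  obtain ⟨y, hy, hyx⟩ := hpow e x hx
  obtain ⟨k, hk⟩ := hprim y hy
  obtain ⟨u, hu⟩ := exists_div_coprime (n := n') (p := p)
    ((Nat.Prime.coprime_iff_not_dvd hp).mpr hn').symm hk
  exact ⟨u • y, zsmul_mem hy u, by rw [mul_smul, hu, hyx]⟩

/-- A nonzero divisible primary group is not annihilated, and no finite set contains the image of
a homomorphism which is nonzero on it. -/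
lemma infinite_image {p : ℕ} (D : AddSubgroup A)
    (hprim : ∀ x ∈ D, ∃ k : ℕ, p ^ k • x = 0) (hdiv : ∀ x ∈ D, ∃ y ∈ D, p • y = x) (e : A →+ A)
    {x : A} (hx : x ∈ D) (hex : e x ≠ 0) : {z | ∃ a ∈ D, e a = z}.Infinite := by
  intro hfin
  -- a uniform exponent
  have h1 : ∀ z ∈ {z | ∃ a ∈ D, e a = z}, ∃ k : ℕ, p ^ k • z = 0 := by
    rintro _ ⟨a, ha, rfl⟩
    obtain ⟨k, hk⟩ := hprim a ha
    exact ⟨k, by rw [← map_nsmul, hk, map_zero]⟩
  obtain ⟨N, hN⟩ : ∃ N : ℕ, ∀ z ∈ {z | ∃ a ∈ D, e a = z}, p ^ N • z = 0 := by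
    choose! k hk using h1
    refine ⟨∑ z ∈ hfin.toFinset, k z, fun z hz => ?_⟩
    have h2 : k z ≤ ∑ z ∈ hfin.toFinset, k z :=
      Finset.single_le_sum (fun _ _ => Nat.zero_le _) (hfin.mem_toFinset.mpr hz)
    obtain ⟨m, hm⟩ := Nat.exists_eq_add_of_le h2
    rw [hm, pow_add, mul_comm, mul_smul, hk z hz, smul_zero]
  have hpow : ∀ (e : ℕ) (x : A), x ∈ D → ∃ y ∈ D, p ^ e • y = x := by
    intro e
    induction e with
    | zero => intro x hx; exact ⟨x, hx, by rw [pow_zero, one_smul]⟩
    | succ e ih =>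
      intro x hx
      obtain ⟨y, hy, hyx⟩ := ih x hx
      obtain ⟨z, hz, hzy⟩ := hdiv y hy
      exact ⟨z, hz, by rw [pow_succ, mul_smul, hzy, hyx]⟩
  obtain ⟨y, hy, hyx⟩ := hpow N x hx
  apply hex
  rw [← hyx, map_nsmul]
  exact hN _ ⟨y, hy, rfl⟩

/-- A finite primary group has a finite exponent. -/
lemma exists_exp {p : ℕ} (h : (prim A p : Set A).Finite) : ∃ e : ℕ, ∀ x ∈ prim A p,
    p ^ e • x = 0 := by
  have h1 : ∀ z ∈ (prim A p : Set A), ∃ k : ℕ, p ^ k • z = 0 := fun z hz => hz
  choose! k hk using h1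
  refine ⟨∑ z ∈ h.toFinset, k z, fun z hz => ?_⟩
  have h2 : k z ≤ ∑ z ∈ h.toFinset, k z :=
    Finset.single_le_sum (fun _ _ => Nat.zero_le _) (h.mem_toFinset.mpr hz)
  obtain ⟨m, hm⟩ := Nat.exists_eq_add_of_le h2
  rw [hm, pow_add, mul_comm, mul_smul, hk z hz, smul_zero]

/-- If all primary parts are finite and almost all vanish then the group is finite. -/
theorem part_finite {P : Set ℕ} (hP : ∀ p ∈ P, p.Prime)
    (h1 : ∀ p ∈ P, (prim A p : Set A).Finite)
    (h2 : {p ∈ P | ∃ x : A, x ≠ 0 ∧ p • x = 0}.Finite) : (Part A P : Set A).Finite := by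
  have hexp : ∀ p ∈ P, ∃ e : ℕ, ∀ x ∈ prim A p, p ^ e • x = 0 := fun p hp => exists_exp (h1 p hp)
  choose! e he using hexp
  let S := h2.toFinset
  have hS : ∀ q, q ∈ S ↔ q ∈ P ∧ ∃ x : A, x ≠ 0 ∧ q • x = 0 := fun q => h2.mem_toFinset
  let N := ∏ q ∈ S, q ^ e q
  have hN0 : N ≠ 0 := Finset.prod_ne_zero_iff.mpr fun q hq =>
    pow_ne_zero _ (hP q ((hS q).mp hq).1).ne_zero
  -- the order of an element
  have hord : ∀ x ∈ Part A P, addOrderOf x ≠ 0 ∧ ∀ q : ℕ, q.Prime → q ∣ addOrderOf x → q ∈ S := by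
    rintro x ⟨m, hm, hmP, hmx⟩
    have h3 : addOrderOf x ∣ m := addOrderOf_dvd_iff_nsmul_eq_zero.mpr hmx
    have h4 : addOrderOf x ≠ 0 := fun h => hm (by rw [h] at h3; exact Nat.eq_zero_of_zero_dvd h3)
    refine ⟨h4, fun q hq hqd => ?_⟩
    rw [hS]
    refine ⟨hmP q hq (hqd.trans h3), (addOrderOf x / q) • x, ?_, ?_⟩
    · intro h
      have h5 := addOrderOf_dvd_iff_nsmul_eq_zero.mpr h
      have h6 := Nat.le_of_dvd (Nat.div_pos (Nat.le_of_dvd (Nat.pos_of_ne_zero h4) hqd) hq.pos) h5
      exact absurd (Nat.div_lt_self (Nat.pos_of_ne_zero h4) hq.one_lt) (not_lt.mpr h6)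
    · rw [← mul_smul, Nat.mul_div_cancel' hqd, addOrderOf_nsmul_eq_zero]
  have hdvd : ∀ x ∈ Part A P, addOrderOf x ∣ N := by
    intro x hx
    obtain ⟨h4, h5⟩ := hord x hx
    rw [Nat.dvd_iff_prime_pow_dvd_dvd]
    intro q k hq hqk
    rcases Nat.eq_zero_or_pos k with rfl | hk
    · rw [pow_zero]; exact one_dvd _
    have hqS := h5 q hq ((dvd_pow_self q hk.ne').trans hqk)
    have hqP := ((hS q).mp hqS).1
    have h6 : (addOrderOf x / q ^ k) • x ∈ prim A q :=
      ⟨k, by rw [← mul_smul, Nat.mul_div_cancel' hqk, addOrderOf_nsmul_eq_zero]⟩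
    have h7 := he q hqP _ h6
    rw [← mul_smul] at h7
    have h8 := addOrderOf_dvd_iff_nsmul_eq_zero.mpr h7
    have h9 : q ^ k * (addOrderOf x / q ^ k) ∣ q ^ e q * (addOrderOf x / q ^ k) := by
      rwa [Nat.mul_div_cancel' hqk]
    have h10 : 0 < addOrderOf x / q ^ k :=
      Nat.div_pos (Nat.le_of_dvd (Nat.pos_of_ne_zero h4) hqk) (pow_pos hq.pos _)
    exact (Nat.dvd_of_mul_dvd_mul_right h10 h9).trans (Finset.dvd_prod_of_mem _ hqS)
  have hNx : ∀ x ∈ Part A P, N • x = 0 := fun x hx =>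
    addOrderOf_dvd_iff_nsmul_eq_zero.mp (hdvd x hx)
  -- the map to the product
  have hM : ∀ q ∈ S, ∃ M : ℕ, q ^ e q * M = N ∧ ¬ q ∣ M := by
    intro q hq
    refine ⟨∏ r ∈ S.erase q, r ^ e r, Finset.mul_prod_erase S (fun q => q ^ e q) hq, ?_⟩
    intro hd
    obtain ⟨r, hr, hrd⟩ := (Prime.dvd_finsetProd_iff
      ((hP q ((hS q).mp hq).1).prime) _).mp hd
    have h3 := (hP q ((hS q).mp hq).1).dvd_of_dvd_pow hrd
    have h4 := (Nat.prime_dvd_prime_iff_eq (hP q ((hS q).mp hq).1)
      (hP r ((hS r).mp (Finset.mem_of_mem_erase hr)).1)).mp h3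
    exact (Finset.ne_of_mem_erase hr) h4.symm
  choose! M hM1 hM2 using hM
  haveI : ∀ q : S, Finite (prim A (q : ℕ)) := fun q => h1 q ((hS q).mp q.2).1
  let f : Part A P → ∀ q : S, prim A (q : ℕ) := fun x q =>
    ⟨M q • (x : A), e q, by rw [← mul_smul, hM1 q q.2, hNx x x.2]⟩
  have hf : Function.Injective f := by
    intro x y hxy
    have hz : (x : A) - y ∈ Part A P := sub_mem x.2 y.2
    have h3 : ∀ q ∈ S, M q • ((x : A) - y) = 0 := by
      intro q hq
      have h4 := congrArg Subtype.val (congrFun hxy ⟨q, hq⟩)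
      change M q • (x : A) = M q • (y : A) at h4
      rw [smul_sub, h4, sub_self]
    apply Subtype.ext
    rw [← sub_eq_zero, ← AddMonoid.addOrderOf_eq_one_iff]
    by_contra hne
    obtain ⟨q, hq, hqd⟩ := Nat.exists_prime_and_dvd hne
    have hqS := (hord _ hz).2 q hq hqd
    exact hM2 q hqS (hqd.trans (addOrderOf_dvd_iff_nsmul_eq_zero.mpr (h3 q hqS)))
  haveI : Finite (Part A P) := Finite.of_injective f hf
  exact Set.toFinite _

end

section main

variable {G : Type} [Group G] [Finite G] {A : Type} [AddCommGroup A]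
  (act : G →* AddMonoid.End A) (P : Set ℕ)

/-- The norm element of a subgroup. -/
noncomputable def nu (H : Subgroup G) : AddMonoid.End A := ∑ᶠ h : H, act (h : G)

omit [Finite G] in
lemma nu_eq (H : Subgroup G) [Fintype H] : nu act H = ∑ h : H, act (h : G) :=
  finsum_eq_sum_of_fintype _

omit [Finite G] in
lemma nu_apply (H : Subgroup G) [Fintype H] (x : A) : nu act H x = ∑ h : H, act (h : G) x := by
  rw [nu_eq]
  exact AddMonoidHom.finsetSum_apply _ _ _

variable (B : Subgroup G → Type) [∀ H, AddCommGroup (B H)]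

/-- An irreducible p-adic representation controlling the coranks. -/
def GoodP (p : ℕ) [Fact p.Prime] : Prop :=
  ∃ (W : Type) (_ : AddCommGroup W) (_ : Module ℚ_[p] W) (σ : Representation ℚ_[p] G W),
    σ.IsIrreducible ∧ FiniteDimensional ℚ_[p] W ∧
    (∀ n : ℕ, n ≠ 0 → p ^ Module.finrank ℚ_[p] W ≤ {x : A | p • x = 0 ∧ ∃ y, n • y = x}.ncard) ∧
    (∀ H : Subgroup G, ∀ n : ℕ, n ≠ 0 →
      p ^ fd σ H ≤ {x : B H | p • x = 0 ∧ ∃ y, n • y = x}.ncard) ∧
    ∀ n d : ℕ, n ≠ 0 → {x : A | p • x = 0 ∧ ∃ y, n • y = x}.ncard ≤ p ^ d →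
      σ.ker.index ≤ (p ^ ex p) ^ (d ^ 2)

/-- The `p`-torsion of a divisible primary subgroup is contained in that of every multiple. -/
lemma ncard_le_of_div {A : Type} [AddCommGroup A] {p : ℕ} (hp : p.Prime)
    (hfin : {x : A | p • x = 0}.Finite) (D : AddSubgroup A)
    (hprim : ∀ x ∈ D, ∃ k : ℕ, p ^ k • x = 0) (hdiv : ∀ x ∈ D, ∃ y ∈ D, p • y = x) {c : ℕ}
    (hc : {y : D | p • y = 0}.ncard = p ^ c) {n : ℕ} (hn : n ≠ 0) :
    p ^ c ≤ {x : A | p • x = 0 ∧ ∃ y, n • y = x}.ncard := by
  rw [← hc, ← Set.ncard_image_of_injective _ (Subtype.val_injective : Function.Injective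
    (Subtype.val : D → A))]
  apply Set.ncard_le_ncard
  · rintro _ ⟨y, hy, rfl⟩
    refine ⟨congrArg Subtype.val hy, ?_⟩
    obtain ⟨z, _, hz⟩ := exists_div_all hp hn D hprim hdiv y.2
    exact ⟨z, hz⟩
  · exact hfin.subset fun x hx => hx.1

/-- The case of an infinite primary part. -/
theorem good_padic (f : ∀ H, A →+ B H) (g : ∀ H, B H →+ A) (hfg : ∀ H x, g H (f H x) = nu act H x)
    (p : ℕ) [hp : Fact p.Prime] (hfin : {x : A | p • x = 0}.Finite)
    (hfinB : ∀ H, {x : B H | p • x = 0}.Finite)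
    (hinf : (prim A p : Set A).Infinite) : GoodP (A := A) B p := by
  obtain ⟨k₀, hk₀⟩ := exists_div p hfin
  let D : AddSubgroup A := (prim A p).map (nsmulAddMonoidHom (p ^ k₀))
  have hD : ∀ x, x ∈ D ↔ ∃ y ∈ prim A p, p ^ k₀ • y = x := fun x => Iff.rfl
  have hDprim : D ≤ prim A p := by
    rintro _ ⟨y, hy, rfl⟩
    exact (prim A p).nsmul_mem hy _
  have hDdiv : ∀ x ∈ D, ∃ y ∈ D, p • y = x := by
    intro x hx
    obtain ⟨y, hy, rfl⟩ := (hD x).mp hx
    obtain ⟨z, hz, hzy⟩ := hk₀ y hy
    exact ⟨p ^ k₀ • z, (hD _).mpr ⟨z, hz, rfl⟩, hzy⟩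
  have hprimE : ∀ (e : A →+ A) (x : A), x ∈ prim A p → e x ∈ prim A p := by
    rintro e x ⟨k, hk⟩
    exact ⟨k, by rw [← map_nsmul, hk, map_zero]⟩
  have hDE : ∀ (e : A →+ A) (x : A), x ∈ D → e x ∈ D := by
    intro e x hx
    obtain ⟨y, hy, rfl⟩ := (hD x).mp hx
    exact (hD _).mpr ⟨e y, hprimE e y hy, by rw [map_nsmul]⟩
  -- restriction of endomorphisms
  let r : AddMonoid.End A →+* AddMonoid.End D :=
    { toFun := fun e => ((e : A →+ A).comp D.subtype).codRestrict D (fun x => hDE e x x.2)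
      map_one' := by ext x; rfl
      map_mul' := fun e f => by ext x; rfl
      map_zero' := by ext x; rfl
      map_add' := fun e f => by ext x; rfl }
  have hr : ∀ (e : AddMonoid.End A) (x : D), (r e x : A) = e x := fun _ _ => rfl
  have hprim' : ∀ x : D, ∃ k : ℕ, p ^ k • x = 0 := by
    intro x
    obtain ⟨k, hk⟩ := hDprim x.2
    exact ⟨k, Subtype.ext hk⟩
  have hdiv' : ∀ x : D, ∃ y : D, p • y = x := by
    intro x
    obtain ⟨y, hy, hyx⟩ := hDdiv x x.2
    exact ⟨⟨y, hy⟩, Subtype.ext hyx⟩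
  have hfin' : {x : D | p • x = 0}.Finite := by
    refine Set.Finite.subset (Set.Finite.preimage (f := (Subtype.val : D → A))
      (Subtype.val_injective.injOn) hfin) fun x hx => ?_
    exact congrArg Subtype.val hx
  obtain ⟨c, x, hc, hch⟩ := exists_chain p hdiv' hfin'
  letI : Module ℤ_[p] D := modZp p hprim'
  let μ : AddMonoid.End A →+* Matrix (Fin c) (Fin c) ℚ_[p] :=
    ((algebraMap ℤ_[p] ℚ_[p]).mapMatrix).comp ((matHom hch hprim').comp r)
  -- the group is not zero
  obtain ⟨x₀, hx₀, hx₀0⟩ : ∃ x₀ ∈ D, x₀ ≠ 0 := by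
    by_contra hcon
    push Not at hcon
    apply hinf
    refine (fin_tors p hfin k₀).subset fun y hy => ?_
    exact hcon _ ((hD _).mpr ⟨y, hy, rfl⟩)
  have hc0 : c ≠ 0 := by
    rintro rfl
    rw [pow_zero, Set.ncard_eq_one] at hc
    obtain ⟨a, ha⟩ := hc
    have h0 : (0 : D) ∈ {y : D | p • y = 0} := smul_zero _
    -- every element killed by `p` is zero
    have h1 : ∀ y : D, p • y = 0 → y = 0 := by
      intro y hy
      have h2 : y ∈ {y : D | p • y = 0} := hy
      rw [ha, Set.mem_singleton_iff] at h0 h2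
      rw [h2, h0]
    have h3 : ∀ (k : ℕ) (y : D), p ^ k • y = 0 → y = 0 := by
      intro k
      induction k with
      | zero => intro y hy; rwa [pow_zero, one_smul] at hy
      | succ k ih =>
        intro y hy
        rw [pow_succ, mul_smul] at hy
        exact h1 y (ih _ hy)
    obtain ⟨k, hk⟩ := hprim' ⟨x₀, hx₀⟩
    exact hx₀0 (congrArg Subtype.val (h3 k _ hk))
  have hcA : ∀ n : ℕ, n ≠ 0 → p ^ c ≤ {x : A | p • x = 0 ∧ ∃ y, n • y = x}.ncard :=
    fun n hn => ncard_le_of_div hp.out hfin D (fun x hx => hDprim hx) hDdiv hc hn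
  let MQ : G →* Matrix (Fin c) (Fin c) ℚ_[p] :=
    (μ : AddMonoid.End A →* Matrix (Fin c) (Fin c) ℚ_[p]).comp act
  obtain ⟨W, iW, mW, σ, hirr, hfd, hle, hker, hH⟩ := exists_rep (k := ℚ_[p]) hc0 MQ
  refine ⟨W, iW, mW, σ, hirr, hfd, ?_, ?_, ?_⟩
  · intro n hn
    exact (Nat.pow_le_pow_right hp.out.pos hle).trans (hcA n hn)
  · intro H n hn
    haveI : Fintype H := Fintype.ofFinite H
    -- the image of the divisible group
    let D' : AddSubgroup (B H) := D.map (f H)
    have hD'prim : ∀ y ∈ D', ∃ k : ℕ, p ^ k • y = 0 := by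
      rintro _ ⟨y, hy, rfl⟩
      obtain ⟨k, hk⟩ := hDprim hy
      exact ⟨k, by rw [← map_nsmul, hk, map_zero]⟩
    have hD'div : ∀ y ∈ D', ∃ z ∈ D', p • z = y := by
      rintro _ ⟨y, hy, rfl⟩
      obtain ⟨z, hz, hzy⟩ := hDdiv y hy
      exact ⟨f H z, ⟨z, hz, rfl⟩, by rw [← map_nsmul, hzy]⟩
    have hprim'' : ∀ x : D', ∃ k : ℕ, p ^ k • x = 0 := by
      intro x
      obtain ⟨k, hk⟩ := hD'prim x x.2
      exact ⟨k, Subtype.ext hk⟩
    have hdiv'' : ∀ x : D', ∃ y : D', p • y = x := by
      intro x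
      obtain ⟨y, hy, hyx⟩ := hD'div x x.2
      exact ⟨⟨y, hy⟩, Subtype.ext hyx⟩
    have hfin'' : {x : D' | p • x = 0}.Finite := by
      refine Set.Finite.subset (Set.Finite.preimage (f := (Subtype.val : D' → B H))
        (Subtype.val_injective.injOn) (hfinB H)) fun x hx => ?_
      exact congrArg Subtype.val hx
    obtain ⟨c', x', hc', hch'⟩ := exists_chain p hdiv'' hfin''
    letI : Module ℤ_[p] D' := modZp p hprim''
    let f' : D →+ D' := ((f H).comp D.subtype).codRestrict D' (fun x => ⟨x, x.2, rfl⟩)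
    let g' : D' →+ D := ((g H).comp D'.subtype).codRestrict D (fun y => by
      obtain ⟨y, z, hz, hzy⟩ := y
      change g H y ∈ D
      rw [← hzy, hfg]
      exact hDE (nu act H) z hz)
    have hgf : g'.comp f' = r (nu act H) := by
      ext z
      exact hfg H z
    have h1 : (∑ h : H, MQ (h : G)).rank ≤ c' := by
      have h2 : ∑ h : H, MQ (h : G) = μ (nu act H) := by
        rw [nu_eq, map_sum]
        rfl
      rw [h2]
      have h3 := rank_le_of_factor hch hch' hprim' hprim'' f' g'
      rw [hgf] at h3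
      exact h3
    have h4 : fd σ H ≤ c' := (hH H).trans ((fd_le_rank MQ H).trans h1)
    exact (Nat.pow_le_pow_right hp.out.pos h4).trans
      (ncard_le_of_div hp.out (hfinB H) D' hD'prim hD'div hc' hn)
  · intro n d hn h1
    have hcd : c ≤ d := (Nat.pow_le_pow_iff_right hp.out.one_lt).mp ((hcA n hn).trans h1)
    let M : G →* Matrix (Fin c) (Fin c) ℤ_[p] :=
      ((((matHom hch hprim').comp r : AddMonoid.End A →+* Matrix (Fin c) (Fin c) ℤ_[p]) :
        AddMonoid.End A →* Matrix (Fin c) (Fin c) ℤ_[p])).comp act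
    have hMk : M.ker ≤ σ.ker := by
      intro g hg
      rw [MonoidHom.mem_ker] at hg ⊢
      apply hker
      change ((algebraMap ℤ_[p] ℚ_[p]).mapMatrix) (M g) = 1
      rw [hg, map_one]
    haveI : M.ker.FiniteIndex := inferInstance
    calc σ.ker.index ≤ M.ker.index :=
          Nat.le_of_dvd (Nat.pos_of_ne_zero Subgroup.FiniteIndex.index_ne_zero)
            (Subgroup.index_dvd_of_le hMk)
      _ ≤ (p ^ ex p) ^ (c ^ 2) := index_ker_le M
      _ ≤ (p ^ ex p) ^ (d ^ 2) := Nat.pow_le_pow_right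
          (pow_pos hp.out.pos _) (Nat.pow_le_pow_left hcd 2)

end main

end Pool.Agent.H11.DP

end S_H11_Absr

section S_H11_Absr2

set_option autoImplicit false
set_option linter.style.haveILetI false
open scoped Classical

namespace Pool.Agent.H11.DP

section one

variable {G : Type} [Group G] {A : Type} [AddCommGroup A]
  (act : G →* AddMonoid.End A)

/-- Matrices over the prime field from a finite stable subgroup killed by `p`. -/
lemma exists_matrix_of_stable (p : ℕ) [hp : Fact p.Prime] (hfin : {x : A | p • x = 0}.Finite)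
    (T : AddSubgroup A) [Finite T] (hpT : ∀ x ∈ T, p • x = 0)
    [Module (ZMod p) T] (hT : ∀ g, ∀ x ∈ T, act g x ∈ T) :
    ∃ (c : ℕ) (M : G →* Matrix (Fin c) (Fin c) (ZMod p)), Nat.card T = p ^ c ∧
      ∀ H : Subgroup G,
        p ^ fd (repOf M) H ≤ {x : A | p • x = 0 ∧ ∀ h ∈ H, act h x = x}.ncard := by
  haveI : Module.Finite (ZMod p) T := Module.Finite.of_finite
  let b : Module.Basis (Fin (Module.finrank (ZMod p) T)) (ZMod p) T := Module.finBasis (ZMod p) T
  let r : G →* Module.End (ZMod p) T :=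
    { toFun := fun g => AddMonoidHom.toZModLinearMap p
        (((act g : A →+ A).comp T.subtype).codRestrict T (fun x => hT g x x.2))
      map_one' := by
        ext x
        change act 1 (x : A) = x
        rw [map_one]
        rfl
      map_mul' := fun g h => by
        ext x
        change act (g * h) (x : A) = act g (act h x)
        rw [map_mul]
        rfl }
  have hr : ∀ g (x : T), (r g x : A) = act g x := fun _ _ => rfl
  let M : G →* Matrix (Fin (Module.finrank (ZMod p) T)) (Fin (Module.finrank (ZMod p) T)) (ZMod p) :=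
    (LinearMap.toMatrixAlgEquiv b : Module.End (ZMod p) T →* _).comp r
  refine ⟨Module.finrank (ZMod p) T, M, ?_, ?_⟩
  · have h1 : Nat.card T = Nat.card (ZMod p) ^ Module.finrank (ZMod p) T :=
      Module.natCard_eq_pow_finrank (K := ZMod p) (V := T)
    rwa [Nat.card_zmod] at h1
  · intro H
    let I := Representation.invariants (k := ZMod p) (G := H) (V := Fin (Module.finrank (ZMod p) T)
      → ZMod p) ((repOf M).comp H.subtype)
    have hI : Nat.card I = p ^ fd (repOf M) H := by
      have h1 : Nat.card I = Nat.card (ZMod p) ^ Module.finrank (ZMod p) I :=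
        Module.natCard_eq_pow_finrank (K := ZMod p) (V := I)
      rwa [Nat.card_zmod] at h1
    rw [← hI]
    -- the embedding into the fixed points
    have hfix : ∀ v : I, ∀ h ∈ H, r h (b.equivFun.symm v) = b.equivFun.symm v := by
      rintro ⟨v, hv⟩ h hh
      have h1 : (M h).mulVec v = v := hv ⟨h, hh⟩
      have h2 : b.equivFun (r h (b.equivFun.symm v)) = (M h).mulVec v := by
        have h3 := LinearMap.toMatrix_mulVec_repr b b (r h) (b.equivFun.symm v)
        have h4 : (b.repr (b.equivFun.symm v) : Fin _ → ZMod p) = v :=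
          b.equivFun.apply_symm_apply v
        have h5 : b.equivFun (r h (b.equivFun.symm v)) = b.repr (r h (b.equivFun.symm v)) := rfl
        rw [h5, ← h3, h4]
        rfl
      apply b.equivFun.injective
      rw [h2, h1]
      exact (b.equivFun.apply_symm_apply v).symm
    let F : I → {x : A | p • x = 0 ∧ ∀ h ∈ H, act h x = x} := fun v =>
      ⟨(b.equivFun.symm v : T), hpT _ (b.equivFun.symm v).2, fun h hh => by
        rw [← hr, hfix v h hh]⟩
    haveI : Finite {x : A | p • x = 0 ∧ ∀ h ∈ H, act h x = x} :=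
      (hfin.subset fun x hx => hx.1)
    have hF : Function.Injective F := by
      intro v w hvw
      have h1 := congrArg Subtype.val hvw
      exact Subtype.ext (b.equivFun.symm.injective (Subtype.ext h1))
    exact Nat.card_le_card_of_injective F hF

/-- One prime: a nonzero stable subgroup of the `p`-torsion of rank at most the order of `G`. -/
theorem exists_matrix [Finite G] (p : ℕ) [hp : Fact p.Prime] (hfin : {x : A | p • x = 0}.Finite)
    (hne : ∃ x : A, x ≠ 0 ∧ p • x = 0) :
    ∃ (c : ℕ) (M : G →* Matrix (Fin c) (Fin c) (ZMod p)), c ≠ 0 ∧ c ≤ Nat.card G ∧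
      p ^ c ≤ {x : A | p • x = 0}.ncard ∧
      ∀ H : Subgroup G,
        p ^ fd (repOf M) H ≤ {x : A | p • x = 0 ∧ ∀ h ∈ H, act h x = x}.ncard := by
  obtain ⟨x₀, hx₀, hpx⟩ := hne
  haveI : Fintype G := Fintype.ofFinite G
  let Ψ : (G → ℤ) →+ A :=
    { toFun := fun a => ∑ g, a g • act g x₀
      map_zero' := by simp
      map_add' := fun a b => by
        rw [← Finset.sum_add_distrib]
        exact Finset.sum_congr rfl fun g _ => add_smul _ _ _ }
  have hΨ : ∀ a, Ψ a = ∑ g, a g • act g x₀ := fun _ => rfl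
  let T : AddSubgroup A := Ψ.range
  have hpT : ∀ x ∈ T, p • x = 0 := by
    rintro _ ⟨a, rfl⟩
    rw [hΨ, Finset.smul_sum]
    refine Finset.sum_eq_zero fun g _ => ?_
    rw [smul_comm, ← map_nsmul, hpx, map_zero, smul_zero]
  have hx₀T : x₀ ∈ T := by
    refine ⟨Pi.single 1 1, ?_⟩
    rw [hΨ, Finset.sum_eq_single 1]
    · rw [Pi.single_eq_same, one_smul, map_one]; rfl
    · intro g _ hg
      rw [Pi.single_eq_of_ne hg, zero_smul]
    · intro h; exact absurd (Finset.mem_univ _) h
  have hTG : ∀ g, ∀ x ∈ T, act g x ∈ T := by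
    rintro g _ ⟨a, rfl⟩
    refine ⟨fun h => a (g⁻¹ * h), ?_⟩
    rw [hΨ, hΨ, map_sum]
    refine Fintype.sum_bijective (fun h => g⁻¹ * h) (Group.mulLeft_bijective g⁻¹) _ _ fun h => ?_
    rw [map_zsmul]
    congr 1
    have h1 : act g (act (g⁻¹ * h) x₀) = (act g * act (g⁻¹ * h)) x₀ := rfl
    rw [h1, ← map_mul, mul_inv_cancel_left]
  haveI : Finite T := by
    have : (T : Set A).Finite := hfin.subset fun x hx => hpT x hx
    exact this
  letI : Module (ZMod p) T := AddCommGroup.zmodModule (fun x => Subtype.ext (hpT x x.2))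
  obtain ⟨c, M, hc, hM⟩ := exists_matrix_of_stable act p hfin T hpT hTG
  refine ⟨c, M, ?_, ?_, ?_, hM⟩
  · rintro rfl
    rw [pow_zero, Nat.card_eq_one_iff_unique] at hc
    haveI := hc.1
    exact hx₀ (congrArg Subtype.val (Subsingleton.elim (⟨x₀, hx₀T⟩ : T) 0))
  · -- the bound by the order of the group
    let f : (G → Fin p) → T := fun a => ⟨Ψ (fun g => ((a g : ℕ) : ℤ)), _, rfl⟩
    have hf : Function.Surjective f := by
      rintro ⟨_, a, rfl⟩
      have hlt : ∀ g, ((a g) % p).toNat < p := by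
        intro g
        have h1 := Int.emod_lt_of_pos (a g) (by exact_mod_cast hp.out.pos : (0 : ℤ) < p)
        have h2 := Int.emod_nonneg (a g) (by exact_mod_cast hp.out.ne_zero : (p : ℤ) ≠ 0)
        omega
      refine ⟨fun g => ⟨((a g) % p).toNat, hlt g⟩, ?_⟩
      apply Subtype.ext
      change Ψ _ = Ψ a
      rw [hΨ, hΨ]
      refine Finset.sum_congr rfl fun g _ => ?_
      have h2 := Int.emod_nonneg (a g) (by exact_mod_cast hp.out.ne_zero : (p : ℤ) ≠ 0)
      change ((((a g) % p).toNat : ℕ) : ℤ) • act g x₀ = a g • act g x₀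
      rw [Int.toNat_of_nonneg h2]
      have h3 : a g = a g % p + p * (a g / p) := (Int.emod_add_mul_ediv (a g) p).symm
      conv_rhs => rw [h3]
      rw [add_smul, mul_comm, mul_smul, natCast_zsmul, ← map_nsmul, hpx, map_zero, smul_zero,
        add_zero]
    have h1 := Nat.card_le_card_of_surjective f hf
    rw [hc, Nat.card_fun, Nat.card_fin] at h1
    exact (Nat.pow_le_pow_iff_right hp.out.one_lt).mp h1
  · rw [← hc]
    change (T : Set A).ncard ≤ _
    exact Set.ncard_le_ncard (fun x hx => hpT x hx) hfin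

end one

section many

variable {G : Type} [Group G] [Finite G] {A : Type} [AddCommGroup A]
  (act : G →* AddMonoid.End A) (P : Set ℕ) (B : Subgroup G → Type) [∀ H, AddCommGroup (B H)]

/-- An irreducible complex representation controlling the ranks of the `p`-torsion for infinitely
many `p`. -/
def GoodC : Prop :=
  ∃ (W : Type) (_ : AddCommGroup W) (_ : Module ℂ W) (σ : Representation ℂ G W),
    σ.IsIrreducible ∧ FiniteDimensional ℂ W ∧
    ∃ Q ⊆ P, Q.Infinite ∧ ∀ p ∈ Q, p ^ Module.finrank ℂ W ≤ {x : A | p • x = 0}.ncard ∧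
      ∀ H : Subgroup G, p ^ fd σ H ≤ {x : B H | p • x = 0}.ncard

/-- The case of infinitely many primes. -/
theorem good_complex (f : ∀ H, A →+ B H) (g : ∀ H, B H →+ A)
    (hfg : ∀ H x, g H (f H x) = nu act H x)
    (hP : ∀ p ∈ P, p.Prime) (hfin : ∀ p ∈ P, {x : A | p • x = 0}.Finite)
    (hfinB : ∀ p ∈ P, ∀ H, {x : B H | p • x = 0}.Finite)
    (hinf : {p ∈ P | ∃ x : A, x ≠ 0 ∧ p • x = 0}.Infinite) : GoodC (A := A) P B := by
  let S : Set ℕ := {p ∈ P | (∃ x : A, x ≠ 0 ∧ p • x = 0) ∧ ¬ p ∣ Nat.card G}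
  have hSinf : S.Infinite := by
    have h1 : {p ∈ P | p ∣ Nat.card G}.Finite := by
      refine (Nat.divisors (Nat.card G)).finite_toSet.subset fun q hq => ?_
      rw [Finset.mem_coe, Nat.mem_divisors]
      exact ⟨hq.2, Nat.card_pos.ne'⟩
    refine (hinf.sdiff h1).mono fun p hp => ⟨hp.1.1, hp.1.2, fun h => hp.2 ⟨hp.1.1, h⟩⟩
  haveI hF : ∀ p : S, Fact (p : ℕ).Prime := fun p => ⟨hP p p.2.1⟩
  have hex : ∀ p : S, ∃ c : ℕ, ∃ M : G →* Matrix (Fin c) (Fin c) (ZMod p), c ≠ 0 ∧
      c ≤ Nat.card G ∧ (p : ℕ) ^ c ≤ {x : A | (p : ℕ) • x = 0}.ncard ∧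
      ∀ H : Subgroup G, (p : ℕ) ^ fd (repOf M) H ≤
        {x : A | (p : ℕ) • x = 0 ∧ ∀ h ∈ H, act h x = x}.ncard := by
    intro p
    exact exists_matrix act p (hfin p p.2.1) p.2.2.1
  choose c M hc0 hcG hcard hM using hex
  have hfdle : ∀ (p : S) (H : Subgroup G), fd (repOf (M p)) H ≤ Nat.card G := by
    intro p H
    refine le_trans ?_ (hcG p)
    unfold fd
    calc _ ≤ Module.finrank (ZMod p) (Fin (c p) → ZMod p) := Submodule.finrank_le _
      _ = c p := by rw [Module.finrank_fin_fun]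
  -- a constant type
  haveI : Infinite S := hSinf.to_subtype
  let t : S → Fin (Nat.card G + 1) × (Subgroup G → Fin (Nat.card G + 1)) := fun p =>
    (⟨c p, Nat.lt_succ_of_le (hcG p)⟩, fun H => ⟨fd (repOf (M p)) H, Nat.lt_succ_of_le (hfdle p H)⟩)
  obtain ⟨⟨⟨m, hm⟩, dH⟩, hminf⟩ := Finite.exists_infinite_fiber t
  have hminf' : (t ⁻¹' {(⟨m, hm⟩, dH)}).Infinite := Set.infinite_coe_iff.mp hminf
  let S' : Set ℕ := Subtype.val '' (t ⁻¹' {(⟨m, hm⟩, dH)})
  have hS' : S'.Infinite := hminf'.image Subtype.val_injective.injOn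
  have hS'S : ∀ p ∈ S', ∃ h : p ∈ S, c ⟨p, h⟩ = m ∧ ∀ H, fd (repOf (M ⟨p, h⟩)) H = dH H := by
    rintro _ ⟨p, hp, rfl⟩
    have h1 : t p = (⟨m, hm⟩, dH) := hp
    exact ⟨p.2, congrArg (fun u => (u.1 : ℕ)) h1, fun H => congrArg (fun u => (u.2 H : ℕ)) h1⟩
  have hS'P : ∀ p ∈ S', p ∈ P := fun p hp => (hS'S p hp).1.1
  have hS'G : ∀ p ∈ S', ¬ p ∣ Nat.card G := fun p hp => (hS'S p hp).1.2.2
  haveI hF' : ∀ p : S', Fact (p : ℕ).Prime := fun p => ⟨hP p (hS'P p p.2)⟩
  -- matrices of constant size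
  have hex' : ∀ p : S', ∃ M' : G →* Matrix (Fin m) (Fin m) (ZMod p),
      (p : ℕ) ^ m ≤ {x : A | (p : ℕ) • x = 0}.ncard ∧
      ∀ H : Subgroup G, fd (repOf M') H = dH H ∧ (p : ℕ) ^ (dH H : ℕ) ≤
        {x : A | (p : ℕ) • x = 0 ∧ ∀ h ∈ H, act h x = x}.ncard := by
    rintro ⟨p, hp⟩
    obtain ⟨h, hcm, hd⟩ := hS'S p hp
    subst hcm
    exact ⟨M ⟨p, h⟩, hcard ⟨p, h⟩, fun H => ⟨hd H, by rw [← hd H]; exact hM ⟨p, h⟩ H⟩⟩
  choose M' hcard' hM' using hex'
  have hm0 : m ≠ 0 := by
    obtain ⟨p, hp⟩ := hS'.nonempty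
    obtain ⟨h, hcm, -⟩ := hS'S p hp
    rw [← hcm]
    exact hc0 _
  obtain ⟨φ, -⟩ := exists_prodHom S' (fun p hp => hP p (hS'P p hp)) hS'
  let MR : G →* Matrix (Fin m) (Fin m) (∀ p : S', ZMod p) :=
    { toFun := fun g => Matrix.of fun i j p => M' p g i j
      map_one' := by
        ext i j p
        change M' p 1 i j = (1 : Matrix (Fin m) (Fin m) (∀ p : S', ZMod p)) i j p
        rw [map_one]
        by_cases hij : i = j
        · rw [hij, Matrix.one_apply_eq, Matrix.one_apply_eq]; rfl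
        · rw [Matrix.one_apply_ne hij, Matrix.one_apply_ne hij]; rfl
      map_mul' := fun g h => by
        ext i j p
        change M' p (g * h) i j = _
        rw [map_mul, Matrix.mul_apply, Matrix.mul_apply, Finset.sum_apply]
        rfl }
  have hMR : ∀ g i j p, MR g i j p = M' p g i j := fun _ _ _ _ => rfl
  let MC : G →* Matrix (Fin m) (Fin m) ℂ :=
    (φ.mapMatrix : _ →+* Matrix (Fin m) (Fin m) ℂ).toMonoidHom.comp MR
  have hMC : ∀ g, MC g = (MR g).map φ := fun _ => rfl
  obtain ⟨W, iW, mW, σ, hirr, hfd, hle, -, hH⟩ := exists_rep (k := ℂ) hm0 MC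
  -- the dimensions of the fixed spaces
  have hdim : ∀ H : Subgroup G, fd (repOf MC) H = dH H := by
    intro H
    haveI : Fintype H := Fintype.ofFinite H
    have h1 := card_mul_fd MC H (Nat.cast_ne_zero.mpr Fintype.card_ne_zero)
    have h2 : ∑ h : H, (MR (h : G)).trace =
        ((Fintype.card H * (dH H : ℕ) : ℕ) : ∀ p : S', ZMod p) := by
      funext p
      have h3 : ((Fintype.card H : ℕ) : ZMod p) ≠ 0 := by
        rw [Ne, ZMod.natCast_eq_zero_iff]
        intro h4
        apply hS'G p p.2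
        refine h4.trans ?_
        rw [← Nat.card_eq_fintype_card]
        exact Subgroup.card_subgroup_dvd_card H
      have h4 := card_mul_fd (M' p) H h3
      rw [(hM' p H).1] at h4
      rw [Finset.sum_apply]
      have h5 : (((Fintype.card H * (dH H : ℕ) : ℕ) : ∀ p : S', ZMod p)) p =
          ((Fintype.card H * (dH H : ℕ) : ℕ) : ZMod p) := rfl
      rw [h5, Nat.cast_mul, h4]
      refine Finset.sum_congr rfl fun h _ => ?_
      unfold Matrix.trace
      rw [Finset.sum_apply]
      rfl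
    have h3 : ∑ h : H, (MC (h : G)).trace = φ (∑ h : H, (MR (h : G)).trace) := by
      rw [map_sum]
      refine Finset.sum_congr rfl fun h _ => ?_
      rw [hMC]
      unfold Matrix.trace
      rw [map_sum]
      rfl
    rw [h3, h2, map_natCast, Nat.cast_mul] at h1
    have h4 : (Fintype.card H : ℂ) ≠ 0 := Nat.cast_ne_zero.mpr Fintype.card_ne_zero
    exact_mod_cast mul_left_cancel₀ h4 h1
  refine ⟨W, iW, mW, σ, hirr, hfd, S', hS'P, hS', fun p hp => ⟨?_, fun H => ?_⟩⟩
  · exact (Nat.pow_le_pow_right (hP p (hS'P p hp)).pos hle).trans (hcard' ⟨p, hp⟩)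
  · have hpp := hP p (hS'P p hp)
    haveI : Fintype H := Fintype.ofFinite H
    have h1 : fd σ H ≤ (dH H : ℕ) := by rw [← hdim]; exact hH H
    refine (Nat.pow_le_pow_right hpp.pos h1).trans (((hM' ⟨p, hp⟩ H).2).trans ?_)
    refine Set.ncard_le_ncard_of_injOn (f H) ?_ ?_ (hfinB p (hS'P p hp) H)
    · intro x hx
      change p • f H x = 0
      rw [← map_nsmul, hx.1, map_zero]
    · intro x hx y hy hxy
      have h2 : ∀ z : A, (∀ h ∈ H, act h z = z) → g H (f H z) = Fintype.card H • z := by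
        intro z hz
        rw [hfg, nu_apply, Finset.sum_congr rfl fun (h : H) _ => hz h h.2, Finset.sum_const,
          Finset.card_univ]
      have h3 : Fintype.card H • (x - y) = 0 := by
        rw [smul_sub, ← h2 x hx.2, ← h2 y hy.2, hxy, sub_self]
      have h4 : p • (x - y) = 0 := by rw [smul_sub, hx.1, hy.1, sub_self]
      have h5 : Nat.Coprime (Fintype.card H) p := by
        refine ((Nat.Prime.coprime_iff_not_dvd hpp).mpr fun h => ?_).symm
        apply hS'G p hp
        refine h.trans ?_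
        rw [← Nat.card_eq_fintype_card]
        exact Subgroup.card_subgroup_dvd_card H
      have h6 := Nat.dvd_gcd (addOrderOf_dvd_iff_nsmul_eq_zero.mpr h3)
        (addOrderOf_dvd_iff_nsmul_eq_zero.mpr h4)
      rw [h5, Nat.dvd_one, AddMonoid.addOrderOf_eq_one_iff, sub_eq_zero] at h6
      exact h6

/-- The main theorem on torsion groups with a finite group of automorphisms. -/
theorem main (f : ∀ H, A →+ B H) (g : ∀ H, B H →+ A)
    (hfg : ∀ H x, g H (f H x) = nu act H x)
    (hP : ∀ p ∈ P, p.Prime) (hfin : ∀ p ∈ P, {x : A | p • x = 0}.Finite)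
    (hfinB : ∀ p ∈ P, ∀ H, {x : B H | p • x = 0}.Finite)
    (hinf : (Part A P : Set A).Infinite) :
    (∃ p ∈ P, ∃ _ : Fact p.Prime, GoodP (A := A) B p) ∨ GoodC (A := A) P B := by
  by_cases h : ∃ p ∈ P, (prim A p : Set A).Infinite
  · left
    obtain ⟨p, hp, hpinf⟩ := h
    haveI : Fact p.Prime := ⟨hP p hp⟩
    exact ⟨p, hp, inferInstance, good_padic act B f g hfg p (hfin p hp) (hfinB p hp) hpinf⟩
  · right
    push Not at h
    have h1 : {p ∈ P | ∃ x : A, x ≠ 0 ∧ p • x = 0}.Infinite := by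
      intro hf
      exact hinf (part_finite hP h hf)
    exact good_complex act P B f g hfg hP hfin hfinB h1

end many

end Pool.Agent.H11.DP

end S_H11_Absr2

section S_H11_Desc

set_option autoImplicit false
set_option linter.style.haveILetI false
open scoped Classical

open WeierstrassCurve IsDedekindDomain NumberField

namespace Pool.Agent.H11

open Pool.Agent.H10

/-- Finiteness of the torsion of the Tate-Shafarevich group, in terms of the group. -/
theorem sha_finite_torsion {K : Type} [Field K] [NumberField K] (V : WeierstrassCurve K)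
    [V.IsElliptic] (n : ℕ) (hn : n ≠ 0) : {x : Sha K V | n • x = 0}.Finite := by
  obtain ⟨S, hS, hSsha, hSall⟩ := sha_torsion_finite V n hn
  let e : (Gam K → Pts V) → Sha K V := fun g =>
    if h : IsCocycle K V g ∧ IsLocTriv K V g then Sha.mk ⟨g, h⟩ else 0
  refine (hS.image e).subset fun x hx => ?_
  obtain ⟨f, rfl⟩ := Sha.mk_surjective x
  change n • Sha.mk f = 0 at hx
  rw [← Sha.mk_nsmul, Sha.mk_eq_zero] at hx
  obtain ⟨g, hg, Q, hQ⟩ := hSall f.1 f.2 hx
  refine ⟨g, hg, ?_⟩
  have hg' : IsCocycle K V g ∧ IsLocTriv K V g := hSsha g hg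
  change (if h : IsCocycle K V g ∧ IsLocTriv K V g then Sha.mk ⟨g, h⟩ else 0) = _
  rw [dif_pos hg', eq_comm, ← sub_eq_zero]
  have h1 : Sha.mk f - Sha.mk ⟨g, hg'⟩ = Sha.mk (f - ⟨g, hg'⟩) := rfl
  rw [h1, Sha.mk_eq_zero]
  refine ⟨Q, fun σ => ?_⟩
  change f.1 σ - g σ = _
  rw [hQ]
  change g σ + cob V Q σ - g σ = cob V Q σ
  abel

section tower

variable {K L : Type} [Field K] [NumberField K] [Field L] [NumberField L] [Algebra K L]
  [IsGalois K L] (V : WeierstrassCurve K)

/-- The base change of the curve to an intermediate field. -/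
noncomputable abbrev bcF (F : IntermediateField K L) : WeierstrassCurve F :=
  V.map (algebraMap K F)

omit [NumberField K] [NumberField L] [IsGalois K L] in
lemma bcF_map (F : IntermediateField K L) :
    (bcF V F).map (algebraMap F L) = V.map (algebraMap K L) := by
  rw [WeierstrassCurve.map_map, ← IsScalarTower.algebraMap_eq]

/-- The action over an intermediate field is the restriction of the action over the base. -/
lemma actS_tower (F : IntermediateField K L) (σ : L ≃ₐ[F] L)
    (x : Sha L (V.map (algebraMap K L))) :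
    actS (bcF_map V F) σ x = actS (V := V) rfl (σ.restrictScalars K) x := by
  unfold actS
  have h1 : conjS (bcF_map V F) (lf σ) x = conjS (V := V) rfl ((lf σ).restrictScalars K) x := by
    obtain ⟨f, rfl⟩ := Sha.mk_surjective x
    rfl
  rw [h1]
  apply conjS_congr
  intro y
  rw [lf_apply]
  change lf σ (algebraMap L (AlgebraicClosure L) y) = _
  rw [lf_apply]
  rfl

/-- The norm element of a subgroup factors over the fixed field. -/
theorem nu_eq_res_cor (H : Subgroup (L ≃ₐ[K] L)) (x : Sha L (V.map (algebraMap K L))) :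
    DP.nu (actH (V := V) rfl) H x =
      Sha.res (bcF_map V (IntermediateField.fixedField H))
        (Sha.cor (bcF_map V (IntermediateField.fixedField H)) x) := by
  haveI : Fintype H := Fintype.ofFinite H
  rw [DP.nu_apply, res_cor]
  symm
  have hmem : ∀ σ : L ≃ₐ[IntermediateField.fixedField H] L, σ.restrictScalars K ∈ H := by
    intro σ
    have h1 : σ.restrictScalars K ∈ (IntermediateField.fixedField H).fixingSubgroup := by
      rw [IntermediateField.mem_fixingSubgroup_iff]
      intro y hy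
      exact σ.commutes ⟨y, hy⟩
    rwa [IntermediateField.fixingSubgroup_fixedField] at h1
  refine Fintype.sum_bijective (fun σ : L ≃ₐ[IntermediateField.fixedField H] L =>
    (⟨σ.restrictScalars K, hmem σ⟩ : H)) ⟨?_, ?_⟩ _ _ fun σ => ?_
  · intro σ τ h
    have h1 := congrArg (fun t : H => (t : L ≃ₐ[K] L)) h
    ext y
    exact congrArg (fun t : L ≃ₐ[K] L => t y) h1
  · rintro ⟨h, hh⟩
    refine ⟨{ h with commutes' := fun y => ?_ }, ?_⟩
    · have h1 := y.2
      rw [IntermediateField.mem_fixedField_iff] at h1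
      exact h1 h hh
    · apply Subtype.ext
      ext y
      rfl
  · exact actS_tower V _ σ x

/-- The `p`-primary part over the fixed field is infinite if the norm element has an infinite
image. -/
theorem infinite_of_nu (p : ℕ) (H : Subgroup (L ≃ₐ[K] L))
    (h : {x | ∃ a ∈ DP.prim (Sha L (V.map (algebraMap K L))) p,
      DP.nu (actH (V := V) rfl) H a = x}.Infinite) :
    {x : Sha (IntermediateField.fixedField H) (bcF V (IntermediateField.fixedField H)) |
      ∃ k : ℕ, p ^ k • x = 0}.Infinite := by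
  intro hfin
  apply h
  refine (hfin.image (Sha.res (bcF_map V (IntermediateField.fixedField H)))).subset ?_
  rintro _ ⟨a, ⟨k, hka⟩, rfl⟩
  rw [nu_eq_res_cor]
  exact ⟨_, ⟨k, by rw [← map_nsmul, hka, map_zero]⟩, rfl⟩

/-- The `p`-torsion over the fixed field is nonzero if the norm element is nonzero on the
`p`-torsion. -/
theorem ne_zero_of_nu (p : ℕ) (H : Subgroup (L ≃ₐ[K] L))
    (h : ∃ x : Sha L (V.map (algebraMap K L)), p • x = 0 ∧ DP.nu (actH (V := V) rfl) H x ≠ 0) :
    ∃ x : Sha (IntermediateField.fixedField H) (bcF V (IntermediateField.fixedField H)),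
      x ≠ 0 ∧ p • x = 0 := by
  obtain ⟨x, hpx, hx⟩ := h
  rw [nu_eq_res_cor] at hx
  refine ⟨Sha.cor (bcF_map V (IntermediateField.fixedField H)) x, fun h0 => hx ?_, ?_⟩
  · rw [h0, map_zero]
  · rw [← map_nsmul, hpx, map_zero]

lemma finrank_fixedField (H : Subgroup (L ≃ₐ[K] L)) :
    Module.finrank K (IntermediateField.fixedField H) = H.index := by
  rw [IntermediateField.finrank_eq_fixingSubgroup_index, IntermediateField.fixingSubgroup_fixedField]

end tower

end Pool.Agent.H11

end S_H11_Desc
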