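import Mathlib
import Pool.Agent.H10.Cong
import Pool.Agent.H38.T1.Tw
import Pool.Agent.H76.MP.M10

/-! This file joins several modules to save build time (M11). -/

set_option autoImplicit false

section S_H14_T1_Md

set_option autoImplicit false

namespace H14T1

/-- Sets of positive integers closed under multiplication modulo squares. -/
structure Mul2 (D : Set ℕ) : Prop where
  one : 1 ∈ D
  ne : ∀ d ∈ D, d ≠ 0
  mul : ∀ d ∈ D, ∀ d' ∈ D, ∃ d'' ∈ D, ∃ s : ℕ, s ≠ 0 ∧ d * d' = d'' * s ^ 2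

/-- The field generated by the square roots of the elements of `D`. -/
noncomputable def Mf (D : Set ℕ) : IntermediateField ℚ (AlgebraicClosure ℚ) :=
  IntermediateField.adjoin ℚ {x | ∃ d ∈ D, x ^ 2 = (d : AlgebraicClosure ℚ)}

/-- The curve `y^2 = x (x^2 + A x + B)`. -/
def cv (k : Type*) [Field k] (A B : ℤ) : WeierstrassCurve k := ⟨0, (A : k), 0, (B : k), 0⟩

lemma cv_map {k l : Type*} [Field k] [Field l] (f : k →+* l) (A B : ℤ) :
    (cv k A B).map f = cv l A B := by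
  ext <;> simp [cv]

end H14T1

end S_H14_T1_Md

section S_H93_MQ_Defs

set_option autoImplicit false

open NumberField IsDedekindDomain WeierstrassCurve Pool.Agent.H10

namespace Pool.Agent.H93.MQ

/-- Square classes of nonzero rationals: coordinate `0` is the sign, coordinate `p` (prime) the
parity of the valuation at `p`. -/
abbrev V : Type := ℕ →₀ ZMod 2

/-- The square class of a nonzero integer. -/
noncomputable def cl (n : ℤ) : V :=
  n.natAbs.factorization.mapRange (fun k : ℕ => (k : ZMod 2)) (by simp) +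
    Finsupp.single 0 (if n < 0 then 1 else 0)

/-- The generator with index `i`: `-1` for `i = 0` and `i` otherwise. -/
def gen (i : ℕ) : ℤ := if i = 0 then -1 else (i : ℤ)

open Classical in
/-- Residue character of the prime `q` on the generators (the generator `q` itself is ignored). -/
noncomputable def chi (q i : ℕ) : ZMod 2 :=
  if i = q ∨ IsSquare ((gen i : ℤ) : ZMod q) then 0 else 1

/-- Evaluation of a character given by its values on the generators. -/
noncomputable def ev (χ : ℕ → ZMod 2) : V →ₗ[ZMod 2] ZMod 2 :=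
  Finsupp.linearCombination (ZMod 2) χ

/-- Evaluation on pairs. -/
noncomputable def ev2 (χ : ℕ → ZMod 2) : V × V →ₗ[ZMod 2] ZMod 2 × ZMod 2 :=
  (ev χ).prodMap (ev χ)

lemma ev2_apply (χ : ℕ → ZMod 2) (z : V × V) : ev2 χ z = (ev χ z.1, ev χ z.2) := rfl

/-- The coordinates at `i` of a pair. -/
noncomputable def at_ (i : ℕ) : V × V →ₗ[ZMod 2] ZMod 2 × ZMod 2 :=
  (Finsupp.lapply i).prodMap (Finsupp.lapply i)

lemma at_apply (i : ℕ) (z : V × V) : at_ i z = (z.1 i, z.2 i) := rfl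

/-- Solubility over `k` of the two-covering of `y^2 = x (x - A) (x - B)` attached to the triple
`(m, n, m n)`. -/
def Sol (k : Type*) [Field k] (A B m n : ℤ) : Prop :=
  CPt (0 : k) (A : k) (B : k) (m : k) (n : k) ((m * n : ℤ) : k)

/-- The pair `z` is the class of a triple which is soluble over `k`. -/
def SolC (k : Type*) [Field k] (A B : ℤ) (z : V × V) : Prop :=
  ∃ m n : ℤ, m ≠ 0 ∧ n ≠ 0 ∧ z = (cl m, cl n) ∧ Sol k A B m n

/-- The pair `z` has support in `S` (and the sign). -/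
def Supp (S : Finset ℕ) (z : V × V) : Prop :=
  ∀ i : ℕ, i ≠ 0 → i ∉ S → at_ i z = 0

/-- The pairs with support in `S` which are soluble at the primes of `S` and over the reals. -/
def SelSet (S : Finset ℕ) (A B : ℤ) : Set (V × V) :=
  {z | Supp S z ∧ (∀ (p : ℕ) [Fact p.Prime], p ∈ S → SolC ℚ_[p] A B z) ∧ SolC ℝ A B z}

/-- The Selmer group, as a subspace. -/
noncomputable def Sel (S : Finset ℕ) (A B : ℤ) : Submodule (ZMod 2) (V × V) :=
  Submodule.span (ZMod 2) (SelSet S A B)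

/-- The classes of the two-torsion points. -/
noncomputable def tor (A B : ℤ) : ZMod 2 × ZMod 2 →ₗ[ZMod 2] V × V :=
  LinearMap.coprod
    (LinearMap.toSpanSingleton (ZMod 2) (V × V) (cl A, cl (A * (A - B))))
    (LinearMap.toSpanSingleton (ZMod 2) (V × V) (cl (A * B), cl (-A)))

lemma tor_apply (A B : ℤ) (u : ZMod 2 × ZMod 2) :
    tor A B u = (u.1 • cl A + u.2 • cl (A * B), u.1 • cl (A * (A - B)) + u.2 • cl (-A)) := by
  simp [tor, LinearMap.coprod_apply, LinearMap.toSpanSingleton_apply]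

/-- `A`, `B` and `A - B` are nonzero. -/
structure NZ (A B : ℤ) : Prop where
  hA : A ≠ 0
  hB : B ≠ 0
  hAB : A ≠ B

/-- `S` is a finite set of primes containing two and all primes dividing `A B (A - B)`. -/
structure Adm (S : Finset ℕ) (A B : ℤ) : Prop where
  prime : ∀ p ∈ S, p.Prime
  two : 2 ∈ S
  nz : NZ A B
  bad : ∀ p : ℕ, p.Prime → (p : ℤ) ∣ A * B * (A - B) → p ∈ S

/-- Genericity: some prime divides `A`, `B` and `A - B` to an odd power, and there is no rational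
cyclic subgroup of order four. -/
structure Gen (A B : ℤ) : Prop where
  nz : NZ A B
  prime : ∃ p : ℕ, p.Prime ∧ cl A p = 1 ∧ cl B p = 1 ∧ cl (A - B) p = 1
  h1 : cl (A * B) ≠ 0
  h2 : cl (A * (A - B)) ≠ 0
  h3 : cl (B * (B - A)) ≠ 0

/-- No point of order four on `y^2 = x (x - A) (x - B)`, in terms of square classes. -/
structure NoFour (A B : ℤ) : Prop where
  h1 : ¬ (cl (-A) = 0 ∧ cl (-B) = 0)
  h2 : ¬ (cl A = 0 ∧ cl (A - B) = 0)
  h3 : ¬ (cl B = 0 ∧ cl (B - A) = 0)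

/-- The modulus attached to `S`. -/
def modS (S : Finset ℕ) : ℕ := 8 * ∏ p ∈ S, p

/-- The character `χ` acts invertibly on the two-torsion, and if it is nontrivial on `-1` it
moreover has no fixed vector there. -/
structure GoodChi (A B : ℤ) (χ : ℕ → ZMod 2) : Prop where
  inj : ∀ u : ZMod 2 × ZMod 2, ev2 χ (tor A B u) = 0 → u = 0
  fix : χ 0 = 1 → ∀ u : ZMod 2 × ZMod 2, ev2 χ (tor A B u) = u → u = 0

/-- Sequences of primes in one residue class and with prescribed mutual residue symbols. -/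
structure GoodSeq (S : Finset ℕ) (χ : ℕ → ZMod 2) (q : ℕ → ℕ) : Prop where
  mono : StrictMono q
  prime : ∀ i, (q i).Prime
  notMem : ∀ i, q i ∉ S
  ne_two : ∀ i, q i ≠ 2
  cong : ∀ i j, q i ≡ q j [MOD modS S]
  cop : ∀ i, (q i).Coprime (modS S)
  chi : ∀ i j, j = 0 ∨ j ∈ S → chi (q i) j = χ j
  res : ∀ i j, i < j → Pool.Agent.H93.MQ.chi (q j) (q i) = 0

/-- The product of the members of the sequence with index in `J`. -/
def dd (q : ℕ → ℕ) (J : Finset ℕ) : ℤ := ∏ i ∈ J, (q i : ℤ)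

/-- The curve `y^2 = x (x - A) (x - B)`. -/
def cu (k : Type*) [Field k] (A B : ℤ) : WeierstrassCurve k :=
  ⟨0, -((A : k) + (B : k)), 0, (A : k) * (B : k), 0⟩

/-- The two-primary part of the Tate-Shafarevich group is bounded. -/
def Bdd (K : Type) [Field K] [NumberField K] (W : WeierstrassCurve K) : Prop :=
  ∃ N : ℕ, ∀ x : Sha K W, (∃ m : ℕ, 2 ^ m • x = 0) → 2 ^ N • x = 0

/-- All even twists have bounded two-primary part and finitely many points over `K`. -/
def GoodOver (q : ℕ → ℕ) (A B : ℤ) (K : Type) [Field K] [NumberField K] : Prop :=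
  ∀ J : Finset ℕ, Even J.card →
    Bdd K (cu K (A * dd q J) (B * dd q J)) ∧
      Finite (cu K (A * dd q J) (B * dd q J)).toAffine.Point

/-- The square roots. -/
noncomputable def rt (q : ℕ → ℕ) (i : ℕ) : ℝ := Real.sqrt ((q 0 * q (i + 1) : ℕ) : ℝ)

/-- The finite levels. -/
noncomputable def Kn (q : ℕ → ℕ) (n : ℕ) : IntermediateField ℚ ℝ :=
  IntermediateField.adjoin ℚ {x | ∃ i, i < n ∧ x = rt q i}

/-- The infinite multiquadratic field. -/
noncomputable def Fq (q : ℕ → ℕ) : IntermediateField ℚ ℝ :=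
  IntermediateField.adjoin ℚ (Set.range (rt q))

end Pool.Agent.H93.MQ

end S_H93_MQ_Defs

section S_H93_MQ_Rsc

set_option autoImplicit false

open NumberField IsDedekindDomain WeierstrassCurve Pool.Agent.H10

namespace Pool.Agent.H93.MQ

/-- `W'` is the rescaling of `W` by `s`. -/
structure Rsc {k : Type*} [Field k] (s : k) (W W' : WeierstrassCurve k) : Prop where
  ne : s ≠ 0
  a₁ : W'.a₁ = s * W.a₁
  a₂ : W'.a₂ = s ^ 2 * W.a₂
  a₃ : W'.a₃ = s ^ 3 * W.a₃
  a₄ : W'.a₄ = s ^ 4 * W.a₄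
  a₆ : W'.a₆ = s ^ 6 * W.a₆

section

variable {k : Type*} [Field k] {s : k} {W W' : WeierstrassCurve k}

theorem Rsc.nonsing (h : Rsc s W W') {x y : k} (hxy : W.toAffine.Nonsingular x y) :
    W'.toAffine.Nonsingular (s ^ 2 * x) (s ^ 3 * y) := by
  rw [Affine.nonsingular_iff', Affine.equation_iff'] at hxy ⊢
  obtain ⟨h1, h2⟩ := hxy
  have hs := h.ne
  constructor
  · rw [h.a₁, h.a₂, h.a₃, h.a₄, h.a₆]
    linear_combination s ^ 6 * h1
  · rcases h2 with h2 | h2
    · left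
      rw [h.a₁, h.a₂, h.a₄]
      have e : s * W.a₁ * (s ^ 3 * y) -
          (3 * (s ^ 2 * x) ^ 2 + 2 * (s ^ 2 * W.a₂) * (s ^ 2 * x) + s ^ 4 * W.a₄) =
          s ^ 4 * (W.a₁ * y - (3 * x ^ 2 + 2 * W.a₂ * x + W.a₄)) := by ring
      rw [e]
      exact mul_ne_zero (pow_ne_zero 4 hs) h2
    · right
      rw [h.a₁, h.a₃]
      have e : 2 * (s ^ 3 * y) + s * W.a₁ * (s ^ 2 * x) + s ^ 3 * W.a₃ =
          s ^ 3 * (2 * y + W.a₁ * x + W.a₃) := by ring
      rw [e]
      exact mul_ne_zero (pow_ne_zero 3 hs) h2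

theorem Rsc_negY (h : Rsc s W W') (x y : k) :
    W'.toAffine.negY (s ^ 2 * x) (s ^ 3 * y) = s ^ 3 * W.toAffine.negY x y := by
  unfold Affine.negY
  rw [h.a₁, h.a₃]
  ring

theorem Rsc_addX (h : Rsc s W W') (x₁ x₂ l : k) :
    W'.toAffine.addX (s ^ 2 * x₁) (s ^ 2 * x₂) (s * l) = s ^ 2 * W.toAffine.addX x₁ x₂ l := by
  unfold Affine.addX
  rw [h.a₁, h.a₂]
  ring

theorem Rsc_addY (h : Rsc s W W') (x₁ x₂ y₁ l : k) :
    W'.toAffine.addY (s ^ 2 * x₁) (s ^ 2 * x₂) (s ^ 3 * y₁) (s * l) =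
      s ^ 3 * W.toAffine.addY x₁ x₂ y₁ l := by
  unfold Affine.addY Affine.negAddY
  rw [Rsc_addX h]
  have e : s * l * (s ^ 2 * W.toAffine.addX x₁ x₂ l - s ^ 2 * x₁) + s ^ 3 * y₁ =
      s ^ 3 * (l * (W.toAffine.addX x₁ x₂ l - x₁) + y₁) := by ring
  rw [e, Rsc_negY h]

/-- The rescaling on points, as a function. -/
def rscFun (h : Rsc s W W') : W.toAffine.Point → W'.toAffine.Point
  | 0 => 0
  | .some x y hxy => .some (s ^ 2 * x) (s ^ 3 * y) (h.nonsing hxy)

variable [DecidableEq k]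

theorem Rsc_slope (h : Rsc s W W') {x₁ x₂ y₁ y₂ : k}
    (hxy : ¬(x₁ = x₂ ∧ y₁ = W.toAffine.negY x₂ y₂)) :
    W'.toAffine.slope (s ^ 2 * x₁) (s ^ 2 * x₂) (s ^ 3 * y₁) (s ^ 3 * y₂) =
      s * W.toAffine.slope x₁ x₂ y₁ y₂ := by
  have hs := h.ne
  by_cases hx : x₁ = x₂
  · have hy : y₁ ≠ W.toAffine.negY x₂ y₂ := fun hy => hxy ⟨hx, hy⟩
    have hy' : s ^ 3 * y₁ ≠ W'.toAffine.negY (s ^ 2 * x₂) (s ^ 3 * y₂) := by
      rw [Rsc_negY h]
      exact fun h1 => hy (mul_left_cancel₀ (pow_ne_zero 3 hs) h1)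
    rw [Affine.slope_of_Y_ne hx hy, Affine.slope_of_Y_ne (by rw [hx]) hy', Rsc_negY h, h.a₁,
      h.a₂, h.a₄]
    have e1 : 3 * (s ^ 2 * x₁) ^ 2 + 2 * (s ^ 2 * W.a₂) * (s ^ 2 * x₁) + s ^ 4 * W.a₄ -
        s * W.a₁ * (s ^ 3 * y₁) =
        s ^ 3 * (s * (3 * x₁ ^ 2 + 2 * W.a₂ * x₁ + W.a₄ - W.a₁ * y₁)) := by ring
    have e2 : s ^ 3 * y₁ - s ^ 3 * W.toAffine.negY x₁ y₁ =
        s ^ 3 * (y₁ - W.toAffine.negY x₁ y₁) := by ring
    rw [e1, e2, mul_div_mul_left _ _ (pow_ne_zero 3 hs), mul_div_assoc]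
  · have hx' : s ^ 2 * x₁ ≠ s ^ 2 * x₂ := fun h1 =>
      hx (mul_left_cancel₀ (pow_ne_zero 2 hs) h1)
    rw [Affine.slope_of_X_ne hx, Affine.slope_of_X_ne hx']
    have e1 : s ^ 3 * y₁ - s ^ 3 * y₂ = s ^ 2 * (s * (y₁ - y₂)) := by ring
    have e2 : s ^ 2 * x₁ - s ^ 2 * x₂ = s ^ 2 * (x₁ - x₂) := by ring
    rw [e1, e2, mul_div_mul_left _ _ (pow_ne_zero 2 hs), mul_div_assoc]

theorem rscFun_add (h : Rsc s W W') (P Q : W.toAffine.Point) :
    rscFun h (P + Q) = rscFun h P + rscFun h Q := by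
  have hs := h.ne
  rcases P with _ | ⟨x₁, y₁, h₁⟩ <;> rcases Q with _ | ⟨x₂, y₂, h₂⟩
  any_goals rfl
  by_cases hxy : x₁ = x₂ ∧ y₁ = W.toAffine.negY x₂ y₂
  · rw [Affine.Point.add_of_Y_eq hxy.left hxy.right]
    change _ = Affine.Point.some (s ^ 2 * x₁) (s ^ 3 * y₁) _ +
      Affine.Point.some (s ^ 2 * x₂) (s ^ 3 * y₂) _
    rw [Affine.Point.add_of_Y_eq (by rw [hxy.left]) (by
      rw [Rsc_negY h, hxy.right])]
    rfl
  · rw [Affine.Point.add_some hxy]
    change Affine.Point.some (s ^ 2 * _) (s ^ 3 * _) _ =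
      Affine.Point.some (s ^ 2 * x₁) (s ^ 3 * y₁) _ + Affine.Point.some (s ^ 2 * x₂) (s ^ 3 * y₂) _
    rw [Affine.Point.add_some (fun h1 => hxy
      ⟨mul_left_cancel₀ (pow_ne_zero 2 hs) h1.1, mul_left_cancel₀ (pow_ne_zero 3 hs) (by
        rw [← Rsc_negY h]; exact h1.2)⟩)]
    rw [Affine.Point.some.injEq]
    constructor
    · rw [Rsc_slope h hxy, Rsc_addX h]
    · rw [Rsc_slope h hxy, Rsc_addY h]

/-- The rescaling on points. -/
noncomputable def rsc (h : Rsc s W W') : W.toAffine.Point →+ W'.toAffine.Point where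
  toFun := rscFun h
  map_zero' := rfl
  map_add' := rscFun_add h

lemma rsc_some (h : Rsc s W W') {x y : k} (hxy : W.toAffine.Nonsingular x y) :
    rsc h (.some x y hxy) = .some (s ^ 2 * x) (s ^ 3 * y) (h.nonsing hxy) := rfl

omit [DecidableEq k] in
theorem Rsc.symm (h : Rsc s W W') : Rsc s⁻¹ W' W := by
  have hs := h.ne
  refine ⟨inv_ne_zero hs, ?_, ?_, ?_, ?_, ?_⟩
  · rw [h.a₁]; field_simp
  · rw [h.a₂]; field_simp
  · rw [h.a₃]; field_simp
  · rw [h.a₄]; field_simp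
  · rw [h.a₆]; field_simp

theorem rsc_symm (h : Rsc s W W') (P : W.toAffine.Point) : rsc h.symm (rsc h P) = P := by
  have hs := h.ne
  rcases P with _ | ⟨x, y, hxy⟩
  · rfl
  · rw [rsc_some, rsc_some, Affine.Point.some.injEq]
    constructor <;> field_simp

theorem rsc_neg (h2 : (2 : k) ≠ 0) (h : Rsc s W W') (h' : Rsc (-s) W W') (P : W.toAffine.Point) :
    rsc h' P = - rsc h P := by
  have e1 : W'.a₁ = 0 := by
    have h3 : 2 * W'.a₁ = 0 := by linear_combination h.a₁ + h'.a₁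
    exact (mul_eq_zero.1 h3).resolve_left h2
  have e3 : W'.a₃ = 0 := by
    have h3 : 2 * W'.a₃ = 0 := by linear_combination h.a₃ + h'.a₃
    exact (mul_eq_zero.1 h3).resolve_left h2
  rcases P with _ | ⟨x, y, hxy⟩
  · rfl
  · rw [rsc_some, rsc_some, Affine.Point.neg_some, Affine.Point.some.injEq]
    constructor
    · ring
    · unfold Affine.negY
      rw [e1, e3]
      ring

end

section

variable {k k' : Type*} [Field k] [Field k'] {s : k} {W W' : WeierstrassCurve k}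
  {Z Z' : WeierstrassCurve k'}

theorem Rsc.map (h : Rsc s W W') (φ : k →+* k') (hZ : W.map φ = Z) (hZ' : W'.map φ = Z') :
    Rsc (φ s) Z Z' := by
  subst hZ hZ'
  refine ⟨fun h1 => h.ne (φ.injective (by rw [h1, map_zero])), ?_, ?_, ?_, ?_, ?_⟩
  · show φ W'.a₁ = φ s * φ W.a₁
    rw [h.a₁, map_mul]
  · show φ W'.a₂ = φ s ^ 2 * φ W.a₂
    rw [h.a₂, map_mul, map_pow]
  · show φ W'.a₃ = φ s ^ 3 * φ W.a₃
    rw [h.a₃, map_mul, map_pow]
  · show φ W'.a₄ = φ s ^ 4 * φ W.a₄
    rw [h.a₄, map_mul, map_pow]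
  · show φ W'.a₆ = φ s ^ 6 * φ W.a₆
    rw [h.a₆, map_mul, map_pow]

theorem rsc_pm [DecidableEq k] [DecidableEq k'] (h : Rsc s W W') (φ : k →+* k')
    (hZ : W.map φ = Z) (hZ' : W'.map φ = Z') {t : k'} (ht : t = φ s) (h' : Rsc t Z Z')
    (P : W.toAffine.Point) : pm φ hZ' (rsc h P) = rsc h' (pm φ hZ P) := by
  rcases P with _ | ⟨x, y, hxy⟩
  · rfl
  · rw [rsc_some, pm_some, pm_some, rsc_some, Affine.Point.some.injEq]
    rw [map_mul, map_mul, map_pow, map_pow, ht]
    exact ⟨rfl, rfl⟩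

end

/-- The standard curves. -/
theorem rsc_cu {k : Type*} [Field k] {A B d d' : ℤ} {s : k} (hs : s ≠ 0)
    (hd : (d' : k) = s ^ 2 * (d : k)) : Rsc s (cu k (A * d) (B * d)) (cu k (A * d') (B * d')) := by
  refine ⟨hs, ?_, ?_, ?_, ?_, ?_⟩
  · show (0 : k) = s * 0
    rw [mul_zero]
  · show -(((A * d' : ℤ) : k) + ((B * d' : ℤ) : k)) =
      s ^ 2 * -(((A * d : ℤ) : k) + ((B * d : ℤ) : k))
    push_cast
    rw [hd]
    ring
  · show (0 : k) = s ^ 3 * 0
    rw [mul_zero]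
  · show ((A * d' : ℤ) : k) * ((B * d' : ℤ) : k) =
      s ^ 4 * (((A * d : ℤ) : k) * ((B * d : ℤ) : k))
    push_cast
    rw [hd]
    ring
  · show (0 : k) = s ^ 6 * 0
    rw [mul_zero]

theorem cu_map {k k' : Type*} [Field k] [Field k'] (φ : k →+* k') (A B : ℤ) :
    (cu k A B).map φ = cu k' A B := by
  ext
  · show φ 0 = 0
    rw [map_zero]
  · show φ (-((A : k) + (B : k))) = -((A : k') + (B : k'))
    rw [map_neg, map_add, map_intCast, map_intCast]
  · show φ 0 = 0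
    rw [map_zero]
  · show φ ((A : k) * (B : k)) = (A : k') * (B : k')
    rw [map_mul, map_intCast, map_intCast]
  · show φ 0 = 0
    rw [map_zero]

end Pool.Agent.H93.MQ

end S_H93_MQ_Rsc

section S_H93_MQ_RscS

set_option autoImplicit false
set_option linter.style.haveILetI false
open scoped Classical

open NumberField IsDedekindDomain WeierstrassCurve Pool.Agent.H10

namespace Pool.Agent.H93.MQ

section

variable {L : Type} [Field L] [NumberField L] {s : L} {V V' : WeierstrassCurve L}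

theorem Rsc.bc (h : Rsc s V V') (Ω : Type*) [Field Ω] [Algebra L Ω] :
    Rsc (algebraMap L Ω s) (V.baseChange Ω) (V'.baseChange Ω) :=
  h.map (algebraMap L Ω) rfl rfl

/-- Rescaling of cochains. -/
noncomputable def rscF (h : Rsc s V V') (f : Coch L V) : Coch L V' :=
  fun σ => rsc (h.bc (AlgebraicClosure L)) (f σ)

theorem rsc_act (h : Rsc s V V') (σ : AlgebraicClosure L ≃ₐ[L] AlgebraicClosure L)
    (P : (V.baseChange (AlgebraicClosure L)).toAffine.Point) :
    rsc (h.bc (AlgebraicClosure L)) (act (inv_bc L V) σ P) =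
      act (inv_bc L V') σ (rsc (h.bc (AlgebraicClosure L)) P) :=
  (rsc_pm (h.bc (AlgebraicClosure L)) (σ : AlgebraicClosure L →+* AlgebraicClosure L)
    (inv_bc L V σ) (inv_bc L V' σ) (σ.commutes s).symm (h.bc (AlgebraicClosure L)) P).symm

theorem isCocycle_rscF (h : Rsc s V V') {f : Coch L V} (hf : IsCocycle L V f) :
    IsCocycle L V' (rscF h f) := by
  rw [isCocycle_iff] at hf ⊢
  refine ⟨hf.1.comp _, fun σ τ => ?_⟩
  show rsc (h.bc (AlgebraicClosure L)) (f (σ * τ)) = rsc (h.bc (AlgebraicClosure L)) (f σ) +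
    act (inv_bc L V') σ (rsc (h.bc (AlgebraicClosure L)) (f τ))
  rw [hf.2, map_add, rsc_act h]

theorem rscS_trivAt (h : Rsc s V V') {F : Type} [Field F] [Algebra L F]
    (ι : AlgebraicClosure L →ₐ[L] AlgebraicClosure F) {f : Coch L V}
    (H : TrivAt (F := F) (inv_bc' V) (ι : AlgebraicClosure L →+* AlgebraicClosure F)
      (map_bc V ι) f) :
    TrivAt (F := F) (inv_bc' V') (ι : AlgebraicClosure L →+* AlgebraicClosure F)
      (map_bc V' ι) (rscF h f) := by
  obtain ⟨P, hP⟩ := H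
  refine ⟨rsc (h.bc (AlgebraicClosure F)) P, fun τ σ hτσ => ?_⟩
  have e1 : pm (ι : AlgebraicClosure L →+* AlgebraicClosure F) (map_bc V' ι)
      (rsc (h.bc (AlgebraicClosure L)) (f σ)) = rsc (h.bc (AlgebraicClosure F))
        (pm (ι : AlgebraicClosure L →+* AlgebraicClosure F) (map_bc V ι) (f σ)) :=
    rsc_pm (h.bc (AlgebraicClosure L)) (ι : AlgebraicClosure L →+* AlgebraicClosure F)
      (map_bc V ι) (map_bc V' ι) (ι.commutes s).symm (h.bc (AlgebraicClosure F)) (f σ)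
  have hs : algebraMap L (AlgebraicClosure F) s = τ (algebraMap L (AlgebraicClosure F) s) := by
    rw [IsScalarTower.algebraMap_apply L F (AlgebraicClosure F), τ.commutes]
  have e2 : act (K := F) (inv_bc' V') τ (rsc (h.bc (AlgebraicClosure F)) P) =
      rsc (h.bc (AlgebraicClosure F)) (act (inv_bc' V) τ P) :=
    rsc_pm (h.bc (AlgebraicClosure F)) (τ : AlgebraicClosure F →+* AlgebraicClosure F)
      (inv_bc' V τ) (inv_bc' V' τ) hs (h.bc (AlgebraicClosure F)) P
  show pm (ι : AlgebraicClosure L →+* AlgebraicClosure F) (map_bc V' ι)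
      (rsc (h.bc (AlgebraicClosure L)) (f σ)) = _
  rw [e1, hP τ σ hτσ, map_sub, e2]

theorem isLocTriv_rscF (h : Rsc s V V') {f : Coch L V} (hf : IsLocTriv L V f) :
    IsLocTriv L V' (rscF h f) := by
  rw [isLocTriv_iff] at hf ⊢
  exact ⟨fun v ι => rscS_trivAt h ι (hf.1 v ι), fun v ι => rscS_trivAt h ι (hf.2 v ι)⟩

theorem isCobound_rscF (h : Rsc s V V') {f : Coch L V} (hf : IsCobound L V f) :
    IsCobound L V' (rscF h f) := by
  rw [isCobound_iff] at hf ⊢
  obtain ⟨Q, hQ⟩ := hf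
  refine ⟨rsc (h.bc (AlgebraicClosure L)) Q, fun σ => ?_⟩
  show rsc (h.bc (AlgebraicClosure L)) (f σ) = _
  rw [hQ, map_sub, rsc_act h]

/-- Rescaling of locally trivial cocycles. -/
noncomputable def rscZ (h : Rsc s V V') : ShaZ L V →+ ShaZ L V' where
  toFun f := ⟨rscF h f.1, isCocycle_rscF h f.2.1, isLocTriv_rscF h f.2.2⟩
  map_zero' := by
    apply Subtype.ext
    funext τ
    change rsc (h.bc (AlgebraicClosure L)) 0 = 0
    rw [map_zero]
  map_add' f g := by
    apply Subtype.ext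
    funext τ
    change rsc (h.bc (AlgebraicClosure L)) (f.1 τ + g.1 τ) = _
    rw [map_add]
    rfl

/-- Rescaling on the Tate-Shafarevich group. -/
noncomputable def shaRsc (h : Rsc s V V') : Sha L V →+ Sha L V' :=
  QuotientAddGroup.map _ _ (rscZ h) (by
    intro f hf
    rw [AddSubgroup.mem_comap, AddSubgroup.mem_addSubgroupOf]
    exact isCobound_rscF h hf)

lemma shaRsc_mk (h : Rsc s V V') (f : ShaZ L V) : shaRsc h (Sha.mk f) = Sha.mk (rscZ h f) := rfl

theorem rscS_congr {k : Type*} [Field k] [DecidableEq k] {t t' : k} {W W' : WeierstrassCurve k}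
    (e : t = t') (h1 : Rsc t W W') (h2 : Rsc t' W W') (P : W.toAffine.Point) :
    rsc h1 P = rsc h2 P := by
  subst e
  rfl

theorem shaRsc_symm (h : Rsc s V V') (x : Sha L V) : shaRsc h.symm (shaRsc h x) = x := by
  obtain ⟨f, rfl⟩ := Sha.mk_surjective x
  rw [shaRsc_mk, shaRsc_mk]
  congr 1
  apply Subtype.ext
  funext τ
  show rsc (h.symm.bc (AlgebraicClosure L)) (rsc (h.bc (AlgebraicClosure L)) (f.1 τ)) = f.1 τ
  rw [rscS_congr (map_inv₀ (algebraMap L (AlgebraicClosure L)) s) (h.symm.bc (AlgebraicClosure L))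
    (h.bc (AlgebraicClosure L)).symm]
  exact rsc_symm (h.bc (AlgebraicClosure L)) (f.1 τ)

end

end Pool.Agent.H93.MQ

end S_H93_MQ_RscS

section S_H93_MQ_RscA

set_option autoImplicit false
set_option linter.style.haveILetI false
open scoped Classical

open NumberField IsDedekindDomain WeierstrassCurve Pool.Agent.H10 Pool.Agent.H11

namespace Pool.Agent.H93.MQ

theorem actS_rsc {K L : Type} [Field K] [NumberField K] [Field L] [NumberField L] [Algebra K L]
    [Normal K L] {V₀ V₀' : WeierstrassCurve K} {V V' : WeierstrassCurve L}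
    (hV : V₀.map (algebraMap K L) = V) (hV' : V₀'.map (algebraMap K L) = V') {s : L}
    (h : Rsc s V V') (σ : L ≃ₐ[K] L) (hσ : σ s = -s) (x : Sha L V) :
    actS hV' σ (shaRsc h x) = - shaRsc h (actS hV σ x) := by
  obtain ⟨f, rfl⟩ := Sha.mk_surjective x
  have e1 : actS hV' σ (shaRsc h (Sha.mk f)) = Sha.mk (conjZ hV' (lf σ) (rscZ h f)) := rfl
  have e2 : shaRsc h (actS hV σ (Sha.mk f)) = Sha.mk (rscZ h (conjZ hV (lf σ) f)) := rfl
  rw [e1, e2]
  have e3 : - Sha.mk (rscZ h (conjZ hV (lf σ) f)) = Sha.mk (-(rscZ h (conjZ hV (lf σ) f))) :=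
    (map_neg (mkHom L V') (rscZ h (conjZ hV (lf σ) f))).symm
  rw [e3]
  congr 1
  apply Subtype.ext
  funext τ
  change Pool.Agent.H10.act (inv_up hV') (lf σ) (rsc (h.bc (AlgebraicClosure L)) (f.1 (cj (lf σ) τ))) =
    -(rsc (h.bc (AlgebraicClosure L)) (Pool.Agent.H10.act (inv_up hV) (lf σ) (f.1 (cj (lf σ) τ))))
  have ht : (-(algebraMap L (AlgebraicClosure L) s)) =
      (lf σ : AlgebraicClosure L →+* AlgebraicClosure L) (algebraMap L (AlgebraicClosure L) s) := by
    change _ = lf σ (algebraMap L (AlgebraicClosure L) s)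
    rw [lf_apply, hσ, map_neg]
  have h' : Rsc (-(algebraMap L (AlgebraicClosure L) s)) (V.baseChange (AlgebraicClosure L))
      (V'.baseChange (AlgebraicClosure L)) := by
    rw [ht]
    exact (h.bc (AlgebraicClosure L)).map _ (inv_up hV (lf σ)) (inv_up hV' (lf σ))
  unfold Pool.Agent.H10.act
  rw [rsc_pm (h.bc (AlgebraicClosure L)) (lf σ : AlgebraicClosure L →+* AlgebraicClosure L)
    (inv_up hV (lf σ)) (inv_up hV' (lf σ)) ht h', rsc_neg two_ne_zero (h.bc _) h']

end Pool.Agent.H93.MQ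

end S_H93_MQ_RscA

section S_H93_MQ_QSha

set_option autoImplicit false
set_option linter.style.haveILetI false
open scoped Classical

open NumberField IsDedekindDomain WeierstrassCurve Pool.Agent.H10 Pool.Agent.H11

namespace Pool.Agent.H93.MQ

theorem QSha_sum {K L : Type} [Field K] [NumberField K] [Field L] [NumberField L] [Algebra K L]
    [Normal K L] {V₀ : WeierstrassCurve K} {V : WeierstrassCurve L}
    (hV : V₀.map (algebraMap K L) = V) {N : ℕ}
    (hN : ∀ x : Sha K V₀, (∃ m : ℕ, 2 ^ m • x = 0) → 2 ^ N • x = 0) (x : Sha L V)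
    (hx : ∃ m : ℕ, 2 ^ m • x = 0) : 2 ^ N • ∑ σ : L ≃ₐ[K] L, actS hV σ x = 0 := by
  obtain ⟨m, hm⟩ := hx
  rw [← res_cor hV x, ← map_nsmul, hN (Sha.cor hV x) ⟨m, by rw [← map_nsmul, hm, map_zero]⟩,
    map_zero]

theorem QSha_two {G : Type*} [AddCommGroup G] {N₁ N₂ : ℕ} {x y : G} (h1 : 2 ^ N₁ • (x + y) = 0)
    (h2 : 2 ^ N₂ • (x - y) = 0) : 2 ^ (N₁ + N₂ + 1) • x = 0 := by
  have e : 2 ^ (N₁ + N₂ + 1) • x = 2 ^ N₂ • (2 ^ N₁ • (x + y)) + 2 ^ N₁ • (2 ^ N₂ • (x - y)) := by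
    rw [← mul_smul, ← mul_smul, mul_comm (2 ^ N₂) (2 ^ N₁), ← pow_add, ← smul_add]
    have e2 : x + y + (x - y) = 2 • x := by rw [two_smul]; abel
    rw [e2, ← mul_smul, pow_succ]
  rw [e, h1, h2, smul_zero, smul_zero, add_zero]

theorem bdd_step {K L : Type} [Field K] [NumberField K] [Field L] [NumberField L] [Algebra K L]
    [Normal K L] {V₀ V₀' : WeierstrassCurve K} {V V' : WeierstrassCurve L}
    (hV : V₀.map (algebraMap K L) = V) (hV' : V₀'.map (algebraMap K L) = V') {s : L}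
    (h : Rsc s V V') (hσ : ∀ σ : L ≃ₐ[K] L, σ = 1 ∨ σ s = -s)
    (huniq : ∀ σ τ : L ≃ₐ[K] L, σ s = -s → τ s = -s → σ = τ)
    (h1 : Bdd K V₀) (h2 : Bdd K V₀') : Bdd L V := by
  obtain ⟨N₁, hN₁⟩ := h1
  obtain ⟨N₂, hN₂⟩ := h2
  refine ⟨N₁ + N₂ + 1, fun x hx => ?_⟩
  have k1 := QSha_sum hV hN₁ x hx
  by_cases hτ : ∃ τ : L ≃ₐ[K] L, τ ≠ 1
  · obtain ⟨τ, hτ1⟩ := hτ
    have hτs : τ s = -s := (hσ τ).resolve_left hτ1
    have huniv : (Finset.univ : Finset (L ≃ₐ[K] L)) = {1, τ} := by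
      ext σ
      simp only [Finset.mem_univ, Finset.mem_insert, Finset.mem_singleton, true_iff]
      rcases hσ σ with h3 | h3
      · exact Or.inl h3
      · exact Or.inr (huniq σ τ h3 hτs)
    rw [huniv, Finset.sum_pair (Ne.symm hτ1), actS_one] at k1
    have hy : ∃ m : ℕ, 2 ^ m • shaRsc h x = 0 := by
      obtain ⟨m, hm⟩ := hx
      exact ⟨m, by rw [← map_nsmul, hm, map_zero]⟩
    have k2 := QSha_sum hV' hN₂ (shaRsc h x) hy
    rw [huniv, Finset.sum_pair (Ne.symm hτ1), actS_one, actS_rsc hV hV' h τ hτs,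
      ← sub_eq_add_neg, ← map_sub] at k2
    have k3 : 2 ^ N₂ • (x - actS hV τ x) = 0 := by
      have k4 := congrArg (shaRsc h.symm) k2
      rw [map_nsmul, shaRsc_symm, map_zero] at k4
      exact k4
    exact QSha_two k1 k3
  · push Not at hτ
    have huniv : (Finset.univ : Finset (L ≃ₐ[K] L)) = {1} := by
      ext σ
      simp only [Finset.mem_univ, Finset.mem_singleton, true_iff]
      exact hτ σ
    rw [huniv, Finset.sum_singleton, actS_one] at k1
    rw [show N₁ + N₂ + 1 = (N₂ + 1) + N₁ by ring, pow_add, mul_smul, k1, smul_zero]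

end Pool.Agent.H93.MQ

end S_H93_MQ_QSha

section S_H93_MQ_QPts

set_option autoImplicit false
set_option linter.style.haveILetI false
open scoped Classical

open NumberField IsDedekindDomain WeierstrassCurve Pool.Agent.H10 Pool.Agent.H11

namespace Pool.Agent.H93.MQ

/-- points fixed by the Galois group are killed by the order of the group over the base -/
theorem QPts_fixed {K L : Type} [Field K] [NumberField K] [Field L] [NumberField L] [Algebra K L]
    [Normal K L] {V₀ : WeierstrassCurve K} {V : WeierstrassCurve L}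
    (hV : V₀.map (algebraMap K L) = V) (h1 : Finite V₀.toAffine.Point)
    (P : V.toAffine.Point) (hP : ∀ σ : L ≃ₐ[K] L, act (inv_of_map hV) σ P = P) :
    Nat.card V₀.toAffine.Point • P = 0 := by
  haveI : IsGalois K L := IsGalois.mk
  obtain ⟨P₀, hP₀⟩ := pm_descent hV (inv_of_map hV) P hP
  rw [← hP₀, ← map_nsmul, card_nsmul_eq_zero', map_zero]

theorem fin_step {K L : Type} [Field K] [NumberField K] [Field L] [NumberField L] [Algebra K L]
    [Normal K L] {V₀ V₀' : WeierstrassCurve K} {V V' : WeierstrassCurve L} [V.IsElliptic]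
    (hV : V₀.map (algebraMap K L) = V) (hV' : V₀'.map (algebraMap K L) = V') {s : L}
    (h : Rsc s V V') (hσ : ∀ σ : L ≃ₐ[K] L, σ = 1 ∨ σ s = -s)
    (huniq : ∀ σ τ : L ≃ₐ[K] L, σ s = -s → τ s = -s → σ = τ)
    (h1 : Finite V₀.toAffine.Point) (h2 : Finite V₀'.toAffine.Point) :
    Finite V.toAffine.Point := by
  have hm1 : Nat.card V₀.toAffine.Point ≠ 0 := Nat.card_pos.ne'
  have hm2 : Nat.card V₀'.toAffine.Point ≠ 0 := Nat.card_pos.ne'
  by_cases hall : ∀ σ : L ≃ₐ[K] L, σ = 1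
  · refine finite_of_torsion (m := Nat.card V₀.toAffine.Point) hm1 fun P => ?_
    refine QPts_fixed hV h1 P fun σ => ?_
    rw [hall σ, Pool.Agent.H10.act_one]
  · push Not at hall
    obtain ⟨τ, hτ⟩ := hall
    have hτs : τ s = -s := (hσ τ).resolve_left hτ
    have hall2 : ∀ σ : L ≃ₐ[K] L, σ = 1 ∨ σ = τ := fun σ => by
      rcases hσ σ with h3 | h3
      · exact Or.inl h3
      · exact Or.inr (huniq σ τ h3 hτs)
    have hττ : τ * τ = 1 := by
      rcases hσ (τ * τ) with h3 | h3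
      · exact h3
      · exfalso
        rw [AlgEquiv.mul_apply, hτs, map_neg, hτs, neg_neg] at h3
        exact h.ne (self_eq_neg.1 h3)
    have h' : Rsc (-s) V V' := by
      have h3 := h.map (τ : L →+* L) (inv_of_map hV τ) (inv_of_map hV' τ)
      have h4 : (τ : L →+* L) s = -s := hτs
      rwa [h4] at h3
    have hact : ∀ R : V.toAffine.Point,
        act (inv_of_map hV') τ (rsc h R) = - rsc h (act (inv_of_map hV) τ R) := by
      intro R
      rw [← rsc_neg two_ne_zero h h']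
      exact rsc_pm h (τ : L →+* L) (inv_of_map hV τ) (inv_of_map hV' τ) (t := -s) hτs.symm h' R
    refine finite_of_torsion (m := Nat.card V₀.toAffine.Point * Nat.card V₀'.toAffine.Point * 2)
      (by positivity) fun P => ?_
    have hττP : act (inv_of_map hV) τ (act (inv_of_map hV) τ P) = P := by
      rw [← Pool.Agent.H10.act_mul, hττ, Pool.Agent.H10.act_one]
    have hQ : Nat.card V₀.toAffine.Point • (P + act (inv_of_map hV) τ P) = 0 := by
      refine QPts_fixed hV h1 _ fun σ => ?_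
      rcases hall2 σ with h3 | h3
      · rw [h3, Pool.Agent.H10.act_one]
      · rw [h3, map_add, hττP, add_comm]
    have hR : Nat.card V₀'.toAffine.Point • (P - act (inv_of_map hV) τ P) = 0 := by
      have hy : Nat.card V₀'.toAffine.Point • rsc h (P - act (inv_of_map hV) τ P) = 0 := by
        refine QPts_fixed hV' h2 _ fun σ => ?_
        rcases hall2 σ with h3 | h3
        · rw [h3, Pool.Agent.H10.act_one]
        · rw [h3, hact, map_sub, hττP, ← map_neg, neg_sub]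
      rw [← rsc_symm h (Nat.card V₀'.toAffine.Point • (P - act (inv_of_map hV) τ P)),
        map_nsmul, hy, map_zero]
    have h2P : (2 : ℕ) • P = (P + act (inv_of_map hV) τ P) + (P - act (inv_of_map hV) τ P) := by
      rw [two_nsmul]; abel
    rw [mul_smul, h2P, smul_add, mul_comm (Nat.card V₀.toAffine.Point), mul_smul, hQ, smul_zero,
      mul_comm (Nat.card V₀'.toAffine.Point), mul_smul, hR, smul_zero, add_zero]

end Pool.Agent.H93.MQ

end S_H93_MQ_QPts

section S_H14_T1_Mu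

set_option autoImplicit false
set_option linter.style.haveILetI false
set_option linter.unusedSectionVars false
open scoped Classical

open NumberField IsDedekindDomain WeierstrassCurve Pool.Agent.H10 Pool.Agent.H11 Pool.Agent.H93.MQ

namespace H14T1

/-- The two-primary part of the Tate-Shafarevich group of `W` over `K` is finite: the everywhere
locally trivial continuous cocycles `f` for which `2 ^ m f` is a coboundary for some `m` fall into
finitely many classes modulo coboundaries. -/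
def TwoPartFinite (K : Type) [Field K] [NumberField K] (W : WeierstrassCurve K) : Prop :=
  ∃ S : Set ((AlgebraicClosure K ≃ₐ[K] AlgebraicClosure K) →
      (W.baseChange (AlgebraicClosure K)).toAffine.Point), S.Finite ∧
    ∀ f : (AlgebraicClosure K ≃ₐ[K] AlgebraicClosure K) →
        (W.baseChange (AlgebraicClosure K)).toAffine.Point,
      IsCocycle K W f → IsLocTriv K W f → (∃ m : ℕ, IsCobound K W (fun σ => (2 ^ m) • f σ)) →
      ∃ g ∈ S, IsCobound K W (fun σ => f σ - g σ)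

lemma twoPartFinite_of {K : Type} [Field K] [NumberField K] {W : WeierstrassCurve K}
    (h : {x : Sha K W | ∃ m : ℕ, 2 ^ m • x = 0}.Finite) : TwoPartFinite K W := by
  obtain ⟨rep, hrep⟩ : ∃ rep : Sha K W → ShaZ K W, ∀ x, Sha.mk (rep x) = x :=
    ⟨Function.surjInv Sha.mk_surjective, Function.surjInv_eq Sha.mk_surjective⟩
  refine ⟨(fun x => (rep x : Coch K W)) '' {x : Sha K W | ∃ m : ℕ, 2 ^ m • x = 0}, h.image _, ?_⟩
  rintro f hf hl ⟨m, hm⟩
  refine ⟨_, ⟨Sha.mk ⟨f, hf, hl⟩, ⟨m, ?_⟩, rfl⟩, ?_⟩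
  · rw [← Sha.mk_nsmul, Sha.mk_eq_zero]
    exact hm
  · have h1 : Sha.mk (⟨f, hf, hl⟩ : ShaZ K W) - Sha.mk (rep (Sha.mk ⟨f, hf, hl⟩)) =
        Sha.mk (⟨f, hf, hl⟩ - rep (Sha.mk ⟨f, hf, hl⟩)) := rfl
    rw [hrep, sub_self] at h1
    exact (Sha.mk_eq_zero _).1 h1.symm

/-- The discriminant. -/
lemma cv_disc {k : Type*} [Field k] (A B : ℤ) :
    (cv k A B).Δ = ((16 * B ^ 2 * (A ^ 2 - 4 * B) : ℤ) : k) := by
  rw [WeierstrassCurve.Δ, WeierstrassCurve.b₂, WeierstrassCurve.b₄, WeierstrassCurve.b₆,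
    WeierstrassCurve.b₈]
  simp only [cv]
  push_cast
  ring

lemma cv_ell {k : Type*} [Field k] [CharZero k] {A B : ℤ} (hB : B ≠ 0) (hD : A ^ 2 - 4 * B ≠ 0) :
    (cv k A B).IsElliptic := by
  refine ⟨?_⟩
  rw [cv_disc, isUnit_iff_ne_zero]
  exact Int.cast_ne_zero.2 (mul_ne_zero (mul_ne_zero (by norm_num) (pow_ne_zero 2 hB)) hD)

lemma cv_nonsing {k l : Type*} [Field k] [Field l] (f : k →+* l) {A B : ℤ} {x y : k} :
    (cv l A B).toAffine.Nonsingular (f x) (f y) ↔ (cv k A B).toAffine.Nonsingular x y := by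
  rw [← cv_map f]
  exact Affine.map_nonsingular (cv k A B) f.injective x y

/-- All curves with index in `D` have bounded two-primary part and finitely many points. -/
def GoodD (D : Set ℕ) (A B : ℤ) (K : Type) [Field K] [NumberField K] : Prop :=
  ∀ d ∈ D, Bdd K (cv K (A * d) (B * d ^ 2)) ∧ Finite (cv K (A * d) (B * d ^ 2)).toAffine.Point

lemma cvd_ell {k : Type*} [Field k] [CharZero k] {A B : ℤ} (hB : B ≠ 0)
    (hAB : A ^ 2 - 4 * B ≠ 0) {d : ℕ} (hd : d ≠ 0) :
    (cv k (A * d) (B * d ^ 2)).IsElliptic := by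
  have hd' : (d : ℤ) ≠ 0 := by exact_mod_cast hd
  refine cv_ell (mul_ne_zero hB (pow_ne_zero 2 hd')) ?_
  have : (A * d) ^ 2 - 4 * (B * (d : ℤ) ^ 2) = (A ^ 2 - 4 * B) * (d : ℤ) ^ 2 := by ring
  rw [this]
  exact mul_ne_zero hAB (pow_ne_zero 2 hd')

theorem normal_quad {K L : Type} [Field K] [Field L] [Algebra K L] {s : L} {c : K}
    (hs : s ^ 2 = algebraMap K L c)
    (hgen : ∀ x : L, ∃ a b : K, x = algebraMap K L a + algebraMap K L b * s) : Normal K L := by
  rw [normal_iff]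
  intro x
  obtain ⟨a, b, hx⟩ := hgen x
  set P : Polynomial K := (Polynomial.X - Polynomial.C a) ^ 2 - Polynomial.C (b ^ 2 * c) with hP
  have hmonic : P.Monic := by
    have h1 : ((Polynomial.X - Polynomial.C a) ^ 2 : Polynomial K).Monic :=
      (Polynomial.monic_X_sub_C a).pow 2
    refine h1.sub_of_left ?_
    rw [Polynomial.degree_pow, Polynomial.degree_X_sub_C]
    refine lt_of_le_of_lt Polynomial.degree_C_le ?_
    norm_num
  have hfac : P.map (algebraMap K L) =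
      (Polynomial.X - Polynomial.C x) *
        (Polynomial.X - Polynomial.C (algebraMap K L a - algebraMap K L b * s)) := by
    rw [hP]
    simp only [Polynomial.map_sub, Polynomial.map_pow, Polynomial.map_X, Polynomial.map_C]
    have h2 : algebraMap K L (b ^ 2 * c) = (algebraMap K L b * s) ^ 2 := by
      rw [map_mul, map_pow, mul_pow, hs]
    rw [h2, hx]
    simp only [Polynomial.C_add, Polynomial.C_sub, Polynomial.C_pow]
    ring
  have haeval : Polynomial.aeval x P = 0 := by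
    rw [Polynomial.aeval_def, ← Polynomial.eval_map, hfac]
    simp
  refine ⟨⟨P, hmonic, haeval⟩, ?_⟩
  have hdvd : minpoly K x ∣ P := minpoly.dvd K x haeval
  have hsp : (P.map (algebraMap K L)).Splits := by
    rw [hfac]
    exact (Polynomial.Splits.X_sub_C _).mul (Polynomial.Splits.X_sub_C _)
  exact hsp.of_dvd (hmonic.map _).ne_zero (Polynomial.map_dvd _ hdvd)

theorem goodD_step {D : Set ℕ} (hD : Mul2 D) {A B : ℤ} (hB : B ≠ 0) (hAB : A ^ 2 - 4 * B ≠ 0)
    {K L : Type} [Field K] [NumberField K] [Field L] [NumberField L] [Algebra K L] {d₀ : ℕ}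
    (hd₀ : d₀ ∈ D) {s : L} (hs : s ^ 2 = (d₀ : L))
    (hgen : ∀ x : L, ∃ a b : K, x = algebraMap K L a + algebraMap K L b * s)
    (H : GoodD D A B K) : GoodD D A B L := by
  have hnorm : Normal K L := normal_quad (c := (d₀ : K)) (by rw [hs, map_natCast]) hgen
  have hs0 : s ≠ 0 := by
    intro h0
    rw [h0, zero_pow two_ne_zero] at hs
    exact hD.ne d₀ hd₀ (by exact_mod_cast hs.symm)
  have hsig : ∀ σ : L ≃ₐ[K] L, σ s = s ∨ σ s = -s := by
    intro σ
    have h1 : (σ s) ^ 2 = s ^ 2 := by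
      rw [← map_pow, hs, map_natCast]
    exact sq_eq_sq_iff_eq_or_eq_neg.1 h1
  have hfix : ∀ σ : L ≃ₐ[K] L, σ s = s → σ = 1 := by
    intro σ h1
    ext x
    obtain ⟨a, b, hx⟩ := hgen x
    rw [hx, map_add, map_mul, AlgEquiv.commutes, AlgEquiv.commutes, h1]
    simp
  intro d hd
  obtain ⟨d', hd', c, hc, hrel⟩ := hD.mul d hd d₀ hd₀
  have hc0 : (c : L) ≠ 0 := by exact_mod_cast hc
  set s' : L := s / c with hs'
  have hs'0 : s' ≠ 0 := div_ne_zero hs0 hc0
  have hdd : (d' : L) = s' ^ 2 * (d : L) := by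
    have h1 : ((d * d₀ : ℕ) : L) = ((d' * c ^ 2 : ℕ) : L) := by rw [hrel]
    push_cast at h1
    rw [hs', div_pow, hs]
    field_simp
    linear_combination -h1
  have hR : Rsc s' (cv L (A * d) (B * d ^ 2)) (cv L (A * d') (B * d' ^ 2)) := by
    refine ⟨hs'0, ?_, ?_, ?_, ?_, ?_⟩
    · show (0 : L) = s' * 0
      rw [mul_zero]
    · show ((A * d' : ℤ) : L) = s' ^ 2 * ((A * d : ℤ) : L)
      push_cast
      rw [hdd]
      ring
    · show (0 : L) = s' ^ 3 * 0
      rw [mul_zero]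
    · show ((B * d' ^ 2 : ℤ) : L) = s' ^ 4 * ((B * d ^ 2 : ℤ) : L)
      push_cast
      rw [hdd]
      ring
    · show (0 : L) = s' ^ 6 * 0
      rw [mul_zero]
  have hcσ : ∀ σ : L ≃ₐ[K] L, σ s' = σ s / c := by
    intro σ
    rw [hs', map_div₀, map_natCast]
  have hσ : ∀ σ : L ≃ₐ[K] L, σ = 1 ∨ σ s' = -s' := by
    intro σ
    rcases hsig σ with h1 | h1
    · exact Or.inl (hfix σ h1)
    · right
      rw [hcσ, h1, hs', neg_div]
  have huniq : ∀ σ τ : L ≃ₐ[K] L, σ s' = -s' → τ s' = -s' → σ = τ := by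
    intro σ τ h1 h2
    have h3 : ∀ ρ : L ≃ₐ[K] L, ρ s' = -s' → ρ s = -s := by
      intro ρ h4
      rw [hcσ, hs', ← neg_div, div_left_inj' hc0] at h4
      exact h4
    ext x
    obtain ⟨a, b, hx⟩ := hgen x
    rw [hx, map_add, map_mul, map_add, map_mul, AlgEquiv.commutes, AlgEquiv.commutes,
      AlgEquiv.commutes, AlgEquiv.commutes, h3 σ h1, h3 τ h2]
  have hell : (cv L (A * d) (B * d ^ 2)).IsElliptic := cvd_ell hB hAB (hD.ne d hd)
  exact ⟨bdd_step (cv_map (algebraMap K L) _ _) (cv_map (algebraMap K L) _ _) hR hσ huniq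
      (H d hd).1 (H d' hd').1,
    fin_step (cv_map (algebraMap K L) _ _) (cv_map (algebraMap K L) _ _) hR hσ huniq
      (H d hd).2 (H d' hd').2⟩

theorem goodD_triv {D : Set ℕ} (hD : Mul2 D) {A B : ℤ} (hB : B ≠ 0) (hAB : A ^ 2 - 4 * B ≠ 0)
    {K L : Type} [Field K] [NumberField K] [Field L] [NumberField L] [Algebra K L]
    (hs : Function.Surjective (algebraMap K L)) (H : GoodD D A B K) : GoodD D A B L := by
  refine goodD_step hD hB hAB (K := K) (L := L) hD.one (s := 1) (by simp) ?_ H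
  intro x
  obtain ⟨a, ha⟩ := hs x
  exact ⟨a, 0, by simp [ha]⟩

/-- the field `F + F r` for `r ^ 2 ∈ F` -/
def ext2 {E : Type*} [Field E] [CharZero E] (F : IntermediateField ℚ E) (r : E) (hr : r ^ 2 ∈ F) :
    IntermediateField ℚ E where
  carrier := {x | ∃ a ∈ F, ∃ b ∈ F, x = a + b * r}
  mul_mem' := by
    rintro x y ⟨a, ha, b, hb, rfl⟩ ⟨c, hc, d, hd, rfl⟩
    refine ⟨a * c + b * d * r ^ 2, F.add_mem (F.mul_mem ha hc) (F.mul_mem (F.mul_mem hb hd) hr),
      a * d + b * c, F.add_mem (F.mul_mem ha hd) (F.mul_mem hb hc), by ring⟩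
  one_mem' := ⟨1, F.one_mem, 0, F.zero_mem, by ring⟩
  add_mem' := by
    rintro x y ⟨a, ha, b, hb, rfl⟩ ⟨c, hc, d, hd, rfl⟩
    exact ⟨a + c, F.add_mem ha hc, b + d, F.add_mem hb hd, by ring⟩
  zero_mem' := ⟨0, F.zero_mem, 0, F.zero_mem, by ring⟩
  algebraMap_mem' := by
    intro c
    exact ⟨algebraMap ℚ E c, F.algebraMap_mem c, 0, F.zero_mem, by ring⟩
  inv_mem' := by
    rintro x ⟨a, ha, b, hb, rfl⟩
    by_cases h0 : a + b * r = 0
    · exact ⟨0, F.zero_mem, 0, F.zero_mem, by rw [h0]; simp⟩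
    · by_cases h1 : a - b * r = 0
      · have h2 : a + b * r = 2 * a := by linear_combination -h1
        refine ⟨(2 * a)⁻¹, F.inv_mem (F.mul_mem ?_ ha), 0, F.zero_mem, by rw [h2]; ring⟩
        have : ((2 : ℕ) : E) ∈ F := natCast_mem F 2
        exact_mod_cast this
      · have h3 : a ^ 2 - b ^ 2 * r ^ 2 ≠ 0 := by
          have : a ^ 2 - b ^ 2 * r ^ 2 = (a + b * r) * (a - b * r) := by ring
          rw [this]
          exact mul_ne_zero h0 h1
        have hm : a ^ 2 - b ^ 2 * r ^ 2 ∈ F :=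
          F.sub_mem (pow_mem ha 2) (F.mul_mem (pow_mem hb 2) hr)
        refine ⟨a * (a ^ 2 - b ^ 2 * r ^ 2)⁻¹, F.mul_mem ha (F.inv_mem hm),
          -b * (a ^ 2 - b ^ 2 * r ^ 2)⁻¹, F.mul_mem (F.neg_mem hb) (F.inv_mem hm), ?_⟩
        have h4 : a * (a ^ 2 - b ^ 2 * r ^ 2)⁻¹ + -b * (a ^ 2 - b ^ 2 * r ^ 2)⁻¹ * r =
            (a - b * r) * (a ^ 2 - b ^ 2 * r ^ 2)⁻¹ := by ring
        rw [h4]
        have h5 : a ^ 2 - b ^ 2 * r ^ 2 = (a + b * r) * (a - b * r) := by ring
        rw [h5, mul_inv]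
        field_simp

/-- `F` is a number field and good. -/
def GoodF (D : Set ℕ) (A B : ℤ) (F : IntermediateField ℚ (AlgebraicClosure ℚ)) : Prop :=
  ∃ _ : NumberField F, GoodD D A B F

theorem goodF_adjoin {D : Set ℕ} (hD : Mul2 D) {A B : ℤ} (hB : B ≠ 0) (hAB : A ^ 2 - 4 * B ≠ 0)
    {F : IntermediateField ℚ (AlgebraicClosure ℚ)} (hF : GoodF D A B F)
    {t : AlgebraicClosure ℚ} {d : ℕ} (hd : d ∈ D) (ht : t ^ 2 = (d : AlgebraicClosure ℚ)) :
    ∃ F' : IntermediateField ℚ (AlgebraicClosure ℚ), F ≤ F' ∧ t ∈ F' ∧ GoodF D A B F' := by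
  obtain ⟨hN, hF⟩ := hF
  have htF : t ^ 2 ∈ F := by
    rw [ht]
    exact natCast_mem F d
  have hle : F ≤ ext2 F t htF := fun x hx => ⟨x, hx, 0, F.zero_mem, by ring⟩
  have htm : t ∈ ext2 F t htF := ⟨0, F.zero_mem, 1, F.one_mem, by ring⟩
  letI : Algebra F (ext2 F t htF) := (IntermediateField.inclusion hle).toRingHom.toAlgebra
  have hsc : IsScalarTower ℚ F (ext2 F t htF) := by
    refine IsScalarTower.of_algebraMap_eq fun x => ?_
    rfl
  have hgen : ∀ x : ext2 F t htF, ∃ a b : F,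
      x = algebraMap F (ext2 F t htF) a + algebraMap F (ext2 F t htF) b * ⟨t, htm⟩ := by
    rintro ⟨x, a, ha, b, hb, hx⟩
    exact ⟨⟨a, ha⟩, ⟨b, hb⟩, Subtype.ext hx⟩
  have hfin : Module.Finite F (ext2 F t htF) := by
    refine ⟨⟨{1, ⟨t, htm⟩}, ?_⟩⟩
    rw [eq_top_iff]
    intro x _
    obtain ⟨a, b, hx⟩ := hgen x
    rw [hx, ← mul_one (algebraMap F (ext2 F t htF) a), ← Algebra.smul_def, ← Algebra.smul_def]
    refine Submodule.add_mem _ (Submodule.smul_mem _ _ (Submodule.subset_span ?_))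
      (Submodule.smul_mem _ _ (Submodule.subset_span ?_))
    · simp
    · simp
  have hfinQ : FiniteDimensional ℚ (ext2 F t htF) := Module.Finite.trans F _
  haveI hN' : NumberField (ext2 F t htF) :=
    { to_charZero := inferInstance, to_finiteDimensional := hfinQ }
  refine ⟨ext2 F t htF, hle, htm, hN', ?_⟩
  refine goodD_step hD hB hAB (K := F) (L := ext2 F t htF) hd (s := ⟨t, htm⟩) ?_ hgen hF
  apply Subtype.ext
  push_cast
  exact ht

theorem goodF_finset {D : Set ℕ} (hD : Mul2 D) {A B : ℤ} (hB : B ≠ 0) (hAB : A ^ 2 - 4 * B ≠ 0)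
    {F : IntermediateField ℚ (AlgebraicClosure ℚ)} (hF : GoodF D A B F)
    (T : Finset (AlgebraicClosure ℚ))
    (hT : ∀ t ∈ T, ∃ d ∈ D, t ^ 2 = (d : AlgebraicClosure ℚ)) :
    ∃ F' : IntermediateField ℚ (AlgebraicClosure ℚ), F ≤ F' ∧ (∀ t ∈ T, t ∈ F') ∧
      GoodF D A B F' := by
  induction T using Finset.induction_on with
  | empty => exact ⟨F, le_rfl, by simp, hF⟩
  | insert t T _ ih =>
    obtain ⟨F', h1, h2, h3⟩ := ih fun t ht => hT t (Finset.mem_insert_of_mem ht)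
    obtain ⟨d, hd, ht⟩ := hT t (Finset.mem_insert_self t T)
    obtain ⟨F'', h4, h5, h6⟩ := goodF_adjoin hD hB hAB h3 hd ht
    refine ⟨F'', h1.trans h4, ?_, h6⟩
    intro x hx
    rcases Finset.mem_insert.1 hx with rfl | hx
    · exact h5
    · exact h4 (h2 x hx)

/-- Every element of the compositum lies in a good number field. -/
theorem goodF_mem {D : Set ℕ} (hD : Mul2 D) {A B : ℤ} (hB : B ≠ 0) (hAB : A ^ 2 - 4 * B ≠ 0)
    {F : IntermediateField ℚ (AlgebraicClosure ℚ)} (hF : GoodF D A B F)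
    (T : Finset (AlgebraicClosure ℚ)) (hT : ∀ t ∈ T, t ∈ F ⊔ Mf D) :
    ∃ F' : IntermediateField ℚ (AlgebraicClosure ℚ), F ≤ F' ∧ (∀ t ∈ T, t ∈ F') ∧
      GoodF D A B F' := by
  induction T using Finset.induction_on with
  | empty => exact ⟨F, le_rfl, by simp, hF⟩
  | insert x T _ ih =>
    obtain ⟨F', h1, h2, h3⟩ := ih fun t ht => hT t (Finset.mem_insert_of_mem ht)
    have hx : x ∈ IntermediateField.adjoin ℚ
        ((F : Set (AlgebraicClosure ℚ)) ∪ {x | ∃ d ∈ D, x ^ 2 = (d : AlgebraicClosure ℚ)}) := by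
      have h := hT x (Finset.mem_insert_self x T)
      rw [IntermediateField.adjoin_union, IntermediateField.adjoin_self]
      exact h
    obtain ⟨U, hU, hxU⟩ := IntermediateField.exists_finset_of_mem_adjoin hx
    obtain ⟨F'', h4, h5, h6⟩ := goodF_finset hD hB hAB h3
      (U.filter fun t => ∃ d ∈ D, t ^ 2 = (d : AlgebraicClosure ℚ))
      (fun t ht => (Finset.mem_filter.1 ht).2)
    refine ⟨F'', h1.trans h4, ?_, h6⟩
    intro y hy
    rcases Finset.mem_insert.1 hy with rfl | hy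
    · have hle : IntermediateField.adjoin ℚ (U : Set (AlgebraicClosure ℚ)) ≤ F'' := by
        rw [IntermediateField.adjoin_le_iff]
        intro u hu
        rcases hU hu with h7 | h7
        · exact h4 (h1 h7)
        · exact h5 u (Finset.mem_filter.2 ⟨hu, h7⟩)
      exact hle hxU
    · exact h4 (h2 y hy)

lemma bdd_of_sha2 {K : Type} [Field K] [NumberField K] {W : WeierstrassCurve K}
    (h : Sha2Trivial K W) : Bdd K W := by
  refine ⟨0, ?_⟩
  rintro x ⟨m, hm⟩
  obtain ⟨f, rfl⟩ := Sha.mk_surjective x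
  rw [pow_zero, one_nsmul, Sha.mk_eq_zero]
  rw [← Sha.mk_nsmul, Sha.mk_eq_zero] at hm
  exact h f.1 f.2.1 f.2.2 ⟨m, hm⟩

lemma goodD_of_triv {D : Set ℕ} {A B : ℤ} {K : Type} [Field K] [NumberField K]
    (h : ∀ d ∈ D, H38T1.Triv K ((A * d : ℤ) : K) ((B * d ^ 2 : ℤ) : K)) : GoodD D A B K :=
  fun d hd => ⟨bdd_of_sha2 (h d hd).1, (h d hd).2⟩

/-- From `K` to its image in the algebraic closure. -/
theorem goodF_range {D : Set ℕ} (hD : Mul2 D) {A B : ℤ} (hB : B ≠ 0) (hAB : A ^ 2 - 4 * B ≠ 0)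
    {K : Type} [Field K] [NumberField K] (H : GoodD D A B K) (i : K →ₐ[ℚ] AlgebraicClosure ℚ) :
    GoodF D A B i.fieldRange := by
  letI : Algebra K i.fieldRange := i.rangeRestrict.toRingHom.toAlgebra
  have hsurj : Function.Surjective (algebraMap K i.fieldRange) := i.rangeRestrict_surjective
  have hfin : FiniteDimensional ℚ i.fieldRange := by
    have h1 : Module.Finite ℚ K := inferInstance
    exact Module.Finite.of_surjective i.rangeRestrict.toLinearMap i.rangeRestrict_surjective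
  haveI hN : NumberField i.fieldRange :=
    { to_charZero := inferInstance, to_finiteDimensional := hfin }
  exact ⟨hN, goodD_triv hD hB hAB (K := K) (L := i.fieldRange) hsurj H⟩

theorem multi_sha {K L : Type} [Field K] [NumberField K] [Field L] [NumberField L] {D : Set ℕ}
    (hD : Mul2 D) {A B : ℤ} (hB : B ≠ 0) (hAB : A ^ 2 - 4 * B ≠ 0)
    (H : GoodD D A B K) (i : K →ₐ[ℚ] AlgebraicClosure ℚ) (j : L →ₐ[ℚ] AlgebraicClosure ℚ)
    (hij : j.fieldRange ≤ i.fieldRange ⊔ Mf D) (d : ℕ) (hd : d ∈ D) :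
    {x : Sha L (cv L (A * d) (B * d ^ 2)) | ∃ m : ℕ, 2 ^ m • x = 0}.Finite ∧
      Finite (cv L (A * d) (B * d ^ 2)).toAffine.Point := by
  obtain ⟨α, hα⟩ := Field.exists_primitive_element ℚ L
  obtain ⟨F', -, h2, hN, hG⟩ := goodF_mem hD hB hAB (goodF_range hD hB hAB H i) {j α} (by
    intro t ht
    rw [Finset.mem_singleton] at ht
    subst ht
    exact hij ⟨α, rfl⟩)
  have hle : ∀ x : L, j x ∈ F' := by
    have h3 : IntermediateField.adjoin ℚ {α} ≤ F'.comap j := by
      rw [IntermediateField.adjoin_le_iff]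
      intro y hy
      rw [Set.mem_singleton_iff] at hy
      subst hy
      exact h2 _ (Finset.mem_singleton_self _)
    rw [hα] at h3
    exact fun x => h3 (IntermediateField.mem_top (x := x))
  let g : L →+* F' := (j : L →+* AlgebraicClosure ℚ).codRestrict F' hle
  letI : Algebra L F' := g.toAlgebra
  haveI : FiniteDimensional L F' := Module.Finite.of_restrictScalars_finite ℚ L F'
  obtain ⟨⟨N, hNb⟩, hfinF⟩ := hG d hd
  have hV : (cv L (A * d) (B * d ^ 2)).map (algebraMap L F') = cv F' (A * d) (B * d ^ 2) :=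
    cv_map _ _ _
  have hfr : Module.finrank L F' ≠ 0 := Module.finrank_pos.ne'
  haveI : (cv L (A * d) (B * d ^ 2)).IsElliptic := cvd_ell hB hAB (hD.ne d hd)
  constructor
  · refine (sha_finite_torsion (cv L (A * d) (B * d ^ 2)) (2 ^ N * Module.finrank L F')
      (mul_ne_zero (by positivity) hfr)).subset ?_
    rintro x ⟨m, hm⟩
    have h1 : 2 ^ N • Sha.res hV x = 0 := by
      refine hNb _ ⟨m, ?_⟩
      rw [← map_nsmul, hm, map_zero]
    have h2 := congrArg (Sha.cor hV) h1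
    rw [map_nsmul, map_zero, Sha.cor_res, ← mul_nsmul'] at h2
    exact h2
  · exact Finite.of_injective (pm (algebraMap L F') hV) (pm_injective _ hV)

/-- **S5.** -/
theorem multi {K L : Type} [Field K] [NumberField K] [Field L] [NumberField L] {D : Set ℕ}
    (hD : Mul2 D) {A B : ℤ} (hB : B ≠ 0) (hAB : A ^ 2 - 4 * B ≠ 0)
    (h : ∀ d ∈ D, H38T1.Triv K ((A * d : ℤ) : K) ((B * d ^ 2 : ℤ) : K))
    (i : K →ₐ[ℚ] AlgebraicClosure ℚ) (j : L →ₐ[ℚ] AlgebraicClosure ℚ)
    (hij : j.fieldRange ≤ i.fieldRange ⊔ Mf D) :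
    TwoPartFinite L (cv L A B) ∧ Finite (cv L A B).toAffine.Point := by
  obtain ⟨h1, h2⟩ := multi_sha hD hB hAB (goodD_of_triv h) i j hij 1 hD.one
  have e : cv L (A * (1 : ℕ)) (B * (1 : ℕ) ^ 2) = cv L A B := by simp
  rw [e] at h1 h2
  exact ⟨twoPartFinite_of h1, h2⟩

/-- Every point over the compositum is torsion. -/
theorem tors_comp {K : Type} [Field K] [NumberField K] {D : Set ℕ} (hD : Mul2 D) {A B : ℤ}
    (hB : B ≠ 0) (hAB : A ^ 2 - 4 * B ≠ 0) (H : GoodD D A B K)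
    (i : K →ₐ[ℚ] AlgebraicClosure ℚ)
    (P : (cv (i.fieldRange ⊔ Mf D : IntermediateField ℚ (AlgebraicClosure ℚ)) A
      B).toAffine.Point) : ∃ n : ℕ, n ≠ 0 ∧ n • P = 0 := by
  rcases P with _ | ⟨x, y, hxy⟩
  · exact ⟨1, one_ne_zero, one_nsmul 0⟩
  · obtain ⟨F', -, h2, hN, hG⟩ := goodF_mem hD hB hAB (goodF_range hD hB hAB H i)
      {(x : AlgebraicClosure ℚ), (y : AlgebraicClosure ℚ)} (by
        intro t ht
        rcases Finset.mem_insert.1 ht with rfl | ht
        · exact x.2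
        · rw [Finset.mem_singleton] at ht
          subst ht
          exact y.2)
    have hx' := h2 x (Finset.mem_insert_self _ _)
    have hy' := h2 y (Finset.mem_insert_of_mem (Finset.mem_singleton_self _))
    have hfin : Finite (cv F' A B).toAffine.Point := by
      have h3 := (hG 1 hD.one).2
      have e : cv F' (A * (1 : ℕ)) (B * (1 : ℕ) ^ 2) = cv F' A B := by simp
      rwa [e] at h3
    have hns' : (cv (AlgebraicClosure ℚ) A B).toAffine.Nonsingular
        (x : AlgebraicClosure ℚ) (y : AlgebraicClosure ℚ) :=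
      (cv_nonsing (algebraMap (i.fieldRange ⊔ Mf D : IntermediateField ℚ (AlgebraicClosure ℚ))
          (AlgebraicClosure ℚ))).2 hxy
    have hns : (cv F' A B).toAffine.Nonsingular ⟨x, hx'⟩ ⟨y, hy'⟩ :=
      (cv_nonsing (algebraMap F' (AlgebraicClosure ℚ))).1 hns'
    obtain ⟨m, hm0, hm⟩ := isOfFinAddOrder_iff_nsmul_eq_zero.1
      (isOfFinAddOrder_of_finite (Affine.Point.some _ _ hns))
    refine ⟨m, hm0.ne', ?_⟩
    have hinj := pm_injective (algebraMap (i.fieldRange ⊔ Mf D : IntermediateField ℚ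
      (AlgebraicClosure ℚ)) (AlgebraicClosure ℚ)) (cv_map _ A B)
    apply hinj
    rw [map_nsmul, map_zero]
    have e1 : pm (algebraMap (i.fieldRange ⊔ Mf D : IntermediateField ℚ
        (AlgebraicClosure ℚ)) (AlgebraicClosure ℚ)) (cv_map _ A B) (.some x y hxy) =
        pm (algebraMap F' (AlgebraicClosure ℚ)) (cv_map _ A B) (.some _ _ hns) := rfl
    rw [e1, ← map_nsmul, hm, map_zero]

end H14T1

end S_H14_T1_Mu
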