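import Mathlib
import Pool.Agent.H76.PN.A4
import Pool.Agent.H76.PN.A5
import Pool.Agent.H76.PN.N3
import Pool.Agent.H76.MP.M1

/-! This file joins several modules to save build time (M2). -/

set_option autoImplicit false

section S_H76_MQ_Aa

set_option autoImplicit false
set_option linter.unusedSectionVars false
open scoped Classical

open WithZero NumberField IsDedekindDomain H38RT
open H38T1 (SC sc scu rep eo la si Pri OddP tp unif ka)
open H76PP

namespace H76MQ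

variable {K L : Type} [Field K] [NumberField K] [Field L] [NumberField L] [Algebra K L]

private theorem Aa_norm (v : HeightOneSpectrum (𝓞 K)) {u : L} (hu : u ≠ 0) :
    ord (v.valuation K) (Algebra.norm K u) =
      ∑ w ∈ (fin_above (L := L) v).toFinset,
        (w.asIdeal.inertiaDeg (𝓞 K) : ℤ) * ord (w.valuation L) u := by
  rw [ord_norm v hu, ← finsum_mem_eq_finite_toFinset_sum (fun w : HeightOneSpectrum (𝓞 L) =>
      (w.asIdeal.inertiaDeg (𝓞 K) : ℤ) * ord (w.valuation L) u) (fin_above (L := L) v)]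
  exact finsum_set_coe_eq_finsum_mem {w : HeightOneSpectrum (𝓞 L) | dn K w = v}
      (f := fun w => (w.asIdeal.inertiaDeg (𝓞 K) : ℤ) * ord (w.valuation L) u)

private theorem Aa_res {w : HeightOneSpectrum (𝓞 L)} (hf : w.asIdeal.inertiaDeg (𝓞 K) = 1) {y : L}
    (hy : w.valuation L y ≤ 1) : ∃ x : K, (dn K w).valuation K x ≤ 1 ∧
      w.valuation L (y - algebraMap K L x) < 1 := by
  have hm1 := w.isMaximal
  have hm2 := (dn K w).isMaximal
  have hl : w.asIdeal.LiesOver (dn K w).asIdeal := ⟨rfl⟩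
  rw [Ideal.inertiaDeg_eq_of_isMaximal (dn K w).asIdeal w.asIdeal] at hf
  obtain ⟨b, hb⟩ := w.exists_valuation_sub_lt_of_integer hy
    (Units.mk0 (1 : WithZero (Multiplicative ℤ)) one_ne_zero)
  have hb' : w.valuation L ((b : L) - y) < 1 := hb
  obtain ⟨c, hc⟩ := (finrank_eq_one_iff_of_nonzero' (1 : 𝓞 L ⧸ w.asIdeal) one_ne_zero).1 hf
    (Ideal.Quotient.mk _ b)
  obtain ⟨s, rfl⟩ := Ideal.Quotient.mk_surjective c
  rw [Algebra.smul_def, mul_one] at hc
  have hc' : Ideal.Quotient.mk w.asIdeal (algebraMap (𝓞 K) (𝓞 L) s) = Ideal.Quotient.mk w.asIdeal b := hc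
  have h1 : b - algebraMap (𝓞 K) (𝓞 L) s ∈ w.asIdeal := Ideal.Quotient.eq.1 hc'.symm
  have h2 : w.valuation L (algebraMap (𝓞 L) L (b - algebraMap (𝓞 K) (𝓞 L) s)) < 1 :=
    (w.valuation_lt_one_iff_mem (K := L) _).2 h1
  refine ⟨(s : K), (dn K w).valuation_le_one s, ?_⟩
  have h3 : y - algebraMap K L (s : K) =
      algebraMap (𝓞 L) L (b - algebraMap (𝓞 K) (𝓞 L) s) - ((b : L) - y) := by
    rw [map_sub (algebraMap (𝓞 L) L)]
    change y - algebraMap K L (s : K) = (b : L) - algebraMap K L (s : K) - ((b : L) - y)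
    ring
  rw [h3]
  exact (Valuation.map_sub _ _ _).trans_lt (max_lt h2 hb')

private theorem Aa_lt {w : HeightOneSpectrum (𝓞 L)} {x : K}
    (h : w.valuation L (algebraMap K L x) < 1) : (dn K w).valuation K x < 1 := by
  by_contra hn
  rw [not_lt] at hn
  have hx : x ≠ 0 := by
    rintro rfl
    rw [map_zero] at hn
    exact absurd hn (not_le.2 zero_lt_one)
  have h1 : (dn K w).valuation K x⁻¹ ≤ 1 := by
    rw [map_inv₀]
    exact inv_le_one_of_one_le₀ hn
  have h2 := val_le (w := w) h1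
  rw [map_inv₀, map_inv₀] at h2
  have h0 : w.valuation L (algebraMap K L x) ≠ 0 :=
    (Valuation.ne_zero_iff _).2 ((map_ne_zero _).2 hx)
  have h3 : (1 : WithZero (Multiplicative ℤ)) < (w.valuation L (algebraMap K L x))⁻¹ :=
    (one_lt_inv₀ (zero_lt_iff.2 h0)).2 h
  exact absurd h2 (not_le.2 h3)

private theorem Aa_le_neg {x : WithZero (Multiplicative ℤ)} {m : ℤ} (h : x < exp (-m)) :
    x ≤ exp (-(m + 1)) := by
  rcases eq_or_ne x 0 with rfl | h0
  · exact zero_le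
  rw [← exp_log h0, exp_lt_exp] at h
  rw [← exp_log h0, exp_le_exp]
  omega

theorem exists_TwA {A B : 𝓞 K} {θ : L} (h : Cub K L (A : K) (B : K) θ)
    {v : HeightOneSpectrum (𝓞 K)} (h6 : (6 : 𝓞 K) ∉ v.asIdeal) (ht : AuxT v A B) :
    ∃ (w₁ w₂ : HeightOneSpectrum (𝓞 L)) (r : K), TwA K θ v w₁ w₂ r := by
  obtain ⟨r, hr1, hr2, hr3⟩ := ht
  -- the elements of `K`
  have hint : ∀ x : 𝓞 K, v.valuation K (x : K) ≤ 1 := fun x => v.valuation_le_one x
  have hpow : ∀ (x : 𝓞 K) (n : ℕ), v.valuation K (x : K) ≤ exp (-(n : ℤ)) ↔ x ∈ v.asIdeal ^ n := by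
    intro x n
    rw [← v.intValuation_le_pow_iff_mem, ← v.valuation_of_algebraMap (K := K)]
  obtain ⟨f, hf⟩ : ∃ f : 𝓞 K, f = r ^ 3 + A * r + B := ⟨_, rfl⟩
  obtain ⟨g, hg⟩ : ∃ g : 𝓞 K, g = 3 * r ^ 2 + A := ⟨_, rfl⟩
  rw [← hf] at hr2
  rw [← hf] at hr3
  rw [← hg] at hr1
  have hfK : (f : K) = (r : K) ^ 3 + (A : K) * (r : K) + (B : K) := by
    rw [hf]
    rfl
  have hgK : (g : K) = 3 * (r : K) ^ 2 + (A : K) := by
    rw [hg]
    change algebraMap (𝓞 K) K (3 * r ^ 2 + A) = _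
    rw [map_add, map_mul, map_pow, map_ofNat]
  have h3K : ((3 : 𝓞 K) : K) = 3 := by
    change algebraMap (𝓞 K) K 3 = 3
    rw [map_ofNat]
  have hvg : v.valuation K (g : K) ≤ exp (-(2 : ℤ)) := by
    have h1 := (hpow g 2).2 hr1
    exact_mod_cast h1
  have hvf1 : v.valuation K (f : K) ≤ exp (-(2 : ℤ)) := by
    have h1 := (hpow f 2).2 hr2
    exact_mod_cast h1
  have h3rf : exp (-(3 : ℤ)) < v.valuation K (3 * (r : K) * (f : K)) := by
    have h1 := hr3 0
    rw [← hpow, not_le] at h1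
    have h2 : ((3 * r * f + 0 ^ 2 : 𝓞 K) : K) = 3 * (r : K) * (f : K) := by
      change algebraMap (𝓞 K) K (3 * r * f + 0 ^ 2) = _
      rw [zero_pow two_ne_zero, add_zero, map_mul, map_mul, map_ofNat]
    rw [h2] at h1
    exact_mod_cast h1
  have hv3r1 : v.valuation K (3 * (r : K)) ≤ 1 := by
    rw [map_mul, ← h3K]
    exact mul_le_one' (hint 3) (hint r)
  have hf0 : v.valuation K (f : K) ≠ 0 := by
    intro h0
    rw [map_mul, h0, mul_zero] at h3rf
    exact absurd h3rf (not_lt.2 zero_le)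
  have hvf : v.valuation K (f : K) = exp (-(2 : ℤ)) := by
    refine le_antisymm hvf1 ?_
    rw [← not_lt]
    intro h1
    have h2 := Aa_le_neg h1
    rw [map_mul] at h3rf
    refine absurd h3rf (not_lt.2 ?_)
    exact (mul_le_of_le_one_left' hv3r1).trans h2
  have hv3r : v.valuation K (3 * (r : K)) = 1 := by
    refine le_antisymm hv3r1 ?_
    rw [← not_lt]
    intro h1
    have h2 : v.valuation K (3 * (r : K)) ≤ exp (-(1 : ℤ)) := by
      have h1' : v.valuation K (3 * (r : K)) < exp (-(0 : ℤ)) := by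
        rw [neg_zero, exp_zero]
        exact h1
      have h3 := Aa_le_neg h1'
      rwa [zero_add] at h3
    rw [map_mul, hvf] at h3rf
    refine absurd h3rf (not_lt.2 ?_)
    refine (mul_le_mul_left h2 _).trans ?_
    rw [← exp_add]
    norm_num
  have hv3 : v.valuation K (3 : K) = 1 ∧ v.valuation K (r : K) = 1 := by
    rw [map_mul] at hv3r
    have h1 := hint 3
    rw [h3K] at h1
    have h2 := hint r
    constructor
    · refine le_antisymm h1 ?_
      rw [← hv3r]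
      exact mul_le_of_le_one_right' h2
    · refine le_antisymm h2 ?_
      rw [← hv3r]
      exact mul_le_of_le_one_left' h1
  obtain ⟨hv3, hvr⟩ := hv3
  -- a uniformizer
  obtain ⟨ϖ, hϖ⟩ := v.valuation_exists_uniformizer K
  have hϖ' : v.valuation K ϖ = exp (-(1 : ℤ)) := hϖ
  have hϖ0 : ϖ ≠ 0 := by
    rintro rfl
    rw [map_zero] at hϖ'
    exact exp_ne_zero hϖ'.symm
  have hϖlt : v.valuation K ϖ < 1 := by
    rw [hϖ', ← exp_zero, exp_lt_exp]
    norm_num
  -- the non-square condition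
  have hns : ∀ x : K, v.valuation K x ≤ 1 → ¬ v.valuation K (3 * (r : K) * (f : K) + x ^ 2) ≤ exp (-(3 : ℤ)) := by
    intro x hx hcon
    obtain ⟨b, hb⟩ := v.exists_valuation_sub_lt_of_integer hx
      (Units.mk0 (exp (-(3 : ℤ)) : WithZero (Multiplicative ℤ)) exp_ne_zero)
    have hb' : v.valuation K ((b : K) - x) < exp (-(3 : ℤ)) := hb
    apply hr3 b
    rw [← hpow]
    have h2 : ((3 * r * f + b ^ 2 : 𝓞 K) : K) = (3 * (r : K) * (f : K) + x ^ 2) +
        ((b : K) - x) * ((b : K) + x) := by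
      change algebraMap (𝓞 K) K (3 * r * f + b ^ 2) = _
      rw [map_add, map_mul, map_mul, map_ofNat, map_pow]
      change 3 * (r : K) * (f : K) + (b : K) ^ 2 = _
      ring
    rw [h2]
    have h3 : v.valuation K ((b : K) + x) ≤ 1 :=
      (Valuation.map_add _ _ _).trans (max_le (hint b) hx)
    have h4 : v.valuation K (((b : K) - x) * ((b : K) + x)) ≤ exp (-(3 : ℤ)) := by
      rw [map_mul]
      exact (mul_le_of_le_one_right' h3).trans hb'.le
    have h5 := (Valuation.map_add (v.valuation K) (3 * (r : K) * (f : K) + x ^ 2)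
      (((b : K) - x) * ((b : K) + x))).trans (max_le hcon h4)
    exact_mod_cast h5
  -- elements of `L`
  obtain ⟨u, hu⟩ : ∃ u : L, u = θ - algebraMap K L (r : K) := ⟨_, rfl⟩
  have hequ : algebraMap K L (f : K) + algebraMap K L (g : K) * u +
      algebraMap K L (3 * (r : K)) * u ^ 2 + u ^ 3 = 0 := by
    rw [hfK, hgK, hu]
    simp only [map_add, map_mul, map_pow, map_ofNat]
    linear_combination h.root
  obtain ⟨θ', hθ'⟩ := theta_int h
  have hθw : ∀ w : HeightOneSpectrum (𝓞 L), w.valuation L θ ≤ 1 := by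
    intro w
    rw [← hθ']
    exact w.valuation_le_one θ'
  have hKw : ∀ (w : HeightOneSpectrum (𝓞 L)) (x : 𝓞 K), w.valuation L (algebraMap K L (x : K)) ≤ 1 := by
    intro w x
    exact val_le ((dn K w).valuation_le_one x)
  have huw : ∀ w : HeightOneSpectrum (𝓞 L), w.valuation L u ≤ 1 := by
    intro w
    rw [hu]
    exact (Valuation.map_sub _ _ _).trans (max_le (hθw w) (hKw w r))
  have hu0 : u ≠ 0 := by
    intro h0
    rw [h0] at hu
    have h1 := h.li (-(r : K)) 1 0 (by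
      rw [map_neg, map_one, map_zero]
      linear_combination -hu)
    exact one_ne_zero h1.2.1
  -- value of `u` at the places with `w u < 1`
  have hval : ∀ w : HeightOneSpectrum (𝓞 L), dn K w = v → w.valuation L u < 1 →
      w.valuation L u = w.valuation L (algebraMap K L ϖ) := by
    intro w hw hlt
    obtain ⟨a, ha⟩ : ∃ a, a = w.valuation L u := ⟨_, rfl⟩
    obtain ⟨p, hp⟩ : ∃ p, p = w.valuation L (algebraMap K L ϖ) := ⟨_, rfl⟩
    rw [← ha] at hlt
    rw [← ha, ← hp]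
    have ha0 : a ≠ 0 := by
      rw [ha]
      exact (Valuation.ne_zero_iff _).2 hu0
    have hp0 : p ≠ 0 := by
      rw [hp]
      exact (Valuation.ne_zero_iff _).2 ((map_ne_zero _).2 hϖ0)
    have hwf : w.valuation L (algebraMap K L (f : K)) = p ^ 2 := by
      have h1 : v.valuation K ((f : K) / ϖ ^ 2) = 1 := by
        rw [map_div₀, map_pow, hvf, hϖ', ← exp_nsmul]
        norm_num
      have h2 := val_one (w := w) (x := (f : K) / ϖ ^ 2) (by rw [hw]; exact h1)
      rw [map_div₀, map_div₀, map_pow, map_pow, ← hp, div_eq_one_iff_eq (pow_ne_zero 2 hp0)] at h2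
      exact h2
    have hwg : w.valuation L (algebraMap K L (g : K)) ≤ p ^ 2 := by
      have h1 : v.valuation K ((g : K) / ϖ ^ 2) ≤ 1 := by
        rw [map_div₀, map_pow, hϖ', ← exp_nsmul]
        have h2 : (exp (2 • -(1 : ℤ)) : WithZero (Multiplicative ℤ)) = exp (-(2 : ℤ)) := by norm_num
        rw [h2]
        exact div_le_one_of_le₀ hvg zero_le
      have h2 := val_le (w := w) (x := (g : K) / ϖ ^ 2) (by rw [hw]; exact h1)
      rw [map_div₀, map_div₀, map_pow, map_pow, ← hp] at h2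
      have h3 : w.valuation L (algebraMap K L (g : K)) =
          w.valuation L (algebraMap K L (g : K)) / p ^ 2 * p ^ 2 :=
        (div_mul_cancel₀ _ (pow_ne_zero 2 hp0)).symm
      rw [h3]
      exact mul_le_of_le_one_left' h2
    have hw3 : w.valuation L (algebraMap K L (3 * (r : K)) * u ^ 2) = a ^ 2 := by
      rw [map_mul, map_pow, ← ha, val_one (w := w) (x := 3 * (r : K)) (by rw [hw]; exact hv3r), one_mul]
    by_contra hne
    have hne2 : p ^ 2 ≠ a ^ 2 := by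
      intro h1
      exact hne ((pow_left_inj₀ zero_le zero_le two_ne_zero).1 h1).symm
    have h1 : w.valuation L (algebraMap K L (f : K) + algebraMap K L (3 * (r : K)) * u ^ 2) =
        max (p ^ 2) (a ^ 2) := by
      rw [Valuation.map_add_of_distinct_val _ (by rw [hwf, hw3]; exact hne2), hwf, hw3]
    have h2 : algebraMap K L (f : K) + algebraMap K L (3 * (r : K)) * u ^ 2 =
        -(u * (algebraMap K L (g : K) + u ^ 2)) := by
      linear_combination hequ
    rw [h2, Valuation.map_neg, map_mul, ← ha] at h1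
    have h3 : w.valuation L (algebraMap K L (g : K) + u ^ 2) ≤ max (p ^ 2) (a ^ 2) := by
      refine (Valuation.map_add _ _ _).trans (max_le_max hwg ?_)
      rw [map_pow, ← ha]
    have h4 : a * w.valuation L (algebraMap K L (g : K) + u ^ 2) < max (p ^ 2) (a ^ 2) := by
      have hm : 0 < max (p ^ 2) (a ^ 2) := lt_of_lt_of_le (zero_lt_iff.2 (pow_ne_zero 2 hp0)) (le_max_left _ _)
      calc a * w.valuation L (algebraMap K L (g : K) + u ^ 2) ≤ a * max (p ^ 2) (a ^ 2) :=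
            mul_le_mul_right h3 _
        _ < 1 * max (p ^ 2) (a ^ 2) := mul_lt_mul_of_pos_right hlt hm
        _ = _ := one_mul _
    rw [h1] at h4
    exact lt_irrefl _ h4
  -- the quotient is not congruent to an element of `K`
  have hnK : ∀ w : HeightOneSpectrum (𝓞 L), dn K w = v → w.valuation L u < 1 →
      ∀ x : K, v.valuation K x ≤ 1 → w.valuation L (u / algebraMap K L ϖ - algebraMap K L x) = 1 := by
    intro w hw hlt x hx
    have hϖL : algebraMap K L ϖ ≠ 0 := (map_ne_zero _).2 hϖ0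
    have hwϖ0 : w.valuation L (algebraMap K L ϖ) ≠ 0 := (Valuation.ne_zero_iff _).2 hϖL
    have hwϖ1 : w.valuation L (algebraMap K L ϖ) < 1 := val_lt (by rw [hw]; exact hϖlt)
    obtain ⟨φ, hφ⟩ : ∃ φ, φ = u / algebraMap K L ϖ := ⟨_, rfl⟩
    have hφu : u = algebraMap K L ϖ * φ := by
      rw [hφ, mul_div_cancel₀ _ hϖL]
    have hφ1 : w.valuation L φ = 1 := by
      rw [hφ, map_div₀, hval w hw hlt, div_self hwϖ0]
    have hxw : w.valuation L (algebraMap K L x) ≤ 1 := val_le (by rw [hw]; exact hx)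
    rw [← hφ]
    refine le_antisymm ((Valuation.map_sub _ _ _).trans (max_le hφ1.le hxw)) (not_lt.1 fun hcon => ?_)
    -- c + 3 r x^2 is small
    have h1 : w.valuation L (algebraMap K L ((f : K) / ϖ ^ 2 + 3 * (r : K) * x ^ 2)) < 1 := by
      have e1 : algebraMap K L ((f : K) / ϖ ^ 2 + 3 * (r : K) * x ^ 2) =
          -(algebraMap K L ((g : K) / ϖ) * φ + algebraMap K L ϖ * φ ^ 3 +
            algebraMap K L (3 * (r : K)) * ((φ - algebraMap K L x) * (φ + algebraMap K L x))) := by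
        have e2 : algebraMap K L ϖ ^ 2 * (algebraMap K L ((f : K) / ϖ ^ 2 + 3 * (r : K) * x ^ 2) +
            (algebraMap K L ((g : K) / ϖ) * φ + algebraMap K L ϖ * φ ^ 3 +
            algebraMap K L (3 * (r : K)) * ((φ - algebraMap K L x) * (φ + algebraMap K L x)))) = 0 := by
          rw [hφu] at hequ
          rw [map_add, map_div₀, map_div₀, map_pow, map_mul, map_pow]
          field_simp
          linear_combination hequ
        have e3 := (mul_eq_zero.1 e2).resolve_left (pow_ne_zero 2 hϖL)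
        linear_combination e3
      rw [e1, Valuation.map_neg]
      refine (Valuation.map_add _ _ _).trans_lt (max_lt ((Valuation.map_add _ _ _).trans_lt (max_lt ?_ ?_)) ?_)
      · rw [map_mul, hφ1, mul_one]
        apply val_lt
        rw [hw, map_div₀, hϖ']
        calc v.valuation K (g : K) / exp (-(1 : ℤ)) ≤ exp (-(2 : ℤ)) / exp (-(1 : ℤ)) :=
              div_le_div_of_nonneg_right hvg zero_le
          _ = exp (-(1 : ℤ)) := by rw [← exp_sub]; norm_num
          _ < 1 := by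
              rw [← exp_zero, exp_lt_exp]
              norm_num
      · rw [map_mul, map_pow, hφ1, one_pow, mul_one]
        exact hwϖ1
      · rw [Valuation.map_mul, Valuation.map_mul,
          val_one (w := w) (x := 3 * (r : K)) (by rw [hw]; exact hv3r), one_mul]
        have h5 : w.valuation L (φ + algebraMap K L x) ≤ 1 :=
          (Valuation.map_add _ _ _).trans (max_le hφ1.le hxw)
        exact (mul_le_of_le_one_right' h5).trans_lt hcon
    have h2 := Aa_lt h1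
    rw [hw] at h2
    apply hns (3 * (r : K) * x * ϖ)
    · rw [map_mul, map_mul, hv3r, one_mul]
      exact mul_le_one' hx hϖlt.le
    · have e4 : 3 * (r : K) * (f : K) + (3 * (r : K) * x * ϖ) ^ 2 =
          3 * (r : K) * ϖ ^ 2 * ((f : K) / ϖ ^ 2 + 3 * (r : K) * x ^ 2) := by
        field_simp
      rw [e4, map_mul, map_mul, hv3r, one_mul, map_pow, hϖ']
      have h3 : v.valuation K ((f : K) / ϖ ^ 2 + 3 * (r : K) * x ^ 2) ≤ exp (-(1 : ℤ)) := by
        have h2' : v.valuation K ((f : K) / ϖ ^ 2 + 3 * (r : K) * x ^ 2) < exp (-(0 : ℤ)) := by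
          rw [neg_zero, exp_zero]
          exact h2
        have h3 := Aa_le_neg h2'
        rwa [zero_add] at h3
      refine (mul_le_mul_right h3 _).trans ?_
      rw [← exp_nsmul, ← exp_add]
      norm_num
  have hinert : ∀ w : HeightOneSpectrum (𝓞 L), dn K w = v → w.valuation L u < 1 →
      2 ≤ w.asIdeal.inertiaDeg (𝓞 K) := by
    intro w hw hlt
    have h1 := Ideal.inertiaDeg_pos w.asIdeal (𝓞 K)
    by_contra h2
    have h3 : w.asIdeal.inertiaDeg (𝓞 K) = 1 := by omega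
    have hϖL : algebraMap K L ϖ ≠ 0 := (map_ne_zero _).2 hϖ0
    have hwϖ0 : w.valuation L (algebraMap K L ϖ) ≠ 0 := (Valuation.ne_zero_iff _).2 hϖL
    obtain ⟨x, hx, hx2⟩ := Aa_res (K := K) h3 (y := u / algebraMap K L ϖ) (by
      rw [map_div₀, hval w hw hlt, div_self hwϖ0])
    rw [hw] at hx
    rw [hnK w hw hlt x hx] at hx2
    exact lt_irrefl _ hx2
  -- sums over the places above `v`
  obtain ⟨W, hW⟩ : ∃ W, W = (fin_above (L := L) v).toFinset := ⟨_, rfl⟩
  have hmemW : ∀ w : HeightOneSpectrum (𝓞 L), w ∈ W ↔ dn K w = v := by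
    intro w
    rw [hW, Set.Finite.mem_toFinset]
    exact Iff.rfl
  have hordnn : ∀ (w : HeightOneSpectrum (𝓞 L)) (y : L), y ≠ 0 → w.valuation L y ≤ 1 →
      0 ≤ ord (w.valuation L) y := by
    intro w y hy hy1
    unfold ord
    have h0 : w.valuation L y ≠ 0 := (Valuation.ne_zero_iff _).2 hy
    rw [← exp_log h0, ← exp_zero, exp_le_exp] at hy1
    omega
  have hordpos : ∀ (w : HeightOneSpectrum (𝓞 L)) (y : L), y ≠ 0 → w.valuation L y < 1 →
      0 < ord (w.valuation L) y := by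
    intro w y hy hy1
    unfold ord
    have h0 : w.valuation L y ≠ 0 := (Valuation.ne_zero_iff _).2 hy
    rw [← exp_log h0, ← exp_zero, exp_lt_exp] at hy1
    omega
  have hordone : ∀ (w : HeightOneSpectrum (𝓞 L)) (y : L), w.valuation L y = 1 →
      ord (w.valuation L) y = 0 := by
    intro w y hy
    unfold ord
    rw [hy, log_one, neg_zero]
  have hϖL : algebraMap K L ϖ ≠ 0 := (map_ne_zero _).2 hϖ0
  have hordv : ∀ (x : K) (n : ℤ), v.valuation K x = exp (-n) → ord (v.valuation K) x = n := by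
    intro x n hx
    unfold ord
    rw [hx, log_exp, neg_neg]
  have hsum3 : ∑ w ∈ W, (w.asIdeal.inertiaDeg (𝓞 K) : ℤ) *
      ord (w.valuation L) (algebraMap K L ϖ) = 3 := by
    rw [hW, ← Aa_norm v hϖL, Algebra.norm_algebraMap, h.finrank]
    apply hordv
    rw [map_pow, hϖ', ← exp_nsmul]
    norm_num
  have hsum2 : ∑ w ∈ W, (w.asIdeal.inertiaDeg (𝓞 K) : ℤ) * ord (w.valuation L) u = 2 := by
    rw [hW, ← Aa_norm v hu0]
    apply hordv
    have e1 : u = -(algebraMap K L (r : K) - θ) := by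
      rw [hu]
      ring
    have e2 : Algebra.norm K (algebraMap K L (r : K) - θ) = (f : K) := by
      rw [h.norm_sub, hfK]
    have e3 : Algebra.norm K u = -(f : K) := by
      rw [e1, ← neg_one_mul, map_mul, e2]
      have e4 : (-1 : L) = algebraMap K L (-1) := by rw [map_neg, map_one]
      rw [e4, Algebra.norm_algebraMap, h.finrank]
      ring
    rw [e3, Valuation.map_neg]
    exact hvf
  have hfpos : ∀ w : HeightOneSpectrum (𝓞 L), (1 : ℤ) ≤ w.asIdeal.inertiaDeg (𝓞 K) := by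
    intro w
    have h1 := Ideal.inertiaDeg_pos w.asIdeal (𝓞 K)
    exact_mod_cast h1
  have hepos : ∀ w ∈ W, 0 < ord (w.valuation L) (algebraMap K L ϖ) := by
    intro w hw
    exact hordpos w _ hϖL (val_lt (by rw [(hmemW w).1 hw]; exact hϖlt))
  -- the place `w₂`
  obtain ⟨w₂, hw2W, hw2⟩ : ∃ w₂ ∈ W, w₂.valuation L u < 1 := by
    by_contra hcon
    push Not at hcon
    have h1 : ∑ w ∈ W, (w.asIdeal.inertiaDeg (𝓞 K) : ℤ) * ord (w.valuation L) u = 0 := by
      refine Finset.sum_eq_zero fun w hw => ?_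
      rw [hordone w u (le_antisymm (huw w) (hcon w hw)), mul_zero]
    omega
  have hd2 := (hmemW w₂).1 hw2W
  -- the place `w₁`
  obtain ⟨z, hz⟩ : ∃ z : L, z = algebraMap K L (-2 * (r : K)) - θ := ⟨_, rfl⟩
  have hz0 : z ≠ 0 := by
    intro h0
    rw [h0] at hz
    have h1 := h.li (-2 * (r : K)) (-1) 0 (by
      rw [map_neg (algebraMap K L) 1, map_one, map_zero]
      linear_combination -hz)
    exact one_ne_zero (neg_eq_zero.1 h1.2.1)
  have hzw : ∀ w : HeightOneSpectrum (𝓞 L), w.valuation L z ≤ 1 := by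
    intro w
    rw [hz]
    refine (Valuation.map_sub _ _ _).trans (max_le ?_ (hθw w))
    have e1 : (-2 * (r : K)) = ((-2 * r : 𝓞 K) : K) := by
      change _ = algebraMap (𝓞 K) K (-2 * r)
      rw [map_mul, map_neg, map_ofNat]
    rw [e1]
    exact hKw w _
  obtain ⟨w₁, hw1W, hw1⟩ : ∃ w₁ ∈ W, w₁.valuation L z < 1 := by
    by_contra hcon
    push Not at hcon
    have h1 : ∑ w ∈ W, (w.asIdeal.inertiaDeg (𝓞 K) : ℤ) * ord (w.valuation L) z = 0 := by
      refine Finset.sum_eq_zero fun w hw => ?_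
      rw [hordone w z (le_antisymm (hzw w) (hcon w hw)), mul_zero]
    rw [hW, ← Aa_norm v hz0, hz, h.norm_sub] at h1
    have h2 : (-2 * (r : K)) ^ 3 + (A : K) * (-2 * (r : K)) + (B : K) =
        (f : K) - 3 * (r : K) * (g : K) := by
      rw [hfK, hgK]
      ring
    rw [h2] at h1
    have h3 : v.valuation K ((f : K) - 3 * (r : K) * (g : K)) ≤ exp (-(2 : ℤ)) := by
      refine (Valuation.map_sub _ _ _).trans (max_le hvf1 ?_)
      rw [map_mul, hv3r, one_mul]
      exact hvg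
    have h4 : v.valuation K ((f : K) - 3 * (r : K) * (g : K)) ≠ 0 := by
      rw [Valuation.ne_zero_iff, ← h2, ← h.norm_sub, ← hz]
      exact (Algebra.norm_ne_zero_iff).2 hz0
    unfold ord at h1
    rw [← exp_log h4, exp_le_exp] at h3
    omega
  have hd1 := (hmemW w₁).1 hw1W
  have hu1 : w₁.valuation L u = 1 := by
    have e1 : u = -(z + algebraMap K L (3 * (r : K))) := by
      rw [hu, hz]
      simp only [map_mul, map_neg, map_ofNat]
      ring
    rw [e1, Valuation.map_neg]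
    have h1 : w₁.valuation L (algebraMap K L (3 * (r : K))) = 1 :=
      val_one (by rw [hd1]; exact hv3r)
    rw [Valuation.map_add_eq_of_lt_right _ (by rw [h1]; exact hw1), h1]
  have hne : w₁ ≠ w₂ := by
    intro h1
    rw [← h1, hu1] at hw2
    exact lt_irrefl _ hw2
  -- degrees
  have h12 : ({w₁, w₂} : Finset (HeightOneSpectrum (𝓞 L))) ⊆ W := by
    intro w hw
    rw [Finset.mem_insert, Finset.mem_singleton] at hw
    rcases hw with rfl | rfl
    · exact hw1W
    · exact hw2W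
  have hle3 : ∀ S : Finset (HeightOneSpectrum (𝓞 L)), S ⊆ W →
      ∑ w ∈ S, (w.asIdeal.inertiaDeg (𝓞 K) : ℤ) * ord (w.valuation L) (algebraMap K L ϖ) ≤ 3 := by
    intro S hS
    rw [← hsum3]
    refine Finset.sum_le_sum_of_subset_of_nonneg hS fun w hw _ => ?_
    exact mul_nonneg (by have := hfpos w; omega) (hepos w hw).le
  have hf1 := hfpos w₁
  have hf2 : (2 : ℤ) ≤ w₂.asIdeal.inertiaDeg (𝓞 K) := by
    exact_mod_cast hinert w₂ hd2 hw2
  have he1 := hepos w₁ hw1W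
  have he2 := hepos w₂ hw2W
  have hs12 := hle3 _ h12
  rw [Finset.sum_pair hne] at hs12
  have hE2 : ord (w₂.valuation L) (algebraMap K L ϖ) = 1 := by
    nlinarith
  have hE1 : ord (w₁.valuation L) (algebraMap K L ϖ) = 1 := by
    rw [hE2] at hs12
    nlinarith
  have hF1 : (w₁.asIdeal.inertiaDeg (𝓞 K) : ℤ) = 1 := by
    rw [hE2, hE1] at hs12
    linarith
  have honly : ∀ w : HeightOneSpectrum (𝓞 L), dn K w = v → w = w₁ ∨ w = w₂ := by
    intro w hw
    by_contra hcon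
    push Not at hcon
    have hwW := (hmemW w).2 hw
    have h1 := hle3 {w, w₁, w₂} (by
      intro w' hw'
      rw [Finset.mem_insert] at hw'
      rcases hw' with rfl | hw'
      · exact hwW
      · exact h12 hw')
    rw [Finset.sum_insert (by
      rw [Finset.mem_insert, Finset.mem_singleton]
      push Not
      exact hcon), Finset.sum_pair hne, hE1, hE2] at h1
    have h2 := hepos w hwW
    have h3 := hfpos w
    nlinarith
  have hordw : ∀ w : HeightOneSpectrum (𝓞 L), dn K w = v →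
      ord (w.valuation L) (algebraMap K L ϖ) = 1 → ∀ x : K, x ≠ 0 →
        ord (w.valuation L) (algebraMap K L x) = ord (v.valuation K) x := by
    intro w hw he x hx
    obtain ⟨e, -, h1⟩ := ord_dn (K := K) w
    have h2 := h1 ϖ hϖ0
    rw [hw, hordv ϖ 1 hϖ', mul_one, he] at h2
    rw [h1 x hx, hw, ← h2, one_mul]
  refine ⟨w₁, w₂, (r : K), ⟨⟨hne, hd1, hd2, honly, hordw w₁ hd1 hE1, hordw w₂ hd2 hE2, ?_⟩, hvr, ?_, ?_⟩⟩
  · intro y hy
    have h1 : w₁.asIdeal.inertiaDeg (𝓞 K) = 1 := by exact_mod_cast hF1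
    obtain ⟨x, hx, hx2⟩ := Aa_res (K := K) h1 hy
    rw [hd1] at hx
    exact ⟨x, hx, hx2⟩
  · have e1 : θ + algebraMap K L (2 * (r : K)) = -z := by
      rw [hz]
      simp only [map_mul, map_neg, map_ofNat]
      ring
    rw [e1, Valuation.map_neg]
    exact hw1
  · intro x hx
    have hx1 : v.valuation K ((x - (r : K)) / ϖ) ≤ 1 := by
      rw [map_div₀, hϖ']
      have h1 : v.valuation K (x - (r : K)) ≤ exp (-(1 : ℤ)) := by
        have h2' : v.valuation K (x - (r : K)) < exp (-(0 : ℤ)) := by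
          rw [neg_zero, exp_zero]
          exact hx
        have h3 := Aa_le_neg h2'
        rwa [zero_add] at h3
      exact div_le_one_of_le₀ h1 zero_le
    have h1 := hnK w₂ hd2 hw2 _ hx1
    have e1 : algebraMap K L x - θ = -(algebraMap K L ϖ *
        (u / algebraMap K L ϖ - algebraMap K L ((x - (r : K)) / ϖ))) := by
      rw [map_div₀, hu, map_sub]
      field_simp
      ring
    rw [e1, Valuation.map_neg, map_mul, h1, mul_one]
    have h0 : w₂.valuation L (algebraMap K L ϖ) ≠ 0 := (Valuation.ne_zero_iff _).2 hϖL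
    unfold ord at hE2
    rw [← exp_log h0]
    congr 1
    omega

end H76MQ

end S_H76_MQ_Aa

section S_H76_MQ_Tt

set_option autoImplicit false
set_option linter.unusedSectionVars false
open scoped Classical

open WithZero NumberField IsDedekindDomain H38RT
open H38T1 (SC sc scu rep eo la si Pri OddP tp unif ka)
open H76PP

namespace H76MQ

variable {K L : Type} [Field K] [NumberField K] [Field L] [NumberField L] [Algebra K L]

/-- There is a place above `v` which contains `t - θ`. -/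
theorem Tt_place {A B : 𝓞 K} {θ : L} (h : Cub K L (A : K) (B : K) θ)
    {v : HeightOneSpectrum (𝓞 K)} (hd : dsc A B ∉ v.asIdeal ^ 2) {θ' : 𝓞 L} (hθ' : (θ' : L) = θ)
    {t : 𝓞 K} (ht : t ^ 3 + A * t + B ∈ v.asIdeal) :
    ∃ w : HeightOneSpectrum (𝓞 L), dn K w = v ∧ algebraMap (𝓞 K) (𝓞 L) t - θ' ∈ w.asIdeal := by
  obtain ⟨w, χ, hd1, hχ, hχa, hχc⟩ := H36MT.exists_placeL h (H36MT.lb_of h hd) ht
  refine ⟨w, hd1, ?_⟩
  have hχθ : χ θ' = Ideal.Quotient.mk v.asIdeal t := by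
    have h1 := hχc θ' ![0, 1, 0] (by
      intro i
      have e0 : ((0 : 𝓞 K) : K) = 0 := rfl
      have e1 : ((1 : 𝓞 K) : K) = 1 := rfl
      rw [hθ']
      fin_cases i
      · exact h.co_theta.1.trans e0.symm
      · exact h.co_theta.2.1.trans e1.symm
      · exact h.co_theta.2.2.trans e0.symm)
    rw [h1]
    congr 1
    simp
  rw [← hχ, map_sub, hχa, hχθ, sub_self]

theorem exists_TwT {A B : 𝓞 K} {θ : L} (h : Cub K L (A : K) (B : K) θ)
    {v : HeightOneSpectrum (𝓞 K)} (hd : dsc A B ∉ v.asIdeal ^ 2) (h6 : (6 : 𝓞 K) ∉ v.asIdeal)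
    (ht : ∃ t : 𝓞 K, t ^ 3 + A * t + B ∈ v.asIdeal ∧
      ∀ s : 𝓞 K, -3 * t ^ 2 - 4 * A - s ^ 2 ∉ v.asIdeal) :
    ∃ w₁ w₂ : HeightOneSpectrum (𝓞 L), TwT K (A : K) θ v w₁ w₂ := by
  obtain ⟨w₁, w₂, h2⟩ := H36MT.exists_twoL h hd h6 ht
  obtain ⟨t, ht1, ht2⟩ := ht
  obtain ⟨θ', hθ'⟩ := theta_int h
  obtain ⟨w, hw1, hw2⟩ := Tt_place h hd hθ' ht1
  have hsc : ∀ r : 𝓞 K, algebraMap (𝓞 L) L (algebraMap (𝓞 K) (𝓞 L) r) = algebraMap K L (r : K) :=
    fun _ => rfl
  have hθL : algebraMap (𝓞 L) L θ' = θ := hθ'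
  have hww : w = w₁ := by
    rcases h2.only w hw1 with h3 | h3
    · exact h3
    · exfalso
      have h4 := h2.unit2 (t : K) (v.valuation_le_one t)
      rw [h3] at hw2
      have h5 : w₂.valuation L (algebraMap (𝓞 L) L (algebraMap (𝓞 K) (𝓞 L) t - θ')) < 1 :=
        (w₂.valuation_lt_one_iff_mem (K := L) _).2 hw2
      rw [map_sub, hsc, hθL, h4] at h5
      exact lt_irrefl _ h5
  rw [hww] at hw1 hw2
  refine ⟨w₁, w₂, ⟨⟨h2.ne, h2.dn1, h2.dn2, h2.only, h2.ord1, h2.ord2, ?_⟩, h2.unit2, ?_⟩⟩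
  · intro y hy
    obtain ⟨y', hy'⟩ := Tf_approx w₁ hy
    obtain ⟨s, hs⟩ := H36MT.Tc_sL h hd hθ' t y'
    refine ⟨(s : K), v.valuation_le_one s, ?_⟩
    have h3 : w₁.valuation L (algebraMap (𝓞 L) L (y' - algebraMap (𝓞 K) (𝓞 L) s)) < 1 :=
      (w₁.valuation_lt_one_iff_mem (K := L) _).2 (hs w₁ hw1 hw2)
    rw [map_sub, hsc] at h3
    have e : y - algebraMap K L (s : K) = (y - (y' : L)) + ((y' : L) - algebraMap K L (s : K)) := by
      ring
    rw [e]
    exact Valuation.map_add_lt _ hy' h3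
  · have h3 : w₁.valuation L (algebraMap (𝓞 L) L (3 * θ' ^ 2 + algebraMap (𝓞 K) (𝓞 L) A)) = 1 := by
      rw [HeightOneSpectrum.valuation_eq_one_iff_notMem]
      intro h4
      have h5 : algebraMap (𝓞 K) (𝓞 L) (3 * t ^ 2 + A) ∈ w₁.asIdeal := by
        have e : algebraMap (𝓞 K) (𝓞 L) (3 * t ^ 2 + A) =
            (3 * θ' ^ 2 + algebraMap (𝓞 K) (𝓞 L) A) + (algebraMap (𝓞 K) (𝓞 L) t - θ') *
              (3 * (algebraMap (𝓞 K) (𝓞 L) t + θ')) := by
          rw [map_add, map_mul, map_pow, map_ofNat]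
          ring
        rw [e]
        exact Ideal.add_mem _ h4 (Ideal.mul_mem_right _ _ hw2)
      have h6' : 3 * t ^ 2 + A ∈ (dn K w₁).asIdeal := h5
      rw [hw1] at h6'
      apply ht2 (3 * t)
      have e : -3 * t ^ 2 - 4 * A - (3 * t) ^ 2 = (3 * t ^ 2 + A) * (-4) := by ring
      rw [e]
      exact Ideal.mul_mem_right _ _ h6'
    rw [map_add, map_mul, map_pow, map_ofNat, hsc, hθL] at h3
    exact h3

end H76MQ

end S_H76_MQ_Tt

section S_H76_MQ_Pa

set_option autoImplicit false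
set_option linter.unusedSectionVars false
open scoped Classical

open WithZero NumberField IsDedekindDomain H38RT
open H38T1 (SC sc scu rep eo la si Pri OddP tp unif ka)
open H76PP

namespace H76MQ

variable {K L : Type} [Field K] [NumberField K] [Field L] [NumberField L] [Algebra K L]

section Abstract

private theorem Pa_exp_pow (m : ℤ) (k : ℕ) :
    (exp m : WithZero (Multiplicative ℤ)) ^ k = exp (k * m) := by
  rw [← exp_nsmul]
  simp

private theorem Pa_cls {k : ℕ} (hk : k ≠ 0) (x y : WithZero (Multiplicative ℤ)) {i j : ℤ}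
    (hij : ¬ (3 : ℤ) ∣ i - j) (h : (x ^ 3 * exp i) ^ k = (y ^ 3 * exp j) ^ k) :
    (x ^ 3 * exp i) ^ k = 0 := by
  by_cases hx : x = 0
  · rw [hx]
    simp [hk]
  by_cases hy : y = 0
  · rw [h, hy]
    simp [hk]
  exfalso
  rw [← exp_log hx, ← exp_log hy, Pa_exp_pow, Pa_exp_pow, ← exp_add, ← exp_add, Pa_exp_pow,
    Pa_exp_pow] at h
  have h1 := exp_injective h
  have h2 : (k : ℤ) ≠ 0 := by exact_mod_cast hk
  have h3 := mul_left_cancel₀ h2 h1
  apply hij
  push_cast at h3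
  omega

variable {F : Type*} [Field F] (V : Valuation F (WithZero (Multiplicative ℤ)))

private theorem Pa_add {x y : F} (h : V x = V y → V x = 0) : V (x + y) = max (V x) (V y) := by
  by_cases he : V x = V y
  · have h1 := h he
    have h2 : x = 0 := (Valuation.zero_iff V).1 h1
    have h3 : y = 0 := (Valuation.zero_iff V).1 (he ▸ h1)
    rw [h2, h3, add_zero, map_zero, max_self]
  · exact Valuation.map_add_of_distinct_val V he

private theorem Pa_max {G : Type*} [Field G] (v : Valuation G (WithZero (Multiplicative ℤ)))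
    (i : G →+* F) {k : ℕ} (hk : k ≠ 0) {ω : F} (hv : ∀ x : G, V (i x) = v x ^ (3 * k))
    (hω : V ω = exp (-(k : ℤ))) (c0 c1 c2 : G) : V (i c0 + i c1 * ω + i c2 * ω ^ 2) =
      (max (v c0 ^ 3) (max (v c1 ^ 3 * exp (-1)) (v c2 ^ 3 * exp (-2)))) ^ k := by
  have e0 : V (i c0) = (v c0 ^ 3 * exp 0) ^ k := by
    rw [hv, exp_zero, mul_one, pow_mul]
  have e1 : V (i c1 * ω) = (v c1 ^ 3 * exp (-1)) ^ k := by
    rw [map_mul, hv, hω, mul_pow, pow_mul, Pa_exp_pow]
    congr 2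
    ring
  have e2 : V (i c2 * ω ^ 2) = (v c2 ^ 3 * exp (-2)) ^ k := by
    rw [map_mul, hv, map_pow, hω, mul_pow, pow_mul, Pa_exp_pow, Pa_exp_pow]
    congr 2
    push_cast
    ring
  have h01 : V (i c0 + i c1 * ω) = max ((v c0 ^ 3 * exp 0) ^ k) ((v c1 ^ 3 * exp (-1)) ^ k) := by
    rw [Pa_add, e0, e1]
    rw [e0, e1]
    exact Pa_cls hk _ _ (by norm_num)
  have h012 : V (i c0 + i c1 * ω + i c2 * ω ^ 2) = max (max ((v c0 ^ 3 * exp 0) ^ k)
      ((v c1 ^ 3 * exp (-1)) ^ k)) ((v c2 ^ 3 * exp (-2)) ^ k) := by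
    rw [Pa_add, h01, e2]
    rw [h01, e2]
    intro h
    rcases max_choice ((v c0 ^ 3 * exp 0) ^ k) ((v c1 ^ 3 * exp (-1)) ^ k) with h1 | h1
    · rw [h1] at h ⊢
      exact Pa_cls hk _ _ (by norm_num) h
    · rw [h1] at h ⊢
      exact Pa_cls hk _ _ (by norm_num) h
  have hm : Monotone (fun x : WithZero (Multiplicative ℤ) => x ^ k) := fun x y h =>
    pow_le_pow_left₀ zero_le h k
  rw [h012, exp_zero, mul_one]
  have m1 := hm.map_max (a := v c1 ^ 3 * exp (-1)) (b := v c2 ^ 3 * exp (-2))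
  have m2 := hm.map_max (a := v c0 ^ 3) (b := max (v c1 ^ 3 * exp (-1)) (v c2 ^ 3 * exp (-2)))
  change (max (v c1 ^ 3 * exp (-1)) (v c2 ^ 3 * exp (-2))) ^ k =
    max ((v c1 ^ 3 * exp (-1)) ^ k) ((v c2 ^ 3 * exp (-2)) ^ k) at m1
  change (max (v c0 ^ 3) (max (v c1 ^ 3 * exp (-1)) (v c2 ^ 3 * exp (-2)))) ^ k =
    max ((v c0 ^ 3) ^ k) ((max (v c1 ^ 3 * exp (-1)) (v c2 ^ 3 * exp (-2))) ^ k) at m2
  rw [m2, m1, max_assoc]

private theorem Pa_om {a b ω : F} {e : ℕ} (he : 0 < e) (h : ω ^ 3 + a * ω + b = 0)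
    (ha : V a = exp (-(2 * e : ℤ))) (hb : V b = exp (-(e : ℤ))) : V ω ^ 3 = exp (-(e : ℤ)) := by
  have he' : (0 : ℤ) < e := by exact_mod_cast he
  have h1 : ω ^ 3 = -(a * ω + b) := by linear_combination h
  have h2 : V ω ^ 3 = V (a * ω + b) := by
    rw [← map_pow, h1, Valuation.map_neg]
  have ha1 : V a ≤ 1 := by
    rw [ha, ← exp_zero, exp_le_exp]
    omega
  have hb1 : V b ≤ 1 := by
    rw [hb, ← exp_zero, exp_le_exp]
    omega
  have h3 : V ω ≤ 1 := by
    by_contra hcon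
    rw [not_le] at hcon
    have h4 : V (a * ω + b) ≤ V ω := by
      refine (Valuation.map_add _ _ _).trans (max_le ?_ (hb1.trans hcon.le))
      rw [map_mul]
      exact mul_le_of_le_one_left' ha1
    rw [← h2] at h4
    have h5 : V ω ^ 1 < V ω ^ 3 := pow_lt_pow_right₀ hcon (by norm_num)
    rw [pow_one] at h5
    exact absurd h4 (not_le.2 h5)
  rw [h2, Valuation.map_add_eq_of_lt_right, hb]
  rw [map_mul, hb]
  refine (mul_le_of_le_one_right' h3).trans_lt ?_
  rw [ha, exp_lt_exp]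
  omega

end Abstract

private theorem Pa_pow (w : HeightOneSpectrum (𝓞 L)) : ∃ e : ℕ, 0 < e ∧ ∀ x : K,
    w.valuation L (algebraMap K L x) = (dn K w).valuation K x ^ e := by
  obtain ⟨e, he, h⟩ := ord_dn (K := K) w
  refine ⟨e, he, fun x => ?_⟩
  by_cases hx : x = 0
  · rw [hx, map_zero, map_zero, map_zero, zero_pow he.ne']
  have hL0 : algebraMap K L x ≠ 0 := fun h => hx ((algebraMap K L).injective (by rw [h, map_zero]))
  have h1 := h x hx
  have h2 : (dn K w).valuation K x ≠ 0 := (Valuation.ne_zero_iff _).2 hx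
  have h3 : w.valuation L (algebraMap K L x) ≠ 0 := (Valuation.ne_zero_iff _).2 hL0
  unfold ord at h1
  rw [← exp_log h3, ← exp_log h2, Pa_exp_pow]
  congr 1
  linarith

private theorem Pa_int {v : HeightOneSpectrum (𝓞 K)} {a : 𝓞 K} {n : ℕ}
    (h : a ∈ v.asIdeal ^ n) : v.valuation K (a : K) ≤ exp (-(n : ℤ)) := by
  rw [← v.intValuation_le_pow_iff_mem, ← v.valuation_of_algebraMap (K := K)] at h
  exact h

private theorem Pa_two {v : HeightOneSpectrum (𝓞 K)} (h2 : (2 : 𝓞 K) ∈ v.asIdeal)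
    (h22 : (2 : 𝓞 K) ∉ v.asIdeal ^ 2) : v.valuation K (2 : K) = exp (-1) := by
  have e2 : algebraMap (𝓞 K) K 2 = 2 := map_ofNat (algebraMap (𝓞 K) K) 2
  have h3 : v.valuation K (2 : K) ≠ 0 := (Valuation.ne_zero_iff _).2 two_ne_zero
  have h4 : v.valuation K (2 : K) < 1 := by
    rw [← e2]
    exact (v.valuation_lt_one_iff_mem (K := K) _).2 h2
  have h5 : ¬ v.valuation K (2 : K) ≤ exp (-((2 : ℕ) : ℤ)) := by
    intro h5
    apply h22
    rw [← v.intValuation_le_pow_iff_mem, ← v.valuation_of_algebraMap (K := K)]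
    change v.valuation K (algebraMap (𝓞 K) K 2) ≤ _
    rw [e2]
    exact h5
  rw [← exp_log h3] at h4 h5 ⊢
  rw [← exp_zero, exp_lt_exp] at h4
  rw [exp_le_exp] at h5
  congr 1
  push_cast at h5
  omega

private theorem Pa_div {v : HeightOneSpectrum (𝓞 K)} (h2 : v.valuation K (2 : K) = exp (-1))
    {x : K} {n : ℤ} (k : ℕ) (h : v.valuation K x ≤ exp (-n)) :
    v.valuation K (x / 2 ^ k) ≤ exp (-n + k) := by
  rw [map_div₀, map_pow, h2, Pa_exp_pow]
  have h1 : (exp (-n + k) : WithZero (Multiplicative ℤ)) = exp (-n) / exp ((k : ℤ) * -1) := by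
    rw [← exp_sub]
    congr 1
    ring
  rw [h1]
  exact div_le_div_of_nonneg_right h zero_le

theorem rm_cub {A B : K} {θ : L} (h : Cub K L A B θ) : Cub K L (A / 4) (B / 8) (θ / 2) := by
  have h1 := Tf_twist h (D := (1 / 2 : K)) (by norm_num)
  have e1 : (1 / 2 : K) ^ 2 * A = A / 4 := by ring
  have e2 : (1 / 2 : K) ^ 3 * B = B / 8 := by ring
  have e3 : algebraMap K L (1 / 2) * θ = θ / 2 := by
    rw [map_div₀, map_one, map_ofNat]
    ring
  rw [e1, e2, e3] at h1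
  exact h1

/-- all places above `v` have ramification index three -/
private theorem Pa_place {A B : 𝓞 K} {θ : L} (h : Cub K L (A : K) (B : K) θ)
    {v : HeightOneSpectrum (𝓞 K)} (hA : v.valuation K ((A : K) / 4) = exp (-2))
    (hB : v.valuation K ((B : K) / 8) = exp (-1)) (w : HeightOneSpectrum (𝓞 L))
    (hw : H76PP.dn K w = v) : w.valuation L (θ / 2) = exp (-1) ∧
      (∀ x : K, w.valuation L (algebraMap K L x) = v.valuation K x ^ 3) ∧
      ∀ c0 c1 c2 : K, w.valuation L (algebraMap K L c0 + algebraMap K L c1 * (θ / 2) +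
        algebraMap K L c2 * (θ / 2) ^ 2) = max (v.valuation K c0 ^ 3)
          (max (v.valuation K c1 ^ 3 * exp (-1)) (v.valuation K c2 ^ 3 * exp (-2))) := by
  have hc := rm_cub h
  obtain ⟨e, he, hval⟩ := Pa_pow (K := K) w
  rw [hw] at hval
  have h1 := Pa_om (w.valuation L) he hc.root
    (by rw [hval, hA, Pa_exp_pow]; congr 1; ring) (by rw [hval, hB, Pa_exp_pow]; congr 1; ring)
  have h0 : w.valuation L (θ / 2) ≠ 0 := by
    intro h0
    rw [h0, zero_pow (by norm_num)] at h1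
    exact exp_ne_zero h1.symm
  obtain ⟨m, hm⟩ : ∃ m : ℤ, w.valuation L (θ / 2) = exp m := ⟨_, (exp_log h0).symm⟩
  rw [hm, Pa_exp_pow] at h1
  have h2 := exp_injective h1
  push_cast at h2
  obtain ⟨k, hk⟩ : ∃ k : ℕ, (k : ℤ) = -m := by
    refine ⟨(-m).toNat, Int.toNat_of_nonneg ?_⟩
    omega
  have hk0 : k ≠ 0 := by
    rintro rfl
    have : (0 : ℤ) < e := by exact_mod_cast he
    push_cast at hk
    omega
  have hek : e = 3 * k := by omega
  have hω : w.valuation L (θ / 2) = exp (-(k : ℤ)) := by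
    rw [hm]
    congr 1
    omega
  rw [hek] at hval
  have hmax := Pa_max (w.valuation L) (v.valuation K) (algebraMap K L) hk0 hval hω
  have hk1 : k = 1 := by
    obtain ⟨π, hπ⟩ := w.valuation_exists_uniformizer L
    obtain ⟨c0, c1, c2, rfl⟩ := hc.sp π
    rw [hmax] at hπ
    obtain ⟨M, hM⟩ : ∃ M, M = max (v.valuation K c0 ^ 3) (max (v.valuation K c1 ^ 3 * exp (-1))
      (v.valuation K c2 ^ 3 * exp (-2))) := ⟨_, rfl⟩
    rw [← hM] at hπ
    have hM0 : M ≠ 0 := by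
      rintro rfl
      rw [zero_pow hk0] at hπ
      exact exp_ne_zero hπ.symm
    rw [← exp_log hM0, Pa_exp_pow] at hπ
    have h3 : (k : ℤ) * log M = -1 := exp_injective hπ
    have h4 : (k : ℤ) ∣ 1 := ⟨-log M, by linarith⟩
    have h5 : k ∣ 1 := by exact_mod_cast h4
    exact Nat.dvd_one.1 h5
  rw [hk1] at hω hval hmax
  refine ⟨by rw [hω]; rfl, fun x => by rw [hval], fun c0 c1 c2 => ?_⟩
  rw [hmax, pow_one]

private theorem Pa_res {v : HeightOneSpectrum (𝓞 K)} (hn : Nv v = 2) (a : 𝓞 K) :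
    a ∈ v.asIdeal ∨ a - 1 ∈ v.asIdeal := by
  have h1 : Nat.card (𝓞 K ⧸ v.asIdeal) = 2 := by
    rw [← hn]
    unfold Nv
    rw [Ideal.absNorm_apply]
    rfl
  obtain ⟨y, hy, huy⟩ := (Nat.card_eq_two_iff' (0 : 𝓞 K ⧸ v.asIdeal)).1 h1
  have h2 : (1 : 𝓞 K ⧸ v.asIdeal) ≠ 0 := by
    intro h
    have h3 : (Ideal.Quotient.mk v.asIdeal) 1 = 0 := by rw [map_one]; exact h
    exact v.isPrime.ne_top ((Ideal.eq_top_iff_one _).2 (Ideal.Quotient.eq_zero_iff_mem.1 h3))
  have h4 : (1 : 𝓞 K ⧸ v.asIdeal) = y := huy 1 h2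
  by_cases ha : Ideal.Quotient.mk v.asIdeal a = 0
  · left
    exact Ideal.Quotient.eq_zero_iff_mem.1 ha
  · right
    rw [← Ideal.Quotient.eq, map_one, h4]
    exact huy _ ha

theorem exists_Rm {A B : 𝓞 K} {θ : L} (h : Cub K L (A : K) (B : K) θ)
    {v : HeightOneSpectrum (𝓞 K)} (h2 : (2 : 𝓞 K) ∈ v.asIdeal) (h22 : (2 : 𝓞 K) ∉ v.asIdeal ^ 2)
    (hn : Nv v = 2) (hA : A - 16 ∈ v.asIdeal ^ 10) (hB : B - 16 ∈ v.asIdeal ^ 10) :
    ∃ w : HeightOneSpectrum (𝓞 L), Rm K (A : K) (B : K) θ v w := by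
  have hv2 := Pa_two h2 h22
  have e16 : ∀ x : 𝓞 K, ((x - 16 : 𝓞 K) : K) = (x : K) - 16 := by
    intro x
    show algebraMap (𝓞 K) K (x - 16) = _
    rw [map_sub, map_ofNat]
  have hA1 := Pa_int hA
  have hB1 := Pa_int hB
  rw [e16] at hA1 hB1
  have hA2 : v.valuation K ((A : K) / 4 - 4) ≤ exp (-8) := by
    have h3 := Pa_div hv2 2 hA1
    have e : ((A : K) - 16) / 2 ^ 2 = (A : K) / 4 - 4 := by ring
    rw [e] at h3
    refine h3.trans ?_
    rw [exp_le_exp]
    norm_num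
  have hB2 : v.valuation K ((B : K) / 8 - 2) ≤ exp (-7) := by
    have h3 := Pa_div hv2 3 hB1
    have e : ((B : K) - 16) / 2 ^ 3 = (B : K) / 8 - 2 := by ring
    rw [e] at h3
    refine h3.trans ?_
    rw [exp_le_exp]
    norm_num
  have hv4 : v.valuation K (4 : K) = exp (-2) := by
    have e : (4 : K) = 2 ^ 2 := by norm_num
    rw [e, map_pow, hv2, Pa_exp_pow]
    rfl
  have hA3 : v.valuation K ((A : K) / 4) = exp (-2) := by
    have e : (A : K) / 4 = ((A : K) / 4 - 4) + 4 := by ring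
    rw [e, Valuation.map_add_eq_of_lt_right, hv4]
    rw [hv4]
    refine hA2.trans_lt ?_
    rw [exp_lt_exp]
    norm_num
  have hB3 : v.valuation K ((B : K) / 8) = exp (-1) := by
    have e : (B : K) / 8 = ((B : K) / 8 - 2) + 2 := by ring
    rw [e, Valuation.map_add_eq_of_lt_right, hv2]
    rw [hv2]
    refine hB2.trans_lt ?_
    rw [exp_lt_exp]
    norm_num
  obtain ⟨w, hw⟩ := exists_above (L := L) v
  obtain ⟨h3, h4, h5⟩ := Pa_place h hA3 hB3 w hw
  refine ⟨w, hw, ?_, h3, h4, hA2.trans ?_, hB2, hv2, ?_⟩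
  · intro w' hw'
    obtain ⟨-, -, h5'⟩ := Pa_place h hA3 hB3 w' hw'
    have hval : ∀ y : L, w'.valuation L y = w.valuation L y := by
      intro y
      obtain ⟨c0, c1, c2, rfl⟩ := (rm_cub h).sp y
      rw [h5, h5']
    apply HeightOneSpectrum.ext
    ext y
    rw [← w'.valuation_lt_one_iff_mem (K := L), ← w.valuation_lt_one_iff_mem (K := L), hval]
  · rw [exp_le_exp]
    norm_num
  · intro x hx
    obtain ⟨a, ha⟩ := Tf_approx v hx
    rcases Pa_res hn a with h6 | h6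
    · left
      have h7 : v.valuation K (a : K) < 1 := (v.valuation_lt_one_iff_mem (K := K) _).2 h6
      have e : x = (x - (a : K)) + (a : K) := by ring
      rw [e]
      exact (Valuation.map_add _ _ _).trans_lt (max_lt ha h7)
    · right
      have h7 : v.valuation K (algebraMap (𝓞 K) K (a - 1)) < 1 :=
        (v.valuation_lt_one_iff_mem (K := K) _).2 h6
      rw [map_sub, map_one] at h7
      have e : x - 1 = (x - (a : K)) + (algebraMap (𝓞 K) K a - 1) := by
        show x - 1 = (x - (a : K)) + ((a : K) - 1)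
        ring
      rw [e]
      exact (Valuation.map_add _ _ _).trans_lt (max_lt ha h7)

theorem rm_val {A B : K} {θ : L} {v : HeightOneSpectrum (𝓞 K)} {w : HeightOneSpectrum (𝓞 L)}
    (hr : Rm K A B θ v w) (c : Fin 3 → K) : w.valuation L (ev (θ / 2) c) =
      max (v.valuation K (c 0) ^ 3) (max (v.valuation K (c 1) ^ 3 * exp (-1))
        (v.valuation K (c 2) ^ 3 * exp (-2))) := by
  have h1 := Pa_max (w.valuation L) (v.valuation K) (algebraMap K L) (k := 1) one_ne_zero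
    (ω := θ / 2) (fun x => by rw [hr.val, mul_one]) (by rw [hr.om]; rfl) (c 0) (c 1) (c 2)
  rw [pow_one] at h1
  exact h1

end H76MQ

end S_H76_MQ_Pa

section S_H76_MQ_Pc

set_option autoImplicit false
set_option linter.unusedSectionVars false
open scoped Classical

open WithZero NumberField IsDedekindDomain H38RT
open H38T1 (SC sc scu rep eo la si Pri OddP tp unif ka)
open H76PP

namespace H76MQ

variable {K L : Type} [Field K] [NumberField K] [Field L] [NumberField L] [Algebra K L]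

section Pc

variable {F : Type} [Field F] {V : Valuation F (WithZero (Multiplicative ℤ))}

private lemma Pc_disc {g : WithZero (Multiplicative ℤ)} {k : ℤ} (h : g < exp k) :
    g ≤ exp (k - 1) := by
  by_cases hg : g = 0
  · rw [hg]; exact zero_le
  · rw [← exp_log hg] at h ⊢
    rw [exp_lt_exp] at h
    rw [exp_le_exp]
    omega

private lemma Pc_cub {g : WithZero (Multiplicative ℤ)} {k t : ℤ} (h : g ^ 3 ≤ exp t)
    (ht : t < 3 * (k + 1)) : g ≤ exp k := by
  by_cases hg : g = 0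
  · rw [hg]; exact zero_le
  · rw [← exp_log hg, ← exp_nsmul, exp_le_exp, nsmul_eq_mul] at h
    rw [← exp_log hg, exp_le_exp]
    push_cast at h
    omega

private lemma Pc_mul {x y : F} {s t : ℤ} (hx : V x ≤ exp s) (hy : V y ≤ exp t) :
    V (x * y) ≤ exp (s + t) := by
  rw [map_mul, exp_add]
  exact mul_le_mul' hx hy

private lemma Pc_mul' {x y : F} {s t u : ℤ} (hx : V x ≤ exp s) (hy : V y ≤ exp t)
    (hu : s + t ≤ u) : V (x * y) ≤ exp u :=
  (Pc_mul hx hy).trans (exp_le_exp.2 hu)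

private lemma Pc_two_pow (h2 : V 2 = exp (-1)) (k : ℕ) : V (2 ^ k) = exp (-(k : ℤ)) := by
  rw [map_pow, h2, ← exp_nsmul]
  congr 1
  rw [nsmul_eq_mul]
  ring

private lemma Pc_nat (h2 : V 2 = exp (-1)) (hres : ∀ x, V x ≤ 1 → V x < 1 ∨ V (x - 1) < 1)
    (k : ℕ) {x : F} (hx : V x ≤ 1) : ∃ n : ℕ, n < 2 ^ k ∧ V (x - n) ≤ exp (-(k : ℤ)) := by
  induction k with
  | zero =>
    refine ⟨0, by norm_num, ?_⟩
    simpa using hx
  | succ k ih =>
    obtain ⟨n, hn, hv⟩ := ih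
    have h20 : (2 : F) ^ k ≠ 0 := by
      intro h0
      have := Pc_two_pow h2 k
      rw [h0, map_zero] at this
      exact exp_ne_zero this.symm
    have e : x - n = 2 ^ k * ((x - n) / 2 ^ k) := by field_simp
    have hu : V ((x - n) / 2 ^ k) ≤ 1 := by
      rw [map_div₀, Pc_two_pow h2]
      exact div_le_one_of_le₀ hv zero_le
    rcases hres _ hu with h | h
    · refine ⟨n, by rw [pow_succ]; omega, ?_⟩
      have h' := Pc_disc (k := 0) (lt_of_lt_of_eq h exp_zero.symm)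
      rw [e]
      refine Pc_mul' (Pc_two_pow h2 k).le h' ?_
      push_cast
      omega
    · refine ⟨n + 2 ^ k, by rw [pow_succ]; omega, ?_⟩
      have h' := Pc_disc (k := 0) (lt_of_lt_of_eq h exp_zero.symm)
      have e' : x - ((n + 2 ^ k : ℕ) : F) = 2 ^ k * ((x - n) / 2 ^ k - 1) := by
        push_cast
        rw [mul_sub, ← e]
        ring
      rw [e']
      refine Pc_mul' (Pc_two_pow h2 k).le h' ?_
      push_cast
      omega

private lemma Pc_int_le (k : ℤ) : V (k : F) ≤ 1 := intCast_mem V.integer k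

private lemma Pc_dvd_le (h2 : V 2 = exp (-1)) {t : ℕ} {k : ℤ} (h : (2 : ℤ) ^ t ∣ k) :
    V (k : F) ≤ exp (-(t : ℤ)) := by
  obtain ⟨q, rfl⟩ := h
  push_cast
  refine Pc_mul' (Pc_two_pow h2 t).le (t := 0) (by simpa using Pc_int_le q) ?_
  omega

private lemma Pc_odd (h2 : V 2 = exp (-1)) {k : ℤ} (h : ¬ (2 : ℤ) ∣ k) : V (k : F) = 1 := by
  have h1 : (2 : ℤ) ^ 1 ∣ k - 1 := by omega
  have h3 := Pc_dvd_le (V := V) h2 h1
  have e : (k : F) = 1 + ((k - 1 : ℤ) : F) := by push_cast; ring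
  rw [e]
  rw [Valuation.map_add_eq_of_lt_left _ (x := 1), map_one]
  rw [map_one]
  refine lt_of_le_of_lt h3 ?_
  rw [← exp_zero, exp_lt_exp]
  norm_num

private lemma Pc_le_dvd (h2 : V 2 = exp (-1)) (t : ℕ) : ∀ {k : ℤ}, V (k : F) ≤ exp (-(t : ℤ)) →
    (2 : ℤ) ^ t ∣ k := by
  induction t with
  | zero => intro k _; simp
  | succ t ih =>
    intro k hk
    by_cases h : (2 : ℤ) ∣ k
    · obtain ⟨q, rfl⟩ := h
      rw [pow_succ']
      apply mul_dvd_mul_left
      apply ih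
      push_cast at hk
      rw [map_mul, h2] at hk
      by_cases hq : V (q : F) = 0
      · rw [hq]; exact zero_le
      · rw [← exp_log hq, ← exp_add, exp_le_exp] at hk
        rw [← exp_log hq, exp_le_exp]
        omega
    · rw [Pc_odd h2 h, ← exp_zero, exp_le_exp] at hk
      push_cast at hk
      omega

/-- The ideal of the elements of valuation at most `exp (-3)`. -/
private def Pc_I (V : Valuation F (WithZero (Multiplicative ℤ))) : Ideal V.integer where
  carrier := {x | V (x : F) ≤ exp (-3)}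
  add_mem' := fun {x y} hx hy => by
    rw [Set.mem_ofPred_eq] at hx hy ⊢
    push_cast
    exact V.map_add_le hx hy
  zero_mem' := by simp
  smul_mem' := fun c x hx => by
    rw [Set.mem_ofPred_eq] at hx ⊢
    rw [smul_eq_mul]
    push_cast
    exact Pc_mul' (s := 0) (le_of_le_of_eq c.2 exp_zero.symm) hx (by norm_num)

private lemma Pc_mem {x : V.integer} : x ∈ Pc_I V ↔ V (x : F) ≤ exp (-3) := Iff.rfl

private lemma Pc_mk_eq {x : V.integer} {k : ℤ} :
    Ideal.Quotient.mk (Pc_I V) x = (k : V.integer ⧸ Pc_I V) ↔ V ((x : F) - k) ≤ exp (-3) := by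
  have e : (k : V.integer ⧸ Pc_I V) = Ideal.Quotient.mk (Pc_I V) (k : V.integer) := by simp
  rw [e, Ideal.Quotient.eq, Pc_mem]
  push_cast
  rfl

private lemma Pc_small (h2 : V 2 = exp (-1)) {x : V.integer} {k : ℤ} {t : ℕ} (ht : t ≤ 3)
    (h : Ideal.Quotient.mk (Pc_I V) x = (k : V.integer ⧸ Pc_I V)) (hk : (2 : ℤ) ^ t ∣ k) :
    V (x : F) ≤ exp (-(t : ℤ)) := by
  rw [Pc_mk_eq] at h
  have e : (x : F) = ((x : F) - k) + k := by ring
  rw [e]
  refine V.map_add_le (h.trans (exp_le_exp.2 ?_)) (Pc_dvd_le h2 hk)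
  omega

end Pc

section Fin

private def Pc_r (i j : Bool) : Fin 3 → ℤ :=
  if i then (if j then ![-1, -1, 2] else ![1, 2, 0]) else (if j then ![-1, 1, 0] else ![1, 0, 0])

private lemma Pc_fin1 : ∀ n0 n1 n2 m : Fin 8, ¬ (2 : ℤ) ∣ ((n0 : ℕ) : ℤ) →
    (8 : ℤ) ∣ Te_nf (4 : ℤ) 2 ![((n0 : ℕ) : ℤ), ((n1 : ℕ) : ℤ), ((n2 : ℕ) : ℤ)] - ((m : ℕ) : ℤ) ^ 2 →
    (8 : ℤ) ∣ Te_nf (4 : ℤ) 2 ![((n0 : ℕ) : ℤ), ((n1 : ℕ) : ℤ), ((n2 : ℕ) : ℤ)] - 1 := by
  decide +kernel

private lemma Pc_fin2 : ∀ n0 n1 n2 : Fin 8, ¬ (2 : ℤ) ∣ ((n0 : ℕ) : ℤ) →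
    (8 : ℤ) ∣ Te_nf (4 : ℤ) 2 ![((n0 : ℕ) : ℤ), ((n1 : ℕ) : ℤ), ((n2 : ℕ) : ℤ)] - 1 →
    ∃ z1 z2 : Fin 2, ∃ i j : Bool,
      (8 : ℤ) ∣ m3 (4 : ℤ) 2 ![((n0 : ℕ) : ℤ), ((n1 : ℕ) : ℤ), ((n2 : ℕ) : ℤ)]
        (m3 (4 : ℤ) 2 ![1, ((z1 : ℕ) : ℤ), ((z2 : ℕ) : ℤ)] ![1, ((z1 : ℕ) : ℤ), ((z2 : ℕ) : ℤ)]) 0
          - Pc_r i j 0 ∧
      (4 : ℤ) ∣ m3 (4 : ℤ) 2 ![((n0 : ℕ) : ℤ), ((n1 : ℕ) : ℤ), ((n2 : ℕ) : ℤ)]
        (m3 (4 : ℤ) 2 ![1, ((z1 : ℕ) : ℤ), ((z2 : ℕ) : ℤ)] ![1, ((z1 : ℕ) : ℤ), ((z2 : ℕ) : ℤ)]) 1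
          - Pc_r i j 1 ∧
      (4 : ℤ) ∣ m3 (4 : ℤ) 2 ![((n0 : ℕ) : ℤ), ((n1 : ℕ) : ℤ), ((n2 : ℕ) : ℤ)]
        (m3 (4 : ℤ) 2 ![1, ((z1 : ℕ) : ℤ), ((z2 : ℕ) : ℤ)] ![1, ((z1 : ℕ) : ℤ), ((z2 : ℕ) : ℤ)]) 2
          - Pc_r i j 2 := by
  decide +kernel

end Fin

/-- Every `v`-integral element is congruent to a natural number. -/
theorem rm_nat {A B : K} {θ : L} {v : HeightOneSpectrum (𝓞 K)} {w : HeightOneSpectrum (𝓞 L)}
    (hr : Rm K A B θ v w) (k : ℕ) {x : K} (hx : v.valuation K x ≤ 1) :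
    ∃ n : ℕ, n < 2 ^ k ∧ v.valuation K (x - n) ≤ exp (-(k : ℤ)) :=
  Pc_nat hr.two hr.res k hx

/-- The coordinates when the valuation is at most one. -/
private lemma Pc_coord {A B : K} {θ : L} {v : HeightOneSpectrum (𝓞 K)}
    {w : HeightOneSpectrum (𝓞 L)} (hr : Rm K A B θ v w) {c : Fin 3 → K} {t : ℤ}
    (h : w.valuation L (ev (θ / 2) c) ≤ exp t) :
    v.valuation K (c 0) ^ 3 ≤ exp t ∧ v.valuation K (c 1) ^ 3 ≤ exp (t + 1) ∧
      v.valuation K (c 2) ^ 3 ≤ exp (t + 2) := by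
  rw [rm_val hr] at h
  have h0 := (le_max_left _ _).trans h
  have h1 := ((le_max_left _ _).trans (le_max_right _ _)).trans h
  have h2 := ((le_max_right _ _).trans (le_max_right _ _)).trans h
  have key : ∀ (g : WithZero (Multiplicative ℤ)) (s : ℤ), g * exp (-s) ≤ exp t →
      g ≤ exp (t + s) := by
    intro g s hg
    have := mul_le_mul' hg (le_refl (exp s))
    rwa [mul_assoc, ← exp_add, ← exp_add, neg_add_cancel, exp_zero, mul_one] at this
  exact ⟨h0, key _ _ h1, key _ _ h2⟩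

/-- Conversely. -/
private lemma Pc_coord' {A B : K} {θ : L} {v : HeightOneSpectrum (𝓞 K)}
    {w : HeightOneSpectrum (𝓞 L)} (hr : Rm K A B θ v w) {c : Fin 3 → K} {t0 t1 t2 t : ℤ}
    (h0 : v.valuation K (c 0) ≤ exp t0) (h1 : v.valuation K (c 1) ≤ exp t1)
    (h2 : v.valuation K (c 2) ≤ exp t2) (ht0 : 3 * t0 ≤ t) (ht1 : 3 * t1 - 1 ≤ t)
    (ht2 : 3 * t2 - 2 ≤ t) : w.valuation L (ev (θ / 2) c) ≤ exp t := by
  rw [rm_val hr]
  have key : ∀ (g : WithZero (Multiplicative ℤ)) (s : ℤ), g ≤ exp s → g ^ 3 ≤ exp (3 * s) := by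
    intro g s hg
    have := pow_le_pow_left' hg 3
    rwa [← exp_nsmul, nsmul_eq_mul] at this
  refine max_le ((key _ _ h0).trans (exp_le_exp.2 ht0)) (max_le ?_ ?_)
  · refine (mul_le_mul' (key _ _ h1) le_rfl).trans ?_
    rw [← exp_add, exp_le_exp]
    omega
  · refine (mul_le_mul' (key _ _ h2) le_rfl).trans ?_
    rw [← exp_add, exp_le_exp]
    omega

/-- The valuation is not odd. -/
private lemma Pc_case1 {A B : K} {θ : L} {v : HeightOneSpectrum (𝓞 K)}
    {w : HeightOneSpectrum (𝓞 L)} (hr : Rm K A B θ v w) {c : Fin 3 → K}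
    (hw : w.valuation L (ev (θ / 2) c) = exp (-1)) {s : K}
    (hs : Te_nf (A / 4) (B / 8) c = s * s) : False := by
  obtain ⟨k0, k1, k2⟩ := Pc_coord hr hw.le
  have c0 : v.valuation K (c 0) ≤ exp (-1) := Pc_cub k0 (by norm_num)
  have c1 : v.valuation K (c 1) ≤ exp 0 := Pc_cub k1 (by norm_num)
  have c2 : v.valuation K (c 2) ≤ exp 0 := Pc_cub k2 (by norm_num)
  have c1' : v.valuation K (c 1) = exp 0 := by
    by_contra hne
    have h1 := Pc_disc (lt_of_le_of_ne c1 hne)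
    have h2 := Pc_coord' hr (t := -2) c0 h1 c2 (by norm_num) (by norm_num) (by norm_num)
    rw [hw, exp_le_exp] at h2
    norm_num at h2
  have ha : v.valuation K (A / 4) ≤ exp (-2) := by
    have e : A / 4 = (A / 4 - 4) + ((4 : ℤ) : K) := by push_cast; ring
    rw [e]
    refine Valuation.map_add_le _ (hr.A4.trans (exp_le_exp.2 (by norm_num))) ?_
    exact Pc_dvd_le (t := 2) hr.two (by norm_num)
  have hb : v.valuation K (B / 8) = exp (-1) := by
    have e : B / 8 = (B / 8 - 2) + 2 := by ring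
    rw [e, Valuation.map_add_eq_of_lt_right, hr.two]
    rw [hr.two]
    exact lt_of_le_of_lt hr.B8 (exp_lt_exp.2 (by norm_num))
  have e : Te_nf (A / 4) (B / 8) c = c 0 * (((c 0 - A / 4 * c 2) * (c 0 - A / 4 * c 2) +
      A / 4 * (c 1 * c 1)) + B / 8 * (c 1 * c 2)) + B / 8 * (c 2 * (c 0 * c 1 + B / 8 * (c 2 * c 2)))
      + B / 8 * (c 1 * (c 0 * c 2)) - A / 4 * (B / 8 * (c 1 * (c 2 * c 2))) -
      B / 8 * (c 1 * (c 1 * c 1)) := by
    rw [Te_nf]
    ring
  have b1 : v.valuation K (c 0 * (((c 0 - A / 4 * c 2) * (c 0 - A / 4 * c 2) +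
      A / 4 * (c 1 * c 1)) + B / 8 * (c 1 * c 2))) ≤ exp (-2) := by
    have q1 : v.valuation K (A / 4 * c 2) ≤ exp (-1) := Pc_mul' ha c2 (by norm_num)
    have q2 := Valuation.map_sub_le (v := v.valuation K) c0 q1
    have q3 := Pc_mul' q2 q2 (u := -1) (by norm_num)
    have q4 := Pc_mul' ha (Pc_mul' c1 c1 (u := 0) (by norm_num)) (u := -1) (by norm_num)
    have q5 := Pc_mul' hb.le (Pc_mul' c1 c2 (u := 0) (by norm_num)) (u := -1) (by norm_num)
    exact Pc_mul' c0 (Valuation.map_add_le _ (Valuation.map_add_le _ q3 q4) q5) (by norm_num)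
  have b2 : v.valuation K (B / 8 * (c 2 * (c 0 * c 1 + B / 8 * (c 2 * c 2)))) ≤ exp (-2) := by
    have q1 := Pc_mul' c0 c1 (u := -1) (by norm_num)
    have q2 := Pc_mul' hb.le (Pc_mul' c2 c2 (u := 0) (by norm_num)) (u := -1) (by norm_num)
    exact Pc_mul' hb.le (Pc_mul' c2 (Valuation.map_add_le _ q1 q2) (u := -1) (by norm_num))
      (by norm_num)
  have b3 : v.valuation K (B / 8 * (c 1 * (c 0 * c 2))) ≤ exp (-2) :=
    Pc_mul' hb.le (Pc_mul' c1 (Pc_mul' c0 c2 (u := -1) (by norm_num)) (u := -1) (by norm_num))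
      (by norm_num)
  have b4 : v.valuation K (A / 4 * (B / 8 * (c 1 * (c 2 * c 2)))) ≤ exp (-2) :=
    Pc_mul' ha (Pc_mul' hb.le (Pc_mul' c1 (Pc_mul' c2 c2 (u := 0) (by norm_num)) (u := 0)
      (by norm_num)) (u := 0) (by norm_num)) (by norm_num)
  have b5 : v.valuation K (B / 8 * (c 1 * (c 1 * c 1))) = exp (-1) := by
    rw [map_mul, map_mul, map_mul, hb, c1', exp_zero]
    simp
  have b6 : v.valuation K (Te_nf (A / 4) (B / 8) c) = exp (-1) := by
    rw [e, Valuation.map_sub_eq_of_lt_right, b5]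
    rw [b5]
    exact lt_of_le_of_lt (Valuation.map_sub_le (v := v.valuation K)
      (Valuation.map_add_le _ (Valuation.map_add_le _ b1 b2) b3) b4)
      (exp_lt_exp.2 (by norm_num : (-2 : ℤ) < -1))
  rw [hs, map_mul] at b6
  by_cases hs0 : v.valuation K s = 0
  · rw [hs0, mul_zero] at b6
    exact exp_ne_zero b6.symm
  · rw [← exp_log hs0, ← exp_add] at b6
    have := exp_injective b6
    omega

/-- The unit case. -/
private lemma Pc_case2 {A B : K} {θ : L} (h : Cub K L A B θ) {v : HeightOneSpectrum (𝓞 K)}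
    {w : HeightOneSpectrum (𝓞 L)} (hr : Rm K A B θ v w) {c : Fin 3 → K}
    (hw : w.valuation L (ev (θ / 2) c) = exp 0) {s : K}
    (hs : Te_nf (A / 4) (B / 8) c = s * s) : ∃ i j : ZMod 2, Nr w (ev (θ / 2) c) (rho θ i j) := by
  set V := v.valuation K with hV
  obtain ⟨k0, k1, k2⟩ := Pc_coord hr hw.le
  have c0 : V (c 0) ≤ exp 0 := Pc_cub k0 (by norm_num)
  have c1 : V (c 1) ≤ exp 0 := Pc_cub k1 (by norm_num)
  have c2 : V (c 2) ≤ exp 0 := Pc_cub k2 (by norm_num)
  have c0' : V (c 0) = exp 0 := by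
    by_contra hne
    have h1 := Pc_disc (lt_of_le_of_ne c0 hne)
    have h2 := Pc_coord' hr (t := -1) h1 c1 c2 (by norm_num) (by norm_num) (by norm_num)
    rw [hw, exp_le_exp] at h2
    norm_num at h2
  have ha : V (A / 4) ≤ exp 0 := by
    have e : A / 4 = (A / 4 - 4) + ((4 : ℤ) : K) := by push_cast; ring
    rw [e]
    refine Valuation.map_add_le _ (hr.A4.trans (exp_le_exp.2 (by norm_num))) ?_
    exact (Pc_int_le 4).trans_eq exp_zero.symm
  have hb : V (B / 8) ≤ exp 0 := by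
    have e : B / 8 = (B / 8 - 2) + ((2 : ℤ) : K) := by push_cast; ring
    rw [e]
    refine Valuation.map_add_le _ (hr.B8.trans (exp_le_exp.2 (by norm_num))) ?_
    exact (Pc_int_le 2).trans_eq exp_zero.symm
  -- integral elements
  have key : ∀ x : K, V x ≤ exp 0 → ∃ X : V.integer, (X : K) = x := fun x hx =>
    ⟨⟨x, le_of_le_of_eq hx exp_zero⟩, rfl⟩
  obtain ⟨a, ha'⟩ := key _ ha
  obtain ⟨b, hb'⟩ := key _ hb
  have hc : ∀ j, ∃ X : V.integer, (X : K) = c j := by
    intro j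
    fin_cases j
    exacts [key _ c0, key _ c1, key _ c2]
  choose C hC using hc
  have hnfC : ((Te_nf a b C : V.integer) : K) = Te_nf (A / 4) (B / 8) c := by
    have := Te_nf_map V.integer.subtype a b C
    simp only [Subring.subtype_apply, ha', hb', hC] at this
    exact this.symm
  have hsi : V s ≤ exp 0 := by
    have h1 : V s * V s ≤ 1 := by
      rw [← map_mul, ← hs, ← hnfC]
      exact (Te_nf a b C).2
    by_contra hlt
    rw [not_le, exp_zero] at hlt
    have h3 := mul_lt_mul'' hlt hlt zero_le zero_le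
    rw [mul_one] at h3
    exact absurd h1 (not_le.2 h3)
  obtain ⟨S, hS⟩ := key _ hsi
  -- approximation
  have appr : ∀ X : V.integer, ∃ n : Fin 8,
      Ideal.Quotient.mk (Pc_I V) X = (((n : ℕ) : ℤ) : V.integer ⧸ Pc_I V) := by
    intro X
    obtain ⟨n, hn, hv⟩ := Pc_nat hr.two hr.res 3 (x := (X : K)) X.2
    refine ⟨⟨n, hn⟩, ?_⟩
    rw [Pc_mk_eq]
    simpa using hv
  choose N hN using appr
  have hqa : Ideal.Quotient.mk (Pc_I V) a = (((4 : ℤ)) : V.integer ⧸ Pc_I V) := by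
    rw [Pc_mk_eq, ha']
    push_cast
    exact hr.A4.trans (exp_le_exp.2 (by norm_num))
  have hqb : Ideal.Quotient.mk (Pc_I V) b = (((2 : ℤ)) : V.integer ⧸ Pc_I V) := by
    rw [Pc_mk_eq, hb']
    push_cast
    exact hr.B8.trans (exp_le_exp.2 (by norm_num))
  set n : Fin 3 → ℤ := ![(((N (C 0) : Fin 8) : ℕ) : ℤ), (((N (C 1) : Fin 8) : ℕ) : ℤ),
    (((N (C 2) : Fin 8) : ℕ) : ℤ)] with hn
  have hqn : ∀ j, Ideal.Quotient.mk (Pc_I V) (C j) = (n j : V.integer ⧸ Pc_I V) := by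
    intro j
    fin_cases j
    exacts [hN (C 0), hN (C 1), hN (C 2)]
  have hqnf : Ideal.Quotient.mk (Pc_I V) (Te_nf a b C) =
      ((Te_nf (4 : ℤ) 2 n : ℤ) : V.integer ⧸ Pc_I V) := by
    rw [← Te_nf_map, hqa, hqb]
    have := Te_nf_map (Int.castRingHom (V.integer ⧸ Pc_I V)) (4 : ℤ) 2 n
    simp only [eq_intCast] at this
    rw [← this]
    congr 1
    funext j
    exact hqn j
  have hqS : Ideal.Quotient.mk (Pc_I V) S = (((N S : Fin 8) : ℕ) : ℤ) := hN S
  have hSS : Te_nf a b C = S * S := by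
    apply Subtype.ext
    push_cast
    rw [hnfC, hs, hS]
  have hdv : (8 : ℤ) ∣ Te_nf (4 : ℤ) 2 n - (((N S : Fin 8) : ℕ) : ℤ) ^ 2 := by
    have h1 : Ideal.Quotient.mk (Pc_I V) (0 : V.integer) =
        ((Te_nf (4 : ℤ) 2 n - (((N S : Fin 8) : ℕ) : ℤ) ^ 2 : ℤ) : V.integer ⧸ Pc_I V) := by
      rw [Int.cast_sub, ← hqnf, hSS, map_mul, hqS, map_zero]
      push_cast
      ring
    rw [Pc_mk_eq] at h1
    have h2 : V ((Te_nf (4 : ℤ) 2 n - (((N S : Fin 8) : ℕ) : ℤ) ^ 2 : ℤ) : K) ≤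
        exp (-((3 : ℕ) : ℤ)) := by
      rw [← Valuation.map_neg]
      simpa using h1
    exact Pc_le_dvd hr.two 3 h2
  have hodd : ¬ (2 : ℤ) ∣ (((N (C 0) : Fin 8) : ℕ) : ℤ) := by
    intro h2
    have h3 := Pc_small hr.two (t := 1) (by norm_num) (hN (C 0)) (by simpa using h2)
    rw [hC, c0', exp_le_exp] at h3
    norm_num at h3
  have h1 := Pc_fin1 _ _ _ _ hodd hdv
  obtain ⟨z1, z2, i, j, d0, d1, d2⟩ := Pc_fin2 _ _ _ hodd h1
  set z : Fin 3 → ℤ := ![1, ((z1 : ℕ) : ℤ), ((z2 : ℕ) : ℤ)] with hz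
  set Z : Fin 3 → V.integer := fun t => ((z t : ℤ) : V.integer) with hZ
  have hqm : ∀ (u u' : Fin 3 → V.integer) (m m' : Fin 3 → ℤ),
      (∀ t, Ideal.Quotient.mk (Pc_I V) (u t) = (m t : V.integer ⧸ Pc_I V)) →
      (∀ t, Ideal.Quotient.mk (Pc_I V) (u' t) = (m' t : V.integer ⧸ Pc_I V)) →
      ∀ t, Ideal.Quotient.mk (Pc_I V) (m3 a b u u' t) =
        ((m3 (4 : ℤ) 2 m m' t : ℤ) : V.integer ⧸ Pc_I V) := by
    intro u u' m m' hu hu' t
    rw [← Te_m3_map, hqa, hqb]
    have := Te_m3_map (Int.castRingHom (V.integer ⧸ Pc_I V)) (4 : ℤ) 2 m m' t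
    simp only [eq_intCast] at this
    rw [← this]
    congr 1
    · funext j
      exact hu j
    · funext j
      exact hu' j
  have hqZ : ∀ t, Ideal.Quotient.mk (Pc_I V) (Z t) = (z t : V.integer ⧸ Pc_I V) := by
    intro t
    simp [hZ]
  have hqD : ∀ t, Ideal.Quotient.mk (Pc_I V) (m3 a b C (m3 a b Z Z) t - ((Pc_r i j t : ℤ) :
      V.integer)) = ((m3 (4 : ℤ) 2 n (m3 (4 : ℤ) 2 z z) t - Pc_r i j t : ℤ) :
        V.integer ⧸ Pc_I V) := by
    intro t
    rw [map_sub, hqm _ _ _ _ hqn (hqm _ _ _ _ hqZ hqZ), Int.cast_sub]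
    simp
  have e0 := Pc_small hr.two (t := 3) (by norm_num) (hqD 0) (by simpa using d0)
  have e1 := Pc_small hr.two (t := 2) (by norm_num) (hqD 1) (by simpa using d1)
  have e2 := Pc_small hr.two (t := 2) (by norm_num) (hqD 2) (by simpa using d2)
  have hcub := rm_cub h
  set D : Fin 3 → K := fun t => ((m3 a b C (m3 a b Z Z) t - ((Pc_r i j t : ℤ) :
      V.integer) : V.integer) : K) with hD
  have hval := Pc_coord' hr (c := D) (t := -7) e0 e1 e2 (by norm_num) (by norm_num) (by norm_num)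
  have hDe : ∀ t, D t = m3 (A / 4) (B / 8) c (m3 (A / 4) (B / 8) (fun t => (z t : K))
      (fun t => (z t : K))) t - (Pc_r i j t : K) := by
    intro t
    have f1 : ∀ t, ((m3 a b Z Z t : V.integer) : K) = m3 (A / 4) (B / 8) (fun t => (z t : K))
      (fun t => (z t : K)) t := by
      intro t
      have := Te_m3_map V.integer.subtype a b Z Z t
      simp only [Subring.subtype_apply, ha', hb', hZ] at this
      push_cast at this
      exact this.symm
    have f2 := Te_m3_map V.integer.subtype a b C (m3 a b Z Z) t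
    simp only [Subring.subtype_apply, ha', hb', hC, f1] at f2
    rw [hD]
    push_cast
    rw [← f2]
  have hrho : rho θ (if i then 1 else 0) (if j then 1 else 0) =
      ev (θ / 2) (fun t => (Pc_r i j t : K)) := by
    have h10 : (1 : ZMod 2) ≠ 0 := by decide
    have m2 : algebraMap K L 2 = 2 := map_ofNat _ 2
    cases i <;> cases j <;> simp [rho, ev, Pc_r, h10, m2] <;> ring
  refine ⟨if i then 1 else 0, if j then 1 else 0, ev (θ / 2) (fun t => (z t : K)), ?_, ?_⟩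
  · intro h0
    have := (hcub.li _ _ _ h0).1
    simp [hz] at this
  · have g1 : ev (θ / 2) c * ev (θ / 2) (fun t => (z t : K)) ^ 2 -
        rho θ (if i then 1 else 0) (if j then 1 else 0) = ev (θ / 2) D := by
      rw [hrho, sq, Te_ev_mul hcub, Te_ev_mul hcub]
      have : D = fun t => m3 (A / 4) (B / 8) c (m3 (A / 4) (B / 8) (fun t => (z t : K))
        (fun t => (z t : K))) t - (Pc_r i j t : K) := funext hDe
      rw [this]
      simp only [ev, map_sub]
      ring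
    have g2 : w.valuation L 4 = exp (-6) := by
      have h4 := hr.val 4
      have h5 : v.valuation K (4 : K) = exp (-2) := by
        have := Pc_two_pow (V := v.valuation K) hr.two 2
        rw [← hV] at this ⊢
        norm_num at this ⊢
        exact this
      rw [h5, ← exp_nsmul] at h4
      have m4 : algebraMap K L 4 = 4 := map_ofNat _ 4
      rw [m4] at h4
      simpa using h4
    rw [g1, g2]
    exact lt_of_le_of_lt hval (exp_lt_exp.2 (by norm_num))

theorem rm_class {A B : K} {θ : L} (h : Cub K L A B θ) {v : HeightOneSpectrum (𝓞 K)}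
    {w : HeightOneSpectrum (𝓞 L)} (hr : Rm K A B θ v w) {y : L} (hy : y ≠ 0)
    (hN : IsSquare (Algebra.norm K y)) : ∃ i j : ZMod 2, Nr w y (rho θ i j) := by
  have hcub := rm_cub h
  have hom0 : θ / 2 ≠ 0 := by
    intro h0
    have := hr.om
    rw [h0, map_zero] at this
    exact exp_ne_zero this.symm
  have hwy : w.valuation L y ≠ 0 := (Valuation.ne_zero_iff _).2 hy
  set m : ℤ := log (w.valuation L y) with hm
  have hwm : w.valuation L y = exp m := (exp_log hwy).symm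
  set k : ℤ := (m + 1) / 2 with hk
  set z : L := (θ / 2) ^ k with hz
  have hz0 : z ≠ 0 := zpow_ne_zero _ hom0
  have hwz : w.valuation L z = exp (-k) := by
    rw [hz, map_zpow₀, hr.om, ← exp_zsmul]
    congr 1
    simp
  have hwy' : w.valuation L (y * (z * z)) = exp (m - 2 * k) := by
    rw [map_mul, map_mul, hwm, hwz, ← exp_add, ← exp_add]
    congr 1
    ring
  obtain ⟨s, hs⟩ := hN
  have hN' : Algebra.norm K (y * (z * z)) = (s * Algebra.norm K z) * (s * Algebra.norm K z) := by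
    rw [map_mul, map_mul, hs]
    ring
  obtain ⟨c0, c1, c2, hc⟩ := hcub.sp (y * (z * z))
  have hc' : y * (z * z) = ev (θ / 2) ![c0, c1, c2] := by
    rw [hc]
    simp [ev]
  rw [hc'] at hwy' hN'
  rw [Te_norm hcub] at hN'
  have hmk : m - 2 * k = 0 ∨ m - 2 * k = -1 := by omega
  rcases hmk with h0 | h0
  · rw [h0] at hwy'
    obtain ⟨i, j, z', hz', hlt⟩ := Pc_case2 h hr hwy' hN'
    refine ⟨i, j, z * z', mul_ne_zero hz0 hz', ?_⟩
    rw [← hc'] at hlt
    have e : y * (z * z') ^ 2 = y * (z * z) * z' ^ 2 := by ring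
    rw [e]
    exact hlt
  · rw [h0] at hwy'
    exact (Pc_case1 hr hwy' hN').elim

end H76MQ

end S_H76_MQ_Pc

section S_H76_MQ_Pd

set_option autoImplicit false
set_option linter.unusedSectionVars false
open scoped Classical

open WithZero NumberField IsDedekindDomain H38RT
open H38T1 (SC sc scu rep eo la si Pri OddP tp unif ka)
open H76PP

namespace H76MQ

variable {K L : Type} [Field K] [NumberField K] [Field L] [NumberField L] [Algebra K L]



private lemma Pd_cube {g : WithZero (Multiplicative ℤ)} {m k : ℤ} (h : g ^ 3 ≤ exp m)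
    (hk : m < 3 * k + 3) : g ≤ exp k := by
  by_contra h1
  rw [not_le] at h1
  have h0 : g ≠ 0 := by
    rintro rfl
    exact absurd h1 (not_lt.2 zero_le)
  rw [← exp_log h0] at h h1
  rw [exp_lt_exp] at h1
  rw [← exp_nsmul, exp_le_exp] at h
  simp only [nsmul_eq_mul] at h
  push_cast at h
  omega

private lemma Pd_cube2 {g : WithZero (Multiplicative ℤ)} {m k l : ℤ} (h : g ^ 3 * exp l ≤ exp m)
    (hk : m < 3 * k + 3 + l) : g ≤ exp k := by
  refine Pd_cube (m := m - l) ?_ (by omega)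
  have e1 : g ^ 3 = g ^ 3 * exp l * exp (-l) := by
    rw [mul_assoc, ← exp_add, add_neg_cancel, exp_zero, mul_one]
  rw [e1, sub_eq_add_neg, exp_add]
  exact mul_le_mul_left h _



/-- congruence of integral elements -/
private def Pd_Cg (v : HeightOneSpectrum (𝓞 K)) (t : WithZero (Multiplicative ℤ)) (x y : K) :
    Prop := v.valuation K (x - y) ≤ t ∧ v.valuation K x ≤ 1 ∧ v.valuation K y ≤ 1

private lemma Pd_int (v : HeightOneSpectrum (𝓞 K)) (n : ℤ) : v.valuation K (n : K) ≤ 1 := by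
  have h := v.valuation_le_one (K := K) (n : 𝓞 K)
  simpa using h

private lemma Pd_Cg_int (v : HeightOneSpectrum (𝓞 K)) (t : WithZero (Multiplicative ℤ)) (n : ℤ) :
    Pd_Cg v t (n : K) (n : K) := by
  refine ⟨?_, Pd_int v n, Pd_int v n⟩
  rw [sub_self, map_zero]
  exact zero_le

private lemma Pd_Cg_add {v : HeightOneSpectrum (𝓞 K)} {t : WithZero (Multiplicative ℤ)}
    {x y x' y' : K} (h : Pd_Cg v t x y) (h' : Pd_Cg v t x' y') : Pd_Cg v t (x + x') (y + y') := by
  obtain ⟨h1, h2, h3⟩ := h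
  obtain ⟨h1', h2', h3'⟩ := h'
  refine ⟨?_, (Valuation.map_add _ _ _).trans (max_le h2 h2'),
    (Valuation.map_add _ _ _).trans (max_le h3 h3')⟩
  have e : x + x' - (y + y') = (x - y) + (x' - y') := by ring
  rw [e]
  exact (Valuation.map_add _ _ _).trans (max_le h1 h1')

private lemma Pd_Cg_neg {v : HeightOneSpectrum (𝓞 K)} {t : WithZero (Multiplicative ℤ)}
    {x y : K} (h : Pd_Cg v t x y) : Pd_Cg v t (-x) (-y) := by
  obtain ⟨h1, h2, h3⟩ := h
  refine ⟨?_, by rwa [Valuation.map_neg], by rwa [Valuation.map_neg]⟩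
  have e : -x - -y = -(x - y) := by ring
  rw [e, Valuation.map_neg]
  exact h1

private lemma Pd_Cg_sub {v : HeightOneSpectrum (𝓞 K)} {t : WithZero (Multiplicative ℤ)}
    {x y x' y' : K} (h : Pd_Cg v t x y) (h' : Pd_Cg v t x' y') : Pd_Cg v t (x - x') (y - y') := by
  rw [sub_eq_add_neg, sub_eq_add_neg]
  exact Pd_Cg_add h (Pd_Cg_neg h')

private lemma Pd_Cg_mul {v : HeightOneSpectrum (𝓞 K)} {t : WithZero (Multiplicative ℤ)}
    {x y x' y' : K} (h : Pd_Cg v t x y) (h' : Pd_Cg v t x' y') : Pd_Cg v t (x * x') (y * y') := by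
  obtain ⟨h1, h2, h3⟩ := h
  obtain ⟨h1', h2', h3'⟩ := h'
  refine ⟨?_, by rw [map_mul]; exact mul_le_one' h2 h2', by rw [map_mul]; exact mul_le_one' h3 h3'⟩
  have e : x * x' - y * y' = (x - y) * x' + y * (x' - y') := by ring
  rw [e]
  refine (Valuation.map_add _ _ _).trans (max_le ?_ ?_)
  · rw [map_mul]
    exact (mul_le_mul' h1 h2').trans_eq (mul_one _)
  · rw [map_mul]
    exact (mul_le_mul' h3 h1').trans_eq (one_mul _)

private lemma Pd_Cg_m3 {v : HeightOneSpectrum (𝓞 K)} {t : WithZero (Multiplicative ℤ)}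
    {a a' b b' : K} (ha : Pd_Cg v t a a') (hb : Pd_Cg v t b b') {x x' y y' : Fin 3 → K}
    (hx : ∀ j, Pd_Cg v t (x j) (x' j)) (hy : ∀ j, Pd_Cg v t (y j) (y' j)) (j : Fin 3) :
    Pd_Cg v t (m3 a b x y j) (m3 a' b' x' y' j) := by
  have hh : ∀ i k, Pd_Cg v t (x i * y k) (x' i * y' k) := fun i k => Pd_Cg_mul (hx i) (hy k)
  fin_cases j
  · exact Pd_Cg_sub (hh 0 0) (Pd_Cg_mul hb (Pd_Cg_add (hh 1 2) (hh 2 1)))
  · exact Pd_Cg_sub (Pd_Cg_sub (Pd_Cg_add (hh 0 1) (hh 1 0))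
      (Pd_Cg_mul ha (Pd_Cg_add (hh 1 2) (hh 2 1)))) (Pd_Cg_mul hb (hh 2 2))
  · exact Pd_Cg_sub (Pd_Cg_add (Pd_Cg_add (hh 0 2) (hh 1 1)) (hh 2 0)) (Pd_Cg_mul ha (hh 2 2))



/-- coordinates of the representatives -/
private def Pd_r (i j : ZMod 2) : Fin 3 → ℤ :=
  if i = 0 then (if j = 0 then ![1, 0, 0] else ![-1, 1, 0])
  else (if j = 0 then ![1, 2, 0] else ![-1, -1, 2])

/-- coordinates of the difference -/
private def Pd_D (i j i' j' : ZMod 2) (n : Fin 3 → ℤ) (t : Fin 3) : ℤ :=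
  m3 4 2 (Pd_r i' j') (m3 4 2 n n) t - Pd_r i j t

private lemma Pd_dec : ∀ (i j i' j' : ZMod 2) (n0 : Fin 4) (n1 n2 : Fin 2),
    (8 : ℤ) ∣ Pd_D i j i' j' ![((n0 : ℕ) : ℤ), ((n1 : ℕ) : ℤ), ((n2 : ℕ) : ℤ)] 0 →
    (4 : ℤ) ∣ Pd_D i j i' j' ![((n0 : ℕ) : ℤ), ((n1 : ℕ) : ℤ), ((n2 : ℕ) : ℤ)] 1 →
    (4 : ℤ) ∣ Pd_D i j i' j' ![((n0 : ℕ) : ℤ), ((n1 : ℕ) : ℤ), ((n2 : ℕ) : ℤ)] 2 →
    i = i' ∧ j = j' := by
  decide +kernel

private lemma Pd_dvd (v : HeightOneSpectrum (𝓞 K)) (h2 : v.valuation K 2 = exp (-1)) (k : ℕ) :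
    ∀ D : ℤ, v.valuation K (D : K) ≤ exp (-(k : ℤ)) → (2 : ℤ) ^ k ∣ D := by
  induction k with
  | zero =>
    intro D _
    rw [pow_zero]
    exact one_dvd D
  | succ k ih =>
    intro D hD
    have hlt : v.valuation K (D : K) < 1 := by
      refine hD.trans_lt ?_
      rw [← exp_zero, exp_lt_exp]
      push_cast
      omega
    have heven : Even D := by
      by_contra hodd
      rw [Int.not_even_iff_odd] at hodd
      obtain ⟨q, hq⟩ := hodd
      have h3 : (1 : K) = (D : K) - 2 * (q : K) := by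
        rw [hq]
        push_cast
        ring
      have h4 : v.valuation K (1 : K) < 1 := by
        rw [h3]
        refine (Valuation.map_sub _ _ _).trans_lt (max_lt hlt ?_)
        rw [map_mul, h2]
        refine (mul_le_mul' le_rfl (Pd_int v q)).trans_lt ?_
        rw [mul_one, ← exp_zero, exp_lt_exp]
        omega
      rw [map_one] at h4
      exact lt_irrefl _ h4
    obtain ⟨q, hq⟩ := heven
    have h3 : (D : K) = 2 * (q : K) := by
      rw [hq]
      push_cast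
      ring
    rw [h3, map_mul, h2] at hD
    have h4 : v.valuation K (q : K) ≤ exp (-(k : ℤ)) := by
      have e1 : v.valuation K (q : K) = exp 1 * (exp (-1) * v.valuation K (q : K)) := by
        rw [← mul_assoc, ← exp_add]
        norm_num
      have e2 : exp (-(k : ℤ)) = exp 1 * exp (-((k + 1 : ℕ) : ℤ)) := by
        rw [← exp_add]
        congr 1
        push_cast
        ring
      rw [e1, e2]
      exact mul_le_mul' le_rfl hD
    have h5 := ih q h4
    rw [hq, pow_succ, ← mul_two]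
    exact mul_dvd_mul_right h5 2



private lemma Pd_rho (θ : L) (i j : ZMod 2) :
    rho θ i j = ev (θ / 2) (fun t => ((Pd_r i j t : ℤ) : K)) := by
  have h2 : (2 : L) ≠ 0 := two_ne_zero
  have hz : ∀ i : ZMod 2, i = 0 ∨ i = 1 := by decide
  have e2 : algebraMap K L 2 = 2 := map_ofNat _ 2
  rcases hz i with rfl | rfl <;> rcases hz j with rfl | rfl
  · simp [rho, ev, Pd_r]
  · simp [rho, ev, Pd_r]
    ring
  · simp [rho, ev, Pd_r, e2]
    field_simp
  · simp [rho, ev, Pd_r, e2]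
    field_simp
    ring

private lemma Pd_wnat {A B : K} {θ : L} {v : HeightOneSpectrum (𝓞 K)}
    {w : HeightOneSpectrum (𝓞 L)} (hr : Rm K A B θ v w) :
    w.valuation L (2 : L) = exp (-3) ∧ w.valuation L (4 : L) = exp (-6) := by
  have e2 : w.valuation L (2 : L) = exp (-3) := by
    have h := hr.val 2
    rw [hr.two, map_ofNat] at h
    rw [h]
    rfl
  refine ⟨e2, ?_⟩
  have e4 : (4 : L) = 2 * 2 := by norm_num
  rw [e4, map_mul, e2, ← exp_add]
  norm_num

private lemma Pd_key {A B : K} {θ : L} (h : Cub K L A B θ) {v : HeightOneSpectrum (𝓞 K)}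
    {w : HeightOneSpectrum (𝓞 L)} (hr : Rm K A B θ v w) {u : L} (hu : w.valuation L u ≤ 1)
    {i j i' j' : ZMod 2}
    (hd : w.valuation L (rho θ i' j' * u ^ 2 - rho θ i j) ≤ exp (-7)) : i = i' ∧ j = j' := by
  have hc := rm_cub h
  obtain ⟨c, rfl⟩ : ∃ c : Fin 3 → K, u = ev (θ / 2) c :=
    ⟨![hc.co 0 u, hc.co 1 u, hc.co 2 u], by
      have := hc.eq_co u
      simpa [ev] using this⟩
  rw [rm_val hr c] at hu
  have h0 : v.valuation K (c 0) ≤ 1 := by
    have h1 := (le_max_left _ _).trans hu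
    rw [← exp_zero] at h1 ⊢
    exact Pd_cube h1 (by norm_num)
  have h1 : v.valuation K (c 1) ≤ 1 := by
    have h1 := ((le_max_left _ _).trans (le_max_right _ _)).trans hu
    rw [← exp_zero] at h1 ⊢
    exact Pd_cube2 h1 (by norm_num)
  have h2 : v.valuation K (c 2) ≤ 1 := by
    have h1 := ((le_max_right _ _).trans (le_max_right _ _)).trans hu
    rw [← exp_zero] at h1 ⊢
    exact Pd_cube2 h1 (by norm_num)
  obtain ⟨n0, hn0, hc0⟩ := rm_nat hr 2 h0
  obtain ⟨n1, hn1, hc1⟩ := rm_nat hr 1 h1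
  obtain ⟨n2, hn2, hc2⟩ := rm_nat hr 1 h2
  obtain ⟨n, hn⟩ : ∃ n : Fin 3 → ℤ, n = ![(n0 : ℤ), (n1 : ℤ), (n2 : ℤ)] := ⟨_, rfl⟩
  obtain ⟨m, hm⟩ : ∃ m : L, m = ev (θ / 2) (fun t => ((n t : ℤ) : K)) := ⟨_, rfl⟩
  obtain ⟨x, hx⟩ : ∃ x : L, x = ev (θ / 2) (fun t => c t - ((n t : ℤ) : K)) := ⟨_, rfl⟩
  have hmx : ev (θ / 2) c = m + x := by
    rw [hm, hx]
    simp only [ev, map_sub]
    ring
  have hwm : w.valuation L m ≤ 1 := by
    rw [hm, rm_val hr]
    refine max_le (pow_le_one' (Pd_int v _) 3) (max_le ?_ ?_)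
    · refine (mul_le_mul' (pow_le_one' (Pd_int v _) 3) le_rfl).trans ?_
      rw [one_mul, ← exp_zero, exp_le_exp]
      norm_num
    · refine (mul_le_mul' (pow_le_one' (Pd_int v _) 3) le_rfl).trans ?_
      rw [one_mul, ← exp_zero, exp_le_exp]
      norm_num
  have hwx : w.valuation L x ≤ exp (-4) := by
    rw [hx, rm_val hr]
    have f0 : v.valuation K (c 0 - ((n 0 : ℤ) : K)) ≤ exp (-2) := by
      rw [hn]
      simpa using hc0
    have f1 : v.valuation K (c 1 - ((n 1 : ℤ) : K)) ≤ exp (-1) := by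
      rw [hn]
      simpa using hc1
    have f2 : v.valuation K (c 2 - ((n 2 : ℤ) : K)) ≤ exp (-1) := by
      rw [hn]
      simpa using hc2
    refine max_le ?_ (max_le ?_ ?_)
    · refine (pow_le_pow_left' f0 3).trans ?_
      rw [← exp_nsmul, exp_le_exp]
      norm_num
    · refine (mul_le_mul' (pow_le_pow_left' f1 3) le_rfl).trans ?_
      rw [← exp_nsmul, ← exp_add, exp_le_exp]
      norm_num
    · refine (mul_le_mul' (pow_le_pow_left' f2 3) le_rfl).trans ?_
      rw [← exp_nsmul, ← exp_add, exp_le_exp]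
      norm_num
  obtain ⟨w2, w4⟩ := Pd_wnat hr
  have hrho : ∀ i j : ZMod 2, w.valuation L (rho θ i j) ≤ 1 := by
    intro i j
    rw [Pd_rho (K := K), rm_val hr]
    refine max_le (pow_le_one' (Pd_int v _) 3) (max_le ?_ ?_)
    · refine (mul_le_mul' (pow_le_one' (Pd_int v _) 3) le_rfl).trans ?_
      rw [one_mul, ← exp_zero, exp_le_exp]
      norm_num
    · refine (mul_le_mul' (pow_le_one' (Pd_int v _) 3) le_rfl).trans ?_
      rw [one_mul, ← exp_zero, exp_le_exp]
      norm_num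
  have hd2 : w.valuation L (rho θ i' j' * m ^ 2 - rho θ i j) ≤ exp (-7) := by
    have e1 : rho θ i' j' * m ^ 2 - rho θ i j = (rho θ i' j' * ev (θ / 2) c ^ 2 - rho θ i j) -
        rho θ i' j' * (2 * m * x + x * x) := by
      rw [hmx]
      ring
    rw [e1]
    refine (Valuation.map_sub _ _ _).trans (max_le hd ?_)
    rw [map_mul]
    refine (mul_le_mul' (hrho i' j') le_rfl).trans ?_
    rw [one_mul]
    refine (Valuation.map_add _ _ _).trans (max_le ?_ ?_)
    · rw [map_mul, map_mul, w2]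
      refine (mul_le_mul' (mul_le_mul' le_rfl hwm) hwx).trans ?_
      rw [mul_one, ← exp_add, exp_le_exp]
      norm_num
    · rw [map_mul]
      refine (mul_le_mul' hwx hwx).trans ?_
      rw [← exp_add, exp_le_exp]
      norm_num
  -- coordinates
  obtain ⟨d, hdd⟩ : ∃ d : Fin 3 → K, d = fun t =>
      m3 (A / 4) (B / 8) (fun t => ((Pd_r i' j' t : ℤ) : K)) (m3 (A / 4) (B / 8)
        (fun t => ((n t : ℤ) : K)) (fun t => ((n t : ℤ) : K))) t - ((Pd_r i j t : ℤ) : K) :=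
    ⟨_, rfl⟩
  have e1 : rho θ i' j' * m ^ 2 - rho θ i j = ev (θ / 2) d := by
    rw [Pd_rho (K := K), Pd_rho (K := K), hm, sq, Te_ev_mul hc, Te_ev_mul hc, hdd]
    simp only [ev, map_sub]
    ring
  rw [e1, rm_val hr] at hd2
  have g0 : v.valuation K (d 0) ≤ exp (-3) := Pd_cube ((le_max_left _ _).trans hd2) (by norm_num)
  have g1 : v.valuation K (d 1) ≤ exp (-2) :=
    Pd_cube2 (((le_max_left _ _).trans (le_max_right _ _)).trans hd2) (by norm_num)
  have g2 : v.valuation K (d 2) ≤ exp (-2) :=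
    Pd_cube2 (((le_max_right _ _).trans (le_max_right _ _)).trans hd2) (by norm_num)
  have hA : Pd_Cg v (exp (-7)) (A / 4) ((4 : ℤ) : K) := by
    refine ⟨by simpa using hr.A4, ?_, Pd_int v 4⟩
    have e2 : A / 4 = (A / 4 - 4) + ((4 : ℤ) : K) := by
      push_cast
      ring
    rw [e2]
    refine (Valuation.map_add _ _ _).trans (max_le (hr.A4.trans ?_) (Pd_int v 4))
    rw [← exp_zero, exp_le_exp]
    norm_num
  have hB : Pd_Cg v (exp (-7)) (B / 8) ((2 : ℤ) : K) := by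
    refine ⟨by simpa using hr.B8, ?_, Pd_int v 2⟩
    have e2 : B / 8 = (B / 8 - 2) + ((2 : ℤ) : K) := by
      push_cast
      ring
    rw [e2]
    refine (Valuation.map_add _ _ _).trans (max_le (hr.B8.trans ?_) (Pd_int v 2))
    rw [← exp_zero, exp_le_exp]
    norm_num
  have hcg : ∀ t, v.valuation K (d t - ((Pd_D i j i' j' n t : ℤ) : K)) ≤ exp (-7) := by
    intro t
    have e2 : ((Pd_D i j i' j' n t : ℤ) : K) =
        m3 ((4 : ℤ) : K) ((2 : ℤ) : K) (fun t => ((Pd_r i' j' t : ℤ) : K))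
          (m3 ((4 : ℤ) : K) ((2 : ℤ) : K) (fun t => ((n t : ℤ) : K)) (fun t => ((n t : ℤ) : K))) t -
          ((Pd_r i j t : ℤ) : K) := by
      have e3 : (m3 ((4 : ℤ) : K) ((2 : ℤ) : K) (fun t => ((n t : ℤ) : K))
          (fun t => ((n t : ℤ) : K))) = fun t => ((m3 (4 : ℤ) 2 n n t : ℤ) : K) := by
        funext t
        exact Te_m3_map (Int.castRingHom K) 4 2 n n t
      rw [e3]
      have e4 := Te_m3_map (Int.castRingHom K) 4 2 (Pd_r i' j') (m3 (4 : ℤ) 2 n n) t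
      simp only [eq_intCast] at e4
      rw [e4]
      unfold Pd_D
      push_cast
      rfl
    rw [e2, hdd]
    exact (Pd_Cg_sub (Pd_Cg_m3 hA hB (fun t => Pd_Cg_int v _ _)
      (fun t => Pd_Cg_m3 hA hB (fun t => Pd_Cg_int v _ _) (fun t => Pd_Cg_int v _ _) t) t)
      (Pd_Cg_int v _ _)).1
  have hD : ∀ (t : Fin 3) (k : ℕ), k ≤ 7 → v.valuation K (d t) ≤ exp (-(k : ℤ)) →
      (2 : ℤ) ^ k ∣ Pd_D i j i' j' n t := by
    intro t k hk hdt
    refine Pd_dvd v hr.two k _ ?_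
    have e2 : ((Pd_D i j i' j' n t : ℤ) : K) = d t - (d t - ((Pd_D i j i' j' n t : ℤ) : K)) := by
      ring
    rw [e2]
    refine (Valuation.map_sub _ _ _).trans (max_le hdt ((hcg t).trans ?_))
    rw [exp_le_exp]
    omega
  have k0 := hD 0 3 (by norm_num) g0
  have k1 := hD 1 2 (by norm_num) g1
  have k2 := hD 2 2 (by norm_num) g2
  norm_num at k0 k1 k2
  rw [hn] at k0 k1 k2
  exact Pd_dec i j i' j' ⟨n0, by omega⟩ ⟨n1, by omega⟩ ⟨n2, by omega⟩ k0 k1 k2

private lemma Pd_sq {g : WithZero (Multiplicative ℤ)} (h : g ^ 2 = 1) : g = 1 := by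
  have h0 : g ≠ 0 := by
    rintro rfl
    rw [zero_pow two_ne_zero] at h
    exact zero_ne_one h
  rw [← exp_log h0, ← exp_nsmul, exp_eq_one] at h
  rw [← exp_log h0, exp_eq_one]
  simp only [nsmul_eq_mul] at h
  push_cast at h
  omega

private lemma Pd_lt {A B : K} {θ : L} {v : HeightOneSpectrum (𝓞 K)}
    {w : HeightOneSpectrum (𝓞 L)} (hr : Rm K A B θ v w) (x : L) :
    w.valuation L x < w.valuation L 4 ↔ w.valuation L x ≤ exp (-7) := by
  have e : w.valuation L (4 : L) = exp (-7) * exp 1 := by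
    rw [(Pd_wnat hr).2, ← exp_add]
    norm_num
  rw [e]
  exact lt_mul_exp_iff_le exp_ne_zero

private lemma Pd_rho_one {A B : K} {θ : L} {v : HeightOneSpectrum (𝓞 K)}
    {w : HeightOneSpectrum (𝓞 L)} (hr : Rm K A B θ v w) (i j : ZMod 2) :
    w.valuation L (rho θ i j) = 1 := by
  rw [Pd_rho (K := K), rm_val hr]
  have h0 : v.valuation K ((Pd_r i j 0 : ℤ) : K) = 1 := by
    have h1 : Pd_r i j 0 = 1 ∨ Pd_r i j 0 = -1 := by
      revert i j
      decide
    rcases h1 with h1 | h1 <;> rw [h1]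
    · rw [Int.cast_one, map_one]
    · rw [Int.cast_neg, Int.cast_one, Valuation.map_neg, map_one]
  rw [h0, one_pow]
  apply max_eq_left
  refine max_le ?_ ?_
  · refine (mul_le_mul' (pow_le_one' (Pd_int v _) 3) le_rfl).trans ?_
    rw [one_mul, ← exp_zero, exp_le_exp]
    norm_num
  · refine (mul_le_mul' (pow_le_one' (Pd_int v _) 3) le_rfl).trans ?_
    rw [one_mul, ← exp_zero, exp_le_exp]
    norm_num

private lemma Pd_unit {A B : K} {θ : L} {v : HeightOneSpectrum (𝓞 K)}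
    {w : HeightOneSpectrum (𝓞 L)} (hr : Rm K A B θ v w) {y z : L} {i j : ZMod 2}
    (hz : w.valuation L (y * z ^ 2 - rho θ i j) ≤ exp (-7)) :
    w.valuation L (y * z ^ 2) = 1 := by
  have e : y * z ^ 2 = (y * z ^ 2 - rho θ i j) + rho θ i j := by ring
  rw [e, Valuation.map_add_eq_of_lt_right, Pd_rho_one hr]
  rw [Pd_rho_one hr]
  refine hz.trans_lt ?_
  rw [← exp_zero, exp_lt_exp]
  norm_num

theorem rm_uniq {A B : K} {θ : L} (h : Cub K L A B θ) {v : HeightOneSpectrum (𝓞 K)}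
    {w : HeightOneSpectrum (𝓞 L)} (hr : Rm K A B θ v w) {y : L} {i j i' j' : ZMod 2}
    (h1 : Nr w y (rho θ i j)) (h2 : Nr w y (rho θ i' j')) : i = i' ∧ j = j' := by
  obtain ⟨z, hz0, hz⟩ := h1
  obtain ⟨z', hz0', hz'⟩ := h2
  rw [Pd_lt hr] at hz hz'
  have u1 := Pd_unit hr hz
  have u2 := Pd_unit hr hz'
  have hy : y ≠ 0 := by
    rintro rfl
    rw [zero_mul, map_zero] at u1
    exact zero_ne_one u1
  have hu2 : w.valuation L (z / z') ^ 2 = 1 := by
    rw [← map_pow, div_pow]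
    have e : z ^ 2 / z' ^ 2 = (y * z ^ 2) / (y * z' ^ 2) := by
      field_simp
    rw [e, map_div₀, u1, u2, div_one]
  have hu := Pd_sq hu2
  refine Pd_key h hr hu.le ?_
  have e : rho θ i' j' * (z / z') ^ 2 - rho θ i j = (y * z ^ 2 - rho θ i j) -
      (z / z') ^ 2 * (y * z' ^ 2 - rho θ i' j') := by
    field_simp
    ring
  rw [e]
  refine (Valuation.map_sub _ _ _).trans (max_le hz ?_)
  rw [map_mul, map_pow, hu2, one_mul]
  exact hz'



private lemma Pd_Nr_sq {w : HeightOneSpectrum (𝓞 L)} {y ρ s : L} (hs : s ≠ 0) (h : Nr w y ρ) :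
    Nr w (y * s ^ 2) ρ := by
  obtain ⟨z, hz0, hz⟩ := h
  refine ⟨z / s, div_ne_zero hz0 hs, ?_⟩
  have e : y * s ^ 2 * (z / s) ^ 2 = y * z ^ 2 := by field_simp
  rw [e]
  exact hz

private lemma Pd_Nr_mul {A B : K} {θ : L} {v : HeightOneSpectrum (𝓞 K)}
    {w : HeightOneSpectrum (𝓞 L)} (hr : Rm K A B θ v w) {y y' ρ ρ' : L}
    (hρ : w.valuation L ρ = 1) (hρ' : w.valuation L ρ' = 1) (h : Nr w y ρ) (h' : Nr w y' ρ') :
    Nr w (y * y') (ρ * ρ') := by
  obtain ⟨z, hz0, hz⟩ := h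
  obtain ⟨z', hz0', hz'⟩ := h'
  refine ⟨z * z', mul_ne_zero hz0 hz0', ?_⟩
  rw [Pd_lt hr] at hz hz' ⊢
  have e : y * y' * (z * z') ^ 2 - ρ * ρ' = (y * z ^ 2 - ρ) * (y' * z' ^ 2 - ρ') +
      (ρ * (y' * z' ^ 2 - ρ') + ρ' * (y * z ^ 2 - ρ)) := by ring
  rw [e]
  refine (Valuation.map_add _ _ _).trans (max_le ?_ ((Valuation.map_add _ _ _).trans
    (max_le ?_ ?_)))
  · rw [map_mul]
    refine (mul_le_mul' hz hz').trans ?_
    rw [← exp_add, exp_le_exp]
    norm_num
  · rw [map_mul, hρ, one_mul]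
    exact hz'
  · rw [map_mul, hρ', one_mul]
    exact hz

private lemma Pd_Nr_div {A B : K} {θ : L} {v : HeightOneSpectrum (𝓞 K)}
    {w : HeightOneSpectrum (𝓞 L)} (hr : Rm K A B θ v w) {y ρ s : L}
    (hs : w.valuation L s = 1) (h : Nr w y (ρ * s ^ 2)) : Nr w y ρ := by
  have hs0 : s ≠ 0 := by
    rintro rfl
    rw [map_zero] at hs
    exact zero_ne_one hs
  obtain ⟨z, hz0, hz⟩ := h
  refine ⟨z / s, div_ne_zero hz0 hs0, ?_⟩
  have e : y * (z / s) ^ 2 - ρ = (y * z ^ 2 - ρ * s ^ 2) / s ^ 2 := by field_simp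
  rw [e, map_div₀, map_pow, hs, one_pow, div_one]
  exact hz

private lemma Pd_rho_mul {A B : K} {θ : L} {v : HeightOneSpectrum (𝓞 K)}
    {w : HeightOneSpectrum (𝓞 L)} (hr : Rm K A B θ v w) (i j i' j' : ZMod 2) :
    ∃ s : L, w.valuation L s = 1 ∧
      rho θ i j * rho θ i' j' = rho θ (i + i') (j + j') * s ^ 2 := by
  have hz : ∀ i : ZMod 2, i = 0 ∨ i = 1 := by decide
  have h11 : (1 : ZMod 2) + 1 = 0 := by decide
  have h10 : (1 : ZMod 2) ≠ 0 := by decide
  have w1 : w.valuation L (1 + θ) = 1 := by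
    have := Pd_rho_one hr 1 0
    simpa [rho] using this
  have w2 : w.valuation L (θ / 2 - 1) = 1 := by
    have := Pd_rho_one hr 0 1
    simpa [rho] using this
  have k1 : ∀ i i' : ZMod 2, ∃ s : L, w.valuation L s = 1 ∧
      (if i = 0 then (1 : L) else 1 + θ) * (if i' = 0 then (1 : L) else 1 + θ) =
        (if i + i' = 0 then (1 : L) else 1 + θ) * s ^ 2 := by
    intro i i'
    rcases hz i with rfl | rfl <;> rcases hz i' with rfl | rfl
    · exact ⟨1, map_one _, by simp⟩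
    · exact ⟨1, map_one _, by simp⟩
    · exact ⟨1, map_one _, by simp⟩
    · refine ⟨1 + θ, w1, ?_⟩
      rw [h11, if_neg h10, if_pos rfl]
      ring
  have k2 : ∀ i i' : ZMod 2, ∃ s : L, w.valuation L s = 1 ∧
      (if i = 0 then (1 : L) else θ / 2 - 1) * (if i' = 0 then (1 : L) else θ / 2 - 1) =
        (if i + i' = 0 then (1 : L) else θ / 2 - 1) * s ^ 2 := by
    intro i i'
    rcases hz i with rfl | rfl <;> rcases hz i' with rfl | rfl
    · exact ⟨1, map_one _, by simp⟩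
    · exact ⟨1, map_one _, by simp⟩
    · exact ⟨1, map_one _, by simp⟩
    · refine ⟨θ / 2 - 1, w2, ?_⟩
      rw [h11, if_neg h10, if_pos rfl]
      ring
  obtain ⟨s1, hs1, e1⟩ := k1 i i'
  obtain ⟨s2, hs2, e2⟩ := k2 j j'
  refine ⟨s1 * s2, by rw [map_mul, hs1, hs2, one_mul], ?_⟩
  unfold rho
  rw [mul_mul_mul_comm, e1, e2]
  ring

private lemma Pd_sc {y y' : L} (hy : y ≠ 0) (hy' : y' ≠ 0) (h : sc y = sc y') :
    ∃ s : L, s ≠ 0 ∧ y = y' * s ^ 2 := by
  have h1 : sc (y * y') = 0 := by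
    rw [H38T1.sc_mul hy hy', h]
    exact (two_nsmul _).symm.trans (H38T1.SC.two_smul _)
  obtain ⟨t, ht⟩ := (H38T1.sc_eq_zero (mul_ne_zero hy hy')).1 h1
  have ht0 : t ≠ 0 := by
    rintro rfl
    rw [mul_zero] at ht
    exact mul_ne_zero hy hy' ht
  refine ⟨t / y', div_ne_zero ht0 hy', ?_⟩
  have e : y' * (t / y') ^ 2 = t * t / y' := by field_simp
  rw [e, ← ht]
  field_simp

theorem exists_IJ {A B : K} {θ : L} (h : Cub K L A B θ) {v : HeightOneSpectrum (𝓞 K)}
    {w : HeightOneSpectrum (𝓞 L)} (hr : Rm K A B θ v w) :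
    ∃ I J : SC L →+ ZMod 2, IJ K θ w I J := by
  have hsq : ∀ c : SC L, scm (Algebra.norm K : L →* K) c = 0 →
      IsSquare (Algebra.norm K (rep c)) := by
    intro c hc
    have h0 : (Algebra.norm K : L →* K) (rep c) ≠ 0 :=
      scm_ne (Algebra.norm K : L →* K) (H38T1.rep_ne c)
    have h1 := scm_sc (Algebra.norm K : L →* K) (H38T1.rep_ne c)
    rw [H38T1.sc_rep, hc] at h1
    exact (H38T1.sc_eq_zero h0).1 h1.symm
  obtain ⟨p, hp⟩ : ∃ p : Submodule (ZMod 2) (SC L),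
      ∀ c, c ∈ p ↔ scm (Algebra.norm K : L →* K) c = 0 :=
    ⟨AddSubgroup.toZModSubmodule 2 (scm (Algebra.norm K : L →* K)).ker, fun c => Iff.rfl⟩
  have hex : ∀ c : p, ∃ x : ZMod 2 × ZMod 2, Nr w (rep (c : SC L)) (rho θ x.1 x.2) := by
    intro c
    obtain ⟨i, j, hij⟩ := rm_class h hr (H38T1.rep_ne (c : SC L)) (hsq _ ((hp _).1 c.2))
    exact ⟨(i, j), hij⟩
  choose f hf using hex
  have huniq : ∀ (c : p) (y : L), y ≠ 0 → sc y = (c : SC L) → ∀ i j : ZMod 2,
      Nr w y (rho θ i j) → i = (f c).1 ∧ j = (f c).2 := by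
    intro c y hy hc i j hij
    obtain ⟨s, hs, e⟩ := Pd_sc hy (H38T1.rep_ne (c : SC L)) (hc.trans (H38T1.sc_rep _).symm)
    have h1 : Nr w y (rho θ (f c).1 (f c).2) := by
      rw [e]
      exact Pd_Nr_sq hs (hf c)
    exact rm_uniq h hr hij h1
  have hadd : ∀ c c' : p, f (c + c') = f c + f c' := by
    intro c c'
    have h1 := Pd_Nr_mul hr (Pd_rho_one hr (f c).1 (f c).2) (Pd_rho_one hr (f c').1 (f c').2)
      (hf c) (hf c')
    obtain ⟨s, hs, e⟩ := Pd_rho_mul hr (f c).1 (f c).2 (f c').1 (f c').2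
    rw [e] at h1
    have h2 := Pd_Nr_div hr hs h1
    have h3 := huniq (c + c') (rep (c : SC L) * rep (c' : SC L))
      (mul_ne_zero (H38T1.rep_ne _) (H38T1.rep_ne _)) (by
        rw [H38T1.sc_mul (H38T1.rep_ne _) (H38T1.rep_ne _), H38T1.sc_rep, H38T1.sc_rep]
        rfl) _ _ h2
    exact (Prod.ext h3.1 h3.2).symm
  obtain ⟨g, hg⟩ := LinearMap.exists_extend
    ((AddMonoidHom.mk' f hadd : p →+ ZMod 2 × ZMod 2).toZModLinearMap 2)
  have hgf : ∀ c : p, g (c : SC L) = f c := fun c => LinearMap.congr_fun hg c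
  have key : ∀ y : L, y ≠ 0 → IsSquare (Algebra.norm K y) → ∃ c : p, (c : SC L) = sc y := by
    intro y hy hN
    refine ⟨⟨sc y, (hp _).2 ?_⟩, rfl⟩
    rw [scm_sc (Algebra.norm K : L →* K) hy]
    exact (H38T1.sc_eq_zero (scm_ne (Algebra.norm K : L →* K) hy)).2 hN
  refine ⟨(AddMonoidHom.fst (ZMod 2) (ZMod 2)).comp g.toAddMonoidHom,
    (AddMonoidHom.snd (ZMod 2) (ZMod 2)).comp g.toAddMonoidHom, ⟨?_, ?_⟩⟩
  · intro y hy hN
    obtain ⟨c, hc⟩ := key y hy hN
    obtain ⟨s, hs, e⟩ := Pd_sc hy (H38T1.rep_ne (c : SC L)) (hc.symm.trans (H38T1.sc_rep _).symm)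
    have h1 : Nr w y (rho θ (f c).1 (f c).2) := by
      rw [e]
      exact Pd_Nr_sq hs (hf c)
    rw [← hgf c, hc] at h1
    exact h1
  · intro y hy hN i j hij
    obtain ⟨c, hc⟩ := key y hy hN
    have h1 := huniq c y hy hc.symm i j hij
    rw [← hgf c, hc] at h1
    exact h1

end H76MQ

end S_H76_MQ_Pd
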