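import Mathlib
import Pool.Agent.H76.CQ.Qa
import Pool.Agent.H76.PN.A4
import Pool.Agent.H76.PN.A5
import Pool.Agent.H76.PN.N3
import Pool.Agent.H76.MP.M1

/-! This file joins several modules to save build time (M3). -/

set_option autoImplicit false

section S_H76_MQ_Cl

set_option autoImplicit false
set_option linter.unusedSectionVars false
open scoped Classical

open WithZero NumberField IsDedekindDomain H38RT
open H38T1 (SC sc scu rep eo la si Pri OddP tp unif ka)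
open H76PP

namespace H76MQ

open H54MT

variable {K L : Type} [Field K] [NumberField K] [Field L] [NumberField L] [Algebra K L]

section loc

variable {F : Type} [Field F] [NumberField F] {v : HeightOneSpectrum (𝓞 F)}

theorem Cl_tp {c d : SC F} (h : eo v c = 0) : tp v c d = eo v d * la v c := by
  unfold H38T1.tp
  rw [h]
  ring

theorem Cl_tp0 (hv : OddP v) (d : SC F) : tp v 0 d = 0 := by
  rw [Cl_tp (H38T1.eo_zero v), H38T1.la_zero hv, mul_zero]

theorem Cl_eo_one {x : F} (hx : v.valuation F x = 1) : eo v (sc x) = 0 := by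
  have hx0 : x ≠ 0 := by
    rintro rfl
    rw [map_zero] at hx
    exact zero_ne_one hx
  rw [H38T1.eo_sc hx0, Tc_ord_one hx, Int.cast_zero]

theorem Cl_sc_div {a b : F} (ha : a ≠ 0) (hb : b ≠ 0) : sc (a / b) = sc a + sc b := by
  have h1 : sc a = sc (a / b) + sc b := by
    rw [← H38T1.sc_mul (div_ne_zero ha hb) hb, div_mul_cancel₀ a hb]
  rw [h1, add_assoc, H54MT.two_add, add_zero]

theorem Cl_val {x : F} (hx : x ≠ 0) : v.valuation F x = exp (-(ord (v.valuation F) x)) := by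
  unfold ord
  rw [neg_neg, exp_log ((Valuation.ne_zero_iff _).2 hx)]

theorem Cl_lt {x : F} (hx : x ≠ 0) : v.valuation F x < 1 ↔ 0 < ord (v.valuation F) x := by
  rw [Cl_val hx, ← exp_zero, exp_lt_exp]
  omega

theorem Cl_le {x : F} (hx : x ≠ 0) : v.valuation F x ≤ 1 ↔ 0 ≤ ord (v.valuation F) x := by
  rw [Cl_val hx, ← exp_zero, exp_le_exp]
  omega

theorem Cl_le_exp {x : F} (hx : v.valuation F x < 1) : v.valuation F x ≤ exp (-1) := by
  by_cases h0 : x = 0
  · rw [h0, map_zero]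
    exact zero_le
  · have h1 := (Cl_lt h0).1 hx
    rw [Cl_val h0, exp_le_exp]
    omega

theorem Cl_unif_ne (v : HeightOneSpectrum (𝓞 F)) : unif v ≠ 0 := by
  intro h
  have h1 := H38T1.unif_spec v
  rw [h, map_zero] at h1
  exact exp_ne_zero h1.symm

theorem Cl_unif_ord (v : HeightOneSpectrum (𝓞 F)) : ord (v.valuation F) (unif v) = 1 := by
  unfold ord
  rw [H38T1.unif_spec, log_exp, neg_neg]

end loc

theorem Cl_big {A B : 𝓞 K} {θ : L} (h : Cub K L (A : K) (B : K) θ) (hR : HR2 K L A B θ)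
    {v : HeightOneSpectrum (𝓞 K)} (hv : OddP v) {y : L} (hy : y ≠ 0)
    (hN : IsSquare (Algebra.norm K y)) {x : K} (hx : 1 < v.valuation K x) :
    ∑ᶠ w : {w : HeightOneSpectrum (𝓞 L) // dn K w = v},
      tp w.1 (sc y) (sc (algebraMap K L x - θ)) = 0 := by
  have hx0 : x ≠ 0 := by
    rintro rfl
    rw [map_zero] at hx
    exact absurd hx (not_lt.2 zero_le_one)
  have hX : algebraMap K L x ≠ 0 := (map_ne_zero _).2 hx0
  have e1 : ∀ w : {w : HeightOneSpectrum (𝓞 L) // dn K w = v},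
      tp w.1 (sc y) (sc (algebraMap K L x - θ)) = tp w.1 (sc y) (sc (algebraMap K L x)) := by
    intro w
    have hw : OddP w.1 := by
      rw [oddP_dn (K := K), w.2]
      exact hv
    obtain ⟨-, b2, -, -⟩ := ord_sub_big h (w := w.1) (x := x) (by rw [w.2]; exact hx)
    have hb : w.1.valuation L ((1 - θ / algebraMap K L x) - 1) < 1 := by
      rw [sub_sub_cancel_left, Valuation.map_neg]
      exact b2
    have hz : (1 - θ / algebraMap K L x) ≠ 0 := (Tg_ne hb).2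
    have e : algebraMap K L x - θ = algebraMap K L x * (1 - θ / algebraMap K L x) := by
      rw [mul_sub, mul_one, mul_div_cancel₀ _ hX]
    rw [e, H38T1.sc_mul hX hz, H54PR.tp_add_right hw, H54MT.tp_near hw hb, add_zero]
  rw [finsum_congr e1, hR.proj hv hy hx0,
    (H38T1.sc_eq_zero (scm_ne (Algebra.norm K : L →* K) hy)).2 hN]
  exact Cl_tp0 hv _

theorem Cl_even {A B : 𝓞 K} {θ : L} (h : Cub K L (A : K) (B : K) θ)
    {v : HeightOneSpectrum (𝓞 K)} (hd : dsc A B ∉ v.asIdeal ^ 2) {y : L}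
    (he : ∀ w : HeightOneSpectrum (𝓞 L), dn K w = v → eo w (sc y) = 0) {x : K}
    (hx : v.valuation K x ≤ 1)
    (hev : Even (ord (v.valuation K) (x ^ 3 + (A : K) * x + (B : K)))) :
    ∑ᶠ w : {w : HeightOneSpectrum (𝓞 L) // dn K w = v},
      tp w.1 (sc y) (sc (algebraMap K L x - θ)) = 0 := by
  obtain ⟨w₁, hw1, ho, hu⟩ := H36MT.ord_subL h hd hx (H54PR.ff_ne h x)
  apply finsum_eq_zero_of_forall_eq_zero
  rintro ⟨w, hw⟩
  change tp w (sc y) (sc (algebraMap K L x - θ)) = 0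
  rw [Cl_tp (he w hw)]
  by_cases hww : w = w₁
  · rw [hww, H38T1.eo_sc (H54PR.sub_ne h x), ho, Tg_even.2 hev, zero_mul]
  · rw [Cl_eo_one (hu w hw hww), zero_mul]

theorem Cl_odd {n : ℤ} (h : Odd n) : (n : ZMod 2) = 1 := by
  obtain ⟨k, rfl⟩ := h
  push_cast
  have h2 : (2 : ZMod 2) = 0 := by decide
  rw [h2, zero_mul, zero_add]

theorem Cl_one {A B : 𝓞 K} {θ : L} (h : Cub K L (A : K) (B : K) θ)
    {v : HeightOneSpectrum (𝓞 K)} (hd : dsc A B ∉ v.asIdeal ^ 2) {y : L}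
    (he : ∀ w : HeightOneSpectrum (𝓞 L), dn K w = v → eo w (sc y) = 0) {x : K}
    (hx : v.valuation K x ≤ 1)
    (hod : Odd (ord (v.valuation K) (x ^ 3 + (A : K) * x + (B : K)))) :
    ∃ w₁ : HeightOneSpectrum (𝓞 L), dn K w₁ = v ∧
      ord (w₁.valuation L) (algebraMap K L x - θ) =
        ord (v.valuation K) (x ^ 3 + (A : K) * x + (B : K)) ∧
      (∀ w : HeightOneSpectrum (𝓞 L), dn K w = v → w ≠ w₁ →
        w.valuation L (algebraMap K L x - θ) = 1) ∧
      ∑ᶠ w : {w : HeightOneSpectrum (𝓞 L) // dn K w = v},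
        tp w.1 (sc y) (sc (algebraMap K L x - θ)) = la w₁ (sc y) := by
  obtain ⟨w₁, hw1, ho, hu⟩ := H36MT.ord_subL h hd hx (H54PR.ff_ne h x)
  refine ⟨w₁, hw1, ho, hu, ?_⟩
  rw [finsum_eq_single _ (⟨w₁, hw1⟩ : {w : HeightOneSpectrum (𝓞 L) // dn K w = v})]
  · change tp w₁ (sc y) (sc (algebraMap K L x - θ)) = la w₁ (sc y)
    rw [Cl_tp (he w₁ hw1), H38T1.eo_sc (H54PR.sub_ne h x), ho, Cl_odd hod, one_mul]
  · rintro ⟨w, hw⟩ hne
    have hne' : w ≠ w₁ := fun h0 => hne (Subtype.ext h0)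
    change tp w (sc y) (sc (algebraMap K L x - θ)) = 0
    rw [Cl_tp (he w hw), Cl_eo_one (hu w hw hne'), zero_mul]

theorem Cl_res {A B : 𝓞 K} {θ : L} (h : Cub K L (A : K) (B : K) θ)
    {v : HeightOneSpectrum (𝓞 K)} (hd : dsc A B ∉ v.asIdeal ^ 2) {w₁ : HeightOneSpectrum (𝓞 L)}
    (hw : dn K w₁ = v) {x : K} (hx : v.valuation K x ≤ 1)
    (hU : w₁.valuation L (algebraMap K L x - θ) < 1) {z : L} (hz : w₁.valuation L z ≤ 1) :
    ∃ c : K, v.valuation K c ≤ 1 ∧ w₁.valuation L (z - algebraMap K L c) < 1 := by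
  obtain ⟨t, ht⟩ := theta_int h
  obtain ⟨a, ha⟩ := Tf_approx v hx
  obtain ⟨y, hy⟩ := Tf_approx w₁ hz
  obtain ⟨s, hs⟩ := H36MT.Tc_sL h hd ht a y
  have h1 : algebraMap (𝓞 K) (𝓞 L) a - t ∈ w₁.asIdeal := by
    rw [← w₁.valuation_lt_one_iff_mem (K := L)]
    have e1 : algebraMap (𝓞 L) L (algebraMap (𝓞 K) (𝓞 L) a - t) =
        (algebraMap K L x - θ) - algebraMap K L (x - (a : K)) := by
      rw [map_sub (algebraMap (𝓞 L) L), map_sub (algebraMap K L), ← ht]
      change algebraMap K L (a : K) - (t : L) = _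
      ring
    refine lt_of_eq_of_lt (congrArg _ e1) ?_
    refine lt_of_le_of_lt (Valuation.map_sub _ _ _) (max_lt hU ?_)
    exact val_lt (by rw [hw]; exact ha)
  have h2 := hs w₁ hw h1
  rw [← w₁.valuation_lt_one_iff_mem (K := L)] at h2
  refine ⟨(s : K), v.valuation_le_one s, ?_⟩
  have e2 : z - algebraMap K L (s : K) =
      (z - (y : L)) + algebraMap (𝓞 L) L (y - algebraMap (𝓞 K) (𝓞 L) s) := by
    rw [map_sub (algebraMap (𝓞 L) L)]
    change _ = (z - (y : L)) + ((y : L) - algebraMap K L (s : K))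
    ring
  rw [e2]
  exact Valuation.map_add_lt _ hy h2

theorem Cl_la {A B : 𝓞 K} {θ : L} (h : Cub K L (A : K) (B : K) θ)
    {v : HeightOneSpectrum (𝓞 K)} (hv : OddP v) (hd : dsc A B ∉ v.asIdeal ^ 2)
    {w₁ : HeightOneSpectrum (𝓞 L)}
    (hw : dn K w₁ = v) {x : K} (hx : v.valuation K x ≤ 1)
    (hU : w₁.valuation L (algebraMap K L x - θ) < 1) {l : K} (hl : l ≠ 0)
    (hev : Even (ord (v.valuation K) l)) :
    la w₁ (sc (algebraMap K L l)) = la v (sc l) := by
  obtain ⟨m, hm⟩ := hev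
  have hπ := Cl_unif_ne v
  obtain ⟨p, hp⟩ : ∃ p : K, p = unif v ^ (-m) := ⟨_, rfl⟩
  have hp0 : p ≠ 0 := by
    rw [hp]
    exact zpow_ne_zero _ hπ
  have hpv : v.valuation K p = exp m := by
    rw [hp, map_zpow₀, H38T1.unif_spec, ← exp_zsmul]
    congr 1
    simp
  have hl' : v.valuation K (p ^ 2 * l) = 1 := by
    rw [map_mul, map_pow, hpv, Cl_val hl, hm, pow_two, ← exp_add, ← exp_add, ← exp_zero]
    congr 1
    ring
  have hw1 : OddP w₁ := by
    rw [oddP_dn (K := K), hw]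
    exact hv
  have hlw : w₁.valuation L (algebraMap K L (p ^ 2 * l)) = 1 := val_one (by rw [hw]; exact hl')
  have hpl : p ^ 2 * l ≠ 0 := mul_ne_zero (pow_ne_zero 2 hp0) hl
  have hplL : algebraMap K L (p ^ 2 * l) ≠ 0 := (map_ne_zero _).2 hpl
  have hlL : algebraMap K L l ≠ 0 := (map_ne_zero _).2 hl
  have hpL : algebraMap K L p ≠ 0 := (map_ne_zero _).2 hp0
  have e1 : (sc l : SC K) = sc (p ^ 2 * l) := (Tg_sq hp0 hl).symm
  have e2 : (sc (algebraMap K L l) : SC L) = sc (algebraMap K L (p ^ 2 * l)) := by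
    rw [map_mul, map_pow]
    exact (Tg_sq hpL hlL).symm
  rw [e1, e2, H38T1.la_sc hw1 hplL, H38T1.la_sc hv hpl, lam_unit hlw, lam_unit hl']
  refine if_congr ⟨?_, ?_⟩ rfl rfl
  · rintro ⟨z, hz⟩
    have hz1 : w₁.valuation L z ≤ 1 := by
      have h3 : w₁.valuation L (z ^ 2) ≤ 1 := by
        have h4 : z ^ 2 = algebraMap K L (p ^ 2 * l) - (algebraMap K L (p ^ 2 * l) - z ^ 2) := by
          ring
        rw [h4]
        exact (Valuation.map_sub _ _ _).trans (max_le hlw.le hz.le)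
      rw [map_pow] at h3
      exact (pow_le_one_iff two_ne_zero).1 h3
    obtain ⟨c, hc, hcz⟩ := Cl_res h hd hw hx hU hz1
    have hcL : w₁.valuation L (algebraMap K L c) ≤ 1 := val_le (by rw [hw]; exact hc)
    have h5 : w₁.valuation L (algebraMap K L (p ^ 2 * l - c ^ 2)) < 1 := by
      have h6 : algebraMap K L (p ^ 2 * l - c ^ 2) = (algebraMap K L (p ^ 2 * l) - z ^ 2) +
          (z - algebraMap K L c) * (z + algebraMap K L c) := by
        rw [map_sub, map_pow _ c]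
        ring
      rw [h6]
      refine Valuation.map_add_lt _ hz ?_
      rw [map_mul]
      calc _ ≤ w₁.valuation L (z - algebraMap K L c) * 1 :=
            mul_le_mul_right ((Valuation.map_add _ _ _).trans (max_le hz1 hcL)) _
        _ < 1 := by rw [mul_one]; exact hcz
    refine ⟨c, ?_⟩
    have h7 : v.valuation K (p ^ 2 * l - c ^ 2) ≤ 1 := by
      refine (Valuation.map_sub _ _ _).trans (max_le hl'.le ?_)
      rw [map_pow]
      exact pow_le_one' hc 2
    refine lt_of_le_of_ne h7 fun h8 => ?_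
    have h9 : w₁.valuation L (algebraMap K L (p ^ 2 * l - c ^ 2)) = 1 :=
      val_one (by rw [hw]; exact h8)
    rw [h9] at h5
    exact lt_irrefl _ h5
  · rintro ⟨z, hz⟩
    refine ⟨algebraMap K L z, ?_⟩
    rw [← map_pow, ← map_sub]
    exact val_lt (by rw [hw]; exact hz)

theorem Cl_dv {F : Type} [Field F] {U W : F} (hW : W ≠ 0) : U / W - 1 = (U - W) / W := by
  rw [sub_div, div_self hW]

theorem Cl_int {v : HeightOneSpectrum (𝓞 K)} (A B : 𝓞 K) {s : K} (hs : v.valuation K s ≤ 1) :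
    v.valuation K (s ^ 3 + (A : K) * s + (B : K)) ≤ 1 := by
  have hvA : v.valuation K (A : K) ≤ 1 := v.valuation_le_one A
  have hvB : v.valuation K (B : K) ≤ 1 := v.valuation_le_one B
  refine (v.valuation K).map_add_le ((v.valuation K).map_add_le ?_ ?_) hvB
  · rw [map_pow]
    exact pow_le_one' hs 3
  · rw [map_mul]
    exact mul_le_one' hvA hs

theorem Cl_nat (v : HeightOneSpectrum (𝓞 K)) (n : ℕ) : v.valuation K (n : K) ≤ 1 := by
  have h1 := v.valuation_le_one (K := K) (n : 𝓞 K)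
  have h2 : algebraMap (𝓞 K) K (n : 𝓞 K) = (n : K) := map_natCast _ n
  change v.valuation K (algebraMap (𝓞 K) K (n : 𝓞 K)) ≤ 1 at h1
  rwa [h2] at h1

theorem Cl_ramA {v : HeightOneSpectrum (𝓞 K)} {A B : 𝓞 K} (hd : dsc A B ∉ v.asIdeal ^ 2) {s : K}
    (hs : v.valuation K s ≤ 1)
    (hf : v.valuation K (s ^ 3 + (A : K) * s + (B : K)) ≤ exp (-2)) :
    v.valuation K (3 * s ^ 2 + (A : K)) = 1 := by
  have hvA : v.valuation K (A : K) ≤ 1 := v.valuation_le_one A
  have hn : ∀ n : ℕ, v.valuation K (n : K) ≤ 1 := Cl_nat v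
  have h1 : v.valuation K (3 * s ^ 2 + (A : K)) ≤ 1 := by
    refine (v.valuation K).map_add_le ?_ hvA
    rw [map_mul, map_pow]
    exact mul_le_one' (by exact_mod_cast hn 3) (pow_le_one' hs 2)
  by_contra hne
  have h2 : v.valuation K (3 * s ^ 2 + (A : K)) < 1 := lt_of_le_of_ne h1 hne
  have h3 := Cl_le_exp h2
  apply hd
  rw [← v.intValuation_le_pow_iff_mem]
  obtain ⟨f, hf'⟩ : ∃ f, f = s ^ 3 + (A : K) * s + (B : K) := ⟨_, rfl⟩
  obtain ⟨g, hg⟩ : ∃ g, g = 3 * s ^ 2 + (A : K) := ⟨_, rfl⟩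
  have e1 : ((dsc A B : 𝓞 K) : K) = g ^ 2 * (4 * g - 9 * s ^ 2) +
      f * (27 * f - 54 * s * g + 108 * s ^ 3) := by
    change algebraMap (𝓞 K) K (dsc A B) = _
    unfold dsc
    rw [map_add, map_mul, map_mul, map_pow, map_pow, map_ofNat, map_ofNat, hf', hg]
    change 4 * (A : K) ^ 3 + 27 * (B : K) ^ 2 = _
    ring
  have e2 : v.intValuation (dsc A B) = v.valuation K (g ^ 2 * (4 * g - 9 * s ^ 2) +
      f * (27 * f - 54 * s * g + 108 * s ^ 3)) := by
    rw [← e1]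
    exact (v.valuation_of_algebraMap (dsc A B)).symm
  have hmul : ∀ {a b : K}, v.valuation K a ≤ 1 → v.valuation K b ≤ 1 → v.valuation K (a * b) ≤ 1 := by
    intro a b ha hb
    rw [map_mul]
    exact mul_le_one' ha hb
  have hsub : ∀ {a b : K}, v.valuation K a ≤ 1 → v.valuation K b ≤ 1 → v.valuation K (a - b) ≤ 1 :=
    fun ha hb => (Valuation.map_sub _ _ _).trans (max_le ha hb)
  have hadd : ∀ {a b : K}, v.valuation K a ≤ 1 → v.valuation K b ≤ 1 → v.valuation K (a + b) ≤ 1 :=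
    fun ha hb => (v.valuation K).map_add_le ha hb
  have hpow : ∀ (n : ℕ), v.valuation K (s ^ n) ≤ 1 := by
    intro n
    rw [map_pow]
    exact pow_le_one' hs n
  have hg1 : v.valuation K g ≤ 1 := by rw [hg]; exact h1
  have hf1 : v.valuation K f ≤ 1 := by rw [hf']; exact Cl_int A B hs
  have h4 : v.valuation K (4 * g - 9 * s ^ 2) ≤ 1 :=
    hsub (hmul (by exact_mod_cast hn 4) hg1) (hmul (by exact_mod_cast hn 9) (hpow 2))
  have h5 : v.valuation K (27 * f - 54 * s * g + 108 * s ^ 3) ≤ 1 :=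
    hadd (hsub (hmul (by exact_mod_cast hn 27) hf1)
      (hmul (hmul (by exact_mod_cast hn 54) hs) hg1)) (hmul (by exact_mod_cast hn 108) (hpow 3))
  have hx2 : (exp (-2) : ℤᵐ⁰) = exp (-1) * exp (-1) := by
    rw [← exp_add]
    norm_num
  rw [e2]
  change _ ≤ exp (-((2 : ℕ) : ℤ))
  have e3 : (exp (-((2 : ℕ) : ℤ)) : ℤᵐ⁰) = exp (-2) := by norm_num
  rw [e3]
  refine (v.valuation K).map_add_le ?_ ?_
  · rw [map_mul, pow_two, map_mul, hx2]
    rw [hg] at h4 ⊢
    calc _ ≤ (exp (-1) * exp (-1) : ℤᵐ⁰) * 1 := mul_le_mul' (mul_le_mul' h3 h3) h4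
      _ = _ := mul_one _
  · rw [map_mul]
    rw [hf'] at h5 ⊢
    calc _ ≤ (exp (-2) : ℤᵐ⁰) * 1 := mul_le_mul' hf h5
      _ = _ := mul_one _

theorem Cl_ram {A B : 𝓞 K} {θ : L} (h : Cub K L (A : K) (B : K) θ)
    {v : HeightOneSpectrum (𝓞 K)} (hd : dsc A B ∉ v.asIdeal ^ 2) {w₁ : HeightOneSpectrum (𝓞 L)}
    (hw : dn K w₁ = v) {s : K} (hs : v.valuation K s ≤ 1)
    (hπ : w₁.valuation L (algebraMap K L (unif v)) ≤ exp (-2))
    (hW : w₁.valuation L (algebraMap K L s - θ) ≤ exp (-2))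
    (hf : v.valuation K (s ^ 3 + (A : K) * s + (B : K)) ≤ exp (-2)) : False := by
  have h1 := Cl_ramA hd hs hf
  have hu := H38T1.unif_spec v
  have hlt : (exp (-2) : ℤᵐ⁰) < exp (-1) := by
    rw [exp_lt_exp]
    norm_num
  have hlt1 : (exp (-2) : ℤᵐ⁰) < 1 := by
    rw [← exp_zero, exp_lt_exp]
    norm_num
  have hu1 : v.valuation K (unif v) ≤ 1 := by
    rw [hu, ← exp_zero, exp_le_exp]
    norm_num
  have hs' : v.valuation K (s + unif v) ≤ 1 := (v.valuation K).map_add_le hs hu1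
  have hm : v.valuation K (unif v * (3 * s ^ 2 + (A : K))) = exp (-1) := by
    rw [map_mul, hu, h1, mul_one]
  have h2 : v.valuation K ((s + unif v) ^ 3 + (A : K) * (s + unif v) + (B : K)) = exp (-1) := by
    rw [← hm]
    refine Valuation.map_eq_of_sub_lt _ ?_
    have e1 : (s + unif v) ^ 3 + (A : K) * (s + unif v) + (B : K) -
        unif v * (3 * s ^ 2 + (A : K)) = (s ^ 3 + (A : K) * s + (B : K)) +
          unif v * unif v * (3 * s + unif v) := by ring
    rw [hm, e1]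
    refine lt_of_le_of_lt ((v.valuation K).map_add_le hf ?_) hlt
    rw [map_mul, map_mul, hu, ← exp_add]
    have h3 : v.valuation K (3 * s + unif v) ≤ 1 := by
      refine (v.valuation K).map_add_le ?_ hu1
      rw [map_mul]
      exact mul_le_one' (by exact_mod_cast Cl_nat v 3) hs
    calc _ ≤ (exp (-1 + -1) : ℤᵐ⁰) * 1 := mul_le_mul' le_rfl h3
      _ = _ := by rw [mul_one]; norm_num
  obtain ⟨w₃, hw3, ho, hu3⟩ := H36MT.ord_subL h hd hs' (H54PR.ff_ne h (s + unif v))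
  have e2 : algebraMap K L (s + unif v) - θ = (algebraMap K L s - θ) + algebraMap K L (unif v) := by
    rw [map_add]
    ring
  have h4 : w₁.valuation L (algebraMap K L (s + unif v) - θ) ≤ exp (-2) := by
    rw [e2]
    exact (w₁.valuation L).map_add_le hW hπ
  have h5 : w₁ = w₃ := by
    by_contra hne
    rw [hu3 w₁ hw hne] at h4
    exact absurd h4 (not_le.2 hlt1)
  rw [← h5] at ho
  have h6 : ord (v.valuation K) ((s + unif v) ^ 3 + (A : K) * (s + unif v) + (B : K)) = 1 := by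
    unfold ord
    rw [h2, log_exp, neg_neg]
  rw [h6] at ho
  rw [Cl_val (H54PR.sub_ne h (s + unif v)), ho] at h4
  exact absurd h4 (not_le.2 hlt)

theorem Cl_main {A B : 𝓞 K} {θ : L} (h : Cub K L (A : K) (B : K) θ) (hR : HR2 K L A B θ)
    {v : HeightOneSpectrum (𝓞 K)} (hv : OddP v) (hd : dsc A B ∉ v.asIdeal ^ 2) {y : L}
    (hy : y ≠ 0) (hN : IsSquare (Algebra.norm K y)) {l : K} (hl : l ≠ 0)
    (he : ∀ w : HeightOneSpectrum (𝓞 L), dn K w = v → eo w (sc y) = 0) {t s : K}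
    (ht : v.valuation K t ≤ 1) (hs : v.valuation K s ≤ 1)
    (hto : Odd (ord (v.valuation K) (t ^ 3 + (A : K) * t + (B : K))))
    (hso : Odd (ord (v.valuation K) (s ^ 3 + (A : K) * s + (B : K))))
    (hsc : sc y = sc (algebraMap K L l) + sc (algebraMap K L t - θ) + sc (algebraMap K L s - θ))
    (hsq : IsSquare (l * (t ^ 3 + (A : K) * t + (B : K)) * (s ^ 3 + (A : K) * s + (B : K)))) :
    ∑ᶠ w : {w : HeightOneSpectrum (𝓞 L) // dn K w = v},
      tp w.1 (sc y) (sc (algebraMap K L t - θ)) = 0 := by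
  obtain ⟨w₁, hw1, hot, hut, hG⟩ := Cl_one h hd he ht hto
  obtain ⟨w₂, hw2, hos, hus⟩ := H36MT.ord_subL h hd hs (H54PR.ff_ne h s)
  rw [hG]
  have hU0 : algebraMap K L t - θ ≠ 0 := H54PR.sub_ne h t
  have hW0 : algebraMap K L s - θ ≠ 0 := H54PR.sub_ne h s
  have hft : t ^ 3 + (A : K) * t + (B : K) ≠ 0 := H54PR.ff_ne h t
  have hfs : s ^ 3 + (A : K) * s + (B : K) ≠ 0 := H54PR.ff_ne h s
  have hlL : algebraMap K L l ≠ 0 := (map_ne_zero _).2 hl
  have hodd : ∀ w : HeightOneSpectrum (𝓞 L), dn K w = v → OddP w := by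
    intro w hw
    rw [oddP_dn (K := K), hw]
    exact hv
  have htp : 0 < ord (v.valuation K) (t ^ 3 + (A : K) * t + (B : K)) := by
    have h1 := (Cl_le hft).1 (Cl_int A B ht)
    obtain ⟨k, hk⟩ := hto
    omega
  have hsp : 0 < ord (v.valuation K) (s ^ 3 + (A : K) * s + (B : K)) := by
    have h1 := (Cl_le hfs).1 (Cl_int A B hs)
    obtain ⟨k, hk⟩ := hso
    omega
  have hel : Even (ord (v.valuation K) l) := by
    obtain ⟨r, hr⟩ := hsq
    have hne : l * (t ^ 3 + (A : K) * t + (B : K)) ≠ 0 := mul_ne_zero hl hft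
    have hr0 : r ≠ 0 := by
      rintro rfl
      rw [mul_zero] at hr
      exact mul_ne_zero hne hfs hr
    have h1 : ord (v.valuation K) (l * (t ^ 3 + (A : K) * t + (B : K)) *
        (s ^ 3 + (A : K) * s + (B : K))) = ord (v.valuation K) (r * r) := by rw [hr]
    rw [ord_mul hne hfs, ord_mul hl hft, ord_mul hr0 hr0] at h1
    obtain ⟨k, hk⟩ := hto
    obtain ⟨m, hm⟩ := hso
    exact ⟨ord (v.valuation K) r - k - m - 1, by omega⟩
  have helw : ∀ w : HeightOneSpectrum (𝓞 L), dn K w = v → eo w (sc (algebraMap K L l)) = 0 := by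
    intro w hw
    obtain ⟨e, -, h1⟩ := ord_dn (K := K) w
    rw [H38T1.eo_sc hlL, h1 l hl, hw]
    exact Tg_even.2 (hel.mul_left _)
  have hw12 : w₂ = w₁ := by
    by_contra hne
    have h1 := he w₁ hw1
    rw [hsc, H38T1.eo_add, H38T1.eo_add, helw w₁ hw1, H38T1.eo_sc hU0, hot, Cl_odd hto,
      Cl_eo_one (hus w₁ hw1 (fun h0 => hne h0.symm)), zero_add, add_zero] at h1
    exact one_ne_zero h1
  rw [hw12] at hos hus
  have hU1 : w₁.valuation L (algebraMap K L t - θ) < 1 := (Cl_lt hU0).2 (by rw [hot]; exact htp)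
  have hW1 : w₁.valuation L (algebraMap K L s - θ) < 1 := (Cl_lt hW0).2 (by rw [hos]; exact hsp)
  have hUW : (algebraMap K L t - θ) - (algebraMap K L s - θ) = algebraMap K L (t - s) := by
    rw [map_sub]
    ring
  have hts : v.valuation K (t - s) < 1 := by
    have h1 : w₁.valuation L (algebraMap K L (t - s)) < 1 := by
      rw [← hUW]
      exact lt_of_le_of_lt (Valuation.map_sub _ _ _) (max_lt hU1 hW1)
    refine lt_of_le_of_ne ((Valuation.map_sub _ _ _).trans (max_le ht hs)) fun h2 => ?_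
    have h3 : w₁.valuation L (algebraMap K L (t - s)) = 1 := val_one (by rw [hw1]; exact h2)
    rw [h3] at h1
    exact lt_irrefl _ h1
  have hdiv : ∀ w : HeightOneSpectrum (𝓞 L), dn K w = v →
      w.valuation L ((algebraMap K L t - θ) / (algebraMap K L s - θ) - 1) < 1 →
      la w (sc y) = la w (sc (algebraMap K L l)) := by
    intro w hw hlt
    have h1 := Tg_la (hodd w hw) hlt
    rw [Cl_sc_div hU0 hW0] at h1
    rw [hsc, add_assoc, H38T1.la_add (hodd w hw), h1, add_zero]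
  have hother : ∀ w : HeightOneSpectrum (𝓞 L), dn K w = v → w ≠ w₁ →
      la w (sc y) = la w (sc (algebraMap K L l)) := by
    intro w hw hne
    refine hdiv w hw ?_
    have e1 : (algebraMap K L t - θ) / (algebraMap K L s - θ) - 1 =
        algebraMap K L (t - s) / (algebraMap K L s - θ) := by
      rw [← hUW, Cl_dv hW0]
    rw [e1, map_div₀, hus w hw hne, div_one]
    exact val_lt (by rw [hw]; exact hts)
  have hπ0 := Cl_unif_ne v
  have hπL : algebraMap K L (unif v) ≠ 0 := (map_ne_zero _).2 hπ0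
  have hp := hR.proj hv hy hπ0
  have hq := hR.proj hv hlL hπ0
  rw [(H38T1.sc_eq_zero (scm_ne (Algebra.norm K : L →* K) hy)).2 hN, Cl_tp0 hv] at hp
  have hnl : sc (Algebra.norm K (algebraMap K L l)) = sc l := by
    rw [Algebra.norm_algebraMap, h.finrank, pow_succ l 2]
    exact Tg_sq hl hl
  rw [hnl] at hq
  have hfin : Finite {w : HeightOneSpectrum (𝓞 L) // dn K w = v} := (fin_above v).to_subtype
  have hsum := finsum_add_distrib
    (f := fun w : {w : HeightOneSpectrum (𝓞 L) // dn K w = v} =>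
      tp w.1 (sc y) (sc (algebraMap K L (unif v))))
    (g := fun w : {w : HeightOneSpectrum (𝓞 L) // dn K w = v} =>
      tp w.1 (sc (algebraMap K L l)) (sc (algebraMap K L (unif v))))
    (Set.toFinite _) (Set.toFinite _)
  rw [hp, hq, zero_add, finsum_eq_single _
    (⟨w₁, hw1⟩ : {w : HeightOneSpectrum (𝓞 L) // dn K w = v})] at hsum
  swap
  · rintro ⟨w, hw⟩ hne
    have hne' : w ≠ w₁ := fun h0 => hne (Subtype.ext h0)
    change tp w (sc y) (sc (algebraMap K L (unif v))) +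
      tp w (sc (algebraMap K L l)) (sc (algebraMap K L (unif v))) = 0
    rw [Cl_tp (he w hw), Cl_tp (helw w hw), hother w hw hne']
    exact CharTwo.add_self_eq_zero _
  have hev0 : eo v (sc l) = 0 := by
    rw [H38T1.eo_sc hl]
    exact Tg_even.2 hel
  have heu : eo v (sc (unif v)) = 1 := by
    rw [H38T1.eo_sc hπ0, Cl_unif_ord, Int.cast_one]
  change tp w₁ (sc y) (sc (algebraMap K L (unif v))) +
      tp w₁ (sc (algebraMap K L l)) (sc (algebraMap K L (unif v))) = _ at hsum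
  rw [Cl_tp (he w₁ hw1), Cl_tp (helw w₁ hw1), Cl_tp hev0, heu, one_mul,
    Cl_la h hv hd hw1 ht hU1 hl hel] at hsum
  have hz : ∀ z : ZMod 2, z = 0 ∨ z = 1 := by decide
  rcases hz (eo w₁ (sc (algebraMap K L (unif v)))) with h0 | h0
  · rw [h0, zero_mul, zero_mul, zero_add] at hsum
    rw [hdiv w₁ hw1 ?_, Cl_la h hv hd hw1 ht hU1 hl hel, ← hsum]
    obtain ⟨e, he0, h1⟩ := ord_dn (K := K) w₁
    have h2 : ord (w₁.valuation L) (algebraMap K L (unif v)) = e := by
      rw [h1 _ hπ0, hw1, Cl_unif_ord, mul_one]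
    have h3 : Even (e : ℤ) := by
      rw [← Tg_even, ← h2, ← H38T1.eo_sc hπL]
      exact h0
    have h4 : w₁.valuation L (algebraMap K L (unif v)) ≤ exp (-2) := by
      rw [Cl_val hπL, h2, exp_le_exp]
      obtain ⟨k, hk⟩ := h3
      omega
    have h5 : w₁.valuation L (algebraMap K L (t - s)) ≤ exp (-2) := by
      have h6 : v.valuation K ((t - s) / unif v) ≤ 1 := by
        rw [map_div₀, H38T1.unif_spec]
        exact div_le_one_of_le₀ (Cl_le_exp hts) zero_le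
      have h7 : w₁.valuation L (algebraMap K L ((t - s) / unif v)) ≤ 1 :=
        val_le (by rw [hw1]; exact h6)
      have h8 : algebraMap K L (t - s) = algebraMap K L ((t - s) / unif v) *
          algebraMap K L (unif v) := by
        rw [← map_mul, div_mul_cancel₀ _ hπ0]
      rw [h8, map_mul]
      calc _ ≤ (1 : ℤᵐ⁰) * exp (-2) := mul_le_mul' h7 h4
        _ = _ := one_mul _
    have h9 : ord (v.valuation K) (s ^ 3 + (A : K) * s + (B : K)) = 1 := by
      by_contra hne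
      have h10 : 2 ≤ ord (v.valuation K) (s ^ 3 + (A : K) * s + (B : K)) := by omega
      refine Cl_ram h hd hw1 hs h4 ?_ ?_
      · rw [Cl_val hW0, hos, exp_le_exp]
        omega
      · rw [Cl_val hfs, exp_le_exp]
        omega
    have e1 : (algebraMap K L t - θ) / (algebraMap K L s - θ) - 1 =
        algebraMap K L (t - s) / (algebraMap K L s - θ) := by
      rw [← hUW, Cl_dv hW0]
    rw [e1, map_div₀, Cl_val hW0, hos, h9]
    have h11 : (exp (-2) : ℤᵐ⁰) < exp (-1) := by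
      rw [exp_lt_exp]
      norm_num
    rw [div_lt_one₀ (zero_lt_iff.2 exp_ne_zero)]
    exact lt_of_le_of_lt h5 h11
  · rw [h0, one_mul, one_mul] at hsum
    exact (add_eq_right).1 hsum

theorem conic_CL {A B : 𝓞 K} {θ : L} (h : Cub K L (A : K) (B : K) θ) (hR : HR2 K L A B θ)
    {v : HeightOneSpectrum (𝓞 K)} (hv : OddP v) (hd : dsc A B ∉ v.asIdeal ^ 2) {y : L}
    (hy : y ≠ 0) (hN : IsSquare (Algebra.norm K y)) (ha : al h y ≠ 0) (hb : be h y ≠ 0)
    (he : ∀ w : HeightOneSpectrum (𝓞 L), dn K w = v → eo w (sc y) = 0) :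
    tp v (sc (al h y)) (sc (be h y)) = 0 := by
  obtain ⟨t, s, hsc, hsq, hF⟩ := conic_F h hR hy hN ha hb
  obtain ⟨hFt, hFs⟩ := hF v hv
  rcases lt_or_ge 1 (v.valuation K t) with ht | ht
  · rw [hFt, Cl_big h hR hv hy hN ht]
  rcases lt_or_ge 1 (v.valuation K s) with hs | hs
  · rw [hFs, Cl_big h hR hv hy hN hs]
  rcases Int.even_or_odd (ord (v.valuation K) (t ^ 3 + (A : K) * t + (B : K))) with hto | hto
  · rw [hFt, Cl_even h hd he ht hto]
  rcases Int.even_or_odd (ord (v.valuation K) (s ^ 3 + (A : K) * s + (B : K))) with hso | hso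
  · rw [hFs, Cl_even h hd he hs hso]
  rw [hFt]
  exact Cl_main h hR hv hd hy hN (neg_ne_zero.2 (mul_ne_zero ha hb)) he ht hs hto hso hsc hsq

end H76MQ

end S_H76_MQ_Cl

section S_H76_MQ_Ct

set_option autoImplicit false
set_option linter.unusedSectionVars false
open scoped Classical

open WithZero NumberField IsDedekindDomain H38RT
open H38T1 (SC sc scu rep eo la si Pri OddP tp unif ka)
open H76PP

namespace H76MQ

open H54MT

variable {K L : Type} [Field K] [NumberField K] [Field L] [NumberField L] [Algebra K L]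

private theorem Ct_eo_one {F : Type} [Field F] [NumberField F] {v : HeightOneSpectrum (𝓞 F)} {y : F}
    (h : v.valuation F y = 1) : eo v (sc y) = 0 := by
  have hy : y ≠ 0 := by
    rintro rfl
    rw [map_zero] at h
    exact zero_ne_one h
  rw [H38T1.eo_sc hy]
  unfold ord
  rw [h, log_one, neg_zero, Int.cast_zero]

private theorem Ct_la_near {F : Type} [Field F] [NumberField F] {v : HeightOneSpectrum (𝓞 F)}
    (hv : OddP v) {y z : F} (hz : v.valuation F z = 1) (h : v.valuation F (y - z) < 1) :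
    v.valuation F y = 1 ∧ la v (sc y) = la v (sc z) := by
  have hz0 : z ≠ 0 := by
    rintro rfl
    rw [map_zero] at hz
    exact zero_ne_one hz
  have h1 : v.valuation F (y / z - 1) < 1 := by
    have e : y / z - 1 = (y - z) / z := by rw [sub_div, div_self hz0]
    rw [e, map_div₀, hz, div_one]
    exact h
  have h2 := near_one h1
  have hq : y / z ≠ 0 := by
    intro h0
    rw [h0, map_zero] at h2
    exact zero_ne_one h2
  have e2 : y = y / z * z := (div_mul_cancel₀ y hz0).symm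
  refine ⟨?_, ?_⟩
  · rw [e2, map_mul, h2, hz, one_mul]
  · have h3 : la v (sc (y / z)) = 0 := by
      rw [H38T1.la_sc hv hq, lam_unit h2]
      refine if_pos ⟨1, ?_⟩
      rwa [one_pow]
    rw [e2, H38T1.sc_mul hq hz0, H38T1.la_add hv, h3, zero_add]

private theorem Ct_unif_ne (v : HeightOneSpectrum (𝓞 K)) : unif v ≠ 0 := by
  intro h
  have h1 := H38T1.unif_spec v
  rw [h, map_zero] at h1
  exact exp_ne_zero h1.symm

private theorem Ct_eo1 {v : HeightOneSpectrum (𝓞 K)} {w₁ w₂ : HeightOneSpectrum (𝓞 L)}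
    (h2 : TwG K v w₁ w₂) {x : K} (hx : x ≠ 0) :
    eo w₁ (sc (algebraMap K L x)) = eo v (sc x) := by
  rw [H38T1.eo_sc ((map_ne_zero _).2 hx), H38T1.eo_sc hx, h2.ord1 x hx]

private theorem Ct_eo2 {v : HeightOneSpectrum (𝓞 K)} {w₁ w₂ : HeightOneSpectrum (𝓞 L)}
    (h2 : TwG K v w₁ w₂) {x : K} (hx : x ≠ 0) :
    eo w₂ (sc (algebraMap K L x)) = eo v (sc x) := by
  rw [H38T1.eo_sc ((map_ne_zero _).2 hx), H38T1.eo_sc hx, h2.ord2 x hx]

private theorem Ct_eo_unif (v : HeightOneSpectrum (𝓞 K)) : eo v (sc (unif v)) = 1 := by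
  rw [H38T1.eo_sc (Ct_unif_ne v)]
  unfold ord
  rw [H38T1.unif_spec, log_exp, neg_neg, Int.cast_one]

private theorem Ct_big {A B : 𝓞 K} {θ : L} (h : Cub K L (A : K) (B : K) θ)
    {v : HeightOneSpectrum (𝓞 K)} {w₁ w₂ : HeightOneSpectrum (𝓞 L)}
    (h2 : TwG K v w₁ w₂) {x : K} (hx : 1 < v.valuation K x) :
    eo w₁ (sc (algebraMap K L x - θ)) = eo w₂ (sc (algebraMap K L x - θ)) := by
  have hx0 : x ≠ 0 := by
    rintro rfl
    rw [map_zero] at hx
    exact absurd hx (not_lt.2 zero_le_one)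
  have h0 := H54PR.sub_ne h x
  have a1 : 1 < (dn K w₁).valuation K x := by rw [h2.dn1]; exact hx
  have a2 : 1 < (dn K w₂).valuation K x := by rw [h2.dn2]; exact hx
  have b1 := (ord_sub_big h a1).1
  have b2 := (ord_sub_big h a2).1
  have c1 : ord (w₁.valuation L) (algebraMap K L x - θ) = ord (w₁.valuation L) (algebraMap K L x) := by
    unfold ord
    rw [b1]
  have c2 : ord (w₂.valuation L) (algebraMap K L x - θ) = ord (w₂.valuation L) (algebraMap K L x) := by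
    unfold ord
    rw [b2]
  rw [H38T1.eo_sc h0, H38T1.eo_sc h0, c1, c2, h2.ord1 x hx0, h2.ord2 x hx0]

private theorem Ct_la2 {A B : 𝓞 K} {θ : L} (h : Cub K L (A : K) (B : K) θ) (hR : HR2 K L A B θ)
    {v : HeightOneSpectrum (𝓞 K)} (hv : OddP v) {w₁ w₂ : HeightOneSpectrum (𝓞 L)}
    (h2 : TwT K (A : K) θ v w₁ w₂) {x : K} (hx : v.valuation K x ≤ 1)
    (hu1 : w₁.valuation L (algebraMap K L x - θ) < 1)
    (hu2 : w₂.valuation L (algebraMap K L x - θ) = 1) :
    la w₂ (sc (algebraMap K L x - θ)) = la w₁ (sc (3 * θ ^ 2 + algebraMap K L A)) := by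
  obtain ⟨t, ht⟩ := theta_int h
  have hw1 : OddP w₁ := (oddP_dn (K := K)).2 (by rw [h2.dn1]; exact hv)
  have hu0 := H54PR.sub_ne h x
  have hf0 := H54PR.ff_ne h x
  have hπ := Ct_unif_ne v
  obtain ⟨cof, hcof⟩ : ∃ c, c = θ ^ 2 + algebraMap K L x * θ + algebraMap K L x ^ 2 + algebraMap K L A :=
    ⟨_, rfl⟩
  have hmul : (algebraMap K L x - θ) * cof = algebraMap K L (H54PR.ff (A : K) (B : K) x) := by
    rw [hcof]
    exact H54PR.sub_mul_quad h.root x
  have hcof0 : cof ≠ 0 := by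
    rintro rfl
    rw [mul_zero] at hmul
    exact hf0 ((map_eq_zero _).1 hmul.symm)
  have hxw : w₁.valuation L (algebraMap K L x) ≤ 1 := by
    have h5 : w₁.valuation L (algebraMap K L x - θ + θ) ≤ 1 := by
      refine (w₁.valuation L).map_add_le hu1.le ?_
      rw [← ht]
      exact w₁.valuation_le_one t
    rwa [sub_add_cancel] at h5
  have hθw : w₁.valuation L θ ≤ 1 := by
    rw [← ht]
    exact w₁.valuation_le_one t
  have hnear : w₁.valuation L (cof - (3 * θ ^ 2 + algebraMap K L A)) < 1 := by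
    have e : cof - (3 * θ ^ 2 + algebraMap K L A) =
        (algebraMap K L x - θ) * (algebraMap K L x + (θ + θ)) := by
      rw [hcof]
      ring
    have h6 : w₁.valuation L (algebraMap K L x + (θ + θ)) ≤ 1 :=
      (w₁.valuation L).map_add_le hxw ((w₁.valuation L).map_add_le hθw hθw)
    rw [e, map_mul]
    exact mul_lt_one_of_lt_of_le hu1 h6
  obtain ⟨hc1, hc2⟩ := Ct_la_near hw1 h2.der hnear
  have hp := hR.proj hv hu0 hπ
  rw [gg_sum h2.toTwG (fun w => tp w (sc (algebraMap K L x - θ)) (sc (algebraMap K L (unif v)))),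
    h.norm_sub x] at hp
  have hp2 : tp v (sc (x ^ 3 + (A : K) * x + (B : K))) (sc (unif v)) =
      tp w₁ (sc (algebraMap K L x - θ)) (sc (algebraMap K L (unif v))) +
        tp w₁ (sc cof) (sc (algebraMap K L (unif v))) := by
    have h7 := gg_tp1 hv h2.toTwG hf0 hπ
    rw [← hmul, H38T1.sc_mul hu0 hcof0, H38T1.tp_comm, H54PR.tp_add_right hw1] at h7
    rw [H38T1.tp_comm (sc (algebraMap K L x - θ)), H38T1.tp_comm (sc cof)]
    exact h7.symm
  rw [hp2] at hp
  have hp3 := add_left_cancel hp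
  have g1 : eo w₁ (sc cof) = 0 := Ct_eo_one hc1
  have g2 : eo w₂ (sc (algebraMap K L x - θ)) = 0 := Ct_eo_one hu2
  have g3 : eo w₁ (sc (algebraMap K L (unif v))) = 1 := by rw [Ct_eo1 h2.toTwG hπ, Ct_eo_unif]
  have g4 : eo w₂ (sc (algebraMap K L (unif v))) = 1 := by rw [Ct_eo2 h2.toTwG hπ, Ct_eo_unif]
  unfold tp at hp3
  rw [g1, g2, g3, g4, zero_mul, zero_mul, zero_mul, zero_mul, zero_mul, zero_add, add_zero,
    zero_add, add_zero, one_mul, one_mul] at hp3
  rw [hp3, hc2]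

private theorem Ct_main {A B : 𝓞 K} {θ : L} (h : Cub K L (A : K) (B : K) θ) (hR : HR2 K L A B θ)
    {v : HeightOneSpectrum (𝓞 K)} (hv : OddP v) {w₁ w₂ : HeightOneSpectrum (𝓞 L)}
    (h2 : TwT K (A : K) θ v w₁ w₂) {c : SC L} (hc1 : eo w₁ c = 0) (hc2 : eo w₂ c = 1) {x : K}
    (hx : eo w₁ (sc (algebraMap K L x - θ)) + eo w₂ (sc (algebraMap K L x - θ)) = 1) :
    tp w₁ c (sc (algebraMap K L x - θ)) + tp w₂ c (sc (algebraMap K L x - θ)) =
      la w₁ c + la w₁ (sc (3 * θ ^ 2 + algebraMap K L A)) := by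
  have hx1 : v.valuation K x ≤ 1 := by
    by_contra hlt
    rw [Ct_big h h2.toTwG (not_le.1 hlt)] at hx
    have h3 : ∀ a : ZMod 2, a + a ≠ 1 := by decide
    exact h3 _ hx
  have hu2 := h2.unit2 x hx1
  have e2 : eo w₂ (sc (algebraMap K L x - θ)) = 0 := Ct_eo_one hu2
  rw [e2, add_zero] at hx
  obtain ⟨t, ht⟩ := theta_int h
  have hθw : w₁.valuation L θ ≤ 1 := by
    rw [← ht]
    exact w₁.valuation_le_one t
  have hxw : w₁.valuation L (algebraMap K L x) ≤ 1 := by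
    rcases eq_or_ne x 0 with rfl | hx0
    · rw [map_zero, map_zero]
      exact zero_le_one
    · have h4 := h2.ord1 x hx0
      unfold ord at h4
      have h5 : log (w₁.valuation L (algebraMap K L x)) = log (v.valuation K x) := neg_injective h4
      have h6 : w₁.valuation L (algebraMap K L x) ≠ 0 :=
        (Valuation.ne_zero_iff _).2 ((map_ne_zero _).2 hx0)
      have h7 : v.valuation K x ≠ 0 := (Valuation.ne_zero_iff _).2 hx0
      rw [← exp_log h6, h5, exp_log h7]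
      exact hx1
  have hu1 : w₁.valuation L (algebraMap K L x - θ) < 1 := by
    refine lt_of_le_of_ne ((w₁.valuation L).map_sub_le hxw hθw) ?_
    intro h8
    rw [Ct_eo_one h8] at hx
    exact zero_ne_one hx
  have h9 := Ct_la2 h hR hv h2 hx1 hu1 hu2
  unfold tp
  rw [hc1, hc2, hx, e2, h9]
  ring

theorem conic_CT {A B : 𝓞 K} {θ : L} (h : Cub K L (A : K) (B : K) θ) (hR : HR2 K L A B θ)
    {v : HeightOneSpectrum (𝓞 K)} (hv : OddP v) {w₁ w₂ : HeightOneSpectrum (𝓞 L)}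
    (h2 : TwT K (A : K) θ v w₁ w₂) {y : L} (hy : y ≠ 0) (hN : IsSquare (Algebra.norm K y))
    (ha : al h y ≠ 0) (hb : be h y ≠ 0) (hn : eo w₂ (sc y) = 1) :
    tp v (sc (al h y)) (sc (be h y)) =
      la w₁ (sc y) + la w₁ (sc (3 * θ ^ 2 + algebraMap K L A)) := by
  obtain ⟨t, s, hsc, -, htp⟩ := conic_F h hR hy hN ha hb
  obtain ⟨ht, hs⟩ := htp v hv
  have h1 := gg_eo1 hR hv h2.toTwG h.finrank hy hN
  have hl0 : -(al h y * be h y) ≠ 0 := neg_ne_zero.2 (mul_ne_zero ha hb)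
  rw [gg_sum h2.toTwG (fun w => tp w (sc y) (sc (algebraMap K L t - θ)))] at ht
  rw [gg_sum h2.toTwG (fun w => tp w (sc y) (sc (algebraMap K L s - θ)))] at hs
  have p1 : eo w₁ (sc y) = eo v (sc (-(al h y * be h y))) + eo w₁ (sc (algebraMap K L t - θ)) +
      eo w₁ (sc (algebraMap K L s - θ)) := by
    rw [hsc, H38T1.eo_add, H38T1.eo_add, Ct_eo1 h2.toTwG hl0]
  have p2 : eo w₂ (sc y) = eo v (sc (-(al h y * be h y))) + eo w₂ (sc (algebraMap K L t - θ)) +
      eo w₂ (sc (algebraMap K L s - θ)) := by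
    rw [hsc, H38T1.eo_add, H38T1.eo_add, Ct_eo2 h2.toTwG hl0]
  rw [h1] at p1
  rw [hn] at p2
  have key : ∀ l a b c d : ZMod 2, 0 = l + a + b → 1 = l + c + d → a + c = 1 ∨ b + d = 1 := by
    decide
  rcases key _ _ _ _ _ p1 p2 with h3 | h3
  · rw [ht]
    exact Ct_main h hR hv h2 h1 hn h3
  · rw [hs]
    exact Ct_main h hR hv h2 h1 hn h3

end H76MQ

end S_H76_MQ_Ct

section S_H76_MQ_Ac

set_option autoImplicit false
set_option linter.unusedSectionVars false
open scoped Classical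

open WithZero NumberField IsDedekindDomain H38RT
open H38T1 (SC sc scu rep eo la si Pri OddP tp unif ka)
open H76PP

namespace H76MQ

open H54MT

variable {K L : Type} [Field K] [NumberField K] [Field L] [NumberField L] [Algebra K L]

section one

variable {F : Type} [Field F] [NumberField F] {v : HeightOneSpectrum (𝓞 F)}

theorem Ac_ord {y : F} (h : v.valuation F y = 1) : ord (v.valuation F) y = 0 := by
  unfold ord
  rw [h, log_one, neg_zero]

theorem Ac_of_ord {y : F} (hy : y ≠ 0) (h : ord (v.valuation F) y = 0) :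
    v.valuation F y = 1 := by
  unfold ord at h
  have h1 := exp_log ((Valuation.ne_zero_iff (v.valuation F)).2 hy)
  rw [neg_eq_zero.1 h, exp_zero] at h1
  exact h1.symm

theorem Ac_ne {y : F} (h : v.valuation F y = 1) : y ≠ 0 := by
  rintro rfl
  rw [map_zero] at h
  exact zero_ne_one h

theorem Ac_eo {y : F} (h : v.valuation F y = 1) : eo v (sc y) = 0 := by
  rw [H38T1.eo_sc (Ac_ne h), Ac_ord h, Int.cast_zero]

theorem Ac_la (hv : OddP v) {y : F} (h : v.valuation F (y - 1) < 1) : la v (sc y) = 0 := by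
  have h1 := near_one h
  rw [H38T1.la_sc hv (Ac_ne h1), lam_unit h1]
  refine if_pos ⟨1, ?_⟩
  rwa [one_pow]

/-- If `x / y` is close to one the classes agree at `v`. -/
theorem Ac_close (hv : OddP v) {x y : F} (hy : y ≠ 0) (h : v.valuation F (x / y - 1) < 1) :
    eo v (sc x) = eo v (sc y) ∧ la v (sc x) = la v (sc y) := by
  have h1 : sc x = sc (x / y) + sc y := by
    rw [← H38T1.sc_mul (Ac_ne (near_one h)) hy, div_mul_cancel₀ _ hy]
  rw [h1, H38T1.eo_add, H38T1.la_add hv, Ac_eo (near_one h), Ac_la hv h, zero_add, zero_add]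
  exact ⟨rfl, rfl⟩

theorem Ac_tp_zero (hv : OddP v) (c : SC F) : tp v 0 c = 0 := by
  unfold tp
  rw [H38T1.eo_zero, H38T1.la_zero hv]
  ring

end one

theorem Ac_eo1 {v : HeightOneSpectrum (𝓞 K)} {w₁ w₂ : HeightOneSpectrum (𝓞 L)}
    (h2 : TwG K v w₁ w₂) {x : K} (hx : x ≠ 0) :
    eo w₁ (sc (algebraMap K L x)) = eo v (sc x) := by
  rw [H38T1.eo_sc ((map_ne_zero _).2 hx), H38T1.eo_sc hx, h2.ord1 x hx]

theorem Ac_eo2 {v : HeightOneSpectrum (𝓞 K)} {w₁ w₂ : HeightOneSpectrum (𝓞 L)}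
    (h2 : TwG K v w₁ w₂) {x : K} (hx : x ≠ 0) :
    eo w₂ (sc (algebraMap K L x)) = eo v (sc x) := by
  rw [H38T1.eo_sc ((map_ne_zero _).2 hx), H38T1.eo_sc hx, h2.ord2 x hx]

theorem Ac_G {A B : 𝓞 K} {θ : L} (h : Cub K L (A : K) (B : K) θ) (hR : HR2 K L A B θ)
    {v : HeightOneSpectrum (𝓞 K)} (hv : OddP v) (h3 : v.valuation K 3 = 1)
    {w₁ w₂ : HeightOneSpectrum (𝓞 L)} {r : K}
    (h2 : TwA K θ v w₁ w₂ r) {y : L} (hy : y ≠ 0) (hN : IsSquare (Algebra.norm K y))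
    (x : K) {X : L} (hX : X = algebraMap K L x - θ) :
    (tp w₁ (sc y) (sc X) + tp w₂ (sc y) (sc X) = la w₁ (sc y) * (eo w₁ (sc X) + eo w₂ (sc X)) ∧
      ∃ μ : K, μ ≠ 0 ∧ la w₂ (sc X) = la w₂ (sc (algebraMap K L μ)) ∧
        eo w₂ (sc X) = eo v (sc μ)) ∨
    (eo w₁ (sc X) + eo w₂ (sc X) = 1 ∧
      (eo w₂ (sc y) = 0 → tp w₁ (sc y) (sc X) + tp w₂ (sc y) (sc X) = la w₁ (sc y))) := by
  have hG : TwG K v w₁ w₂ := h2.toTwG
  have hw1 : OddP w₁ := by
    rw [oddP_dn (K := K), hG.dn1]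
    exact hv
  have hw2 : OddP w₂ := by
    rw [oddP_dn (K := K), hG.dn2]
    exact hv
  have hX0 : X ≠ 0 := by
    rw [hX]
    exact H54PR.sub_ne h x
  have e1 : eo w₁ (sc y) = 0 := gg_eo1 hR hv hG h.finrank hy hN
  have hm1 : v.valuation K (-1) = 1 := by rw [Valuation.map_neg, map_one]
  have lm : la w₂ (sc (-1 : L)) = 0 := by
    have h4 := gg_la2 hR hv hG h.finrank (neg_ne_zero.2 (one_ne_zero (α := K))) (Ac_eo hm1)
    rwa [map_neg, map_one] at h4
  have t1 : tp w₁ (sc y) (sc X) = eo w₁ (sc X) * la w₁ (sc y) := by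
    unfold tp
    rw [e1]
    ring
  have t2 : tp w₂ (sc y) (sc X) = eo w₂ (sc y) * la w₂ (sc X) + eo w₂ (sc X) * la w₂ (sc y) := by
    unfold tp
    rw [lm]
    ring
  rcases lt_or_ge 1 (v.valuation K x) with hx | hx
  · -- the denominator case
    have hx0 : x ≠ 0 := by
      rintro rfl
      rw [map_zero] at hx
      exact absurd hx (not_lt.2 zero_le_one)
    have hx1 : algebraMap K L x ≠ 0 := (map_ne_zero _).2 hx0
    have hc : ∀ w : HeightOneSpectrum (𝓞 L), dn K w = v →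
        w.valuation L (X / algebraMap K L x - 1) < 1 := by
      intro w hw
      have h4 := (ord_sub_big h (w := w) (x := x) (by rw [hw]; exact hx)).2.1
      have h5 : X / algebraMap K L x - 1 = -(θ / algebraMap K L x) := by
        rw [hX]
        field_simp
        ring
      rw [h5, Valuation.map_neg]
      exact h4
    obtain ⟨a1, b1⟩ := Ac_close hw1 hx1 (hc w₁ hG.dn1)
    obtain ⟨a2, b2⟩ := Ac_close hw2 hx1 (hc w₂ hG.dn2)
    have hz : tp w₁ (sc y) (sc X) + tp w₂ (sc y) (sc X) = 0 := by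
      have h5 := gg_sum hG (fun w => tp w (sc y) (sc (algebraMap K L x)))
      have h6 := hR.proj hv hy hx0
      rw [h6] at h5
      have h7 : sc (Algebra.norm K y) = 0 := by
        have : Module.Finite K L := Module.Finite.of_basis h.basis
        exact (H38T1.sc_eq_zero (Algebra.norm_ne_zero_iff.2 hy)).2 hN
      rw [h7, Ac_tp_zero hv] at h5
      have h8 : tp w₁ (sc y) (sc X) = tp w₁ (sc y) (sc (algebraMap K L x)) := by
        unfold tp
        rw [a1, b1]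
      have h9 : tp w₂ (sc y) (sc X) = tp w₂ (sc y) (sc (algebraMap K L x)) := by
        unfold tp
        rw [a2, b2]
      rw [h8, h9]
      exact h5.symm
    left
    refine ⟨?_, x, hx0, b2, a2.trans (Ac_eo2 hG hx0)⟩
    rw [hz, a1, a2, Ac_eo1 hG hx0, Ac_eo2 hG hx0, CharTwo.add_self_eq_zero, mul_zero]
  by_cases hr : v.valuation K (x - r) < 1
  · -- the double root
    right
    have h3r : v.valuation K (3 * r) = 1 := by
      rw [map_mul, h3, h2.r1, one_mul]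
    have h3r0 : (3 * r : K) ≠ 0 := Ac_ne h3r
    have h3w : w₁.valuation L (algebraMap K L (3 * r)) = 1 := by
      refine Ac_of_ord ((map_ne_zero _).2 h3r0) ?_
      rw [hG.ord1 _ h3r0]
      exact Ac_ord h3r
    have hXw : w₁.valuation L X = 1 := by
      rw [← h3w]
      refine Valuation.map_eq_of_sub_lt _ ?_
      have h4 : X - algebraMap K L (3 * r) = algebraMap K L (x - r) - (θ + algebraMap K L (2 * r)) := by
        rw [hX]
        simp only [map_sub, map_mul, map_ofNat]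
        ring
      rw [h4, h3w]
      refine Valuation.map_sub_lt _ ?_ h2.rt
      refine val_lt ?_
      rw [hG.dn1]
      exact hr
    have hE1 : eo w₁ (sc X) = 0 := Ac_eo hXw
    have hE2 : eo w₂ (sc X) = 1 := by
      have h4 := h2.nr x hr
      rw [← hX] at h4
      rw [H38T1.eo_sc hX0]
      unfold ord
      rw [h4, log_exp]
      norm_num
    refine ⟨by rw [hE1, hE2, zero_add], fun h0 => ?_⟩
    rw [t1, t2, hE1, hE2, h0, gg_la12 hR hv hG h.finrank hy hN h0]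
    ring
  · -- the other integral case
    left
    have hr1 : v.valuation K (x - r) = 1 := by
      refine le_antisymm ?_ (not_lt.1 hr)
      refine (Valuation.map_sub (v.valuation K) x r).trans ?_
      rw [h2.r1]
      exact max_le hx le_rfl
    have hc0 : x - r ≠ 0 := Ac_ne hr1
    have hcw : w₂.valuation L (algebraMap K L (x - r)) = 1 := by
      refine Ac_of_ord ((map_ne_zero _).2 hc0) ?_
      rw [hG.ord2 _ hc0]
      exact Ac_ord hr1
    have hcl : algebraMap K L (x - r) ≠ 0 := (map_ne_zero _).2 hc0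
    have hnear : w₂.valuation L (X / algebraMap K L (x - r) - 1) < 1 := by
      have h4 : X / algebraMap K L (x - r) - 1 = (algebraMap K L r - θ) / algebraMap K L (x - r) := by
        rw [div_sub_one hcl, hX, map_sub]
        congr 1
        ring
      rw [h4, map_div₀, hcw, div_one, h2.nr r (by rw [sub_self, map_zero]; exact zero_lt_one)]
      rw [← exp_zero, exp_lt_exp]
      norm_num
    obtain ⟨a2, b2⟩ := Ac_close hw2 hcl hnear
    have hev : eo v (sc (x - r)) = 0 := Ac_eo hr1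
    have hE2 : eo w₂ (sc X) = 0 := by rw [a2, Ac_eo2 hG hc0, hev]
    have hL2 : la w₂ (sc X) = 0 := by rw [b2, gg_la2 hR hv hG h.finrank hc0 hev]
    refine ⟨?_, x - r, hc0, b2, by rw [hE2, hev]⟩
    rw [t1, t2, hE2, hL2]
    ring

theorem conic_CA {A B : 𝓞 K} {θ : L} (h : Cub K L (A : K) (B : K) θ) (hR : HR2 K L A B θ)
    {v : HeightOneSpectrum (𝓞 K)} (hv : OddP v) (h3 : v.valuation K 3 = 1)
    {w₁ w₂ : HeightOneSpectrum (𝓞 L)} {r : K}
    (h2 : TwA K θ v w₁ w₂ r) {y : L} (hy : y ≠ 0) (hN : IsSquare (Algebra.norm K y))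
    (ha : al h y ≠ 0) (hb : be h y ≠ 0) :
    tp v (sc (al h y)) (sc (be h y)) = la w₁ (sc y) * (eo w₂ (sc y) + 1) := by
  have hG : TwG K v w₁ w₂ := h2.toTwG
  have hw2 : OddP w₂ := by
    rw [oddP_dn (K := K), hG.dn2]
    exact hv
  have hE1 : eo w₁ (sc y) = 0 := gg_eo1 hR hv hG h.finrank hy hN
  obtain ⟨t, s, he, -, hT⟩ := conic_F h hR hy hN ha hb
  obtain ⟨ht, hs⟩ := hT v hv
  obtain ⟨l, hl⟩ : ∃ l, l = -(al h y * be h y) := ⟨_, rfl⟩
  obtain ⟨U, hU⟩ : ∃ U, U = algebraMap K L t - θ := ⟨_, rfl⟩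
  obtain ⟨W, hW⟩ : ∃ W, W = algebraMap K L s - θ := ⟨_, rfl⟩
  have hl0 : l ≠ 0 := by
    rw [hl]
    exact neg_ne_zero.2 (mul_ne_zero ha hb)
  rw [← hl, ← hU, ← hW] at he
  rw [← hU, gg_sum hG (fun w => tp w (sc y) (sc U))] at ht
  rw [← hW, gg_sum hG (fun w => tp w (sc y) (sc W))] at hs
  change _ = tp w₁ (sc y) (sc U) + tp w₂ (sc y) (sc U) at ht
  change _ = tp w₁ (sc y) (sc W) + tp w₂ (sc y) (sc W) at hs
  have f1 : eo w₁ (sc y) = eo v (sc l) + eo w₁ (sc U) + eo w₁ (sc W) := by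
    rw [he, H38T1.eo_add, H38T1.eo_add, Ac_eo1 hG hl0]
  have f2 : eo w₂ (sc y) = eo v (sc l) + eo w₂ (sc U) + eo w₂ (sc W) := by
    rw [he, H38T1.eo_add, H38T1.eo_add, Ac_eo2 hG hl0]
  have f3 : (eo w₁ (sc U) + eo w₂ (sc U)) + (eo w₁ (sc W) + eo w₂ (sc W)) = eo w₂ (sc y) := by
    rw [hE1] at f1
    have e3 : ∀ n l a b c d : ZMod 2, 0 = l + a + b → n = l + c + d → (a + c) + (b + d) = n := by
      decide
    exact e3 _ _ _ _ _ _ f1 f2
  have gU := Ac_G h hR hv h3 h2 hy hN t hU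
  have gW := Ac_G h hR hv h3 h2 hy hN s hW
  rw [← ht] at gU
  rw [← hs] at gW
  have hz : ∀ x : ZMod 2, x = 0 ∨ x = 1 := by decide
  rcases hz (eo w₂ (sc y)) with hn | hn
  · rcases gU with ⟨g1, μ, hμ, m1, m2⟩ | ⟨-, g1⟩
    · rcases gW with ⟨g2, ν, hν, n1, n2⟩ | ⟨-, g2⟩
      · have hm : la w₁ (sc y) = 0 := by
          have k0 : l * μ * ν ≠ 0 := mul_ne_zero (mul_ne_zero hl0 hμ) hν
          have k1 : sc (l * μ * ν) = sc l + sc μ + sc ν := by
            rw [H38T1.sc_mul (mul_ne_zero hl0 hμ) hν, H38T1.sc_mul hl0 hμ]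
          have k2 : eo v (sc (l * μ * ν)) = 0 := by
            rw [k1, H38T1.eo_add, H38T1.eo_add, ← m2, ← n2, ← f2, hn]
          have k3 := gg_la2 hR hv hG h.finrank k0 k2
          have k4 : sc (algebraMap K L (l * μ * ν)) =
              sc (algebraMap K L l) + sc (algebraMap K L μ) + sc (algebraMap K L ν) := by
            rw [map_mul, map_mul, H38T1.sc_mul (mul_ne_zero ((map_ne_zero _).2 hl0)
              ((map_ne_zero _).2 hμ)) ((map_ne_zero _).2 hν), H38T1.sc_mul ((map_ne_zero _).2 hl0)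
              ((map_ne_zero _).2 hμ)]
          rw [k4, H38T1.la_add hw2, H38T1.la_add hw2, ← m1, ← n1, ← H38T1.la_add hw2,
            ← H38T1.la_add hw2, ← he] at k3
          rw [← gg_la12 hR hv hG h.finrank hy hN hn]
          exact k3
        rw [g1, hm, zero_mul, zero_mul]
      · rw [g2 hn, hn, zero_add, mul_one]
    · rw [g1 hn, hn, zero_add, mul_one]
  · rw [hn] at f3 ⊢
    rcases gU with ⟨g1, -⟩ | ⟨g1, -⟩
    · rcases gW with ⟨g2, -⟩ | ⟨g2, -⟩
      · have e3 : ∀ a m p q : ZMod 2, a = m * p → a = m * q → p + q = 1 → a = m * (1 + 1) := by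
          decide
        exact e3 _ _ _ _ g1 g2 f3
      · rw [g2] at f3
        have e3 : ∀ a m p : ZMod 2, a = m * p → p + 1 = 1 → a = m * (1 + 1) := by
          decide
        exact e3 _ _ _ g1 f3
    · rcases gW with ⟨g2, -⟩ | ⟨g2, -⟩
      · rw [g1] at f3
        have e3 : ∀ a m p : ZMod 2, a = m * p → 1 + p = 1 → a = m * (1 + 1) := by
          decide
        exact e3 _ _ _ g2 f3
      · rw [g1, g2] at f3
        exact absurd f3 (by decide)

end H76MQ

end S_H76_MQ_Ac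

section S_H76_MQ_Fq

set_option autoImplicit false
set_option linter.unusedSectionVars false
open scoped Classical

open WithZero NumberField IsDedekindDomain H38RT
open H38T1 (SC sc scu rep eo la si Pri OddP tp unif ka)
open H76PP

namespace H76MQ

/-- The residue class (copy of `H30ZO.exists_cls`, proved). -/
theorem Fq_cls {K : Type} [Field K] [NumberField K] {S R : Finset (HeightOneSpectrum (𝓞 K))}
    (hSv : ∀ v : HeightOneSpectrum (𝓞 K), (2 : 𝓞 K) ∈ v.asIdeal → v ∈ S)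
    (hR : ∀ v ∈ R, v ∉ S) (e : HeightOneSpectrum (𝓞 K) → ℕ)
    (Av Bv : HeightOneSpectrum (𝓞 K) → 𝓞 K)
    (hcl : ∀ v ∈ S, dsc (Av v) (Bv v) ∉ v.asIdeal ^ e v) :
    ∃ (m : Ideal (𝓞 K)) (E : ℕ) (A₀ B₀ : 𝓞 K), m ≠ ⊥ ∧ 1 ≤ E ∧
      (∀ v ∈ S, m ≤ v.asIdeal ^ E ∧ dsc A₀ B₀ ∉ v.asIdeal ^ E) ∧
      (∀ v : HeightOneSpectrum (𝓞 K), v ∉ S → m ≤ v.asIdeal → dsc A₀ B₀ ∉ v.asIdeal) ∧
      (∀ A B : 𝓞 K, A - A₀ ∈ m → B - B₀ ∈ m →
        (∀ v ∈ S, A - Av v ∈ v.asIdeal ^ e v ∧ B - Bv v ∈ v.asIdeal ^ e v) ∧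
        ∀ v ∈ R, H30PN.NoRt K v A B) := by
  choose b hb using fun v : HeightOneSpectrum (𝓞 K) => H30PN.Rm_noroot v
  obtain ⟨E, hE⟩ : ∃ E : ℕ, E = 1 + ∑ v ∈ S, e v := ⟨_, rfl⟩
  have hEe : ∀ v ∈ S, e v ≤ E := by
    intro v hv
    have h1 : e v ≤ ∑ v ∈ S, e v := Finset.single_le_sum (fun _ _ => Nat.zero_le _) hv
    omega
  obtain ⟨ex, hex⟩ : ∃ ex : HeightOneSpectrum (𝓞 K) → ℕ, ex = fun v => if v ∈ S then E else 1 :=
    ⟨_, rfl⟩
  have hexS : ∀ v ∈ S, ex v = E := by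
    intro v hv
    rw [hex]
    exact if_pos hv
  have hexR : ∀ v ∉ S, ex v = 1 := by
    intro v hv
    rw [hex]
    exact if_neg hv
  have hRS : ∀ v ∈ R, v ∉ S := hR
  obtain ⟨A₀, hA₀⟩ := IsDedekindDomain.exists_forall_sub_mem_ideal (s := S ∪ R)
    (fun v : HeightOneSpectrum (𝓞 K) => v.asIdeal) ex (fun v _ => v.prime)
    (fun v _ w _ hne h => hne (HeightOneSpectrum.ext h)) (fun v => if v.1 ∈ S then Av v else -1)
  obtain ⟨B₀, hB₀⟩ := IsDedekindDomain.exists_forall_sub_mem_ideal (s := S ∪ R)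
    (fun v : HeightOneSpectrum (𝓞 K) => v.asIdeal) ex (fun v _ => v.prime)
    (fun v _ w _ hne h => hne (HeightOneSpectrum.ext h)) (fun v => if v.1 ∈ S then Bv v else b v)
  have hAS : ∀ v ∈ S, A₀ - Av v ∈ v.asIdeal ^ E := by
    intro v hv
    have h := hA₀ v (Finset.mem_union_left _ hv)
    rw [hexS v hv, if_pos hv] at h
    exact h
  have hBS : ∀ v ∈ S, B₀ - Bv v ∈ v.asIdeal ^ E := by
    intro v hv
    have h := hB₀ v (Finset.mem_union_left _ hv)
    rw [hexS v hv, if_pos hv] at h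
    exact h
  have hAR : ∀ v ∈ R, A₀ - (-1) ∈ v.asIdeal := by
    intro v hv
    have h := hA₀ v (Finset.mem_union_right _ hv)
    rw [hexR v (hRS v hv), if_neg (hRS v hv), pow_one] at h
    exact h
  have hBR : ∀ v ∈ R, B₀ - b v ∈ v.asIdeal := by
    intro v hv
    have h := hB₀ v (Finset.mem_union_right _ hv)
    rw [hexR v (hRS v hv), if_neg (hRS v hv), pow_one] at h
    exact h
  obtain ⟨m, hm⟩ : ∃ m : Ideal (𝓞 K), m = ∏ v ∈ S ∪ R, v.asIdeal ^ ex v := ⟨_, rfl⟩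
  have hle : ∀ v ∈ S ∪ R, m ≤ v.asIdeal ^ ex v := fun v hv => by
    rw [hm]
    exact Ideal.le_of_dvd (Finset.dvd_prod_of_mem
      (fun w : HeightOneSpectrum (𝓞 K) => w.asIdeal ^ ex w) hv)
  have hleS : ∀ v ∈ S, m ≤ v.asIdeal ^ E := fun v hv => by
    rw [← hexS v hv]
    exact hle v (Finset.mem_union_left _ hv)
  have hleR : ∀ v ∈ R, m ≤ v.asIdeal := fun v hv => by
    have h := hle v (Finset.mem_union_right _ hv)
    rwa [hexR v (hRS v hv), pow_one] at h
  have hmem : ∀ v : HeightOneSpectrum (𝓞 K), m ≤ v.asIdeal → v ∈ S ∪ R := by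
    intro v hv
    rw [hm] at hv
    obtain ⟨w, hw, hwv⟩ := (Ideal.IsPrime.prod_le v.isPrime).1 hv
    have h1 : w.asIdeal = v.asIdeal :=
      w.isMaximal.eq_of_le v.isPrime.ne_top (Ideal.IsPrime.le_of_pow_le hwv)
    have h2 : w = v := HeightOneSpectrum.ext h1
    rwa [← h2]
  have hno : ∀ A B : 𝓞 K, A - A₀ ∈ m → B - B₀ ∈ m → ∀ v ∈ R, H30PN.NoRt K v A B := by
    intro A B hA hBm v hv t ht
    apply hb v t
    have e : t ^ 3 - t + b v = (t ^ 3 + A * t + B) - t * ((A - A₀) + (A₀ - (-1))) -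
        (B - B₀) - (B₀ - b v) := by ring
    rw [e]
    exact Ideal.sub_mem _ (Ideal.sub_mem _ (Ideal.sub_mem _ ht
      (Ideal.mul_mem_left _ _ (Ideal.add_mem _ (hleR v hv hA) (hAR v hv)))) (hleR v hv hBm))
      (hBR v hv)
  refine ⟨m, E, A₀, B₀, ?_, by omega, ?_, ?_, ?_⟩
  · rw [hm, ← Ideal.zero_eq_bot, Finset.prod_ne_zero_iff]
    intro w _
    exact pow_ne_zero _ (by rw [Ideal.zero_eq_bot]; exact w.ne_bot)
  · intro v hv
    refine ⟨hleS v hv, fun h => hcl v hv ?_⟩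
    have h1 : dsc (Av v) (Bv v) = dsc A₀ B₀ - ((A₀ - Av v) *
        (4 * (A₀ ^ 2 + A₀ * Av v + Av v ^ 2)) + (B₀ - Bv v) * (27 * (B₀ + Bv v))) := by
      unfold dsc
      ring
    have h2 : dsc (Av v) (Bv v) ∈ v.asIdeal ^ E := by
      rw [h1]
      exact sub_mem h (add_mem (Ideal.mul_mem_right _ _ (hAS v hv))
        (Ideal.mul_mem_right _ _ (hBS v hv)))
    exact Ideal.pow_le_pow_right (hEe v hv) h2
  · intro v hvS hmv
    have hvR : v ∈ R := by
      rcases Finset.mem_union.1 (hmem v hmv) with h | h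
      · exact absurd h hvS
      · exact h
    have h2v : (2 : 𝓞 K) ∉ v.asIdeal := fun h => hR v hvR (hSv v h)
    by_cases h6 : (6 : 𝓞 K) ∈ v.asIdeal
    · have h3 : (3 : 𝓞 K) ∈ v.asIdeal := by
        have h7 : (2 : 𝓞 K) * 3 ∈ v.asIdeal := by
          rw [show (2 : 𝓞 K) * 3 = 6 by norm_num]
          exact h6
        exact (v.isPrime.mem_or_mem h7).resolve_left h2v
      intro h
      have h8 : (2 : 𝓞 K) ^ 2 ∈ v.asIdeal := by
        have e : (2 : 𝓞 K) ^ 2 = 3 * (9 * B₀ ^ 2) + (A₀ - (-1)) * (4 * (A₀ ^ 2 - A₀ + 1)) -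
            dsc A₀ B₀ := by
          unfold dsc
          ring
        rw [e]
        exact sub_mem (add_mem (v.asIdeal.mul_mem_right _ h3)
          (v.asIdeal.mul_mem_right _ (hAR v hvR))) h
      exact h2v (v.isPrime.mem_of_pow_mem 2 h8)
    · refine H30PN.nort_dsc' h6 (hno A₀ B₀ ?_ ?_ v hvR)
      · rw [sub_self]
        exact Ideal.zero_mem _
      · rw [sub_self]
        exact Ideal.zero_mem _
  · intro A B hA hB
    refine ⟨fun v hv => ?_, hno A B hA hB⟩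
    have h1 : v.asIdeal ^ E ≤ v.asIdeal ^ e v := Ideal.pow_le_pow_right (hEe v hv)
    constructor
    · have h2 := h1 (add_mem (hleS v hv hA) (hAS v hv))
      rwa [sub_add_sub_cancel] at h2
    · have h2 := h1 (add_mem (hleS v hv hB) (hBS v hv))
      rwa [sub_add_sub_cancel] at h2

private theorem Fq_two_not_unit (K : Type) [Field K] [NumberField K] : ¬ IsUnit (2 : 𝓞 K) := by
  intro h
  obtain ⟨u, hu⟩ := h.exists_right_inv
  have h1 : IsIntegral ℤ ((u : 𝓞 K) : K) := RingOfIntegers.isIntegral_coe u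
  have h2 : ((u : 𝓞 K) : K) = algebraMap ℚ K (1 / 2) := by
    have h3 := congrArg (algebraMap (𝓞 K) K) hu
    rw [map_mul, map_ofNat, map_one] at h3
    rw [map_div₀, map_one, map_ofNat, eq_div_iff (two_ne_zero)]
    rw [mul_comm]
    exact h3
  rw [h2] at h1
  have h3 : IsIntegral ℤ (1 / 2 : ℚ) :=
    (isIntegral_algebraMap_iff (algebraMap ℚ K).injective).1 h1
  obtain ⟨n, hn⟩ := IsIntegrallyClosed.isIntegral_iff.1 h3
  have h4 : (2 * n : ℤ) = 1 := by
    have h5 : ((2 * n : ℤ) : ℚ) = ((1 : ℤ) : ℚ) := by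
      push_cast
      have : (n : ℚ) = 1 / 2 := hn
      rw [this]
      norm_num
    exact_mod_cast h5
  omega

private theorem Fq_exists_two (K : Type) [Field K] [NumberField K] :
    ∃ v : HeightOneSpectrum (𝓞 K), (2 : 𝓞 K) ∈ v.asIdeal := by
  obtain ⟨M, hM, h2⟩ := exists_max_ideal_of_mem_nonunits (Fq_two_not_unit K)
  refine ⟨⟨M, hM.isPrime, ?_⟩, h2⟩
  rintro rfl
  exact two_ne_zero (Ideal.mem_bot.1 h2)

/-- powers of a local uniformizer -/
private theorem Fq_pow {K : Type} [Field K] [NumberField K] {w : HeightOneSpectrum (𝓞 K)} {x : 𝓞 K}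
    (h1 : x ∈ w.asIdeal) (h2 : x ∉ w.asIdeal ^ 2) (n : ℕ) : x ^ n ∉ w.asIdeal ^ (n + 1) := by
  intro h
  have h1' : x ∈ w.asIdeal ^ 1 := by rwa [pow_one]
  rw [← w.intValuation_le_pow_iff_mem] at h1' h2 h
  have h0 : w.intValuation x ≠ 0 := by
    intro h0
    apply h2
    rw [h0]
    exact zero_le
  rw [map_pow] at h
  rw [← exp_log h0] at h1' h2 h
  rw [exp_le_exp] at h1' h2
  rw [← exp_nsmul, exp_le_exp, nsmul_eq_mul] at h
  push_cast at h1' h2 h
  have h3 : log (w.intValuation x) = -1 := by omega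
  rw [h3] at h
  linarith

private theorem Fq_mul {K : Type} [Field K] [NumberField K] {w : HeightOneSpectrum (𝓞 K)}
    {u x : 𝓞 K} {n : ℕ} (hu : u ∉ w.asIdeal) (hx : x ∉ w.asIdeal ^ n) :
    u * x ∉ w.asIdeal ^ n := by
  intro h
  have := w.isPrime
  rcases Ideal.IsPrime.mul_mem_pow w.asIdeal h with h | h
  · exact hu h
  · exact hx h

/-- a number `ε` such that `-3 ε` is not a square -/
private theorem Fq_eps {K : Type} [Field K] [NumberField K] (w : HeightOneSpectrum (𝓞 K))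
    (h6 : (6 : 𝓞 K) ∉ w.asIdeal) : ∃ ε : 𝓞 K, ∀ s : 𝓞 K, 3 * ε + s ^ 2 ∉ w.asIdeal := by
  have hmax : w.asIdeal.IsMaximal := w.isMaximal
  have hfin : Finite (𝓞 K ⧸ w.asIdeal) := Ideal.finiteQuotientOfFreeOfNeBot w.asIdeal w.ne_bot
  have h2 : (2 : 𝓞 K) ∉ w.asIdeal := by
    intro h2
    apply h6
    have e : (6 : 𝓞 K) = 3 * 2 := by norm_num
    rw [e]
    exact Ideal.mul_mem_left _ _ h2
  have h3 : (3 : 𝓞 K) ∉ w.asIdeal := by
    intro h3
    apply h6
    have e : (6 : 𝓞 K) = 2 * 3 := by norm_num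
    rw [e]
    exact Ideal.mul_mem_left _ _ h3
  have hc : ringChar (𝓞 K ⧸ w.asIdeal) ≠ 2 := by
    intro hc
    apply h2
    have h4 : ((2 : ℕ) : 𝓞 K ⧸ w.asIdeal) = 0 := by
      rw [← hc]
      exact ringChar.Nat.cast_ringChar
    rw [← Ideal.Quotient.eq_zero_iff_mem, map_ofNat]
    exact_mod_cast h4
  obtain ⟨a, ha⟩ := FiniteField.exists_nonsquare hc
  have h3' : (3 : 𝓞 K ⧸ w.asIdeal) ≠ 0 := by
    intro h5
    apply h3
    rw [← Ideal.Quotient.eq_zero_iff_mem, map_ofNat]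
    exact h5
  obtain ⟨ε, hε⟩ := Ideal.Quotient.mk_surjective (-a / 3 : 𝓞 K ⧸ w.asIdeal)
  refine ⟨ε, fun s hs => ha ?_⟩
  rw [← Ideal.Quotient.eq_zero_iff_mem, map_add, map_mul, map_ofNat, map_pow, hε,
    mul_div_cancel₀ _ h3'] at hs
  refine ⟨Ideal.Quotient.mk w.asIdeal s, ?_⟩
  rw [← sq]
  linear_combination -hs

/-- The class at an auxiliary place. -/
theorem exists_aux_class {K : Type} [Field K] [NumberField K] (w : HeightOneSpectrum (𝓞 K))
    (h6 : (6 : 𝓞 K) ∉ w.asIdeal) :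
    ∃ b : 𝓞 K, dsc (-3) b ∉ w.asIdeal ^ 3 ∧ ∀ A B : 𝓞 K, A - (-3) ∈ w.asIdeal ^ 3 →
      B - b ∈ w.asIdeal ^ 3 → AuxT w A B := by
  have hpr := w.isPrime
  obtain ⟨ε, hε⟩ := Fq_eps w h6
  obtain ⟨x, hx1, hx2⟩ := Ideal.exists_mem_pow_notMem_pow_succ w.asIdeal w.ne_bot hpr.ne_top 1
  have hx : x ∈ w.asIdeal := by rwa [pow_one] at hx1
  have hx3 : x ^ 2 ∉ w.asIdeal ^ 3 := Fq_pow hx hx2 2
  have h2 : (2 : 𝓞 K) ∉ w.asIdeal := by
    intro h2
    apply h6
    have e : (6 : 𝓞 K) = 3 * 2 := by norm_num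
    rw [e]
    exact Ideal.mul_mem_left _ _ h2
  have h3 : (3 : 𝓞 K) ∉ w.asIdeal := by
    intro h3
    apply h6
    have e : (6 : 𝓞 K) = 2 * 3 := by norm_num
    rw [e]
    exact Ideal.mul_mem_left _ _ h3
  have hε0 : ε ∉ w.asIdeal := by
    intro h
    apply hε 0
    have e : (3 : 𝓞 K) * ε + 0 ^ 2 = 3 * ε := by ring
    rw [e]
    exact Ideal.mul_mem_left _ _ h
  have hle23 : w.asIdeal ^ 3 ≤ w.asIdeal ^ 2 := Ideal.pow_le_pow_right (by norm_num)
  have hx22 : x ^ 2 ∈ w.asIdeal ^ 2 := Ideal.pow_mem_pow hx 2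
  refine ⟨2 + x ^ 2 * ε, ?_, ?_⟩
  · have e : dsc (-3) (2 + x ^ 2 * ε) = (3 ^ 3 * ε * (4 + x ^ 2 * ε)) * x ^ 2 := by
      unfold dsc
      ring
    rw [e]
    refine Fq_mul ?_ hx3
    intro h
    rcases hpr.mem_or_mem h with h | h
    · rcases hpr.mem_or_mem h with h | h
      · exact h3 (hpr.mem_of_pow_mem 3 h)
      · exact hε0 h
    · apply h2
      refine hpr.mem_of_pow_mem 2 ?_
      have e4 : (2 : 𝓞 K) ^ 2 = (4 + x ^ 2 * ε) - (x * ε) * x := by ring
      rw [e4]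
      exact sub_mem h (Ideal.mul_mem_left _ _ hx)
  · intro A B hA hB
    refine ⟨1, ?_, ?_, ?_⟩
    · have e : 3 * (1 : 𝓞 K) ^ 2 + A = A - (-3) := by ring
      rw [e]
      exact hle23 hA
    · have e : (1 : 𝓞 K) ^ 3 + A * 1 + B = (A - (-3)) + (B - (2 + x ^ 2 * ε)) + ε * x ^ 2 := by ring
      rw [e]
      exact add_mem (add_mem (hle23 hA) (hle23 hB)) (Ideal.mul_mem_left _ _ hx22)
    · intro s hs
      have h4 : 3 * ε * x ^ 2 + s ^ 2 ∈ w.asIdeal ^ 3 := by
        have e : 3 * ε * x ^ 2 + s ^ 2 = (3 * 1 * (1 ^ 3 + A * 1 + B) + s ^ 2) -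
            3 * ((A - (-3)) + (B - (2 + x ^ 2 * ε))) := by ring
        rw [e]
        exact sub_mem hs (Ideal.mul_mem_left _ _ (add_mem hA hB))
      have hs1 : s ∈ w.asIdeal := by
        refine hpr.mem_of_pow_mem 2 ?_
        have e : s ^ 2 = (3 * ε * x ^ 2 + s ^ 2) - (3 * ε * x) * x := by ring
        rw [e]
        exact sub_mem (Ideal.pow_le_self (by norm_num) h4) (Ideal.mul_mem_left _ _ hx)
      obtain ⟨d, e, he, hde⟩ := Ideal.exists_mul_add_mem_pow_succ w.ne_bot x s hx1 hx2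
        (by rwa [pow_one])
      have he2 : e ∈ w.asIdeal ^ 2 := he
      have h5 : x * e ∈ w.asIdeal ^ 3 := by
        have e5 : w.asIdeal ^ 3 = w.asIdeal * w.asIdeal ^ 2 := by ring
        rw [e5]
        exact Ideal.mul_mem_mul hx he2
      have h6 : e * e ∈ w.asIdeal ^ 3 := by
        have e6 : w.asIdeal ^ 3 = w.asIdeal * w.asIdeal ^ 2 := by ring
        rw [e6]
        exact Ideal.mul_mem_mul (Ideal.pow_le_self (by norm_num) he2) he2
      have h7 : (3 * ε + d ^ 2) * x ^ 2 ∈ w.asIdeal ^ 3 := by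
        have e7 : (3 * ε + d ^ 2) * x ^ 2 = (3 * ε * x ^ 2 + s ^ 2) - (2 * d) * (x * e) - e * e := by
          rw [← hde]
          ring
        rw [e7]
        exact sub_mem (sub_mem h4 (Ideal.mul_mem_left _ _ h5)) h6
      exact Fq_mul (hε d) hx3 h7

theorem exists_class {K : Type} [Field K] [NumberField K] {C : Cfg K} (hC : C.Ok) :
    ∃ (m : Ideal (𝓞 K)) (E : ℕ) (A₀ B₀ : 𝓞 K), m ≠ ⊥ ∧ 2 ≤ E ∧
      (∀ v ∈ C.S, m ≤ v.asIdeal ^ E ∧ dsc A₀ B₀ ∉ v.asIdeal ^ E) ∧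
      (∀ v : HeightOneSpectrum (𝓞 K), v ∉ C.S → m ≤ v.asIdeal → dsc A₀ B₀ ∉ v.asIdeal) ∧
      ∀ (q₀ : HeightOneSpectrum (𝓞 K)) (T : Finset (HeightOneSpectrum (𝓞 K))) (A B : 𝓞 K),
        A - A₀ ∈ m → B - B₀ ∈ m → (∀ s : K →+* ℝ, 0 < s (A : K)) →
        H36MT.FamS C.S E q₀ T A B → FamQ C q₀ T A B := by
  choose b hb using fun v : HeightOneSpectrum (𝓞 K) => H30PN.Rm_noroot v
  obtain ⟨bb, hbb⟩ : ∃ bb : HeightOneSpectrum (𝓞 K) → 𝓞 K, ∀ v : HeightOneSpectrum (𝓞 K),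
      (6 : 𝓞 K) ∉ v.asIdeal → dsc (-3) (bb v) ∉ v.asIdeal ^ 3 ∧ ∀ A B : 𝓞 K,
        A - (-3) ∈ v.asIdeal ^ 3 → B - bb v ∈ v.asIdeal ^ 3 → AuxT v A B := by
    refine ⟨fun v => if h : (6 : 𝓞 K) ∉ v.asIdeal then (exists_aux_class v h).choose else 0, ?_⟩
    intro v h
    simp only [dif_pos h]
    exact (exists_aux_class v h).choose_spec
  obtain ⟨e, he⟩ : ∃ e : HeightOneSpectrum (𝓞 K) → ℕ,
      e = fun v => if v ∈ C.P then 10 else if v ∈ C.R then 1 else 3 := ⟨_, rfl⟩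
  obtain ⟨Av, hAv⟩ : ∃ Av : HeightOneSpectrum (𝓞 K) → 𝓞 K,
      Av = fun v => if v ∈ C.P then 16 else if v ∈ C.R then -1 else -3 := ⟨_, rfl⟩
  obtain ⟨Bv, hBv⟩ : ∃ Bv : HeightOneSpectrum (𝓞 K) → 𝓞 K,
      Bv = fun v => if v ∈ C.P then 16 else if v ∈ C.R then b v else bb v := ⟨_, rfl⟩
  have hRP : ∀ v ∈ C.R, v ∉ C.P := fun v hv hP => hC.R2 v hv ((hC.mem2 v).1 hP)
  have haP : ∀ v ∈ C.P, C.a v ∉ C.P := by
    intro v hv hP
    apply hC.a6 v hv
    have e6 : (6 : 𝓞 K) = 3 * 2 := by norm_num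
    rw [e6]
    exact Ideal.mul_mem_left _ _ ((hC.mem2 _).1 hP)
  have hP3 : ∀ v ∈ C.P, e v = 10 ∧ Av v = 16 ∧ Bv v = 16 := by
    intro v hv
    rw [he, hAv, hBv]
    exact ⟨if_pos hv, if_pos hv, if_pos hv⟩
  have hR3 : ∀ v ∈ C.R, e v = 1 ∧ Av v = -1 ∧ Bv v = b v := by
    intro v hv
    rw [he, hAv, hBv]
    refine ⟨?_, ?_, ?_⟩
    · exact (if_neg (hRP v hv)).trans (if_pos hv)
    · exact (if_neg (hRP v hv)).trans (if_pos hv)
    · exact (if_neg (hRP v hv)).trans (if_pos hv)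
  have ha3 : ∀ v ∈ C.P, e (C.a v) = 3 ∧ Av (C.a v) = -3 ∧ Bv (C.a v) = bb (C.a v) := by
    intro v hv
    rw [he, hAv, hBv]
    refine ⟨?_, ?_, ?_⟩
    · exact (if_neg (haP v hv)).trans (if_neg (hC.aR v hv))
    · exact (if_neg (haP v hv)).trans (if_neg (hC.aR v hv))
    · exact (if_neg (haP v hv)).trans (if_neg (hC.aR v hv))
  have hmemP : ∀ v ∈ C.P, v ∈ C.S := fun v hv => Finset.mem_union_left _ hv
  have hmemA : ∀ v ∈ C.P, C.a v ∈ C.S := fun v hv =>
    Finset.mem_union_right _ (Finset.mem_union_left _ (Finset.mem_image_of_mem _ hv))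
  have hmemR : ∀ v ∈ C.R, v ∈ C.S := fun v hv =>
    Finset.mem_union_right _ (Finset.mem_union_right _ hv)
  have hcl : ∀ v ∈ C.S, dsc (Av v) (Bv v) ∉ v.asIdeal ^ e v := by
    intro v hv
    have hpr := v.isPrime
    rcases Finset.mem_union.1 hv with hv | hv
    · obtain ⟨e1, e2, e3⟩ := hP3 v hv
      rw [e1, e2, e3]
      have h2 := (hC.mem2 v).1 hv
      have e4 : dsc (16 : 𝓞 K) 16 = 91 * 2 ^ 8 := by
        unfold dsc
        norm_num
      rw [e4]
      refine Fq_mul ?_ (fun h => Fq_pow h2 (hC.sq2 v hv) 8 (Ideal.pow_le_pow_right (by norm_num) h))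
      intro h
      apply hpr.ne_top
      rw [Ideal.eq_top_iff_one]
      have e5 : (1 : 𝓞 K) = 91 - 45 * 2 := by norm_num
      rw [e5]
      exact sub_mem h (Ideal.mul_mem_left _ _ h2)
    · rcases Finset.mem_union.1 hv with hv | hv
      · obtain ⟨v', hv', rfl⟩ := Finset.mem_image.1 hv
        obtain ⟨e1, e2, e3⟩ := ha3 v' hv'
        rw [e1, e2, e3]
        exact (hbb _ (hC.a6 v' hv')).1
      · obtain ⟨e1, e2, e3⟩ := hR3 v hv
        rw [e1, e2, e3, pow_one]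
        have h2 := hC.R2 v hv
        by_cases h6 : (6 : 𝓞 K) ∈ v.asIdeal
        · have h3 : (3 : 𝓞 K) ∈ v.asIdeal := by
            have h7 : (2 : 𝓞 K) * 3 ∈ v.asIdeal := by
              rw [show (2 : 𝓞 K) * 3 = 6 by norm_num]
              exact h6
            exact (hpr.mem_or_mem h7).resolve_left h2
          intro h
          have h8 : (2 : 𝓞 K) ^ 2 ∈ v.asIdeal := by
            have e8 : (2 : 𝓞 K) ^ 2 = 3 * (9 * b v ^ 2) - dsc (-1) (b v) := by
              unfold dsc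
              ring
            rw [e8]
            exact sub_mem (v.asIdeal.mul_mem_right _ h3) h
          exact h2 (hpr.mem_of_pow_mem 2 h8)
        · refine H30PN.nort_dsc' h6 ?_
          intro t ht
          apply hb v t
          have e9 : t ^ 3 - t + b v = t ^ 3 + -1 * t + b v := by ring
          rw [e9]
          exact ht
  obtain ⟨m, E, A₀, B₀, hm, hE, h1, h2, h3⟩ := Fq_cls (S := C.S) (R := ∅)
    (fun v hv => hmemP v ((hC.mem2 v).2 hv)) (fun v hv => absurd hv (Finset.notMem_empty v))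
    e Av Bv hcl
  have hE2 : 2 ≤ E := by
    by_contra hcon
    have hE1 : E = 1 := by omega
    obtain ⟨v, hv⟩ := Fq_exists_two K
    have hvP : v ∈ C.P := (hC.mem2 v).2 hv
    obtain ⟨e1, e2, e3⟩ := hP3 v hvP
    have h4 := (h3 A₀ B₀ (by rw [sub_self]; exact Ideal.zero_mem _)
      (by rw [sub_self]; exact Ideal.zero_mem _)).1 v (hmemP v hvP)
    rw [e1, e2, e3] at h4
    have h16 : (16 : 𝓞 K) ∈ v.asIdeal := by
      have e5 : (16 : 𝓞 K) = 8 * 2 := by norm_num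
      rw [e5]
      exact Ideal.mul_mem_left _ _ hv
    have hA : A₀ ∈ v.asIdeal := by
      have h5 := add_mem (Ideal.pow_le_self (by norm_num) h4.1) h16
      rwa [sub_add_cancel] at h5
    have hB : B₀ ∈ v.asIdeal := by
      have h5 := add_mem (Ideal.pow_le_self (by norm_num) h4.2) h16
      rwa [sub_add_cancel] at h5
    apply (h1 v (hmemP v hvP)).2
    rw [hE1, pow_one]
    have e6 : dsc A₀ B₀ = (4 * A₀ ^ 2) * A₀ + (27 * B₀) * B₀ := by
      unfold dsc
      ring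
    rw [e6]
    exact add_mem (Ideal.mul_mem_left _ _ hA) (Ideal.mul_mem_left _ _ hB)
  refine ⟨m, E, A₀, B₀, hm, hE2, h1, h2, ?_⟩
  intro q₀ T A B hA hB hpos hF
  have h5 := (h3 A B hA hB).1
  refine ⟨?_, ?_, ?_, hF.irr, hF.typ, hF.sqf, ?_⟩
  · intro v hv
    have h6 := h5 v (hmemP v hv)
    obtain ⟨e1, e2, e3⟩ := hP3 v hv
    rw [e1, e2, e3] at h6
    exact h6
  · intro v hv
    have h6 := h5 (C.a v) (hmemA v hv)
    obtain ⟨e1, e2, e3⟩ := ha3 v hv
    rw [e1, e2, e3] at h6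
    exact (hbb _ (hC.a6 v hv)).2 A B h6.1 h6.2
  · intro v hv t ht
    have h6 := h5 v (hmemR v hv)
    obtain ⟨e1, e2, e3⟩ := hR3 v hv
    rw [e1, e2, e3, pow_one] at h6
    apply hb v t
    have e7 : t ^ 3 - t + b v = (t ^ 3 + A * t + B) - t * (A - (-1)) - (B - b v) := by ring
    rw [e7]
    exact sub_mem (sub_mem ht (Ideal.mul_mem_left _ _ h6.1)) h6.2
  · intro s
    have e0 : algebraMap (𝓞 K) K (dsc A B) = 4 * (A : K) ^ 3 + 27 * (B : K) ^ 2 := by
      unfold dsc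
      rw [map_add, map_mul, map_mul, map_pow, map_pow, map_ofNat, map_ofNat]
    have e1 : s ((dsc A B : 𝓞 K) : K) = 4 * s (A : K) ^ 3 + 27 * s (B : K) ^ 2 := by
      refine (congrArg s e0).trans ?_
      rw [map_add, map_mul, map_mul, map_pow, map_pow, map_ofNat, map_ofNat]
    rw [e1]
    have h7 := hpos s
    positivity

end H76MQ

end S_H76_MQ_Fq
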