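import Mathlib
import Pool.Agent.H11.KSn
import Pool.Agent.H24.TD.Dg
import Pool.Agent.H88.T7.Un
import Pool.Agent.H76.PN.N6
import Pool.Agent.H76.PN.P1
import Pool.Agent.H76.PN.P3
import Pool.Agent.H76.ZQ.Y0
import Pool.Agent.H76.ZQ.Y8
import Pool.Agent.H76.MP.M1
import Pool.Agent.H76.MP.M2
import Pool.Agent.H76.MP.M3
import Pool.Agent.H76.MP.M4

/-! This file joins several modules to save build time (M5). -/

set_option autoImplicit false

section S_H76_MQ_Wk

set_option autoImplicit false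
set_option linter.unusedSectionVars false
open scoped Classical

namespace H76MQ

section aux

variable {P : Type} [Fintype P]

/-- the quadratic form `x0 x1 + x2 x3` summed over the places -/
noncomputable def Wk_q (x : P × Fin 4 → ZMod 2) : ZMod 2 :=
  ∑ p, (x (p, 0) * x (p, 1) + x (p, 2) * x (p, 3))

/-- its polar form -/
noncomputable def Wk_B : LinearMap.BilinForm (ZMod 2) (P × Fin 4 → ZMod 2) :=
  LinearMap.mk₂ (ZMod 2) (fun x y => ∑ p, (x (p, 0) * y (p, 1) + x (p, 1) * y (p, 0) +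
      (x (p, 2) * y (p, 3) + x (p, 3) * y (p, 2))))
    (by
      intro a b c
      rw [← Finset.sum_add_distrib]
      refine Finset.sum_congr rfl fun p _ => ?_
      simp only [Pi.add_apply]; ring)
    (by
      intro r a b
      rw [smul_eq_mul, Finset.mul_sum]
      refine Finset.sum_congr rfl fun p _ => ?_
      simp only [Pi.smul_apply, smul_eq_mul]; ring)
    (by
      intro a b c
      rw [← Finset.sum_add_distrib]
      refine Finset.sum_congr rfl fun p _ => ?_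
      simp only [Pi.add_apply]; ring)
    (by
      intro r a b
      rw [smul_eq_mul, Finset.mul_sum]
      refine Finset.sum_congr rfl fun p _ => ?_
      simp only [Pi.smul_apply, smul_eq_mul]; ring)

lemma Wk_B_apply (x y : P × Fin 4 → ZMod 2) :
    Wk_B x y = ∑ p, (x (p, 0) * y (p, 1) + x (p, 1) * y (p, 0) +
      (x (p, 2) * y (p, 3) + x (p, 3) * y (p, 2))) := rfl

lemma Wk_polar (x y : P × Fin 4 → ZMod 2) : Wk_q (x + y) = Wk_q x + Wk_q y + Wk_B x y := by
  rw [Wk_B_apply]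
  unfold Wk_q
  rw [← Finset.sum_add_distrib, ← Finset.sum_add_distrib]
  refine Finset.sum_congr rfl fun p _ => ?_
  simp only [Pi.add_apply]; ring

lemma Wk_B_symm (x y : P × Fin 4 → ZMod 2) : Wk_B x y = Wk_B y x := by
  rw [Wk_B_apply, Wk_B_apply]
  refine Finset.sum_congr rfl fun p _ => ?_
  ring

lemma Wk_B_refl : (Wk_B (P := P)).IsRefl := by
  intro x y h
  rw [Wk_B_symm]; exact h

lemma Wk_sep (x : P × Fin 4 → ZMod 2) (h : ∀ y, Wk_B x y = 0) : x = 0 := by
  funext a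
  obtain ⟨p, i⟩ := a
  have key : ∀ j : Fin 4, Wk_B x (Pi.single (p, j) 1) =
      x (p, 0) * (if j = 1 then 1 else 0) + x (p, 1) * (if j = 0 then 1 else 0) +
      (x (p, 2) * (if j = 3 then 1 else 0) + x (p, 3) * (if j = 2 then 1 else 0)) := by
    intro j
    rw [Wk_B_apply]
    rw [Finset.sum_eq_single p]
    · simp only [Pi.single_apply, Prod.mk.injEq, true_and]
      simp only [eq_comm (a := j)]
    · intro b _ hb
      simp only [Pi.single_apply, Prod.mk.injEq, hb, false_and, if_false, mul_zero, add_zero]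
    · intro hp; exact absurd (Finset.mem_univ _) hp
  have h0 := key 0; have h1 := key 1; have h2 := key 2; have h3 := key 3
  rw [h] at h0 h1 h2 h3
  fin_cases i
  · simpa using h1.symm
  · simpa using h0.symm
  · simpa using h3.symm
  · simpa using h2.symm

lemma Wk_nondeg : (Wk_B (P := P)).Nondegenerate := by
  constructor
  · intro x h; exact Wk_sep x h
  · intro x h
    refine Wk_sep x fun y => ?_
    rw [Wk_B_symm]; exact h y

/-- the target Lagrangian -/
def Wk_L : Submodule (ZMod 2) (P × Fin 4 → ZMod 2) where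
  carrier := {x | ∀ p, x (p, 2) = x (p, 1) ∧ x (p, 3) = x (p, 0)}
  add_mem' := by
    intro a b ha hb p
    simp only [Pi.add_apply, (ha p).1, (ha p).2, (hb p).1, (hb p).2, and_self]
  zero_mem' := by intro p; simp
  smul_mem' := by
    intro r a ha p
    simp only [Pi.smul_apply, (ha p).1, (ha p).2, and_self]

lemma Wk_L_mem (x : P × Fin 4 → ZMod 2) :
    x ∈ Wk_L (P := P) ↔ ∀ p, x (p, 2) = x (p, 1) ∧ x (p, 3) = x (p, 0) := Iff.rfl

lemma Wk_two (a : ZMod 2) : a + a = 0 := by revert a; decide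

lemma Wk_L_q (x : P × Fin 4 → ZMod 2) (hx : x ∈ Wk_L (P := P)) : Wk_q x = 0 := by
  unfold Wk_q
  refine Finset.sum_eq_zero fun p _ => ?_
  rw [(hx p).1, (hx p).2, mul_comm (x (p, 1))]
  exact Wk_two _

lemma Wk_L_B (x y : P × Fin 4 → ZMod 2) (hx : x ∈ Wk_L (P := P)) (hy : y ∈ Wk_L (P := P)) :
    Wk_B x y = 0 := by
  rw [Wk_B_apply]
  refine Finset.sum_eq_zero fun p _ => ?_
  rw [(hx p).1, (hx p).2, (hy p).1, (hy p).2]
  rw [add_comm (x (p, 1) * y (p, 0)) (x (p, 0) * y (p, 1)) |>.symm]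
  rw [add_comm (x (p, 1) * y (p, 0))]
  exact Wk_two _

lemma Wk_L_finrank : 2 * Fintype.card P ≤ Module.finrank (ZMod 2) (Wk_L (P := P)) := by
  let g : (P × Fin 2 → ZMod 2) →ₗ[ZMod 2] (Wk_L (P := P)) :=
    { toFun := fun z => ⟨fun a => z (a.1, (![0, 1, 1, 0] : Fin 4 → Fin 2) a.2), by
        intro p; simp⟩
      map_add' := by intro a b; rfl
      map_smul' := by intro r a; rfl }
  have hg : Function.Injective g := by
    intro a b hab
    have h : ∀ c : P × Fin 4, a (c.1, (![0, 1, 1, 0] : Fin 4 → Fin 2) c.2) =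
        b (c.1, (![0, 1, 1, 0] : Fin 4 → Fin 2) c.2) := by
      intro c
      have := congrArg Subtype.val hab
      exact congrFun this c
    funext c
    obtain ⟨p, i⟩ := c
    fin_cases i
    · simpa using h (p, 0)
    · simpa using h (p, 1)
  have := LinearMap.finrank_le_finrank_of_injective hg
  rw [Module.finrank_fintype_fun_eq_card, Fintype.card_prod, Fintype.card_fin] at this
  omega

lemma Wk_V_finrank : Module.finrank (ZMod 2) (P × Fin 4 → ZMod 2) = 4 * Fintype.card P := by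
  rw [Module.finrank_fintype_fun_eq_card, Fintype.card_prod, Fintype.card_fin]
  ring

/-- isotropic subspaces of large dimension are Lagrangian -/
lemma Wk_lag (W : Submodule (ZMod 2) (P × Fin 4 → ZMod 2))
    (hW : ∀ x ∈ W, ∀ y ∈ W, Wk_B x y = 0) (hd : 2 * Fintype.card P ≤ Module.finrank (ZMod 2) W) :
    Module.finrank (ZMod 2) W = 2 * Fintype.card P ∧
      ∀ y, (∀ x ∈ W, Wk_B x y = 0) → y ∈ W := by
  have hle : W ≤ (Wk_B (P := P)).orthogonal W := by
    intro y hy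
    rw [LinearMap.BilinForm.mem_orthogonal_iff]
    intro x hx
    exact hW x hx y hy
  have h1 := LinearMap.BilinForm.finrank_orthogonal (Wk_nondeg (P := P)) W
  have h2 := Submodule.finrank_mono hle
  have h3 := Submodule.finrank_le W
  rw [Wk_V_finrank] at h1 h3
  have h4 : Module.finrank (ZMod 2) W = 2 * Fintype.card P := by omega
  refine ⟨h4, ?_⟩
  have h5 : W = (Wk_B (P := P)).orthogonal W := by
    refine Submodule.eq_of_le_of_finrank_le hle ?_
    omega
  intro y hy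
  rw [h5, LinearMap.BilinForm.mem_orthogonal_iff]
  intro x hx
  exact hy x hx

end aux

section main

variable {H : Type} [AddCommGroup H] [Module (ZMod 2) H] {P ι : Type} [Fintype P]

/-- the space `X S` -/
def Wk_X (u n : ι → H →ₗ[ZMod 2] ZMod 2) (ν : ι → ZMod 2) (Tall S : Finset ι) :
    Submodule (ZMod 2) H where
  carrier := {c | (∀ v ∈ Tall, v ∉ S → n v c = 0) ∧ ∀ v ∈ S, u v c = ν v * n v c}
  add_mem' := by
    intro a b ha hb
    refine ⟨fun v hv hS => ?_, fun v hv => ?_⟩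
    · rw [map_add, ha.1 v hv hS, hb.1 v hv hS, add_zero]
    · rw [map_add, map_add, ha.2 v hv, hb.2 v hv, mul_add]
  zero_mem' := by
    refine ⟨fun v hv hS => ?_, fun v hv => ?_⟩
    · rw [map_zero]
    · rw [map_zero, map_zero, mul_zero]
  smul_mem' := by
    intro r a ha
    refine ⟨fun v hv hS => ?_, fun v hv => ?_⟩
    · rw [map_smul, ha.1 v hv hS, smul_zero]
    · rw [map_smul, map_smul, ha.2 v hv, smul_eq_mul, smul_eq_mul]; ring

lemma Wk_X_mem (u n : ι → H →ₗ[ZMod 2] ZMod 2) (ν : ι → ZMod 2) (Tall S : Finset ι) (c : H) :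
    c ∈ Wk_X u n ν Tall S ↔
      (∀ v ∈ Tall, v ∉ S → n v c = 0) ∧ ∀ v ∈ S, u v c = ν v * n v c := Iff.rfl

/-- the localisation map -/
def Wk_loc (I J ia ja : P → H →ₗ[ZMod 2] ZMod 2) : H →ₗ[ZMod 2] (P × Fin 4 → ZMod 2) where
  toFun := fun c a => (![I a.1 c, J a.1 c, ia a.1 c, ja a.1 c] : Fin 4 → ZMod 2) a.2
  map_add' := by
    intro x y
    funext a
    obtain ⟨p, i⟩ := a
    fin_cases i <;> simp
  map_smul' := by
    intro r x
    funext a
    obtain ⟨p, i⟩ := a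
    fin_cases i <;> simp

variable (I J ia ja : P → H →ₗ[ZMod 2] ZMod 2) (u n : ι → H →ₗ[ZMod 2] ZMod 2) (ν : ι → ZMod 2)

lemma Wk_loc0 (c : H) (p : P) : Wk_loc I J ia ja c (p, 0) = I p c := rfl
lemma Wk_loc1 (c : H) (p : P) : Wk_loc I J ia ja c (p, 1) = J p c := rfl
lemma Wk_loc2 (c : H) (p : P) : Wk_loc I J ia ja c (p, 2) = ia p c := rfl
lemma Wk_loc3 (c : H) (p : P) : Wk_loc I J ia ja c (p, 3) = ja p c := rfl

lemma Wk_add_eq {a b : ZMod 2} (h : a + b = 0) : a = b := by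
  revert a b; decide

lemma Wk_term (a b : ZMod 2) : a * (b * a + b) = 0 := by
  revert a b; decide

lemma Wk_one {a : ZMod 2} (h : a ≠ 0) : a = 1 := by
  revert a; decide

variable (Tall : Finset ι)
  (hq : ∀ c : H, ∑ p, (I p c * J p c + ia p c * ja p c) + ∑ v ∈ Tall, n v c * (u v c + ν v) = 0)

include hq in
lemma Wk_q_eq (c : H) : Wk_q (Wk_loc I J ia ja c) = ∑ v ∈ Tall, n v c * (u v c + ν v) := by
  have h := Wk_add_eq (hq c)
  rw [← h]
  unfold Wk_q
  simp only [Wk_loc0, Wk_loc1, Wk_loc2, Wk_loc3]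

include hq in
lemma Wk_q_zero (S : Finset ι) (c : H) (hc : c ∈ Wk_X u n ν Tall S) :
    Wk_q (Wk_loc I J ia ja c) = 0 := by
  rw [Wk_q_eq I J ia ja u n ν Tall hq c]
  refine Finset.sum_eq_zero fun v hv => ?_
  by_cases hvS : v ∈ S
  · rw [hc.2 v hvS]; exact Wk_term _ _
  · rw [hc.1 v hv hvS, zero_mul]

include hq in
lemma Wk_iso (S : Finset ι) (c c' : H) (hc : c ∈ Wk_X u n ν Tall S)
    (hc' : c' ∈ Wk_X u n ν Tall S) :
    Wk_B (Wk_loc I J ia ja c) (Wk_loc I J ia ja c') = 0 := by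
  have h1 := Wk_q_zero I J ia ja u n ν Tall hq S _ (Submodule.add_mem _ hc hc')
  rw [map_add, Wk_polar, Wk_q_zero I J ia ja u n ν Tall hq S c hc,
    Wk_q_zero I J ia ja u n ν Tall hq S c' hc', zero_add, zero_add] at h1
  exact h1

include hq in
lemma Wk_step (S : Finset ι) (v : ι) (hv : v ∈ Tall) (hvS : v ∉ S) (c y : H)
    (hc : c ∈ Wk_X u n ν Tall (insert v S)) (hy : y ∈ Wk_X u n ν Tall S) :
    Wk_B (Wk_loc I J ia ja c) (Wk_loc I J ia ja y) = n v c * u v y := by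
  have h1 := Wk_q_eq I J ia ja u n ν Tall hq (c + y)
  rw [map_add, Wk_polar, Wk_q_zero I J ia ja u n ν Tall hq _ c hc,
    Wk_q_zero I J ia ja u n ν Tall hq _ y hy, zero_add, zero_add] at h1
  rw [h1, Finset.sum_eq_single v]
  · have e1 : n v y = 0 := hy.1 v hv hvS
    have e2 : u v c = ν v * n v c := hc.2 v (Finset.mem_insert_self v S)
    rw [map_add, map_add, e1, e2, add_zero]
    have e3 := Wk_term (n v c) (ν v)
    calc n v c * (ν v * n v c + u v y + ν v)
        = n v c * (ν v * n v c + ν v) + n v c * u v y := by ring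
      _ = n v c * u v y := by rw [e3, zero_add]
  · intro w hw hwv
    by_cases hwS : w ∈ S
    · have e1 := hc.2 w (Finset.mem_insert_of_mem hwS)
      have e2 := hy.2 w hwS
      rw [map_add, map_add, e1, e2, ← mul_add]
      exact Wk_term _ _
    · have e1 := hc.1 w hw (by
        intro h
        rcases Finset.mem_insert.1 h with h | h
        · exact hwv h
        · exact hwS h)
      have e2 := hy.1 w hw hwS
      rw [map_add, e1, e2, add_zero, zero_mul]
  · intro h; exact absurd hv h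

/-- `κ S` -/
def Wk_K (S : Finset ι) : Submodule (ZMod 2) H :=
  Wk_X u n ν Tall S ⊓ LinearMap.ker (Wk_loc I J ia ja)

/-- `W S` -/
def Wk_W (S : Finset ι) : Submodule (ZMod 2) (P × Fin 4 → ZMod 2) :=
  (Wk_X u n ν Tall S).map (Wk_loc I J ia ja)

lemma Wk_down (S : Finset ι) (v : ι) (hvS : v ∉ S) (c : H)
    (hc : c ∈ Wk_X u n ν Tall (insert v S)) (h0 : n v c = 0) :
    c ∈ Wk_X u n ν Tall S := by
  refine ⟨fun w hw hwS => ?_, fun w hw => hc.2 w (Finset.mem_insert_of_mem hw)⟩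
  by_cases hwv : w = v
  · rw [hwv]; exact h0
  · exact hc.1 w hw (by
        intro h
        rcases Finset.mem_insert.1 h with h | h
        · exact hwv h
        · exact hwS h)

lemma Wk_up (S : Finset ι) (v : ι) (hv : v ∈ Tall) (hvS : v ∉ S) (c : H)
    (hc : c ∈ Wk_X u n ν Tall S) (h0 : u v c = 0) :
    c ∈ Wk_X u n ν Tall (insert v S) := by
  refine ⟨fun w hw hwS => hc.1 w hw (fun h => hwS (Finset.mem_insert_of_mem h)), fun w hw => ?_⟩
  rcases Finset.mem_insert.1 hw with h | h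
  · rw [h, h0, hc.1 v hv hvS, mul_zero]
  · exact hc.2 w h

variable [Finite H]

include hq in
lemma Wk_W_lag (S : Finset ι) (hd : 2 * Fintype.card P ≤ Module.finrank (ZMod 2) (Wk_X u n ν Tall S))
    (hK : Wk_K I J ia ja u n ν Tall S = ⊥) :
    Module.finrank (ZMod 2) (Wk_X u n ν Tall S) = 2 * Fintype.card P ∧
    Module.finrank (ZMod 2) (Wk_W I J ia ja u n ν Tall S) = 2 * Fintype.card P ∧
      ∀ y, (∀ c ∈ Wk_X u n ν Tall S, Wk_B (Wk_loc I J ia ja c) y = 0) →
        y ∈ Wk_W I J ia ja u n ν Tall S := by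
  have hinj : ∀ c ∈ Wk_X u n ν Tall S, Wk_loc I J ia ja c = 0 → c = 0 := by
    intro c hc h
    have : c ∈ Wk_K I J ia ja u n ν Tall S := ⟨hc, h⟩
    rw [hK] at this
    exact (Submodule.mem_bot _).1 this
  have hfr : Module.finrank (ZMod 2) (Wk_W I J ia ja u n ν Tall S) =
      Module.finrank (ZMod 2) (Wk_X u n ν Tall S) := by
    have hi : Function.Injective ((Wk_loc I J ia ja).domRestrict (Wk_X u n ν Tall S)) := by
      rw [injective_iff_map_eq_zero]
      intro a ha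
      have := hinj a.1 a.2 ha
      exact Subtype.ext this
    have h2 := LinearMap.finrank_range_of_inj hi
    rw [← h2]
    unfold Wk_W
    rw [LinearMap.range_domRestrict]
  have h3 := Wk_lag (Wk_W I J ia ja u n ν Tall S) (by
    rintro x ⟨c, hc, rfl⟩ y ⟨c', hc', rfl⟩
    exact Wk_iso I J ia ja u n ν Tall hq S c c' hc hc') (by rw [hfr]; exact hd)
  refine ⟨by rw [← hfr]; exact h3.1, h3.1, ?_⟩
  intro y hy
  refine h3.2 y ?_
  rintro x ⟨c, hc, rfl⟩
  exact hy c hc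

include hq in
/-- first kind of step: the kernel shrinks -/
lemma Wk_stepA (S : Finset ι) (v : ι) (hv : v ∈ Tall) (hvS : v ∉ S)
    (c₁ : H) (hc₁ : c₁ ∈ Wk_K I J ia ja u n ν Tall S) (hu : u v c₁ ≠ 0) :
    Module.finrank (ZMod 2) (Wk_K I J ia ja u n ν Tall (insert v S)) + 1 ≤
      Module.finrank (ZMod 2) (Wk_K I J ia ja u n ν Tall S) := by
  refine Submodule.finrank_lt_finrank_of_lt ?_
  have key : ∀ c ∈ Wk_K I J ia ja u n ν Tall (insert v S),
      c ∈ Wk_K I J ia ja u n ν Tall S ∧ u v c = 0 := by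
    intro c hc
    have h1 := Wk_step I J ia ja u n ν Tall hq S v hv hvS c c₁ hc.1 hc₁.1
    have h2 : Wk_loc I J ia ja c = 0 := hc.2
    rw [h2, map_zero, LinearMap.zero_apply, Wk_one hu, mul_one] at h1
    refine ⟨⟨Wk_down u n ν Tall S v hvS c hc.1 h1.symm, hc.2⟩, ?_⟩
    rw [hc.1.2 v (Finset.mem_insert_self v S), ← h1, mul_zero]
  refine lt_of_le_of_ne (fun c hc => (key c hc).1) ?_
  intro h
  rw [← h] at hc₁
  exact hu (key c₁ hc₁).2

include hq in
/-- second kind of step -/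
lemma Wk_stepB (S : Finset ι) (v : ι) (hv : v ∈ Tall) (hvS : v ∉ S)
    (hd : 2 * Fintype.card P ≤ Module.finrank (ZMod 2) (Wk_X u n ν Tall S))
    (hd' : 2 * Fintype.card P ≤ Module.finrank (ZMod 2) (Wk_X u n ν Tall (insert v S)))
    (hK : Wk_K I J ia ja u n ν Tall S = ⊥)
    (y : P × Fin 4 → ZMod 2) (hyL : y ∈ Wk_L (P := P)) (hyW : y ∉ Wk_W I J ia ja u n ν Tall S)
    (hu : ∀ c ∈ Wk_X u n ν Tall S, u v c = Wk_B y (Wk_loc I J ia ja c)) :
    Wk_K I J ia ja u n ν Tall (insert v S) = ⊥ ∧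
    Module.finrank (ZMod 2) ↥(Wk_W I J ia ja u n ν Tall S ⊓ Wk_L (P := P)) + 1 ≤
      Module.finrank (ZMod 2) ↥(Wk_W I J ia ja u n ν Tall (insert v S) ⊓ Wk_L (P := P)) := by
  obtain ⟨hX, -, horth⟩ := Wk_W_lag I J ia ja u n ν Tall hq S hd hK
  -- a vector with `u v y' ≠ 0`
  obtain ⟨y', hy', huy'⟩ : ∃ y' ∈ Wk_X u n ν Tall S, u v y' ≠ 0 := by
    by_contra hcon
    push Not at hcon
    refine hyW (horth y fun c hc => ?_)
    rw [Wk_B_symm, ← hu c hc]
    exact hcon c hc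
  have hK' : Wk_K I J ia ja u n ν Tall (insert v S) = ⊥ := by
    rw [eq_bot_iff]
    intro c hc
    have h1 := Wk_step I J ia ja u n ν Tall hq S v hv hvS c y' hc.1 hy'
    have h2 : Wk_loc I J ia ja c = 0 := hc.2
    rw [h2, map_zero, LinearMap.zero_apply, Wk_one huy', mul_one] at h1
    have h3 : c ∈ Wk_K I J ia ja u n ν Tall S :=
      ⟨Wk_down u n ν Tall S v hvS c hc.1 h1.symm, hc.2⟩
    rw [hK] at h3
    exact h3
  refine ⟨hK', ?_⟩
  obtain ⟨hX', -, horth'⟩ := Wk_W_lag I J ia ja u n ν Tall hq (insert v S) hd' hK'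
  obtain ⟨c₀, hc₀, hc₀n⟩ : ∃ c₀ ∈ Wk_X u n ν Tall (insert v S), c₀ ∉ Wk_X u n ν Tall S := by
    by_contra hcon
    push Not at hcon
    have heq : Wk_X u n ν Tall (insert v S) = Wk_X u n ν Tall S :=
      Submodule.eq_of_le_of_finrank_le hcon (by omega)
    have h1 : y' ∈ Wk_X u n ν Tall (insert v S) := by rw [heq]; exact hy'
    have h2 := h1.2 v (Finset.mem_insert_self v S)
    rw [hy'.1 v hv hvS, mul_zero] at h2
    exact huy' h2
  have hn0 : n v c₀ = 1 := by
    refine Wk_one fun h => hc₀n ?_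
    exact Wk_down u n ν Tall S v hvS c₀ hc₀ h
  -- `loc c₀ - y ∈ W S`
  have h1 : Wk_loc I J ia ja c₀ + y ∈ Wk_W I J ia ja u n ν Tall S := by
    refine horth _ fun c hc => ?_
    have h2 := Wk_step I J ia ja u n ν Tall hq S v hv hvS c₀ c hc₀ hc
    rw [hn0, one_mul, hu c hc] at h2
    rw [map_add, Wk_B_symm, h2, Wk_B_symm _ y]
    exact Wk_two _
  obtain ⟨w', hw', hw'e⟩ := h1
  have h2 : Wk_loc I J ia ja c₀ = y + Wk_loc I J ia ja w' := by
    rw [hw'e, add_comm (Wk_loc I J ia ja c₀) y, ← add_assoc]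
    have : y + y = 0 := by funext a; exact Wk_two _
    rw [this, zero_add]
  have h3 : u v w' = 0 := by
    have e1 := Wk_q_zero I J ia ja u n ν Tall hq _ c₀ hc₀
    rw [h2, Wk_polar, Wk_L_q y hyL, Wk_q_zero I J ia ja u n ν Tall hq S w' hw', zero_add,
      zero_add] at e1
    rw [hu w' hw']; exact e1
  have hw'2 := Wk_up u n ν Tall S v hv hvS w' hw' h3
  have hyW' : y ∈ Wk_W I J ia ja u n ν Tall (insert v S) := by
    refine ⟨c₀ + w', Submodule.add_mem _ hc₀ hw'2, ?_⟩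
    rw [map_add, h2, add_assoc]
    have : Wk_loc I J ia ja w' + Wk_loc I J ia ja w' = 0 := by funext a; exact Wk_two _
    rw [this, add_zero]
  refine Submodule.finrank_lt_finrank_of_lt ?_
  refine lt_of_le_of_ne ?_ ?_
  · rintro z ⟨⟨c, hc, rfl⟩, hzL⟩
    refine ⟨⟨c, Wk_up u n ν Tall S v hv hvS c hc ?_, rfl⟩, hzL⟩
    rw [hu c hc]
    exact Wk_L_B y _ hyL hzL
  · intro h
    have : y ∈ Wk_W I J ia ja u n ν Tall (insert v S) ⊓ Wk_L (P := P) := ⟨hyW', hyL⟩
    rw [← h] at this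
    exact hyW this.1

end main

theorem walk {H : Type} [AddCommGroup H] [Module (ZMod 2) H] [Finite H] {P ι : Type} [Fintype P]
    (I J ia ja : P → H →ₗ[ZMod 2] ZMod 2) (u n : ι → H →ₗ[ZMod 2] ZMod 2) (ν : ι → ZMod 2) (k : ℕ)
    (T : ℕ → Finset ι) (hT : ∀ i < k, ∀ j < k, i ≠ j → Disjoint (T i) (T j))
    (hq : ∀ c : H, ∑ p, (I p c * J p c + ia p c * ja p c) +
      ∑ v ∈ (Finset.range k).biUnion T, n v c * (u v c + ν v) = 0)
    (hd : ∀ S ⊆ (Finset.range k).biUnion T, 2 ^ (2 * Fintype.card P) ≤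
      Nat.card {c : H // (∀ v ∈ (Finset.range k).biUnion T, v ∉ S → n v c = 0) ∧
        ∀ v ∈ S, u v c = ν v * n v c})
    (hr : ∀ l < k, ∀ φ : H →ₗ[ZMod 2] ZMod 2, ∃ v ∈ T l, ∀ c : H,
      (∀ v' ∈ (Finset.range k).biUnion T, v' ∉ (Finset.range l).biUnion T → n v' c = 0) →
      u v c = φ c)
    (hk : Nat.card {c : H // ∀ v ∈ (Finset.range k).biUnion T, n v c = 0} *
      2 ^ (2 * Fintype.card P) ≤ 2 ^ k) :
    ∃ S ⊆ (Finset.range k).biUnion T, ∀ c : H,
      (∀ v ∈ (Finset.range k).biUnion T, v ∉ S → n v c = 0) →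
      (∀ v ∈ S, u v c = ν v * n v c) →
      (∀ p, ia p c = J p c ∧ ja p c = I p c) ∧ ((∀ p, I p c = 0 ∧ J p c = 0) → c = 0) := by
  have hfin : ∀ S : Submodule (ZMod 2) H, Nat.card S = 2 ^ Module.finrank (ZMod 2) S := by
    intro S
    rw [Module.natCard_eq_pow_finrank (K := ZMod 2), Nat.card_zmod]
  have hd' : ∀ S ⊆ (Finset.range k).biUnion T, 2 * Fintype.card P ≤
      Module.finrank (ZMod 2) (Wk_X u n ν ((Finset.range k).biUnion T) S) := by
    intro S hS
    have h1 := hd S hS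
    have h2 := hfin (Wk_X u n ν ((Finset.range k).biUnion T) S)
    have h3 : Nat.card (Wk_X u n ν ((Finset.range k).biUnion T) S) =
      Nat.card {c : H // (∀ v ∈ (Finset.range k).biUnion T, v ∉ S → n v c = 0) ∧
        ∀ v ∈ S, u v c = ν v * n v c} := rfl
    rw [← h3, h2] at h1
    exact (Nat.pow_le_pow_iff_right (by norm_num)).1 h1
  have hk' : Module.finrank (ZMod 2) (Wk_K I J ia ja u n ν ((Finset.range k).biUnion T) ∅) +
      2 * Fintype.card P ≤ k := by
    have h1 : Nat.card (Wk_X u n ν ((Finset.range k).biUnion T) ∅) =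
        Nat.card {c : H // ∀ v ∈ (Finset.range k).biUnion T, n v c = 0} := by
      refine Nat.card_congr (Equiv.subtypeEquivRight fun c => ?_)
      rw [Wk_X_mem]
      simp
    rw [← h1, hfin, ← pow_add] at hk
    have h2 := (Nat.pow_le_pow_iff_right (by norm_num)).1 hk
    have h3 : Module.finrank (ZMod 2) (Wk_K I J ia ja u n ν ((Finset.range k).biUnion T) ∅) ≤
        Module.finrank (ZMod 2) (Wk_X u n ν ((Finset.range k).biUnion T) ∅) :=
      Submodule.finrank_mono inf_le_left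
    omega
  -- the induction
  have main : ∀ l ≤ k, ∃ S ⊆ (Finset.range l).biUnion T,
      (l + Module.finrank (ZMod 2) (Wk_K I J ia ja u n ν ((Finset.range k).biUnion T) S) ≤
        Module.finrank (ZMod 2) (Wk_K I J ia ja u n ν ((Finset.range k).biUnion T) ∅) ∧
        Wk_K I J ia ja u n ν ((Finset.range k).biUnion T) S ≠ ⊥) ∨
      (Wk_K I J ia ja u n ν ((Finset.range k).biUnion T) S = ⊥ ∧
        (Wk_W I J ia ja u n ν ((Finset.range k).biUnion T) S ≤ Wk_L (P := P) ∨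
        l ≤ Module.finrank (ZMod 2) (Wk_K I J ia ja u n ν ((Finset.range k).biUnion T) ∅) +
          Module.finrank (ZMod 2)
            ↥(Wk_W I J ia ja u n ν ((Finset.range k).biUnion T) S ⊓ Wk_L (P := P)))) := by
    intro l
    induction l with
    | zero =>
      intro _
      refine ⟨∅, Finset.empty_subset _, ?_⟩
      by_cases h : Wk_K I J ia ja u n ν ((Finset.range k).biUnion T) ∅ = ⊥
      · right; exact ⟨h, Or.inr (Nat.zero_le _)⟩
      · left; exact ⟨by omega, h⟩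
    | succ l ih =>
      intro hl
      have hlk : l < k := hl
      obtain ⟨S, hS, hS2⟩ := ih (by omega)
      have hsub : (Finset.range l).biUnion T ⊆ (Finset.range k).biUnion T :=
        Finset.biUnion_subset_biUnion_of_subset_left _ (Finset.range_subset_range.2 (by omega))
      have hsub' : (Finset.range l).biUnion T ⊆ (Finset.range (l + 1)).biUnion T :=
        Finset.biUnion_subset_biUnion_of_subset_left _ (Finset.range_subset_range.2 (by omega))
      have hTl : ∀ v ∈ T l, v ∈ (Finset.range k).biUnion T := fun v hv =>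
        Finset.mem_biUnion.2 ⟨l, Finset.mem_range.2 hlk, hv⟩
      have hTl' : ∀ v ∈ T l, v ∉ S := by
        intro v hv hvS
        obtain ⟨i, hi, hvi⟩ := Finset.mem_biUnion.1 (hS hvS)
        have hi' := Finset.mem_range.1 hi
        exact (Finset.disjoint_left.1 (hT i (by omega) l hlk (by omega))) hvi hv
      have hins : ∀ v ∈ T l, insert v S ⊆ (Finset.range (l + 1)).biUnion T := by
        intro v hv w hw
        rcases Finset.mem_insert.1 hw with h | h
        · rw [h]; exact Finset.mem_biUnion.2 ⟨l, Finset.mem_range.2 (by omega), hv⟩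
        · exact hsub' (hS h)
      have hins' : ∀ v ∈ T l, insert v S ⊆ (Finset.range k).biUnion T := by
        intro v hv w hw
        rcases Finset.mem_insert.1 hw with h | h
        · rw [h]; exact hTl v hv
        · exact hsub (hS h)
      have hXn : ∀ c ∈ Wk_X u n ν ((Finset.range k).biUnion T) S,
          ∀ v' ∈ (Finset.range k).biUnion T, v' ∉ (Finset.range l).biUnion T → n v' c = 0 := by
        intro c hc v' hv' hv'2
        exact hc.1 v' hv' (fun h => hv'2 (hS h))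
      rcases hS2 with ⟨h1, h2⟩ | ⟨h1, h2⟩
      · obtain ⟨c₁, hc₁, hc₁0⟩ := (Submodule.ne_bot_iff _).1 h2
        obtain ⟨φ, hφ⟩ : ∃ φ : H →ₗ[ZMod 2] ZMod 2, φ c₁ ≠ 0 := by
          by_contra hcon
          push Not at hcon
          exact hc₁0 ((Module.forall_dual_apply_eq_zero_iff (ZMod 2) c₁).1 hcon)
        obtain ⟨v, hv, hvφ⟩ := hr l hlk φ
        refine ⟨insert v S, hins v hv, ?_⟩
        have hstep := Wk_stepA I J ia ja u n ν _ hq S v (hTl v hv) (hTl' v hv) c₁ hc₁ (by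
          rw [hvφ c₁ (hXn c₁ hc₁.1)]; exact hφ)
        by_cases h3 : Wk_K I J ia ja u n ν ((Finset.range k).biUnion T) (insert v S) = ⊥
        · right
          refine ⟨h3, Or.inr ?_⟩
          omega
        · left
          exact ⟨by omega, h3⟩
      · rcases Classical.em (Wk_W I J ia ja u n ν ((Finset.range k).biUnion T) S ≤ Wk_L (P := P))
          with hW | hW
        · exact ⟨S, hS.trans hsub', Or.inr ⟨h1, Or.inl hW⟩⟩
        · have h2' : l ≤ Module.finrank (ZMod 2)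
              (Wk_K I J ia ja u n ν ((Finset.range k).biUnion T) ∅) +
            Module.finrank (ZMod 2)
              ↥(Wk_W I J ia ja u n ν ((Finset.range k).biUnion T) S ⊓ Wk_L (P := P)) := by
            rcases h2 with h | h
            · exact absurd h hW
            · exact h
          have hdS := hd' S (hS.trans hsub)
          obtain ⟨y, hyL, hyW⟩ : ∃ y ∈ Wk_L (P := P),
              y ∉ Wk_W I J ia ja u n ν ((Finset.range k).biUnion T) S := by
            by_contra hcon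
            push Not at hcon
            refine hW (le_of_eq (Submodule.eq_of_le_of_finrank_le hcon ?_).symm)
            rw [(Wk_W_lag I J ia ja u n ν _ hq S hdS h1).2.1]
            exact Wk_L_finrank
          obtain ⟨v, hv, hvφ⟩ := hr l hlk ((Wk_B y).comp (Wk_loc I J ia ja))
          have hstep := Wk_stepB I J ia ja u n ν _ hq S v (hTl v hv) (hTl' v hv) hdS
            (hd' _ (hins' v hv)) h1 y hyL hyW (by
              intro c hc
              rw [hvφ c (hXn c hc)]; rfl)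
          exact ⟨insert v S, hins v hv, Or.inr ⟨hstep.1, Or.inr (by omega)⟩⟩
  obtain ⟨S, hS, hS2⟩ := main k le_rfl
  have hfinal : Wk_K I J ia ja u n ν ((Finset.range k).biUnion T) S = ⊥ ∧
      Wk_W I J ia ja u n ν ((Finset.range k).biUnion T) S ≤ Wk_L (P := P) := by
    rcases hS2 with ⟨h1, h2⟩ | ⟨h1, h2⟩
    · exfalso
      have h3 : Module.finrank (ZMod 2)
          (Wk_K I J ia ja u n ν ((Finset.range k).biUnion T) S) ≠ 0 := by
        intro h
        exact h2 (Submodule.finrank_eq_zero.1 h)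
      omega
    · refine ⟨h1, ?_⟩
      rcases h2 with h2 | h2
      · exact h2
      · have h3 := (Wk_W_lag I J ia ja u n ν _ hq S (hd' S hS) h1).2.1
        have h4 : Wk_W I J ia ja u n ν ((Finset.range k).biUnion T) S ⊓ Wk_L (P := P) =
            Wk_W I J ia ja u n ν ((Finset.range k).biUnion T) S :=
          Submodule.eq_of_le_of_finrank_le inf_le_left (by omega)
        exact inf_eq_left.1 h4
  refine ⟨S, hS, fun c hc1 hc2 => ?_⟩
  have hcX : c ∈ Wk_X u n ν ((Finset.range k).biUnion T) S := ⟨hc1, hc2⟩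
  have hcL : Wk_loc I J ia ja c ∈ Wk_L (P := P) := hfinal.2 ⟨c, hcX, rfl⟩
  refine ⟨fun p => ?_, fun h => ?_⟩
  · have := hcL p
    rw [Wk_loc0, Wk_loc1, Wk_loc2, Wk_loc3] at this
    exact this
  · have h0 : Wk_loc I J ia ja c = 0 := by
      funext a
      obtain ⟨p, i⟩ := a
      have h3 := hcL p
      rw [Wk_loc0, Wk_loc1, Wk_loc2, Wk_loc3, (h p).1, (h p).2] at h3
      fin_cases i
      · exact (h p).1
      · exact (h p).2
      · exact h3.1
      · exact h3.2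
    have h1 : c ∈ Wk_K I J ia ja u n ν ((Finset.range k).biUnion T) S := ⟨hcX, h0⟩
    rw [hfinal.1] at h1
    exact (Submodule.mem_bot _).1 h1

end H76MQ

end S_H76_MQ_Wk

section S_H76_MQ_Lx

set_option autoImplicit false
set_option linter.unusedSectionVars false
open scoped Classical

open WithZero NumberField IsDedekindDomain H38RT
open H38T1 (SC sc scu rep eo la si Pri OddP tp unif ka)
open H76PP

namespace H76MQ

variable {K L : Type} [Field K] [NumberField K] [Field L] [NumberField L] [Algebra K L]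

private theorem Lx_le {x : WithZero (Multiplicative ℤ)} {m : ℤ} (h : x < exp (-m)) :
    x ≤ exp (-(m + 1)) := by
  rcases eq_or_ne x 0 with rfl | h0
  · exact zero_le
  rw [← exp_log h0, exp_lt_exp] at h
  rw [← exp_log h0, exp_le_exp]
  omega

private theorem Lx_not (v : HeightOneSpectrum (𝓞 K)) {x : 𝓞 K} {m n : ℕ} (h : x ∉ v.asIdeal ^ m)
    (hmn : m ≤ n) : x ∉ v.asIdeal ^ n := fun h1 => h (Ideal.pow_le_pow_right hmn h1)

private theorem Lx_mul (v : HeightOneSpectrum (𝓞 K)) {x y : 𝓞 K} {n : ℕ} (hx : x ∉ v.asIdeal)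
    (h : x * y ∈ v.asIdeal ^ n) : y ∈ v.asIdeal ^ n := by
  rw [← v.intValuation_le_pow_iff_mem] at h ⊢
  rw [map_mul, v.intValuation_eq_one_iff.2 hx, one_mul] at h
  exact h

private theorem Lx_two (v : HeightOneSpectrum (𝓞 K)) (h2 : (2 : 𝓞 K) ∈ v.asIdeal)
    (h22 : (2 : 𝓞 K) ∉ v.asIdeal ^ 2) : (256 * 91 : 𝓞 K) ∉ v.asIdeal ^ 10 := by
  intro h
  have h91 : (91 : 𝓞 K) ∉ v.asIdeal := by
    intro h1
    apply v.isPrime.ne_top
    rw [Ideal.eq_top_iff_one]
    have e1 : (1 : 𝓞 K) = 91 - 45 * 2 := by norm_num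
    rw [e1]
    exact Ideal.sub_mem _ h1 (Ideal.mul_mem_left _ _ h2)
  have h3 : (2 : 𝓞 K) ^ 8 ∈ v.asIdeal ^ 10 := by
    apply Lx_mul v h91
    have e1 : (91 * 2 ^ 8 : 𝓞 K) = 256 * 91 := by norm_num
    rw [e1]
    exact h
  rw [← v.intValuation_le_pow_iff_mem] at h3 h22
  have h4 : exp (-(1 : ℤ)) ≤ v.intValuation (2 : 𝓞 K) := by
    rw [← not_lt]
    intro h5
    apply h22
    have h6 := Lx_le h5
    norm_num at h6
    exact_mod_cast h6
  rw [map_pow] at h3
  have h5 := (pow_le_pow_left₀ zero_le h4 8).trans h3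
  rw [← exp_nsmul, exp_le_exp] at h5
  norm_num at h5

theorem six_notMem {C : Cfg K} (hC : C.Ok) {v : HeightOneSpectrum (𝓞 K)} (hv : v ∉ C.S) :
    (6 : 𝓞 K) ∉ v.asIdeal := by
  intro h6
  apply hv
  have e1 : (6 : 𝓞 K) = 2 * 3 := by norm_num
  rw [e1] at h6
  rcases v.isPrime.mem_or_mem h6 with h | h
  · exact Finset.mem_union_left _ ((hC.mem2 v).2 h)
  · exact Finset.mem_union_right _ (Finset.mem_union_right _ (hC.R3 v h))

/-- No root modulo an odd prime implies that the discriminant is a unit. -/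
theorem fam_R {v : HeightOneSpectrum (𝓞 K)} (h2 : (2 : 𝓞 K) ∉ v.asIdeal) {A B : 𝓞 K}
    (hr : ∀ t : 𝓞 K, t ^ 3 + A * t + B ∉ v.asIdeal) : dsc A B ∉ v.asIdeal := by
  intro hd
  have hm := v.isMaximal
  have hfin : Finite (𝓞 K ⧸ v.asIdeal) := Ideal.finiteQuotientOfFreeOfNeBot v.asIdeal v.ne_bot
  let _ := Ideal.Quotient.field v.asIdeal
  obtain ⟨a, ha⟩ : ∃ a, a = Ideal.Quotient.mk v.asIdeal A := ⟨_, rfl⟩
  obtain ⟨b, hb⟩ : ∃ b, b = Ideal.Quotient.mk v.asIdeal B := ⟨_, rfl⟩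
  have hd' : 4 * a ^ 3 + 27 * b ^ 2 = 0 := by
    have h1 := Ideal.Quotient.eq_zero_iff_mem.2 hd
    unfold dsc at h1
    rw [map_add, map_mul, map_mul, map_pow, map_pow, map_ofNat, map_ofNat, ← ha, ← hb] at h1
    exact h1
  have h2' : (2 : 𝓞 K ⧸ v.asIdeal) ≠ 0 := by
    intro h1
    apply h2
    rw [← Ideal.Quotient.eq_zero_iff_mem, map_ofNat]
    exact h1
  have hex : ∃ t : 𝓞 K ⧸ v.asIdeal, t ^ 3 + a * t + b = 0 := by
    by_cases h3 : (3 : 𝓞 K ⧸ v.asIdeal) = 0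
    · have ha0 : a = 0 := by
        have e1 : (27 : 𝓞 K ⧸ v.asIdeal) = 9 * 3 := by norm_num
        have e2 : (4 : 𝓞 K ⧸ v.asIdeal) = 2 * 2 := by norm_num
        rw [e1, h3, mul_zero, zero_mul, add_zero, e2] at hd'
        have h4 := (mul_eq_zero.1 hd').resolve_left (mul_ne_zero h2' h2')
        exact (pow_eq_zero_iff three_ne_zero).1 h4
      have hinj : Function.Injective (fun x : 𝓞 K ⧸ v.asIdeal => x ^ 3) := by
        intro x y hxy
        have hxy' : x ^ 3 = y ^ 3 := hxy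
        have h4 : (x - y) ^ 3 = 0 := by
          have e1 : (x - y) ^ 3 = x ^ 3 - y ^ 3 - 3 * (x ^ 2 * y - x * y ^ 2) := by ring
          rw [e1, h3, zero_mul, hxy', sub_self, sub_zero]
        exact sub_eq_zero.1 ((pow_eq_zero_iff three_ne_zero).1 h4)
      obtain ⟨t, ht⟩ := (Finite.injective_iff_surjective.1 hinj) (-b)
      have ht' : t ^ 3 = -b := ht
      exact ⟨t, by rw [ha0, zero_mul, add_zero, ht', neg_add_cancel]⟩
    · by_cases ha0 : a = 0
      · rw [ha0, zero_pow three_ne_zero, mul_zero, zero_add] at hd'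
        have e1 : (27 : 𝓞 K ⧸ v.asIdeal) = 3 ^ 3 := by norm_num
        rw [e1] at hd'
        have h4 := (mul_eq_zero.1 hd').resolve_left (pow_ne_zero 3 h3)
        have hb0 := (pow_eq_zero_iff two_ne_zero).1 h4
        exact ⟨0, by rw [hb0, ha0]; ring⟩
      · refine ⟨-3 * b / (2 * a), ?_⟩
        have e1 : (-3 * b / (2 * a)) ^ 3 + a * (-3 * b / (2 * a)) + b =
            -(b * (4 * a ^ 3 + 27 * b ^ 2)) / (8 * a ^ 3) := by
          have h8 : (8 : 𝓞 K ⧸ v.asIdeal) = 2 * 2 * 2 := by norm_num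
          rw [h8]
          field_simp
          ring
        rw [e1, hd', mul_zero, neg_zero, zero_div]
  obtain ⟨t, ht⟩ := hex
  obtain ⟨s, rfl⟩ := Ideal.Quotient.mk_surjective t
  apply hr s
  rw [← Ideal.Quotient.eq_zero_iff_mem, map_add, map_add, map_pow, map_mul, ← ha, ← hb]
  exact ht

theorem exists_LData {C : Cfg K} (hC : C.Ok) {q₀ : HeightOneSpectrum (𝓞 K)}
    {T : Finset (HeightOneSpectrum (𝓞 K))} (hT : ∀ v ∈ T, v ∉ C.S ∧ v ≠ q₀)
    {A B : 𝓞 K} (hF : FamQ C q₀ T A B) {θ : L} (h : Cub K L (A : K) (B : K) θ) :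
    Nonempty (LData C T A B θ) := by
  obtain ⟨w₀, -⟩ := exists_above (L := L) q₀
  have hne : Nonempty (HeightOneSpectrum (𝓞 L)) := ⟨w₀⟩
  have h1 : ∀ v ∈ C.P, ∃ (w : HeightOneSpectrum (𝓞 L)) (I J : SC L →+ ZMod 2),
      Rm K (A : K) (B : K) θ v w ∧ IJ K θ w I J := by
    intro v hv
    obtain ⟨w, hw⟩ := exists_Rm h ((hC.mem2 v).1 hv) (hC.sq2 v hv) (hC.nv v hv) (hF.two v hv).1
      (hF.two v hv).2
    obtain ⟨I, J, hIJ⟩ := exists_IJ h hw
    exact ⟨w, I, J, hw, hIJ⟩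
  have h2 : ∀ v ∈ C.P, ∃ (a₁ a₂ : HeightOneSpectrum (𝓞 L)) (r : K),
      TwA K θ (C.a v) a₁ a₂ r := fun v hv => exists_TwA h (hC.a6 v hv) (hF.aux v hv)
  have h3 : ∀ v ∈ T, ∃ t₁ t₂ : HeightOneSpectrum (𝓞 L), TwT K (A : K) θ v t₁ t₂ := fun v hv =>
    exists_TwT h (hF.sqf v (hT v hv).1) (six_notMem hC (hT v hv).1) (hF.typ v hv)
  choose! w I J hw using h1
  choose! a₁ a₂ r hA using h2
  choose! t₁ t₂ hTT using h3
  exact ⟨⟨w, I, J, a₁, a₂, r, t₁, t₂, fun v hv => (hw v hv).1, fun v hv => (hw v hv).2, hA, hTT⟩⟩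

theorem fam_S {C : Cfg K} (hC : C.Ok) {q₀ : HeightOneSpectrum (𝓞 K)}
    {T S' T' : Finset (HeightOneSpectrum (𝓞 K))} (hT : ∀ v ∈ T, v ∉ C.S ∧ v ≠ q₀)
    {A B : 𝓞 K} (hF : FamQ C q₀ T A B) (h1 : C.S ⊆ S') (h2 : S' ⊆ C.S ∪ T) (h3 : T' ⊆ T) :
    H36MT.FamS S' 10 q₀ T' A B := by
  refine ⟨hF.irr, fun v hv => hF.typ v (h3 hv), fun v hv => hF.sqf v fun h => hv (h1 h), ?_⟩
  intro v hv
  rcases Finset.mem_union.1 (h2 hv) with hv | hv
  · rcases Finset.mem_union.1 hv with hv | hv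
    · -- above two
      intro hcon
      obtain ⟨hA, hB⟩ := hF.two v hv
      apply Lx_two v ((hC.mem2 v).1 hv) (hC.sq2 v hv)
      have e1 : (256 * 91 : 𝓞 K) = dsc A B - ((A - 16) * (4 * (A ^ 2 + 16 * A + 256)) +
          (B - 16) * (27 * (B + 16))) := by
        unfold dsc
        ring
      rw [e1]
      exact Ideal.sub_mem _ hcon (Ideal.add_mem _ (Ideal.mul_mem_right _ _ hA)
        (Ideal.mul_mem_right _ _ hB))
    rcases Finset.mem_union.1 hv with hv | hv
    · -- auxiliary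
      obtain ⟨u, hu, rfl⟩ := Finset.mem_image.1 hv
      obtain ⟨r, hr1, hr2, hr3⟩ := hF.aux u hu
      have h6 := hC.a6 u hu
      apply Lx_not (C.a u) (m := 3) ?_ (by norm_num)
      intro hcon
      have hr0 := hr3 0
      rw [zero_pow two_ne_zero, add_zero] at hr0
      have hr : r ∉ (C.a u).asIdeal := by
        intro h
        apply hr0
        have e1 : 3 * r * (r ^ 3 + A * r + B) = 3 * (r * (r ^ 3 + A * r + B)) := by ring
        rw [e1, pow_succ' (C.a u).asIdeal 2]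
        exact Ideal.mul_mem_left _ _ (Ideal.mul_mem_mul h hr2)
      apply hr0
      have h36 : (36 * r ^ 2 : 𝓞 K) ∉ (C.a u).asIdeal := by
        intro h
        have e1 : (36 * r ^ 2 : 𝓞 K) = 6 * 6 * (r * r) := by ring
        rw [e1] at h
        rcases (C.a u).isPrime.mem_or_mem h with h | h
        · rcases (C.a u).isPrime.mem_or_mem h with h | h
          · exact h6 h
          · exact h6 h
        · rcases (C.a u).isPrime.mem_or_mem h with h | h
          · exact hr h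
          · exact hr h
      apply Lx_mul (C.a u) h36
      obtain ⟨x, hx⟩ : ∃ x, x = 3 * r ^ 2 + A := ⟨_, rfl⟩
      obtain ⟨y, hy⟩ : ∃ y, y = r ^ 3 + A * r + B := ⟨_, rfl⟩
      rw [← hx] at hr1
      rw [← hy] at hr2 ⊢
      have hAx : A = x - 3 * r ^ 2 := by rw [hx]; ring
      have hBy : B = y + 2 * r ^ 3 - r * x := by rw [hy, hx]; ring
      have e1 : 36 * r ^ 2 * (3 * r * y) = dsc A B - (x * x * (4 * x - 9 * r ^ 2) +
          (27 * (y * y) - 54 * r * (x * y))) := by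
        unfold dsc
        rw [hAx, hBy]
        ring
      have h4 : (C.a u).asIdeal ^ 2 * (C.a u).asIdeal ^ 2 ≤ (C.a u).asIdeal ^ 3 := by
        rw [← pow_add]
        exact Ideal.pow_le_pow_right (by norm_num)
      rw [e1]
      refine Ideal.sub_mem _ hcon (Ideal.add_mem _ (Ideal.mul_mem_right _ _ (h4
        (Ideal.mul_mem_mul hr1 hr1))) (Ideal.sub_mem _ (Ideal.mul_mem_left _ _ (h4
        (Ideal.mul_mem_mul hr2 hr2))) (Ideal.mul_mem_left _ _ (h4 (Ideal.mul_mem_mul hr1 hr2)))))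
    · -- further places
      apply Lx_not v (m := 1) ?_ (by norm_num)
      rw [pow_one]
      exact fam_R (hC.R2 v hv) (hF.res v hv)
  · exact Lx_not v (hF.sqf v (hT v hv).1) (by norm_num)

end H76MQ

end S_H76_MQ_Lx

section S_H76_MQ_Re

set_option autoImplicit false
set_option linter.unusedSectionVars false
open scoped Classical

open WithZero NumberField IsDedekindDomain H38RT
open H38T1 (SC sc scu rep eo la si Pri OddP tp unif ka)
open H76PP

namespace H76MQ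

variable {K L : Type} [Field K] [NumberField K] [Field L] [NumberField L] [Algebra K L]

theorem Re_two (K : Type) [Field K] [NumberField K] :
    ∃ v : HeightOneSpectrum (𝓞 K), (2 : 𝓞 K) ∈ v.asIdeal := by
  have h2 : ¬ IsUnit (2 : 𝓞 K) := by
    rintro ⟨u, hu⟩
    have h1 : (2 : 𝓞 K) * ((u⁻¹ : (𝓞 K)ˣ) : 𝓞 K) = 1 := by
      rw [← hu]
      exact u.mul_inv
    have h3 : (2 : K) * (((u⁻¹ : (𝓞 K)ˣ) : 𝓞 K) : K) = 1 := by
      have h4 := congrArg (algebraMap (𝓞 K) K) h1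
      rw [map_mul, map_one, map_ofNat] at h4
      exact h4
    have h5 : (((u⁻¹ : (𝓞 K)ˣ) : 𝓞 K) : K) = algebraMap ℚ K (1 / 2) := by
      rw [map_div₀, map_one, map_ofNat, eq_div_iff (two_ne_zero), mul_comm]
      exact h3
    have h6 : IsIntegral ℤ (algebraMap ℚ K (1 / 2)) := by
      rw [← h5]
      exact ((u⁻¹ : (𝓞 K)ˣ) : 𝓞 K).isIntegral_coe
    have h7 : IsIntegral ℤ (1 / 2 : ℚ) :=
      (isIntegral_algebraMap_iff (algebraMap ℚ K).injective).1 h6
    obtain ⟨n, hn⟩ := IsIntegrallyClosed.isIntegral_iff.1 h7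
    have h8 : (2 * n : ℚ) = 1 := by
      have h9 : (n : ℚ) = 1 / 2 := by
        rw [← hn]
        rfl
      rw [h9]
      norm_num
    have h10 : (2 * n : ℤ) = 1 := by exact_mod_cast h8
    omega
  obtain ⟨M, hM, hle⟩ := Ideal.exists_le_maximal (Ideal.span {(2 : 𝓞 K)})
    (fun h => h2 (Ideal.span_singleton_eq_top.1 h))
  have hm : (2 : 𝓞 K) ∈ M := hle (Ideal.mem_span_singleton_self _)
  refine ⟨⟨M, hM.isPrime, ?_⟩, hm⟩
  rintro rfl
  exact two_ne_zero (Ideal.mem_bot.1 hm)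

theorem Re_odd {v : HeightOneSpectrum (𝓞 K)} (h2 : (2 : 𝓞 K) ∉ v.asIdeal) : OddP v := by
  have h3 := (v.valuation_eq_one_iff_notMem (K := K) (r := (2 : 𝓞 K))).2 h2
  unfold H38T1.OddP
  rw [← h3]
  congr 1

theorem Re_nodd {v : HeightOneSpectrum (𝓞 K)} (h : (2 : 𝓞 K) ∈ v.asIdeal) : ¬ OddP v := by
  intro h1
  unfold H38T1.OddP at h1
  have h3 := (v.valuation_lt_one_iff_mem (K := K) (2 : 𝓞 K)).2 h
  have h4 : algebraMap (𝓞 K) K 2 = 2 := map_ofNat _ 2
  change v.valuation K (algebraMap (𝓞 K) K 2) < 1 at h3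
  rw [h4, h1] at h3
  exact lt_irrefl _ h3

theorem Re_three {v : HeightOneSpectrum (𝓞 K)} (h6 : (6 : 𝓞 K) ∉ v.asIdeal) :
    v.valuation K 3 = 1 := by
  have h2 : (3 : 𝓞 K) ∉ v.asIdeal := by
    intro h
    apply h6
    have : (6 : 𝓞 K) = 2 * 3 := by norm_num
    rw [this]
    exact v.asIdeal.mul_mem_left _ h
  have h3 := (v.valuation_eq_one_iff_notMem (K := K) (r := (3 : 𝓞 K))).2 h2
  rw [← h3]
  congr 1

theorem Re_two6 {v : HeightOneSpectrum (𝓞 K)} (h6 : (6 : 𝓞 K) ∉ v.asIdeal) :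
    (2 : 𝓞 K) ∉ v.asIdeal := by
  intro h
  apply h6
  have : (6 : 𝓞 K) = 3 * 2 := by norm_num
  rw [this]
  exact v.asIdeal.mul_mem_left _ h

theorem Re_eo {v : HeightOneSpectrum (𝓞 K)} {x : K} (hx : x ≠ 0) (h : v.valuation K x = 1) :
    eo v (sc x) = 0 := by
  rw [H38T1.eo_sc hx]
  unfold ord
  rw [h, log_one, neg_zero, Int.cast_zero]

theorem Re_sq {v : HeightOneSpectrum (𝓞 K)} {x : 𝓞 K} (h : x ∉ v.asIdeal) :
    x ∉ v.asIdeal ^ 2 := fun h1 => h (Ideal.pow_le_self two_ne_zero h1)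

theorem conic_rec {C : Cfg K} (hC : C.Ok) {q₀ : HeightOneSpectrum (𝓞 K)}
    {T : Finset (HeightOneSpectrum (𝓞 K))} (hT : ∀ v ∈ T, v ∉ C.S ∧ v ≠ q₀)
    {A B : 𝓞 K} (hF : FamQ C q₀ T A B) {θ : L} (h : Cub K L (A : K) (B : K) θ)
    (hR : HR2 K L A B θ) (D : LData C T A B θ) {c : SC L}
    (hc : c ∈ (HH K (C.S ∪ T) : AddSubgroup (SC L))) :
    ∑ v ∈ C.P, (D.I v c * D.J v c + la (D.a₁ v) c * (eo (D.a₂ v) c + 1)) +
      ∑ v ∈ T, eo (D.t₂ v) c * (la (D.t₁ v) c + D.nu v) = 0 := by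
  obtain ⟨y, hy, hyc⟩ := H38T1.sc_surj c
  obtain ⟨hcN, hcE⟩ := mem_HH.1 hc
  have hN : IsSquare (Algebra.norm K y) := by
    have h1 := scm_sc (Algebra.norm K : L →* K) hy
    rw [hyc, hcN] at h1
    exact (H38T1.sc_eq_zero (scm_ne (Algebra.norm K : L →* K) hy)).1 h1.symm
  have hP : C.P.Nonempty := by
    obtain ⟨v, hv⟩ := Re_two K
    exact ⟨v, (hC.mem2 v).2 hv⟩
  obtain ⟨Y, hY, ha, hb, hPP⟩ := exists_Y h C.P hP D.w D.hw hy (fun v => D.I v c)
    (fun v => D.J v c) (fun v hv => by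
      have h1 := (D.hIJ v hv).nr y hy hN
      rw [hyc] at h1
      exact h1)
  obtain ⟨y', hy'⟩ : ∃ y', y' = y * Y ^ 2 := ⟨_, rfl⟩
  have hy0 : y' ≠ 0 := by
    rw [hy']
    exact mul_ne_zero hy (pow_ne_zero 2 hY)
  have hsc : sc y' = c := by
    rw [hy', H38T1.sc_mul hy (pow_ne_zero 2 hY), H54MT.sc_sq hY, add_zero, hyc]
  have hN' : IsSquare (Algebra.norm K y') := by
    obtain ⟨r, hr⟩ := hN
    refine ⟨r * Algebra.norm K Y, ?_⟩
    rw [hy', map_mul, map_pow, hr]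
    ring
  rw [← hy'] at ha hb hPP
  -- oddness
  have hodd : ∀ v : HeightOneSpectrum (𝓞 K), v ∉ C.P → OddP v := fun v hv =>
    Re_odd (fun h2 => hv ((hC.mem2 v).2 h2))
  have hnod : ∀ v ∈ C.P, ¬ OddP v := fun v hv => Re_nodd ((hC.mem2 v).1 hv)
  have haP : ∀ v ∈ C.P, C.a v ∉ C.P := fun v hv h1 =>
    Re_two6 (hC.a6 v hv) ((hC.mem2 _).1 h1)
  have hTP : ∀ v ∈ T, v ∉ C.P ∧ v ∉ C.P.image C.a ∧ v ∉ C.R := by
    intro v hv
    have h1 := (hT v hv).1
    unfold Cfg.S at h1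
    rw [Finset.mem_union, Finset.mem_union, not_or, not_or] at h1
    exact h1
  obtain ⟨T0, hT0⟩ : ∃ T0, T0 = (C.P ∪ (C.P.image C.a ∪ T)) ∪
      ((fin_bad ha).toFinset ∪ (fin_bad hb).toFinset) := ⟨_, rfl⟩
  have hout : ∀ v, v ∉ T0 → v ∉ C.P ∧ v.valuation K (al h y') = 1 ∧
      v.valuation K (be h y') = 1 := by
    intro v hv
    simp only [hT0, Finset.mem_union, not_or] at hv
    refine ⟨hv.1.1, ?_, ?_⟩
    · by_contra h1
      exact hv.2.1 ((Set.Finite.mem_toFinset _).2 h1)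
    · by_contra h1
      exact hv.2.2 ((Set.Finite.mem_toFinset _).2 h1)
  have hrec := H88T7.recip_sc7 (c := sc (be h y')) (c' := sc (al h y')) T0
    (fun v hv => by
      by_contra h1
      exact hv (hodd v (hout v h1).1))
    (fun v hv => Re_eo hb (hout v hv).2.2) (fun v hv => Re_eo ha (hout v hv).2.1)
    (fun v hv => by
      have h1 : v ∈ C.P := by
        by_contra h1
        exact hv (hodd v h1)
      exact (hPP v h1).1)
  have hreal : ∑ w : K →+* ℝ, si w (sc (be h y')) * si w (sc (al h y')) = 0 := by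
    refine Finset.sum_eq_zero fun s _ => ?_
    have h1 := conic_real h (hF.pos s) hy0 hN'
    rw [H38T1.si_sc s hb, H38T1.si_sc s ha]
    unfold sw
    by_cases h2 : s (be h y') < 0
    · have h3 : ¬ s (al h y') < 0 := fun h3 => h1 ⟨h3, h2⟩
      rw [if_neg h3, mul_zero]
    · rw [if_neg h2, zero_mul]
  rw [hreal, add_zero] at hrec
  obtain ⟨g, hg⟩ : ∃ g : HeightOneSpectrum (𝓞 K) → ZMod 2, g = fun v =>
    if OddP v then tp v (sc (be h y')) (sc (al h y')) else eo v (sc (be h y')) *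
      ka v (sc (al h y')) := ⟨_, rfl⟩
  have hrec2 : ∑ v ∈ T0, g v = 0 := by
    rw [hg]
    exact hrec
  have hgodd : ∀ v, OddP v → g v = tp v (sc (al h y')) (sc (be h y')) := by
    intro v hv
    rw [hg]
    change (if OddP v then _ else _) = _
    rw [if_pos hv, H38T1.tp_comm]
  have hzero : ∀ v ∈ T0, v ∉ C.P ∪ (C.P.image C.a ∪ T) → g v = 0 := by
    intro v _ hv
    rw [Finset.mem_union, Finset.mem_union, not_or, not_or] at hv
    obtain ⟨v1, v2, v3⟩ := hv
    have hvo := hodd v v1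
    rw [hgodd v hvo]
    by_cases hvR : v ∈ C.R
    · refine conic_CL h hR hvo (Re_sq (fam_R (hC.R2 v hvR) (hF.res v hvR))) hy0 hN' ha hb ?_
      intro w hw
      have h1 : H73P2.NoRootAt (dn K w) (A : K) (B : K) := by
        rw [hw]
        exact H73P2.noRootAt_of (hF.res v hvR)
      exact H73P2.even_unique h w h1 hy0 hN'
    · have hvS : v ∉ C.S := by
        unfold Cfg.S
        rw [Finset.mem_union, Finset.mem_union, not_or, not_or]
        exact ⟨v1, v2, hvR⟩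
      refine conic_CL h hR hvo (hF.sqf v hvS) hy0 hN' ha hb ?_
      intro w hw
      rw [hsc]
      refine hcE w ?_
      rw [hw, Finset.mem_union, not_or]
      exact ⟨hvS, v3⟩
  have hsub : C.P ∪ (C.P.image C.a ∪ T) ⊆ T0 := by
    rw [hT0]
    exact Finset.subset_union_left
  rw [← Finset.sum_subset hsub hzero] at hrec2
  have hd1 : Disjoint C.P (C.P.image C.a ∪ T) := by
    rw [Finset.disjoint_left]
    intro v hv h1
    rcases Finset.mem_union.1 h1 with h1 | h1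
    · obtain ⟨v', hv', rfl⟩ := Finset.mem_image.1 h1
      exact haP v' hv' hv
    · exact (hTP v h1).1 hv
  have hd2 : Disjoint (C.P.image C.a) T := by
    rw [Finset.disjoint_left]
    intro v hv h1
    exact (hTP v h1).2.1 hv
  rw [Finset.sum_union hd1, Finset.sum_union hd2, Finset.sum_image (fun v hv v' hv' h1 =>
    hC.inj v hv v' hv' h1), ← add_assoc, ← Finset.sum_add_distrib] at hrec2
  rw [← hrec2]
  congr 1
  · refine Finset.sum_congr rfl fun v hv => ?_
    have h1 : g v = D.I v c * D.J v c := by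
      rw [hg]
      change (if OddP v then _ else _) = _
      rw [if_neg (hnod v hv)]
      exact (hPP v hv).2
    have hvo := hodd _ (haP v hv)
    have h2 : g (C.a v) = la (D.a₁ v) c * (eo (D.a₂ v) c + 1) := by
      rw [hgodd _ hvo, conic_CA h hR hvo (Re_three (hC.a6 v hv)) (D.hA v hv) hy0 hN' ha hb, hsc]
    rw [h1, h2]
  · refine Finset.sum_congr rfl fun v hv => ?_
    have hvo := hodd v (hTP v hv).1
    have hTT := D.hT v hv
    have hz : ∀ x : ZMod 2, x = 0 ∨ x = 1 := by decide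
    rw [hgodd v hvo]
    rcases hz (eo (D.t₂ v) c) with h0 | h0
    · rw [h0, zero_mul]
      symm
      refine conic_CL h hR hvo (hF.sqf v (hT v hv).1) hy0 hN' ha hb ?_
      intro w hw
      rcases hTT.only w hw with hww | hww
      · rw [hww]
        exact gg_eo1 hR hvo hTT.toTwG h.finrank hy0 hN'
      · rw [hww, hsc]
        exact h0
    · rw [h0, one_mul]
      have h1 := conic_CT h hR hvo hTT hy0 hN' ha hb (by rw [hsc]; exact h0)
      rw [h1, hsc]
      rfl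

end H76MQ

end S_H76_MQ_Re

section S_H24_TD_Fi

set_option autoImplicit false
open scoped Classical

open WithZero NumberField IsDedekindDomain H38RT H38T1

namespace H24TD

theorem fin_US {K : Type} [Field K] [NumberField K] {S : Set (HeightOneSpectrum (𝓞 K))}
    (hS : S.Finite) : {c : SC K | ∀ v, v ∉ S → eo v c = 0}.Finite := by
  obtain ⟨R, hR, hR0, hdec⟩ := Pool.Agent.H11.kSn_finite (F := K) S hS 2 two_ne_zero
  refine (hR.image sc).subset ?_
  intro c hc
  obtain ⟨r, hr, b, hb, hab⟩ := hdec (rep c) (rep_ne c) (by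
    intro w hw
    have h1 := hc w hw
    unfold eo at h1
    have h2 : (2 : ℤ) ∣ ord (w.valuation K) (rep c) :=
      (ZMod.intCast_zmod_eq_zero_iff_dvd _ 2).mp h1
    obtain ⟨k, hk⟩ := h2
    have hu0 : unif w ≠ 0 := by
      intro h0
      have h3 := unif_spec w
      rw [h0, map_zero] at h3
      exact (exp_ne_zero h3.symm)
    refine ⟨unif w ^ k, zpow_ne_zero _ hu0, ?_⟩
    have h4 : w.valuation K (rep c) = exp (-(ord (w.valuation K) (rep c))) := by
      unfold ord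
      rw [neg_neg, exp_log ((Valuation.ne_zero_iff _).mpr (rep_ne c))]
    rw [h4, hk, map_zpow₀, unif_spec, ← exp_zsmul, ← exp_nsmul]
    congr 1
    simp)
  have hr0 := hR0 r hr
  refine ⟨r, hr, ?_⟩
  have h5 : sc (b ^ 2) = 0 := (sc_eq_zero (pow_ne_zero 2 hb)).mpr ⟨b, sq b⟩
  have h6 := sc_mul hr0 (pow_ne_zero 2 hb)
  rw [h5, ← hab, sc_rep] at h6
  rw [h6]
  exact (_root_.add_zero (sc r)).symm

end H24TD

end S_H24_TD_Fi

section S_H76_MQ_Dx

set_option autoImplicit false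
set_option linter.unusedSectionVars false
open scoped Classical

open WithZero NumberField IsDedekindDomain H38RT
open H38T1 (SC sc scu rep eo la si Pri OddP tp unif ka)
open H76PP

namespace H76MQ

variable {K L : Type} [Field K] [NumberField K] [Field L] [NumberField L] [Algebra K L]

theorem Dx_two {v : HeightOneSpectrum (𝓞 K)} (h2 : (2 : 𝓞 K) ∈ v.asIdeal)
    (h22 : (2 : 𝓞 K) ∉ v.asIdeal ^ 2) : H30ZO.e2 v = 1 := by
  have h3 := H30ZO.e2_spec v
  have h33 : algebraMap (𝓞 K) K 2 = 2 := map_ofNat _ 2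
  rw [← h33, v.valuation_of_algebraMap] at h3
  have h4 : v.intValuation (2 : 𝓞 K) ≤ exp (-((1 : ℕ) : ℤ)) :=
    (v.intValuation_le_pow_iff_mem 2 1).2 (by rwa [pow_one])
  have h5 : ¬ v.intValuation (2 : 𝓞 K) ≤ exp (-((2 : ℕ) : ℤ)) := fun h =>
    h22 ((v.intValuation_le_pow_iff_mem 2 2).1 h)
  rw [h3, exp_le_exp] at h4 h5
  push_cast at h4 h5
  omega

theorem Dx_fin (S : Finset (HeightOneSpectrum (𝓞 K))) :
    {w : HeightOneSpectrum (𝓞 L) | dn K w ∈ S}.Finite := by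
  have h1 : {w : HeightOneSpectrum (𝓞 L) | dn K w ∈ S} =
      ⋃ v ∈ S, {w : HeightOneSpectrum (𝓞 L) | dn K w = v} := by
    ext w
    rw [Set.mem_iUnion₂]
    constructor
    · intro hw
      exact ⟨dn K w, hw, rfl⟩
    · rintro ⟨v, hv, hw⟩
      have hw' : dn K w = v := hw
      change dn K w ∈ S
      rw [hw']
      exact hv
  rw [h1]
  exact S.finite_toSet.biUnion fun v _ => fin_above v

theorem Dx_nb1 (v : HeightOneSpectrum (𝓞 K)) : 1 ≤ H30ZO.nb K L v := by
  obtain ⟨w, hw⟩ := exists_above (L := L) v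
  have h1 : 0 < {w : HeightOneSpectrum (𝓞 L) | dn K w = v}.ncard :=
    (Set.ncard_pos (fin_above v)).2 ⟨w, hw⟩
  exact h1

theorem Dx_nb2 {v : HeightOneSpectrum (𝓞 K)} {w₁ w₂ : HeightOneSpectrum (𝓞 L)}
    (h : TwG K v w₁ w₂) : 2 ≤ H30ZO.nb K L v := by
  have h1 : ({w₁, w₂} : Set (HeightOneSpectrum (𝓞 L))) ⊆
      {w : HeightOneSpectrum (𝓞 L) | dn K w = v} := by
    rintro w (rfl | hw)
    · exact h.dn1
    · have hw' : w = w₂ := hw
      rw [hw']
      exact h.dn2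
  have h2 := Set.ncard_le_ncard h1 (fin_above v)
  rw [Set.ncard_pair h.ne] at h2
  exact h2

/-- A sum over four disjoint pieces. -/
theorem Dx_sum {C : Cfg K} (hC : C.Ok) {J : Finset (HeightOneSpectrum (𝓞 K))}
    (hJ : ∀ v ∈ J, v ∉ C.S) {f : HeightOneSpectrum (𝓞 K) → ℕ} (h1 : ∀ v, 1 ≤ f v)
    (ha : ∀ v ∈ C.P, 2 ≤ f (C.a v)) (hj : ∀ v ∈ J, 2 ≤ f v) :
    (C.S ∪ J).card + C.P.card + J.card ≤ ∑ v ∈ C.S ∪ J, f v := by
  obtain ⟨Q, hQ⟩ : ∃ Q, Q = C.P.image C.a ∪ J := ⟨_, rfl⟩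
  have hQs : Q ⊆ C.S ∪ J := by
    rw [hQ]
    refine Finset.union_subset_union ?_ (Finset.Subset.refl _)
    exact (Finset.subset_union_left.trans Finset.subset_union_right)
  have hQc : Q.card = C.P.card + J.card := by
    rw [hQ, Finset.card_union_of_disjoint]
    · rw [Finset.card_image_of_injOn]
      intro v hv v' hv' hvv
      exact hC.inj v hv v' hv' hvv
    · rw [Finset.disjoint_left]
      intro v hv hvJ
      exact hJ v hvJ (Finset.mem_union_right _ (Finset.mem_union_left _ hv))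
  have hQ2 : ∀ v ∈ Q, 2 ≤ f v := by
    intro v hv
    rw [hQ] at hv
    rcases Finset.mem_union.1 hv with hv | hv
    · obtain ⟨u, hu, rfl⟩ := Finset.mem_image.1 hv
      exact ha u hu
    · exact hj v hv
  have h2 : (C.S ∪ J).card + Q.card = ∑ v ∈ C.S ∪ J, (1 + if v ∈ Q then 1 else 0) := by
    rw [Finset.sum_add_distrib, Finset.sum_const, smul_eq_mul, mul_one, ← Finset.sum_filter,
      Finset.sum_const, smul_eq_mul, mul_one, Finset.filter_mem_eq_inter,
      Finset.inter_eq_right.2 hQs]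
  rw [add_assoc, ← hQc, h2]
  refine Finset.sum_le_sum fun v _ => ?_
  by_cases hv : v ∈ Q
  · rw [if_pos hv]
    exact hQ2 v hv
  · rw [if_neg hv]
    exact h1 v

/-- The units lie in the group of the classes of even order outside. -/
theorem Dx_le {S : Finset (HeightOneSpectrum (𝓞 K))} {c : SC L}
    (hc : c ∈ H24TD.US L {w : HeightOneSpectrum (𝓞 L) | dn K w ∈ S} ⊓ H30ZO.HH K L) :
    c ∈ (HH K S : AddSubgroup (SC L)) := by
  refine ⟨(AddSubgroup.mem_inf.1 hc).2, fun w hw => ?_⟩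
  obtain ⟨u, hu, rfl⟩ := (AddSubgroup.mem_inf.1 hc).1
  rw [H24TD.cls_eq, H38T1.eo_sc (Units.ne_zero _)]
  have h1 : w.valuation L ((Additive.toMul u : Lˣ) : L) = 1 := hu w hw
  rw [ord, h1, log_one, neg_zero, Int.cast_zero]

/-- The kernel of a homomorphism to a finite vector space over two elements is large. -/
theorem Dx_ker {G : Type} [AddCommGroup G] {J : Type} [Fintype J] (φ : G →+ (J → ZMod 2)) {m : ℕ}
    (h : 2 ^ (m + Fintype.card J) ≤ Nat.card G) : 2 ^ m ≤ Nat.card φ.ker := by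
  have h1 := AddSubgroup.card_mul_index φ.ker
  rw [AddSubgroup.index_ker] at h1
  have h2 : Nat.card φ.range ≤ 2 ^ Fintype.card J := by
    have h3 : Nat.card φ.range ≤ Nat.card (J → ZMod 2) :=
      Nat.card_le_card_of_injective (fun x : φ.range => (x : J → ZMod 2)) Subtype.val_injective
    rw [Nat.card_eq_fintype_card (α := J → ZMod 2), Fintype.card_fun, ZMod.card] at h3
    exact h3
  have h3 : 2 ^ m * 2 ^ Fintype.card J ≤ Nat.card φ.ker * 2 ^ Fintype.card J := by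
    rw [← pow_add]
    refine h.trans ?_
    rw [← h1]
    exact Nat.mul_le_mul_left _ h2
  exact Nat.le_of_mul_le_mul_right h3 (pow_pos two_pos _)

theorem card_P {C : Cfg K} (hC : C.Ok) : C.P.card = Module.finrank ℚ K := by
  have h1 := H30ZO.prod_two C.P (fun v hv => by
    refine (hC.mem2 v).2 ?_
    have h33 : algebraMap (𝓞 K) K 2 = 2 := map_ofNat _ 2
    rw [← h33] at hv
    exact (v.valuation_lt_one_iff_mem (K := K) 2).1 hv)
  have h2 : ∀ v ∈ C.P, H30ZO.qq v = 2 := by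
    intro v hv
    rw [H30ZO.qq, Dx_two ((hC.mem2 v).1 hv) (hC.sq2 v hv), hC.nv v hv, pow_one]
  rw [Finset.prod_congr rfl h2, Finset.prod_const] at h1
  exact Nat.pow_right_injective (le_refl 2) h1

theorem fin_HH (K : Type) {L : Type} [Field K] [NumberField K] [Field L] [NumberField L]
    [Algebra K L] (S : Finset (HeightOneSpectrum (𝓞 K))) :
    Finite (HH K S : AddSubgroup (SC L)) := by
  have h1 := (H24TD.fin_US (Dx_fin (L := L) S)).subset
    (fun c (hc : c ∈ ((HH K S : AddSubgroup (SC L)) : Set (SC L))) w hw => hc.2 w hw)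
  exact h1.to_subtype

theorem card_XJ {C : Cfg K} (hC : C.Ok) {q₀ : HeightOneSpectrum (𝓞 K)}
    {T : Finset (HeightOneSpectrum (𝓞 K))} (hT : ∀ v ∈ T, v ∉ C.S ∧ v ≠ q₀)
    {A B : 𝓞 K} (hF : FamQ C q₀ T A B) {θ : L} (h : Cub K L (A : K) (B : K) θ)
    (hR : HR2 K L A B θ) (D : LData C T A B θ) {J : Finset (HeightOneSpectrum (𝓞 K))}
    (hJ : J ⊆ T) : 2 ^ (2 * C.P.card) ≤ Nat.card {c : SC L // D.X J c} := by
  -- the discriminant
  have hn := card_P hC
  have hP : 0 < C.P.card := by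
    rw [hn]
    exact Module.finrank_pos
  obtain ⟨v₀, hv₀⟩ := Finset.card_pos.1 hP
  have hfs := fam_S (T' := ∅) hC hT hF (Finset.Subset.refl C.S) Finset.subset_union_left
    (Finset.empty_subset T)
  have hd : dsc A B ≠ 0 := by
    intro h0
    apply hfs.bdd v₀ (Finset.mem_union_left _ hv₀)
    rw [h0]
    exact Ideal.zero_mem _
  have hD : 4 * (A : K) ^ 3 + 27 * (B : K) ^ 2 ≠ 0 := by
    intro h0
    apply hd
    apply RingOfIntegers.coe_injective
    unfold dsc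
    simpa only [map_add, map_mul, map_pow, map_ofNat, map_zero] using h0
  -- the number of units
  obtain ⟨U, hU⟩ : ∃ U : AddSubgroup (SC L), U =
      H24TD.US L {w : HeightOneSpectrum (𝓞 L) | dn K w ∈ C.S ∪ J} ⊓ H30ZO.HH K L := ⟨_, rfl⟩
  have hc1 := H30ZO.card_X h (C.S ∪ J)
  rw [← hU] at hc1
  have hc2 := H30ZO.places_count h hD
  have hc3 := Dx_sum hC (J := J) (fun v hv => (hT v (hJ hv)).1) (f := H30ZO.nb K L)
    Dx_nb1 (fun v hv => Dx_nb2 (D.hA v hv).toTwG) (fun v hv => Dx_nb2 (D.hT v (hJ hv)).toTwG)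
  have hUc : 2 ^ (2 * C.P.card + J.card) ≤ Nat.card U := by
    refine Nat.le_of_mul_le_mul_right (c := 2 ^ ((C.S ∪ J).card +
      (InfinitePlace.nrRealPlaces K + InfinitePlace.nrComplexPlaces K))) ?_ (pow_pos two_pos _)
    rw [hc1, ← pow_add]
    refine Nat.pow_le_pow_right two_pos ?_
    rw [hc2, ← hn]
    omega
  -- the conditions at `J`
  have hodd : ∀ v ∈ J, OddP v := by
    intro v hv
    have h6 := six_notMem hC (hT v (hJ hv)).1
    unfold OddP
    have h33 : algebraMap (𝓞 K) K 2 = 2 := map_ofNat _ 2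
    rw [← h33]
    refine (v.valuation_eq_one_iff_notMem (K := K)).2 fun h2 => h6 ?_
    have e1 : (6 : 𝓞 K) = 3 * 2 := by norm_num
    rw [e1]
    exact Ideal.mul_mem_left _ _ h2
  let φ : U →+ ({v // v ∈ J} → ZMod 2) :=
    { toFun := fun c v => la (D.t₁ v.1) c.1 + D.nu v.1 * eo (D.t₂ v.1) c.1
      map_zero' := by
        funext v
        have h1 := H38T1.la_add (Gg_odd1 (hodd v.1 v.2) (D.hT v.1 (hJ v.2)).toTwG) 0 0
        rw [add_zero] at h1
        have h2 := left_eq_add.1 h1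
        show la (D.t₁ v.1) 0 + D.nu v.1 * eo (D.t₂ v.1) 0 = 0
        rw [h2, H38T1.eo_zero, mul_zero, add_zero]
      map_add' := by
        intro c c'
        funext v
        show la (D.t₁ v.1) (c.1 + c'.1) + D.nu v.1 * eo (D.t₂ v.1) (c.1 + c'.1) =
          (la (D.t₁ v.1) c.1 + D.nu v.1 * eo (D.t₂ v.1) c.1) +
          (la (D.t₁ v.1) c'.1 + D.nu v.1 * eo (D.t₂ v.1) c'.1)
        rw [H38T1.la_add (Gg_odd1 (hodd v.1 v.2) (D.hT v.1 (hJ v.2)).toTwG), H38T1.eo_add]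
        ring }
  have hker := Dx_ker (m := 2 * C.P.card) φ (by rw [Fintype.card_coe]; exact hUc)
  refine hker.trans ?_
  have hfin : Finite {c : SC L // D.X J c} := by
    have h1 : ((HH K (C.S ∪ J) : AddSubgroup (SC L)) : Set (SC L)).Finite :=
      Set.finite_coe_iff.1 (fin_HH K (C.S ∪ J))
    exact (h1.subset (fun c (hc : c ∈ {c : SC L | D.X J c}) => hc.1)).to_subtype
  have hX : ∀ c : φ.ker, D.X J c.1.1 := by
    rintro ⟨⟨c, hcU⟩, hc⟩
    refine ⟨?_, ?_⟩
    · rw [hU] at hcU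
      exact Dx_le hcU
    · intro v hv
      have h1 := congrFun (AddMonoidHom.mem_ker.1 hc) ⟨v, hv⟩
      have h2 : la (D.t₁ v) c + D.nu v * eo (D.t₂ v) c = 0 := h1
      exact CharTwo.add_eq_zero.1 h2
  refine Nat.card_le_card_of_injective (fun c : φ.ker => (⟨c.1.1, hX c⟩ : {c : SC L // D.X J c})) ?_
  intro c c' hcc
  have h0 : (⟨c.1.1, hX c⟩ : {c : SC L // D.X J c}) = ⟨c'.1.1, hX c'⟩ := hcc
  have h1 : c.1.1 = c'.1.1 := Subtype.mk.inj h0
  exact Subtype.ext (Subtype.ext h1)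

end H76MQ

end S_H76_MQ_Dx

section S_H76_MQ_Sa

set_option autoImplicit false
set_option linter.unusedSectionVars false
open scoped Classical

open WithZero NumberField IsDedekindDomain H38RT
open H38T1 (SC sc scu rep eo la si Pri OddP tp unif ka)
open H76PP

namespace H76MQ

variable {K L : Type} [Field K] [NumberField K] [Field L] [NumberField L] [Algebra K L]

theorem Sa_odd {v : HeightOneSpectrum (𝓞 K)} (h6 : (6 : 𝓞 K) ∉ v.asIdeal) : OddP v := by
  have h2 : (2 : 𝓞 K) ∉ v.asIdeal := by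
    intro h
    apply h6
    have : (6 : 𝓞 K) = 3 * 2 := by norm_num
    rw [this]
    exact v.asIdeal.mul_mem_left _ h
  have h3 := (v.valuation_eq_one_iff_notMem (K := K) (r := (2 : 𝓞 K))).2 h2
  unfold H38T1.OddP
  rw [← h3]
  congr 1

theorem Sa_walk {H : Type} [AddCommGroup H] (h2 : ∀ x : H, 2 • x = 0) [Finite H] {P ι : Type}
    [Fintype P]
    (I J ia ja : P → H →+ ZMod 2) (u n : ι → H →+ ZMod 2) (ν : ι → ZMod 2) (k : ℕ)
    (T : ℕ → Finset ι) (hT : ∀ i < k, ∀ j < k, i ≠ j → Disjoint (T i) (T j))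
    (hq : ∀ c : H, ∑ p, (I p c * J p c + ia p c * ja p c) +
      ∑ v ∈ (Finset.range k).biUnion T, n v c * (u v c + ν v) = 0)
    (hd : ∀ S ⊆ (Finset.range k).biUnion T, 2 ^ (2 * Fintype.card P) ≤
      Nat.card {c : H // (∀ v ∈ (Finset.range k).biUnion T, v ∉ S → n v c = 0) ∧
        ∀ v ∈ S, u v c = ν v * n v c})
    (hr : ∀ l < k, ∀ φ : H →+ ZMod 2, ∃ v ∈ T l, ∀ c : H,
      (∀ v' ∈ (Finset.range k).biUnion T, v' ∉ (Finset.range l).biUnion T → n v' c = 0) →
      u v c = φ c)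
    (hk : Nat.card {c : H // ∀ v ∈ (Finset.range k).biUnion T, n v c = 0} *
      2 ^ (2 * Fintype.card P) ≤ 2 ^ k) :
    ∃ S ⊆ (Finset.range k).biUnion T, ∀ c : H,
      (∀ v ∈ (Finset.range k).biUnion T, v ∉ S → n v c = 0) →
      (∀ v ∈ S, u v c = ν v * n v c) →
      (∀ p, ia p c = J p c ∧ ja p c = I p c) ∧ ((∀ p, I p c = 0 ∧ J p c = 0) → c = 0) := by
  let _ : Module (ZMod 2) H := AddCommGroup.zmodModule h2
  exact walk (fun p => (I p).toZModLinearMap 2) (fun p => (J p).toZModLinearMap 2)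
    (fun p => (ia p).toZModLinearMap 2) (fun p => (ja p).toZModLinearMap 2)
    (fun p => (u p).toZModLinearMap 2) (fun p => (n p).toZModLinearMap 2) ν k T hT hq hd
    (fun l hl φ => hr l hl φ.toAddMonoidHom) hk

theorem Sa_ext {G : Type} [AddCommGroup G] [Module (ZMod 2) G] (H : AddSubgroup G)
    (φ : H →+ ZMod 2) : ∃ ψ : G →+ ZMod 2, ∀ c (hc : c ∈ H), ψ c = φ ⟨c, hc⟩ := by
  obtain ⟨ψ, hψ⟩ := LinearMap.exists_extend (p := AddSubgroup.toZModSubmodule 2 H)
    (AddMonoidHom.toZModLinearMap 2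
      ({ toFun := fun x => φ ⟨x.1, x.2⟩
         map_zero' := map_zero φ
         map_add' := fun x y => map_add φ ⟨x.1, x.2⟩ ⟨y.1, y.2⟩ } :
        (AddSubgroup.toZModSubmodule 2 H) →+ ZMod 2))
  refine ⟨ψ.toAddMonoidHom, fun c hc => ?_⟩
  exact LinearMap.congr_fun hψ ⟨c, hc⟩

theorem Sa_eo1 {A B : 𝓞 K} {θ : L} (h : Cub K L (A : K) (B : K) θ) (hR : HR2 K L A B θ)
    {v : HeightOneSpectrum (𝓞 K)} (hv : OddP v) {w₁ w₂ : HeightOneSpectrum (𝓞 L)}
    (h2 : TwG K v w₁ w₂) {c : SC L} (hN : scm (Algebra.norm K : L →* K) c = 0) :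
    eo w₁ c = 0 := by
  obtain ⟨y, hy, rfl⟩ := H38T1.sc_surj c
  refine gg_eo1 hR hv h2 h.finrank hy ?_
  rw [scm_sc _ hy] at hN
  exact (H38T1.sc_eq_zero (Algebra.norm_ne_zero_iff.2 hy)).1 hN

/-- the additive function `la w` on a subgroup (zero if `w` is not odd) -/
noncomputable def Sa_la (G : AddSubgroup (SC L)) (w : HeightOneSpectrum (𝓞 L)) : G →+ ZMod 2 :=
  if hw : OddP w then
    { toFun := fun c => la w c.1
      map_zero' := H38T1.la_zero hw
      map_add' := fun x y => H38T1.la_add hw x.1 y.1 }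
  else 0

theorem Sa_la_apply {G : AddSubgroup (SC L)} {w : HeightOneSpectrum (𝓞 L)} (hw : OddP w) (c : G) :
    Sa_la G w c = la w c.1 := by
  unfold Sa_la
  rw [dif_pos hw]
  rfl

/-- the additive function `eo w` on a subgroup -/
noncomputable def Sa_eo (G : AddSubgroup (SC L)) (w : HeightOneSpectrum (𝓞 L)) : G →+ ZMod 2 :=
  { toFun := fun c => eo w c.1
    map_zero' := H38T1.eo_zero w
    map_add' := fun x y => H38T1.eo_add w x.1 y.1 }

theorem Sa_eo_apply {G : AddSubgroup (SC L)} {w : HeightOneSpectrum (𝓞 L)} (c : G) :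
    Sa_eo G w c = eo w c.1 := rfl

theorem Sa_mul (m n ρ : ZMod 2) : (n + (m + ρ * n)) * (m + ρ * n) = m * (n + 1) := by
  revert m n ρ
  decide

theorem walk_app {C : Cfg K} (hC : C.Ok) {q₀ : HeightOneSpectrum (𝓞 K)} {k : ℕ} (hk0 : 0 < k)
    (T : ℕ → Finset (HeightOneSpectrum (𝓞 K))) (b : ℕ → ℕ)
    (hdis : ∀ i < k, ∀ j < k, i ≠ j → Disjoint (T i) (T j))
    (hT : ∀ v ∈ (Finset.range k).biUnion T, v ∉ C.S ∧ v ≠ q₀) {A B : 𝓞 K}
    (hF : FamQ C q₀ ((Finset.range k).biUnion T) A B)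
    (hG : ∀ l < k, GoodSt (C.S ∪ (Finset.range l).biUnion T) (T l) (b l) A B)
    (hk : b 0 * 2 ^ (2 * C.P.card) ≤ 2 ^ k) {θ : L} (h : Cub K L (A : K) (B : K) θ)
    (hR : HR2 K L A B θ) (D : LData C ((Finset.range k).biUnion T) A B θ) :
    ∃ J ⊆ (Finset.range k).biUnion T, ∀ c : SC L, D.X J c →
      (∀ v ∈ C.P, D.ia v c = D.J v c ∧ D.ja v c = D.I v c) ∧
      ((∀ v ∈ C.P, D.I v c = 0 ∧ D.J v c = 0) → c = 0) := by
  have hodd : ∀ v ∈ (Finset.range k).biUnion T, OddP v := fun v hv =>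
    Sa_odd (six_notMem hC (hT v hv).1)
  have hodd1 : ∀ v ∈ (Finset.range k).biUnion T, OddP (D.t₁ v) := fun v hv => by
    rw [oddP_dn (K := K), (D.hT v hv).dn1]
    exact hodd v hv
  have hodda : ∀ v ∈ C.P, OddP (D.a₁ v) := fun v hv => by
    rw [oddP_dn (K := K), (D.hA v hv).dn1]
    exact Sa_odd (hC.a6 v hv)
  -- monotonicity
  have hmono : ∀ S ⊆ (Finset.range k).biUnion T, ∀ c : SC L,
      c ∈ (HH K (C.S ∪ S) : AddSubgroup (SC L)) →
      c ∈ (HH K (C.S ∪ (Finset.range k).biUnion T) : AddSubgroup (SC L)) ∧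
        ∀ v ∈ (Finset.range k).biUnion T, v ∉ S → eo (D.t₂ v) c = 0 := by
    intro S hS c hc
    rw [mem_HH] at hc ⊢
    refine ⟨⟨hc.1, fun w hw => hc.2 w fun h0 => hw ?_⟩, fun v hv hvS => hc.2 _ ?_⟩
    · rcases Finset.mem_union.1 h0 with h1 | h1
      · exact Finset.mem_union_left _ h1
      · exact Finset.mem_union_right _ (hS h1)
    · rw [(D.hT v hv).dn2]
      intro h0
      rcases Finset.mem_union.1 h0 with h1 | h1
      · exact (hT v hv).1 h1
      · exact hvS h1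
  have hback : ∀ S : Finset (HeightOneSpectrum (𝓞 K)), ∀ c : SC L,
      c ∈ (HH K (C.S ∪ (Finset.range k).biUnion T) : AddSubgroup (SC L)) →
      (∀ v ∈ (Finset.range k).biUnion T, v ∉ S → eo (D.t₂ v) c = 0) →
      c ∈ (HH K (C.S ∪ S) : AddSubgroup (SC L)) := by
    intro S c hc h0
    rw [mem_HH] at hc ⊢
    refine ⟨hc.1, fun w hw => ?_⟩
    by_cases hw' : dn K w ∈ C.S ∪ (Finset.range k).biUnion T
    · rcases Finset.mem_union.1 hw' with h1 | h1
      · exact absurd (Finset.mem_union_left _ h1) hw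
      · have h3 : dn K w ∉ S := fun h4 => hw (Finset.mem_union_right _ h4)
        rcases (D.hT (dn K w) h1).only w rfl with h5 | h5
        · rw [h5]
          exact Sa_eo1 h hR (hodd _ h1) (D.hT (dn K w) h1).toTwG hc.1
        · rw [h5]
          exact h0 _ h1 h3
    · exact hc.2 w hw'
  have : Finite (HH K (C.S ∪ (Finset.range k).biUnion T) : AddSubgroup (SC L)) := fin_HH K _
  have hcard : Fintype.card {v // v ∈ C.P} = C.P.card := Fintype.card_coe _
  have key := Sa_walk (H := (HH K (C.S ∪ (Finset.range k).biUnion T) : AddSubgroup (SC L)))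
    (P := {v // v ∈ C.P}) (ι := HeightOneSpectrum (𝓞 K))
    (fun x => Subtype.ext (H38T1.SC.two_smul x.1))
    (fun p => (D.I p.1).comp (AddSubgroup.subtype _))
    (fun p => (D.J p.1).comp (AddSubgroup.subtype _))
    (fun p => Sa_eo _ (D.a₂ p.1) + (Sa_la _ (D.a₁ p.1) +
      (AddMonoidHom.mulLeft (D.ro p.1)).comp (Sa_eo _ (D.a₂ p.1))))
    (fun p => Sa_la _ (D.a₁ p.1) + (AddMonoidHom.mulLeft (D.ro p.1)).comp (Sa_eo _ (D.a₂ p.1)))
    (fun v => Sa_la _ (D.t₁ v)) (fun v => Sa_eo _ (D.t₂ v)) D.nu k T hdis ?_ ?_ ?_ ?_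
  · obtain ⟨S, hS, hS2⟩ := key
    refine ⟨S, hS, fun c hc => ?_⟩
    obtain ⟨hc1, hc2⟩ := hc
    obtain ⟨hc3, hc4⟩ := hmono S hS c hc1
    obtain ⟨h5, h6⟩ := hS2 ⟨c, hc3⟩ hc4 (fun v hv => by
      rw [Sa_la_apply (hodd1 v (hS hv))]
      exact hc2 v hv)
    refine ⟨fun v hv => ?_, fun h7 => ?_⟩
    · obtain ⟨h8, h9⟩ := h5 ⟨v, hv⟩
      have h10 := Sa_la_apply (G := HH K (C.S ∪ (Finset.range k).biUnion T)) (hodda v hv) ⟨c, hc3⟩
      simp only [AddMonoidHom.add_apply, AddMonoidHom.comp_apply] at h8 h9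
      rw [h10] at h8 h9
      exact ⟨h8, h9⟩
    · have h8 := h6 (fun p => h7 p.1 p.2)
      exact congrArg Subtype.val h8
  · -- hq
    intro c
    have h1 := conic_rec hC hT hF h hR D c.2
    refine Eq.trans ?_ h1
    congr 1
    rw [← Finset.sum_coe_sort C.P]
    · refine Finset.sum_congr rfl fun p _ => ?_
      simp only [AddMonoidHom.add_apply, AddMonoidHom.comp_apply]
      rw [Sa_la_apply (hodda p.1 p.2)]
      have h3 := Sa_mul (la (D.a₁ p.1) c.1) (eo (D.a₂ p.1) c.1) (D.ro p.1)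
      rw [← h3]
      rfl
    · refine Finset.sum_congr rfl fun v hv => ?_
      rw [Sa_la_apply (hodd1 v hv)]
      rfl
  · -- hd
    intro S hS
    rw [hcard]
    refine (card_XJ hC hT hF h hR D hS).trans ?_
    refine Nat.card_le_card_of_injective
      (fun c : {c : SC L // D.X S c} => (⟨⟨c.1, (hmono S hS c.1 c.2.1).1⟩,
        (hmono S hS c.1 c.2.1).2, fun v hv => by
          rw [Sa_la_apply (hodd1 v (hS hv))]
          exact c.2.2 v hv⟩ :
        {c : (HH K (C.S ∪ (Finset.range k).biUnion T) : AddSubgroup (SC L)) //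
          (∀ v ∈ (Finset.range k).biUnion T, v ∉ S → Sa_eo _ (D.t₂ v) c = 0) ∧
          ∀ v ∈ S, Sa_la _ (D.t₁ v) c = D.nu v * Sa_eo _ (D.t₂ v) c})) ?_
    intro c c' hcc
    have h1 := congrArg (fun z => z.1.1) hcc
    exact Subtype.ext h1
  · -- hr
    intro l hl φ
    obtain ⟨ψ, hψ⟩ := Sa_ext _ φ
    obtain ⟨v, hv, hv2⟩ := (hG l hl L θ h).2.2 ψ
    refine ⟨v, hv, fun c hc => ?_⟩
    have hvT : v ∈ (Finset.range k).biUnion T := Finset.mem_biUnion.2 ⟨l, Finset.mem_range.2 hl, hv⟩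
    rw [Sa_la_apply (hodd1 v hvT), hv2 c.1 (hback _ c.1 c.2 hc) _ (D.hT v hvT).dn1, hψ c.1 c.2]
  · -- hk
    rw [hcard]
    refine le_trans (Nat.mul_le_mul_right _ ?_) hk
    obtain ⟨h1, h2, -⟩ := hG 0 hk0 L θ h
    refine le_trans ?_ h2
    have := h1
    refine Nat.card_le_card_of_injective
      (fun c : {c : (HH K (C.S ∪ (Finset.range k).biUnion T) : AddSubgroup (SC L)) //
          ∀ v ∈ (Finset.range k).biUnion T, Sa_eo _ (D.t₂ v) c = 0} =>
        (⟨c.1.1, hback _ c.1.1 c.1.2 fun v hv _ => c.2 v hv⟩ :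
          (HH K (C.S ∪ (Finset.range 0).biUnion T) : AddSubgroup (SC L)))) ?_
    intro c c' hcc
    have h3 := congrArg (fun z => z.1) hcc
    exact Subtype.ext (Subtype.ext h3)

end H76MQ

end S_H76_MQ_Sa

section S_H76_MQ_Sb

set_option autoImplicit false
set_option linter.unusedSectionVars false
open scoped Classical

open WithZero NumberField IsDedekindDomain H38RT
open H38T1 (SC sc scu rep eo la si Pri OddP tp unif ka)
open H76PP

namespace H76MQ

variable {K L : Type} [Field K] [NumberField K] [Field L] [NumberField L] [Algebra K L]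

theorem Sb_odd_six {v : HeightOneSpectrum (𝓞 K)} (h6 : (6 : 𝓞 K) ∉ v.asIdeal) :
    (2 : 𝓞 K) ∉ v.asIdeal ∧ (3 : 𝓞 K) ∉ v.asIdeal := by
  refine ⟨fun h => h6 ?_, fun h => h6 ?_⟩
  · have h1 : (6 : 𝓞 K) = 3 * 2 := by norm_num
    rw [h1]
    exact v.asIdeal.mul_mem_left _ h
  · have h1 : (6 : 𝓞 K) = 2 * 3 := by norm_num
    rw [h1]
    exact v.asIdeal.mul_mem_left _ h

theorem Sb_val_three {v : HeightOneSpectrum (𝓞 K)} (h3 : (3 : 𝓞 K) ∉ v.asIdeal) :
    v.valuation K 3 = 1 := by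
  have h1 := (v.valuation_eq_one_iff_notMem (K := K) (r := (3 : 𝓞 K))).2 h3
  rw [← h1]
  congr 1

theorem Sb_val_four (v : HeightOneSpectrum (𝓞 K)) : v.valuation K 4 ≤ 1 := by
  have h1 := v.valuation_le_one (K := K) (4 : 𝓞 K)
  have h2 : (algebraMap (𝓞 K) K (4 : 𝓞 K)) = (4 : K) := map_ofNat (algebraMap (𝓞 K) K) 4
  calc v.valuation K 4 = v.valuation K (algebraMap (𝓞 K) K (4 : 𝓞 K)) := by rw [h2]
    _ ≤ 1 := h1

theorem Sb_odd {v : HeightOneSpectrum (𝓞 K)} (h6 : (6 : 𝓞 K) ∉ v.asIdeal) : OddP v := by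
  have h3 := (v.valuation_eq_one_iff_notMem (K := K) (r := (2 : 𝓞 K))).2 (Sb_odd_six h6).1
  unfold H38T1.OddP
  rw [← h3]
  congr 1

/-- A square in the completion has even order and trivial residue symbol. -/
theorem Sb_loc {v : HeightOneSpectrum (𝓞 K)} {x : K} (hx : x ≠ 0)
    (h : ∃ m : K, m ≠ 0 ∧ v.valuation K (x * m ^ 2 - 1) < v.valuation K 4) :
    eo v (sc x) = 0 ∧ (OddP v → la v (sc x) = 0) := by
  obtain ⟨m, hm, h1⟩ := h
  have h2 : v.valuation K (x * m ^ 2 - 1) < 1 := lt_of_lt_of_le h1 (Sb_val_four v)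
  have h3 := H54MT.near_one h2
  have hsc : (sc x : SC K) = sc (x * m ^ 2) := by
    rw [H38T1.sc_mul hx (pow_ne_zero 2 hm), H54MT.sc_sq hm, add_zero]
  rw [hsc]
  refine ⟨?_, fun hv => (Tk_near hv h2).2⟩
  rw [H38T1.eo_sc (mul_ne_zero hx (pow_ne_zero 2 hm))]
  unfold ord
  rw [h3, log_one, neg_zero, Int.cast_zero]

theorem Sb_eo_even {v : HeightOneSpectrum (𝓞 K)} {x : K} (hx : x ≠ 0)
    (h : Even (ord (v.valuation K) x)) : eo v (sc x) = 0 := by
  rw [H38T1.eo_sc hx]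
  exact (ZMod.intCast_eq_zero_iff_even).2 h

theorem Sb_eo_odd {v : HeightOneSpectrum (𝓞 K)} {x : K} (hx : x ≠ 0)
    (h : Odd (ord (v.valuation K) x)) : eo v (sc x) = 1 := by
  rw [H38T1.eo_sc hx]
  exact (ZMod.intCast_eq_one_iff_odd).2 h

theorem Sb_z1 : ∀ r n : ZMod 2, r * n + r * n = 0 := by decide

theorem Sb_z2 : ∀ r n : ZMod 2, n + ((r + 1) * n + r * n) = 0 := by decide

theorem Sb_z3 : ∀ e : ZMod 2, e = 0 ∨ e = 1 := by decide

theorem rel_local {C : Cfg K} (hC : C.Ok) {q₀ : HeightOneSpectrum (𝓞 K)} (hq : q₀ ∉ C.S)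
    {T : Finset (HeightOneSpectrum (𝓞 K))} (hT : ∀ v ∈ T, v ∉ C.S ∧ v ≠ q₀)
    {A B : 𝓞 K} (hF : FamQ C q₀ T A B) {θ : L} (h : Cub K L (A : K) (B : K) θ)
    (hR : HR2 K L A B θ) (D : LData C T A B θ) {J : Finset (HeightOneSpectrum (𝓞 K))}
    (hJT : J ⊆ T)
    (hJ : ∀ c : SC L, D.X J c → (∀ v ∈ C.P, D.ia v c = D.J v c ∧ D.ja v c = D.I v c) ∧
      ((∀ v ∈ C.P, D.I v c = 0 ∧ D.J v c = 0) → c = 0))
    {Dd : 𝓞 K} (hD : H36MT.TwS C.S q₀ J (Dd : K)) {d : 𝓞 K} (hd : TwOk C d)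
    {P : Finset (HeightOneSpectrum (𝓞 K))} (hSP : C.S ⊆ P) (hJP : J ⊆ P) :
    H36MT.RelTriv K L P (((Dd * d : 𝓞 K) : K) ^ 2 * A) (((Dd * d : 𝓞 K) : K) ^ 3 * B)
      (algebraMap K L ((Dd * d : 𝓞 K) : K) * θ) := by
  intro dd hd0 hsq heo hLC hLCr
  have hDK : (Dd : K) ≠ 0 := hD.ne
  have hDd : Dd ≠ 0 := fun h0 => hDK (RingOfIntegers.coe_eq_zero_iff.2 h0)
  have hdK : (d : K) ≠ 0 := fun h0 => hd.ne (RingOfIntegers.coe_eq_zero_iff.1 h0)
  obtain ⟨E, hEdef⟩ : ∃ E : 𝓞 K, E = Dd * d := ⟨_, rfl⟩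
  rw [← hEdef] at hd0 hsq heo hLC hLCr ⊢
  have hE : E ≠ 0 := by
    rw [hEdef]
    exact mul_ne_zero hDd hd.ne
  have hscE : (sc (E : K) : SC K) = sc (Dd : K) + sc (d : K) := by
    have h1 : (E : K) = (Dd : K) * (d : K) := by
      rw [hEdef]
      exact map_mul (algebraMap (𝓞 K) K) Dd d
    rw [h1, H38T1.sc_mul hDK hdK]
  obtain ⟨c, hc⟩ : ∃ c : SC L, c = sc (ev (algebraMap K L (E : K) * θ) dd) := ⟨_, rfl⟩
  have hPS : ∀ v ∈ C.P, v ∈ C.S := fun v hv => Finset.mem_union_left _ hv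
  have haS : ∀ v ∈ C.P, C.a v ∈ C.S := fun v hv =>
    Finset.mem_union_right _ (Finset.mem_union_left _ (Finset.mem_image_of_mem _ hv))
  have hRS : ∀ v ∈ C.R, v ∈ C.S := fun v hv =>
    Finset.mem_union_right _ (Finset.mem_union_right _ hv)
  have hoff : ∀ v : HeightOneSpectrum (𝓞 K), v ∉ C.S → eo v (sc (d : K)) = 0 := fun v hv =>
    hd.out v (fun h1 => hv (hPS v h1)) (fun h1 => hv (hRS v h1))
  have hX : D.X J c := by
    refine ⟨mem_HH.2 ⟨?_, ?_⟩, ?_⟩
    · rw [hc, scm_sc _ hd0]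
      exact (H38T1.sc_eq_zero (scm_ne _ hd0)).2 hsq
    · intro w hw
      have hwS : dn K w ∉ C.S := fun h1 => hw (Finset.mem_union_left _ h1)
      have hwJ : dn K w ∉ J := fun h1 => hw (Finset.mem_union_right _ h1)
      rw [hc]
      by_cases hwP : dn K w ∈ P
      · by_cases hwq : dn K w = q₀
        · refine H73P2.even_unique h w (H73P2.noRootAt_of ?_) hd0 hsq
          rw [hwq]
          exact hF.irr
        · refine even_loc h hE (hF.sqf _ hwS) ?_ hd0 (hLC _ hwP)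
          rw [hscE, H38T1.eo_add, hoff _ hwS, add_zero]
          exact Sb_eo_even hDK (hD.even _ hwS hwJ hwq)
      · exact heo w hwP
    · intro v hv
      obtain ⟨hvS, hvq⟩ := hT v (hJT hv)
      rw [hc]
      refine kum_T h hR (Sb_odd (six_notMem hC hvS)) (hF.sqf v hvS) (D.hT v (hJT hv)) hE ?_
        hd0 hsq (hLC v (hJP hv))
      rw [hscE, H38T1.eo_add, hoff v hvS, add_zero]
      exact Sb_eo_odd hDK (hD.odd v hv)
  obtain ⟨hc1, hc2⟩ := hJ c hX
  have hzero : ∀ v ∈ C.P, D.I v c = 0 ∧ D.J v c = 0 := by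
    intro v hv
    obtain ⟨j1, j2⟩ := hc1 v hv
    obtain ⟨n2, n3⟩ := Sb_odd_six (hC.a6 v hv)
    have hao : OddP (C.a v) := Sb_odd (hC.a6 v hv)
    have haP : C.a v ∉ C.P := fun h1 => n2 ((hC.mem2 _).1 h1)
    have hEv : eo v (sc (E : K)) = eo v (sc (d : K)) := by
      rw [hscE, H38T1.eo_add, (Sb_loc hDK (hD.loc v (hPS v hv))).1, zero_add]
    have hEa : eo (C.a v) (sc (E : K)) = 0 := by
      rw [hscE, H38T1.eo_add, (Sb_loc hDK (hD.loc _ (haS v hv))).1, zero_add]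
      exact hd.out _ haP (hC.aR v hv)
    have hLa : la (C.a v) (sc (E : K)) = eo v (sc (d : K)) := by
      rw [hscE, H38T1.la_add hao, (Sb_loc hDK (hD.loc _ (haS v hv))).2 hao, zero_add]
      exact hd.leg v hv
    obtain ⟨k1, k2⟩ := kum_P h (D.hw v hv) (D.hIJ v hv) hE hd0 hsq (hLC v (hSP (hPS v hv)))
    have k3 := kum_A h hR hao (Sb_val_three n3) (D.hA v hv) hE hEa hd0 hsq
      (hLC _ (hSP (haS v hv)))
    rw [← hc] at k1 k2 k3
    rw [hLa] at k3
    rcases Sb_z3 (eo v (sc (d : K))) with he | he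
    · have e1 : D.ja v c = 0 := by
        unfold LData.ja LData.ro
        rw [k3, he, add_zero]
        exact Sb_z1 _ _
      exact ⟨by rw [← j2, e1], k1 (hEv.trans he)⟩
    · have e1 : D.ia v c = 0 := by
        unfold LData.ia LData.ro
        rw [k3, he]
        exact Sb_z2 _ _
      exact ⟨k2 (hEv.trans he), by rw [← j1, e1]⟩
  have hfin := hc2 hzero
  rw [hc] at hfin
  exact (H38T1.sc_eq_zero hd0).1 hfin

end H76MQ

end S_H76_MQ_Sb

section S_H76_MQ_Sc

set_option autoImplicit false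
set_option linter.unusedSectionVars false
open scoped Classical

open WithZero NumberField IsDedekindDomain H38RT
open H38T1 (SC sc scu rep eo la si Pri OddP tp unif ka)
open H76PP

namespace H76MQ

theorem Sc_nice {K : Type} [Field K] [NumberField K] {A B : 𝓞 K} {v : HeightOneSpectrum (𝓞 K)}
    (h : dsc A B ∉ v.asIdeal ^ 2) {D : K} (hDne : D ≠ 0) (he : Even (ord (v.valuation K) D)) :
    H73P2.NiceAt v (D ^ 2 * A) (D ^ 3 * B) := by
  obtain ⟨j, hj⟩ := he
  have hvD : v.valuation K D = exp (-(j + j)) := by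
    rw [Ta_V_eq (V := v.valuation K) hDne, hj]
  have hπ := H38T1.unif_spec (K := K) v
  have hπ0 : H38T1.unif (K := K) v ≠ 0 := by
    intro h
    rw [h, map_zero] at hπ
    exact exp_ne_zero hπ.symm
  have hc0 : (H38T1.unif (K := K) v) ^ j ≠ 0 := zpow_ne_zero _ hπ0
  have hvc : v.valuation K ((H38T1.unif (K := K) v) ^ j) = exp (-j) := by
    rw [map_zpow₀, hπ, ← exp_zsmul]
    congr 1
    simp
  obtain ⟨c, hc⟩ : ∃ c : K, c = (H38T1.unif (K := K) v) ^ j := ⟨_, rfl⟩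
  rw [← hc] at hc0 hvc
  obtain ⟨u, hu⟩ : ∃ u : K, u = D / c ^ 2 := ⟨_, rfl⟩
  have hDu : D = c ^ 2 * u := by
    rw [hu]
    field_simp
  have hvu : v.valuation K u = 1 := by
    rw [hu, map_div₀, map_pow, hvD, hvc, ← exp_nsmul, ← exp_sub, ← exp_zero]
    congr 1
    simp
    ring
  have hA : v.valuation K (A : K) ≤ 1 := v.valuation_le_one A
  have hB : v.valuation K (B : K) ≤ 1 := v.valuation_le_one B
  refine ⟨c, u ^ 2 * A, u ^ 3 * B, hc0, ?_, ?_, ?_, ?_, ?_⟩
  · rw [hDu]; ring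
  · rw [hDu]; ring
  · rw [map_mul, map_pow, hvu, one_pow, one_mul]; exact hA
  · rw [map_mul, map_pow, hvu, one_pow, one_mul]; exact hB
  · have h1 : 4 * (u ^ 2 * (A : K)) ^ 3 + 27 * (u ^ 3 * (B : K)) ^ 2 =
        u ^ 6 * ((dsc A B : 𝓞 K) : K) := by
      unfold dsc
      simp only [map_add, map_mul, map_pow, map_ofNat]
      ring
    rw [h1, map_mul, map_pow, hvu, one_pow, one_mul]
    exact H36MT.Ni_dsc_le h

theorem Sc_even {K : Type} [Field K] [NumberField K] {v : HeightOneSpectrum (𝓞 K)} {x : K}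
    (hx : x ≠ 0) (h : eo v (sc x) = 0) : Even (ord (v.valuation K) x) := by
  rw [H38T1.eo_sc hx, ZMod.intCast_zmod_eq_zero_iff_dvd] at h
  exact even_iff_two_dvd.2 (by exact_mod_cast h)

theorem main_local {K : Type} [Field K] [NumberField K] {C : Cfg K} (hC : C.Ok)
    {q₀ : HeightOneSpectrum (𝓞 K)} (hq : q₀ ∉ C.S) {k : ℕ} (hk0 : 0 < k)
    (T : ℕ → Finset (HeightOneSpectrum (𝓞 K))) (b : ℕ → ℕ)
    (hdis : ∀ i < k, ∀ j < k, i ≠ j → Disjoint (T i) (T j))
    (hT : ∀ v ∈ (Finset.range k).biUnion T, v ∉ C.S ∧ v ≠ q₀) {A B : 𝓞 K}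
    (hF : FamQ C q₀ ((Finset.range k).biUnion T) A B)
    (hG : ∀ l < k, GoodSt (C.S ∪ (Finset.range l).biUnion T) (T l) (b l) A B)
    (hk : b 0 * 2 ^ (2 * C.P.card) ≤ 2 ^ k) :
    ∃ J ⊆ (Finset.range k).biUnion T, ∀ D : 𝓞 K, H36MT.TwS C.S q₀ J (D : K) →
      ∀ d : 𝓞 K, TwOk C d → ∀ Sg : Finset (HeightOneSpectrum (𝓞 K)),
      C.S ⊆ Sg → (Finset.range k).biUnion T ⊆ Sg → q₀ ∈ Sg →
      H36MT.RelG K Sg ((D * d) ^ 2 * A) ((D * d) ^ 3 * B) := by
  have hF0 : H36MT.FamS C.S 10 q₀ ((Finset.range k).biUnion T) A B :=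
    fam_S hC hT hF (Finset.Subset.refl _) Finset.subset_union_left (Finset.Subset.refl _)
  obtain ⟨L, _, _, _, θ, hL⟩ := H24PD.exists_cub (fun t => hF0.no_root t)
  have hR : HR2 K L A B θ := hr2 hL hF0.dsc_ne
  obtain ⟨Dt⟩ := exists_LData hC hT hF hL
  obtain ⟨J, hJ, hw⟩ := walk_app hC hk0 T b hdis hT hF hG hk hL hR Dt
  refine ⟨J, hJ, fun D hD d hd Sg hCS hTS hqS => ?_⟩
  have hD0 : (D : K) ≠ 0 := hD.ne
  have hd0 : (d : K) ≠ 0 := by
    intro h0
    apply hd.ne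
    apply RingOfIntegers.coe_injective
    rw [map_zero]
    exact h0
  obtain ⟨E, hE⟩ : ∃ E : 𝓞 K, E = D * d := ⟨_, rfl⟩
  have hEK : (E : K) = (D : K) * (d : K) := by rw [hE]; push_cast; rfl
  have hE0 : (E : K) ≠ 0 := by rw [hEK]; exact mul_ne_zero hD0 hd0
  rw [← hE]
  have hrel := rel_local hC hq hT hF hL hR Dt hJ hw hD hd hCS (hJ.trans hTS)
  rw [← hE] at hrel
  have e1 : ((E ^ 2 * A : 𝓞 K) : K) = (E : K) ^ 2 * (A : K) := by push_cast; rfl
  have e2 : ((E ^ 3 * B : 𝓞 K) : K) = (E : K) ^ 3 * (B : K) := by push_cast; rfl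
  refine ⟨?_, ?_, ?_, ?_, ?_⟩
  · intro v hv
    apply hCS
    have h3 : (2 : 𝓞 K) ∈ v.asIdeal := by
      by_contra h
      have h4 := (v.valuation_eq_one_iff_notMem (K := K) (r := (2 : 𝓞 K))).2 h
      have h5 : v.valuation K (2 : K) = 1 := by
        rw [← h4]
        congr 1
      exact absurd h5 hv.ne
    exact Finset.mem_union_left _ ((hC.mem2 v).2 h3)
  · intro h4
    have h5 : (4 * ((E : K) ^ 2 * (A : K)) ^ 3 + 27 * ((E : K) ^ 3 * (B : K)) ^ 2) = 0 := by
      rw [← e1, ← e2, ← H36MT.dsc_coe, h4, map_zero]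
    have h6 : (E : K) ^ 6 * (4 * (A : K) ^ 3 + 27 * (B : K) ^ 2) = 0 := by
      linear_combination h5
    exact (mul_ne_zero (pow_ne_zero 6 hE0) hF0.dsc_ne) h6
  · rw [e1, e2]
    intro t ht
    apply hF0.no_root (t / (E : K))
    have h7 : (E : K) ^ 3 * ((t / (E : K)) ^ 3 + (A : K) * (t / (E : K)) + (B : K)) = 0 := by
      field_simp
      linear_combination ht
    exact (mul_eq_zero.1 h7).resolve_left (pow_ne_zero 3 hE0)
  · rw [e1, e2]
    intro v hv
    have hvS : v ∉ C.S := fun h => hv (hCS h)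
    have hvJ : v ∉ J := fun h => hv (hTS (hJ h))
    have hvq : v ≠ q₀ := fun h => hv (h ▸ hqS)
    apply Sc_nice (hF0.sqf v hvS) hE0
    rw [hEK, H38RT.ord_mul hD0 hd0]
    apply Even.add (hD.even v hvS hvJ hvq)
    apply Sc_even hd0
    apply hd.out v
    · intro h
      exact hvS (Finset.mem_union_left _ h)
    · intro h
      exact hvS (Finset.mem_union_right _ (Finset.mem_union_right _ h))
  · rw [e1, e2]
    intro L' _ _ _ θ' hL'
    exact (H36MT.RelTriv.equiv (Tg_twist hL hE0) hL' hrel).toRelT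

end H76MQ

end S_H76_MQ_Sc
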