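import Mathlib
import Pool.Agent.H76.PN.B2

/-! This file joins several modules to save build time (M6). -/

set_option autoImplicit false

section S_H54_MQ_D0

set_option autoImplicit false
set_option linter.unusedSectionVars false
open scoped Classical

open NumberField IsDedekindDomain H76PP H54PP
open scoped Matrix

namespace H54MQ

variable {K : Type} [Field K] [NumberField K]

/-- The residue condition at `v`, twisted by `ε v`. -/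
def RT (ε : HeightOneSpectrum (𝓞 K) → 𝓞 K) (v : HeightOneSpectrum (𝓞 K))
    (M N : Matrix (Fin 3) (Fin 3) (𝓞 K)) : Prop :=
  Rs (rd v (ε v • M)) (rd v (ε v • N))

/-- The data attached to a pair `(A, B)`, with the twisted residue condition. -/
structure DatE (ε : HeightOneSpectrum (𝓞 K) → 𝓞 K) (X C₂ : ℝ)
    (T : Finset (HeightOneSpectrum (𝓞 K))) (A B : 𝓞 K)
    (l : Fin 3 → ℝ) (M N : Matrix (Fin 3) (Fin 3) (𝓞 K)) : Prop where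
  dat : Dat X C₂ ∅ A B l M N
  res : ∀ v ∈ T, M.det ∉ v.asIdeal → RT ε v M N

/-- The conditions on the entries `m`, `y` of `Pᵀ M P` and `Pᵀ N P`. -/
structure TgtE (ε : HeightOneSpectrum (𝓞 K) → 𝓞 K) (X τ G : ℝ)
    (T : Finset (HeightOneSpectrum (𝓞 K))) (m y : Fin 6 → 𝓞 K) : Prop where
  tm : TgM τ G m
  tr : ∑ i, cf m i * y i = 0
  bd : ∀ i, y i ∈ bx K (tt X τ G i)
  rs : ∀ v ∈ T, (sy m).det ∉ v.asIdeal → RT ε v (sy m) (sy y)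

section BadSets

variable (K)

/-- The pairs `(A, B)` with data whose `l 0` satisfies `L`. -/
def BdE (ε : HeightOneSpectrum (𝓞 K) → 𝓞 K) (X C₂ : ℝ) (T : Finset (HeightOneSpectrum (𝓞 K)))
    (L : ℝ → Prop) : Set (𝓞 K × 𝓞 K) :=
  {p | p ∈ Bx K X ∧ ∃ (l : Fin 3 → ℝ) (M N : Matrix (Fin 3) (Fin 3) (𝓞 K)),
    DatE ε X C₂ T p.1 p.2 l M N ∧ L (l 0)}

end BadSets

theorem RT_conj {ε : HeightOneSpectrum (𝓞 K) → 𝓞 K} {v : HeightOneSpectrum (𝓞 K)}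
    {M N P : Matrix (Fin 3) (Fin 3) (𝓞 K)} (hP : P.det = 1) (h : RT ε v M N) :
    RT ε v (Pᵀ * M * P) (Pᵀ * N * P) := by
  have h1 := Rs_rd_conj hP h
  have e : ∀ L : Matrix (Fin 3) (Fin 3) (𝓞 K), Pᵀ * (ε v • L) * P = ε v • (Pᵀ * L * P) := by
    intro L
    rw [Matrix.mul_smul, Matrix.smul_mul]
  rw [e, e] at h1
  exact h1

theorem rd_smul (v : HeightOneSpectrum (𝓞 K)) (a : 𝓞 K) (M : Matrix (Fin 3) (Fin 3) (𝓞 K)) :
    rd v (a • M) = (Ideal.Quotient.mk v.asIdeal a) • rd v M := by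
  ext i j
  unfold rd
  rw [Matrix.map_apply, Matrix.smul_apply, Matrix.smul_apply, smul_eq_mul, smul_eq_mul, map_mul,
    Matrix.map_apply]

theorem mk_ne {v : HeightOneSpectrum (𝓞 K)} {a : 𝓞 K} (h : a ∉ v.asIdeal) :
    Ideal.Quotient.mk v.asIdeal a ≠ 0 := fun h0 => h (Ideal.Quotient.eq_zero_iff_mem.1 h0)

end H54MQ

end S_H54_MQ_D0

section S_H54_MQ_Ac

set_option autoImplicit false
set_option linter.unusedSectionVars false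
open scoped Classical

open NumberField IsDedekindDomain H76PP H54PP
open scoped Matrix

namespace H54MQ

section

variable {K : Type} [Field K] [NumberField K]

/-- The admissible reductions of the five entries. -/
def Ac_SE (ε : HeightOneSpectrum (𝓞 K) → 𝓞 K) (m : Fin 6 → 𝓞 K) (i₀ : Fin 6)
    (v : HeightOneSpectrum (𝓞 K)) : Set (Fin 5 → 𝓞 K ⧸ v.asIdeal) :=
  (fun N : Matrix (Fin 3) (Fin 3) (𝓞 K ⧸ v.asIdeal) => fun j : Fin 5 => en N (i₀.succAbove j)) ''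
    {N | N.IsSymm ∧ Rs (rd v (ε v • sy m)) (Ideal.Quotient.mk v.asIdeal (ε v) • N)}

theorem Ac_count (ε : HeightOneSpectrum (𝓞 K) → 𝓞 K) (m : Fin 6 → 𝓞 K)
    (v : HeightOneSpectrum (𝓞 K)) (h6 : (6 : 𝓞 K) ∉ v.asIdeal) (he : ε v ∉ v.asIdeal)
    (hd : (sy m).det ∉ v.asIdeal) :
    4 * {N : Matrix (Fin 3) (Fin 3) (𝓞 K ⧸ v.asIdeal) | N.IsSymm ∧
      Rs (rd v (ε v • sy m)) (Ideal.Quotient.mk v.asIdeal (ε v) • N)}.ncard ≤
      Nv v ^ 3 * (Nv v + 1) ^ 2 := by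
  have hfin := finite_residue v
  have hft : Fintype (𝓞 K ⧸ v.asIdeal) := Fintype.ofFinite _
  have he' := mk_ne he
  have hsm : (ε v • sy m : Matrix (Fin 3) (Fin 3) (𝓞 K)).IsSymm := (sy_symm m).smul _
  have hsm' : (rd v (ε v • sy m)).IsSymm := by
    unfold rd
    exact hsm.map _
  have hdet : (rd v (ε v • sy m)).det ≠ 0 := by
    rw [rd_smul, Matrix.det_smul, Fintype.card_fin]
    exact mul_ne_zero (pow_ne_zero 3 he') (rd_det_ne hd)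
  have h1 := Rs_count (six_ne h6) hsm' hdet
  have hc : Fintype.card (𝓞 K ⧸ v.asIdeal) = Nv v := by
    rw [← Nat.card_eq_fintype_card]
    exact card_residue v
  rw [hc] at h1
  refine le_trans (Nat.mul_le_mul_left 4 ?_) h1
  refine Set.ncard_le_ncard_of_injOn (fun N => Ideal.Quotient.mk v.asIdeal (ε v) • N) ?_ ?_
    (Set.toFinite _)
  · rintro N ⟨h2, h3⟩
    exact ⟨h2.smul _, h3⟩
  · intro N _ N' _ h
    have h2 := congrArg (fun P => (Ideal.Quotient.mk v.asIdeal (ε v))⁻¹ • P) h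
    simp only [smul_smul, inv_mul_cancel₀ he', one_smul] at h2
    exact h2

theorem Ac_cardE (ε : HeightOneSpectrum (𝓞 K) → 𝓞 K) (m : Fin 6 → 𝓞 K) (i₀ : Fin 6)
    (v : HeightOneSpectrum (𝓞 K)) (h6 : (6 : 𝓞 K) ∉ v.asIdeal) (he : ε v ∉ v.asIdeal)
    (hd : (sy m).det ∉ v.asIdeal) : ((Ac_SE ε m i₀ v).ncard : ℝ) ≤ (Nv v : ℝ) ^ 5 * rho v := by
  have hfin := finite_residue v
  have h1 := Ac_count ε m v h6 he hd
  have h2 : (Ac_SE ε m i₀ v).ncard ≤ {N : Matrix (Fin 3) (Fin 3) (𝓞 K ⧸ v.asIdeal) | N.IsSymm ∧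
      Rs (rd v (ε v • sy m)) (Ideal.Quotient.mk v.asIdeal (ε v) • N)}.ncard :=
    Set.ncard_image_le (Set.toFinite _)
  have h3 : 4 * (Ac_SE ε m i₀ v).ncard ≤ Nv v ^ 3 * (Nv v + 1) ^ 2 := (Nat.mul_le_mul_left 4 h2).trans h1
  have h4 : 4 * ((Ac_SE ε m i₀ v).ncard : ℝ) ≤ (Nv v : ℝ) ^ 3 * ((Nv v : ℝ) + 1) ^ 2 := by exact_mod_cast h3
  have h5 : (0 : ℝ) < Nv v := by
    have := two_le_Nv v
    exact_mod_cast (by omega : 0 < Nv v)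
  have h6 : (Nv v : ℝ) ^ 5 * rho v = (Nv v : ℝ) ^ 3 * ((Nv v : ℝ) + 1) ^ 2 / 4 := by
    unfold rho
    field_simp
  rw [h6]
  linarith

end

variable (K : Type) [Field K] [NumberField K]

theorem cnt_NE : ∃ C : ℝ, 1 ≤ C ∧ ∀ (ε : HeightOneSpectrum (𝓞 K) → 𝓞 K)
    (T : Finset (HeightOneSpectrum (𝓞 K))) (m : Fin 6 → 𝓞 K)
    (i₀ : Fin 6) (t : Fin 6 → ℝ), (∀ i, 0 ≤ t i) → cf m i₀ ≠ 0 →
    (∀ v ∈ T, (6 : 𝓞 K) ∉ v.asIdeal ∧ (sy m).det ∉ v.asIdeal) →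
    (∀ v ∈ T, ε v ∉ v.asIdeal) →
    ({y : Fin 6 → 𝓞 K | (∀ i, y i ∈ bx K (t i)) ∧ ∑ i, cf m i * y i = 0 ∧
      ∀ v ∈ T, RT ε v (sy m) (sy y)}.ncard : ℝ) ≤
    (∏ v ∈ T, (Nv v : ℝ)) ^ 5 * (∏ v ∈ T, rho v) *
      ∏ j : Fin 5, (C * (t (i₀.succAbove j) ^ (Module.finrank ℚ K) /
        (∏ v ∈ T, (Nv v : ℝ)) + 1)) := by
  obtain ⟨C, hC1, hC⟩ := count_primes K
  refine ⟨C, hC1, ?_⟩
  intro ε T m i₀ t ht hcf hT hε
  have h0 := hC (Fin 5) T (Ac_SE ε m i₀) (fun j => t (i₀.succAbove j)) (fun j => ht _)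
  obtain ⟨A, hA⟩ : ∃ A : Set (Fin 6 → 𝓞 K), A = {y : Fin 6 → 𝓞 K | (∀ i, y i ∈ bx K (t i)) ∧
    ∑ i, cf m i * y i = 0 ∧ ∀ v ∈ T, RT ε v (sy m) (sy y)} := ⟨_, rfl⟩
  obtain ⟨B, hB⟩ : ∃ B : Set (Fin 5 → 𝓞 K), B = {x : Fin 5 → 𝓞 K | (∀ i, x i ∈ bx K (t (i₀.succAbove i))) ∧
        ∀ v ∈ T, (fun i => Ideal.Quotient.mk v.asIdeal (x i)) ∈ Ac_SE ε m i₀ v} := ⟨_, rfl⟩
  rw [← hA]
  rw [← hB] at h0
  have hBf : B.Finite := by
    refine Set.Finite.subset (Set.Finite.pi' fun i : Fin 5 => bx_finite K (t (i₀.succAbove i))) ?_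
    intro x hx
    rw [hB] at hx
    exact hx.1
  have hAB : A.ncard ≤ B.ncard := by
    refine Set.ncard_le_ncard_of_injOn (fun y => fun j => y (i₀.succAbove j)) ?_ ?_ hBf
    · intro y hy
      rw [hA] at hy
      rw [hB]
      refine ⟨fun i => hy.1 _, fun v hv => ⟨rd v (sy y), ⟨?_, ?_⟩, ?_⟩⟩
      · rw [rd_sy]
        exact sy_symm _
      · have h1 := hy.2.2 v hv
        unfold RT at h1
        rw [rd_smul v (ε v) (sy y)] at h1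
        exact h1
      · funext j
        show en (rd v (sy y)) (i₀.succAbove j) = _
        rw [rd_sy, en_sy]
    · intro y hy y' hy' h
      rw [hA] at hy hy'
      have h1 : ∀ j, y (i₀.succAbove j) = y' (i₀.succAbove j) := fun j => congrFun h j
      have h2 := hy.2.1
      have h3 := hy'.2.1
      rw [Fin.sum_univ_succAbove _ i₀] at h2 h3
      have h4 : ∑ j : Fin 5, cf m (i₀.succAbove j) * y (i₀.succAbove j) =
          ∑ j : Fin 5, cf m (i₀.succAbove j) * y' (i₀.succAbove j) :=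
        Finset.sum_congr rfl fun j _ => by rw [h1 j]
      have h5 : cf m i₀ * y i₀ = cf m i₀ * y' i₀ := by
        rw [h4] at h2
        linear_combination h2 - h3
      have h6 : y i₀ = y' i₀ := mul_left_cancel₀ hcf h5
      funext i
      rcases Fin.eq_self_or_eq_succAbove i₀ i with h7 | ⟨j, h7⟩
      · rw [h7]; exact h6
      · rw [h7]; exact h1 j
  have h1 : (A.ncard : ℝ) ≤ B.ncard := by exact_mod_cast hAB
  refine h1.trans (h0.trans ?_)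
  refine mul_le_mul_of_nonneg_right ?_ (Finset.prod_nonneg fun j _ => ?_)
  · rw [← Finset.prod_pow, ← Finset.prod_mul_distrib]
    exact Finset.prod_le_prod (fun v _ => Nat.cast_nonneg _) fun v hv =>
      Ac_cardE ε m i₀ v (hT v hv).1 (hε v hv) (hT v hv).2
  · have h2 : 0 ≤ t (i₀.succAbove j) := ht _
    have h3 : (0 : ℝ) ≤ ∏ v ∈ T, (Nv v : ℝ) := Finset.prod_nonneg fun v _ => Nat.cast_nonneg _
    have h4 : 0 ≤ t (i₀.succAbove j) ^ (Module.finrank ℚ K) / (∏ v ∈ T, (Nv v : ℝ)) := by positivity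
    exact mul_nonneg (by linarith) (by linarith)

end H54MQ

end S_H54_MQ_Ac

section S_H54_MQ_Bh

set_option autoImplicit false
set_option linter.unusedSectionVars false
open scoped Classical

open NumberField IsDedekindDomain H76PP H54PP
open scoped Matrix

namespace H54MQ


variable (K : Type) [Field K] [NumberField K]

private theorem Bh_alg {Q C x0 x1 x2 x4 x5 : ℝ} (hQ : 0 < Q) (hC : 1 ≤ C) (h0 : 1 ≤ x0)
    (h1 : Q ≤ x1) (h2 : Q ≤ x2) (h4 : Q ≤ x4) (h5 : Q ≤ x5) :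
    Q ^ 5 * ((C * (x0 / Q + 1)) * (C * (x1 / Q + 1)) * (C * (x2 / Q + 1)) * (C * (x4 / Q + 1)) *
      (C * (x5 / Q + 1))) ≤ 16 * C ^ 5 * ((x0 * x1 * x2 * x4 * x5) * (1 + Q / x0)) := by
  have hC0 : 0 < C := by linarith
  have hx0 : 0 < x0 := by linarith
  have key : ∀ x, Q ≤ x → 0 ≤ C * (x / Q + 1) ∧ C * (x / Q + 1) ≤ C * (2 * (x / Q)) := by
    intro x hx
    have h : 1 ≤ x / Q := (one_le_div hQ).2 hx
    refine ⟨by positivity, mul_le_mul_of_nonneg_left (by linarith) hC0.le⟩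
  have e0 : C * (x0 / Q + 1) = C * ((x0 / Q) * (1 + Q / x0)) := by
    field_simp
  have h00 : 0 ≤ C * (x0 / Q + 1) := by positivity
  have p1 : 0 < x1 := lt_of_lt_of_le hQ h1
  have p2 : 0 < x2 := lt_of_lt_of_le hQ h2
  have p4 : 0 < x4 := lt_of_lt_of_le hQ h4
  have p5 : 0 < x5 := lt_of_lt_of_le hQ h5
  obtain ⟨a1, b1⟩ := key x1 h1
  obtain ⟨a2, b2⟩ := key x2 h2
  obtain ⟨a4, b4⟩ := key x4 h4
  obtain ⟨a5, b5⟩ := key x5 h5
  have hp : (C * (x0 / Q + 1)) * (C * (x1 / Q + 1)) * (C * (x2 / Q + 1)) * (C * (x4 / Q + 1)) *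
      (C * (x5 / Q + 1)) ≤ (C * (x0 / Q + 1)) * (C * (2 * (x1 / Q))) * (C * (2 * (x2 / Q))) *
      (C * (2 * (x4 / Q))) * (C * (2 * (x5 / Q))) := by
    gcongr
  calc Q ^ 5 * ((C * (x0 / Q + 1)) * (C * (x1 / Q + 1)) * (C * (x2 / Q + 1)) *
        (C * (x4 / Q + 1)) * (C * (x5 / Q + 1))) ≤
        Q ^ 5 * ((C * (x0 / Q + 1)) * (C * (2 * (x1 / Q))) * (C * (2 * (x2 / Q))) *
      (C * (2 * (x4 / Q))) * (C * (2 * (x5 / Q)))) := mul_le_mul_of_nonneg_left hp (by positivity)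
    _ = 16 * C ^ 5 * ((x0 * x1 * x2 * x4 * x5) * (1 + Q / x0)) := by
        rw [e0]
        field_simp
        ring

theorem cnt_yE : ∃ C : ℝ, 1 ≤ C ∧ ∀ (ε : HeightOneSpectrum (𝓞 K) → 𝓞 K) (X τ G : ℝ) (T : Finset (HeightOneSpectrum (𝓞 K)))
    (m : Fin 6 → 𝓞 K), 0 < τ → τ ≤ 1 → 1 ≤ G → 1 ≤ 2 * X * τ ^ 2 →
    (∀ v ∈ T, (6 : 𝓞 K) ∉ v.asIdeal ∧ (G ^ 4) ^ (Module.finrank ℚ K) < (Nv v : ℝ)) →
    (∀ v ∈ T, ε v ∉ v.asIdeal) →
    (∏ v ∈ T, (Nv v : ℝ)) ^ 2 ≤ (2 * X) ^ (Module.finrank ℚ K) → TgM τ G m →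
    {y : Fin 6 → 𝓞 K | TgtE ε X τ G T m y}.Finite ∧
    ({y : Fin 6 → 𝓞 K | TgtE ε X τ G T m y}.ncard : ℝ) ≤
      C * (G ^ (6 * Module.finrank ℚ K) * (∏ v ∈ T, rho v) * X ^ (5 * Module.finrank ℚ K) *
        (1 + (∏ v ∈ T, (Nv v : ℝ)) / (2 * X * τ ^ 2) ^ (Module.finrank ℚ K))) := by
  obtain ⟨C, hC1, hC⟩ := cnt_NE K
  have hn : 0 < Module.finrank ℚ K := Module.finrank_pos
  obtain ⟨n, hnd⟩ : ∃ n, n = Module.finrank ℚ K := ⟨_, rfl⟩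
  rw [← hnd] at hn
  refine ⟨16 * C ^ 5 * 2 ^ (5 * n), ?_, ?_⟩
  · have h1 : (1 : ℝ) ≤ C ^ 5 := one_le_pow₀ hC1
    have h2 : (1 : ℝ) ≤ 2 ^ (5 * n) := one_le_pow₀ (by norm_num)
    nlinarith
  intro ε X τ G T m hτ hτ1 hG hXτ hT hε hQ2 htm
  rw [← hnd] at hT hQ2 ⊢
  have hτ2 : 0 < τ ^ 2 := by positivity
  have hX : 0 < X := by
    by_contra hX
    have h1 : X ≤ 0 := not_lt.1 hX
    have h2 : X * τ ^ 2 ≤ 0 := mul_nonpos_of_nonpos_of_nonneg h1 hτ2.le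
    linarith
  have hG0 : 0 < G := by linarith
  have hG2 : 1 ≤ G ^ 2 := one_le_pow₀ hG
  have hτ21 : τ ^ 2 ≤ 1 := pow_le_one₀ hτ.le hτ1
  have h2X : 1 ≤ 2 * X := by nlinarith
  have hQpos : 0 < ∏ v ∈ T, (Nv v : ℝ) :=
    Finset.prod_pos fun v _ => by
      have := two_le_Nv v
      exact_mod_cast (by omega : 0 < Nv v)
  have htt : ∀ i, 0 ≤ tt X τ G i := by
    intro i
    unfold tt
    fin_cases i
    · change 0 ≤ 2 * X * τ ^ 2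
      positivity
    · change 0 ≤ 2 * X * G * τ
      positivity
    · change 0 ≤ 2 * X * G
      positivity
    · change 0 ≤ 2 * X * G ^ 2
      positivity
    · change 0 ≤ 2 * X * G ^ 2 / τ
      positivity
    · change 0 ≤ 2 * X * G ^ 2 / τ ^ 2
      positivity
  have hcf : cf m 3 ≠ 0 := by
    have h1 : cf m 3 = -(m 2 ^ 2) := by
      change m 0 * m 5 - m 2 ^ 2 = -(m 2 ^ 2)
      rw [htm.m0]
      ring
    rw [h1]
    exact neg_ne_zero.2 (pow_ne_zero 2 htm.n2)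
  have hdet : (sy m).det = -(m 2 * m 2 * m 3) := by
    rw [Matrix.det_fin_three]
    change m 0 * m 3 * m 5 - m 0 * m 4 * m 4 - m 1 * m 1 * m 5 + m 1 * m 4 * m 2 + m 2 * m 1 * m 4 -
      m 2 * m 3 * m 2 = _
    rw [htm.m0, htm.m1]
    ring
  have hdetv : ∀ v ∈ T, (6 : 𝓞 K) ∉ v.asIdeal ∧ (sy m).det ∉ v.asIdeal := by
    intro v hv
    obtain ⟨h6, hv2⟩ := hT v hv
    refine ⟨h6, ?_⟩
    have hb : (sy m).det ∈ bx K (G ^ 4) := by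
      rw [hdet]
      have h1 := bx_neg (bx_mul (bx_mul htm.b2 htm.b2) htm.b3)
      have h2 : G * G * G ^ 2 = G ^ 4 := by ring
      rwa [h2] at h1
    have hne : (sy m).det ≠ 0 := by
      rw [hdet]
      exact neg_ne_zero.2 (mul_ne_zero (mul_ne_zero htm.n2 htm.n2) htm.n3)
    exact not_mem_of_lt hb hne (by rw [← hnd]; exact hv2)
  have hbox : {y : Fin 6 → 𝓞 K | ∀ i, y i ∈ bx K (tt X τ G i)}.Finite :=
    Set.Finite.pi' fun i => bx_finite K _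
  have hfin1 : {y : Fin 6 → 𝓞 K | TgtE ε X τ G T m y}.Finite := hbox.subset fun y hy => hy.bd
  have hfin2 : {y : Fin 6 → 𝓞 K | (∀ i, y i ∈ bx K (tt X τ G i)) ∧ ∑ i, cf m i * y i = 0 ∧
      ∀ v ∈ T, RT ε v (sy m) (sy y)}.Finite := hbox.subset fun y hy => hy.1
  refine ⟨hfin1, ?_⟩
  have hle : ({y : Fin 6 → 𝓞 K | TgtE ε X τ G T m y}.ncard : ℝ) ≤
      ({y : Fin 6 → 𝓞 K | (∀ i, y i ∈ bx K (tt X τ G i)) ∧ ∑ i, cf m i * y i = 0 ∧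
      ∀ v ∈ T, RT ε v (sy m) (sy y)}.ncard : ℝ) := by
    have h1 := Set.ncard_le_ncard (s := {y : Fin 6 → 𝓞 K | TgtE ε X τ G T m y})
      (t := {y : Fin 6 → 𝓞 K | (∀ i, y i ∈ bx K (tt X τ G i)) ∧ ∑ i, cf m i * y i = 0 ∧
      ∀ v ∈ T, RT ε v (sy m) (sy y)})
      (fun y hy => ⟨hy.bd, hy.tr, fun v hv => hy.rs v hv (hdetv v hv).2⟩) hfin2
    exact_mod_cast h1
  have hcn := hC ε T m 3 (tt X τ G) htt hcf hdetv hε
  rw [← hnd, Fin.prod_univ_five] at hcn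
  have e0 : tt X τ G ((3 : Fin 6).succAbove 0) = 2 * X * τ ^ 2 := rfl
  have e1 : tt X τ G ((3 : Fin 6).succAbove 1) = 2 * X * G * τ := rfl
  have e2 : tt X τ G ((3 : Fin 6).succAbove 2) = 2 * X * G := rfl
  have e3 : tt X τ G ((3 : Fin 6).succAbove 3) = 2 * X * G ^ 2 / τ := rfl
  have e4 : tt X τ G ((3 : Fin 6).succAbove 4) = 2 * X * G ^ 2 / τ ^ 2 := rfl
  rw [e0, e1, e2, e3, e4] at hcn
  have hbig : ∀ t : ℝ, 0 ≤ t → 2 * X ≤ t ^ 2 → ∏ v ∈ T, (Nv v : ℝ) ≤ t ^ n := by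
    intro t ht h1
    have h2 : (2 * X) ^ n ≤ (t ^ 2) ^ n := pow_le_pow_left₀ (by linarith) h1 n
    have h3 : (∏ v ∈ T, (Nv v : ℝ)) ^ 2 ≤ (t ^ n) ^ 2 := by
      rw [← pow_mul, mul_comm n 2, pow_mul]
      exact hQ2.trans h2
    exact (pow_le_pow_iff_left₀ hQpos.le (by positivity) two_ne_zero).1 h3
  have g1 : 2 * X ≤ (2 * X * G * τ) ^ 2 := by
    have h1 : (2 * X * G * τ) ^ 2 = (2 * X) * ((2 * X * τ ^ 2) * G ^ 2) := by ring
    rw [h1]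
    have h2 : 1 ≤ (2 * X * τ ^ 2) * G ^ 2 := one_le_mul_of_one_le_of_one_le hXτ hG2
    exact le_mul_of_one_le_right (by linarith) h2
  have hsq : ∀ t : ℝ, 2 * X ≤ t → 2 * X ≤ t ^ 2 := by
    intro t ht
    nlinarith
  have g2 : 2 * X ≤ 2 * X * G := le_mul_of_one_le_right (by linarith) hG
  have g3 : 2 * X ≤ 2 * X * G ^ 2 / τ := by
    rw [le_div_iff₀ hτ]
    have h1 : 2 * X * τ ≤ 2 * X * 1 := mul_le_mul_of_nonneg_left hτ1 (by linarith)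
    have h2 : 2 * X * 1 ≤ 2 * X * G ^ 2 := mul_le_mul_of_nonneg_left hG2 (by linarith)
    exact h1.trans h2
  have g4 : 2 * X ≤ 2 * X * G ^ 2 / τ ^ 2 := by
    rw [le_div_iff₀ hτ2]
    have h1 : 2 * X * τ ^ 2 ≤ 2 * X * 1 := mul_le_mul_of_nonneg_left hτ21 (by linarith)
    have h2 : 2 * X * 1 ≤ 2 * X * G ^ 2 := mul_le_mul_of_nonneg_left hG2 (by linarith)
    exact h1.trans h2
  have halg := Bh_alg (Q := ∏ v ∈ T, (Nv v : ℝ)) (C := C) (x0 := (2 * X * τ ^ 2) ^ n)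
    (x1 := (2 * X * G * τ) ^ n) (x2 := (2 * X * G) ^ n) (x4 := (2 * X * G ^ 2 / τ) ^ n)
    (x5 := (2 * X * G ^ 2 / τ ^ 2) ^ n) hQpos hC1 (one_le_pow₀ hXτ)
    (hbig _ (by positivity) g1) (hbig _ (by positivity) (hsq _ g2))
    (hbig _ (by positivity) (hsq _ g3)) (hbig _ (by positivity) (hsq _ g4))
  have hrho : 0 ≤ ∏ v ∈ T, rho v := Finset.prod_nonneg fun v _ => by
    unfold rho
    positivity
  have hprod : (2 * X * τ ^ 2) ^ n * (2 * X * G * τ) ^ n * (2 * X * G) ^ n *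
      (2 * X * G ^ 2 / τ) ^ n * (2 * X * G ^ 2 / τ ^ 2) ^ n =
      2 ^ (5 * n) * (G ^ (6 * n) * X ^ (5 * n)) := by
    rw [← mul_pow, ← mul_pow, ← mul_pow, ← mul_pow, pow_mul, pow_mul, pow_mul, ← mul_pow, ← mul_pow]
    congr 1
    field_simp
  rw [hprod] at halg
  refine hle.trans (hcn.trans ?_)
  have h9 := mul_le_mul_of_nonneg_left halg hrho
  calc (∏ v ∈ T, (Nv v : ℝ)) ^ 5 * (∏ v ∈ T, rho v) *
        (C * ((2 * X * τ ^ 2) ^ n / (∏ v ∈ T, (Nv v : ℝ)) + 1) *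
          (C * ((2 * X * G * τ) ^ n / (∏ v ∈ T, (Nv v : ℝ)) + 1)) *
          (C * ((2 * X * G) ^ n / (∏ v ∈ T, (Nv v : ℝ)) + 1)) *
          (C * ((2 * X * G ^ 2 / τ) ^ n / (∏ v ∈ T, (Nv v : ℝ)) + 1)) *
          (C * ((2 * X * G ^ 2 / τ ^ 2) ^ n / (∏ v ∈ T, (Nv v : ℝ)) + 1))) =
      (∏ v ∈ T, rho v) * ((∏ v ∈ T, (Nv v : ℝ)) ^ 5 *
        (C * ((2 * X * τ ^ 2) ^ n / (∏ v ∈ T, (Nv v : ℝ)) + 1) *
          (C * ((2 * X * G * τ) ^ n / (∏ v ∈ T, (Nv v : ℝ)) + 1)) *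
          (C * ((2 * X * G) ^ n / (∏ v ∈ T, (Nv v : ℝ)) + 1)) *
          (C * ((2 * X * G ^ 2 / τ) ^ n / (∏ v ∈ T, (Nv v : ℝ)) + 1)) *
          (C * ((2 * X * G ^ 2 / τ ^ 2) ^ n / (∏ v ∈ T, (Nv v : ℝ)) + 1)))) := by ring
    _ ≤ _ := h9
    _ = 16 * C ^ 5 * 2 ^ (5 * n) * (G ^ (6 * n) * (∏ v ∈ T, rho v) * X ^ (5 * n) *
        (1 + (∏ v ∈ T, (Nv v : ℝ)) / (2 * X * τ ^ 2) ^ n)) := by ring

end H54MQ

end S_H54_MQ_Bh

section S_H54_MQ_Bi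

set_option autoImplicit false
set_option linter.unusedSectionVars false
open scoped Classical

open NumberField IsDedekindDomain H76PP H54PP
open scoped Matrix

namespace H54MQ


variable (K : Type) [Field K] [NumberField K]

theorem cnt_TgtE {G : ℝ} (hG : 1 ≤ G) : ∃ C : ℝ, 0 < C ∧
    ∀ (ε : HeightOneSpectrum (𝓞 K) → 𝓞 K) (X τ : ℝ) (T : Finset (HeightOneSpectrum (𝓞 K))), 0 < τ → τ ≤ 1 → 1 ≤ 2 * X * τ ^ 2 →
    (∀ v ∈ T, (6 : 𝓞 K) ∉ v.asIdeal ∧ (G ^ 4) ^ (Module.finrank ℚ K) < (Nv v : ℝ)) →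
    (∀ v ∈ T, ε v ∉ v.asIdeal) →
    (∏ v ∈ T, (Nv v : ℝ)) ^ 2 ≤ (2 * X) ^ (Module.finrank ℚ K) →
    {p : (Fin 6 → 𝓞 K) × (Fin 6 → 𝓞 K) | TgtE ε X τ G T p.1 p.2}.Finite ∧
    ({p : (Fin 6 → 𝓞 K) × (Fin 6 → 𝓞 K) | TgtE ε X τ G T p.1 p.2}.ncard : ℝ) ≤
      C * ((1 / τ) ^ (3 * Module.finrank ℚ K) * (∏ v ∈ T, rho v) *
        X ^ (5 * Module.finrank ℚ K) *
        (1 + (∏ v ∈ T, (Nv v : ℝ)) / (2 * X * τ ^ 2) ^ (Module.finrank ℚ K))) := by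
  obtain ⟨C, hC1, hC⟩ := cnt_TgM K
  obtain ⟨C', hC1', hC'⟩ := cnt_yE K
  have hG0 : 0 < G := by linarith
  refine ⟨C' * C * G ^ (13 * Module.finrank ℚ K), by positivity, ?_⟩
  intro ε X τ T hτ hτ1 hX hT hε hQ
  have hX0 : 0 < X := by
    by_contra h
    push Not at h
    have h1 : 2 * X * τ ^ 2 ≤ 0 :=
      mul_nonpos_of_nonpos_of_nonneg (by linarith) (by positivity)
    linarith
  have hy := fun m (hm : TgM τ G m) => hC' ε X τ G T m hτ hτ1 hG hX hT hε hQ hm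
  have hS := TgM_finite K τ G
  have hfin : {p : (Fin 6 → 𝓞 K) × (Fin 6 → 𝓞 K) | TgtE ε X τ G T p.1 p.2}.Finite := by
    have h1 : (⋃ m ∈ {m : Fin 6 → 𝓞 K | TgM τ G m},
        (fun y : Fin 6 → 𝓞 K => (m, y)) '' {y | TgtE ε X τ G T m y}).Finite :=
      hS.biUnion fun m hm => (hy m hm).1.image _
    refine h1.subset ?_
    rintro ⟨m, y⟩ h
    have h2 : TgtE ε X τ G T m y := h
    exact Set.mem_biUnion (show m ∈ {m : Fin 6 → 𝓞 K | TgM τ G m} from h2.tm) ⟨y, h2, rfl⟩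
  refine ⟨hfin, ?_⟩
  have hρ : 0 ≤ ∏ v ∈ T, rho v := Finset.prod_nonneg fun v _ => by
    unfold rho
    positivity
  have hN : 0 ≤ ∏ v ∈ T, (Nv v : ℝ) := Finset.prod_nonneg fun v _ => Nat.cast_nonneg _
  obtain ⟨W, hW⟩ : ∃ W : ℝ, W = 1 + (∏ v ∈ T, (Nv v : ℝ)) /
    (2 * X * τ ^ 2) ^ (Module.finrank ℚ K) := ⟨_, rfl⟩
  have hW0 : 0 ≤ W := by
    rw [hW]
    positivity
  rw [← hW] at hy ⊢
  obtain ⟨R, hR⟩ : ∃ R : ℝ, R = ∏ v ∈ T, rho v := ⟨_, rfl⟩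
  rw [← hR] at hρ hy ⊢
  obtain ⟨b, hb⟩ : ∃ b : ℝ, b = C' * (G ^ (6 * Module.finrank ℚ K) * R *
    X ^ (5 * Module.finrank ℚ K) * W) := ⟨_, rfl⟩
  rw [← hb] at hy
  have hb0 : 0 ≤ b := by
    rw [hb]
    positivity
  have h1 : hfin.toFinset.card ≤ ⌊b⌋₊ * (hfin.toFinset.image Prod.fst).card := by
    apply Finset.card_le_mul_card_image
    intro m hm
    obtain ⟨p, hp, hpm⟩ := Finset.mem_image.1 hm
    have hp' : TgtE ε X τ G T p.1 p.2 := (Set.Finite.mem_toFinset hfin).1 hp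
    rw [hpm] at hp'
    apply Nat.le_floor
    refine le_trans ?_ (hy m hp'.tm).2
    rw [Set.ncard_eq_toFinset_card _ (hy m hp'.tm).1]
    have h2 : (hfin.toFinset.filter (fun x => x.1 = m)).card ≤ (hy m hp'.tm).1.toFinset.card := by
      refine Finset.card_le_card_of_injOn Prod.snd ?_ ?_
      · intro q hq
        rw [Finset.mem_coe, Finset.mem_filter, Set.Finite.mem_toFinset] at hq
        rw [Finset.mem_coe, Set.Finite.mem_toFinset]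
        have h3 : TgtE ε X τ G T q.1 q.2 := hq.1
        rw [hq.2] at h3
        exact h3
      · intro q hq q' hq' h
        rw [Finset.mem_coe, Finset.mem_filter] at hq hq'
        exact Prod.ext (hq.2.trans hq'.2.symm) h
    exact_mod_cast h2
  have h2 : (hfin.toFinset.image Prod.fst).card ≤ {m : Fin 6 → 𝓞 K | TgM τ G m}.ncard := by
    rw [Set.ncard_eq_toFinset_card _ hS]
    apply Finset.card_le_card
    intro m hm
    obtain ⟨p, hp, hpm⟩ := Finset.mem_image.1 hm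
    have hp' : TgtE ε X τ G T p.1 p.2 := (Set.Finite.mem_toFinset hfin).1 hp
    rw [hpm] at hp'
    exact (Set.Finite.mem_toFinset hS).2 hp'.tm
  rw [Set.ncard_eq_toFinset_card _ hfin]
  calc ((hfin.toFinset.card : ℕ) : ℝ)
      ≤ ((⌊b⌋₊ * (hfin.toFinset.image Prod.fst).card : ℕ) : ℝ) := by exact_mod_cast h1
    _ = (⌊b⌋₊ : ℝ) * ((hfin.toFinset.image Prod.fst).card : ℝ) := by push_cast; ring
    _ ≤ b * (C * (G ^ (7 * Module.finrank ℚ K) * (1 / τ) ^ (3 * Module.finrank ℚ K))) := by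
        refine mul_le_mul (Nat.floor_le hb0) ?_ (Nat.cast_nonneg _) hb0
        refine le_trans ?_ (hC τ G hτ hτ1 hG)
        exact_mod_cast h2
    _ = _ := by
        rw [hb]
        have h3 : G ^ (13 * Module.finrank ℚ K) =
            G ^ (6 * Module.finrank ℚ K) * G ^ (7 * Module.finrank ℚ K) := by
          rw [← pow_add]
          congr 1
          ring
        rw [h3]
        ring

end H54MQ

end S_H54_MQ_Bi

section S_H54_MQ_Bj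

set_option autoImplicit false
set_option linter.unusedSectionVars false
open scoped Classical

open NumberField IsDedekindDomain H76PP H54PP
open scoped Matrix

namespace H54MQ

variable {K : Type} [Field K] [NumberField K]

theorem to_tgtE {ε : HeightOneSpectrum (𝓞 K) → 𝓞 K} {X C₂ τ : ℝ} (hC : 1 ≤ C₂) (hτ : τ ≤ c5 C₂)
    {T : Finset (HeightOneSpectrum (𝓞 K))} {A B : 𝓞 K} {l : Fin 3 → ℝ}
    {M N : Matrix (Fin 3) (Fin 3) (𝓞 K)} (h : DatE ε X C₂ T A B l M N) (hl : l 0 < c5 C₂)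
    (h0 : τ / 2 < l 0) (h0' : l 0 ≤ τ) {a b c : 𝓞 K} (ha : a ∈ bx K (1 / τ))
    (hb : b ∈ bx K (1 / τ)) (hc : c ∈ bx K (1 / τ ^ 2)) :
    TgtE ε X τ (3 * C₂ + 1) T (en ((pm a b c)ᵀ * M * pm a b c))
      (en ((pm a b c)ᵀ * N * pm a b c)) := by
  have h1 := to_tgt hC hτ h.dat hl h0 h0' ha hb hc
  refine ⟨h1.tm, h1.tr, h1.bd, fun v hv hd => ?_⟩
  have hM' := conj_symm h.dat.symM (pm a b c)
  have hN' := conj_symm h.dat.symN (pm a b c)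
  rw [sy_en hM'] at hd ⊢
  rw [sy_en hN']
  rw [conj_det _ (pm_det a b c)] at hd
  exact RT_conj (pm_det a b c) (h.res v hv hd)

variable (K)

theorem BdE_finite (ε : HeightOneSpectrum (𝓞 K) → 𝓞 K) (X C₂ : ℝ) (T : Finset (HeightOneSpectrum (𝓞 K))) (L : ℝ → Prop) :
    (BdE K ε X C₂ T L).Finite := by
  have h : (Bx K X).Finite := by
    have h1 : Bx K X = bx K (X ^ 2) ×ˢ bx K (X ^ 3) := by
      ext p
      exact Iff.rfl
    rw [h1]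
    exact (bx_finite K _).prod (bx_finite K _)
  exact h.subset fun p hp => hp.1

theorem cnt_BdE {C₂ : ℝ} (hC : 1 ≤ C₂) : ∃ C : ℝ, 0 < C ∧
    ∀ (ε : HeightOneSpectrum (𝓞 K) → 𝓞 K) (X τ : ℝ) (T : Finset (HeightOneSpectrum (𝓞 K))), 0 < τ → τ ≤ c5 C₂ → 1 ≤ 2 * X * τ ^ 2 →
    (∀ v ∈ T, (6 : 𝓞 K) ∉ v.asIdeal ∧
      ((3 * C₂ + 1) ^ 4) ^ (Module.finrank ℚ K) < (Nv v : ℝ)) →
    (∀ v ∈ T, ε v ∉ v.asIdeal) →
    (∏ v ∈ T, (Nv v : ℝ)) ^ 2 ≤ (2 * X) ^ (Module.finrank ℚ K) →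
    ((BdE K ε X C₂ T (fun x => x < c5 C₂ ∧ τ / 2 < x ∧ x ≤ τ)).ncard : ℝ) ≤
      C * ((∏ v ∈ T, rho v) * X ^ (5 * Module.finrank ℚ K) *
        (τ ^ (Module.finrank ℚ K) *
        (1 + (∏ v ∈ T, (Nv v : ℝ)) / (2 * X * τ ^ 2) ^ (Module.finrank ℚ K)))) := by
  have hG : 1 ≤ 3 * C₂ + 1 := by linarith
  obtain ⟨C, hC0, hCt⟩ := cnt_TgtE K hG
  obtain ⟨c, hc0, hc⟩ := bx_lower K
  refine ⟨C / c ^ 3, by positivity, ?_⟩
  intro ε X τ T hτ0 hτ h1 hT hε hW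
  have hτ1 : τ ≤ 1 := by
    have := c5_le hC
    linarith
  obtain ⟨hF, hcard⟩ := hCt ε X τ T hτ0 hτ1 h1 hT hε hW
  have hdat : ∀ p : 𝓞 K × 𝓞 K, ∃ D : (Fin 3 → ℝ) × (Matrix (Fin 3) (Fin 3) (𝓞 K) ×
      Matrix (Fin 3) (Fin 3) (𝓞 K)), p ∈ BdE K ε X C₂ T (fun x => x < c5 C₂ ∧ τ / 2 < x ∧ x ≤ τ) →
      DatE ε X C₂ T p.1 p.2 D.1 D.2.1 D.2.2 ∧ (D.1 0 < c5 C₂ ∧ τ / 2 < D.1 0 ∧ D.1 0 ≤ τ) := by
    intro p
    by_cases hp : p ∈ BdE K ε X C₂ T (fun x => x < c5 C₂ ∧ τ / 2 < x ∧ x ≤ τ)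
    · obtain ⟨-, l, M, N, h, hl⟩ := id hp
      exact ⟨(l, (M, N)), fun _ => ⟨h, hl⟩⟩
    · exact ⟨(0, (0, 0)), fun h => absurd h hp⟩
  choose D hD using hdat
  have key := Bj_card (S := BdE K ε X C₂ T (fun x => x < c5 C₂ ∧ τ / 2 < x ∧ x ≤ τ))
    (b1 := bx K (1 / τ)) (b2 := bx K (1 / τ ^ 2)) hF
    (fun q => (en ((pm q.2.1 q.2.2.1 q.2.2.2)ᵀ * (D q.1).2.1 * pm q.2.1 q.2.2.1 q.2.2.2),
      en ((pm q.2.1 q.2.2.1 q.2.2.2)ᵀ * (D q.1).2.2 * pm q.2.1 q.2.2.1 q.2.2.2)))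
    (by
      rintro ⟨p, a, b, c⟩ ⟨hp, ha, hb, hc⟩
      obtain ⟨h, hl1, hl2, hl3⟩ := hD p hp
      exact to_tgtE hC hτ h hl1 hl2 hl3 ha hb hc)
    (by
      rintro ⟨p, a, b, c⟩ ⟨hp, ha, hb, hc⟩ ⟨p', a', b', c'⟩ ⟨hp', ha', hb', hc'⟩ he
      obtain ⟨h, -⟩ := hD p hp
      obtain ⟨h', -⟩ := hD p' hp'
      obtain ⟨e1, e2⟩ := Prod.mk.inj he
      obtain ⟨i1, i2⟩ := same_pair h.dat h'.dat e1 e2
      have i3 : p = p' := Prod.ext i1 i2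
      subst i3
      obtain ⟨j1, j2, j3⟩ := same_P h.dat e1 e2
      exact Prod.ext rfl (Prod.ext j1 (Prod.ext j2 j3)))
  have key2 : ((BdE K ε X C₂ T (fun x => x < c5 C₂ ∧ τ / 2 < x ∧ x ≤ τ)).ncard : ℝ) *
      (((bx K (1 / τ)).ncard : ℝ) * (((bx K (1 / τ)).ncard : ℝ) *
      ((bx K (1 / τ ^ 2)).ncard : ℝ))) ≤
      ({p : (Fin 6 → 𝓞 K) × (Fin 6 → 𝓞 K) | TgtE ε X τ (3 * C₂ + 1) T p.1 p.2}.ncard : ℝ) := by
    exact_mod_cast key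
  have key3 := key2.trans hcard
  have e : C * ((1 / τ) ^ (3 * Module.finrank ℚ K) * (∏ v ∈ T, rho v) *
        X ^ (5 * Module.finrank ℚ K) *
        (1 + (∏ v ∈ T, (Nv v : ℝ)) / (2 * X * τ ^ 2) ^ (Module.finrank ℚ K))) =
      C * ((1 / τ) ^ (3 * Module.finrank ℚ K) * ((∏ v ∈ T, rho v) *
        X ^ (5 * Module.finrank ℚ K) *
        (1 + (∏ v ∈ T, (Nv v : ℝ)) / (2 * X * τ ^ 2) ^ (Module.finrank ℚ K)))) := by ring
  rw [e] at key3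
  have fin := Bj_real hc0 hτ0 (Nat.cast_nonneg _) (hc (1 / τ) (by positivity))
    (hc (1 / τ ^ 2) (by positivity)) key3
  refine fin.trans (le_of_eq ?_)
  ring

end H54MQ

end S_H54_MQ_Bj

section S_H54_MQ_Bl

set_option autoImplicit false
set_option linter.unusedSectionVars false
open scoped Classical

open NumberField IsDedekindDomain H76PP H54PP
open scoped Matrix

namespace H54MQ

variable (K : Type) [Field K] [NumberField K]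

theorem case_twoE {C₂ : ℝ} (hC : 1 ≤ C₂) : ∃ (C : ℝ) (N₀ : ℕ), 0 < C ∧
    ∀ T : Finset (HeightOneSpectrum (𝓞 K)),
      (∀ v ∈ T, N₀ ≤ Nv v ∧ (6 : 𝓞 K) ∉ v.asIdeal) → ∃ X₀ : ℝ, ∀ X : ℝ, X₀ ≤ X →
        ∀ ε : HeightOneSpectrum (𝓞 K) → 𝓞 K, (∀ v ∈ T, ε v ∉ v.asIdeal) →
        ((BdE K ε X C₂ T (fun x => x < c5 C₂)).ncard : ℝ) ≤
          C * (∏ v ∈ T, rho v) * X ^ (5 * Module.finrank ℚ K) := by
  obtain ⟨C, hC0, hcnt⟩ := cnt_BdE K hC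
  obtain ⟨n, hn⟩ : ∃ n : ℕ, n = Module.finrank ℚ K := ⟨_, rfl⟩
  rw [← hn] at hcnt ⊢
  have hn1 : 1 ≤ n := by
    rw [hn]
    exact Module.finrank_pos
  refine ⟨3 * C, ⌈((3 * C₂ + 1) ^ 4) ^ n⌉₊ + 1, by positivity, ?_⟩
  intro T hT
  obtain ⟨Q, hQd⟩ : ∃ Q : ℝ, Q = ∏ v ∈ T, (Nv v : ℝ) := ⟨_, rfl⟩
  have hQ0 : 0 ≤ Q := by
    rw [hQd]
    exact Finset.prod_nonneg fun v _ => Nat.cast_nonneg _
  have hT' : ∀ v ∈ T, (6 : 𝓞 K) ∉ v.asIdeal ∧ ((3 * C₂ + 1) ^ 4) ^ n < (Nv v : ℝ) := by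
    intro v hv
    obtain ⟨h1, h2⟩ := hT v hv
    refine ⟨h2, ?_⟩
    have h3 : ((⌈((3 * C₂ + 1) ^ 4) ^ n⌉₊ + 1 : ℕ) : ℝ) ≤ (Nv v : ℝ) := by exact_mod_cast h1
    have h4 := Nat.le_ceil (((3 * C₂ + 1) ^ 4) ^ n)
    push_cast at h3
    linarith
  refine ⟨Q ^ 2 + 1, fun X hX ε hε => ?_⟩
  have hX1 : 1 ≤ X := by
    have : 0 ≤ Q ^ 2 := by positivity
    linarith
  have hQX : Q ^ 2 ≤ (2 * X) ^ n := by
    calc Q ^ 2 ≤ 2 * X := by linarith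
      _ ≤ (2 * X) ^ n := le_self_pow₀ (by linarith) (by omega)
  have hc0 := c5_pos hC
  have hc1 := c5_le hC
  have hcnt' := fun τ => hcnt ε X τ T
  obtain ⟨c, hcd⟩ : ∃ c : ℝ, c = c5 C₂ := ⟨_, rfl⟩
  rw [← hcd] at hc0 hc1 hcnt' ⊢
  have hW : 0 ≤ (∏ v ∈ T, rho v) * X ^ (5 * n) := mul_nonneg (Bl_rho T) (by positivity)
  by_cases h0 : 1 ≤ 2 * X * c ^ 2
  · obtain ⟨J, hJ, hJ'⟩ := exists_last hc0 h0
    have hsub : BdE K ε X C₂ T (fun x => x < c) ⊆ ⋃ j ∈ Finset.range (J + 1),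
        BdE K ε X C₂ T (fun x => x < c ∧ c / 2 ^ j / 2 < x ∧ x ≤ c / 2 ^ j) := by
      rintro p ⟨hp, l, M, N, hD, hl⟩
      obtain ⟨j, hj1, hj2⟩ := exists_dyadic hc0 hD.dat.pos hl
      have hbig := (shape hC hD.dat (by rw [← hcd]; exact hl)).big
      have hj : j ≤ J := by
        refine hJ' j (hbig.trans (mul_le_mul_of_nonneg_left ?_ (by linarith)))
        rw [pow_two]
        exact mul_le_mul hj2 hj2 hD.dat.pos.le (by positivity)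
      simp only [Set.mem_iUnion]
      exact ⟨j, Finset.mem_range.2 (Nat.lt_succ_of_le hj), hp, l, M, N, hD, hl, hj1, hj2⟩
    have hfin : (⋃ j ∈ Finset.range (J + 1),
        BdE K ε X C₂ T (fun x => x < c ∧ c / 2 ^ j / 2 < x ∧ x ≤ c / 2 ^ j)).Finite :=
      Set.Finite.biUnion (Finset.finite_toSet _) fun j _ => BdE_finite K ε X C₂ T _
    have h1 := (Set.ncard_le_ncard hsub hfin).trans (Finset.set_ncard_biUnion_le _ _)
    have h2 : ((BdE K ε X C₂ T (fun x => x < c)).ncard : ℝ) ≤ ∑ j ∈ Finset.range (J + 1),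
        ((BdE K ε X C₂ T (fun x => x < c ∧ c / 2 ^ j / 2 < x ∧ x ≤ c / 2 ^ j)).ncard : ℝ) := by
      exact_mod_cast h1
    refine h2.trans ?_
    have h3 : ∀ j ∈ Finset.range (J + 1),
        ((BdE K ε X C₂ T (fun x => x < c ∧ c / 2 ^ j / 2 < x ∧ x ≤ c / 2 ^ j)).ncard : ℝ) ≤
        C * ((∏ v ∈ T, rho v) * X ^ (5 * n)) * ((c / 2 ^ j) ^ n *
          (1 + Q / (2 * X * (c / 2 ^ j) ^ 2) ^ n)) := by
      intro j hj
      have hj' : j ≤ J := Nat.lt_succ_iff.1 (Finset.mem_range.1 hj)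
      have h4 := hcnt' (c / 2 ^ j) (by positivity)
        (div_le_self hc0.le (one_le_pow₀ (by norm_num)))
        (Bl_mono hc0 (by linarith) hj' hJ) hT' hε (by rw [← hQd]; exact hQX)
      rw [← hQd] at h4
      refine h4.trans (le_of_eq ?_)
      ring
    refine (Finset.sum_le_sum h3).trans ?_
    rw [← Finset.mul_sum]
    have h5 := dyadic hn1 hc0 hc1 hQ0 hQX hJ
    calc C * ((∏ v ∈ T, rho v) * X ^ (5 * n)) * ∑ j ∈ Finset.range (J + 1),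
          (c / 2 ^ j) ^ n * (1 + Q / (2 * X * (c / 2 ^ j) ^ 2) ^ n)
        ≤ C * ((∏ v ∈ T, rho v) * X ^ (5 * n)) * 3 :=
          mul_le_mul_of_nonneg_left h5 (mul_nonneg hC0.le hW)
      _ = 3 * C * (∏ v ∈ T, rho v) * X ^ (5 * n) := by ring
  · have hempty : BdE K ε X C₂ T (fun x => x < c) = ∅ := by
      ext p
      refine ⟨?_, fun h => absurd h (Set.notMem_empty p)⟩
      rintro ⟨hp, l, M, N, hD, hl⟩
      exfalso
      apply h0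
      have hbig := (shape hC hD.dat (by rw [← hcd]; exact hl)).big
      refine hbig.trans (mul_le_mul_of_nonneg_left ?_ (by linarith))
      rw [pow_two]
      exact mul_le_mul hl.le hl.le hD.dat.pos.le hc0.le
    rw [hempty, Set.ncard_empty, Nat.cast_zero, mul_assoc]
    exact mul_nonneg (by positivity) hW

end H54MQ

end S_H54_MQ_Bl

section S_H54_MQ_Ia

set_option autoImplicit false
set_option linter.unusedSectionVars false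
open scoped Classical

open NumberField IsDedekindDomain H76PP H54PP
open scoped Matrix

namespace H54MQ


variable (K : Type) [Field K] [NumberField K]

variable {K}

private theorem Ia_l {X C₂ c : ℝ} (hc : 0 < c) {T : Finset (HeightOneSpectrum (𝓞 K))}
    {A B : 𝓞 K} {l : Fin 3 → ℝ} {M N : Matrix (Fin 3) (Fin 3) (𝓞 K)}
    (h : Dat X C₂ T A B l M N) (hl : c ≤ l 0) (i j : Fin 3) :
    l i * l j ≤ (C₂ / c ^ 2) ^ 2 + 1 := by
  have h0 := h.pos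
  have h01 := h.le01
  have h12 := h.le12
  have hp := h.prod
  have h2 : l 2 ≤ C₂ / c ^ 2 := by
    rw [le_div_iff₀ (by positivity)]
    have h3 : c * c ≤ l 0 * l 1 := mul_le_mul hl (hl.trans h01) hc.le h0.le
    have hl2 : 0 < l 2 := by linarith
    nlinarith
  have hpos : ∀ i, 0 < l i := by
    intro i
    fin_cases i
    · exact h0
    · show 0 < l 1
      linarith
    · show 0 < l 2
      linarith
  have hle : ∀ i, l i ≤ C₂ / c ^ 2 := by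
    intro i
    fin_cases i
    · show l 0 ≤ _
      linarith
    · show l 1 ≤ _
      linarith
    · exact h2
  have h5 := mul_le_mul (hle i) (hle j) (hpos j).le ((hpos i).le.trans (hle i))
  nlinarith

private theorem Ia_det {E : ℝ} {M : Matrix (Fin 3) (Fin 3) (𝓞 K)} (h : ∀ i j, M i j ∈ bx K E) :
    M.det ∈ bx K (6 * E ^ 3) := by
  rw [Matrix.det_fin_three]
  have e : 6 * E ^ 3 = E * E * E + E * E * E + E * E * E + E * E * E + E * E * E + E * E * E := by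
    ring
  rw [e]
  exact bx_sub (bx_add (bx_add (bx_sub (bx_sub (bx_mul (bx_mul (h 0 0) (h 1 1)) (h 2 2))
    (bx_mul (bx_mul (h 0 0) (h 1 2)) (h 2 1))) (bx_mul (bx_mul (h 0 1) (h 1 0)) (h 2 2)))
    (bx_mul (bx_mul (h 0 1) (h 1 2)) (h 2 0))) (bx_mul (bx_mul (h 0 2) (h 1 0)) (h 2 1)))
    (bx_mul (bx_mul (h 0 2) (h 1 1)) (h 2 0))

omit [NumberField K] in
private theorem Ia_en {S : Set (𝓞 K)} {M : Matrix (Fin 3) (Fin 3) (𝓞 K)} (h : ∀ i j, M i j ∈ S)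
    (i : Fin 6) : en M i ∈ S := by
  unfold en
  fin_cases i <;> exact h _ _

variable (K)

private theorem Ia_fib {C t Q R : ℝ} (hC1 : 1 ≤ C) {n : ℕ} (hQ : 0 < Q) (hR : 0 ≤ R)
    (ht : Q ≤ t ^ n) {z : ℝ}
    (h : z ≤ Q ^ 5 * R * ∏ _j : Fin 5, (C * (t ^ n / Q + 1))) :
    z ≤ R * (2 * C) ^ 5 * (t ^ n) ^ 5 := by
  rw [Finset.prod_const, Finset.card_univ, Fintype.card_fin] at h
  have h1 : 1 ≤ t ^ n / Q := by
    rw [le_div_iff₀ hQ, one_mul]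
    exact ht
  have h2 : C * (t ^ n / Q + 1) ≤ 2 * C * (t ^ n / Q) := by nlinarith
  have h3 : 0 ≤ C * (t ^ n / Q + 1) := by positivity
  have h4 := pow_le_pow_left₀ h3 h2 5
  have h5 : Q ^ 5 * R * (C * (t ^ n / Q + 1)) ^ 5 ≤ Q ^ 5 * R * (2 * C * (t ^ n / Q)) ^ 5 :=
    mul_le_mul_of_nonneg_left h4 (by positivity)
  refine (h.trans h5).trans (le_of_eq ?_)
  rw [mul_pow, div_pow]
  field_simp

theorem case_oneE {C₂ c : ℝ} (hC : 1 ≤ C₂) (hc : 0 < c) : ∃ (C : ℝ) (N₀ : ℕ), 0 < C ∧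
    ∀ T : Finset (HeightOneSpectrum (𝓞 K)),
      (∀ v ∈ T, N₀ ≤ Nv v ∧ (6 : 𝓞 K) ∉ v.asIdeal) → ∃ X₀ : ℝ, ∀ X : ℝ, X₀ ≤ X →
        ∀ ε : HeightOneSpectrum (𝓞 K) → 𝓞 K, (∀ v ∈ T, ε v ∉ v.asIdeal) →
        ((BdE K ε X C₂ T (fun x => c ≤ x)).ncard : ℝ) ≤
          C * (∏ v ∈ T, rho v) * X ^ (5 * Module.finrank ℚ K) := by
  obtain ⟨n, hn⟩ : ∃ n, n = Module.finrank ℚ K := ⟨_, rfl⟩
  have hn0 : n ≠ 0 := by
    rw [hn]
    exact Module.finrank_pos.ne'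
  obtain ⟨E, hE⟩ : ∃ E : ℝ, E = (C₂ / c ^ 2) ^ 2 + 1 := ⟨_, rfl⟩
  have hE1 : 1 ≤ E := by
    rw [hE]
    nlinarith [sq_nonneg (C₂ / c ^ 2)]
  obtain ⟨C, hC1, hcnt⟩ := cnt_NE K
  obtain ⟨C', hC'1, hup⟩ := bx_upper K
  rw [← hn] at hup
  have hC0 : 0 < C := by linarith
  have hC'0 : 0 < C' := by linarith
  have hE0 : 0 < E := by linarith
  refine ⟨(C' * E ^ n) ^ 6 * (2 * C) ^ 5 * (2 * E) ^ (5 * n), Nat.ceil ((6 * E ^ 3) ^ n) + 1,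
    by positivity, ?_⟩
  intro T hT
  obtain ⟨Q, hQ⟩ : ∃ Q : ℝ, Q = ∏ v ∈ T, (Nv v : ℝ) := ⟨_, rfl⟩
  have hQ1 : 1 ≤ Q := by
    rw [hQ]
    refine Finset.prod_induction _ (fun x : ℝ => 1 ≤ x)
      (fun a b ha hb => one_le_mul_of_one_le_of_one_le ha hb) le_rfl ?_
    intro v _
    have := two_le_Nv v
    exact_mod_cast (by omega : 1 ≤ Nv v)
  obtain ⟨R, hR⟩ : ∃ R : ℝ, R = ∏ v ∈ T, rho v := ⟨_, rfl⟩
  have hR0 : 0 ≤ R := by
    rw [hR]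
    refine Finset.prod_nonneg fun v _ => ?_
    unfold rho
    positivity
  refine ⟨Q + 1, fun X hX ε hε => ?_⟩
  rw [← hR, ← hn]
  have hX0 : 0 < X := by linarith
  obtain ⟨t, ht⟩ : ∃ t : ℝ, t = 2 * X * E := ⟨_, rfl⟩
  have htX : X ≤ t := by
    rw [ht]
    nlinarith
  have ht1 : 1 ≤ t := by linarith
  have htn : Q ≤ t ^ n := by
    have := le_self_pow₀ ht1 hn0
    linarith
  -- the data
  have hdat : ∀ p : 𝓞 K × 𝓞 K, ∃ (M N : Matrix (Fin 3) (Fin 3) (𝓞 K)),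
      p ∈ BdE K ε X C₂ T (fun x => c ≤ x) → M.IsSymm ∧ N.IsSymm ∧ M.det ≠ 0 ∧
      (∀ i j, M i j ∈ bx K E) ∧ (∀ i j, N i j ∈ bx K t) ∧
      (∀ x : 𝓞 K, (x • M - N).det = M.det * (x ^ 3 + p.1 * x + p.2)) ∧
      (∀ v ∈ T, M.det ∉ v.asIdeal) ∧ ∀ v ∈ T, RT ε v M N := by
    intro p
    by_cases hp : p ∈ BdE K ε X C₂ T (fun x => c ≤ x)
    · obtain ⟨-, l, M, N, hDE, hl⟩ := hp
      have hD := hDE.dat
      have hM : ∀ i j, M i j ∈ bx K E := by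
        intro i j s
        rw [hE]
        exact (hD.bdM s i j).trans (Ia_l hc hD hl i j)
      have hN : ∀ i j, N i j ∈ bx K t := by
        intro i j s
        refine (hD.bdN s i j).trans ?_
        rw [ht, hE]
        exact mul_le_mul_of_nonneg_left (Ia_l hc hD hl i j) (by positivity)
      have hdet : ∀ v ∈ T, M.det ∉ v.asIdeal := by
        intro v hv
        refine not_mem_of_lt (Ia_det hM) hD.detM ?_
        rw [← hn]
        have h1 := (hT v hv).1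
        have h2 : ((Nat.ceil ((6 * E ^ 3) ^ n) + 1 : ℕ) : ℝ) ≤ (Nv v : ℝ) := by exact_mod_cast h1
        have h3 := Nat.le_ceil ((6 * E ^ 3) ^ n)
        push_cast at h2
        linarith
      exact ⟨M, N, fun _ => ⟨hD.symM, hD.symN, hD.detM, hM, hN, hD.char, hdet,
        fun v hv => hDE.res v hv (hdet v hv)⟩⟩
    · exact ⟨0, 0, fun h => absurd h hp⟩
  choose M N hMN using hdat
  -- the fibres
  obtain ⟨F, hF⟩ : ∃ F : (Fin 6 → 𝓞 K) → Set (Fin 6 → 𝓞 K), ∀ m, F m =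
      {y : Fin 6 → 𝓞 K | (∀ i, y i ∈ bx K t) ∧ ∑ i, cf m i * y i = 0 ∧
        ∀ v ∈ T, RT ε v (sy m) (sy y)} := ⟨_, fun _ => rfl⟩
  have hFf : ∀ m, (F m).Finite := by
    intro m
    rw [hF]
    refine Set.Finite.subset (Set.Finite.pi' (fun _ : Fin 6 => bx_finite K t)) ?_
    intro y hy
    exact hy.1
  obtain ⟨Sf, hSf⟩ : ∃ Sf : Finset (Fin 6 → 𝓞 K),
      Sf = Fintype.piFinset (fun _ : Fin 6 => (bx_finite K E).toFinset) := ⟨_, rfl⟩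
  have hSfm : ∀ m, m ∈ Sf ↔ ∀ i, m i ∈ bx K E := by
    intro m
    rw [hSf, Fintype.mem_piFinset]
    simp only [Set.Finite.mem_toFinset]
  have hSfc : (Sf.card : ℝ) ≤ (C' * E ^ n) ^ 6 := by
    rw [hSf, Fintype.card_piFinset, Finset.prod_const, Finset.card_univ, Fintype.card_fin,
      Nat.cast_pow]
    refine pow_le_pow_left₀ (Nat.cast_nonneg _) ?_ 6
    have h1 := hup E hE1
    rwa [Set.ncard_eq_toFinset_card _ (bx_finite K E)] at h1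
  obtain ⟨S', hS'⟩ : ∃ S' : Finset (Fin 6 → 𝓞 K),
      S' = Sf.filter (fun m => (sy m).det ≠ 0 ∧ ∀ v ∈ T, (sy m).det ∉ v.asIdeal) := ⟨_, rfl⟩
  have hfib : ∀ m ∈ S', ((F m).ncard : ℝ) ≤ R * (2 * C) ^ 5 * (t ^ n) ^ 5 := by
    intro m hm
    rw [hS', Finset.mem_filter] at hm
    obtain ⟨i₀, hi₀⟩ := exists_cf hm.2.1
    have h1 := hcnt ε T m i₀ (fun _ => t) (fun _ => by linarith) hi₀
      (fun v hv => ⟨(hT v hv).2, hm.2.2 v hv⟩) hε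
    rw [← hF, ← hQ, ← hR, ← hn] at h1
    exact Ia_fib hC1 (by linarith) hR0 htn h1
  -- the map
  obtain ⟨Z, hZ⟩ : ∃ Z : Finset (Σ _ : (Fin 6 → 𝓞 K), Fin 6 → 𝓞 K),
      Z = S'.sigma (fun m => (hFf m).toFinset) := ⟨_, rfl⟩
  have hcard : (BdE K ε X C₂ T (fun x => c ≤ x)).ncard ≤ Z.card := by
    rw [← Set.ncard_coe_finset]
    refine Set.ncard_le_ncard_of_injOn (fun p => ⟨en (M p), en (N p)⟩) ?_ ?_
      (Finset.finite_toSet _)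
    · intro p hp
      obtain ⟨h1, h2, h3, h4, h5, h6, h7, h8⟩ := hMN p hp
      rw [Finset.mem_coe, hZ, Finset.mem_sigma]
      constructor
      · rw [hS', Finset.mem_filter, hSfm]
        refine ⟨fun i => Ia_en h4 i, ?_⟩
        show (sy (en (M p))).det ≠ 0 ∧ ∀ v ∈ T, (sy (en (M p))).det ∉ v.asIdeal
        rw [sy_en h1]
        exact ⟨h3, h7⟩
      · rw [Set.Finite.mem_toFinset, hF]
        refine ⟨fun i => Ia_en h5 i, (char_cf h1 h2 h6).1, fun v hv => ?_⟩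
        show RT ε v (sy (en (M p))) (sy (en (N p)))
        rw [sy_en h1, sy_en h2]
        exact h8 v hv
    · intro p hp p' hp' heq
      obtain ⟨h1, h2, h3, h4, h5, h6, h7, h8⟩ := hMN p hp
      obtain ⟨k1, k2, k3, k4, k5, k6, k7, k8⟩ := hMN p' hp'
      simp only [Sigma.mk.injEq, heq_eq_eq] at heq
      have e1 : M p = M p' := by rw [← sy_en h1, ← sy_en k1, heq.1]
      have e2 : N p = N p' := by rw [← sy_en h2, ← sy_en k2, heq.2]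
      rw [← e1, ← e2] at k6
      have h9 := char_unique h1 h2 h3 h6 k6
      exact Prod.ext h9.1 h9.2
  have hZc : (Z.card : ℝ) ≤ (Sf.card : ℝ) * (R * (2 * C) ^ 5 * (t ^ n) ^ 5) := by
    rw [hZ, Finset.card_sigma, Nat.cast_sum]
    have h1 : ∀ m ∈ S', (((hFf m).toFinset.card : ℕ) : ℝ) ≤ R * (2 * C) ^ 5 * (t ^ n) ^ 5 := by
      intro m hm
      rw [← Set.ncard_eq_toFinset_card _ (hFf m)]
      exact hfib m hm
    refine (Finset.sum_le_sum h1).trans ?_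
    rw [Finset.sum_const, nsmul_eq_mul]
    refine mul_le_mul_of_nonneg_right ?_ (by positivity)
    have h2 : S'.card ≤ Sf.card := by
      rw [hS']
      exact Finset.card_filter_le _ _
    exact_mod_cast h2
  have h1 : ((BdE K ε X C₂ T (fun x => c ≤ x)).ncard : ℝ) ≤ (Z.card : ℝ) := by exact_mod_cast hcard
  refine (h1.trans hZc).trans ?_
  refine (mul_le_mul_of_nonneg_right hSfc (by positivity)).trans (le_of_eq ?_)
  rw [ht]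
  have e1 : (((2 * X * E) ^ n) ^ 5 : ℝ) = (2 * E) ^ (5 * n) * X ^ (5 * n) := by
    rw [← pow_mul, mul_comm n 5, ← mul_pow]
    congr 1
    ring
  rw [e1]
  ring

end H54MQ

end S_H54_MQ_Ia

section S_H54_MQ_Fin

set_option autoImplicit false
set_option linter.unusedSectionVars false
open scoped Classical

open NumberField IsDedekindDomain H76PP H54PP
open scoped Matrix

namespace H54MQ

variable {K : Type} [Field K] [NumberField K]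

theorem datE_mono {ε : HeightOneSpectrum (𝓞 K) → 𝓞 K} {X C₂ C₂' : ℝ} (h : C₂ ≤ C₂')
    {T : Finset (HeightOneSpectrum (𝓞 K))}
    {A B : 𝓞 K} {l : Fin 3 → ℝ} {M N : Matrix (Fin 3) (Fin 3) (𝓞 K)}
    (hD : DatE ε X C₂ T A B l M N) : DatE ε X C₂' T A B l M N :=
  ⟨dat_mono h hD.dat, hD.res⟩

variable (K)

theorem datE_count_rho {C₂ : ℝ} (hC : 1 ≤ C₂) : ∃ (C : ℝ) (N₀ : ℕ), 0 < C ∧
    ∀ T : Finset (HeightOneSpectrum (𝓞 K)),
      (∀ v ∈ T, N₀ ≤ Nv v ∧ (6 : 𝓞 K) ∉ v.asIdeal) → ∃ X₀ : ℝ, ∀ X : ℝ, X₀ ≤ X →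
        ∀ ε : HeightOneSpectrum (𝓞 K) → 𝓞 K, (∀ v ∈ T, ε v ∉ v.asIdeal) →
        ({p : 𝓞 K × 𝓞 K | p ∈ Bx K X ∧ ∃ (l : Fin 3 → ℝ) (M N : Matrix (Fin 3) (Fin 3) (𝓞 K)),
          DatE ε X C₂ T p.1 p.2 l M N}.ncard : ℝ) ≤
          C * (∏ v ∈ T, rho v) * X ^ (5 * Module.finrank ℚ K) := by
  obtain ⟨Ca, Na, hCa, ha⟩ := case_twoE K hC
  obtain ⟨Cb, Nb, hCb, hb⟩ := case_oneE K hC (c5_pos hC)
  refine ⟨Ca + Cb, max Na Nb, by linarith, fun T hT => ?_⟩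
  obtain ⟨Xa, hXa⟩ := ha T (fun v hv => ⟨(le_max_left _ _).trans (hT v hv).1, (hT v hv).2⟩)
  obtain ⟨Xb, hXb⟩ := hb T (fun v hv => ⟨(le_max_right _ _).trans (hT v hv).1, (hT v hv).2⟩)
  refine ⟨max Xa Xb, fun X hX ε hε => ?_⟩
  have h1 := hXa X ((le_max_left _ _).trans hX) ε hε
  have h2 := hXb X ((le_max_right _ _).trans hX) ε hε
  have hsub : {p : 𝓞 K × 𝓞 K | p ∈ Bx K X ∧ ∃ (l : Fin 3 → ℝ)
      (M N : Matrix (Fin 3) (Fin 3) (𝓞 K)), DatE ε X C₂ T p.1 p.2 l M N} ⊆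
      BdE K ε X C₂ T (fun x => x < c5 C₂) ∪ BdE K ε X C₂ T (fun x => c5 C₂ ≤ x) := by
    rintro p ⟨hp, l, M, N, hD⟩
    rcases lt_or_ge (l 0) (c5 C₂) with h | h
    · exact Or.inl ⟨hp, l, M, N, hD, h⟩
    · exact Or.inr ⟨hp, l, M, N, hD, h⟩
  have h3 := Set.ncard_le_ncard hsub ((BdE_finite K ε X C₂ T _).union (BdE_finite K ε X C₂ T _))
  have h4 := h3.trans (Set.ncard_union_le _ _)
  have h5 : ({p : 𝓞 K × 𝓞 K | p ∈ Bx K X ∧ ∃ (l : Fin 3 → ℝ)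
      (M N : Matrix (Fin 3) (Fin 3) (𝓞 K)), DatE ε X C₂ T p.1 p.2 l M N}.ncard : ℝ) ≤
      ((BdE K ε X C₂ T (fun x => x < c5 C₂)).ncard : ℝ) +
        ((BdE K ε X C₂ T (fun x => c5 C₂ ≤ x)).ncard : ℝ) := by
    exact_mod_cast h4
  calc _ ≤ _ := h5
    _ ≤ _ := add_le_add h1 h2
    _ = _ := by ring

theorem datE_count (C₂ : ℝ) : ∃ (C : ℝ) (N₀ : ℕ), 0 < C ∧
    ∀ T : Finset (HeightOneSpectrum (𝓞 K)),
      (∀ v ∈ T, N₀ ≤ Nv v ∧ (6 : 𝓞 K) ∉ v.asIdeal) → ∃ X₀ : ℝ, ∀ X : ℝ, X₀ ≤ X →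
        ∀ ε : HeightOneSpectrum (𝓞 K) → 𝓞 K, (∀ v ∈ T, ε v ∉ v.asIdeal) →
        ({p : 𝓞 K × 𝓞 K | p ∈ Bx K X ∧ ∃ (l : Fin 3 → ℝ) (M N : Matrix (Fin 3) (Fin 3) (𝓞 K)),
          DatE ε X C₂ T p.1 p.2 l M N}.ncard : ℝ) ≤
          C * (∏ v ∈ T, ((1 + 1 / (Nv v : ℝ)) ^ 2 / 4)) * X ^ (5 * Module.finrank ℚ K) := by
  obtain ⟨C, N₀, hC, h⟩ := datE_count_rho K (C₂ := max C₂ 1) (le_max_right _ _)
  refine ⟨C, N₀, hC, fun T hT => ?_⟩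
  obtain ⟨X₀, hX₀⟩ := h T hT
  refine ⟨X₀, fun X hX ε hε => ?_⟩
  have h1 := hX₀ X hX ε hε
  refine le_trans ?_ h1
  have hfin : {p : 𝓞 K × 𝓞 K | p ∈ Bx K X ∧ ∃ (l : Fin 3 → ℝ)
      (M N : Matrix (Fin 3) (Fin 3) (𝓞 K)), DatE ε X (max C₂ 1) T p.1 p.2 l M N}.Finite := by
    refine (BdE_finite K ε X (max C₂ 1) T (fun _ => True)).subset ?_
    rintro p ⟨hp, l, M, N, hD⟩
    exact ⟨hp, l, M, N, hD, trivial⟩
  have h2 := Set.ncard_le_ncard (s := {p : 𝓞 K × 𝓞 K | p ∈ Bx K X ∧ ∃ (l : Fin 3 → ℝ)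
      (M N : Matrix (Fin 3) (Fin 3) (𝓞 K)), DatE ε X C₂ T p.1 p.2 l M N}) (by
    rintro p ⟨hp, l, M, N, hD⟩
    exact ⟨hp, l, M, N, datE_mono (le_max_left _ _) hD⟩) hfin
  exact_mod_cast h2

end H54MQ

end S_H54_MQ_Fin
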