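import Mathlib
import Pool.Agent.H76.PN.C1
import Pool.Agent.H76.PN.N2
import Pool.Agent.H76.PN.N4
import Pool.Agent.H76.PN.Z2
import Pool.Agent.H76.ZQ.Y4
import Pool.Agent.H76.MP.M1
import Pool.Agent.H76.MP.M6

/-! This file joins several modules to save build time (M7). -/

set_option autoImplicit false

section S_H36_MX_Ca

set_option autoImplicit false
open scoped Classical

namespace H36MX

theorem fourier {H ι : Type} [AddCommGroup H] [Finite H] {T : Finset ι} (hT : T.Nonempty)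
    (u : ι → H →+ ZMod 2) (φ : H →+ ZMod 2) (hno : ∀ v ∈ T, u v ≠ φ) :
    ∃ c : H, c ≠ 0 ∧ (T.card : ℤ) ≤
      (Nat.card H : ℤ) * |(T.card : ℤ) - 2 * ((T.filter (fun v => u v c = 1)).card : ℤ)| := by
  classical
  have : Fintype H := Fintype.ofFinite H
  set χ : ZMod 2 → ℤ := fun a => if a = 0 then 1 else -1 with hχ
  have hmul : ∀ a b : ZMod 2, χ (a + b) = χ a * χ b := by
    intro a b
    simp only [hχ]
    revert a b
    decide
  have habs : ∀ a : ZMod 2, |χ a| = 1 := by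
    intro a
    simp only [hχ]
    split_ifs <;> simp
  have hpsi : ∀ ψ : H →+ ZMod 2, ψ ≠ 0 → ∑ c : H, χ (ψ c) = 0 := by
    intro ψ hψ
    obtain ⟨c₀, hc₀⟩ : ∃ c₀, ψ c₀ ≠ 0 := by
      by_contra h
      push Not at h
      exact hψ (AddMonoidHom.ext (fun x => by simpa using h x))
    have h1 : χ (ψ c₀) = -1 := by
      simp only [hχ]
      rw [if_neg hc₀]
    have h2 : ∑ c : H, χ (ψ (c + c₀)) = ∑ c : H, χ (ψ c) :=
      Equiv.sum_comp (Equiv.addRight c₀) (fun c => χ (ψ c))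
    have h3 : ∑ c : H, χ (ψ (c + c₀)) = - ∑ c : H, χ (ψ c) := by
      rw [← Finset.sum_neg_distrib]
      refine Finset.sum_congr rfl (fun c _ => ?_)
      rw [map_add, hmul, h1]
      ring
    linarith
  have hself : ∀ a : ZMod 2, a + a = 0 := by decide
  have hv : ∀ v ∈ T, ∑ c : H, χ (φ c) * χ (u v c) = 0 := by
    intro v hvT
    have hne : φ + u v ≠ 0 := by
      intro h0
      apply hno v hvT
      refine AddMonoidHom.ext (fun x => ?_)
      have hx : φ x + u v x = 0 := by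
        have := DFunLike.congr_fun h0 x
        simpa using this
      have : u v x = (φ x + u v x) + φ x := by
        have := hself (φ x)
        calc u v x = (φ x + φ x) + u v x := by rw [this, zero_add]
          _ = (φ x + u v x) + φ x := by abel
      rw [this, hx, zero_add]
    have := hpsi (φ + u v) hne
    rw [← this]
    refine Finset.sum_congr rfl (fun c _ => ?_)
    rw [AddMonoidHom.add_apply, hmul]
  set D : H → ℤ := fun c => (T.card : ℤ) - 2 * ((T.filter (fun v => u v c = 1)).card : ℤ) with hD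
  have hsumD : ∀ c : H, ∑ v ∈ T, χ (u v c) = D c := by
    intro c
    have h1 : ∀ a : ZMod 2, χ a = 1 - 2 * (if a = 1 then (1 : ℤ) else 0) := by
      intro a
      simp only [hχ]
      revert a
      decide
    simp only [h1, hD]
    rw [Finset.sum_sub_distrib, ← Finset.mul_sum, Finset.sum_boole]
    simp
  have htot : ∑ c : H, χ (φ c) * D c = 0 := by
    have h1 : ∑ c : H, χ (φ c) * D c = ∑ c : H, ∑ v ∈ T, χ (φ c) * χ (u v c) := by
      refine Finset.sum_congr rfl (fun c _ => ?_)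
      rw [← hsumD, Finset.mul_sum]
    rw [h1, Finset.sum_comm]
    exact Finset.sum_eq_zero hv
  have hD0 : D 0 = T.card := by
    simp only [hD]
    have : T.filter (fun v => u v (0 : H) = 1) = ∅ := by
      refine Finset.filter_eq_empty_iff.2 (fun v _ => ?_)
      rw [map_zero]
      decide
    rw [this]
    simp
  have hχ0 : χ (φ 0) = 1 := by
    rw [map_zero]
    simp [hχ]
  by_contra hcon
  push Not at hcon
  have hTpos : (0 : ℤ) < T.card := by exact_mod_cast hT.card_pos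
  have hsplit : ∑ c : H, χ (φ c) * D c = D 0 + ∑ c ∈ Finset.univ.erase (0 : H), χ (φ c) * D c := by
    rw [← Finset.add_sum_erase Finset.univ (fun c => χ (φ c) * D c) (Finset.mem_univ (0 : H))]
    simp only [hχ0, one_mul]
  have hle1 : (T.card : ℤ) ≤ ∑ c ∈ Finset.univ.erase (0 : H), |D c| := by
    have h1 : (T.card : ℤ) = - ∑ c ∈ Finset.univ.erase (0 : H), χ (φ c) * D c := by
      have := hsplit
      rw [htot, hD0] at this
      linarith
    rw [h1]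
    refine le_trans (neg_le_abs _) (le_trans (Finset.abs_sum_le_sum_abs _ _) ?_)
    refine Finset.sum_le_sum (fun c _ => ?_)
    rw [abs_mul, habs, one_mul]
  have hcard : (Nat.card H : ℤ) = (Fintype.card H : ℤ) := by rw [Nat.card_eq_fintype_card]
  have hHpos : (0 : ℤ) < Nat.card H := by
    rw [hcard]
    exact_mod_cast Fintype.card_pos_iff.2 ⟨0⟩
  have hle2 : (Nat.card H : ℤ) * T.card ≤ ∑ c ∈ Finset.univ.erase (0 : H), (T.card : ℤ) := by
    calc (Nat.card H : ℤ) * T.card ≤ (Nat.card H : ℤ) * ∑ c ∈ Finset.univ.erase (0 : H), |D c| :=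
          mul_le_mul_of_nonneg_left hle1 hHpos.le
      _ = ∑ c ∈ Finset.univ.erase (0 : H), (Nat.card H : ℤ) * |D c| := by rw [Finset.mul_sum]
      _ ≤ ∑ c ∈ Finset.univ.erase (0 : H), (T.card : ℤ) := by
          refine Finset.sum_le_sum (fun c hc => ?_)
          exact (hcon c (Finset.ne_of_mem_erase hc)).le
  rw [Finset.sum_const, Finset.card_erase_of_mem (Finset.mem_univ _), Finset.card_univ, nsmul_eq_mul] at hle2
  have hc1 : 1 ≤ Fintype.card H := Fintype.card_pos_iff.2 ⟨0⟩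
  rw [Nat.cast_sub hc1, hcard] at hle2
  push_cast at hle2
  nlinarith

end H36MX

end S_H36_MX_Ca

section S_H36_MX_Cb

set_option autoImplicit false
open scoped Classical

namespace H36MX

/-- The subset `A` of `T` is unbalanced. -/
def Unb {α : Type} (T : Finset α) (b : ℕ) (A : Finset α) : Prop :=
  (T.card : ℤ) ≤ (b : ℤ) * |(T.card : ℤ) - 2 * (A.card : ℤ)|

private theorem Cb_sum {α : Type} (T : Finset α) :
    ∑ A ∈ T.powerset, ((T.card : ℤ) - 2 * (A.card : ℤ)) ^ 2 = (T.card : ℤ) * (2 : ℤ) ^ T.card := by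
  induction T using Finset.induction_on with
  | empty => simp
  | insert a T ha ih =>
    rw [Finset.sum_powerset_insert ha]
    have h1 : ∀ A ∈ T.powerset, (((insert a T).card : ℤ) - 2 * (A.card : ℤ)) ^ 2 +
        (((insert a T).card : ℤ) - 2 * ((insert a A).card : ℤ)) ^ 2 =
        2 * ((T.card : ℤ) - 2 * (A.card : ℤ)) ^ 2 + 2 := by
      intro A hA
      have haA : a ∉ A := fun h => ha (Finset.mem_powerset.1 hA h)
      rw [Finset.card_insert_of_notMem ha, Finset.card_insert_of_notMem haA]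
      push_cast
      ring
    rw [← Finset.sum_add_distrib, Finset.sum_congr rfl h1, Finset.sum_add_distrib, ← Finset.mul_sum, ih,
      Finset.sum_const, Finset.card_powerset, Finset.card_insert_of_notMem ha]
    push_cast
    rw [nsmul_eq_mul]
    push_cast
    ring

theorem unb_count {α : Type} (T : Finset α) (b : ℕ) :
    T.card * (T.powerset.filter (fun A => Unb T b A)).card ≤ b ^ 2 * 2 ^ T.card := by
  rcases Nat.eq_zero_or_pos T.card with h0 | hpos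
  · rw [h0, zero_mul]
    exact Nat.zero_le _
  have h1 : ∀ A ∈ T.powerset.filter (fun A => Unb T b A), (T.card : ℤ) ^ 2 ≤
      (b : ℤ) ^ 2 * ((T.card : ℤ) - 2 * (A.card : ℤ)) ^ 2 := by
    intro A hA
    have h2 : (T.card : ℤ) ≤ (b : ℤ) * |(T.card : ℤ) - 2 * (A.card : ℤ)| := (Finset.mem_filter.1 hA).2
    calc (T.card : ℤ) ^ 2 ≤ ((b : ℤ) * |(T.card : ℤ) - 2 * (A.card : ℤ)|) ^ 2 :=
          pow_le_pow_left₀ (by positivity) h2 2
      _ = _ := by rw [mul_pow, sq_abs]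
  have h3 : ((T.powerset.filter (fun A => Unb T b A)).card : ℤ) * (T.card : ℤ) ^ 2 ≤
      (b : ℤ) ^ 2 * ((T.card : ℤ) * (2 : ℤ) ^ T.card) := by
    calc ((T.powerset.filter (fun A => Unb T b A)).card : ℤ) * (T.card : ℤ) ^ 2 =
          ∑ A ∈ T.powerset.filter (fun A => Unb T b A), (T.card : ℤ) ^ 2 := by
          rw [Finset.sum_const, nsmul_eq_mul]
      _ ≤ ∑ A ∈ T.powerset.filter (fun A => Unb T b A),
          (b : ℤ) ^ 2 * ((T.card : ℤ) - 2 * (A.card : ℤ)) ^ 2 := Finset.sum_le_sum h1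
      _ ≤ ∑ A ∈ T.powerset, (b : ℤ) ^ 2 * ((T.card : ℤ) - 2 * (A.card : ℤ)) ^ 2 := by
          refine Finset.sum_le_sum_of_subset_of_nonneg (Finset.filter_subset _ _) fun A _ _ => ?_
          positivity
      _ = _ := by rw [← Finset.mul_sum, Cb_sum]
  have hposZ : (0 : ℤ) < T.card := by exact_mod_cast hpos
  have h4 : (T.card : ℤ) * ((T.card : ℤ) * ((T.powerset.filter (fun A => Unb T b A)).card : ℤ)) ≤
      (T.card : ℤ) * ((b : ℤ) ^ 2 * (2 : ℤ) ^ T.card) := by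
    linarith [h3, sq (T.card : ℤ), mul_comm ((T.powerset.filter (fun A => Unb T b A)).card : ℤ) ((T.card : ℤ) ^ 2),
      mul_assoc (T.card : ℤ) (T.card : ℤ) ((T.powerset.filter (fun A => Unb T b A)).card : ℤ),
      mul_left_comm ((b : ℤ) ^ 2) (T.card : ℤ) (2 ^ T.card)]
  have h5 := le_of_mul_le_mul_left h4 hposZ
  exact_mod_cast h5

end H36MX

end S_H36_MX_Cb

section S_H36_MX_Cc

set_option autoImplicit false
set_option linter.unusedSectionVars false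
open scoped Classical

open WithZero NumberField IsDedekindDomain H38RT
open H38T1 (SC sc scu rep eo la si Pri OddP tp unif)
open H76PP H36MT H76MQ

namespace H36MX

/-- The pattern of a set. -/
noncomputable def ind {α : Type} (W : Finset α) (v : α) : ZMod 2 := if v ∈ W then 1 else 0

private theorem MXCc_zmod (x : ZMod 2) (h : x ≠ 1) : x = 0 := by
  revert x
  decide

private theorem MXCc_zmod_eq (x y : ZMod 2) (h : x = 1 ↔ y = 1) : x = y := by
  revert x y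
  decide

private theorem MXCc_u {K : Type} [Field K] [NumberField K]
    {S' U : Finset (HeightOneSpectrum (𝓞 K))}
    (hU : ∀ v ∈ U, (6 : 𝓞 K) ∉ v.asIdeal ∧ v ∉ S')
    {e : ℕ} {q₀ : HeightOneSpectrum (𝓞 K)} {A B : 𝓞 K} (hF : FamS S' e q₀ U A B)
    {L : Type} [Field L] [NumberField L] [Algebra K L] {θ : L}
    (h : Cub K L (A : K) (B : K) θ) :
    ∃ u : HeightOneSpectrum (𝓞 K) → SC L →+ ZMod 2, ∀ v ∈ U,
      ∀ c ∈ (HH K S' : AddSubgroup (SC L)), ∀ w : HeightOneSpectrum (𝓞 L), dn K w = v →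
        la w c = u v c := by
  obtain ⟨w₀, -⟩ := exists_above (L := L) q₀
  have : Nonempty (HeightOneSpectrum (𝓞 L)) := ⟨w₀⟩
  have hR : HR2 K L A B θ := hr2 h hF.dsc_ne
  have h2 : ∀ v ∈ U, ∃ w₁ w₂ : HeightOneSpectrum (𝓞 L), Two K θ v w₁ w₂ := fun v hv =>
    exists_twoL h (hF.sqf v (hU v hv).2) (hU v hv).1 (hF.typ v hv)
  choose! w₁ w₂ hw using h2
  have hodd : ∀ v ∈ U, OddP v := fun v hv => TjS_odd (hU v hv).1
  have hodd1 : ∀ v ∈ U, OddP (w₁ v) := fun v hv => by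
    rw [oddP_dn (K := K), (hw v hv).dn1]
    exact hodd v hv
  refine ⟨fun v => if h : v ∈ U then ⟨⟨la (w₁ v), H38T1.la_zero (hodd1 v h)⟩,
      H38T1.la_add (hodd1 v h)⟩ else 0, fun v hv c hc w hwv => ?_⟩
  beta_reduce
  rw [dif_pos hv]
  change la w c = la (w₁ v) c
  obtain ⟨hc1, hc2⟩ := mem_HH.1 hc
  rcases (hw v hv).only w hwv with h4 | h4
  · rw [h4]
  · rw [h4]
    exact (TjS_la hR (hodd v hv) (hw v hv)
      (hc2 _ (by rw [(hw v hv).dn1]; exact (hU v hv).2))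
      (hc2 _ (by rw [(hw v hv).dn2]; exact (hU v hv).2)) hc1).symm

theorem dicho {K : Type} [Field K] [NumberField K] {S' U T₁ : Finset (HeightOneSpectrum (𝓞 K))}
    (hU : ∀ v ∈ U, (6 : 𝓞 K) ∉ v.asIdeal ∧ v ∉ S') (hT : T₁ ⊆ U) (hT0 : T₁.Nonempty)
    {e : ℕ} {q₀ : HeightOneSpectrum (𝓞 K)} {b : ℕ} (hb : 1 ≤ b) {A B : 𝓞 K}
    (hF : FamS S' e q₀ U A B) (hG : ¬ GoodSt S' T₁ b A B) :
    (∃ W ⊆ U, Unb T₁ b (W ∩ T₁) ∧ BadR S' U (ind W) A B) ∨
    ∃ 𝒜 : Finset (Finset (HeightOneSpectrum (𝓞 K))), b ≤ 𝒜.card ∧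
      ∀ W ∈ 𝒜, W ⊆ U ∧ BadR S' U (ind W) A B := by
  by_contra hcon
  apply hG
  intro L _ _ _ θ h
  obtain ⟨u, hu⟩ := MXCc_u hU hF h
  set H : AddSubgroup (SC L) := HH K S' with hH
  set W : SC L → Finset (HeightOneSpectrum (𝓞 K)) := fun c => U.filter (fun v => u v c = 1)
    with hW
  have hWU : ∀ c, W c ⊆ U := fun c => Finset.filter_subset _ _
  have hbad : ∀ c ∈ H, c ≠ 0 → BadR S' U (ind (W c)) A B := by
    intro c hc hne
    refine ⟨L, _, _, _, θ, c, h, hne, hc, fun w hw => ?_⟩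
    rw [hu _ hw c hc w rfl]
    unfold ind
    by_cases h1 : u (dn K w) c = 1
    · rw [if_pos (Finset.mem_filter.2 ⟨hw, h1⟩), h1]
    · have h3 : dn K w ∉ W c := fun h2 => h1 (Finset.mem_filter.1 h2).2
      rw [if_neg h3, MXCc_zmod _ h1]
  have hker : ∀ c ∈ H, (∀ v ∈ T₁, u v c = 0) → c = 0 := by
    intro c hc h0
    by_contra hne
    refine hcon (Or.inl ⟨W c, hWU c, ?_, hbad c hc hne⟩)
    have h1 : W c ∩ T₁ = ∅ := by
      rw [Finset.eq_empty_iff_forall_notMem]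
      intro v hv
      obtain ⟨h2, h3⟩ := Finset.mem_inter.1 hv
      have h4 := (Finset.mem_filter.1 h2).2
      rw [h0 v h3] at h4
      exact absurd h4 (by decide)
    unfold Unb
    rw [h1, Finset.card_empty, Nat.cast_zero, mul_zero, sub_zero, Nat.abs_cast]
    have h5 : (1 : ℤ) ≤ b := by exact_mod_cast hb
    have h6 : (0 : ℤ) ≤ T₁.card := Nat.cast_nonneg _
    nlinarith
  have hinj : ∀ c ∈ H, ∀ c' ∈ H, W c = W c' → c = c' := by
    intro c hc c' hc' hWW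
    have h1 : c - c' = 0 := by
      refine hker _ (H.sub_mem hc hc') fun v hv => ?_
      rw [map_sub, sub_eq_zero]
      refine MXCc_zmod_eq _ _ ⟨fun h2 => ?_, fun h2 => ?_⟩
      · have h3 : v ∈ W c := Finset.mem_filter.2 ⟨hT hv, h2⟩
        rw [hWW] at h3
        exact (Finset.mem_filter.1 h3).2
      · have h3 : v ∈ W c' := Finset.mem_filter.2 ⟨hT hv, h2⟩
        rw [← hWW] at h3
        exact (Finset.mem_filter.1 h3).2
    exact sub_eq_zero.1 h1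
  have hbound : ∀ F : Finset (SC L), (∀ c ∈ F, c ∈ H) → F.card ≤ b := by
    intro F hFH
    by_contra hlt
    refine hcon (Or.inr ⟨(F.erase 0).image W, ?_, ?_⟩)
    · rw [Finset.card_image_of_injOn]
      · have h1 := Finset.pred_card_le_card_erase (s := F) (a := (0 : SC L))
        omega
      · intro c hc c' hc' hWW
        exact hinj c (hFH c (Finset.mem_of_mem_erase (Finset.mem_coe.1 hc))) c'
          (hFH c' (Finset.mem_of_mem_erase (Finset.mem_coe.1 hc'))) hWW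
    · intro W' hW'
      obtain ⟨c, hc, rfl⟩ := Finset.mem_image.1 hW'
      exact ⟨hWU c, hbad c (hFH c (Finset.mem_of_mem_erase hc)) (Finset.ne_of_mem_erase hc)⟩
  have hfinS : (H : Set (SC L)).Finite := by
    by_contra hinf
    obtain ⟨F, hF1, hF2⟩ := Set.Infinite.exists_subset_card_eq hinf (b + 1)
    have h1 := hbound F (fun c hc => hF1 hc)
    omega
  have hfinH : Finite H := hfinS.to_subtype
  have hcard : Nat.card H ≤ b := by
    have h1 := hbound hfinS.toFinset (fun c hc => hfinS.mem_toFinset.1 hc)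
    have h2 : Nat.card H = hfinS.toFinset.card := Nat.card_eq_card_finite_toFinset hfinS
    rw [h2]
    exact h1
  refine ⟨hfinH, hcard, fun φ => ?_⟩
  by_contra hno
  have hno' : ∀ v ∈ T₁, (u v).comp H.subtype ≠ φ.comp H.subtype := by
    intro v hv he
    apply hno
    refine ⟨v, hv, fun c hc w hw => ?_⟩
    rw [hu v (hT hv) c hc w hw]
    exact DFunLike.congr_fun he ⟨c, hc⟩
  obtain ⟨c, hc0, hle⟩ := fourier hT0 (fun v => (u v).comp H.subtype) (φ.comp H.subtype) hno'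
  refine hcon (Or.inl ⟨W c.1, hWU c.1, ?_, hbad c.1 c.2 (fun h1 => hc0 (Subtype.ext h1))⟩)
  have h1 : (T₁.filter (fun v => ((u v).comp H.subtype) c = 1)) = W c.1 ∩ T₁ := by
    ext v
    rw [Finset.mem_filter, Finset.mem_inter, Finset.mem_filter]
    exact ⟨fun h2 => ⟨⟨hT h2.1, h2.2⟩, h2.1⟩, fun h2 => ⟨h2.2, h2.1.2⟩⟩
  unfold Unb
  rw [← h1]
  refine le_trans hle (mul_le_mul_of_nonneg_right ?_ (abs_nonneg _))
  exact_mod_cast hcard

end H36MX

end S_H36_MX_Cc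

section S_H54_MQ_Fd

set_option autoImplicit false
set_option linter.unusedSectionVars false
open scoped Classical

open WithZero NumberField IsDedekindDomain H38RT
open scoped Matrix
open H38T1 (SC sc scu rep eo la si Pri OddP tp unif)
open H76PP H54PP H36MT

namespace H54MQ

/-- The factor at `v` for the value `r` of the symbol. -/
structure EpsOk {K : Type} [Field K] [NumberField K] (v : HeightOneSpectrum (𝓞 K)) (r : ZMod 2)
    (a : 𝓞 K) : Prop where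
  nm : a ∉ v.asIdeal
  one : r = 0 → a = 1
  ns : r ≠ 0 → ¬ IsSquare (Ideal.Quotient.mk v.asIdeal a)

theorem two_ne_res {K : Type} [Field K] [NumberField K] {v : HeightOneSpectrum (𝓞 K)}
    (h : (6 : 𝓞 K) ∉ v.asIdeal) : ringChar (𝓞 K ⧸ v.asIdeal) ≠ 2 := by
  intro h0
  apply h
  have h1 : ((2 : ℕ) : 𝓞 K ⧸ v.asIdeal) = 0 := (ringChar.spec _ 2).2 (by rw [h0])
  have h2 : (2 : 𝓞 K) ∈ v.asIdeal := by
    rw [← Ideal.Quotient.eq_zero_iff_mem, map_ofNat]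
    exact_mod_cast h1
  rw [show (6 : 𝓞 K) = 3 * 2 by norm_num]
  exact v.asIdeal.mul_mem_left _ h2

theorem exists_eps {K : Type} [Field K] [NumberField K] (v : HeightOneSpectrum (𝓞 K))
    (r : ZMod 2) : ∃ a : 𝓞 K, (6 : 𝓞 K) ∉ v.asIdeal → EpsOk v r a := by
  by_cases h6 : (6 : 𝓞 K) ∉ v.asIdeal
  · by_cases hr : r = 0
    · refine ⟨1, fun _ => ⟨?_, fun _ => rfl, fun h => absurd hr h⟩⟩
      intro h1
      exact v.isPrime.ne_top ((Ideal.eq_top_iff_one _).2 h1)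
    · haveI := finite_residue v
      obtain ⟨b, hb⟩ := FiniteField.exists_nonsquare (two_ne_res h6)
      obtain ⟨a, rfl⟩ := Ideal.Quotient.mk_surjective b
      refine ⟨a, fun _ => ⟨?_, fun h => absurd h hr, fun _ => hb⟩⟩
      intro h1
      apply hb
      rw [Ideal.Quotient.eq_zero_iff_mem.2 h1]
      exact ⟨0, (mul_zero 0).symm⟩
  · exact ⟨0, fun h => absurd h h6⟩

/-- The factors for a pattern. -/
noncomputable def eps {K : Type} [Field K] [NumberField K]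
    (r : HeightOneSpectrum (𝓞 K) → ZMod 2) (v : HeightOneSpectrum (𝓞 K)) : 𝓞 K :=
  (exists_eps v (r v)).choose

theorem eps_ok {K : Type} [Field K] [NumberField K] (r : HeightOneSpectrum (𝓞 K) → ZMod 2)
    {v : HeightOneSpectrum (𝓞 K)} (h6 : (6 : 𝓞 K) ∉ v.asIdeal) : EpsOk v (r v) (eps r v) :=
  (exists_eps v (r v)).choose_spec h6

theorem la_eps {K : Type} [Field K] [NumberField K] {L : Type} [Field L] [NumberField L]
    [Algebra K L] {v : HeightOneSpectrum (𝓞 K)} {r : ZMod 2} {a : 𝓞 K} (ha : EpsOk v r a)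
    {w : HeightOneSpectrum (𝓞 L)} (hw : OddP w) (χ : 𝓞 L →+* 𝓞 K ⧸ v.asIdeal)
    (hχ0 : ∀ x : 𝓞 L, χ x = 0 ↔ x ∈ w.asIdeal)
    (hχ1 : ∀ a : 𝓞 K, χ (algebraMap (𝓞 K) (𝓞 L) a) = Ideal.Quotient.mk v.asIdeal a) :
    la w (sc ((algebraMap (𝓞 K) (𝓞 L) a : 𝓞 L) : L)) = r := by
  by_cases hr : r = 0
  · rw [hr, ha.one hr, map_one]
    have h1 : sc (((1 : 𝓞 L)) : L) = 0 :=
      (H38T1.sc_eq_zero (by
        rw [show (((1 : 𝓞 L)) : L) = 1 from map_one (algebraMap (𝓞 L) L)]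
        exact one_ne_zero)).2 ⟨1, by
          rw [show (((1 : 𝓞 L)) : L) = 1 from map_one (algebraMap (𝓞 L) L), mul_one]⟩
    rw [h1]
    exact H38T1.la_zero hw
  · have h1 : la w (sc ((algebraMap (𝓞 K) (𝓞 L) a : 𝓞 L) : L)) ≠ 0 := by
      intro h0
      have hz : algebraMap (𝓞 K) (𝓞 L) a ∉ w.asIdeal := by
        rw [← hχ0, hχ1, Ideal.Quotient.eq_zero_iff_mem]
        exact ha.nm
      have hne : algebraMap (𝓞 K) (𝓞 L) a ≠ 0 := by
        intro h2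
        apply hz
        rw [h2]
        exact w.asIdeal.zero_mem
      have h2 := isSquare_res hw χ (fun x hx => (hχ0 x).2 hx) hne hz (pow_two _) h0
      rw [hχ1] at h2
      exact ha.ns hr h2
    have h2 : ∀ x y : ZMod 2, x ≠ 0 → y ≠ 0 → x = y := by decide
    exact h2 _ _ h1 hr

section

variable {K : Type} [Field K] [NumberField K] {A B : 𝓞 K} {L : Type} [Field L]
    [NumberField L] [Algebra K L] {θ : L}

theorem coe_am (a : 𝓞 K) : ((algebraMap (𝓞 K) (𝓞 L) a : 𝓞 L) : L) = algebraMap K L (a : K) := rfl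

theorem coe_mul (x y : 𝓞 L) : ((x * y : 𝓞 L) : L) = (x : L) * (y : L) := rfl

theorem Prs_smul (h : Cub K L (A : K) (B : K) θ) {δ : 𝓞 L} {e : Fin 3 → 𝓞 L} (hpr : Prs h δ e)
    (a : 𝓞 K) : Prs h (algebraMap (𝓞 K) (𝓞 L) a * δ) (fun i => algebraMap (𝓞 K) (𝓞 L) a * e i) := by
  intro i j
  obtain ⟨y, c, hy, hc⟩ := hpr i j
  refine ⟨algebraMap (𝓞 K) (𝓞 L) a * y, fun k => a * c k, ?_, fun k => ?_⟩
  · calc algebraMap (𝓞 K) (𝓞 L) a * e i * (algebraMap (𝓞 K) (𝓞 L) a * e j)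
        = algebraMap (𝓞 K) (𝓞 L) a * algebraMap (𝓞 K) (𝓞 L) a * (e i * e j) := by ring
      _ = _ := by
        rw [hy]
        ring
  · rw [coe_mul, coe_am, ← Algebra.smul_def, map_smul, smul_eq_mul, hc]
    exact (map_mul (algebraMap (𝓞 K) K) a (c k)).symm

theorem smul_form {a : 𝓞 K} (ha : a ≠ 0) (x y δ : L) :
    (algebraMap K L (a : K) * x) * (algebraMap K L (a : K) * y) * (algebraMap K L (a : K) * δ)⁻¹ =
      (a : K) • (x * y * δ⁻¹) := by
  have h1 : algebraMap K L (a : K) ≠ 0 := by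
    rw [map_ne_zero]
    exact RingOfIntegers.coe_ne_zero_iff.mpr ha
  rw [Algebra.smul_def, mul_inv]
  field_simp

theorem res_condR (h : Cub K L (A : K) (B : K) θ) {δ : 𝓞 L} (hδ : δ ≠ 0)
    {e : Fin 3 → 𝓞 L} (hpr : Prs h δ e)
    (hli : LinearIndependent K (fun i => (e i : L))) {M N : Matrix (Fin 3) (Fin 3) (𝓞 K)}
    (hM : ∀ i j, (M i j : K) = Mx h (fun i => (e i : L)) (δ : L)⁻¹ i j)
    (hN : ∀ i j, (N i j : K) = Nx h (fun i => (e i : L)) (δ : L)⁻¹ i j)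
    (hchar : ∀ x : 𝓞 K, (x • M - N).det = M.det * (x ^ 3 + A * x + B))
    {v : HeightOneSpectrum (𝓞 K)} (hd : dsc A B ∉ v.asIdeal ^ 2) (h6 : (6 : 𝓞 K) ∉ v.asIdeal)
    (htyp : ∃ t : 𝓞 K, t ^ 3 + A * t + B ∈ v.asIdeal ∧
      ∀ s : 𝓞 K, -3 * t ^ 2 - 4 * A - s ^ 2 ∉ v.asIdeal) {r : ZMod 2} {a : 𝓞 K}
    (ha : EpsOk v r a)
    (hla : ∀ w : HeightOneSpectrum (𝓞 L), dn K w = v → la w (sc (δ : L)) = r)
    (hdet : M.det ∉ v.asIdeal) : Rs (rd v (a • M)) (rd v (a • N)) := by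
  obtain ⟨t, ht, hts⟩ := htyp
  obtain ⟨w, χ, hdn, hχ0, hχ1, hχ⟩ := exists_placeL h (lb_of h hd) ht
  have hw : OddP w := by
    have h2 : (2 : 𝓞 L) ∉ w.asIdeal := by
      intro h2
      have h3 : (2 : 𝓞 K) ∈ v.asIdeal := by
        rw [← hdn]
        change algebraMap (𝓞 K) (𝓞 L) 2 ∈ w.asIdeal
        rw [map_ofNat]
        exact h2
      apply h6
      rw [show (6 : 𝓞 K) = 3 * 2 by norm_num]
      exact v.asIdeal.mul_mem_left _ h3
    have h3 := (HeightOneSpectrum.valuation_eq_one_iff_notMem (K := L) w (r := (2 : 𝓞 L))).2 h2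
    unfold H38T1.OddP
    have h4 : algebraMap (𝓞 L) L 2 = 2 := map_ofNat _ 2
    rw [h4] at h3
    exact h3
  have ha0 : a ≠ 0 := by
    rintro rfl
    exact ha.nm v.asIdeal.zero_mem
  have haK : (a : K) ≠ 0 := RingOfIntegers.coe_ne_zero_iff.mpr ha0
  have haL : (algebraMap (𝓞 K) (𝓞 L) a : 𝓞 L) ≠ 0 := by
    intro h0
    have h1 := congrArg (fun x : 𝓞 L => (x : L)) h0
    rw [coe_am] at h1
    exact haK ((map_eq_zero _).1 (h1.trans (map_zero (algebraMap (𝓞 L) L))))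
  have hδL : (δ : L) ≠ 0 := RingOfIntegers.coe_ne_zero_iff.mpr hδ
  have haLL : ((algebraMap (𝓞 K) (𝓞 L) a : 𝓞 L) : L) ≠ 0 := RingOfIntegers.coe_ne_zero_iff.mpr haL
  have hla' : la w (sc ((algebraMap (𝓞 K) (𝓞 L) a * δ : 𝓞 L) : L)) = 0 := by
    rw [coe_mul, H38T1.sc_mul haLL hδL, H38T1.la_add hw, hla w hdn, la_eps ha hw χ hχ0 hχ1]
    have h2 : ∀ x : ZMod 2, x + x = 0 := by decide
    exact h2 r
  have hli' : LinearIndependent K (fun i => ((algebraMap (𝓞 K) (𝓞 L) a * e i : 𝓞 L) : L)) := by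
    have h1 : (fun i => ((algebraMap (𝓞 K) (𝓞 L) a * e i : 𝓞 L) : L)) =
        fun i => (Units.mk0 (a : K) haK) • (e i : L) := by
      funext i
      rw [coe_mul, coe_am, Units.smul_def, Units.val_mk0, Algebra.smul_def]
    rw [h1]
    exact hli.units_smul fun _ => Units.mk0 (a : K) haK
  have hM' : ∀ i j, ((a • M) i j : K) = Mx h (fun i => ((algebraMap (𝓞 K) (𝓞 L) a * e i : 𝓞 L) : L))
      ((algebraMap (𝓞 K) (𝓞 L) a * δ : 𝓞 L) : L)⁻¹ i j := by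
    intro i j
    rw [Mx, Matrix.of_apply, coe_mul, coe_mul, coe_mul, coe_am, smul_form ha0, map_smul,
      smul_eq_mul]
    change ((a * M i j : 𝓞 K) : K) = (a : K) * Mx h (fun i => (e i : L)) (δ : L)⁻¹ i j
    rw [← hM]
    exact map_mul (algebraMap (𝓞 K) K) a (M i j)
  have hN' : ∀ i j, ((a • N) i j : K) = Nx h (fun i => ((algebraMap (𝓞 K) (𝓞 L) a * e i : 𝓞 L) : L))
      ((algebraMap (𝓞 K) (𝓞 L) a * δ : 𝓞 L) : L)⁻¹ i j := by
    intro i j
    rw [Nx, Matrix.of_apply, coe_mul, coe_mul, coe_mul, coe_am, smul_form ha0, mul_smul_comm,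
      map_smul, smul_eq_mul]
    change ((a * N i j : 𝓞 K) : K) = (a : K) * Nx h (fun i => (e i : L)) (δ : L)⁻¹ i j
    rw [← hN]
    exact map_mul (algebraMap (𝓞 K) K) a (N i j)
  have hdm : (a • M).det = a ^ 3 * M.det := by
    rw [Matrix.det_smul, Fintype.card_fin]
  have hchar' : ∀ x : 𝓞 K, (x • (a • M) - a • N).det = (a • M).det * (x ^ 3 + A * x + B) := by
    intro x
    rw [smul_comm x a M, ← smul_sub, Matrix.det_smul, Fintype.card_fin, hchar, hdm]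
    ring
  have hdet' : (a • M).det ∉ v.asIdeal := by
    rw [hdm]
    intro h0
    rcases v.isPrime.mem_or_mem h0 with h1 | h1
    · exact ha.nm (v.isPrime.mem_of_pow_mem 3 h1)
    · exact hdet h1
  exact Fd_mainS h (mul_ne_zero haL hδ) (Prs_smul h hpr a) hli' hM' hN' hchar' h6 hdet' ht hts
    (Ideal.Quotient.mk v.asIdeal)
    (fun x => Ideal.Quotient.eq_zero_iff_mem) Ideal.Quotient.mk_surjective hw hla' χ
    (fun x hx => (hχ0 x).2 hx) hχ

end

end H54MQ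

end S_H54_MQ_Fd

section S_H54_MQ_Fe

set_option autoImplicit false
set_option linter.unusedSectionVars false
open scoped Classical

open WithZero NumberField IsDedekindDomain H38RT
open scoped Matrix
open H38T1 (SC sc scu rep eo la si Pri OddP tp unif)
open H76PP H54PP H36MT H76MQ

namespace H54MQ

theorem exists_datR (K : Type) [Field K] [NumberField K] (S : Finset (HeightOneSpectrum (𝓞 K)))
    (e₀ : ℕ) (he₀ : 1 ≤ e₀) : ∃ C₂ : ℝ, 1 ≤ C₂ ∧
    ∀ (q₀ : HeightOneSpectrum (𝓞 K)) (T : Finset (HeightOneSpectrum (𝓞 K))),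
      (∀ v ∈ T, (6 : 𝓞 K) ∉ v.asIdeal ∧ v ∉ S) → ∀ (A B : 𝓞 K) (X : ℝ), 0 ≤ X → (A, B) ∈ Bx K X →
      FamS S e₀ q₀ T A B → ∀ r : HeightOneSpectrum (𝓞 K) → ZMod 2, BadR S T r A B →
      ∃ (l : Fin 3 → ℝ) (M N : Matrix (Fin 3) (Fin 3) (𝓞 K)), DatE (eps r) X C₂ T A B l M N := by
  obtain ⟨C₂, hC₂, hred⟩ := reduceS K
  obtain ⟨r, hr0, hrS⟩ := exists_r S e₀
  have hrR : (1 : ℝ) ≤ (r : ℝ) := by exact_mod_cast hr0
  refine ⟨(r : ℝ) ^ 3 * C₂, one_le_mul_of_one_le_of_one_le (one_le_pow₀ hrR) hC₂, ?_⟩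
  intro q₀ T hT A B X hX hAB hF rp hbad
  obtain ⟨L, _, _, _, θ, c, hcub, hc0, hcH, hcl⟩ := hbad
  obtain ⟨hcn, hce⟩ := mem_HH.1 hcH
  obtain ⟨δ, hδ, hδc⟩ := Fe_rep c
  have hδL : (δ : L) ≠ 0 := RingOfIntegers.coe_ne_zero_iff.mpr hδ
  obtain ⟨I, hI0, hIn, hI⟩ := sq_ideal hδ {w | dn K w ∈ S} (fun w hw => by
    rw [hδc]
    exact hce w hw) (r := algebraMap (𝓞 K) (𝓞 L) (r : 𝓞 K)) (fun w hw => by
      have h1 : (r : 𝓞 K) ∈ (dn K w).asIdeal :=
        Ideal.pow_le_self (by omega) (hrS _ hw)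
      exact h1)
  have hns : ¬ IsSquare (δ : L) := by
    rw [← H38T1.sc_eq_zero hδL, hδc]
    exact hc0
  have hNs : IsSquare (Algebra.norm K (δ : L)) := by
    have h1 : scm (Algebra.norm K : L →* K) (sc (δ : L)) = 0 := by rw [hδc]; exact hcn
    rw [scm_sc _ hδL] at h1
    exact (H38T1.sc_eq_zero (scm_ne _ hδL)).1 h1
  have hd := hF.dsc_ne
  obtain ⟨e', heI, hli', l', hl', le01', le12', hprod'⟩ := hred L A B θ hcub hd δ I hδ hI0 hIn
  -- the vectors multiplied by `r`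
  obtain ⟨e, he⟩ : ∃ e : Fin 3 → 𝓞 L, e = fun i => (r : 𝓞 L) * e' i := ⟨_, rfl⟩
  have heL : ∀ i, (e i : L) = (r : L) * (e' i : L) := by
    intro i
    rw [he]
    change algebraMap (𝓞 L) L ((r : 𝓞 L) * e' i) = _
    rw [map_mul, map_natCast]
  have hrL : (r : L) ≠ 0 := Nat.cast_ne_zero.2 hr0.ne'
  have hli : LinearIndependent K (fun i => (e i : L)) := by
    have h1 : (fun i => (e i : L)) = fun i => (Units.mk0 (r : K) (Nat.cast_ne_zero.2 hr0.ne')) •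
        (e' i : L) := by
      funext i
      rw [heL, Units.smul_def, Units.val_mk0, Algebra.smul_def, map_natCast]
    rw [h1]
    exact hli'.units_smul fun _ => Units.mk0 (r : K) (Nat.cast_ne_zero.2 hr0.ne')
  obtain ⟨l, hldef⟩ : ∃ l : Fin 3 → ℝ, l = fun i => (r : ℝ) * l' i := ⟨_, rfl⟩
  have hl : ∀ i, l i = √(qw (wt (δ : L) (3 * θ ^ 2 + algebraMap K L (A : K))) (e i : L)) := by
    intro i
    rw [heL, sqrt_qw_mul, ← hl', hldef]
  have le01 : l 0 ≤ l 1 := by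
    rw [hldef]
    exact mul_le_mul_of_nonneg_left le01' (by positivity)
  have le12 : l 1 ≤ l 2 := by
    rw [hldef]
    exact mul_le_mul_of_nonneg_left le12' (by positivity)
  have hprod : l 0 * l 1 * l 2 ≤ (r : ℝ) ^ 3 * C₂ := by
    rw [hldef]
    calc (r : ℝ) * l' 0 * ((r : ℝ) * l' 1) * ((r : ℝ) * l' 2)
        = (r : ℝ) ^ 3 * (l' 0 * l' 1 * l' 2) := by ring
      _ ≤ _ := mul_le_mul_of_nonneg_left hprod' (by positivity)
  have hPrs : Prs hcub δ e := by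
    intro i j
    obtain ⟨z, hz⟩ := hI (e' i) (heI i) (e' j) (heI j)
    obtain ⟨cc, hcc⟩ := int_mul hcub hF.sqf hF.bdd hrS z
    refine ⟨(r : 𝓞 L) * z, cc, ?_, fun k => ?_⟩
    · rw [he]
      have h1 : algebraMap (𝓞 K) (𝓞 L) (r : 𝓞 K) = (r : 𝓞 L) := map_natCast _ r
      rw [h1] at hz
      calc (r : 𝓞 L) * e' i * ((r : 𝓞 L) * e' j) = (r : 𝓞 L) * ((r : 𝓞 L) * (e' i * e' j)) := by
            ring
        _ = δ * ((r : 𝓞 L) * z) := by rw [hz]; ring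
    · have h1 : (((r : 𝓞 L) * z : 𝓞 L) : L) = (r : K) • (z : L) := by
        change algebraMap (𝓞 L) L ((r : 𝓞 L) * z) = _
        rw [map_mul, map_natCast, Algebra.smul_def, map_natCast]
      rw [h1, map_smul, smul_eq_mul, ← hcc k]
      congr 1
  have hM' : ∀ i j, ∃ m : 𝓞 K, (m : K) = Mx hcub (fun i => (e i : L)) (δ : L)⁻¹ i j := by
    intro i j
    obtain ⟨y, cc, hy, hcc⟩ := hPrs i j
    refine ⟨cc 2, ?_⟩
    have h2 : (e i : L) * (e j : L) * (δ : L)⁻¹ = (y : L) := by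
      have h3 := congrArg (algebraMap (𝓞 L) L) hy
      rw [map_mul, map_mul] at h3
      rw [h3]
      field_simp
    rw [← hcc 2, ← h2]
    rfl
  have hN' : ∀ i j, ∃ m : 𝓞 K, (m : K) = Nx hcub (fun i => (e i : L)) (δ : L)⁻¹ i j := by
    intro i j
    obtain ⟨y, cc, hy, hcc⟩ := hPrs i j
    have h2 : (e i : L) * (e j : L) * (δ : L)⁻¹ = (y : L) := by
      have h3 := congrArg (algebraMap (𝓞 L) L) hy
      rw [map_mul, map_mul] at h3
      rw [h3]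
      field_simp
    refine ⟨cc 1, ?_⟩
    have h4 : hcub.co 2 (θ * ((e i : L) * (e j : L) * (δ : L)⁻¹)) = hcub.co 1 (y : L) := by
      rw [h2]
      exact Ec_theta hcub (y : L)
    rw [← hcc 1, ← h4]
    rfl
  choose M₀ hM₀ using hM'
  choose N₀ hN₀ using hN'
  set M : Matrix (Fin 3) (Fin 3) (𝓞 K) := Matrix.of M₀ with hMdef
  set N : Matrix (Fin 3) (Fin 3) (𝓞 K) := Matrix.of N₀ with hNdef
  have hM : ∀ i j, (M i j : K) = Mx hcub (fun i => (e i : L)) (δ : L)⁻¹ i j := hM₀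
  have hN : ∀ i j, (N i j : K) = Nx hcub (fun i => (e i : L)) (δ : L)⁻¹ i j := hN₀
  have hinj : Function.Injective (algebraMap (𝓞 K) K) := RingOfIntegers.coe_injective
  have hMm : M.map (algebraMap (𝓞 K) K) = Mx hcub (fun i => (e i : L)) (δ : L)⁻¹ := by
    ext i j
    exact hM i j
  have hNm : N.map (algebraMap (𝓞 K) K) = Nx hcub (fun i => (e i : L)) (δ : L)⁻¹ := by
    ext i j
    exact hN i j
  have hdetM : algebraMap (𝓞 K) K M.det = (Mx hcub (fun i => (e i : L)) (δ : L)⁻¹).det := by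
    rw [← hMm, RingHom.map_det]
    rfl
  have hMne := Mx_det hcub hli (inv_ne_zero hδL)
  have hchar : ∀ x : 𝓞 K, (x • M - N).det = M.det * (x ^ 3 + A * x + B) := by
    intro x
    apply hinj
    rw [RingHom.map_det, map_mul, hdetM]
    have h4 : (algebraMap (𝓞 K) K).mapMatrix (x • M - N) =
        algebraMap (𝓞 K) K x • Mx hcub (fun i => (e i : L)) (δ : L)⁻¹ -
          Nx hcub (fun i => (e i : L)) (δ : L)⁻¹ := by
      rw [← hMm, ← hNm]
      ext i j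
      change algebraMap (𝓞 K) K (x * M i j - N i j) =
        algebraMap (𝓞 K) K x * algebraMap (𝓞 K) K (M i j) - algebraMap (𝓞 K) K (N i j)
      rw [map_sub, map_mul]
    rw [h4, Mx_char]
    simp only [map_add, map_mul, map_pow]
  refine ⟨l, M, N, ?_, ?_⟩
  refine ⟨?_, le01, le12, hprod, ?_, ?_, ?_, ?_, ?_, hchar, ?_, ?_, fun v hv => absurd hv (Finset.notMem_empty v)⟩
  · -- pos
    rw [hl 0, Real.sqrt_pos]
    unfold qw
    refine Finset.sum_pos (fun τ _ => ?_) Finset.univ_nonempty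
    have h5 : (e 0 : L) ≠ 0 := hli.ne_zero 0
    have h6 : τ (e 0 : L) ≠ 0 := (map_ne_zero τ).2 h5
    have h7 : τ (δ : L) ≠ 0 := (map_ne_zero τ).2 hδL
    have h8 : τ (3 * θ ^ 2 + algebraMap K L (A : K)) ≠ 0 := (map_ne_zero τ).2 (hcub.der_ne hd)
    unfold wt
    have h6' : 0 < ‖τ (e 0 : L)‖ := norm_pos_iff.2 h6
    have h7' : 0 < ‖τ (δ : L)‖ := norm_pos_iff.2 h7
    have h8' : 0 < ‖τ (3 * θ ^ 2 + algebraMap K L (A : K))‖ := norm_pos_iff.2 h8
    positivity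
  · -- symM
    ext i j
    have h9 := congrFun (congrFun (Mx_symm hcub (fun i => (e i : L)) (δ : L)⁻¹) i) j
    rw [Matrix.transpose_apply] at h9 ⊢
    rw [hM j i, hM i j]
    exact h9
  · -- symN
    ext i j
    have h9 := congrFun (congrFun (Nx_symm hcub (fun i => (e i : L)) (δ : L)⁻¹) i) j
    rw [Matrix.transpose_apply] at h9 ⊢
    rw [hN j i, hN i j]
    exact h9
  · -- detM
    intro h0
    apply hMne
    rw [← hdetM, h0, map_zero]
  · -- bdM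
    intro s i j
    rw [hM i j, hl i, hl j]
    exact mx_bound hcub hd hδL s (e i : L) (e j : L)
  · -- bdN
    intro s i j
    rw [hN i j, hl i, hl j]
    exact nx_bound hcub hd hX hAB.1 hAB.2 hδL s (e i : L) (e j : L)
  · -- red
    intro h00 hN0
    have h10 : hcub.co 2 ((e 0 : L) * (e 0 : L) * (δ : L)⁻¹) = 0 := by
      have := hM 0 0
      rw [h00] at this
      exact this.symm.trans (map_zero (algebraMap (𝓞 K) K))
    refine hcub.red hδL (hli.ne_zero 0) hNs hns h10 ?_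
    have := hN 0 0
    rw [hN0] at this
    exact this.symm.trans (map_zero (algebraMap (𝓞 K) K))
  · -- fix
    rintro Q hQM hQN ⟨v, hv, hQv⟩
    have hinf : Infinite K := Infinite.of_injective ((↑) : ℕ → K) Nat.cast_injective
    set Q' := (algebraMap (𝓞 K) K).mapMatrix Q with hQ'
    have hMm' : (algebraMap (𝓞 K) K).mapMatrix M = Mx hcub (fun i => (e i : L)) (δ : L)⁻¹ := hMm
    have hNm' : (algebraMap (𝓞 K) K).mapMatrix N = Nx hcub (fun i => (e i : L)) (δ : L)⁻¹ := hNm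
    have hQT : Q'ᵀ = (algebraMap (𝓞 K) K).mapMatrix Qᵀ := rfl
    have hfix := fix_one (F := K) (M := Mx hcub (fun i => (e i : L)) (δ : L)⁻¹)
      (N := Nx hcub (fun i => (e i : L)) (δ : L)⁻¹) (Q := Q') (a := (A : K)) (b := (B : K))
      (e := fun i => (v i : K)) hMne (fun x => Mx_char _ _ _ x) (hF.no_root)
      (by rw [← hMm', hQT, hQ', ← map_mul, ← map_mul, hQM])
      (by rw [← hNm', hQT, hQ', ← map_mul, ← map_mul, hQN])
      (by
        intro h0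
        apply hv
        refine funext (fun i => ?_)
        have := congrFun h0 i
        have h15 : algebraMap (𝓞 K) K (v i) = algebraMap (𝓞 K) K 0 := by
          rw [map_zero]; exact this
        exact hinj h15)
      (by
        ext i
        have h11 := congrFun hQv i
        have h12 := congrArg (algebraMap (𝓞 K) K) h11
        change (Q'.mulVec fun i => (v i : K)) i = algebraMap (𝓞 K) K (v i)
        rw [← h12]
        simp [hQ', Matrix.mulVec, dotProduct, Matrix.map_apply])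
    have h13 : (algebraMap (𝓞 K) K).mapMatrix Q = (algebraMap (𝓞 K) K).mapMatrix 1 := by
      rw [map_one]; exact hfix
    exact Matrix.map_injective hinj h13
  · -- res
    intro v hv hdet
    exact res_condR hcub hδ hPrs hli hM hN hchar (hF.sqf v (hT v hv).2) (hT v hv).1 (hF.typ v hv)
      (eps_ok rp (hT v hv).1)
      (fun w hw => by rw [hδc, hcl w (by rw [hw]; exact hv), hw]) hdet

end H54MQ

end S_H54_MQ_Fe

section S_H54_MQ_Zc

set_option autoImplicit false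
set_option linter.unusedSectionVars false
open scoped Classical

open WithZero NumberField IsDedekindDomain H38RT
open H38T1 (SC sc scu rep eo la si Pri OddP tp unif)
open H76PP H54PP H36MT H76MQ

namespace H54MQ

/-- The number of pairs for which the pattern `r` is realised by a nonzero class. -/
theorem bad_countR (K : Type) [Field K] [NumberField K] (hfin : ∀ X : ℝ, (Bx K X).Finite)
    (S : Finset (HeightOneSpectrum (𝓞 K))) (e : ℕ) (he : 1 ≤ e) :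
    ∃ (C : ℝ) (N₀ : ℕ), 0 < C ∧
    ∀ T : Finset (HeightOneSpectrum (𝓞 K)),
      (∀ v ∈ T, N₀ ≤ Nv v ∧ (6 : 𝓞 K) ∉ v.asIdeal ∧ v ∉ S) → ∃ X₀ : ℝ, ∀ X : ℝ, X₀ ≤ X →
      ∀ (q₀ : HeightOneSpectrum (𝓞 K)) (r : HeightOneSpectrum (𝓞 K) → ZMod 2),
        ({p : 𝓞 K × 𝓞 K | p ∈ Bx K X ∧ FamS S e q₀ T p.1 p.2 ∧ BadR S T r p.1 p.2}.ncard : ℝ) ≤
          C * (∏ v ∈ T, ((1 + 1 / (Nv v : ℝ)) ^ 2 / 4)) * X ^ (5 * Module.finrank ℚ K) := by
  obtain ⟨C₂, hC₂, hdat⟩ := exists_datR K S e he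
  obtain ⟨C, N₀, hC, h⟩ := datE_count K C₂
  refine ⟨C, N₀, hC, fun T hT => ?_⟩
  obtain ⟨X₀, hX₀⟩ := h T fun v hv => ⟨(hT v hv).1, (hT v hv).2.1⟩
  refine ⟨max X₀ 0, fun X hX q₀ r => ?_⟩
  refine le_trans ?_ (hX₀ X ((le_max_left _ _).trans hX) (eps r)
    fun v hv => (eps_ok r (hT v hv).2.1).nm)
  have hf : {p : 𝓞 K × 𝓞 K | p ∈ Bx K X ∧ ∃ (l : Fin 3 → ℝ)
      (M N : Matrix (Fin 3) (Fin 3) (𝓞 K)), DatE (eps r) X C₂ T p.1 p.2 l M N}.Finite :=
    (hfin X).subset fun p hp => hp.1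
  have hsub : {p : 𝓞 K × 𝓞 K | p ∈ Bx K X ∧ FamS S e q₀ T p.1 p.2 ∧ BadR S T r p.1 p.2} ⊆
      {p : 𝓞 K × 𝓞 K | p ∈ Bx K X ∧ ∃ (l : Fin 3 → ℝ)
      (M N : Matrix (Fin 3) (Fin 3) (𝓞 K)), DatE (eps r) X C₂ T p.1 p.2 l M N} := fun p hp =>
    ⟨hp.1, hdat q₀ T (fun v hv => (hT v hv).2) p.1 p.2 X
      ((le_max_right _ _).trans hX) hp.1 hp.2.1 r hp.2.2⟩
  have h1 := Set.ncard_le_ncard hsub hf
  exact_mod_cast h1

end H54MQ

end S_H54_MQ_Zc

section S_H36_MX_Cd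

set_option autoImplicit false
set_option linter.unusedSectionVars false
open scoped Classical

open WithZero NumberField IsDedekindDomain H38RT
open H38T1 (SC sc scu rep eo la si Pri OddP tp unif)
open H76PP H36MT H76MQ

namespace H36MX

private lemma Cd_rho {K : Type} [Field K] [NumberField K] (v : HeightOneSpectrum (𝓞 K)) :
    2 ≤ Nv v := by
  have h1 : Nv v ≠ 0 := by
    rw [Nv]
    exact Ideal.absNorm_eq_zero_iff.not.2 v.ne_bot
  have h2 : Nv v ≠ 1 := by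
    rw [Nv]
    exact Ideal.absNorm_eq_one_iff.not.2 v.isPrime.ne_top
  omega

private lemma Cd_pos {K : Type} [Field K] [NumberField K] (v : HeightOneSpectrum (𝓞 K)) :
    0 < 1 / 2 * (1 - 1 / (Nv v : ℝ)) := by
  have h1 : (2 : ℝ) ≤ (Nv v : ℝ) := by exact_mod_cast Cd_rho v
  have h2 : 1 / (Nv v : ℝ) ≤ 1 / 2 := one_div_le_one_div_of_le (by norm_num) h1
  linarith

private lemma Cd_exp : Real.exp (1 / 2) ≤ 2 := by
  have h1 : Real.exp (1 / 2) ^ 2 = Real.exp 1 := by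
    rw [← Real.exp_nat_mul]
    norm_num
  have h2 := Real.exp_one_lt_d9
  have h3 := Real.exp_pos (1 / 2)
  nlinarith

theorem sparse {K : Type} [Field K] [NumberField K] {U : Finset (HeightOneSpectrum (𝓞 K))}
    (hU : ∑ v ∈ U, 1 / (Nv v : ℝ) ≤ 1 / 8) :
    2 ^ U.card * (∏ v ∈ U, ((1 + 1 / (Nv v : ℝ)) ^ 2 / 4)) ≤
      2 * ∏ v ∈ U, (1 / 2 * (1 - 1 / (Nv v : ℝ))) := by
  have hx0 : ∀ v : HeightOneSpectrum (𝓞 K), 0 ≤ 1 / (Nv v : ℝ) := fun v => by positivity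
  have hx : ∀ v ∈ U, 1 / (Nv v : ℝ) ≤ 1 / 8 := fun v hv =>
    (Finset.single_le_sum (f := fun v => 1 / (Nv v : ℝ)) (fun v _ => hx0 v) hv).trans hU
  have h1 : 2 ^ U.card * (∏ v ∈ U, ((1 + 1 / (Nv v : ℝ)) ^ 2 / 4)) =
      ∏ v ∈ U, (2 * ((1 + 1 / (Nv v : ℝ)) ^ 2 / 4)) := by
    rw [Finset.prod_mul_distrib, Finset.prod_const]
  have h2 : ∏ v ∈ U, (2 * ((1 + 1 / (Nv v : ℝ)) ^ 2 / 4)) ≤
      ∏ v ∈ U, ((1 + 4 * (1 / (Nv v : ℝ))) * (1 / 2 * (1 - 1 / (Nv v : ℝ)))) := by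
    refine Finset.prod_le_prod (fun v _ => by positivity) fun v hv => ?_
    have := hx v hv
    have := hx0 v
    nlinarith
  have h3 : ∏ v ∈ U, (1 + 4 * (1 / (Nv v : ℝ))) ≤ 2 := by
    calc ∏ v ∈ U, (1 + 4 * (1 / (Nv v : ℝ))) ≤ ∏ v ∈ U, Real.exp (4 * (1 / (Nv v : ℝ))) := by
          refine Finset.prod_le_prod (fun v _ => by have := hx0 v; positivity) fun v _ => ?_
          have := Real.add_one_le_exp (4 * (1 / (Nv v : ℝ)))
          linarith
      _ = Real.exp (∑ v ∈ U, 4 * (1 / (Nv v : ℝ))) := (Real.exp_sum _ _).symm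
      _ ≤ Real.exp (1 / 2) := by
          rw [Real.exp_le_exp, ← Finset.mul_sum]
          linarith
      _ ≤ 2 := Cd_exp
  rw [h1]
  refine h2.trans ?_
  rw [Finset.prod_mul_distrib]
  exact mul_le_mul_of_nonneg_right h3 (Finset.prod_nonneg fun v _ => (Cd_pos v).le)

private lemma Cd_count {α β : Type} {T₁ T₂ : Finset α} {b : ℕ} (hb : 1 ≤ b)
    (F : Finset β) (P : Finset α → Set β) {Y : ℝ}
    (hP : ∀ W ⊆ T₁ ∪ T₂, (P W).Finite ∧ ((P W).ncard : ℝ) ≤ Y)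
    (hF : ∀ p ∈ F, (∃ W ⊆ T₁ ∪ T₂, Unb T₁ b (W ∩ T₁) ∧ p ∈ P W) ∨
      ∃ 𝒜 : Finset (Finset α), b ≤ 𝒜.card ∧ ∀ W ∈ 𝒜, W ⊆ T₁ ∪ T₂ ∧ p ∈ P W) :
    (F.card : ℝ) ≤ ((T₁.powerset.filter (fun A => Unb T₁ b A)).card : ℝ) * 2 ^ T₂.card * Y +
      2 ^ (T₁ ∪ T₂).card * Y / b := by
  have hcard : ∀ W ⊆ T₁ ∪ T₂, ∀ f : Finset β, ((f.filter (fun p => p ∈ P W)).card : ℝ) ≤ Y := by
    intro W hW f
    refine le_trans ?_ (hP W hW).2
    have h1 : ((f.filter (fun p => p ∈ P W) : Finset β) : Set β).ncard ≤ (P W).ncard :=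
      Set.ncard_le_ncard (fun p hp => (Finset.mem_filter.1 hp).2) (hP W hW).1
    rw [Set.ncard_coe_finset] at h1
    exact_mod_cast h1
  have hY : 0 ≤ Y := by
    have := hcard ∅ (Finset.empty_subset _) ∅
    simpa using this
  set F₁ := F.filter (fun p => ∃ W ⊆ T₁ ∪ T₂, Unb T₁ b (W ∩ T₁) ∧ p ∈ P W) with hF₁
  set F₂ := F.filter (fun p => ∃ 𝒜 : Finset (Finset α), b ≤ 𝒜.card ∧
    ∀ W ∈ 𝒜, W ⊆ T₁ ∪ T₂ ∧ p ∈ P W) with hF₂
  have hsplit : F ⊆ F₁ ∪ F₂ := by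
    intro p hp
    rw [Finset.mem_union, hF₁, hF₂, Finset.mem_filter, Finset.mem_filter]
    rcases hF p hp with h | h
    exacts [Or.inl ⟨hp, h⟩, Or.inr ⟨hp, h⟩]
  have h0 : (F.card : ℝ) ≤ F₁.card + F₂.card := by
    exact_mod_cast (Finset.card_le_card hsplit).trans (Finset.card_union_le _ _)
  -- first part
  set 𝒲 := (T₁ ∪ T₂).powerset.filter (fun W => Unb T₁ b (W ∩ T₁)) with h𝒲
  have h1 : (F₁.card : ℝ) ≤ 𝒲.card * Y := by
    have hs : F₁ ⊆ 𝒲.biUnion (fun W => F₁.filter (fun p => p ∈ P W)) := by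
      intro p hp
      have hp' := hp
      rw [hF₁, Finset.mem_filter] at hp'
      obtain ⟨W, hW, hu, hpW⟩ := hp'.2
      rw [Finset.mem_biUnion]
      exact ⟨W, Finset.mem_filter.2 ⟨Finset.mem_powerset.2 hW, hu⟩,
        Finset.mem_filter.2 ⟨hp, hpW⟩⟩
    calc (F₁.card : ℝ) ≤ ((∑ W ∈ 𝒲, (F₁.filter (fun p => p ∈ P W)).card : ℕ) : ℝ) := by
          exact_mod_cast (Finset.card_le_card hs).trans Finset.card_biUnion_le
      _ = ∑ W ∈ 𝒲, ((F₁.filter (fun p => p ∈ P W)).card : ℝ) := by push_cast; rfl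
      _ ≤ ∑ W ∈ 𝒲, Y := Finset.sum_le_sum fun W hW =>
          hcard W (Finset.mem_powerset.1 (Finset.mem_filter.1 hW).1) _
      _ = 𝒲.card * Y := by rw [Finset.sum_const, nsmul_eq_mul]
  have h2 : 𝒲.card ≤ (T₁.powerset.filter (fun A => Unb T₁ b A)).card * 2 ^ T₂.card := by
    rw [← Finset.card_powerset, ← Finset.card_product]
    refine Finset.card_le_card_of_injOn (fun W => (W ∩ T₁, W ∩ T₂)) ?_ ?_
    · intro W hW
      have hW' := Finset.mem_filter.1 (Finset.mem_coe.1 hW)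
      rw [Finset.mem_coe, Finset.mem_product, Finset.mem_filter, Finset.mem_powerset,
        Finset.mem_powerset]
      exact ⟨⟨Finset.inter_subset_right, hW'.2⟩, Finset.inter_subset_right⟩
    · intro W hW W' hW' he
      have hW1 := Finset.mem_powerset.1 (Finset.mem_filter.1 (Finset.mem_coe.1 hW)).1
      have hW2 := Finset.mem_powerset.1 (Finset.mem_filter.1 (Finset.mem_coe.1 hW')).1
      rw [Prod.mk.injEq] at he
      have e1 : W = (W ∩ T₁) ∪ (W ∩ T₂) := by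
        rw [← Finset.inter_union_distrib_left]
        exact (Finset.inter_eq_left.2 hW1).symm
      have e2 : W' = (W' ∩ T₁) ∪ (W' ∩ T₂) := by
        rw [← Finset.inter_union_distrib_left]
        exact (Finset.inter_eq_left.2 hW2).symm
      rw [e1, e2, he.1, he.2]
  -- second part
  have h3 : (b : ℝ) * F₂.card ≤ 2 ^ (T₁ ∪ T₂).card * Y := by
    have h4 : ∀ p ∈ F₂, b ≤ ((T₁ ∪ T₂).powerset.filter (fun W => p ∈ P W)).card := by
      intro p hp
      rw [hF₂, Finset.mem_filter] at hp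
      obtain ⟨𝒜, h𝒜, hW⟩ := hp.2
      refine h𝒜.trans (Finset.card_le_card fun W hWA => ?_)
      rw [Finset.mem_filter, Finset.mem_powerset]
      exact hW W hWA
    have h5 : F₂.card * b ≤ ∑ W ∈ (T₁ ∪ T₂).powerset, (F₂.filter (fun p => p ∈ P W)).card := by
      calc F₂.card * b = ∑ p ∈ F₂, b := by rw [Finset.sum_const, smul_eq_mul]
        _ ≤ ∑ p ∈ F₂, ((T₁ ∪ T₂).powerset.filter (fun W => p ∈ P W)).card := Finset.sum_le_sum h4
        _ = ∑ W ∈ (T₁ ∪ T₂).powerset, (F₂.filter (fun p => p ∈ P W)).card := by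
            simp only [Finset.card_filter]
            exact Finset.sum_comm
    calc (b : ℝ) * F₂.card = ((F₂.card * b : ℕ) : ℝ) := by push_cast; ring
      _ ≤ ((∑ W ∈ (T₁ ∪ T₂).powerset, (F₂.filter (fun p => p ∈ P W)).card : ℕ) : ℝ) := by
          exact_mod_cast h5
      _ = ∑ W ∈ (T₁ ∪ T₂).powerset, ((F₂.filter (fun p => p ∈ P W)).card : ℝ) := by
          push_cast; rfl
      _ ≤ ∑ W ∈ (T₁ ∪ T₂).powerset, Y := Finset.sum_le_sum fun W hW =>
          hcard W (Finset.mem_powerset.1 hW) _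
      _ = 2 ^ (T₁ ∪ T₂).card * Y := by
          rw [Finset.sum_const, Finset.card_powerset, nsmul_eq_mul]
          push_cast
          ring
  have hb0 : (0 : ℝ) < b := by exact_mod_cast hb
  have h6 : (F₂.card : ℝ) ≤ 2 ^ (T₁ ∪ T₂).card * Y / b := by
    rw [le_div_iff₀ hb0]
    linarith
  have h7 : (F₁.card : ℝ) ≤ ((T₁.powerset.filter (fun A => Unb T₁ b A)).card : ℝ) *
      2 ^ T₂.card * Y := by
    refine h1.trans (mul_le_mul_of_nonneg_right ?_ hY)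
    exact_mod_cast h2
  linarith

theorem stage (K : Type) [Field K] [NumberField K] (S : Finset (HeightOneSpectrum (𝓞 K))) {e : ℕ}
    (he : 2 ≤ e) (T₀ : Finset (HeightOneSpectrum (𝓞 K))) (hT₀ : ∀ v ∈ T₀, v ∉ S) {δ : ℝ}
    (hδ : 0 < δ) : ∃ b N₀ M : ℕ, 1 ≤ b ∧ 1 ≤ M ∧ ∀ T₁ T₂ : Finset (HeightOneSpectrum (𝓞 K)),
      Disjoint T₁ T₂ → (∀ v ∈ T₁ ∪ T₂, N₀ ≤ Nv v ∧ (6 : 𝓞 K) ∉ v.asIdeal ∧ v ∉ S ∧ v ∉ T₀) →
      M ≤ T₁.card → ∑ v ∈ T₁ ∪ T₂, 1 / (Nv v : ℝ) ≤ 1 / 8 → ∃ X₀ : ℝ, ∀ X : ℝ, X₀ ≤ X →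
      ∀ q₀ : HeightOneSpectrum (𝓞 K),
        ({p : 𝓞 K × 𝓞 K | p ∈ Bx K X ∧ FamS S e q₀ (T₀ ∪ (T₁ ∪ T₂)) p.1 p.2 ∧
          ¬ GoodSt (S ∪ T₀) T₁ b p.1 p.2}.ncard : ℝ) ≤
          δ * (∏ v ∈ T₀ ∪ (T₁ ∪ T₂), (1 / 2 * (1 - 1 / (Nv v : ℝ)))) *
            X ^ (5 * Module.finrank ℚ K) := by
  obtain ⟨C, N₀, hC, hcount⟩ := H54MQ.bad_countR K (H36PP.Bx_finite K) (S ∪ T₀) e (by omega)
  set P0 : ℝ := ∏ v ∈ T₀, (1 / 2 * (1 - 1 / (Nv v : ℝ))) with hP0
  have hP0' : 0 < P0 := Finset.prod_pos fun v _ => Cd_pos v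
  have hδP : 0 < δ * P0 := mul_pos hδ hP0'
  obtain ⟨b₀, hb₀⟩ := exists_nat_ge (4 * C / (δ * P0))
  set b : ℕ := b₀ + 1 with hb
  have hb1 : 4 * C ≤ δ * P0 * b := by
    rw [div_le_iff₀ hδP] at hb₀
    push_cast [hb]
    nlinarith
  obtain ⟨M₀, hM₀⟩ := exists_nat_ge (4 * C * b ^ 2 / (δ * P0))
  set M : ℕ := M₀ + 1 with hM
  have hM1 : 4 * C * b ^ 2 ≤ δ * P0 * M := by
    rw [div_le_iff₀ hδP] at hM₀
    push_cast [hM]
    nlinarith
  refine ⟨b, N₀, M, by omega, by omega, fun T₁ T₂ hdis hT hMT hsum => ?_⟩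
  set U := T₁ ∪ T₂ with hU
  obtain ⟨X₀, hX₀⟩ := hcount U fun v hv => ⟨(hT v hv).1, (hT v hv).2.1, by
    rw [Finset.mem_union, not_or]
    exact (hT v hv).2.2⟩
  refine ⟨max X₀ 0, fun X hX q₀ => ?_⟩
  have hXX : X₀ ≤ X := (le_max_left _ _).trans hX
  have hX0 : 0 ≤ X := (le_max_right _ _).trans hX
  have hXn : 0 ≤ X ^ (5 * Module.finrank ℚ K) := pow_nonneg hX0 _
  set Xn := X ^ (5 * Module.finrank ℚ K) with hXndef
  set SU : ℝ := ∏ v ∈ U, ((1 + 1 / (Nv v : ℝ)) ^ 2 / 4) with hSU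
  set PU : ℝ := ∏ v ∈ U, (1 / 2 * (1 - 1 / (Nv v : ℝ))) with hPU
  have hSU0 : 0 ≤ SU := Finset.prod_nonneg fun v _ => by positivity
  have hPU0 : 0 < PU := Finset.prod_pos fun v _ => Cd_pos v
  have hsp : 2 ^ U.card * SU ≤ 2 * PU := sparse hsum
  set Fs : Set (𝓞 K × 𝓞 K) := {p : 𝓞 K × 𝓞 K | p ∈ Bx K X ∧
    FamS S e q₀ (T₀ ∪ U) p.1 p.2 ∧ ¬ GoodSt (S ∪ T₀) T₁ b p.1 p.2} with hFs
  have hFfin : Fs.Finite := (H36PP.Bx_finite K X).subset fun p hp => hp.1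
  set P : Finset (HeightOneSpectrum (𝓞 K)) → Set (𝓞 K × 𝓞 K) := fun W =>
    {p : 𝓞 K × 𝓞 K | p ∈ Bx K X ∧ FamS (S ∪ T₀) e q₀ U p.1 p.2 ∧
      BadR (S ∪ T₀) U (ind W) p.1 p.2} with hP
  have hfam : ∀ p ∈ Fs, FamS (S ∪ T₀) e q₀ U p.1 p.2 := by
    rintro p ⟨-, hf, -⟩
    refine ⟨hf.irr, fun v hv => hf.typ v (Finset.mem_union_right _ hv), ?_, ?_⟩
    · intro v hv
      rw [Finset.mem_union, not_or] at hv
      exact hf.sqf v hv.1
    · intro v hv
      rw [Finset.mem_union] at hv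
      by_cases hvS : v ∈ S
      · exact hf.bdd v hvS
      · exact fun h => hf.sqf v hvS (Ideal.pow_le_pow_right he h)
  have hmain := Cd_count (T₁ := T₁) (T₂ := T₂) (b := b) (by omega) hFfin.toFinset P
    (Y := C * SU * Xn)
    (fun W _ => ⟨(H36PP.Bx_finite K X).subset fun p hp => hp.1, hX₀ X hXX q₀ (ind W)⟩) (by
      intro p hp
      rw [Set.Finite.mem_toFinset] at hp
      have hf := hfam p hp
      have hT1 : T₁.Nonempty := by
        rw [← Finset.card_pos]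
        omega
      rcases dicho (S' := S ∪ T₀) (U := U) (T₁ := T₁) (fun v hv => ⟨(hT v hv).2.1, by
        rw [Finset.mem_union, not_or]
        exact (hT v hv).2.2⟩) Finset.subset_union_left hT1 (b := b) (by omega) hf hp.2.2 with h | h
      · obtain ⟨W, hW, hu, hbad⟩ := h
        exact Or.inl ⟨W, hW, hu, hp.1, hf, hbad⟩
      · obtain ⟨𝒜, h𝒜, hW⟩ := h
        exact Or.inr ⟨𝒜, h𝒜, fun W hWA => ⟨(hW W hWA).1, hp.1, hf, (hW W hWA).2⟩⟩)
  have hnc : (Fs.ncard : ℝ) = (hFfin.toFinset.card : ℝ) := by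
    rw [Set.ncard_eq_toFinset_card _ hFfin]
  rw [hnc]
  refine hmain.trans ?_
  have hub := unb_count T₁ b
  set ub := (T₁.powerset.filter (fun A => Unb T₁ b A)).card with hubd
  have hub1 : (M : ℝ) * ub ≤ b ^ 2 * 2 ^ T₁.card := by
    have h1 : M * ub ≤ b ^ 2 * 2 ^ T₁.card := (Nat.mul_le_mul_right _ hMT).trans hub
    exact_mod_cast h1
  have hcU : (2 : ℝ) ^ U.card = 2 ^ T₁.card * 2 ^ T₂.card := by
    rw [hU, Finset.card_union_of_disjoint hdis, pow_add]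
  have hprod : ∏ v ∈ T₀ ∪ U, (1 / 2 * (1 - 1 / (Nv v : ℝ))) = P0 * PU := by
    rw [Finset.prod_union]
    rw [Finset.disjoint_left]
    intro v hv hvU
    exact (hT v hvU).2.2.2 hv
  rw [hprod]
  have hb0 : (0 : ℝ) < b := by
    rw [hb]
    positivity
  have hM0 : (0 : ℝ) < M := by
    rw [hM]
    positivity
  have hYY : 2 ^ U.card * (C * SU * Xn) ≤ 2 * C * PU * Xn := by
    have h1 := mul_le_mul_of_nonneg_left hsp (mul_nonneg hC.le hXn)
    nlinarith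
  have hY0 : 0 ≤ C * SU * Xn := mul_nonneg (mul_nonneg hC.le hSU0) hXn
  have t1 : (ub : ℝ) * 2 ^ T₂.card * (C * SU * Xn) ≤ δ * P0 * PU * Xn / 2 := by
    have h1 : (ub : ℝ) * 2 ^ T₂.card ≤ b ^ 2 / M * 2 ^ U.card := by
      rw [hcU, div_mul_eq_mul_div, le_div_iff₀ hM0]
      calc (ub : ℝ) * 2 ^ T₂.card * M = (M * ub) * 2 ^ T₂.card := by ring
        _ ≤ (b ^ 2 * 2 ^ T₁.card) * 2 ^ T₂.card := by gcongr
        _ = _ := by ring
    have h2 : 4 * C * ((b : ℝ) ^ 2 / M) ≤ δ * P0 := by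
      rw [mul_div_assoc', div_le_iff₀ hM0]
      exact hM1
    calc (ub : ℝ) * 2 ^ T₂.card * (C * SU * Xn) ≤ b ^ 2 / M * 2 ^ U.card * (C * SU * Xn) :=
          mul_le_mul_of_nonneg_right h1 hY0
      _ = b ^ 2 / M * (2 ^ U.card * (C * SU * Xn)) := by ring
      _ ≤ b ^ 2 / M * (2 * C * PU * Xn) := by gcongr
      _ = (4 * C * (b ^ 2 / M)) * (PU * Xn) / 2 := by ring
      _ ≤ (δ * P0) * (PU * Xn) / 2 := by gcongr
      _ = _ := by ring
  have t2 : 2 ^ U.card * (C * SU * Xn) / b ≤ δ * P0 * PU * Xn / 2 := by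
    rw [div_le_iff₀ hb0]
    have h1 : 0 ≤ PU * Xn := mul_nonneg hPU0.le hXn
    calc 2 ^ U.card * (C * SU * Xn) ≤ 2 * C * PU * Xn := hYY
      _ = (4 * C) * (PU * Xn) / 2 := by ring
      _ ≤ (δ * P0 * b) * (PU * Xn) / 2 := by gcongr
      _ = _ := by ring
  calc _ ≤ δ * P0 * PU * Xn / 2 + δ * P0 * PU * Xn / 2 := add_le_add t1 t2
    _ = _ := by ring

end H36MX

end S_H36_MX_Cd

section S_H36_MX_Ce

set_option autoImplicit false
set_option linter.unusedSectionVars false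
open scoped Classical

open WithZero NumberField IsDedekindDomain H38RT
open H38T1 (SC sc scu rep eo la si Pri OddP tp unif)
open H76PP H36MT H76MQ

namespace H36MX

private theorem Ce_seq {V : Type} (Z' : Set V) (nv : V → ℕ)
    (hT : ∀ (U : Finset V) (N k : ℕ), ∃ T : Finset V,
      (∀ v ∈ T, v ∈ Z' ∧ v ∉ U ∧ N ≤ nv v) ∧ T.card = k)
    (Nf Mf : Finset V → ℕ → ℕ) :
    ∃ T : ℕ → Finset V, (∀ l, ∀ v ∈ T l, v ∈ Z') ∧ (∀ i j, i ≠ j → Disjoint (T i) (T j)) ∧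
      (∀ l, (T l).card = Mf ((Finset.range l).biUnion T) l) ∧
      (∀ i l, i ≤ l → ∀ v ∈ T l, Nf ((Finset.range i).biUnion T) i ≤ nv v) ∧
      ∀ l, ∀ v ∈ T l, 16 * 2 ^ l * Mf ((Finset.range l).biUnion T) l ≤ nv v := by
  choose T hT hTc using hT
  obtain ⟨F, hF⟩ : ∃ F : ℕ → Finset V → ℕ → Finset V, ∀ l U n,
      F l U n = T U (max n (max (Nf U l) (16 * 2 ^ l * Mf U l))) (Mf U l) := ⟨_, fun _ _ _ => rfl⟩
  obtain ⟨st, h0, hs⟩ : ∃ st : ℕ → Finset V × ℕ, st 0 = (∅, 0) ∧ ∀ l, st (l + 1) =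
      ((st l).1 ∪ F l (st l).1 (st l).2, max (st l).2 (Nf (st l).1 l)) :=
    ⟨fun l => Nat.rec (∅, 0) (fun l s => (s.1 ∪ F l s.1 s.2, max s.2 (Nf s.1 l))) l, rfl,
      fun l => rfl⟩
  obtain ⟨Tl, hTl⟩ : ∃ Tl : ℕ → Finset V, ∀ l, Tl l = F l (st l).1 (st l).2 := ⟨_, fun _ => rfl⟩
  have h1 : ∀ l, (st l).1 = (Finset.range l).biUnion Tl := by
    intro l
    induction l with
    | zero => rw [h0, Finset.range_zero, Finset.biUnion_empty]
    | succ l ih =>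
      rw [hs, Finset.range_add_one, Finset.biUnion_insert, ← ih, ← hTl, Finset.union_comm]
  have h2 : ∀ l, ∀ v ∈ Tl l, v ∈ Z' ∧ v ∉ (Finset.range l).biUnion Tl ∧ (st l).2 ≤ nv v ∧
      Nf ((Finset.range l).biUnion Tl) l ≤ nv v ∧
      16 * 2 ^ l * Mf ((Finset.range l).biUnion Tl) l ≤ nv v := by
    intro l v hv
    rw [hTl, hF] at hv
    obtain ⟨a, b, c⟩ := hT _ _ _ v hv
    rw [← h1]
    exact ⟨a, b, (le_max_left _ _).trans c, ((le_max_left _ _).trans (le_max_right _ _)).trans c,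
      ((le_max_right _ _).trans (le_max_right _ _)).trans c⟩
  have h3 : ∀ i l, i < l → Nf ((Finset.range i).biUnion Tl) i ≤ (st l).2 := by
    intro i l
    induction l with
    | zero => intro h; exact absurd h (Nat.not_lt_zero _)
    | succ l ih =>
      intro h
      rw [hs]
      rcases Nat.lt_succ_iff_lt_or_eq.1 h with h | h
      · exact (ih h).trans (le_max_left _ _)
      · rw [h, ← h1]
        exact le_max_right _ _
  have h4 : ∀ i j, i < j → Disjoint (Tl i) (Tl j) := by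
    intro i j hij
    rw [Finset.disjoint_left]
    intro v hv hv'
    exact (h2 j v hv').2.1 (Finset.mem_biUnion.2 ⟨i, Finset.mem_range.2 hij, hv⟩)
  refine ⟨Tl, fun l v hv => (h2 l v hv).1, fun i j hij => ?_, fun l => ?_, fun i l hil v hv => ?_,
    fun l v hv => (h2 l v hv).2.2.2.2⟩
  · rcases lt_or_gt_of_ne hij with h | h
    · exact h4 i j h
    · exact (h4 j i h).symm
  · rw [hTl, hF, hTc, h1]
  · rcases hil.lt_or_eq with h | h
    · exact (h3 i l h).trans (h2 l v hv).2.2.1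
    · rw [h]
      exact (h2 l v hv).2.2.2.1

private theorem Ce_geo (k : ℕ) :
    ∑ i ∈ Finset.range k, (1 : ℝ) / (16 * 2 ^ i) = 1 / 8 - 1 / (8 * 2 ^ k) := by
  induction k with
  | zero => norm_num
  | succ k ih =>
    rw [Finset.sum_range_succ, ih, pow_succ]
    have h : (2 : ℝ) ^ k ≠ 0 := by positivity
    field_simp
    ring

private theorem Ce_geo2 (c : ℝ) (k : ℕ) :
    ∑ i ∈ Finset.range k, c / 2 ^ (i + 2) = c / 2 - c / (2 * 2 ^ k) := by
  induction k with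
  | zero => norm_num
  | succ k ih =>
    rw [Finset.sum_range_succ, ih, pow_add, pow_succ]
    have h : (2 : ℝ) ^ k ≠ 0 := by positivity
    field_simp
    ring

private theorem Ce_card {α : Type} (s : ℕ → Set α) (k : ℕ) :
    {p | ∃ l < k, p ∈ s l}.ncard ≤ ∑ l ∈ Finset.range k, (s l).ncard := by
  induction k with
  | zero =>
    have h : {p | ∃ l < 0, p ∈ s l} = (∅ : Set α) := by
      ext p
      constructor
      · rintro ⟨l, hl, -⟩
        exact absurd hl (Nat.not_lt_zero _)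
      · intro h
        exact absurd h (Set.notMem_empty p)
    rw [h, Set.ncard_empty]
    exact Nat.zero_le _
  | succ k ih =>
    have h : {p | ∃ l < k + 1, p ∈ s l} = {p | ∃ l < k, p ∈ s l} ∪ s k := by
      ext p
      constructor
      · rintro ⟨l, hl, h⟩
        rcases Nat.lt_succ_iff_lt_or_eq.1 hl with hl | hl
        · exact Or.inl ⟨l, hl, h⟩
        · rw [hl] at h
          exact Or.inr h
      · rintro (⟨l, hl, h⟩ | h)
        · exact ⟨l, Nat.lt_succ_of_lt hl, h⟩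
        · exact ⟨k, Nat.lt_succ_self k, h⟩
    rw [h, Finset.sum_range_succ]
    exact (Set.ncard_union_le _ _).trans (Nat.add_le_add_right ih _)

private theorem Ce_sum {K : Type} [Field K] [NumberField K]
    (T : ℕ → Finset (HeightOneSpectrum (𝓞 K))) (M : ℕ → ℕ) (hM : ∀ l, 1 ≤ M l)
    (hc : ∀ l, (T l).card = M l) (hd : ∀ i j, i ≠ j → Disjoint (T i) (T j))
    (h : ∀ l, ∀ v ∈ T l, 16 * 2 ^ l * M l ≤ Nv v) (k : ℕ) :
    ∑ v ∈ (Finset.range k).biUnion T, 1 / (Nv v : ℝ) ≤ 1 / 8 := by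
  have h1 : ∀ l, ∑ v ∈ T l, 1 / (Nv v : ℝ) ≤ 1 / (16 * 2 ^ l) := by
    intro l
    have hM' : (0 : ℝ) < (M l : ℝ) := by exact_mod_cast hM l
    have h2 : ∀ v ∈ T l, 1 / (Nv v : ℝ) ≤ 1 / (16 * 2 ^ l * (M l : ℝ)) := by
      intro v hv
      refine one_div_le_one_div_of_le (by positivity) ?_
      exact_mod_cast h l v hv
    refine (Finset.sum_le_card_nsmul _ _ _ h2).trans ?_
    rw [hc, nsmul_eq_mul]
    have h3 : (2 : ℝ) ^ l ≠ 0 := by positivity
    refine le_of_eq ?_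
    field_simp
  rw [Finset.sum_biUnion (fun i _ j _ hij => hd i j hij)]
  refine (Finset.sum_le_sum fun i _ => h1 i).trans ?_
  rw [Ce_geo]
  have : (0 : ℝ) ≤ 1 / (8 * 2 ^ k) := by positivity
  linarith

theorem count_main (K : Type) [Field K] [NumberField K] {S : Finset (HeightOneSpectrum (𝓞 K))}
    (hSv : ∀ v : HeightOneSpectrum (𝓞 K), (2 : 𝓞 K) ∈ v.asIdeal → v ∈ S) {e : ℕ} (he : 2 ≤ e)
    {Z : Set (HeightOneSpectrum (𝓞 K))} (hZ : Z.Infinite)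
    {m : Ideal (𝓞 K)} (hm0 : m ≠ ⊥) (hmZ : ∀ v ∈ Z, ¬ m ≤ v.asIdeal ∧ (6 : 𝓞 K) ∉ v.asIdeal)
    {A₀ B₀ : 𝓞 K} (hmS : ∀ v ∈ S, m ≤ v.asIdeal ^ e ∧ dsc A₀ B₀ ∉ v.asIdeal ^ e)
    (hm : ∀ v : HeightOneSpectrum (𝓞 K), v ∉ S → m ≤ v.asIdeal → dsc A₀ B₀ ∉ v.asIdeal)
    (m₀ : ℕ) :
    ∃ (q₀ : HeightOneSpectrum (𝓞 K)) (T : ℕ → Finset (HeightOneSpectrum (𝓞 K))) (b : ℕ → ℕ) (k : ℕ)
      (c X₀ : ℝ), q₀ ∈ Z ∧ (∀ l, ∀ v ∈ T l, v ∈ Z ∧ v ≠ q₀) ∧
      (∀ i j, i ≠ j → Disjoint (T i) (T j)) ∧ 0 < k ∧ b 0 * 2 ^ m₀ ≤ 2 ^ k ∧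
      0 < c ∧
      ∀ X : ℝ, X₀ ≤ X → c * X ^ (5 * Module.finrank ℚ K) ≤
        ({p : 𝓞 K × 𝓞 K | p ∈ Bx K X ∧ FamS S e q₀ ((Finset.range k).biUnion T) p.1 p.2 ∧
          (p.1 - A₀ ∈ m ∧ p.2 - B₀ ∈ m ∧ ∀ s : K →+* ℝ, 0 < s (p.1 : K)) ∧
          ∀ l < k, GoodSt (S ∪ (Finset.range l).biUnion T) (T l) (b l) p.1 p.2}.ncard : ℝ) := by
  obtain ⟨q₀, hq₀⟩ := hZ.nonempty
  have h6 := (hmZ q₀ hq₀).2
  have hinf : (Z \ {q₀}).Infinite := hZ.sdiff (Set.finite_singleton q₀)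
  obtain ⟨c₃, hc₃, hfam⟩ := H30ZO.famS_lower_in K hSv (e := e) q₀ h6 hm0 (hmZ q₀ hq₀).1 hmS hm
  have hZS : ∀ v ∈ Z, v ∉ S := by
    intro v hv hvS
    exact (hmZ v hv).1 ((hmS v hvS).1.trans (Ideal.pow_le_self (by omega)))
  have hst : ∀ (U : Finset (HeightOneSpectrum (𝓞 K))) (l : ℕ), ∃ b N₀ M : ℕ, 1 ≤ b ∧ 1 ≤ M ∧
      ((∀ v ∈ U, v ∉ S) → ∀ T₁ T₂ : Finset (HeightOneSpectrum (𝓞 K)),
      Disjoint T₁ T₂ → (∀ v ∈ T₁ ∪ T₂, N₀ ≤ Nv v ∧ (6 : 𝓞 K) ∉ v.asIdeal ∧ v ∉ S ∧ v ∉ U) →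
      M ≤ T₁.card → ∑ v ∈ T₁ ∪ T₂, 1 / (Nv v : ℝ) ≤ 1 / 8 → ∃ X₀ : ℝ, ∀ X : ℝ, X₀ ≤ X →
      ∀ q₀ : HeightOneSpectrum (𝓞 K),
        ({p : 𝓞 K × 𝓞 K | p ∈ Bx K X ∧ FamS S e q₀ (U ∪ (T₁ ∪ T₂)) p.1 p.2 ∧
          ¬ GoodSt (S ∪ U) T₁ b p.1 p.2}.ncard : ℝ) ≤
          c₃ / 2 ^ (l + 2) * (∏ v ∈ U ∪ (T₁ ∪ T₂), (1 / 2 * (1 - 1 / (Nv v : ℝ)))) *
            X ^ (5 * Module.finrank ℚ K)) := by
    intro U l
    by_cases hU : ∀ v ∈ U, v ∉ S
    · obtain ⟨b, N₀, M, h1, h2, h3⟩ := stage K S he U hU (δ := c₃ / 2 ^ (l + 2)) (by positivity)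
      exact ⟨b, N₀, M, h1, h2, fun _ => h3⟩
    · exact ⟨1, 0, 1, le_rfl, le_rfl, fun h => absurd h hU⟩
  choose bf Nf Mf hb1 hM1 hprop using hst
  obtain ⟨T, hTZ, hTd, hTc, hTN, hTM⟩ := Ce_seq (Z \ {q₀}) (Nv (K := K)) (fun U N k => by
    have h1 : ((Z \ {q₀}) \ (U : Set (HeightOneSpectrum (𝓞 K)))).Infinite :=
      hinf.sdiff U.finite_toSet
    obtain ⟨T, hT, hTk⟩ := exists_T h1 N k
    exact ⟨T, fun v hv => ⟨(hT v hv).1.1, fun h => (hT v hv).1.2 h, (hT v hv).2⟩, hTk⟩) Nf Mf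
  obtain ⟨b, hb⟩ : ∃ b : ℕ → ℕ, ∀ l, b l = bf ((Finset.range l).biUnion T) l := ⟨_, fun _ => rfl⟩
  obtain ⟨k, hk⟩ : ∃ k, k = b 0 * 2 ^ m₀ := ⟨_, rfl⟩
  have hTZ' : ∀ l, ∀ v ∈ T l, v ∈ Z ∧ v ≠ q₀ := fun l v hv => ⟨(hTZ l v hv).1, (hTZ l v hv).2⟩
  have hall : ∀ (I : Finset ℕ), ∀ v ∈ I.biUnion T, v ∈ Z ∧ v ≠ q₀ := by
    intro I v hv
    obtain ⟨l, -, hl⟩ := Finset.mem_biUnion.1 hv
    exact hTZ' l v hl
  -- the stages
  have hsum := Ce_sum T (fun l => Mf ((Finset.range l).biUnion T) l) (fun l => hM1 _ _) hTc hTd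
    hTM k
  have hsplit : ∀ l < k, (Finset.range k).biUnion T =
      (Finset.range l).biUnion T ∪ (T l ∪ (Finset.Ioo l k).biUnion T) := by
    intro l hl
    ext v
    simp only [Finset.mem_biUnion, Finset.mem_union, Finset.mem_range, Finset.mem_Ioo]
    constructor
    · rintro ⟨i, hi, hv⟩
      rcases lt_trichotomy i l with h | h | h
      · exact Or.inl ⟨i, h, hv⟩
      · rw [h] at hv
        exact Or.inr (Or.inl hv)
      · exact Or.inr (Or.inr ⟨i, ⟨h, hi⟩, hv⟩)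
    · rintro (⟨i, hi, hv⟩ | hv | ⟨i, ⟨-, hi⟩, hv⟩)
      · exact ⟨i, hi.trans hl, hv⟩
      · exact ⟨l, hl, hv⟩
      · exact ⟨i, hi, hv⟩
  have hstage : ∀ l, ∃ X₀ : ℝ, l < k → ∀ X : ℝ, X₀ ≤ X →
      ({p : 𝓞 K × 𝓞 K | p ∈ Bx K X ∧ FamS S e q₀ ((Finset.range k).biUnion T) p.1 p.2 ∧
        ¬ GoodSt (S ∪ (Finset.range l).biUnion T) (T l) (b l) p.1 p.2}.ncard : ℝ) ≤
        c₃ / 2 ^ (l + 2) * (∏ v ∈ (Finset.range k).biUnion T, (1 / 2 * (1 - 1 / (Nv v : ℝ)))) *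
          X ^ (5 * Module.finrank ℚ K) := by
    intro l
    by_cases hl : l < k
    · have h1 : Disjoint (T l) ((Finset.Ioo l k).biUnion T) := by
        rw [Finset.disjoint_biUnion_right]
        intro i hi
        exact hTd l i (Finset.mem_Ioo.1 hi).1.ne
      have h2 : ∀ v ∈ T l ∪ (Finset.Ioo l k).biUnion T,
          Nf ((Finset.range l).biUnion T) l ≤ Nv v ∧ (6 : 𝓞 K) ∉ v.asIdeal ∧ v ∉ S ∧
            v ∉ (Finset.range l).biUnion T := by
        intro v hv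
        obtain ⟨i, hi, hv⟩ : ∃ i, l ≤ i ∧ v ∈ T i := by
          rcases Finset.mem_union.1 hv with hv | hv
          · exact ⟨l, le_rfl, hv⟩
          · obtain ⟨i, hi, hv⟩ := Finset.mem_biUnion.1 hv
            exact ⟨i, (Finset.mem_Ioo.1 hi).1.le, hv⟩
        refine ⟨hTN l i hi v hv, (hmZ v (hTZ' i v hv).1).2, hZS v (hTZ' i v hv).1, fun h => ?_⟩
        obtain ⟨j, hj, hvj⟩ := Finset.mem_biUnion.1 h
        have hji : j ≠ i := ((Finset.mem_range.1 hj).trans_le hi).ne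
        exact Finset.disjoint_left.1 (hTd j i hji) hvj hv
      have h3 : ∑ v ∈ T l ∪ (Finset.Ioo l k).biUnion T, 1 / (Nv v : ℝ) ≤ 1 / 8 := by
        refine (Finset.sum_le_sum_of_subset_of_nonneg ?_ fun v _ _ => by positivity).trans hsum
        rw [hsplit l hl]
        exact Finset.subset_union_right
      obtain ⟨X₀, h4⟩ := hprop ((Finset.range l).biUnion T) l
        (fun v hv => hZS v (hall _ v hv).1) (T l) _ h1 h2 (hTc l).ge h3
      refine ⟨X₀, fun _ X hX => ?_⟩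
      rw [hsplit l hl, hb]
      exact h4 X hX q₀
    · exact ⟨0, fun h => absurd h hl⟩
  choose Xs hXs using hstage
  obtain ⟨X₁, h1⟩ := hfam ((Finset.range k).biUnion T) (fun v hv => ⟨(hall _ v hv).2,
    (hmZ v (hall _ v hv).1).2, (hmZ v (hall _ v hv).1).1⟩)
  obtain ⟨P, hP⟩ : ∃ P : ℝ,
      P = ∏ v ∈ (Finset.range k).biUnion T, (1 / 2 * (1 - 1 / (Nv v : ℝ))) := ⟨_, rfl⟩
  have hPpos : 0 < P := by
    rw [hP]
    refine Finset.prod_pos fun v hv => ?_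
    have h2 : (1 : ℝ) < (Nv v : ℝ) := by
      have h3 : 1 < Nv v := by
        have h4 := H36PP.five_le K (hmZ v (hall _ v hv).1).2
        omega
      exact_mod_cast h3
    have h3 : 1 / (Nv v : ℝ) < 1 := by
      rw [div_lt_one (by linarith)]
      exact h2
    linarith
  rw [← hP] at h1
  obtain ⟨X₂, hX₂⟩ : ∃ X₂ : ℝ, X₂ = ∑ l ∈ Finset.range k, |Xs l| := ⟨_, rfl⟩
  have hX₂' : ∀ l < k, Xs l ≤ X₂ := by
    intro l hl
    rw [hX₂]
    exact (le_abs_self _).trans (Finset.single_le_sum (f := fun l => |Xs l|)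
      (fun _ _ => abs_nonneg _) (Finset.mem_range.2 hl))
  refine ⟨q₀, T, b, k, c₃ * P / 2, max (max X₁ X₂) 0, hq₀, hTZ', hTd, ?_, ?_, by positivity, ?_⟩
  · rw [hk, hb]
    exact Nat.mul_pos (hb1 _ _) (by positivity)
  · rw [hk]
    exact Nat.lt_two_pow_self.le
  intro X hX
  have hX1 : X₁ ≤ X := (le_max_left _ _).trans ((le_max_left _ _).trans hX)
  have hX2 : X₂ ≤ X := (le_max_right _ _).trans ((le_max_left _ _).trans hX)
  have hX0 : 0 ≤ X := (le_max_right _ _).trans hX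
  have hXp : 0 ≤ X ^ (5 * Module.finrank ℚ K) := by positivity
  have e1 := h1 X hX1
  have hfin : ∀ R : 𝓞 K × 𝓞 K → Prop, {p : 𝓞 K × 𝓞 K | p ∈ Bx K X ∧ R p}.Finite := fun R =>
    (H36PP.Bx_finite K X).subset fun p hp => hp.1
  obtain ⟨s, hs⟩ : ∃ s : ℕ → Set (𝓞 K × 𝓞 K), ∀ l, s l = {p : 𝓞 K × 𝓞 K | p ∈ Bx K X ∧
      FamS S e q₀ ((Finset.range k).biUnion T) p.1 p.2 ∧
      ¬ GoodSt (S ∪ (Finset.range l).biUnion T) (T l) (b l) p.1 p.2} := ⟨_, fun _ => rfl⟩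
  have e2 : ((∑ l ∈ Finset.range k, (s l).ncard : ℕ) : ℝ) ≤
      c₃ / 2 * P * X ^ (5 * Module.finrank ℚ K) := by
    rw [Nat.cast_sum]
    calc ∑ l ∈ Finset.range k, ((s l).ncard : ℝ) ≤
          ∑ l ∈ Finset.range k, c₃ / 2 ^ (l + 2) * P * X ^ (5 * Module.finrank ℚ K) := by
          refine Finset.sum_le_sum fun l hl => ?_
          rw [hs, hP]
          exact hXs l (Finset.mem_range.1 hl) X ((hX₂' l (Finset.mem_range.1 hl)).trans hX2)
      _ = (∑ l ∈ Finset.range k, c₃ / 2 ^ (l + 2)) * P * X ^ (5 * Module.finrank ℚ K) := by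
          rw [Finset.sum_mul, Finset.sum_mul]
      _ ≤ _ := by
          refine mul_le_mul_of_nonneg_right (mul_le_mul_of_nonneg_right ?_ hPpos.le) hXp
          rw [Ce_geo2]
          have : 0 ≤ c₃ / (2 * 2 ^ k) := by positivity
          linarith
  have e3 : {p : 𝓞 K × 𝓞 K | ∃ l < k, p ∈ s l}.ncard ≤ ∑ l ∈ Finset.range k, (s l).ncard :=
    Ce_card s k
  have e4 : ({p : 𝓞 K × 𝓞 K | p ∈ Bx K X ∧ FamS S e q₀ ((Finset.range k).biUnion T) p.1 p.2 ∧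
        p.1 - A₀ ∈ m ∧ p.2 - B₀ ∈ m ∧ ∀ s : K →+* ℝ, 0 < s (p.1 : K)}.ncard) ≤
      {p : 𝓞 K × 𝓞 K | ∃ l < k, p ∈ s l}.ncard +
      {p : 𝓞 K × 𝓞 K | p ∈ Bx K X ∧ FamS S e q₀ ((Finset.range k).biUnion T) p.1 p.2 ∧
        (p.1 - A₀ ∈ m ∧ p.2 - B₀ ∈ m ∧ ∀ s : K →+* ℝ, 0 < s (p.1 : K)) ∧
        ∀ l < k, GoodSt (S ∪ (Finset.range l).biUnion T) (T l) (b l) p.1 p.2}.ncard := by
    have hfs : {p : 𝓞 K × 𝓞 K | ∃ l < k, p ∈ s l}.Finite := by
      refine (H36PP.Bx_finite K X).subset ?_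
      rintro p ⟨l, -, hp⟩
      rw [hs] at hp
      exact hp.1
    refine (Set.ncard_le_ncard ?_ (hfs.union (hfin _))).trans (Set.ncard_union_le _ _)
    rintro p ⟨h10, h11, h13⟩
    by_cases h12 : ∀ l < k, GoodSt (S ∪ (Finset.range l).biUnion T) (T l) (b l) p.1 p.2
    · exact Or.inr ⟨h10, h11, h13, h12⟩
    · push Not at h12
      obtain ⟨l, hl, h12⟩ := h12
      refine Or.inl ⟨l, hl, ?_⟩
      rw [hs]
      exact ⟨h10, h11, h12⟩
  have e5 := (Nat.cast_le (α := ℝ)).2 (e4.trans (Nat.add_le_add_right e3 _))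
  rw [Nat.cast_add] at e5
  have e6 : c₃ * P * X ^ (5 * Module.finrank ℚ K) =
      c₃ * P / 2 * X ^ (5 * Module.finrank ℚ K) + c₃ / 2 * P * X ^ (5 * Module.finrank ℚ K) := by
    ring
  linarith

end H36MX

end S_H36_MX_Ce
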