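import Mathlib
import Pool.Agent.H38.T1.Ea
import Pool.Agent.H93.T1.Cf
import Pool.Agent.H76.CQ.Qa
import Pool.Agent.H76.MP.M1

/-! This file joins several modules to save build time (M8). -/

set_option autoImplicit false

section S_H30_MQ_Ch

set_option autoImplicit false
set_option linter.unusedSectionVars false
open scoped Classical

open NumberField IsDedekindDomain Filter Topology Pool.Agent.H42.PC H38RT
open H38T1 (SC sc rep eo la OddP)

namespace H30MQ

section Frob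

variable {K L : Type} [Field K] [NumberField K] [Field L] [NumberField L] [Algebra K L]
  [IsGalois K L]

theorem frob_infK (σ : L ≃ₐ[K] L) :
    {v : HeightOneSpectrum (𝓞 K) | ∃ g : L ≃ₐ[K] L,
      Subgroup.zpowers g = Subgroup.zpowers σ ∧ IsFr K L v g}.Infinite := by
  have : Fintype (L ≃ₐ[K] L) := Fintype.ofFinite _
  have hcard : (Nat.card (L ≃ₐ[K] L) : ℝ) ≠ 0 := by
    have : Nat.card (L ≃ₐ[K] L) ≠ 0 := Nat.card_pos.ne'
    exact_mod_cast this
  set C := Subgroup.zpowers σ with hC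
  have hmem : H93T1.Cf_A C ∈ BFin_S K L := H93T1.Cf_span (BFin_S K L) (fun C => by
    have h1 := avg_tht (pith K) (fun M : IntermediateField K L => pith M) C
    change Tendsto (avg K L (tht C)) atTop (𝓝 ((∑ g, tht C g) / Nat.card (L ≃ₐ[K] L)))
    rw [tht_mean, div_self hcard]
    exact h1) _ C rfl
  have hlim : Tendsto (avg K L (H93T1.Cf_A C)) atTop
    (𝓝 ((∑ g, H93T1.Cf_A C g) / Nat.card (L ≃ₐ[K] L))) := hmem
  have hnn : ∀ g, 0 ≤ H93T1.Cf_A C g := fun g => Nat.cast_nonneg _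
  have hpos : 0 < ∑ g, H93T1.Cf_A C g := by
    refine Finset.sum_pos' (fun g _ => hnn g) ⟨σ, Finset.mem_univ _, ?_⟩
    unfold H93T1.Cf_A
    have : Nonempty {x : L ≃ₐ[K] L // Subgroup.zpowers (x⁻¹ * σ * x) = C} :=
      ⟨⟨1, by rw [inv_one, one_mul, mul_one]⟩⟩
    exact_mod_cast Nat.card_pos
  set c := (∑ g, H93T1.Cf_A C g) / Nat.card (L ≃ₐ[K] L) with hc
  have hcpos : 0 < c := by
    apply div_pos hpos
    exact lt_of_le_of_ne (Nat.cast_nonneg _) (Ne.symm hcard)
  set B : Set (HeightOneSpectrum (𝓞 K)) := {v | Un K L v ∧ H93T1.Cf_A C (frb K L v) ≠ 0} with hB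
  have hBinf : B.Infinite := by
    intro hfin
    have hbound : ∀ X : ℕ, avg K L (H93T1.Cf_A C) X ≤
        (∑ v ∈ hfin.toFinset, H93T1.Cf_A C (frb K L v)) / prc K Set.univ X := by
      intro X
      unfold avg
      apply div_le_div_of_nonneg_right _ (Nat.cast_nonneg _)
      rw [finsum_mem_eq_finite_toFinset_sum _ (BAvg_unfin X),
        ← Finset.sum_filter_ne_zero]
      apply Finset.sum_le_sum_of_subset_of_nonneg
      · intro v hv
        rw [Finset.mem_filter, Set.Finite.mem_toFinset] at hv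
        rw [Set.Finite.mem_toFinset]
        exact ⟨hv.1.1, hv.2⟩
      · intro v _ _
        exact hnn _
    have h0 : Tendsto (fun X : ℕ => (∑ v ∈ hfin.toFinset, H93T1.Cf_A C (frb K L v)) /
        (prc K Set.univ X : ℝ)) atTop (𝓝 0) :=
      Tendsto.div_atTop tendsto_const_nhds (prc_tendsto (pith K))
    have h1 := le_of_tendsto_of_tendsto' hlim h0 hbound
    linarith
  refine hBinf.mono ?_
  rintro v ⟨-, hv⟩
  have hne : Nat.card {x : L ≃ₐ[K] L // Subgroup.zpowers (x⁻¹ * frb K L v * x) = C} ≠ 0 := by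
    intro h
    apply hv
    unfold H93T1.Cf_A
    rw [h, Nat.cast_zero]
  obtain ⟨x, hx⟩ : ∃ x : L ≃ₐ[K] L, Subgroup.zpowers (x⁻¹ * frb K L v * x) = C := by
    by_contra hcon
    apply hne
    rw [Nat.card_eq_zero]
    left
    exact ⟨fun y => hcon ⟨y.1, y.2⟩⟩
  refine ⟨_, hx, ?_⟩
  have := fr_conj' (BAvg_frb (K := K) (L := L) v) x⁻¹
  rwa [inv_inv] at this

/-- For an automorphism `σ` with `σ² = 1` the place has Frobenius element `σ`. -/
theorem frob_inf2 (σ : L ≃ₐ[K] L) (hσ : σ * σ = 1) :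
    {v : HeightOneSpectrum (𝓞 K) | IsFr K L v σ}.Infinite := by
  refine (frob_infK σ).mono ?_
  rintro v ⟨g, hg, hF⟩
  have h1 : g ∈ Subgroup.zpowers σ := by
    rw [← hg]
    exact Subgroup.mem_zpowers _
  have h2 : σ ∈ Subgroup.zpowers g := by
    rw [hg]
    exact Subgroup.mem_zpowers _
  have hz : ∀ n : ℤ, σ ^ n = 1 ∨ σ ^ n = σ := by
    intro n
    rcases Int.even_or_odd' n with ⟨k, hk | hk⟩
    · left
      rw [hk, zpow_mul, zpow_two, hσ, one_zpow]
    · right
      rw [hk, zpow_add, zpow_mul, zpow_two, hσ, one_zpow, one_mul, zpow_one]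
  obtain ⟨n, hn⟩ := Subgroup.mem_zpowers_iff.1 h1
  have h3 : g = σ := by
    rcases hz n with h | h
    · have hg1 : g = 1 := by rw [← hn, h]
      obtain ⟨m, hm⟩ := Subgroup.mem_zpowers_iff.1 h2
      rw [hg1, one_zpow] at hm
      rw [hg1, hm]
    · rw [← hn, h]
  rw [← h3]
  exact hF

/-- Euler's criterion in the residue field. -/
theorem euler {p m : ℕ} (hp2 : p = 2 * m + 1)
    {v : HeightOneSpectrum (𝓞 K)} (hv : (p : 𝓞 K) ∈ v.asIdeal)
    (hN : Ideal.absNorm v.asIdeal = p) {y : 𝓞 K} (hy : y ∉ v.asIdeal) :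
    (∃ a : 𝓞 K, y - a ^ 2 ∈ v.asIdeal) ↔ y ^ m - 1 ∈ v.asIdeal := by
  have hmax : v.asIdeal.IsMaximal := v.isMaximal
  let _ : Field (𝓞 K ⧸ v.asIdeal) := Ideal.Quotient.field v.asIdeal
  have hfin : Finite (𝓞 K ⧸ v.asIdeal) := by
    apply Nat.finite_of_card_ne_zero
    have h1 : Nat.card (𝓞 K ⧸ v.asIdeal) = p := hN
    rw [h1]
    omega
  let _ : Fintype (𝓞 K ⧸ v.asIdeal) := Fintype.ofFinite _
  have hcard : Fintype.card (𝓞 K ⧸ v.asIdeal) = p := by
    rw [← Nat.card_eq_fintype_card]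
    exact hN
  have hy0 : Ideal.Quotient.mk v.asIdeal y ≠ 0 := fun h => hy (Ideal.Quotient.eq_zero_iff_mem.1 h)
  have hchar : ringChar (𝓞 K ⧸ v.asIdeal) ≠ 2 := by
    intro hc
    have h3 : (2 : 𝓞 K ⧸ v.asIdeal) = 0 := by
      have h4 : ((ringChar (𝓞 K ⧸ v.asIdeal) : ℕ) : 𝓞 K ⧸ v.asIdeal) = 0 :=
        ringChar.Nat.cast_ringChar
      rw [hc] at h4
      exact_mod_cast h4
    have h5 : ((p : ℕ) : 𝓞 K ⧸ v.asIdeal) = 0 := by
      have h6 := Ideal.Quotient.eq_zero_iff_mem.2 hv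
      rw [map_natCast] at h6
      exact h6
    rw [hp2] at h5
    push_cast at h5
    rw [h3, zero_mul, zero_add] at h5
    exact one_ne_zero h5
  have hE := FiniteField.isSquare_iff hchar hy0
  rw [hcard] at hE
  have hm : p / 2 = m := by omega
  rw [hm] at hE
  constructor
  · rintro ⟨a, ha⟩
    have h1 : IsSquare (Ideal.Quotient.mk v.asIdeal y) := by
      refine ⟨Ideal.Quotient.mk v.asIdeal a, ?_⟩
      rw [← map_mul, Ideal.Quotient.eq, ← sq]
      exact ha
    have h2 := hE.1 h1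
    rw [← map_pow, ← map_one (Ideal.Quotient.mk v.asIdeal), Ideal.Quotient.eq] at h2
    exact h2
  · intro h
    have h1 : (Ideal.Quotient.mk v.asIdeal y) ^ m = 1 := by
      rw [← map_pow, ← map_one (Ideal.Quotient.mk v.asIdeal), Ideal.Quotient.eq]
      exact h
    obtain ⟨b, hb⟩ := hE.2 h1
    obtain ⟨a, rfl⟩ := Ideal.Quotient.mk_surjective b
    refine ⟨a, ?_⟩
    rw [← map_mul, Ideal.Quotient.eq, ← sq] at hb
    exact hb

end Frob

section Leg

variable {K : Type} [Field K] [NumberField K]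

theorem val_c_le (v : HeightOneSpectrum (𝓞 K)) (x : 𝓞 K) : v.valuation K (x : K) ≤ 1 :=
  v.valuation_le_one x

/-- The Legendre class of a unit at an odd place. -/
theorem la_iff {v : HeightOneSpectrum (𝓞 K)} (hv : OddP v) {d : 𝓞 K} (hd : d ∉ v.asIdeal) :
    la v (sc (d : K)) = 0 ↔ ∃ a : 𝓞 K, d - a ^ 2 ∈ v.asIdeal := by
  have hd0 : (d : K) ≠ 0 := by
    intro h
    apply hd
    have h1 : d = 0 := RingOfIntegers.coe_injective (h.trans (map_zero _).symm)
    rw [h1]
    exact v.asIdeal.zero_mem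
  have hVd : v.valuation K (d : K) = 1 := v.valuation_eq_one_iff_notMem.mpr hd
  rw [H38T1.la_sc hv hd0, lam_unit hVd]
  have h0 : (if Sq (v.valuation K) (d : K) then (0 : ZMod 2) else 1) = 0 ↔
      Sq (v.valuation K) (d : K) := by
    split_ifs with h
    · exact ⟨fun _ => h, fun _ => rfl⟩
    · exact ⟨fun h1 => absurd h1 one_ne_zero, fun h1 => absurd h1 h⟩
  rw [h0]
  constructor
  · rintro ⟨t, ht⟩
    have ht1 : v.valuation K t ≤ 1 := by
      by_contra hcon
      have h1 : 1 < v.valuation K t := not_le.1 hcon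
      have h2 : 1 < v.valuation K (t ^ 2) := by
        rw [map_pow]
        exact one_lt_pow₀ h1 two_ne_zero
      have h3 : v.valuation K ((d : K) - t ^ 2) = v.valuation K (t ^ 2) :=
        Valuation.map_sub_eq_of_lt_right _ (by rw [hVd]; exact h2)
      rw [h3] at ht
      exact absurd ht (not_lt.2 h2.le)
    obtain ⟨b, ⟨c, hc⟩, hbc⟩ := v.exists_primeCompl_mul_eq_of_integer t ht1
    have hc' : c ∉ v.asIdeal := hc
    have hmax : v.asIdeal.IsMaximal := v.isMaximal
    have hVc : v.valuation K (c : K) = 1 := v.valuation_eq_one_iff_notMem.mpr hc'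
    obtain ⟨e, he⟩ := Ideal.Quotient.exists_inv (I := v.asIdeal)
      (a := Ideal.Quotient.mk v.asIdeal c) (fun h => hc' (Ideal.Quotient.eq_zero_iff_mem.1 h))
    obtain ⟨e, rfl⟩ := Ideal.Quotient.mk_surjective e
    rw [← map_mul, ← map_one (Ideal.Quotient.mk v.asIdeal), Ideal.Quotient.eq] at he
    have h5 : d * c ^ 2 - b ^ 2 ∈ v.asIdeal := by
      rw [← v.valuation_lt_one_iff_mem (K := K)]
      have h2 : t * algebraMap (𝓞 K) K c = algebraMap (𝓞 K) K b := hbc
      have h1 : algebraMap (𝓞 K) K (d * c ^ 2 - b ^ 2) =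
          (algebraMap (𝓞 K) K d - t ^ 2) * algebraMap (𝓞 K) K c ^ 2 := by
        rw [map_sub, map_mul, map_pow, map_pow, ← h2]
        ring
      have h3 : v.valuation K (algebraMap (𝓞 K) K (d * c ^ 2 - b ^ 2)) < 1 := by
        have hVc' : v.valuation K (algebraMap (𝓞 K) K c) = 1 := hVc
        rw [h1, map_mul, map_pow, hVc', one_pow, mul_one]
        exact ht
      exact h3
    refine ⟨b * e, ?_⟩
    have h6 : d - (b * e) ^ 2 = (d * c ^ 2 - b ^ 2) * e ^ 2 - d * (c * e + 1) * (c * e - 1) := by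
      ring
    rw [h6]
    exact v.asIdeal.sub_mem (v.asIdeal.mul_mem_right _ h5) (v.asIdeal.mul_mem_left _ he)
  · rintro ⟨a, ha⟩
    refine ⟨(a : K), ?_⟩
    have h2 := (v.valuation_lt_one_iff_mem (K := K) (d - a ^ 2)).2 ha
    have h3 : algebraMap (𝓞 K) K (d - a ^ 2) =
        algebraMap (𝓞 K) K d - algebraMap (𝓞 K) K a ^ 2 := by
      rw [map_sub, map_pow]
    have h4 : v.valuation K (algebraMap (𝓞 K) K (d - a ^ 2)) < 1 := h2
    rw [h3] at h4
    exact h4

variable {L : Type} [Field L] [NumberField L] [Algebra K L] [IsGalois K L]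

/-- The Legendre class from the Frobenius element. -/
theorem la_of_frob {v : HeightOneSpectrum (𝓞 K)} {σ : L ≃ₐ[K] L} (hF : IsFr K L v σ)
    (h2 : (2 : 𝓞 K) ∉ v.asIdeal) {d : 𝓞 K} (hd : d ∉ v.asIdeal) {s : L}
    (hs : s ^ 2 = algebraMap K L (d : K)) {e : ZMod 2} (he : σ s = if e = 0 then s else - s) :
    la v (sc (d : K)) = e := by
  have hodd : OddP v := by
    have h3 : v.valuation K ((2 : 𝓞 K) : K) = 1 := v.valuation_eq_one_iff_notMem.mpr h2
    have h4 : ((2 : 𝓞 K) : K) = 2 := map_ofNat _ 2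
    rw [h4] at h3
    exact h3
  obtain ⟨w, hw, hfr⟩ := hF
  have hprime : w.asIdeal.IsPrime := w.isPrime
  have hmem : ∀ a : 𝓞 K, a ∈ v.asIdeal ↔ algebraMap (𝓞 K) (𝓞 L) a ∈ w.asIdeal := by
    intro a
    rw [hw.over, Ideal.mem_comap]
  obtain ⟨Q, hQ⟩ : ∃ Q : ℕ, Q = Ideal.absNorm v.asIdeal := ⟨_, rfl⟩
  have hv : (Q : 𝓞 K) ∈ v.asIdeal := by
    rw [hQ]
    exact Ideal.absNorm_mem _
  have hQodd : Odd Q := by
    rw [← Nat.not_even_iff_odd]
    intro hev
    obtain ⟨p, hp, hpv, -⟩ := BCnt_prime v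
    -- the residue field has characteristic p and Q elements
    have hmax : v.asIdeal.IsMaximal := v.isMaximal
    let _ : Field (𝓞 K ⧸ v.asIdeal) := Ideal.Quotient.field v.asIdeal
    have hfin : Finite (𝓞 K ⧸ v.asIdeal) := by
      apply Nat.finite_of_card_ne_zero
      have h1 : Nat.card (𝓞 K ⧸ v.asIdeal) = Q := hQ.symm
      rw [h1, hQ]
      exact (Ideal.absNorm_eq_zero_iff.not).2 v.ne_bot
    let _ : Fintype (𝓞 K ⧸ v.asIdeal) := Fintype.ofFinite _
    have hcard : Fintype.card (𝓞 K ⧸ v.asIdeal) = Q := by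
      rw [← Nat.card_eq_fintype_card, hQ]
      rfl
    have h3 : (2 : 𝓞 K ⧸ v.asIdeal) ≠ 0 := by
      intro h
      apply h2
      rw [← Ideal.Quotient.eq_zero_iff_mem, map_ofNat]
      exact h
    have h4 : ringChar (𝓞 K ⧸ v.asIdeal) ≠ 2 := by
      intro h
      apply h3
      have h5 : ((ringChar (𝓞 K ⧸ v.asIdeal) : ℕ) : 𝓞 K ⧸ v.asIdeal) = 0 :=
        ringChar.Nat.cast_ringChar
      rw [h] at h5
      exact_mod_cast h5
    have h5 := FiniteField.odd_card_of_char_ne_two h4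
    rw [hcard] at h5
    rw [Nat.even_iff] at hev
    omega
  obtain ⟨m, hm⟩ := hQodd
  have hψ : ∀ x : 𝓞 L, σ • x - x ^ Q ∈ w.asIdeal := by
    intro x
    have h1 := hfr x
    have h3 : Nat.card (𝓞 K ⧸ w.asIdeal.under (𝓞 K)) = Q := by
      rw [← hw.over, hQ, Ideal.absNorm_apply, Submodule.cardQuot_apply]
    rw [h3] at h1
    exact h1
  have hs2 : s ^ 2 = algebraMap (𝓞 L) L (algebraMap (𝓞 K) (𝓞 L) d) := by
    rw [hs]
    rfl
  have hint : IsIntegral ℤ s := by
    apply IsIntegral.of_pow two_pos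
    rw [hs2]
    exact RingOfIntegers.isIntegral_coe _
  obtain ⟨S, hS⟩ : ∃ S : 𝓞 L, algebraMap (𝓞 L) L S = s := ⟨⟨_, hint⟩, rfl⟩
  have hinj : Function.Injective (algebraMap (𝓞 L) L) := RingOfIntegers.coe_injective
  have hS2 : S ^ 2 = algebraMap (𝓞 K) (𝓞 L) d := by
    apply hinj
    rw [map_pow, hS, hs2]
  have hφS : σ • S = (if e = 0 then (1 : 𝓞 L) else -1) * S := by
    apply hinj
    have h1 : algebraMap (𝓞 L) L (σ • S) = σ (algebraMap (𝓞 L) L S) := rfl
    rw [h1, map_mul, hS, he]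
    split_ifs
    · rw [map_one, one_mul]
    · rw [map_neg, map_one]
      ring
  have hSp : S ^ Q = S * algebraMap (𝓞 K) (𝓞 L) (d ^ m) := by
    rw [hm, pow_succ, pow_mul, hS2, map_pow, mul_comm]
  have hSw : S ∉ w.asIdeal := by
    intro h
    apply hd
    rw [hmem, ← hS2]
    exact Ideal.pow_mem_of_mem _ h 2 two_pos
  have hkey : (if e = 0 then (1 : 𝓞 K) else -1) - d ^ m ∈ v.asIdeal := by
    rw [hmem]
    have h1 := hψ S
    have h2 : σ • S - S ^ Q = S * algebraMap (𝓞 K) (𝓞 L)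
        ((if e = 0 then (1 : 𝓞 K) else -1) - d ^ m) := by
      rw [hφS, hSp, map_sub]
      split_ifs
      · rw [map_one]
        ring
      · rw [map_neg, map_one]
        ring
    rw [h2] at h1
    exact (hprime.mem_or_mem h1).resolve_left hSw
  have hE := euler hm hv hQ.symm hd
  by_cases h0 : e = 0
  · rw [if_pos h0] at hkey
    rw [h0, la_iff hodd hd, hE]
    have h2 := v.asIdeal.neg_mem hkey
    rwa [neg_sub] at h2
  · rw [if_neg h0] at hkey
    have h3 : la v (sc (d : K)) ≠ 0 := by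
      rw [Ne, la_iff hodd hd, hE]
      intro h
      have h4 := v.asIdeal.add_mem h hkey
      have h5 : d ^ m - 1 + (-1 - d ^ m) = -2 := by ring
      rw [h5] at h4
      apply h2
      have h6 := v.asIdeal.neg_mem h4
      rwa [neg_neg] at h6
    have h7 : ∀ a b : ZMod 2, a ≠ 0 → b ≠ 0 → a = b := by decide
    exact h7 _ _ h3 h0

end Leg

end H30MQ

end S_H30_MQ_Ch

section S_H30_MQ_Cg

set_option autoImplicit false
set_option linter.unusedSectionVars false
open scoped Classical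

open NumberField IsDedekindDomain Filter Topology Pool.Agent.H42.PC H38RT
open H38T1 (SC sc rep eo la OddP)

namespace H30MQ

section Kummer

variable {K : Type} [Field K] [NumberField K]

theorem sc_prod {ι : Type} (E : Finset ι) (x : ι → K) (hx : ∀ i ∈ E, x i ≠ 0) :
    sc (∏ i ∈ E, x i) = ∑ i ∈ E, sc (x i) := by
  induction E using Finset.induction_on with
  | empty =>
    rw [Finset.prod_empty, Finset.sum_empty, H38T1.sc_eq_zero one_ne_zero]
    exact ⟨1, (mul_one 1).symm⟩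
  | insert a E ha ih =>
    have h1 : ∀ i ∈ E, x i ≠ 0 := fun i hi => hx i (Finset.mem_insert_of_mem hi)
    rw [Finset.prod_insert ha, Finset.sum_insert ha,
      H38T1.sc_mul (hx a (Finset.mem_insert_self a E)) (Finset.prod_ne_zero_iff.2 h1), ih h1]

variable {L : Type} [Field L] [NumberField L] [Algebra K L] [IsGalois K L]

theorem sign_prod {ι : Type} (σ : L ≃ₐ[K] L) (E : Finset ι) (s : ι → L) (b : ι → ZMod 2)
    (h : ∀ i ∈ E, σ (s i) = if b i = 0 then s i else - s i) :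
    σ (∏ i ∈ E, s i) = if ∑ i ∈ E, b i = 0 then ∏ i ∈ E, s i else - ∏ i ∈ E, s i := by
  have h2 : ∀ a : ZMod 2, a = 0 ∨ a = 1 := by decide
  induction E using Finset.induction_on with
  | empty => rw [Finset.prod_empty, Finset.sum_empty, if_pos rfl, map_one]
  | insert a E ha ih =>
    rw [Finset.prod_insert ha, Finset.sum_insert ha, map_mul, h a (Finset.mem_insert_self a E),
      ih (fun i hi => h i (Finset.mem_insert_of_mem hi))]
    have h11 : (1 : ZMod 2) + 1 = 0 := by decide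
    rcases h2 (b a) with h3 | h3 <;> rcases h2 (∑ i ∈ E, b i) with h4 | h4
    · simp [h3, h4]
    · simp [h3, h4]
    · simp [h3, h4]
    · simp [h3, h4, h11]

/-- Kummer duality. -/
theorem exists_sigma (D : Finset (𝓞 K)) (hD : ∀ d ∈ D, d ≠ 0) (s : 𝓞 K → L)
    (hs : ∀ d ∈ D, s d ^ 2 = algebraMap K L (d : K)) (φ : SC K →+ ZMod 2) :
    ∃ σ : L ≃ₐ[K] L, ∀ d ∈ D, σ (s d) = if φ (sc (d : K)) = 0 then s d else - s d := by
  have h2 : ∀ a : ZMod 2, a = 0 ∨ a = 1 := by decide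
  have h11 : (1 : ZMod 2) + 1 = 0 := by decide
  have hDK : ∀ d ∈ D, (d : K) ≠ 0 := by
    intro d hd h
    exact hD d hd (RingOfIntegers.coe_injective (h.trans (map_zero _).symm))
  have hsg : ∀ (σ : L ≃ₐ[K] L) (d : 𝓞 K), d ∈ D → σ (s d) = s d ∨ σ (s d) = - s d := by
    intro σ d hd
    apply sq_eq_sq_iff_eq_or_eq_neg.1
    rw [← map_pow, hs d hd, AlgEquiv.commutes]
  have hs0 : ∀ d ∈ D, s d ≠ 0 := by
    intro d hd h
    have h1 := hs d hd
    rw [h, zero_pow two_ne_zero] at h1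
    exact hDK d hd ((map_eq_zero (algebraMap K L)).1 h1.symm)
  let W : Submodule (ZMod 2) (D → ZMod 2) :=
    { carrier := {f | ∃ σ : L ≃ₐ[K] L, ∀ d : D, σ (s d) = if f d = 0 then s d else - s d}
      zero_mem' := ⟨1, fun d => by rw [Pi.zero_apply, if_pos rfl]; rfl⟩
      add_mem' := by
        rintro f g ⟨σ, hσ⟩ ⟨τ, hτ⟩
        refine ⟨σ * τ, fun d => ?_⟩
        have h3 : (σ * τ) (s d) = σ (τ (s d)) := rfl
        rw [h3, hτ d, Pi.add_apply]
        rcases h2 (f d) with h4 | h4 <;> rcases h2 (g d) with h5 | h5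
        · rw [h4, h5, if_pos rfl, hσ d, h4, if_pos rfl, if_pos (add_zero _)]
        · rw [h4, h5, if_neg one_ne_zero, map_neg, hσ d, h4, if_pos rfl, zero_add,
            if_neg one_ne_zero]
        · rw [h4, h5, if_pos rfl, hσ d, h4, if_neg one_ne_zero, add_zero, if_neg one_ne_zero]
        · rw [h4, h5, if_neg one_ne_zero, map_neg, hσ d, h4, if_neg one_ne_zero, neg_neg,
            if_pos h11]
      smul_mem' := by
        rintro c f ⟨σ, hσ⟩
        rcases h2 c with h4 | h4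
        · refine ⟨1, fun d => ?_⟩
          rw [h4, zero_smul, Pi.zero_apply, if_pos rfl]
          rfl
        · refine ⟨σ, fun d => ?_⟩
          rw [h4, one_smul]
          exact hσ d }
  obtain ⟨t, ht⟩ : ∃ t : D → ZMod 2, t = fun d : D => φ (sc ((d : 𝓞 K) : K)) := ⟨_, rfl⟩
  suffices h : t ∈ W by
    obtain ⟨σ, hσ⟩ := h
    refine ⟨σ, fun d hd => ?_⟩
    have h3 := hσ ⟨d, hd⟩
    rw [ht] at h3
    exact h3
  by_contra hcon
  obtain ⟨f, hf, hfW⟩ := Submodule.exists_dual_map_eq_bot_of_notMem hcon inferInstance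
  have hf0 : ∀ x ∈ W, f x = 0 := by
    intro x hx
    have h3 : f x ∈ W.map f := Submodule.mem_map_of_mem hx
    rw [hfW] at h3
    exact (Submodule.mem_bot _).1 h3
  obtain ⟨c, hc⟩ : ∃ c : D → ZMod 2, c = fun i => f (fun j => if i = j then 1 else 0) := ⟨_, rfl⟩
  have hfx : ∀ x : D → ZMod 2, f x = ∑ i ∈ Finset.univ.filter (fun i => c i = 1), x i := by
    intro x
    rw [LinearMap.pi_apply_eq_sum_univ f x, Finset.sum_filter]
    refine Finset.sum_congr rfl fun i _ => ?_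
    have h3 : f (fun j => if i = j then 1 else 0) = c i := by rw [hc]
    rw [h3, smul_eq_mul]
    rcases h2 (c i) with h4 | h4
    · rw [h4, mul_zero, if_neg zero_ne_one]
    · rw [h4, mul_one, if_pos rfl]
  obtain ⟨E, hE⟩ : ∃ E : Finset D, E = Finset.univ.filter (fun i => c i = 1) := ⟨_, rfl⟩
  rw [← hE] at hfx
  obtain ⟨S, hS⟩ : ∃ S : L, S = ∏ d ∈ E, s d := ⟨_, rfl⟩
  obtain ⟨e, he⟩ : ∃ e : K, e = ∏ d ∈ E, ((d : 𝓞 K) : K) := ⟨_, rfl⟩
  have he0 : e ≠ 0 := by
    rw [he]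
    exact Finset.prod_ne_zero_iff.2 fun d _ => hDK d d.2
  have hSe : S ^ 2 = algebraMap K L e := by
    rw [hS, he, map_prod, ← Finset.prod_pow]
    exact Finset.prod_congr rfl fun d _ => hs d d.2
  have hfix : ∀ σ : L ≃ₐ[K] L, σ S = S := by
    intro σ
    obtain ⟨b, hb⟩ : ∃ b : D → ZMod 2, b = fun d : D => if σ (s d) = s d then 0 else 1 := ⟨_, rfl⟩
    have hb1 : ∀ d : D, σ (s d) = if b d = 0 then s d else - s d := by
      intro d
      by_cases h3 : σ (s d) = s d
      · have h4 : b d = 0 := by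
          rw [hb]
          exact if_pos h3
        rw [h4, if_pos rfl, h3]
      · have h4 : b d = 1 := by
          rw [hb]
          exact if_neg h3
        rw [h4, if_neg one_ne_zero]
        exact (hsg σ d d.2).resolve_left h3
    have hbW : b ∈ W := ⟨σ, hb1⟩
    have h5 := hf0 b hbW
    rw [hfx] at h5
    rw [hS, sign_prod σ E (fun d : D => s d) b (fun d _ => hb1 d), h5, if_pos rfl]
  obtain ⟨y, hy⟩ := (IsGalois.mem_range_algebraMap_iff_fixed S).2 hfix
  have hey : e = y ^ 2 := by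
    apply (algebraMap K L).injective
    rw [← hSe, map_pow, hy]
  have h6 : sc e = 0 := by
    rw [H38T1.sc_eq_zero he0, hey]
    exact ⟨y, sq y⟩
  apply hf
  rw [hfx t, ht]
  have h7 : sc e = ∑ d ∈ E, sc ((d : 𝓞 K) : K) := by
    rw [he]
    exact sc_prod E (fun d : D => ((d : 𝓞 K) : K)) fun d _ => hDK d d.2
  rw [← map_sum, ← h7, h6, map_zero]

/-- A Galois extension with square roots of the given elements. -/
theorem exists_fieldL (D : Finset (𝓞 K)) : ∃ (L : Type) (_ : Field L) (_ : NumberField L)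
    (_ : Algebra K L) (_ : IsGalois K L) (s : 𝓞 K → L),
    ∀ d ∈ D, s d ^ 2 = algebraMap K L (d : K) := by
  have h1 : ∀ d : 𝓞 K, ∃ s : AlgebraicClosure K, s ^ 2 = algebraMap K (AlgebraicClosure K) (d : K) :=
    fun d => IsAlgClosed.exists_pow_nat_eq _ two_pos
  choose s hs using h1
  let E : IntermediateField K (AlgebraicClosure K) :=
    IntermediateField.adjoin K (D.image s : Set (AlgebraicClosure K))
  have hE : FiniteDimensional K E := by
    refine IntermediateField.finiteDimensional_adjoin fun x _ => ?_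
    exact (Algebra.IsAlgebraic.isAlgebraic (R := K) x).isIntegral
  let N : IntermediateField K (AlgebraicClosure K) :=
    IntermediateField.normalClosure K E (AlgebraicClosure K)
  have hN : FiniteDimensional K N := inferInstance
  have hNn : Normal K N := inferInstance
  have hfinQ : FiniteDimensional ℚ N := Module.Finite.trans K _
  have hN' : NumberField N :=
    { to_charZero := inferInstance, to_finiteDimensional := hfinQ }
  have hG : IsGalois K N := { }
  have hmem : ∀ d ∈ D, s d ∈ N := by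
    intro d hd
    apply IntermediateField.le_normalClosure E
    apply IntermediateField.subset_adjoin
    exact Finset.mem_coe.2 (Finset.mem_image_of_mem s hd)
  refine ⟨N, inferInstance, hN', inferInstance, hG,
    fun d => if h : d ∈ D then ⟨s d, hmem d h⟩ else 0, ?_⟩
  intro d hd
  simp only [dif_pos hd]
  apply Subtype.ext
  exact hs d

/-- Elements with the same cyclic group act in the same way on square roots. -/
theorem same_sign {g σ : L ≃ₐ[K] L} (h : Subgroup.zpowers g = Subgroup.zpowers σ) {s : L} {e : ZMod 2}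
    (hσ : σ s = if e = 0 then s else - s) : g s = if e = 0 then s else - s := by
  by_cases hss : s = - s
  · have h0 : s = 0 := self_eq_neg.1 hss
    rw [h0, map_zero, neg_zero, ite_self]
  have hz : ∀ (τ : L ≃ₐ[K] L), τ s = s → ∀ ρ ∈ Subgroup.zpowers τ, ρ s = s := by
    intro τ hτ ρ hρ
    have h1 : Subgroup.zpowers τ ≤ MulAction.stabilizer (L ≃ₐ[K] L) s := by
      rw [Subgroup.zpowers_le, MulAction.mem_stabilizer_iff]
      exact hτ
    exact MulAction.mem_stabilizer_iff.1 (h1 hρ)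
  have h1 : g ∈ Subgroup.zpowers σ := by
    rw [← h]
    exact Subgroup.mem_zpowers _
  have h2 : σ ∈ Subgroup.zpowers g := by
    rw [h]
    exact Subgroup.mem_zpowers _
  by_cases he : e = 0
  · rw [if_pos he] at hσ ⊢
    exact hz σ hσ g h1
  · rw [if_neg he] at hσ ⊢
    have h3 : ∀ ρ ∈ Subgroup.zpowers σ, ρ s = s ∨ ρ s = - s := by
      intro ρ hρ
      obtain ⟨n, rfl⟩ := Subgroup.mem_zpowers_iff.1 hρ
      induction n using Int.induction_on with
      | zero => exact Or.inl (by rw [zpow_zero]; rfl)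
      | succ n ih =>
        have h4 : (σ ^ ((n : ℤ) + 1)) s = (σ ^ (n : ℤ)) (σ s) := by
          rw [zpow_add_one]
          rfl
        rw [h4, hσ, map_neg]
        rcases ih (Subgroup.zpow_mem_zpowers _ _) with h5 | h5
        · right
          rw [h5]
        · left
          rw [h5, neg_neg]
      | pred n ih =>
        have h4 : (σ ^ (-(n : ℤ) - 1)) (σ s) = (σ ^ (-(n : ℤ))) s := by
          have h6 : σ ^ (-(n : ℤ)) = σ ^ (-(n : ℤ) - 1) * σ := by
            rw [← zpow_add_one]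
            ring_nf
          rw [h6]
          rfl
        rw [hσ, map_neg] at h4
        rcases ih (Subgroup.zpow_mem_zpowers _ _) with h5 | h5
        · right
          rw [h5] at h4
          exact neg_eq_iff_eq_neg.1 h4
        · left
          rw [h5] at h4
          exact neg_injective h4
    rcases h3 g h1 with h4 | h4
    · exfalso
      have h5 := hz g h4 σ h2
      rw [hσ] at h5
      exact hss h5.symm
    · exact h4

omit [NumberField L] [IsGalois K L] in
theorem fin_mem {x : 𝓞 K} (hx : x ≠ 0) : {v : HeightOneSpectrum (𝓞 K) | x ∈ v.asIdeal}.Finite := by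
  have h1 := Ideal.finite_factors (R := 𝓞 K) (I := Ideal.span {x})
    (by rw [Ne, Ideal.zero_eq_bot, Ideal.span_singleton_eq_bot]; exact hx)
  refine h1.subset fun v hv => ?_
  exact Ideal.dvd_span_singleton.2 hv

/-- Infinitely many places with prescribed Legendre symbols. -/
theorem exists_places (D : Finset (𝓞 K)) (hD : ∀ d ∈ D, d ≠ 0) (φ : SC K →+ ZMod 2) :
    {v : HeightOneSpectrum (𝓞 K) | (2 : 𝓞 K) ∉ v.asIdeal ∧
      ∀ d ∈ D, d ∉ v.asIdeal ∧ la v (sc (d : K)) = φ (sc (d : K))}.Infinite := by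
  obtain ⟨L, _, _, _, _, s, hs⟩ := exists_fieldL D
  obtain ⟨σ, hσ⟩ := exists_sigma D hD s hs φ
  have hbad : ({v : HeightOneSpectrum (𝓞 K) | (2 : 𝓞 K) ∈ v.asIdeal} ∪
      ⋃ d ∈ D, {v : HeightOneSpectrum (𝓞 K) | d ∈ v.asIdeal}).Finite :=
    (fin_mem two_ne_zero).union (Set.Finite.biUnion D.finite_toSet fun d hd => fin_mem (hD d hd))
  refine ((frob_infK σ).sdiff hbad).mono ?_
  rintro v ⟨⟨g, hg, hF⟩, hv⟩
  have h2 : (2 : 𝓞 K) ∉ v.asIdeal := fun h => hv (Or.inl h)
  refine ⟨h2, fun d hd => ?_⟩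
  have hdv : d ∉ v.asIdeal := fun h => hv (Or.inr (Set.mem_biUnion hd h))
  exact ⟨hdv, la_of_frob hF h2 hdv (hs d hd) (same_sign hg (hσ d hd))⟩

end Kummer

section Choice

theorem exists_injOn {α β : Type} (P : Finset α) (A : α → Set β) (hA : ∀ v ∈ P, (A v).Infinite)
    (b₀ : β) : ∃ a : α → β, (∀ v ∈ P, a v ∈ A v) ∧ ∀ v ∈ P, ∀ v' ∈ P, a v = a v' → v = v' := by
  induction P using Finset.induction_on with
  | empty =>
    exact ⟨fun _ => b₀, fun v hv => absurd hv (Finset.notMem_empty v),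
      fun v hv => absurd hv (Finset.notMem_empty v)⟩
  | insert u P hu ih =>
    obtain ⟨a, ha1, ha2⟩ := ih fun v hv => hA v (Finset.mem_insert_of_mem hv)
    obtain ⟨x, hx, hxa⟩ := (hA u (Finset.mem_insert_self u P)).exists_notMem_finset (P.image a)
    have hne : ∀ v ∈ P, v ≠ u := fun v hv h => hu (h ▸ hv)
    refine ⟨fun v => if v = u then x else a v, ?_, ?_⟩
    · intro v hv
      rcases Finset.mem_insert.1 hv with h | h
      · simp only [h, if_true]
        exact hx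
      · simp only [if_neg (hne v h)]
        exact ha1 v h
    · intro v hv v' hv' hvv
      rcases Finset.mem_insert.1 hv with h | h <;> rcases Finset.mem_insert.1 hv' with h' | h'
      · rw [h, h']
      · exfalso
        simp only [h, if_true, if_neg (hne v' h')] at hvv
        exact hxa (Finset.mem_image.2 ⟨v', h', hvv.symm⟩)
      · exfalso
        simp only [h', if_true, if_neg (hne v h)] at hvv
        exact hxa (Finset.mem_image.2 ⟨v, h, hvv⟩)
      · simp only [if_neg (hne v h), if_neg (hne v' h')] at hvv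
        exact ha2 v h v' h' hvv

end Choice

section Config

variable {K : Type} [Field K] [NumberField K]

theorem oddP_of {v : HeightOneSpectrum (𝓞 K)} (h : (2 : 𝓞 K) ∉ v.asIdeal) : OddP v := by
  have h3 : v.valuation K ((2 : 𝓞 K) : K) = 1 := v.valuation_eq_one_iff_notMem.mpr h
  have h4 : ((2 : 𝓞 K) : K) = 2 := map_ofNat _ 2
  rw [h4] at h3
  exact h3

theorem coe_ne {d : 𝓞 K} (hd : d ≠ 0) : (d : K) ≠ 0 := fun h =>
  hd (RingOfIntegers.coe_injective (h.trans (map_zero _).symm))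

theorem eo_unit {v : HeightOneSpectrum (𝓞 K)} {d : 𝓞 K} (hd0 : d ≠ 0) (hd : d ∉ v.asIdeal) :
    eo v (sc (d : K)) = 0 := by
  have h3 : v.valuation K (d : K) = 1 := v.valuation_eq_one_iff_notMem.mpr hd
  have h4 : ord (v.valuation K) (d : K) = 0 := by
    unfold ord
    rw [h3, WithZero.log_one, neg_zero]
  rw [H38T1.eo_sc (coe_ne hd0), h4, Int.cast_zero]

theorem six_two {v : HeightOneSpectrum (𝓞 K)} (h : (6 : 𝓞 K) ∉ v.asIdeal) : (2 : 𝓞 K) ∉ v.asIdeal := by
  intro h2
  apply h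
  have h3 : (6 : 𝓞 K) = 2 * 3 := by norm_num
  rw [h3]
  exact v.asIdeal.mul_mem_right _ h2

theorem twOk_one {C : H76MQ.Cfg K} (hC : C.Ok) : H76MQ.TwOk C 1 := by
  have h1 : sc ((1 : 𝓞 K) : K) = 0 := by
    have h2 : ((1 : 𝓞 K) : K) = 1 := map_one _
    rw [h2, H38T1.sc_eq_zero one_ne_zero]
    exact ⟨1, (mul_one 1).symm⟩
  refine ⟨one_ne_zero, fun v hv => ?_, fun v _ _ => ?_⟩
  · rw [h1, H38T1.la_zero (oddP_of (six_two (hC.a6 v hv))), H38T1.eo_zero]
  · rw [h1, H38T1.eo_zero]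

theorem twOk_mul {C : H76MQ.Cfg K} (hC : C.Ok) {d d' : 𝓞 K} (h : H76MQ.TwOk C d)
    (h' : H76MQ.TwOk C d') : H76MQ.TwOk C (d * d') := by
  have h1 : sc ((d * d' : 𝓞 K) : K) = sc (d : K) + sc (d' : K) := by
    have h2 : ((d * d' : 𝓞 K) : K) = (d : K) * (d' : K) := map_mul _ _ _
    rw [h2, H38T1.sc_mul (coe_ne h.ne) (coe_ne h'.ne)]
  refine ⟨mul_ne_zero h.ne h'.ne, fun v hv => ?_, fun v hv hv' => ?_⟩
  · rw [h1, H38T1.la_add (oddP_of (six_two (hC.a6 v hv))), H38T1.eo_add, h.leg v hv, h'.leg v hv]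
  · rw [h1, H38T1.eo_add, h.out v hv hv', h'.out v hv hv', add_zero]

/-- **Existence of the configuration.** -/
theorem exists_cfg
    (h2 : ∀ v : HeightOneSpectrum (𝓞 K), (2 : 𝓞 K) ∈ v.asIdeal →
      H76PP.Nv v = 2 ∧ (2 : 𝓞 K) ∉ v.asIdeal ^ 2)
    (D : Finset (𝓞 K)) (hD : ∀ d ∈ D, d ≠ 0) :
    ∃ C : H76MQ.Cfg K, C.Ok ∧ ∀ d ∈ Submonoid.closure (D : Set (𝓞 K)), H76MQ.TwOk C d := by
  have hPf : {v : HeightOneSpectrum (𝓞 K) | (2 : 𝓞 K) ∈ v.asIdeal}.Finite := fin_mem two_ne_zero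
  have h3f : {v : HeightOneSpectrum (𝓞 K) | (3 : 𝓞 K) ∈ v.asIdeal}.Finite := fin_mem (by
    intro h
    have h1 : algebraMap (𝓞 K) K 3 = 0 := by rw [h, map_zero]
    rw [map_ofNat] at h1
    exact three_ne_zero h1)
  have hDf : (⋃ d ∈ D, {v : HeightOneSpectrum (𝓞 K) | d ∈ v.asIdeal}).Finite :=
    Set.Finite.biUnion D.finite_toSet fun d hd => fin_mem (hD d hd)
  have hRf : {v : HeightOneSpectrum (𝓞 K) | (2 : 𝓞 K) ∉ v.asIdeal ∧ ((3 : 𝓞 K) ∈ v.asIdeal ∨
      ∃ d ∈ D, d ∈ v.asIdeal)}.Finite := by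
    refine (h3f.union hDf).subset ?_
    rintro v ⟨-, h | ⟨d, hd, hdv⟩⟩
    · exact Or.inl h
    · exact Or.inr (Set.mem_biUnion hd hdv)
  have hrange : ∀ v : HeightOneSpectrum (𝓞 K), ({u : HeightOneSpectrum (𝓞 K) |
      (6 : 𝓞 K) ∉ u.asIdeal ∧ u ∉ hRf.toFinset ∧
      ∀ d ∈ D, la u (sc (d : K)) = eo v (sc (d : K))}).Infinite := by
    intro v
    let φ : SC K →+ ZMod 2 :=
      { toFun := fun c => eo v c
        map_zero' := H38T1.eo_zero v
        map_add' := H38T1.eo_add v }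
    refine ((exists_places D hD φ).sdiff h3f).mono ?_
    rintro u ⟨⟨hu2, hu⟩, hu3⟩
    have hmax : u.asIdeal.IsPrime := u.isPrime
    refine ⟨?_, ?_, fun d hd => (hu d hd).2⟩
    · intro h6
      have h7 : (6 : 𝓞 K) = 2 * 3 := by norm_num
      rw [h7] at h6
      rcases hmax.mem_or_mem h6 with h | h
      · exact hu2 h
      · exact hu3 h
    · intro h
      rw [Set.Finite.mem_toFinset] at h
      rcases h.2 with h | ⟨d, hd, hdv⟩
      · exact hu3 h
      · exact (hu d hd).1 hdv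
  obtain ⟨u₀, -⟩ := (exists_places (K := K) ∅ (fun d hd => absurd hd (Finset.notMem_empty d)) 0).nonempty
  obtain ⟨a, ha1, ha2⟩ := exists_injOn hPf.toFinset _ (fun v _ => hrange v) u₀
  obtain ⟨C, hC⟩ : ∃ C : H76MQ.Cfg K, C = ⟨hPf.toFinset, a, hRf.toFinset⟩ := ⟨_, rfl⟩
  have hOk : C.Ok := by
    rw [hC]
    refine ⟨fun v => Set.Finite.mem_toFinset _, fun v hv => ?_, fun v hv => ?_,
      fun v hv => (ha1 v hv).1, ha2, fun v hv => (ha1 v hv).2.1, fun v hv => ?_, fun v hv => ?_⟩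
    · have h4 : v ∈ hPf.toFinset := hv
      exact (h2 v (hPf.mem_toFinset.1 h4)).1
    · have h4 : v ∈ hPf.toFinset := hv
      exact (h2 v (hPf.mem_toFinset.1 h4)).2
    · exact ((Set.Finite.mem_toFinset _).1 hv).1
    · refine (Set.Finite.mem_toFinset _).2 ⟨fun h => ?_, Or.inl hv⟩
      apply v.isPrime.ne_top
      rw [Ideal.eq_top_iff_one]
      have h4 := v.asIdeal.sub_mem hv h
      have h5 : (3 : 𝓞 K) - 2 = 1 := by norm_num
      rwa [h5] at h4
  refine ⟨C, hOk, fun d hd => ?_⟩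
  induction hd using Submonoid.closure_induction with
  | mem d hd =>
    refine ⟨hD d hd, fun v hv => ?_, fun v hv hv' => ?_⟩
    · rw [hC] at hv ⊢
      exact (ha1 v hv).2.2 d hd
    · apply eo_unit (hD d hd)
      intro hdv
      rw [hC] at hv hv'
      apply hv'
      refine (Set.Finite.mem_toFinset _).2 ⟨fun h => hv ((Set.Finite.mem_toFinset _).2 h),
        Or.inr ⟨d, hd, hdv⟩⟩
  | one => exact twOk_one hOk
  | mul x y _ _ hx hy => exact twOk_mul hOk hx hy

end Config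

end H30MQ

end S_H30_MQ_Cg

section S_H30_MQ_Cn

set_option autoImplicit false
set_option linter.unusedSectionVars false
open scoped Classical

open NumberField IsDedekindDomain Filter Topology Pool.Agent.H42.PC H38RT WithZero
open H38T1 (SC sc rep eo la OddP)

namespace H30MQ

section Root

variable {K L : Type} [Field K] [NumberField K] [Field L] [NumberField L] [Algebra K L]
  [IsGalois K L]

/-- An integer fixed by the Frobenius element is congruent to an integer of `K`. -/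
theorem int_of_frob {v : HeightOneSpectrum (𝓞 K)} {g : L ≃ₐ[K] L} (hF : IsFr K L v g) :
    ∃ w : HeightOneSpectrum (𝓞 L), w.asIdeal.LiesOver v.asIdeal ∧ ∀ x : 𝓞 L, g • x = x →
      ∃ n : 𝓞 K, algebraMap (𝓞 K) (𝓞 L) n - x ∈ w.asIdeal := by
  obtain ⟨w, hw, hfr⟩ := hF
  refine ⟨w, hw, fun x hx => ?_⟩
  have hmaxv : v.asIdeal.IsMaximal := v.isMaximal
  have hmaxw : w.asIdeal.IsMaximal := w.isMaximal
  let _ : Field (𝓞 K ⧸ v.asIdeal) := Ideal.Quotient.field v.asIdeal
  let _ : Field (𝓞 L ⧸ w.asIdeal) := Ideal.Quotient.field w.asIdeal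
  have hN0 : Ideal.absNorm v.asIdeal ≠ 0 := (Ideal.absNorm_eq_zero_iff.not).2 v.ne_bot
  have hfin : Finite (𝓞 K ⧸ v.asIdeal) := by
    apply Nat.finite_of_card_ne_zero
    exact hN0
  let _ : Fintype (𝓞 K ⧸ v.asIdeal) := Fintype.ofFinite _
  have hle : v.asIdeal ≤ w.asIdeal.comap (algebraMap (𝓞 K) (𝓞 L)) := by
    rw [hw.over]
  let φ : (𝓞 K ⧸ v.asIdeal) →+* (𝓞 L ⧸ w.asIdeal) :=
    Ideal.quotientMap w.asIdeal (algebraMap (𝓞 K) (𝓞 L)) hle
  have h1 := hfr x
  have h3 : Nat.card (𝓞 K ⧸ w.asIdeal.under (𝓞 K)) = Fintype.card (𝓞 K ⧸ v.asIdeal) := by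
    rw [← hw.over, Nat.card_eq_fintype_card]
  rw [h3] at h1
  have h4 : x - x ^ Fintype.card (𝓞 K ⧸ v.asIdeal) ∈ w.asIdeal := by
    have h5 : (MulSemiringAction.toAlgHom (𝓞 K) (𝓞 L) g) x = x := hx
    rw [h5] at h1
    exact h1
  obtain ⟨q, hq⟩ : ∃ q : ℕ, q = Fintype.card (𝓞 K ⧸ v.asIdeal) := ⟨_, rfl⟩
  have hq1 : 1 < q := by
    rw [hq]
    exact Fintype.one_lt_card
  obtain ⟨y, hy⟩ : ∃ y : 𝓞 L ⧸ w.asIdeal, y = Ideal.Quotient.mk w.asIdeal x := ⟨_, rfl⟩
  have hyq : y ^ q = y := by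
    have h6 := Ideal.Quotient.eq_zero_iff_mem.2 h4
    rw [map_sub, map_pow, sub_eq_zero, ← hy, ← hq] at h6
    exact h6.symm
  obtain ⟨P, hP⟩ : ∃ P : Polynomial (𝓞 L ⧸ w.asIdeal), P = Polynomial.X ^ q - Polynomial.X :=
    ⟨_, rfl⟩
  have hP0 : P ≠ 0 := by
    rw [hP]
    exact FiniteField.X_pow_card_sub_X_ne_zero _ hq1
  have hPd : P.natDegree = q := by
    rw [hP]
    exact FiniteField.X_pow_card_sub_X_natDegree_eq _ hq1
  have hroot : ∀ z : 𝓞 L ⧸ w.asIdeal, z ^ q = z → z ∈ P.roots := by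
    intro z hz
    rw [Polynomial.mem_roots hP0, hP, Polynomial.IsRoot.def, Polynomial.eval_sub,
      Polynomial.eval_pow, Polynomial.eval_X, hz, sub_self]
  have hmem : y ∈ Finset.univ.image φ := by
    by_contra hcon
    have h7 : (insert y (Finset.univ.image φ)).val ⊆ P.roots := by
      intro z hz
      have hz' : z ∈ insert y (Finset.univ.image φ) := hz
      rcases Finset.mem_insert.1 hz' with h8 | h8
      · rw [h8]
        exact hroot y hyq
      · obtain ⟨b, -, rfl⟩ := Finset.mem_image.1 h8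
        apply hroot
        rw [← map_pow, hq, FiniteField.pow_card]
    have h8 := Polynomial.card_le_degree_of_subset_roots h7
    rw [Finset.card_insert_of_notMem hcon, Finset.card_image_of_injective _ φ.injective,
      Finset.card_univ, ← hq, hPd] at h8
    omega
  obtain ⟨b, -, hb⟩ := Finset.mem_image.1 hmem
  obtain ⟨n, rfl⟩ := Ideal.Quotient.mk_surjective b
  refine ⟨n, ?_⟩
  rw [← Ideal.Quotient.eq_zero_iff_mem, map_sub, ← hy, ← hb, sub_eq_zero]
  exact (Ideal.quotientMap_mk).symm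

/-- If the Frobenius element at `v` fixes `N` then the minimal polynomial of an integer of `N` has a root
modulo `v`. -/
theorem root_of_frob {N : Type} [Field N] [NumberField N] [Algebra K N] [Algebra N L]
    [IsScalarTower K N L] (a : 𝓞 N) {v : HeightOneSpectrum (𝓞 K)} {g : L ≃ₐ[K] L}
    (hF : IsFr K L v g) (hg : ∀ x : N, g (algebraMap N L x) = algebraMap N L x) :
    ∃ n : 𝓞 K, (minpoly (𝓞 K) a).eval n ∈ v.asIdeal := by
  obtain ⟨w, hw, hfix⟩ := int_of_frob hF
  obtain ⟨n, hn⟩ := hfix (algebraMap (𝓞 N) (𝓞 L) a) (by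
    apply RingOfIntegers.coe_injective
    exact hg a)
  refine ⟨n, ?_⟩
  rw [hw.over]
  show algebraMap (𝓞 K) (𝓞 L) ((minpoly (𝓞 K) a).eval n) ∈ w.asIdeal
  have hψ : algebraMap (𝓞 K) (𝓞 L) = (algebraMap (𝓞 N) (𝓞 L)).comp (algebraMap (𝓞 K) (𝓞 N)) :=
    IsScalarTower.algebraMap_eq (𝓞 K) (𝓞 N) (𝓞 L)
  have h1 : ((minpoly (𝓞 K) a).map (algebraMap (𝓞 K) (𝓞 L))).eval (algebraMap (𝓞 N) (𝓞 L) a) = 0 := by
    rw [Polynomial.eval_map, hψ, ← Polynomial.hom_eval₂]
    have h2 := minpoly.aeval (𝓞 K) a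
    rw [Polynomial.aeval_def] at h2
    rw [h2, map_zero]
  have h2 : ((minpoly (𝓞 K) a).map (algebraMap (𝓞 K) (𝓞 L))).eval (algebraMap (𝓞 K) (𝓞 L) n) =
      algebraMap (𝓞 K) (𝓞 L) ((minpoly (𝓞 K) a).eval n) := by
    rw [Polynomial.eval_map, ← Polynomial.eval₂_at_apply]
  have h3 := Polynomial.sub_dvd_eval_sub (algebraMap (𝓞 K) (𝓞 L) n) (algebraMap (𝓞 N) (𝓞 L) a)
    ((minpoly (𝓞 K) a).map (algebraMap (𝓞 K) (𝓞 L)))
  rw [h1, h2, sub_zero] at h3
  exact w.asIdeal.mem_of_dvd h3 hn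

end Root

section Places

variable {K : Type} [Field K] [NumberField K]

/-- A Galois extension of `K` which contains `N` and square roots of the given elements. -/
theorem exists_fieldN (N : Type) [Field N] [NumberField N] [Algebra K N] (D : Finset (𝓞 K)) :
    ∃ (L : Type) (_ : Field L) (_ : NumberField L) (_ : Algebra K L) (_ : Algebra N L)
    (_ : IsScalarTower K N L) (_ : IsGalois K L) (s : 𝓞 K → L),
    ∀ d ∈ D, s d ^ 2 = algebraMap K L (d : K) := by
  have h1 : ∀ d : 𝓞 K, ∃ s : AlgebraicClosure N,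
      s ^ 2 = algebraMap K (AlgebraicClosure N) (d : K) :=
    fun d => IsAlgClosed.exists_pow_nat_eq _ two_pos
  choose s hs using h1
  have hfN : FiniteDimensional K N := Module.Finite.of_restrictScalars_finite ℚ K N
  have halg : Algebra.IsAlgebraic K (AlgebraicClosure N) :=
    Algebra.IsAlgebraic.trans K N (AlgebraicClosure N)
  have hcl : IsAlgClosure K (AlgebraicClosure N) := ⟨inferInstance, halg⟩
  have hnΩ : Normal K (AlgebraicClosure N) := IsAlgClosure.normal K _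
  let E₁ : IntermediateField K (AlgebraicClosure N) :=
    (IsScalarTower.toAlgHom K N (AlgebraicClosure N)).fieldRange
  let E₂ : IntermediateField K (AlgebraicClosure N) :=
    IntermediateField.adjoin K (D.image s : Set (AlgebraicClosure N))
  have hE₁ : FiniteDimensional K E₁ :=
    Module.Finite.of_surjective
      ((IsScalarTower.toAlgHom K N (AlgebraicClosure N)).rangeRestrict).toLinearMap
      (IsScalarTower.toAlgHom K N (AlgebraicClosure N)).rangeRestrict_surjective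
  have hE₂ : FiniteDimensional K E₂ := by
    refine IntermediateField.finiteDimensional_adjoin fun x _ => ?_
    exact (Algebra.IsAlgebraic.isAlgebraic (R := K) x).isIntegral
  obtain ⟨E, hEd⟩ : ∃ E : IntermediateField K (AlgebraicClosure N), E = E₁ ⊔ E₂ := ⟨_, rfl⟩
  have hE : FiniteDimensional K E := by
    rw [hEd]
    infer_instance
  let L : IntermediateField K (AlgebraicClosure N) :=
    IntermediateField.normalClosure K E (AlgebraicClosure N)
  have hL : FiniteDimensional K L := inferInstance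
  have hLn : Normal K L := inferInstance
  have hfinQ : FiniteDimensional ℚ L := Module.Finite.trans K _
  have hL' : NumberField L :=
    { to_charZero := inferInstance, to_finiteDimensional := hfinQ }
  have hG : IsGalois K L := { }
  have hEL : E ≤ L := IntermediateField.le_normalClosure E
  have hmem : ∀ d ∈ D, s d ∈ L := by
    intro d hd
    apply hEL
    rw [hEd]
    apply (le_sup_right : E₂ ≤ E₁ ⊔ E₂)
    apply IntermediateField.subset_adjoin
    exact Finset.mem_coe.2 (Finset.mem_image_of_mem s hd)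
  have hNL : ∀ x : N, algebraMap N (AlgebraicClosure N) x ∈ L := by
    intro x
    apply hEL
    rw [hEd]
    apply (le_sup_left : E₁ ≤ E₁ ⊔ E₂)
    exact ⟨x, rfl⟩
  let i : N →+* L := RingHom.codRestrict (algebraMap N (AlgebraicClosure N)) L hNL
  let hA : Algebra N L := i.toAlgebra
  have hT : IsScalarTower K N L := IsScalarTower.of_algebraMap_eq fun x =>
    Subtype.ext (IsScalarTower.algebraMap_apply K N (AlgebraicClosure N) x)
  refine ⟨L, inferInstance, hL', inferInstance, hA, hT, hG,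
    fun d => if h : d ∈ D then ⟨s d, hmem d h⟩ else 0, ?_⟩
  intro d hd
  simp only [dif_pos hd]
  apply Subtype.ext
  exact hs d

/-- Infinitely many places which split completely in `N` with prescribed Legendre symbols. -/
theorem exists_placesN (N : Type) [Field N] [NumberField N] [Algebra K N] (D : Finset (𝓞 K))
    (hD : ∀ d ∈ D, d ≠ 0) (φ : SC N →+ ZMod 2) :
    {v : HeightOneSpectrum (𝓞 K) | (2 : 𝓞 K) ∉ v.asIdeal ∧
      (∃ ι : N →+* v.adicCompletion K, ∀ x : K,
        ι (algebraMap K N x) = algebraMap K (v.adicCompletion K) x) ∧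
      ∀ d ∈ D, d ∉ v.asIdeal ∧ la v (sc (d : K)) = φ (sc (algebraMap K N (d : K)))}.Infinite := by
  obtain ⟨L, _, _, _, _, _, _, s, hs⟩ := exists_fieldN N D
  have hLN : IsGalois N L := IsGalois.tower_top_of_isGalois K N L
  have hinj : Function.Injective (algebraMap (𝓞 K) (𝓞 N)) := FaithfulSMul.algebraMap_injective _ _
  have hcoe : ∀ d : 𝓞 K, ((algebraMap (𝓞 K) (𝓞 N) d : 𝓞 N) : N) = algebraMap K N (d : K) :=
    fun d => rfl
  obtain ⟨σ, hσ⟩ := exists_sigma (K := N) (L := L) (D.image (algebraMap (𝓞 K) (𝓞 N))) (by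
      intro y hy
      obtain ⟨d, hd, rfl⟩ := Finset.mem_image.1 hy
      exact fun h => hD d hd (hinj (h.trans (map_zero _).symm)))
    (s ∘ Function.invFun (algebraMap (𝓞 K) (𝓞 N))) (by
      intro y hy
      obtain ⟨d, hd, rfl⟩ := Finset.mem_image.1 hy
      have h1 : Function.invFun (algebraMap (𝓞 K) (𝓞 N)) (algebraMap (𝓞 K) (𝓞 N) d) = d :=
        Function.leftInverse_invFun hinj d
      rw [Function.comp_apply, h1, hs d hd, hcoe, ← IsScalarTower.algebraMap_apply K N L]) φ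
  have hσ' : ∀ d ∈ D, σ (s d) = if φ (sc (algebraMap K N (d : K))) = 0 then s d else - s d := by
    intro d hd
    have h2 := hσ _ (Finset.mem_image_of_mem _ hd)
    have h1 : Function.invFun (algebraMap (𝓞 K) (𝓞 N)) (algebraMap (𝓞 K) (𝓞 N) d) = d :=
      Function.leftInverse_invFun hinj d
    rw [Function.comp_apply, h1, hcoe] at h2
    exact h2
  let τ : L ≃ₐ[K] L := σ.restrictScalars K
  have hτN : ∀ x : N, τ (algebraMap N L x) = algebraMap N L x := fun x => σ.commutes x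
  obtain ⟨a, ha⟩ := H30PN.Sp_gen K N
  obtain ⟨B, hB, hlift⟩ := H30PN.Sp_lift (K := K) a
  have hbad : (({v : HeightOneSpectrum (𝓞 K) | (2 : 𝓞 K) ∈ v.asIdeal} ∪
      ⋃ d ∈ D, {v : HeightOneSpectrum (𝓞 K) | d ∈ v.asIdeal}) ∪ B).Finite :=
    ((fin_mem two_ne_zero).union
      (Set.Finite.biUnion D.finite_toSet fun d hd => fin_mem (hD d hd))).union hB
  refine ((frob_infK τ).sdiff hbad).mono ?_
  rintro v ⟨⟨g, hg, hF⟩, hv⟩
  have h2 : (2 : 𝓞 K) ∉ v.asIdeal := fun h => hv (Or.inl (Or.inl h))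
  have hgN : ∀ x : N, g (algebraMap N L x) = algebraMap N L x := by
    intro x
    have h3 := same_sign (g := g) (σ := τ) hg (s := algebraMap N L x) (e := 0)
      (by rw [if_pos rfl]; exact hτN x)
    rw [if_pos rfl] at h3
    exact h3
  refine ⟨h2, ?_, fun d hd => ?_⟩
  · obtain ⟨n, hn⟩ := root_of_frob a hF hgN
    obtain ⟨t, ht⟩ := hlift v (fun h => hv (Or.inr h)) n hn
    exact H30PN.Sp_emb ha ht
  · have hdv : d ∉ v.asIdeal := fun h => hv (Or.inl (Or.inr (Set.mem_biUnion hd h)))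
    exact ⟨hdv, la_of_frob hF h2 hdv (hs d hd) (same_sign hg (hσ' d hd))⟩

/-- The parity of the order at an embedding into a completion. -/
noncomputable def phi {N : Type} [Field N] [NumberField N] {v : HeightOneSpectrum (𝓞 K)}
    (ι : N →+* v.adicCompletion K) : SC N →+ ZMod 2 where
  toFun c := ((log (Valued.v (ι (rep c))) : ℤ) : ZMod 2)
  map_zero' := by
    obtain ⟨y, hy, h⟩ := H38T1.rep_sc (K := N) one_ne_zero
    have h1 : sc (1 : N) = 0 := (H38T1.sc_eq_zero one_ne_zero).2 ⟨1, (mul_one 1).symm⟩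
    rw [h1, one_mul] at h
    have hne : Valued.v (ι y) ≠ 0 := (Valuation.ne_zero_iff _).2 ((map_ne_zero ι).2 hy)
    rw [h, map_pow, map_pow, sq, log_mul hne hne]
    push_cast
    exact CharTwo.add_self_eq_zero _
  map_add' c c' := by
    obtain ⟨y, hy, h⟩ := H38T1.rep_sc (K := N) (mul_ne_zero (H38T1.rep_ne c) (H38T1.rep_ne c'))
    rw [H38T1.sc_mul (H38T1.rep_ne c) (H38T1.rep_ne c'), H38T1.sc_rep, H38T1.sc_rep] at h
    have hne : ∀ z : N, z ≠ 0 → Valued.v (ι z) ≠ 0 := fun z hz =>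
      (Valuation.ne_zero_iff _).2 ((map_ne_zero ι).2 hz)
    rw [h, map_mul, map_mul, map_mul, map_mul, map_pow, map_pow, sq,
      log_mul (mul_ne_zero (hne _ (H38T1.rep_ne c)) (hne _ (H38T1.rep_ne c')))
        (mul_ne_zero (hne _ hy) (hne _ hy)),
      log_mul (hne _ (H38T1.rep_ne c)) (hne _ (H38T1.rep_ne c')), log_mul (hne _ hy) (hne _ hy)]
    push_cast
    rw [CharTwo.add_self_eq_zero, add_zero]

theorem phi_sc {N : Type} [Field N] [NumberField N] [Algebra K N] {v : HeightOneSpectrum (𝓞 K)}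
    (ι : N →+* v.adicCompletion K)
    (hι : ∀ x : K, ι (algebraMap K N x) = algebraMap K (v.adicCompletion K) x) {x : K} (hx : x ≠ 0) :
    phi ι (sc (algebraMap K N x)) = eo v (sc x) := by
  obtain ⟨y, hy, h⟩ := H38T1.rep_sc (K := N) ((map_ne_zero (algebraMap K N)).2 hx)
  have hne : ∀ z : N, z ≠ 0 → Valued.v (ι z) ≠ 0 := fun z hz =>
    (Valuation.ne_zero_iff _).2 ((map_ne_zero ι).2 hz)
  show ((log (Valued.v (ι (rep (sc (algebraMap K N x))))) : ℤ) : ZMod 2) = _
  have hval : Valued.v (ι (algebraMap K N x)) = v.valuation K x := by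
    rw [hι]
    exact v.valuedAdicCompletion_eq_valuation' x
  rw [h, map_mul, map_mul, map_pow, map_pow, sq,
    log_mul (hne _ ((map_ne_zero (algebraMap K N)).2 hx)) (mul_ne_zero (hne _ hy) (hne _ hy)),
    log_mul (hne _ hy) (hne _ hy), hval, H38T1.eo_sc hx]
  unfold ord
  push_cast
  rw [CharTwo.add_self_eq_zero, add_zero]
  have h2 : ∀ a : ZMod 2, a = -a := by decide
  exact h2 _

/-- **Existence of the configuration**, with auxiliary places which split completely in `N`. -/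
theorem exists_cfgN (N : Type) [Field N] [NumberField N] [Algebra K N]
    (h2 : ∀ v : HeightOneSpectrum (𝓞 K), (2 : 𝓞 K) ∈ v.asIdeal →
      H76PP.Nv v = 2 ∧ (2 : 𝓞 K) ∉ v.asIdeal ^ 2)
    (hN : ∀ v : HeightOneSpectrum (𝓞 K), (2 : 𝓞 K) ∈ v.asIdeal → ∃ ι : N →+* v.adicCompletion K,
      ∀ x : K, ι (algebraMap K N x) = algebraMap K (v.adicCompletion K) x)
    (R₀ : Finset (HeightOneSpectrum (𝓞 K))) (hR₀ : ∀ v ∈ R₀, (2 : 𝓞 K) ∉ v.asIdeal)
    (D : Finset (𝓞 K)) (hD : ∀ d ∈ D, d ≠ 0) :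
    ∃ C : H76MQ.Cfg K, C.Ok ∧ R₀ ⊆ C.R ∧ (∀ v ∈ C.P, ∃ ι : N →+* (C.a v).adicCompletion K,
      ∀ x : K, ι (algebraMap K N x) = algebraMap K ((C.a v).adicCompletion K) x) ∧
      ∀ d ∈ Submonoid.closure (D : Set (𝓞 K)), H76MQ.TwOk C d := by
  have hPf : {v : HeightOneSpectrum (𝓞 K) | (2 : 𝓞 K) ∈ v.asIdeal}.Finite := fin_mem two_ne_zero
  have h3f : {v : HeightOneSpectrum (𝓞 K) | (3 : 𝓞 K) ∈ v.asIdeal}.Finite := fin_mem (by
    intro h
    have h1 : algebraMap (𝓞 K) K 3 = 0 := by rw [h, map_zero]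
    rw [map_ofNat] at h1
    exact three_ne_zero h1)
  have hDf : (⋃ d ∈ D, {v : HeightOneSpectrum (𝓞 K) | d ∈ v.asIdeal}).Finite :=
    Set.Finite.biUnion D.finite_toSet fun d hd => fin_mem (hD d hd)
  have hRf : {v : HeightOneSpectrum (𝓞 K) | (2 : 𝓞 K) ∉ v.asIdeal ∧ (((3 : 𝓞 K) ∈ v.asIdeal ∨
      ∃ d ∈ D, d ∈ v.asIdeal) ∨ v ∈ R₀)}.Finite := by
    refine ((h3f.union hDf).union R₀.finite_toSet).subset ?_
    rintro v ⟨-, (h | ⟨d, hd, hdv⟩) | h⟩
    · exact Or.inl (Or.inl h)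
    · exact Or.inl (Or.inr (Set.mem_biUnion hd hdv))
    · exact Or.inr h
  have hrange : ∀ v ∈ hPf.toFinset, ({u : HeightOneSpectrum (𝓞 K) |
      (∃ ι : N →+* u.adicCompletion K,
        ∀ x : K, ι (algebraMap K N x) = algebraMap K (u.adicCompletion K) x) ∧
      (6 : 𝓞 K) ∉ u.asIdeal ∧ u ∉ hRf.toFinset ∧
      ∀ d ∈ D, la u (sc (d : K)) = eo v (sc (d : K))}).Infinite := by
    intro v hv
    obtain ⟨ι, hι⟩ := hN v (hPf.mem_toFinset.1 hv)
    refine (((exists_placesN N D hD (phi ι)).sdiff h3f).sdiff R₀.finite_toSet).mono ?_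
    rintro u ⟨⟨⟨hu2, huN, hu⟩, hu3⟩, huR⟩
    have hmax : u.asIdeal.IsPrime := u.isPrime
    refine ⟨huN, ?_, ?_, fun d hd => ?_⟩
    · intro h6
      have h7 : (6 : 𝓞 K) = 2 * 3 := by norm_num
      rw [h7] at h6
      rcases hmax.mem_or_mem h6 with h | h
      · exact hu2 h
      · exact hu3 h
    · intro h
      rw [Set.Finite.mem_toFinset] at h
      rcases h.2 with (h | ⟨d, hd, hdv⟩) | h
      · exact hu3 h
      · exact (hu d hd).1 hdv
      · exact huR h
    · rw [(hu d hd).2, phi_sc ι hι (coe_ne (hD d hd))]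
  obtain ⟨u₀, -⟩ := (exists_places (K := K) ∅ (fun d hd => absurd hd (Finset.notMem_empty d)) 0).nonempty
  obtain ⟨a, ha1, ha2⟩ := exists_injOn hPf.toFinset _ hrange u₀
  obtain ⟨C, hC⟩ : ∃ C : H76MQ.Cfg K, C = ⟨hPf.toFinset, a, hRf.toFinset⟩ := ⟨_, rfl⟩
  have hOk : C.Ok := by
    rw [hC]
    refine ⟨fun v => Set.Finite.mem_toFinset _, fun v hv => ?_, fun v hv => ?_,
      fun v hv => (ha1 v hv).2.1, ha2, fun v hv => (ha1 v hv).2.2.1, fun v hv => ?_, fun v hv => ?_⟩
    · have h4 : v ∈ hPf.toFinset := hv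
      exact (h2 v (hPf.mem_toFinset.1 h4)).1
    · have h4 : v ∈ hPf.toFinset := hv
      exact (h2 v (hPf.mem_toFinset.1 h4)).2
    · exact ((Set.Finite.mem_toFinset _).1 hv).1
    · refine (Set.Finite.mem_toFinset _).2 ⟨fun h => ?_, Or.inl (Or.inl hv)⟩
      apply v.isPrime.ne_top
      rw [Ideal.eq_top_iff_one]
      have h4 := v.asIdeal.sub_mem hv h
      have h5 : (3 : 𝓞 K) - 2 = 1 := by norm_num
      rwa [h5] at h4
  refine ⟨C, hOk, fun v hv => ?_, fun v hv => ?_, fun d hd => ?_⟩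
  · rw [hC]
    exact (Set.Finite.mem_toFinset _).2 ⟨hR₀ v hv, Or.inr hv⟩
  · rw [hC] at hv ⊢
    exact (ha1 v hv).1
  induction hd using Submonoid.closure_induction with
  | mem d hd =>
    refine ⟨hD d hd, fun v hv => ?_, fun v hv hv' => ?_⟩
    · rw [hC] at hv ⊢
      exact (ha1 v hv).2.2.2 d hd
    · apply eo_unit (hD d hd)
      intro hdv
      rw [hC] at hv hv'
      apply hv'
      refine (Set.Finite.mem_toFinset _).2 ⟨fun h => hv ((Set.Finite.mem_toFinset _).2 h),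
        Or.inl (Or.inr ⟨d, hd, hdv⟩)⟩
  | one => exact twOk_one hOk
  | mul x y _ _ hx hy => exact twOk_mul hOk hx hy

end Places

end H30MQ

end S_H30_MQ_Cn
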