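import Mathlib
import Pool.Agent.H76.PN.N6
import Pool.Agent.H76.ZQ.Y12
import Pool.Agent.H76.ZQ.Y13
import Pool.Agent.H76.ZQ.Y15
import Pool.Agent.H76.ZQ.Y17
import Pool.Agent.H76.MP.M11
import Pool.Agent.H76.MP.M3
import Pool.Agent.H76.MP.M5
import Pool.Agent.H76.MP.M7
import Pool.Agent.H76.MP.M8

/-! This file joins several modules to save build time (M9). -/

set_option autoImplicit false

section S_H30_MQ_Mu

set_option autoImplicit false
set_option linter.style.haveILetI false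
set_option linter.unusedSectionVars false
open scoped Classical

open NumberField IsDedekindDomain WeierstrassCurve Pool.Agent.H10 Pool.Agent.H11 Pool.Agent.H93.MQ

namespace H30MQ

/-- The twist of `y^2 = x^3 + A x + B` by `d`, over the extension `M` of `K`. -/
def tw (K M : Type*) [Field K] [Field M] [Algebra K M] (A B d : K) : WeierstrassCurve M :=
  ⟨0, 0, 0, algebraMap K M (d ^ 2 * A), algebraMap K M (d ^ 3 * B)⟩

lemma tw_map (K : Type*) {M M' : Type*} [Field K] [Field M] [Algebra K M] [Field M'] [Algebra K M']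
    [Algebra M M'] [IsScalarTower K M M'] (A B d : K) :
    (tw K M A B d).map (algebraMap M M') = tw K M' A B d := by
  ext <;> simp [tw, IsScalarTower.algebraMap_apply K M M']

/-- Sets closed under multiplication modulo squares. -/
structure Mul2K {K : Type*} [Field K] (D : Set K) : Prop where
  one : 1 ∈ D
  ne : ∀ d ∈ D, d ≠ 0
  mul : ∀ d ∈ D, ∀ d' ∈ D, ∃ d'' ∈ D, ∃ s : K, s ≠ 0 ∧ d * d' = d'' * s ^ 2

/-- The products of the elements of a finite set. -/
def prods {K : Type*} [Field K] (ds : Finset K) : Set K := {d | ∃ J ⊆ ds, d = ∏ x ∈ J, x}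

theorem mul2K_prods {K : Type*} [Field K] {ds : Finset K} (h : ∀ d ∈ ds, d ≠ 0) :
    Mul2K (prods ds) := by
  refine ⟨⟨∅, Finset.empty_subset _, by simp⟩, ?_, ?_⟩
  · rintro d ⟨J, hJ, rfl⟩
    exact Finset.prod_ne_zero_iff.2 fun x hx => h x (hJ hx)
  · rintro d ⟨J, hJ, rfl⟩ d' ⟨J', hJ', rfl⟩
    refine ⟨∏ x ∈ symmDiff J J', x, ⟨symmDiff J J', ?_, rfl⟩, ∏ x ∈ J ∩ J', x, ?_, ?_⟩
    · intro x hx
      rcases Finset.mem_symmDiff.1 hx with hx | hx
      · exact hJ hx.1
      · exact hJ' hx.1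
    · exact Finset.prod_ne_zero_iff.2 fun x hx => h x (hJ (Finset.mem_inter.1 hx).1)
    · have h1 : J = (J \ J') ∪ (J ∩ J') := by
        ext x
        simp only [Finset.mem_union, Finset.mem_sdiff, Finset.mem_inter]
        tauto
      have h2 : J' = (J' \ J) ∪ (J ∩ J') := by
        ext x
        simp only [Finset.mem_union, Finset.mem_sdiff, Finset.mem_inter]
        tauto
      have h3 : symmDiff J J' = (J \ J') ∪ (J' \ J) := rfl
      have d1 : Disjoint (J \ J') (J ∩ J') := by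
        rw [Finset.disjoint_left]
        intro x hx hx'
        exact (Finset.mem_sdiff.1 hx).2 (Finset.mem_inter.1 hx').2
      have d2 : Disjoint (J' \ J) (J ∩ J') := by
        rw [Finset.disjoint_left]
        intro x hx hx'
        exact (Finset.mem_sdiff.1 hx).2 (Finset.mem_inter.1 hx').1
      have d3 : Disjoint (J \ J') (J' \ J) := by
        rw [Finset.disjoint_left]
        intro x hx hx'
        exact (Finset.mem_sdiff.1 hx).2 (Finset.mem_sdiff.1 hx').1
      have e1 : ∏ x ∈ J, x = (∏ x ∈ J \ J', x) * ∏ x ∈ J ∩ J', x := by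
        rw [← Finset.prod_union d1, ← h1]
      have e2 : ∏ x ∈ J', x = (∏ x ∈ J' \ J, x) * ∏ x ∈ J ∩ J', x := by
        rw [← Finset.prod_union d2, ← h2]
      rw [e1, e2, h3, Finset.prod_union d3]
      ring

section Disc

variable {K M : Type*} [Field K] [CharZero K] [Field M] [Algebra K M]

lemma tw_disc (A B d : K) :
    (tw K M A B d).Δ = algebraMap K M (-16 * (d ^ 6 * (4 * A ^ 3 + 27 * B ^ 2))) := by
  rw [WeierstrassCurve.Δ, WeierstrassCurve.b₂, WeierstrassCurve.b₄, WeierstrassCurve.b₆,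
    WeierstrassCurve.b₈]
  simp only [tw, map_mul, map_add, map_pow, map_neg, map_ofNat]
  ring

lemma tw_ell {A B d : K} (hAB : 4 * A ^ 3 + 27 * B ^ 2 ≠ 0) (hd : d ≠ 0) :
    (tw K M A B d).IsElliptic := by
  refine ⟨?_⟩
  rw [tw_disc, isUnit_iff_ne_zero]
  refine (map_ne_zero _).2 (mul_ne_zero ?_ (mul_ne_zero (pow_ne_zero 6 hd) hAB))
  norm_num

end Disc

/-- All curves with index in `D` have bounded two-primary part and finitely many points. -/
def GoodK {K : Type*} [Field K] (D : Set K) (A B : K) (M : Type) [Field M] [NumberField M]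
    [Algebra K M] : Prop :=
  ∀ d ∈ D, Bdd M (tw K M A B d) ∧ Finite (tw K M A B d).toAffine.Point

variable {K : Type} [Field K] [NumberField K]

theorem goodK_step {D : Set K} (hD : Mul2K D) {A B : K} (hAB : 4 * A ^ 3 + 27 * B ^ 2 ≠ 0)
    {M M' : Type} [Field M] [NumberField M] [Field M'] [NumberField M'] [Algebra K M] [Algebra K M']
    [Algebra M M'] [IsScalarTower K M M'] {d₀ : K}
    (hd₀ : d₀ ∈ D) {s : M'} (hs : s ^ 2 = algebraMap K M' d₀)
    (hgen : ∀ x : M', ∃ a b : M, x = algebraMap M M' a + algebraMap M M' b * s)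
    (H : GoodK D A B M) : GoodK D A B M' := by
  have hd00 : algebraMap K M' d₀ ≠ 0 := (map_ne_zero _).2 (hD.ne d₀ hd₀)
  have hnorm : Normal M M' := H14T1.normal_quad (c := algebraMap K M d₀)
    (by rw [hs, ← IsScalarTower.algebraMap_apply K M M']) hgen
  have hs0 : s ≠ 0 := by
    intro h0
    rw [h0, zero_pow two_ne_zero] at hs
    exact hd00 hs.symm
  have hsig : ∀ σ : M' ≃ₐ[M] M', σ s = s ∨ σ s = -s := by
    intro σ
    have h1 : (σ s) ^ 2 = s ^ 2 := by
      rw [← map_pow, hs, IsScalarTower.algebraMap_apply K M M', AlgEquiv.commutes]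
    exact sq_eq_sq_iff_eq_or_eq_neg.1 h1
  have hfix : ∀ σ : M' ≃ₐ[M] M', σ s = s → σ = 1 := by
    intro σ h1
    ext x
    obtain ⟨a, b, hx⟩ := hgen x
    rw [hx, map_add, map_mul, AlgEquiv.commutes, AlgEquiv.commutes, h1]
    simp
  intro d hd
  obtain ⟨d', hd', c, hc, hrel⟩ := hD.mul d hd d₀ hd₀
  have hc0 : algebraMap K M' c ≠ 0 := (map_ne_zero _).2 hc
  set s' : M' := s / algebraMap K M' c with hs'
  have hs'0 : s' ≠ 0 := div_ne_zero hs0 hc0
  have hdd : algebraMap K M' d' = s' ^ 2 * algebraMap K M' d := by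
    have h1 : algebraMap K M' (d * d₀) = algebraMap K M' (d' * c ^ 2) := by rw [hrel]
    rw [map_mul, map_mul, map_pow] at h1
    rw [hs', div_pow, hs]
    field_simp
    linear_combination -h1
  have hR : Rsc s' (tw K M' A B d) (tw K M' A B d') := by
    refine ⟨hs'0, ?_, ?_, ?_, ?_, ?_⟩
    · show (0 : M') = s' * 0
      rw [mul_zero]
    · show (0 : M') = s' ^ 2 * 0
      rw [mul_zero]
    · show (0 : M') = s' ^ 3 * 0
      rw [mul_zero]
    · show algebraMap K M' (d' ^ 2 * A) = s' ^ 4 * algebraMap K M' (d ^ 2 * A)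
      rw [map_mul, map_mul, map_pow, map_pow, hdd]
      ring
    · show algebraMap K M' (d' ^ 3 * B) = s' ^ 6 * algebraMap K M' (d ^ 3 * B)
      rw [map_mul, map_mul, map_pow, map_pow, hdd]
      ring
  have hcσ : ∀ σ : M' ≃ₐ[M] M', σ s' = σ s / algebraMap K M' c := by
    intro σ
    rw [hs', map_div₀, IsScalarTower.algebraMap_apply K M M' c, AlgEquiv.commutes]
  have hσ : ∀ σ : M' ≃ₐ[M] M', σ = 1 ∨ σ s' = -s' := by
    intro σ
    rcases hsig σ with h1 | h1
    · exact Or.inl (hfix σ h1)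
    · right
      rw [hcσ, h1, hs', neg_div]
  have huniq : ∀ σ τ : M' ≃ₐ[M] M', σ s' = -s' → τ s' = -s' → σ = τ := by
    intro σ τ h1 h2
    have h3 : ∀ ρ : M' ≃ₐ[M] M', ρ s' = -s' → ρ s = -s := by
      intro ρ h4
      rw [hcσ, hs', ← neg_div, div_left_inj' hc0] at h4
      exact h4
    ext x
    obtain ⟨a, b, hx⟩ := hgen x
    rw [hx, map_add, map_mul, map_add, map_mul, AlgEquiv.commutes, AlgEquiv.commutes,
      AlgEquiv.commutes, AlgEquiv.commutes, h3 σ h1, h3 τ h2]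
  have hell : (tw K M' A B d).IsElliptic := tw_ell hAB (hD.ne d hd)
  exact ⟨bdd_step (tw_map K (M := M) (M' := M') A B d) (tw_map K (M := M) (M' := M') A B d')
      hR hσ huniq (H d hd).1 (H d' hd').1,
    fin_step (tw_map K (M := M) (M' := M') A B d) (tw_map K (M := M) (M' := M') A B d')
      hR hσ huniq (H d hd).2 (H d' hd').2⟩

theorem goodK_triv {D : Set K} (hD : Mul2K D) {A B : K} (hAB : 4 * A ^ 3 + 27 * B ^ 2 ≠ 0)
    {M M' : Type} [Field M] [NumberField M] [Field M'] [NumberField M'] [Algebra K M] [Algebra K M']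
    [Algebra M M'] [IsScalarTower K M M']
    (hs : Function.Surjective (algebraMap M M')) (H : GoodK D A B M) : GoodK D A B M' := by
  refine goodK_step hD hAB (M := M) (M' := M') hD.one (s := 1) (by simp) ?_ H
  intro x
  obtain ⟨a, ha⟩ := hs x
  exact ⟨a, 0, by simp [ha]⟩

section Fields

variable {N F : Type} [Field N] [NumberField N] [Field F] [CharZero F] [Algebra N F]

/-- the field `k + k r` for `r ^ 2 ∈ k` -/
def ext2 (k : IntermediateField N F) (r : F) (hr : r ^ 2 ∈ k) :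
    IntermediateField N F where
  carrier := {x | ∃ a ∈ k, ∃ b ∈ k, x = a + b * r}
  mul_mem' := by
    rintro x y ⟨a, ha, b, hb, rfl⟩ ⟨c, hc, d, hd, rfl⟩
    exact ⟨a * c + b * d * r ^ 2, k.add_mem (k.mul_mem ha hc) (k.mul_mem (k.mul_mem hb hd) hr),
      a * d + b * c, k.add_mem (k.mul_mem ha hd) (k.mul_mem hb hc), by ring⟩
  one_mem' := ⟨1, k.one_mem, 0, k.zero_mem, by ring⟩
  add_mem' := by
    rintro x y ⟨a, ha, b, hb, rfl⟩ ⟨c, hc, d, hd, rfl⟩
    exact ⟨a + c, k.add_mem ha hc, b + d, k.add_mem hb hd, by ring⟩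
  zero_mem' := ⟨0, k.zero_mem, 0, k.zero_mem, by ring⟩
  algebraMap_mem' := by
    intro c
    exact ⟨algebraMap N F c, k.algebraMap_mem c, 0, k.zero_mem, by ring⟩
  inv_mem' := by
    rintro x ⟨a, ha, b, hb, rfl⟩
    by_cases h0 : a + b * r = 0
    · exact ⟨0, k.zero_mem, 0, k.zero_mem, by rw [h0]; simp⟩
    · by_cases h1 : a - b * r = 0
      · have h2 : a + b * r = 2 * a := by linear_combination -h1
        refine ⟨(2 * a)⁻¹, k.inv_mem (k.mul_mem ?_ ha), 0, k.zero_mem, by rw [h2]; ring⟩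
        have : ((2 : ℕ) : F) ∈ k := natCast_mem k 2
        exact_mod_cast this
      · have h3 : a ^ 2 - b ^ 2 * r ^ 2 ≠ 0 := by
          have : a ^ 2 - b ^ 2 * r ^ 2 = (a + b * r) * (a - b * r) := by ring
          rw [this]
          exact mul_ne_zero h0 h1
        have hm : a ^ 2 - b ^ 2 * r ^ 2 ∈ k :=
          k.sub_mem (pow_mem ha 2) (k.mul_mem (pow_mem hb 2) hr)
        refine ⟨a * (a ^ 2 - b ^ 2 * r ^ 2)⁻¹, k.mul_mem ha (k.inv_mem hm),
          -b * (a ^ 2 - b ^ 2 * r ^ 2)⁻¹, k.mul_mem (k.neg_mem hb) (k.inv_mem hm), ?_⟩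
        have h4 : a * (a ^ 2 - b ^ 2 * r ^ 2)⁻¹ + -b * (a ^ 2 - b ^ 2 * r ^ 2)⁻¹ * r =
            (a - b * r) * (a ^ 2 - b ^ 2 * r ^ 2)⁻¹ := by ring
        rw [h4]
        have h5 : a ^ 2 - b ^ 2 * r ^ 2 = (a + b * r) * (a - b * r) := by ring
        rw [h5, mul_inv]
        field_simp

variable [Algebra K N] [Algebra K F] [IsScalarTower K N F]

/-- `k` is a number field and good. -/
def GoodI (D : Set K) (A B : K) (k : IntermediateField N F) : Prop :=
  ∃ _ : NumberField k, GoodK D A B k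

theorem goodI_adjoin {D : Set K} (hD : Mul2K D) {A B : K} (hAB : 4 * A ^ 3 + 27 * B ^ 2 ≠ 0)
    {k : IntermediateField N F} (hk : GoodI D A B k)
    {t : F} {d : K} (hd : d ∈ D) (ht : t ^ 2 = algebraMap K F d) :
    ∃ k' : IntermediateField N F, k ≤ k' ∧ t ∈ k' ∧ GoodI D A B k' := by
  obtain ⟨hN, hk⟩ := hk
  have htF : t ^ 2 ∈ k := by
    rw [ht, IsScalarTower.algebraMap_apply K N F]
    exact k.algebraMap_mem _
  have hle : k ≤ ext2 k t htF := fun x hx => ⟨x, hx, 0, k.zero_mem, by ring⟩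
  have htm : t ∈ ext2 k t htF := ⟨0, k.zero_mem, 1, k.one_mem, by ring⟩
  letI : Algebra k (ext2 k t htF) := (IntermediateField.inclusion hle).toRingHom.toAlgebra
  have hsc : IsScalarTower N k (ext2 k t htF) := IsScalarTower.of_algebraMap_eq fun x => rfl
  have hscK : IsScalarTower K k (ext2 k t htF) := IsScalarTower.of_algebraMap_eq fun x => rfl
  have hgen : ∀ x : ext2 k t htF, ∃ a b : k,
      x = algebraMap k (ext2 k t htF) a + algebraMap k (ext2 k t htF) b * ⟨t, htm⟩ := by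
    rintro ⟨x, a, ha, b, hb, hx⟩
    exact ⟨⟨a, ha⟩, ⟨b, hb⟩, Subtype.ext hx⟩
  have hfin : Module.Finite k (ext2 k t htF) := by
    refine ⟨⟨{1, ⟨t, htm⟩}, ?_⟩⟩
    rw [eq_top_iff]
    intro x _
    obtain ⟨a, b, hx⟩ := hgen x
    rw [hx, ← mul_one (algebraMap k (ext2 k t htF) a), ← Algebra.smul_def, ← Algebra.smul_def]
    refine Submodule.add_mem _ (Submodule.smul_mem _ _ (Submodule.subset_span ?_))
      (Submodule.smul_mem _ _ (Submodule.subset_span ?_))
    · simp
    · simp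
  have hfinQ : FiniteDimensional ℚ (ext2 k t htF) := Module.Finite.trans k _
  haveI hN' : NumberField (ext2 k t htF) :=
    { to_charZero := inferInstance, to_finiteDimensional := hfinQ }
  refine ⟨ext2 k t htF, hle, htm, hN', ?_⟩
  refine goodK_step hD hAB (M := k) (M' := ext2 k t htF) hd (s := ⟨t, htm⟩) ?_ hgen hk
  apply Subtype.ext
  exact ht

theorem goodI_finset {D : Set K} (hD : Mul2K D) {A B : K} (hAB : 4 * A ^ 3 + 27 * B ^ 2 ≠ 0)
    {k : IntermediateField N F} (hk : GoodI D A B k)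
    (T : Finset F) (hT : ∀ t ∈ T, ∃ d ∈ D, t ^ 2 = algebraMap K F d) :
    ∃ k' : IntermediateField N F, k ≤ k' ∧ (∀ t ∈ T, t ∈ k') ∧ GoodI D A B k' := by
  induction T using Finset.induction_on with
  | empty => exact ⟨k, le_rfl, by simp, hk⟩
  | insert t T _ ih =>
    obtain ⟨k', h1, h2, h3⟩ := ih fun t ht => hT t (Finset.mem_insert_of_mem ht)
    obtain ⟨d, hd, ht⟩ := hT t (Finset.mem_insert_self t T)
    obtain ⟨k'', h4, h5, h6⟩ := goodI_adjoin hD hAB h3 hd ht
    refine ⟨k'', h1.trans h4, ?_, h6⟩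
    intro x hx
    rcases Finset.mem_insert.1 hx with rfl | hx
    · exact h5
    · exact h4 (h2 x hx)

/-- Every element of the field generated by the square roots lies in a good number field. -/
theorem goodI_mem {D : Set K} (hD : Mul2K D) {A B : K} (hAB : 4 * A ^ 3 + 27 * B ^ 2 ≠ 0)
    {k : IntermediateField N F} (hk : GoodI D A B k) {x : F}
    (hx : x ∈ IntermediateField.adjoin N {s : F | ∃ d ∈ D, s ^ 2 = algebraMap K F d}) :
    ∃ k' : IntermediateField N F, k ≤ k' ∧ x ∈ k' ∧ GoodI D A B k' := by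
  obtain ⟨U, hU, hxU⟩ := IntermediateField.exists_finset_of_mem_adjoin hx
  obtain ⟨k', h4, h5, h6⟩ := goodI_finset hD hAB hk U (fun t ht => hU ht)
  refine ⟨k', h4, ?_, h6⟩
  have hle : IntermediateField.adjoin N (U : Set F) ≤ k' := by
    rw [IntermediateField.adjoin_le_iff]
    intro u hu
    exact h5 u hu
  exact hle hxU

/-- The base field. -/
theorem goodI_bot {D : Set K} (hD : Mul2K D) {A B : K} (hAB : 4 * A ^ 3 + 27 * B ^ 2 ≠ 0)
    (H : GoodK D A B N) : GoodI D A B (⊥ : IntermediateField N F) := by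
  have hfinN : FiniteDimensional N (⊥ : IntermediateField N F) := inferInstance
  have hfinQ : FiniteDimensional ℚ (⊥ : IntermediateField N F) := Module.Finite.trans N _
  haveI hN' : NumberField (⊥ : IntermediateField N F) :=
    { to_charZero := inferInstance, to_finiteDimensional := hfinQ }
  refine ⟨hN', goodK_triv hD hAB (M := N) ?_ H⟩
  intro x
  obtain ⟨y, hy⟩ := IntermediateField.mem_bot.1 x.2
  exact ⟨y, Subtype.ext hy⟩

/-- **The multiquadratic step.** -/
theorem multi {D : Set K} (hD : Mul2K D) {A B : K} (hAB : 4 * A ^ 3 + 27 * B ^ 2 ≠ 0)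
    (H : ∀ d ∈ D, Finite (tw K N A B d).toAffine.Point ∧ Sha2Trivial N (tw K N A B d))
    (M : IntermediateField K F) [NumberField M]
    (hM : ∀ x ∈ M, x ∈ IntermediateField.adjoin N {s : F | ∃ d ∈ D, s ^ 2 = algebraMap K F d})
    {d : K} (hd : d ∈ D) :
    Finite (tw K M A B d).toAffine.Point ∧ H14T1.TwoPartFinite M (tw K M A B d) := by
  have H' : GoodK D A B N := fun d hd => ⟨H14T1.bdd_of_sha2 (H d hd).2, (H d hd).1⟩
  obtain ⟨α, hα⟩ := Field.exists_primitive_element ℚ M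
  obtain ⟨k', -, h2, hN, hG⟩ := goodI_mem hD hAB (goodI_bot (F := F) hD hAB H') (hM α α.2)
  have hle : ∀ x : M, (x : F) ∈ k' := by
    have h3 : IntermediateField.adjoin ℚ {α} ≤
        ((k'.toSubfield.comap (algebraMap M F)).toIntermediateField fun q => by
          show algebraMap M F (algebraMap ℚ M q) ∈ k'
          have hq : algebraMap M F (algebraMap ℚ M q) = ((q : ℚ) : F) := by simp
          rw [hq]
          exact SubfieldClass.ratCast_mem k' q) := by
      rw [IntermediateField.adjoin_le_iff]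
      intro y hy
      rw [Set.mem_singleton_iff] at hy
      subst hy
      exact h2
    rw [hα] at h3
    exact fun x => h3 (IntermediateField.mem_top (x := x))
  let g : M →+* k' := (algebraMap M F).codRestrict k' hle
  letI : Algebra M k' := g.toAlgebra
  haveI : IsScalarTower K M k' := IsScalarTower.of_algebraMap_eq fun x => Subtype.ext rfl
  haveI : FiniteDimensional M k' := Module.Finite.of_restrictScalars_finite ℚ M k'
  obtain ⟨⟨n, hNb⟩, hfinF⟩ := hG d hd
  have hV : (tw K M A B d).map (algebraMap M k') = tw K k' A B d := tw_map K A B d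
  have hfr : Module.finrank M k' ≠ 0 := Module.finrank_pos.ne'
  haveI : (tw K M A B d).IsElliptic := tw_ell hAB (hD.ne d hd)
  constructor
  · exact Finite.of_injective (pm (algebraMap M k') hV) (pm_injective _ hV)
  · refine H14T1.twoPartFinite_of ((sha_finite_torsion (tw K M A B d)
      (2 ^ n * Module.finrank M k') (mul_ne_zero (by positivity) hfr)).subset ?_)
    rintro x ⟨m, hm⟩
    have h1 : 2 ^ n • Sha.res hV x = 0 := by
      refine hNb _ ⟨m, ?_⟩
      rw [← map_nsmul, hm, map_zero]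
    have h2 := congrArg (Sha.cor hV) h1
    rw [map_nsmul, map_zero, Sha.cor_res, ← mul_nsmul'] at h2
    exact h2

end Fields

end H30MQ

end S_H30_MQ_Mu

section S_H30_MQ_Fg

set_option autoImplicit false
set_option linter.unusedSectionVars false
open scoped Classical

open WithZero NumberField IsDedekindDomain H38RT
open H38T1 (SC sc scu rep eo la si Pri OddP tp unif)
open H76PP H36MT

namespace H30MQ

section Fields

variable {K : Type} [Field K] [NumberField K]

/-- Monotonicity of the fields generated by a set. -/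
theorem adj_mono {L F : Type} [Field L] [Field F] [Algebra K L] [Algebra K F] [Algebra L F]
    [IsScalarTower K L F] {N₁ N₂ : IntermediateField K L} (h : N₁ ≤ N₂) (S : Set F) {x : F}
    (hx : x ∈ IntermediateField.adjoin N₁ S) : x ∈ IntermediateField.adjoin N₂ S := by
  induction hx using IntermediateField.adjoin_induction with
  | mem x hx => exact IntermediateField.subset_adjoin _ _ hx
  | algebraMap x =>
    exact (IntermediateField.adjoin N₂ S).algebraMap_mem ⟨x.1, h x.2⟩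
  | add x y _ _ hx hy => exact add_mem hx hy
  | inv x _ hx => exact inv_mem hx
  | mul x y _ _ hx hy => exact mul_mem hx hy

/-- Every element of the field generated over `L` by `S` is in the field generated over a finite
Galois extension of `K` in `L`. -/
theorem adj_fin {L F : Type} [Field L] [Field F] [Algebra K L] [Algebra K F] [Algebra L F]
    [IsScalarTower K L F] [IsGalois K L] (S : Set F) {x : F}
    (hx : x ∈ IntermediateField.adjoin L S) : ∃ N : IntermediateField K L, FiniteDimensional K N ∧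
      IsGalois K N ∧ x ∈ IntermediateField.adjoin N S := by
  have key : ∀ x y z : F, (∃ N : IntermediateField K L, FiniteDimensional K N ∧
      IsGalois K N ∧ x ∈ IntermediateField.adjoin N S) →
      (∃ N : IntermediateField K L, FiniteDimensional K N ∧
      IsGalois K N ∧ y ∈ IntermediateField.adjoin N S) →
      (∀ N : IntermediateField K L, x ∈ IntermediateField.adjoin N S →
        y ∈ IntermediateField.adjoin N S → z ∈ IntermediateField.adjoin N S) →
      ∃ N : IntermediateField K L, FiniteDimensional K N ∧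
        IsGalois K N ∧ z ∈ IntermediateField.adjoin N S := by
    rintro x y z ⟨N₁, f₁, g₁, h₁⟩ ⟨N₂, f₂, g₂, h₂⟩ h
    refine ⟨N₁ ⊔ N₂, inferInstance, inferInstance, h _ (adj_mono le_sup_left S h₁)
      (adj_mono le_sup_right S h₂)⟩
  induction hx using IntermediateField.adjoin_induction with
  | mem x hx =>
    exact ⟨⊥, inferInstance, inferInstance, IntermediateField.subset_adjoin _ _ hx⟩
  | algebraMap x =>
    have hfin : FiniteDimensional K (IntermediateField.adjoin K {x}) :=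
      IntermediateField.adjoin.finiteDimensional
        (Algebra.IsIntegral.isIntegral (R := K) x)
    have h1 : x ∈ IntermediateField.normalClosure K (IntermediateField.adjoin K {x}) L :=
      IntermediateField.le_normalClosure _ (IntermediateField.mem_adjoin_simple_self K x)
    have h2 : FiniteDimensional K
      (IntermediateField.normalClosure K (IntermediateField.adjoin K {x}) L) := inferInstance
    have h3 : IsGalois K
      (IntermediateField.normalClosure K (IntermediateField.adjoin K {x}) L) := { }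
    revert h1 h2 h3
    generalize IntermediateField.normalClosure K (IntermediateField.adjoin K {x}) L = N
    intro h1 h2 h3
    exact ⟨N, h2, h3, (IntermediateField.adjoin N S).algebraMap_mem ⟨x, h1⟩⟩
  | add x y _ _ hx hy => exact key x y _ hx hy fun N h1 h2 => add_mem h1 h2
  | inv x _ hx => exact key x x _ hx hx fun N h1 _ => inv_mem h1
  | mul x y _ _ hx hy => exact key x y _ hx hy fun N h1 h2 => mul_mem h1 h2

/-- A number field generated by the square roots is generated over a number field in `L`. -/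
theorem fld_fin {L F : Type} [Field L] [Field F] [CharZero F] [Algebra K L] [Algebra K F]
    [Algebra L F] [IsScalarTower K L F] [IsGalois K L] (S : Set F)
    (M : IntermediateField K F) [NumberField M]
    (hM : ∀ x ∈ M, x ∈ IntermediateField.adjoin L S) : ∃ N : IntermediateField K L,
      NumberField N ∧ IsGalois K N ∧ ∀ x ∈ M, x ∈ IntermediateField.adjoin N S := by
  obtain ⟨α, hα⟩ := Field.exists_primitive_element ℚ M
  obtain ⟨N, hN, hG, h1⟩ := adj_fin (K := K) S (hM α α.2)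
  have hc : CharZero N := inferInstance
  have hfinQ : FiniteDimensional ℚ N := Module.Finite.trans K _
  refine ⟨N, { to_charZero := hc, to_finiteDimensional := hfinQ }, hG, ?_⟩
  have h3 : IntermediateField.adjoin ℚ {α} ≤
      (((IntermediateField.adjoin N S).toSubfield.comap (algebraMap M F)).toIntermediateField
        fun q => by
        have hq : algebraMap M F (algebraMap ℚ M q) = ((q : ℚ) : F) := by simp
        show algebraMap M F (algebraMap ℚ M q) ∈ IntermediateField.adjoin N S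
        rw [hq]
        exact SubfieldClass.ratCast_mem _ q) := by
    rw [IntermediateField.adjoin_le_iff]
    intro y hy
    rw [Set.mem_singleton_iff] at hy
    subst hy
    exact h1
  rw [hα] at h3
  exact fun x hx => h3 (IntermediateField.mem_top (x := (⟨x, hx⟩ : M)))

end Fields

end H30MQ

end S_H30_MQ_Fg

section S_H30_MQ_Fc

set_option autoImplicit false
set_option linter.unusedSectionVars false
open scoped Classical

open WithZero NumberField IsDedekindDomain H38RT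
open H38T1 (SC sc scu rep eo la si Pri OddP tp unif ka)
open H76PP H76MQ

namespace H30MQ

theorem good_not_bad {K : Type} [Field K] [NumberField K]
    {S T₁ T : Finset (HeightOneSpectrum (𝓞 K))} (hT : T₁ ⊆ T) {b : ℕ} {A B : 𝓞 K}
    (hG : GoodSt S T₁ b A B) : ¬ H36MT.BadS S T A B := by
  rintro ⟨L, _, _, _, θ, c, hL, hc, hn, heo, hla⟩
  obtain ⟨_, _, hφ⟩ := hG L θ hL
  let _ : Module (ZMod 2) (SC L) := AddCommGroup.zmodModule fun x => H38T1.SC.two_smul x
  have h1 : ∃ φ : SC L →+ ZMod 2, φ c ≠ 0 := by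
    by_contra hcon
    push Not at hcon
    exact hc ((Module.forall_dual_apply_eq_zero_iff (ZMod 2) c).1 fun φ => hcon φ.toAddMonoidHom)
  obtain ⟨φ, hφc⟩ := h1
  obtain ⟨v, hv, hv'⟩ := hφ φ
  have hcH : c ∈ (HH K S : AddSubgroup (SC L)) := ⟨hn, heo⟩
  obtain ⟨w, hw⟩ : ∃ w : HeightOneSpectrum (𝓞 L), dn K w = v := exists_above (L := L) v
  apply hφc
  rw [← hv' c hcH w hw]
  exact hla w (by rw [hw]; exact hT hv)

theorem final_countR (K : Type) [Field K] [NumberField K] {C : Cfg K} (hC : C.Ok)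
    {Z : Set (HeightOneSpectrum (𝓞 K))} (hZ : Z.Infinite) :
    ∃ (Sg : Finset (HeightOneSpectrum (𝓞 K))) (c X₀ : ℝ), C.S ⊆ Sg ∧
      (∀ v ∈ Sg, v ∈ C.S ∨ v ∈ Z) ∧ 0 < c ∧ ∀ X : ℝ, X₀ ≤ X →
      ∃ G : Finset (𝓞 K × 𝓞 K),
        (∀ p ∈ G, p ∈ Bx K X ∧ (∀ s : K →+* ℝ, 0 < s (p.1 : K)) ∧
          (∀ v ∈ C.R, ∀ t : 𝓞 K, t ^ 3 + p.1 * t + p.2 ∉ v.asIdeal) ∧
          ∀ d : 𝓞 K, TwOk C d → ∀ P : Finset (HeightOneSpectrum (𝓞 K)), Sg ⊆ P →
            H36MT.RelG K P (d ^ 2 * p.1) (d ^ 3 * p.2)) ∧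
        (∀ p ∈ G, ∀ q ∈ G, p.1 ^ 3 * q.2 ^ 2 = q.1 ^ 3 * p.2 ^ 2 → p = q) ∧
        c * ((Bx K X).ncard : ℝ) ≤ (G.card : ℝ) := by
  have H : Blocks K := blocks_of_HR2 K fun h hd => hr2 h hd
  obtain ⟨m, e, A₀, B₀, hm0, he, hmS, hm, hcls⟩ := exists_class hC
  have hSv : ∀ v : HeightOneSpectrum (𝓞 K), (2 : 𝓞 K) ∈ v.asIdeal → v ∈ C.S := fun v hv =>
    Finset.mem_union_left _ ((hC.mem2 v).2 hv)
  obtain ⟨m', hm'0, hm't, hm'm, hm'S, -⟩ := H36MT.exists_mod hm0 C.S
  obtain ⟨Z', hZ'Z, hZ', hZ'm, hZr⟩ := H30CY.aux_set_in K hm'0 hZ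
  have hmZ : ∀ v ∈ Z', ¬ m ≤ v.asIdeal ∧ (6 : 𝓞 K) ∉ v.asIdeal := fun v hv =>
    ⟨fun h => (hZ'm v hv).1 (hm'm.trans h), (hZ'm v hv).2⟩
  have hS6 : ∀ v : HeightOneSpectrum (𝓞 K), ¬ m ≤ v.asIdeal → v ∉ C.S := by
    intro v hv hvS
    exact hv ((hmS v hvS).1.trans (Ideal.pow_le_self (by omega)))
  obtain ⟨q₀, T, b, k, c, X₀, hq₀, hT, hdis, hk0, hk, hc, hmain⟩ :=
    H36MX.count_main K hSv he hZ' hm0 hmZ hmS hm (2 * C.P.card)
  obtain ⟨Ta, hTa⟩ : ∃ Ta : Finset (HeightOneSpectrum (𝓞 K)), Ta = (Finset.range k).biUnion T :=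
    ⟨_, rfl⟩
  rw [← hTa] at hmain
  have hTa' : ∀ v ∈ Ta, v ∈ Z' ∧ v ≠ q₀ := by
    intro v hv
    rw [hTa, Finset.mem_biUnion] at hv
    obtain ⟨l, -, hl⟩ := hv
    exact hT l v hl
  have hT0 : T 0 ⊆ Ta := by
    intro v hv
    rw [hTa, Finset.mem_biUnion]
    exact ⟨0, Finset.mem_range.2 hk0, hv⟩
  obtain ⟨c', X₁, hc', h⟩ := H30CY.count_genS H (S := C.S) (e := e) (q₀ := q₀) (T := Ta) (m' := m')
    (fun J hJ => H36MT.exists_twistS hm'0 hm't hm'S (hZ'm q₀ hq₀).1 fun p hp =>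
      hZr q₀ hq₀ p (hTa' p (hJ hp)).1 (hTa' p (hJ hp)).2)
    (fun p => (p.1 - A₀ ∈ m ∧ p.2 - B₀ ∈ m ∧ ∀ s : K →+* ℝ, 0 < s (p.1 : K)) ∧
      ∀ l < k, GoodSt (C.S ∪ (Finset.range l).biUnion T) (T l) (b l) p.1 p.2)
    (fun p => (∀ s : K →+* ℝ, 0 < s (p.1 : K)) ∧
      (∀ v ∈ C.R, ∀ t : 𝓞 K, t ^ 3 + p.1 * t + p.2 ∉ v.asIdeal) ∧
      ∀ d : 𝓞 K, TwOk C d → ∀ P : Finset (HeightOneSpectrum (𝓞 K)), C.S ∪ insert q₀ Ta ⊆ P →
        H36MT.RelG K P (d ^ 2 * p.1) (d ^ 3 * p.2)) hc (by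
      intro X hX
      refine (hmain X hX).trans ?_
      have hfin : {p : 𝓞 K × 𝓞 K | p ∈ Bx K X ∧ H36MT.FamS C.S e q₀ Ta p.1 p.2 ∧
          ((p.1 - A₀ ∈ m ∧ p.2 - B₀ ∈ m ∧ ∀ s : K →+* ℝ, 0 < s (p.1 : K)) ∧
          ∀ l < k, GoodSt (C.S ∪ (Finset.range l).biUnion T) (T l) (b l) p.1 p.2) ∧
          ¬ H36MT.BadS C.S Ta p.1 p.2}.Finite := (H.fin X).subset fun p hp => hp.1
      refine Nat.cast_le.2 (Set.ncard_le_ncard ?_ hfin)
      rintro p ⟨h1, h2, h3, h4⟩
      refine ⟨h1, h2, ⟨h3, h4⟩, ?_⟩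
      have h5 := h4 0 hk0
      rw [Finset.range_zero, Finset.biUnion_empty, Finset.union_empty] at h5
      exact good_not_bad hT0 h5)
    (by
      rintro p hF ⟨hP, hG⟩ -
      have hFQ := hcls q₀ Ta p.1 p.2 hP.1 hP.2.1 hP.2.2 hF
      have hres := hFQ.res
      rw [hTa] at hFQ
      obtain ⟨J, hJ, hg⟩ := main_local hC (hS6 q₀ (hmZ q₀ hq₀).1) hk0 T b
        (fun i _ j _ hij => hdis i j hij)
        (fun v hv => by
          rw [← hTa] at hv
          exact ⟨hS6 v (hmZ v (hTa' v hv).1).1, (hTa' v hv).2⟩) hFQ hG hk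
      rw [← hTa] at hJ hg
      refine ⟨J, hJ, fun D hDm hD => ⟨?_, ?_, ?_⟩⟩
      · intro s
        change 0 < s ((D ^ 2 * p.1 : 𝓞 K) : K)
        have e1 : ((D ^ 2 * p.1 : 𝓞 K) : K) = (D : K) ^ 2 * (p.1 : K) := by push_cast; rfl
        rw [e1, map_mul, map_pow]
        exact mul_pos (pow_pos (hD.pos s) 2) (hP.2.2 s)
      · intro v hv t ht
        have hvS : v ∈ C.S := Finset.mem_union_right _ (Finset.mem_union_right _ hv)
        have hDv : D - 1 ∈ v.asIdeal :=
          Ideal.pow_le_self (by omega) ((hmS v hvS).1 (hm'm hDm))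
        apply hres v hv t
        have e1 : t ^ 3 + p.1 * t + p.2 = (t ^ 3 + D ^ 2 * p.1 * t + D ^ 3 * p.2) -
            (D - 1) * ((D + 1) * p.1 * t + (D ^ 2 + D + 1) * p.2) := by ring
        rw [e1]
        exact v.asIdeal.sub_mem ht (v.asIdeal.mul_mem_right _ hDv)
      · intro d hd P hP'
        have h1 := hg D hD d hd P (Finset.subset_union_left.trans hP')
          (((Finset.subset_insert _ _).trans Finset.subset_union_right).trans hP')
          (hP' (Finset.mem_union_right _ (Finset.mem_insert_self _ _)))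
        have e1 : d ^ 2 * (D ^ 2 * p.1) = (D * d) ^ 2 * p.1 := by ring
        have e2 : d ^ 3 * (D ^ 3 * p.2) = (D * d) ^ 3 * p.2 := by ring
        change H36MT.RelG K P (d ^ 2 * (D ^ 2 * p.1)) (d ^ 3 * (D ^ 3 * p.2))
        rw [e1, e2]
        exact h1)
  refine ⟨C.S ∪ insert q₀ Ta, c', X₁, Finset.subset_union_left, fun v hv => ?_, hc', h⟩
  rcases Finset.mem_union.1 hv with h1 | h1
  · exact Or.inl h1
  · right
    rcases Finset.mem_insert.1 h1 with h2 | h2
    · rw [h2]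
      exact hZ'Z hq₀
    · exact hZ'Z (hTa' v h2).1

end H30MQ

end S_H30_MQ_Fc

section S_H30_MQ_Fh

set_option autoImplicit false
set_option linter.unusedSectionVars false
open scoped Classical

open WithZero NumberField IsDedekindDomain H38RT
open H38T1 (SC sc scu rep eo la si Pri OddP tp unif ka)
open H76PP H30ZO H36MT H36CY

namespace H30MQ

/-- Admissible extensions: Galois, finite layers of two-power degree, and every prime splits completely,
or it does not divide two and the cubic has no root modulo it, or it is unramified and not in `S`. -/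
structure AdmM (K L : Type) [Field K] [NumberField K] [Field L] [Algebra K L]
    (S : Finset (HeightOneSpectrum (𝓞 K))) (p : 𝓞 K × 𝓞 K) : Prop where
  gal : IsGalois K L
  deg : ∀ (N : IntermediateField K L) [NumberField N], IsGalois K N →
    ∃ r : ℕ, Module.finrank K N = 2 ^ r
  loc : ∀ v : HeightOneSpectrum (𝓞 K),
    (∃ ι : L →+* v.adicCompletion K, ∀ x : K,
      ι (algebraMap K L x) = algebraMap K (v.adicCompletion K) x) ∨
    ((2 : 𝓞 K) ∉ v.asIdeal ∧ ∀ t : 𝓞 K, t ^ 3 + p.1 * t + p.2 ∉ v.asIdeal) ∨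
    (v ∉ S ∧ ¬ RamF K L v)

section Main

variable {K : Type} [Field K] [NumberField K]

theorem val_two {v : HeightOneSpectrum (𝓞 K)} (h : (2 : 𝓞 K) ∉ v.asIdeal) :
    v.valuation K 2 = 1 := oddP_of h

theorem dsc_pos {A B : 𝓞 K} (hA : ∀ s : K →+* ℝ, 0 < s (A : K)) (s : K →+* ℝ) :
    0 < s (4 * (A : K) ^ 3 + 27 * (B : K) ^ 2) := by
  have h1 : s (4 * (A : K) ^ 3 + 27 * (B : K) ^ 2) = 4 * s (A : K) ^ 3 + 27 * s (B : K) ^ 2 := by
    simp only [map_add, map_mul, map_pow, map_ofNat]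
  rw [h1]
  have h2 := hA s
  positivity

/-- All fields in an admissible extension. -/
theorem pf_of_adm {S : Finset (HeightOneSpectrum (𝓞 K))} {p : 𝓞 K × 𝓞 K}
    (hpos : ∀ s : K →+* ℝ, 0 < s (p.1 : K)) {d : 𝓞 K} (hd : d ≠ 0)
    (hrel : ∀ P : Finset (HeightOneSpectrum (𝓞 K)), S ⊆ P → RelG K P (d ^ 2 * p.1) (d ^ 3 * p.2))
    {L : Type} [Field L] [Algebra K L] (hL : AdmM K L S p) :
    PF K L (d ^ 2 * p.1, d ^ 3 * p.2) := by
  have hdK : (d : K) ≠ 0 := coe_ne hd
  have h0 := hrel S subset_rfl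
  have e1 : ((d ^ 2 * p.1 : 𝓞 K) : K) = (d : K) ^ 2 * (p.1 : K) := by push_cast; rfl
  have e2 : ((d ^ 3 * p.2 : 𝓞 K) : K) = (d : K) ^ 3 * (p.2 : K) := by push_cast; rfl
  have hH : HasP K S (d ^ 2 * p.1, d ^ 3 * p.2) := hasP_of_rel hrel
  have hgal := hL.gal
  -- the curve itself
  have hne : 4 * (p.1 : K) ^ 3 + 27 * (p.2 : K) ^ 2 ≠ 0 := by
    intro h
    apply h0.ne
    apply RingOfIntegers.coe_injective
    rw [map_zero]
    have h1 : (algebraMap (𝓞 K) K) (4 * (d ^ 2 * p.1) ^ 3 + 27 * (d ^ 3 * p.2) ^ 2) =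
        (d : K) ^ 6 * (4 * (p.1 : K) ^ 3 + 27 * (p.2 : K) ^ 2) := by
      simp only [map_add, map_mul, map_pow, map_ofNat]
      ring
    rw [h1, h, mul_zero]
  have hirr : ∀ t : K, t ^ 3 + (p.1 : K) * t + (p.2 : K) ≠ 0 := by
    intro t ht
    apply h0.irr ((d : K) * t)
    rw [e1, e2]
    linear_combination (d : K) ^ 3 * ht
  refine hH.main L hL.gal hL.deg ?_ ?_
  · intro v hv hns _ N _ hN
    obtain ⟨r, hr⟩ := hL.deg N hN
    rcases hL.loc v with h | ⟨h2, hn⟩ | ⟨hvS, hvr⟩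
    · exact absurd h hns
    · have h3 := H36O2.descAt_noroot (N := N) hr (val_two h2) hd hne hirr hn
      change DescAt K N v ((d ^ 2 * p.1 : 𝓞 K) : K) ((d ^ 3 * p.2 : 𝓞 K) : K)
      rw [e1, e2]
      exact h3
    · rcases hv with h | h
      · exact absurd h hvS
      · exact absurd h hvr
  · intro s
    left
    change 0 < s (4 * ((d ^ 2 * p.1 : 𝓞 K) : K) ^ 3 + 27 * ((d ^ 3 * p.2 : 𝓞 K) : K) ^ 2)
    refine dsc_pos (fun s => ?_) s
    rw [e1, map_mul, map_pow]
    have h5 : s (d : K) ≠ 0 := (map_ne_zero s).2 hdK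
    have h6 := hpos s
    positivity

/-- The set of the products of the elements of `D`. -/
theorem mul2K_closure {D : Finset (𝓞 K)} (hD : ∀ d ∈ D, d ≠ 0) :
    Mul2K {x : K | ∃ d ∈ Submonoid.closure (D : Set (𝓞 K)), x = (d : K)} := by
  have hne : ∀ d ∈ Submonoid.closure (D : Set (𝓞 K)), d ≠ 0 := by
    intro d hd
    induction hd using Submonoid.closure_induction with
    | mem d hd => exact hD d hd
    | one => exact one_ne_zero
    | mul x y _ _ hx hy => exact mul_ne_zero hx hy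
  refine ⟨⟨1, one_mem _, (map_one _).symm⟩, ?_, ?_⟩
  · rintro _ ⟨d, hd, rfl⟩
    exact coe_ne (hne d hd)
  · rintro _ ⟨d, hd, rfl⟩ _ ⟨d', hd', rfl⟩
    exact ⟨((d * d' : 𝓞 K) : K), ⟨d * d', mul_mem hd hd', rfl⟩, 1, one_ne_zero, by
      rw [one_pow, mul_one]
      exact (map_mul (algebraMap (𝓞 K) K) d d').symm⟩

/-- The fields generated by square roots over an extension of `K` in which all twists are trivial. -/
theorem fin_of_pf {D : Finset (𝓞 K)} (hD : ∀ d ∈ D, d ≠ 0) {p : 𝓞 K × 𝓞 K}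
    (hne : 4 * (p.1 : K) ^ 3 + 27 * (p.2 : K) ^ 2 ≠ 0)
    {L : Type} [Field L] [Algebra K L] [IsGalois K L]
    (hL : ∀ d ∈ Submonoid.closure (D : Set (𝓞 K)), PF K L (d ^ 2 * p.1, d ^ 3 * p.2))
    {F : Type} [Field F] [Algebra K F] [Algebra L F] [IsScalarTower K L F]
    (M : IntermediateField K F) [NumberField M]
    (hM : ∀ x ∈ M, x ∈ IntermediateField.adjoin L {s : F | ∃ d ∈ D, s ^ 2 = algebraMap K F (d : K)})
    {d : 𝓞 K} (hd : d ∈ Submonoid.closure (D : Set (𝓞 K))) :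
    Finite (⟨0, 0, 0, algebraMap K M ((d ^ 2 * p.1 : 𝓞 K) : K),
      algebraMap K M ((d ^ 3 * p.2 : 𝓞 K) : K)⟩ : WeierstrassCurve M).toAffine.Point ∧
    H14T1.TwoPartFinite M (⟨0, 0, 0, algebraMap K M ((d ^ 2 * p.1 : 𝓞 K) : K),
      algebraMap K M ((d ^ 3 * p.2 : 𝓞 K) : K)⟩ : WeierstrassCurve M) := by
  have hc : CharZero F := charZero_of_injective_algebraMap (algebraMap K F).injective
  obtain ⟨N, hN, hG, hMN⟩ := fld_fin (K := K) _ M hM
  have e1 : ∀ d : 𝓞 K, ((d ^ 2 * p.1 : 𝓞 K) : K) = (d : K) ^ 2 * (p.1 : K) := fun d => by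
    push_cast; rfl
  have e2 : ∀ d : 𝓞 K, ((d ^ 3 * p.2 : 𝓞 K) : K) = (d : K) ^ 3 * (p.2 : K) := fun d => by
    push_cast; rfl
  have key := multi (K := K) (N := N) (F := F) (mul2K_closure hD) (A := (p.1 : K)) (B := (p.2 : K))
    hne (by
      rintro _ ⟨d, hd, rfl⟩
      have h1 := hL d hd N
      have h2 : tw K N (p.1 : K) (p.2 : K) (d : K) =
          ⟨0, 0, 0, algebraMap K N ((d ^ 2 * p.1 : 𝓞 K) : K),
            algebraMap K N ((d ^ 3 * p.2 : 𝓞 K) : K)⟩ := by
        rw [e1, e2]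
        rfl
      rw [h2]
      exact ⟨h1.1, h1.2.2⟩) M (by
      intro x hx
      refine IntermediateField.adjoin.mono N _ _ ?_ (hMN x hx)
      rintro s ⟨d, hd, hs⟩
      exact ⟨(d : K), ⟨d, Submonoid.subset_closure hd, rfl⟩, hs⟩)
    (d := (d : K)) ⟨d, hd, rfl⟩
  rw [e1, e2]
  exact key

end Main

end H30MQ

end S_H30_MQ_Fh

section S_H30_MQ_Fin

set_option autoImplicit false
set_option linter.unusedSectionVars false
open scoped Classical

open WithZero NumberField IsDedekindDomain H38RT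
open H38T1 (SC sc scu rep eo la si Pri OddP tp unif ka)
open H76PP H30ZO H36MT H36CY

namespace H30MQ

section Final

variable {K : Type} [Field K] [NumberField K]

theorem ramF_fin (N : Type) [Field N] [NumberField N] [Algebra K N] :
    {v : HeightOneSpectrum (𝓞 K) | RamF K N v}.Finite := by
  refine ((H30PN.ram_fin K N).image (dn K)).subset ?_
  rintro v ⟨M, hM, V, hV, hr⟩
  obtain ⟨W, hW⟩ := exists_above (L := N) V
  refine ⟨W, ?_, ?_⟩
  · refine ram_up (M := M) ?_
    rw [hW]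
    exact hr
  · rw [← H73P2.dn_dn (k := M), hW, hV]

/-- **The main theorem.** -/
theorem main_MQ (h2 : ∀ v : HeightOneSpectrum (𝓞 K), (2 : 𝓞 K) ∈ v.asIdeal →
      Nv v = 2 ∧ (2 : 𝓞 K) ∉ v.asIdeal ^ 2)
    (N : Type) [Field N] [NumberField N] [Algebra K N] (hgal : IsGalois K N)
    (hdeg : ∃ r : ℕ, Module.finrank K N = 2 ^ r)
    (hN : ∀ v : HeightOneSpectrum (𝓞 K), (2 : 𝓞 K) ∈ v.asIdeal → ∃ ι : N →+* v.adicCompletion K,
      ∀ x : K, ι (algebraMap K N x) = algebraMap K (v.adicCompletion K) x)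
    (D : Finset (𝓞 K)) (hD : ∀ d ∈ D, d ≠ 0) :
    ∃ (S : Finset (HeightOneSpectrum (𝓞 K))) (c X₀ : ℝ), 0 < c ∧ ∀ X : ℝ, X₀ ≤ X →
      ∃ G : Finset (𝓞 K × 𝓞 K),
        (∀ p ∈ G, p ∈ Bx K X ∧ 4 * p.1 ^ 3 + 27 * p.2 ^ 2 ≠ 0 ∧ AdmM K N S p ∧
          ∀ (L : Type) [Field L] [Algebra K L], AdmM K L S p →
            ∀ d ∈ Submonoid.closure (D : Set (𝓞 K)), PF K L (d ^ 2 * p.1, d ^ 3 * p.2)) ∧
        (∀ p ∈ G, ∀ q ∈ G, p.1 ^ 3 * q.2 ^ 2 = q.1 ^ 3 * p.2 ^ 2 → p = q) ∧
        c * ((Bx K X).ncard : ℝ) ≤ (G.card : ℝ) := by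
  obtain ⟨R₀, hR₀⟩ : ∃ R₀ : Finset (HeightOneSpectrum (𝓞 K)), R₀ =
    (ramF_fin (K := K) N).toFinset.filter (fun v => (2 : 𝓞 K) ∉ v.asIdeal) := ⟨_, rfl⟩
  obtain ⟨C, hC, hCR, hCa, hCD⟩ := exists_cfgN N h2 hN R₀ (by
    intro v hv
    rw [hR₀] at hv
    exact (Finset.mem_filter.1 hv).2) D hD
  obtain ⟨S, c, X₀, hCS, hSZ, hc, h⟩ := final_countR K hC (H30PN.split_inf K N)
  have hclne : ∀ d ∈ Submonoid.closure (D : Set (𝓞 K)), d ≠ 0 := fun d hd => (hCD d hd).ne
  refine ⟨S, c, X₀, hc, fun X hX => ?_⟩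
  obtain ⟨G, h1, h3, h4⟩ := h X hX
  refine ⟨G, fun p hp => ?_, h3, h4⟩
  obtain ⟨g1, g2, g3, g4⟩ := h1 p hp
  refine ⟨g1, ?_, ⟨hgal, ?_, ?_⟩, fun L _ _ hL d hd => pf_of_adm g2 (hclne d hd)
    (g4 d (hCD d hd)) hL⟩
  · have h5 := (g4 1 (twOk_one hC) S subset_rfl).ne
    rw [one_pow, one_pow, one_mul, one_mul] at h5
    exact h5
  · intro N' _ _
    obtain ⟨r, hr⟩ := hdeg
    have h5 := Module.finrank_mul_finrank K N' N
    rw [hr] at h5
    obtain ⟨s, -, hs⟩ := (Nat.dvd_prime_pow Nat.prime_two).1 (Dvd.intro _ h5)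
    exact ⟨s, hs⟩
  · intro v
    by_cases hv2 : (2 : 𝓞 K) ∈ v.asIdeal
    · exact Or.inl (hN v hv2)
    by_cases hvR : v ∈ C.R
    · exact Or.inr (Or.inl ⟨hv2, g3 v hvR⟩)
    by_cases hvS : v ∈ S
    · left
      rcases hSZ v hvS with h5 | h5
      · rcases Finset.mem_union.1 h5 with h6 | h6
        · exact absurd ((hC.mem2 v).1 h6) hv2
        · rcases Finset.mem_union.1 h6 with h7 | h7
          · obtain ⟨u, hu, rfl⟩ := Finset.mem_image.1 h7
            exact hCa u hu
          · exact absurd h7 hvR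
      · exact h5
    · refine Or.inr (Or.inr ⟨hvS, fun hr => hvR (hCR ?_)⟩)
      rw [hR₀]
      exact Finset.mem_filter.2 ⟨(ramF_fin (K := K) N).mem_toFinset.2 hr, hv2⟩

end Final

end H30MQ

end S_H30_MQ_Fin
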